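import Pool.Agent.Work.MP_8c679b_co.Key.Z1

/-!
Algebra of relations on three residues.

Hints.  A relation of class `P σ` contains the graph of `y = chi σ * (c - x)`.  All statements are
monotone in the relations.  For chains use induction on `n` as in `Six/Z3.lean` (`ch_gd`, `ch_px`),
splitting on whether the last index is a special one.  Finite facts about `ZMod 3` and `ZMod 2`:
case split on the signs with `z2`, then `decide` or `fin_cases`.  For `gd_meet` encode a relation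
as a function `ZMod 3 → ZMod 3 → Bool`; if `R` and `R'` were disjoint, one of them has at most four
pairs; a good relation with at most four pairs is a cross without centre, which meets the other.
-/

set_option autoImplicit false

namespace Pool.Agent.Work.MP_8c679b_co

open Finset

namespace Rf

variable {R R' : Rf} {Q : Rl} {σ l t m τ τ' : ZMod 2}

theorem Z_sq (a : ZMod 2) : (chi a : ZMod 3) * chi a = 1 := chi_mul_self a

theorem Z_k (σ t σ' : ZMod 2) (c c' : ZMod 3) : ∃ d, ∀ x z, x + chi (σ + t + σ') * z = d →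
    ∃ y : ZMod 3, x + chi σ * y = c ∧ -(chi t) * y + chi σ' * z = c' :=
  ⟨_, Rl.Z3_pc t (fun _ _ h => h) fun _ _ h => h⟩

/-- `S` contains an affine image of `Q` -/
def Z_af (α β : ZMod 2) (c d : ZMod 3) (Q S : Rl) : Prop :=
  ∀ p q, Q p q → S (c + chi α * p) (d + chi β * q)

section
variable {α β : ZMod 2} {c d : ZMod 3} {S : Rl}

theorem Z_iff (α : ZMod 2) (c x p : ZMod 3) : c + chi α * p = x ↔ p = chi α * (x - c) := by
  revert α c x p
  decide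

theorem Z_af.inv (h : Z_af α β c d Q S) {x y : ZMod 3}
    (e : Q (chi α * (x - c)) (chi β * (y - d))) : S x y :=
  (Z_iff α c x _).2 rfl ▸ (Z_iff β d y _).2 rfl ▸ h _ _ e

theorem Z_af.mt (h : Z_af α β c d Q S) (h' : Q.Mt m) : S.Mt (m + α + β) := fun k => by
  obtain ⟨p, q, h1, h2⟩ := h' (chi α * (k - c - chi (m + α + β) * d))
  refine ⟨_, _, h p q h1, ?_⟩
  simp only [chi_add] at h2 ⊢
  linear_combination chi α * h2 + chi m * chi α * q * Z_sq β +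
    (k - c - chi m * chi α * chi β * d) * Z_sq α

theorem Z_af.p (h : Z_af α β c d Q S) (h' : Q.P σ) : S.P (σ + α + β) := by
  obtain ⟨e, h'⟩ := h'
  refine ⟨c + chi (σ + α + β) * d + chi α * e, fun x y h1 => h.inv (h' _ _ ?_)⟩
  simp only [chi_add] at h1
  linear_combination chi α * h1 + (e - chi σ * chi β * (y - d)) * Z_sq α

theorem Z_af.cs (h : Z_af α β c d Q S) (h' : Q.Cs) : S.Cs := by
  obtain ⟨x0, y0, h'⟩ := h'
  exact ⟨c + chi α * x0, d + chi β * y0, fun x y h1 => h.inv (h' _ _ (h1.imp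
    (fun e => ((Z_iff ..).1 e.symm).symm) fun e => ((Z_iff ..).1 e.symm).symm))⟩

theorem Z_af.gd (h : Z_af α β c d Q S) (h' : Q.Gd) : S.Gd := by
  refine ⟨⟨fun x => ?_, fun y => ?_⟩, fun x y => ?_⟩
  · obtain ⟨q, h1⟩ := h'.1.1 (chi α * (x - c))
    exact ⟨_, (Z_iff α c x _).2 rfl ▸ h _ q h1⟩
  · obtain ⟨p, h1⟩ := h'.1.2 (chi β * (y - d))
    exact ⟨_, (Z_iff β d y _).2 rfl ▸ h p _ h1⟩
  · obtain ⟨p, q, h1, h2⟩ := h'.2 (chi α * (x - c)) (chi β * (y - d))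
    exact ⟨_, _, h p q h1, by rwa [Ne, Z_iff, Z_iff]⟩

end

theorem Z_cl (h : R.PP σ) (τ τ' : ZMod 2) (Q : Rl) : ∃ α β c d, (∀ m, m + σ + τ + τ' = m + α + β) ∧
    (Z_af α β c d Q (Rf.cl τ τ' R Q) ∨ Z_af α β c d (fun p q => Q q p) (Rf.cl τ τ' R Q)) := by
  obtain ⟨σ1, σ2, c1, c2, rfl, h | h⟩ := h
  · exact ⟨σ1 + τ, σ2 + τ', c1, c2, fun m => by ring, Or.inl fun p q e => ⟨-(chi τ) * p,
      -(chi τ') * q, h _ _ _ _ (by rw [chi_add]; ring) (by rw [chi_add]; ring),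
        by rwa [Rl.Z3_link, Rl.Z3_link]⟩⟩
  · exact ⟨σ1 + τ', σ2 + τ, c1, c2, fun m => by ring, Or.inr fun p q e => ⟨-(chi τ) * q,
      -(chi τ') * p, h _ _ _ _ (by rw [chi_add]; ring) (by rw [chi_add]; ring),
        by rwa [Rl.Z3_link, Rl.Z3_link]⟩⟩

theorem L2.mono (h : R.L2 l t) (hR : ∀ x y u w, R x y u w → R' x y u w) : R'.L2 l t := by
  intro k k'
  obtain ⟨x, y, u, w, h1, h2⟩ := h k k'
  exact ⟨x, y, u, w, hR _ _ _ _ h1, h2⟩

theorem L2.swap1 (h : R.L2 l t) : Rf.L2 l t fun x y u w => R y x u w := by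
  intro k k'
  obtain ⟨x, y, u, w, h1, h2, h3⟩ := h (chi l * k) k'
  exact ⟨y, x, u, w, h1, by linear_combination chi l * h2 + (k - y) * Z_sq l, h3⟩

theorem L2.swap2 (h : R.L2 l t) : Rf.L2 l t fun x y u w => R x y w u := by
  intro k k'
  obtain ⟨x, y, u, w, h1, h2, h3⟩ := h k (chi t * k')
  exact ⟨x, y, w, u, h1, h2, by linear_combination chi t * h3 + (k' - w) * Z_sq t⟩

theorem L2.flip (h : R.L2 l t) : Rf.L2 t l fun x y u w => R u w x y := by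
  intro k k'
  obtain ⟨x, y, u, w, h1, h2, h3⟩ := h k' k
  exact ⟨u, w, x, y, h1, h3, h2⟩

theorem PP.swap1 (h : R.PP σ) : Rf.PP σ fun x y u w => R y x u w := by
  obtain ⟨σ1, σ2, c1, c2, rfl, h⟩ := h
  exact ⟨σ2, σ1, c2, c1, add_comm _ _, h.symm.imp (fun h x y u w a b => h _ _ _ _ b a)
    fun h x y u w a b => h _ _ _ _ b a⟩

theorem PP.swap2 (h : R.PP σ) : Rf.PP σ fun x y u w => R x y w u := by
  obtain ⟨σ1, σ2, c1, c2, rfl, h⟩ := h
  exact ⟨σ1, σ2, c1, c2, rfl, h.symm.imp (fun h x y u w => h x y w u) fun h x y u w => h x y w u⟩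

theorem PP.flip (h : R.PP σ) : Rf.PP σ fun x y u w => R u w x y := by
  have k : ∀ (a : ZMod 2) (c x u : ZMod 3), x + chi a * u = chi a * c → u + chi a * x = c := by
    decide
  obtain ⟨σ1, σ2, c1, c2, rfl, h | h⟩ := h
  · exact ⟨σ1, σ2, _, _, rfl, Or.inl fun x y u w a b => h _ _ _ _ (k _ _ _ _ a) (k _ _ _ _ b)⟩
  · exact ⟨σ2, σ1, _, _, add_comm _ _,
      Or.inr fun x y u w a b => h _ _ _ _ (k _ _ _ _ b) (k _ _ _ _ a)⟩

theorem PP.l2 (h : R.PP σ) (hs : σ = 1 + l + t) : R.L2 l t := by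
  have k : ∀ (a b l t : ZMod 2), a + b = 1 + l + t → ∀ c1 c2 k k' : ZMod 3, ∃ w,
      k - chi l * (c2 - chi b * w) + chi a * (k' - chi t * w) = c1 := by decide +kernel
  have k2 : ∀ {R : Rf} {a b c1 c2}, a + b = 1 + l + t →
      (∀ x y u w, x + chi a * u = c1 → y + chi b * w = c2 → R x y u w) → R.L2 l t :=
    fun e h k1 k2 => (k _ _ _ _ e _ _ k1 k2).elim fun w hw =>
      ⟨_, _, _, w, h _ _ _ _ hw (sub_add_cancel _ _), sub_add_cancel _ _, sub_add_cancel _ _⟩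
  obtain ⟨σ1, σ2, c1, c2, rfl, h | h⟩ := h
  exacts [k2 hs h, (k2 (R := fun x y u w => R x y w u) hs fun x y u w => h x y w u).swap2]

theorem PP.cp {σ' : ZMod 2} (h : R.PP σ) (h' : R'.PP σ') :
    (Rf.cp τ τ' R R').PP (σ + σ' + τ + τ') := by
  obtain ⟨a, b, c1, c2, rfl, h⟩ := h
  obtain ⟨a', b', d1, d2, rfl, h'⟩ := h'
  rcases h with h | h
  · obtain ⟨e1, k1⟩ := Z_k a τ a' c1 d1
    obtain ⟨e2, k2⟩ := Z_k b τ' b' c2 d2
    refine ⟨a + τ + a', b + τ' + b', e1, e2, by ring, h'.imp ?_ ?_⟩ <;>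
      intro h' x y u w p q <;> obtain ⟨r, p1, p2⟩ := k1 _ _ p <;> obtain ⟨s, q1, q2⟩ := k2 _ _ q <;>
      exact ⟨r, s, h _ _ _ _ p1 q1, h' _ _ _ _ p2 q2⟩
  · obtain ⟨e1, k1⟩ := Z_k a τ' b' c1 d2
    obtain ⟨e2, k2⟩ := Z_k b τ a' c2 d1
    refine ⟨a + τ' + b', b + τ + a', e1, e2, by ring, h'.symm.imp ?_ ?_⟩ <;>
      intro h' x y u w p q <;> obtain ⟨s, p1, p2⟩ := k1 _ _ p <;> obtain ⟨r, q1, q2⟩ := k2 _ _ q <;>
      exact ⟨r, s, h _ _ _ _ p1 q1, h' _ _ _ _ q2 p2⟩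

theorem L2.Z_clp (h : R.L2 l t) (h' : Q.P σ) (ht : t = σ + τ + τ') : (Rf.cl τ τ' R Q).Mt l := by
  obtain ⟨c, h'⟩ := h'
  intro k
  obtain ⟨x, y, r, s, h1, h2, h3⟩ := h k (-(chi τ) * c)
  refine ⟨x, y, ⟨r, s, h1, h' _ _ ?_⟩, h2⟩
  rw [ht, chi_add, chi_add] at h3
  linear_combination -(chi τ) * h3 + (c + chi σ * chi τ' * s) * Z_sq τ

theorem L2.cp_pp (h : R.L2 l t) (h' : R'.PP σ) : (Rf.cp τ τ' R R').L2 l (t + σ + τ + τ') := by
  intro k k'
  have k1 : Rl.P (t + σ + τ + τ') fun u w => u + chi (t + σ + τ + τ') * w = k' := ⟨_, fun _ _ => id⟩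
  have k2 : ∀ t σ τ τ' : ZMod 2, t = t + σ + τ + τ' + σ + 1 + 1 + τ + τ' := by decide
  obtain ⟨α, β, c, d, e, a⟩ := Z_cl h' 1 1 fun u w => u + chi (t + σ + τ + τ') * w = k'
  obtain ⟨x, y, ⟨r, s, h1, u, w, h2, h3⟩, h4⟩ := h.Z_clp (τ := τ) (τ' := τ')
    (a.elim (·.p k1) (·.p k1.swap)) (by rw [← e]; exact k2 ..) k
  exact ⟨x, y, u, w, ⟨r, s, h1, h2⟩, h4, by simpa using h3⟩

theorem PP.cp_l2 (h : R.PP σ) (h' : R'.L2 l t) : (Rf.cp τ τ' R R').L2 (l + σ + τ + τ') t :=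
  (h'.flip.cp_pp (τ := τ) (τ' := τ') h.flip).flip.mono fun x y u w ⟨r, s, h1, h2⟩ =>
    ⟨_, _, h2, by rwa [Rl.Z3_link, Rl.Z3_link]⟩

theorem PP.cl_mt (h : R.PP σ) (h' : Q.Mt m) : (Rf.cl τ τ' R Q).Mt (m + σ + τ + τ') := by
  obtain ⟨α, β, c, d, e, k | k⟩ := Z_cl h τ τ' Q
  exacts [e _ ▸ k.mt h', e _ ▸ k.mt h'.swap]

theorem PP.cl_p {σ' : ZMod 2} (h : R.PP σ) (h' : Q.P σ') :
    (Rf.cl τ τ' R Q).P (σ' + σ + τ + τ') := by
  obtain ⟨α, β, c, d, e, k | k⟩ := Z_cl h τ τ' Q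
  exacts [e _ ▸ k.p h', e _ ▸ k.p h'.swap]

theorem PP.cl_gd (h : R.PP σ) (h' : Q.Gd) : (Rf.cl τ τ' R Q).Gd := by
  obtain ⟨α, β, c, d, -, k | k⟩ := Z_cl h τ τ' Q
  exacts [k.gd h', k.gd h'.swap]

theorem PP.cl_cs (h : R.PP σ) (h' : Q.Cs) : (Rf.cl τ τ' R Q).Cs := by
  obtain ⟨α, β, c, d, -, k | k⟩ := Z_cl h τ τ' Q
  exacts [k.cs h', k.cs h'.swap]

theorem L2.cl_p (h : R.L2 l t) (h' : Q.P σ) (ht : t = σ + τ + τ') : (Rf.cl τ τ' R Q).Mt l :=
  h.Z_clp h' ht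

end Rf

variable {R : Bool → Rl} {ty i : Bool} {σ l t m : ZMod 2}

/-- one track meets the lines, the other one is a permutation -/
theorem cl_pm (h0 : (R i).Mt m) (h1 : (R (!i)).P σ)
    (hs : if ty then m = σ + l + t else m = (if i then t else l) ∧ σ + 1 = if i then l else t) :
    CL ty l t R := by
  cases ty
  · have h2 := h1.mt
    rw [hs.1] at h0
    rw [hs.2] at h2
    cases i
    exacts [⟨h0, h2⟩, ⟨h2, h0⟩]
  obtain rfl : m = σ + l + t := hs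
  obtain ⟨c, h1⟩ := h1
  intro k k'
  cases i
  · obtain ⟨x, u, h2, h3⟩ := h0 (k + chi (σ + l + t) * k' - chi l * c)
    refine ⟨x, chi l * (k - x), u, chi t * (k' - u), h2, h1 _ _ ?_, (Rf.Z_iff ..).2 rfl,
      (Rf.Z_iff ..).2 rfl⟩
    simp only [chi_add] at h3
    linear_combination -(chi l) * h3 + (c - chi σ * chi t * (k' - u)) * Rf.Z_sq l
  · obtain ⟨y, w, h2, h3⟩ := h0 (chi l * (k + chi σ * k' - c))
    refine ⟨_, y, _, w, h1 _ _ ?_, h2, sub_add_cancel _ _, sub_add_cancel _ _⟩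
    simp only [chi_add] at h3
    linear_combination -(chi l) * h3 + (c - k - chi σ * k' + chi σ * chi t * w) * Rf.Z_sq l

/-- a good relation on each track of a ring -/
theorem cl_g2 (h : ∀ i, (R i).Gd) : CL true l t R := by
  intro k k'
  obtain ⟨y, w, h1, h2⟩ := Rl.gd_meet (h true) (Rf.Z_af.gd (α := l + 1) (β := t + 1)
    (c := chi l * k) (d := chi t * k') (S := fun y w => R false (k - chi l * y) (k' - chi t * w))
    (fun p q e => by
      have a : ∀ (l : ZMod 2) (k p : ZMod 3), k - chi l * (chi l * k + chi (l + 1) * p) = p := by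
        decide
      simpa only [a] using e) (h false))
  exact ⟨_, y, _, w, h2, h1, sub_add_cancel _ _, sub_add_cancel _ _⟩

/-- a cross on one track of a ring and a total relation on the other -/
theorem cl_c2 (h0 : (R i).Cs) (h1 : (R (!i)).Tt) : CL true l t R := by
  obtain ⟨x0, y0, h0⟩ := h0
  intro k k'
  cases i
  · obtain ⟨w, h2⟩ := h1.1 (chi l * (k - x0))
    exact ⟨x0, _, _, w, h0 _ _ (Or.inl rfl), h2, (Rf.Z_iff ..).2 rfl, sub_add_cancel _ _⟩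
  · obtain ⟨u, h2⟩ := h1.1 (k - chi l * x0)
    exact ⟨_, x0, u, _, h2, h0 _ _ (Or.inl rfl), sub_add_cancel _ _, (Rf.Z_iff ..).2 rfl⟩

end Pool.Agent.Work.MP_8c679b_co
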