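import Pool.Agent.Work.MP_8c679b_co.K1.GT1
import Pool.Agent.Work.MP_8c679b_co.Six.GNorm
import Pool.Agent.Work.MP_8c679b_co.Cubic
import Pool.Agent.Work.MP_8c679b_co.Six.AGad
import Pool.Agent.Work.MP_8c679b_co.Key.Z

-- merged part: Pool.Agent.Work.MP_8c679b_co.Six.RPn
section
-- merged part: Pool.Agent.Work.MP_8c679b_co.Six.GUnitA
section
/-!
Tools for lemma UNIT: attachments, rerouting and gluing of potentials.
-/

set_option autoImplicit false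
set_option linter.unusedSectionVars false

namespace Pool.Agent.Work.MP_8c679b_co

open Finset

theorem GUnit_next (A : Finset ℕ) (h : 0 < A.card) : ∃ a ∈ A, (∀ l ∈ A, a ≤ l) ∧
    (A.erase a).card + 1 = A.card := by
  obtain ⟨a, ha, h1⟩ := exists_min_image A id (card_pos.1 h)
  exact ⟨a, ha, h1, card_erase_add_one ha⟩

theorem GUnit_min3 (A : Finset ℕ) (k : ℕ) (hk : k ∉ A) (h : 3 ≤ A.card) :
    ∃ i ∈ A, ∃ j ∈ A, i < j ∧ (∀ l ∈ A, l ≤ i ∨ j ≤ l) ∧ (j < k ∨ k < i) := by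
  obtain ⟨a0, m0, h0, c0⟩ := GUnit_next A (by omega)
  obtain ⟨a1, m1, h1, c1⟩ := GUnit_next (A.erase a0) (by omega)
  obtain ⟨a2, m2, h2, -⟩ := GUnit_next ((A.erase a0).erase a1) (by omega)
  simp only [mem_erase, and_imp] at m1 m2 h1 h2
  have e01 := h0 a1 m1.2
  have e12 := h1 a2 m2.2.1 m2.2.2
  have k0 : k ≠ a0 := fun h => hk (h ▸ m0)
  have k1 : k ≠ a1 := fun h => hk (h ▸ m1.2)
  have n1 := m1.1
  have n2 := m2.1
  by_cases hh : a0 < k ∧ k < a1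
  · refine ⟨a1, m1.2, a2, m2.2.2, by omega, fun l hl => ?_, by omega⟩
    have := h0 l hl
    have := fun x => h1 l x hl
    have := fun x y => h2 l x y hl
    omega
  · refine ⟨a0, m0, a1, m1.2, by omega, fun l hl => ?_, by omega⟩
    have := h0 l hl
    have := fun x => h1 l x hl
    omega

theorem GUnit_min4 (A : Finset ℕ) (k : ℕ) (hk : k ∉ A) (h : 4 ≤ A.card) :
    ∃ i ∈ A, ∃ j ∈ A, ∃ i' ∈ A, ∃ j' ∈ A, i < j ∧ j ≤ i' ∧ i' < j' ∧
      (∀ l ∈ A, l ≤ i ∨ j ≤ l) ∧ (∀ l ∈ A, l ≤ i' ∨ j' ≤ l) ∧ (j < k ∨ k < i) ∧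
      (j' < k ∨ k < i') := by
  obtain ⟨a0, m0, h0, c0⟩ := GUnit_next A (by omega)
  obtain ⟨a1, m1, h1, c1⟩ := GUnit_next (A.erase a0) (by omega)
  obtain ⟨a2, m2, h2, c2⟩ := GUnit_next ((A.erase a0).erase a1) (by omega)
  obtain ⟨a3, m3, h3, -⟩ := GUnit_next (((A.erase a0).erase a1).erase a2) (by omega)
  simp only [mem_erase, and_imp] at m1 m2 m3 h1 h2 h3
  have e01 := h0 a1 m1.2
  have e12 := h1 a2 m2.2.1 m2.2.2
  have e23 := h2 a3 m3.2.1 m3.2.2.1 m3.2.2.2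
  have k0 : k ≠ a0 := fun h => hk (h ▸ m0)
  have k1 : k ≠ a1 := fun h => hk (h ▸ m1.2)
  have k2 : k ≠ a2 := fun h => hk (h ▸ m2.2.2)
  have n1 := m1.1
  have n2 := m2.1
  have n3 := m3.1
  have c01 : ∀ l ∈ A, l ≤ a0 ∨ a1 ≤ l := fun l hl => by
    have := h0 l hl
    have := fun x => h1 l x hl
    omega
  have c12 : ∀ l ∈ A, l ≤ a1 ∨ a2 ≤ l := fun l hl => by
    have := h0 l hl
    have := fun x => h1 l x hl
    have := fun x y => h2 l x y hl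
    omega
  have c23 : ∀ l ∈ A, l ≤ a2 ∨ a3 ≤ l := fun l hl => by
    have := h0 l hl
    have := fun x => h1 l x hl
    have := fun x y => h2 l x y hl
    have := fun x y z => h3 l x y z hl
    omega
  by_cases hh : a0 < k ∧ k < a1
  · exact ⟨a1, m1.2, a2, m2.2.2, a2, m2.2.2, a3, m3.2.2.2, by omega, by omega, by omega, c12, c23,
      by omega, by omega⟩
  by_cases hh' : a1 < k ∧ k < a2
  · exact ⟨a0, m0, a1, m1.2, a2, m2.2.2, a3, m3.2.2.2, by omega, by omega, by omega, c01, c23,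
      by omega, by omega⟩
  · exact ⟨a0, m0, a1, m1.2, a1, m1.2, a2, m2.2.2, by omega, by omega, by omega, c01, c12,
      by omega, by omega⟩

namespace SG

variable {V E : Type} [Fintype V] [DecidableEq V] [DecidableEq E] {G : SG V E}
  {T S J Y : Finset V} {n : ℕ} {v : ℕ → V} {g : ℕ → E}

theorem GUnit_four (hc : G.Cub) (hT : G.HT T) {x : V} (hx : x ∈ T) {e1 e2 e3 e4 : E}
    (a1 : e1 ∈ G.A) (a2 : e2 ∈ G.A) (a3 : e3 ∈ G.A) (a4 : e4 ∈ G.A) (t1 : G.At e1 x)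
    (t2 : G.At e2 x) (t3 : G.At e3 x) (t4 : G.At e4 x) (n12 : e1 ≠ e2) (n13 : e1 ≠ e3)
    (n14 : e1 ≠ e4) (n23 : e2 ≠ e3) (n24 : e2 ≠ e4) (n34 : e3 ≠ e4) : False := by
  have key : ∀ e ∈ G.A, G.At e x → e ∈ G.cut {x} := fun e he ht =>
    (mem_cut_single (hT.noloop hc (Cut_tch he ht hx))).2 ⟨he, ht⟩
  have h3 := (hT.vtx hc hx).1
  have hs : ({e1, e2, e3, e4} : Finset E) ⊆ G.cut {x} := by
    intro e he
    simp only [mem_insert, mem_singleton] at he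
    rcases he with rfl | rfl | rfl | rfl
    exacts [key _ a1 t1, key _ a2 t2, key _ a3 t3, key _ a4 t4]
  have h4 : ({e1, e2, e3, e4} : Finset E).card = 4 := by
    rw [card_insert_of_notMem (by simp [n12, n13, n14]), card_insert_of_notMem (by simp [n23, n24]),
      card_pair n34]
  have := card_le_card hs
  omega

theorem GUnit_pv_sub (hp : G.Pth (G.ins S) n v g) (hn : 0 < n) : pv n v ⊆ S :=
  hp.sub_of_ins ((Pth_ends (hp.jn 0 hn)).1 (mem_ins.1 (hp.mem 0 hn)).2).1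

/-- two edges at a path vertex that do not lead from the path into the rest of `S` -/
theorem GUnit_two (hp : G.Pth (G.ins S) n v g) (hn : 0 < n)
    (hy0 : ∃ e ∈ G.cut S, G.At e (v 0)) (hy1 : ∃ e ∈ G.cut S, G.At e (v n)) {l : ℕ} (hl : l ≤ n) :
    ∃ f1 ∈ G.A, ∃ f2 ∈ G.A, f1 ≠ f2 ∧ G.At f1 (v l) ∧ G.At f2 (v l) ∧
      (f1 ∈ G.ins S → f1 ∉ G.cut (pv n v)) ∧ (f2 ∈ G.ins S → f2 ∉ G.cut (pv n v)) ∧
      (0 < l → l < n → f1 ∈ G.ins S ∧ f2 ∈ G.ins S) := by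
  have hA : ∀ i < n, g i ∈ G.A := fun i hi => ins_sub_A (hp.mem i hi)
  have hN : ∀ i < n, g i ∈ G.ins S → g i ∉ G.cut (pv n v) := fun i hi _ h =>
    not_ins_of_cut h (Pth_ins hp ins_sub_A hi)
  by_cases h0 : l = 0
  · subst h0
    obtain ⟨e, he, ht⟩ := hy0
    refine ⟨e, (mem_cut.1 he).1, g 0, hA 0 hn, fun h => not_ins_of_cut he (h ▸ hp.mem 0 hn), ht,
      (hp.at_iff hn hl).2 (Or.inl rfl), fun h => absurd h (not_ins_of_cut he), hN 0 hn, ?_⟩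
    intro h
    omega
  by_cases h1 : l = n
  · subst h1
    obtain ⟨e, he, ht⟩ := hy1
    have hl1 : l - 1 < l := by omega
    refine ⟨e, (mem_cut.1 he).1, g (l - 1), hA _ hl1,
      fun h => not_ins_of_cut he (h ▸ hp.mem _ hl1), ht,
      (hp.at_iff hl1 hl).2 (Or.inr (by omega)), fun h => absurd h (not_ins_of_cut he),
      hN _ hl1, ?_⟩
    intro _ h
    omega
  have hl1 : l - 1 < n := by omega
  have hl2 : l < n := by omega
  refine ⟨g (l - 1), hA _ hl1, g l, hA _ hl2, fun h => ?_,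
    (hp.at_iff hl1 hl).2 (Or.inr (by omega)), (hp.at_iff hl2 hl).2 (Or.inl rfl), hN _ hl1,
    hN _ hl2, fun _ _ => ⟨hp.mem _ hl1, hp.mem _ hl2⟩⟩
  have := hp.einj hl1 hl2 h
  omega

/-- the attachments of an edge set leaving the path -/
theorem GUnit_att (hc : G.Cub) (hT : G.HT T) (hS : S ⊆ T) (hp : G.Pth (G.ins S) n v g) {k : ℕ}
    (hk0 : 0 < k) (hkn : k < n) (hx : ∃ e ∈ G.cut S, G.At e (v k))
    (hy0 : ∃ e ∈ G.cut S, G.At e (v 0)) (hy1 : ∃ e ∈ G.cut S, G.At e (v n)) (F : Finset E)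
    (hF : ∀ e ∈ F, e ∈ G.ins S ∧ e ∈ G.cut (pv n v)) :
    ∃ A : Finset ℕ, F.card ≤ A.card ∧ k ∉ A ∧ ∀ l, l ∈ A ↔ l ≤ n ∧ ∃ e ∈ F, G.At e (v l) := by
  classical
  have hn : 0 < n := by omega
  have hvT : ∀ l ≤ n, v l ∈ T := fun l hl => hS (GUnit_pv_sub hp hn (mem_pv.2 ⟨l, hl, rfl⟩))
  have hA : ∀ l, l ∈ (range (n + 1)).filter (fun l => ∃ e ∈ F, G.At e (v l)) ↔
      l ≤ n ∧ ∃ e ∈ F, G.At e (v l) := fun l => by
    rw [mem_filter, mem_range, Nat.lt_succ_iff]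
  refine ⟨_, ?_, ?_, hA⟩
  · refine card_le_card_of_forall_subsingleton (fun e l => G.At e (v l)) (fun e he => ?_) ?_
    · obtain ⟨l, hl, h⟩ := mem_pv.1 (Spl_ie (hF e he).2)
      have ht : G.At e (v l) := h ▸ ie_at
      exact ⟨l, (hA l).2 ⟨hl, e, he, ht⟩, ht⟩
    · intro l hl e he e' he'
      have hl' := ((hA l).1 hl).1
      obtain ⟨he1, he2⟩ := he
      obtain ⟨he1', he2'⟩ := he'
      by_contra hne
      obtain ⟨f1, a1, f2, a2, n12, t1, t2, c1, c2, -⟩ := GUnit_two hp hn hy0 hy1 hl'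
      have q := hF e he1
      have q' := hF e' he1'
      exact GUnit_four hc hT (hvT l hl') a1 a2 (ins_sub_A q.1) (ins_sub_A q'.1) t1 t2 he2 he2' n12
        (fun h => c1 (h ▸ q.1) (h ▸ q.2)) (fun h => c1 (h ▸ q'.1) (h ▸ q'.2))
        (fun h => c2 (h ▸ q.1) (h ▸ q.2)) (fun h => c2 (h ▸ q'.1) (h ▸ q'.2)) hne
  · intro hk
    obtain ⟨hk', e, he, ht⟩ := (hA k).1 hk
    obtain ⟨f1, a1, f2, a2, n12, t1, t2, c1, c2, c3⟩ := GUnit_two hp hn hy0 hy1 hk'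
    obtain ⟨z, hz, tz⟩ := hx
    have q := hF e he
    obtain ⟨i1, i2⟩ := c3 hk0 hkn
    exact GUnit_four hc hT (hvT k hk') a1 a2 (ins_sub_A q.1) (mem_cut.1 hz).1 t1 t2 ht tz n12
      (fun h => c1 (h ▸ q.1) (h ▸ q.2)) (fun h => not_ins_of_cut hz (h ▸ i1))
      (fun h => c2 (h ▸ q.1) (h ▸ q.2)) (fun h => not_ins_of_cut hz (h ▸ i2))
      (fun h => not_ins_of_cut hz (h ▸ q.1))

/-- rerouting through a connected set off the path -/
theorem GUnit_ear (hp : G.Pth (G.ins S) n v g) (hJ : J ⊆ S \ pv n v) (hcn : G.Cn J (G.ins J))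
    {i j : ℕ} (hij : i < j) (hj : j ≤ n) {e1 e2 : E} (s1 : e1 ∈ G.ins S) (c1 : e1 ∈ G.cut J)
    (t1 : G.At e1 (v i)) (s2 : e2 ∈ G.ins S) (c2 : e2 ∈ G.cut J) (t2 : G.At e2 (v j)) :
    ∃ n' v' g', G.Pth (G.ins S) n' v' g' ∧ v' 0 = v 0 ∧ v' n' = v n ∧
      (∀ l ≤ n, (l ≤ i ∨ j ≤ l) → v l ∈ pv n' v') ∧ (∃ z ∈ J, z ∈ pv n' v') ∧
      ∀ l < n, (l < i ∨ j ≤ l) → g l ∈ pe n' g' := by
  have hv : ∀ l ≤ n, v l ∉ J := fun l hl h => (mem_sdiff.1 (hJ h)).2 (mem_pv.2 ⟨l, hl, rfl⟩)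
  have hJS : J ⊆ S := fun z hz => (mem_sdiff.1 (hJ hz)).1
  have j1 : G.Je e1 (v i) (G.ie J e1) := by
    rw [eq_oe c1 (hv i (by omega)) t1]
    exact je_ie_oe.symm
  have j2 : G.Je e2 (G.ie J e2) (v j) := by
    rw [eq_oe c2 (hv j hj) t2]
    exact je_ie_oe
  obtain ⟨m, u, h, hu, u0, um⟩ := (hcn _ (Spl_ie c1) _ (Spl_ie c2)).pth e1
  have huJ : pv m u ⊆ J := hu.sub_of_ins (u0 ▸ Spl_ie c1)
  have hu' : G.Pth (G.ins S) m u h := hu.mono fun k hk => ins_mono hJS (hu.mem k hk)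
  have p1 := hu'.snoc s2 (um ▸ j2) fun hh => hv j hj (huJ hh)
  have p2 := p1.cons (x := v i) s1 (by simpa [u0] using j1) (by
    intro hh
    obtain ⟨k, hk, hh⟩ := mem_pv.1 hh
    by_cases hkm : k ≤ m
    · rw [if_pos hkm] at hh
      exact hv i (by omega) (hh ▸ huJ (mem_pv.2 ⟨k, hkm, rfl⟩))
    · rw [if_neg hkm] at hh
      have := hp.inj j hj i (by omega) hh
      omega)
  generalize hw : (fun k => if k = 0 then v i else
    (fun k => if k ≤ m then u k else v j) (k - 1)) = w at p2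
  generalize (fun k => if k = 0 then e1 else (fun k => if k < m then h k else e2) (k - 1)) = f
    at p2
  have w0 : w 0 = v i := by rw [← hw]; simp
  have wm : w (m + 1 + 1) = v j := by rw [← hw]; simp
  have wk : ∀ k, 0 < k → k < m + 1 + 1 → w k ∈ J := fun k h1 h2 => by
    have h3 : k - 1 ≤ m := by omega
    have h4 : k ≠ 0 := by omega
    rw [← hw]
    simp only [if_neg h4, if_pos h3]
    exact huJ (mem_pv.2 ⟨_, h3, rfl⟩)
  refine ⟨_, _, _, hp.rr p2 hij hj w0 wm fun k h1 h2 l hl _ hh => hv l hl (hh ▸ wk k h1 h2),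
    Pth_rr1 (Nat.zero_le _), ?_, fun l hl hl' => ?_, ⟨w 1, wk 1 (by omega) (by omega), ?_⟩,
    fun l hl hl' => ?_⟩
  · rw [Pth_rr3 w0 wm (by omega)]
    congr 1
    omega
  · rw [mem_pv_rr hij.le hj w0 wm]
    rcases hl' with h' | h'
    exacts [Or.inl ⟨l, h', rfl⟩, Or.inr (Or.inr ⟨l, h', hl, rfl⟩)]
  · rw [mem_pv_rr hij.le hj w0 wm]
    exact Or.inr (Or.inl (mem_pv.2 ⟨1, by omega, rfl⟩))
  · rw [mem_pe_rr hij.le hj]
    rcases hl' with h' | h'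
    exacts [Or.inl ⟨l, h', rfl⟩, Or.inr (Or.inr ⟨l, h', hl, rfl⟩)]

/-- two potentials of a connected edge set differ by a constant -/
theorem GUnit_const {H : Finset E} {p q : V → ZMod 2} (hp : ∀ e ∈ H, G.sw p e = 0)
    (hq : ∀ e ∈ H, G.sw q e = 0) {x y : V} (h : G.Rch H x y) : p x + q x = p y + q y := by
  refine Rch.closed (P := fun z => p x + q x = p z + q z) h (fun e he => ?_) rfl
  have h1 := hp e he
  have h2 := hq e he
  unfold sw at h1 h2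
  have key : ∀ a b c d n : ZMod 2, n + a + b = 0 → n + c + d = 0 → a + c = b + d := by decide
  rw [key _ _ _ _ _ h1 h2]

theorem GUnit_cmp_cut {y : V} (hy : y ∈ Y) {e : E} (he : e ∈ G.cut (G.cmp Y y)) :
    e ∈ G.cut Y := by
  obtain ⟨-, h1, h2, -⟩ := cmp_spec (G := G) hy
  have h3 : e ∉ G.crs (G.ins Y) (G.cmp Y y) := by rw [h2]; exact notMem_empty _
  have h4 := @h1 (G.s e)
  have h5 := @h1 (G.t e)
  rw [mem_crs, mem_ins] at h3
  rw [mem_cut] at he ⊢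
  (clear * - h3 h4 h5 he; grind)

theorem GUnit_cmp_eq {x y : V} (h : G.Rch (G.ins Y) x y) : G.cmp Y x = G.cmp Y y := by
  ext z
  rw [mem_cmp, mem_cmp]
  exact ⟨fun h' => ⟨h'.1, h.symm.trans h'.2⟩, fun h' => ⟨h'.1, h.trans h'.2⟩⟩

/-- gluing the potentials of the components of `Y` -/
theorem GUnit_glue {U : Finset V} {P : Finset E} {p : V → ZMod 2} {u0 : V} (hu0 : u0 ∈ U)
    (hcn : G.Cn U P) (hp : ∀ e ∈ P, G.sw p e = 0) (hd : ∀ y ∈ Y, y ∉ U)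
    (hcl : ∀ e ∈ G.cut Y, e ∈ G.cut U) (hB : ∀ y ∈ Y, G.Bal (P ∪ G.tch (G.cmp Y y))) :
    ∃ q : V → ZMod 2, (∀ u ∈ U, q u = p u) ∧ ∀ e ∈ G.tch Y, G.sw q e = 0 := by
  have key : ∀ C : Finset V, ∃ q : V → ZMod 2, G.Bal (P ∪ G.tch C) →
      (∀ u ∈ U, q u = p u) ∧ ∀ e ∈ G.tch C, G.sw q e = 0 := by
    intro C
    by_cases h : G.Bal (P ∪ G.tch C)
    · obtain ⟨r, hr⟩ := h
      refine ⟨fun z => r z + (p u0 + r u0), fun _ => ⟨fun u hu => ?_, fun e he => ?_⟩⟩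
      · rw [GUnit_const hp (fun e he => hr e (mem_union_left _ he)) (hcn _ hu0 _ hu)]
        have : ∀ a b : ZMod 2, b + (a + b) = a := by decide
        exact this _ _
      · have h1 := hr e (mem_union_right _ he)
        unfold sw at h1 ⊢
        have : ∀ n a b c : ZMod 2, n + a + b = 0 → n + (a + c) + (b + c) = 0 := by decide
        exact this _ _ _ _ h1
    · exact ⟨p, fun h' => absurd h' h⟩
  choose Q hQ using key
  refine ⟨fun z => if z ∈ Y then Q (G.cmp Y z) z else p z, fun u hu => ?_, fun e he => ?_⟩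
  · exact if_neg fun h => hd u h hu
  have main : ∀ x z : V, G.Je e x z → x ∈ Y →
      G.sw (fun z => if z ∈ Y then Q (G.cmp Y z) z else p z) e = 0 := by
    intro x z hj hx
    have hA := (mem_tch.1 he).1
    obtain ⟨q1, q2⟩ := hQ _ (hB x hx)
    have h0 := q2 e (Cut_tch hA (hj.at_iff.2 (Or.inl rfl)) (cmp_spec hx).1)
    rw [Cut_sw hj] at h0 ⊢
    rw [if_pos hx]
    by_cases hz : z ∈ Y
    · rw [if_pos hz, ← GUnit_cmp_eq (rch_at (Cut_je_ins hA hj hx hz) (hj.at_iff.2 (Or.inl rfl))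
        (hj.at_iff.2 (Or.inr rfl)))]
      exact h0
    · have hzU : z ∈ U := by
        have h1 : e ∈ G.cut Y := by
          rw [mem_cut]
          rcases hj with ⟨h1, h2⟩ | ⟨h1, h2⟩ <;> rw [h1, h2] <;> tauto
        have h2 := mem_cut.1 (hcl e h1)
        have h3 := hd x hx
        rcases hj with ⟨h4, h5⟩ | ⟨h4, h5⟩ <;> rw [h4, h5] at h2 <;> tauto
      rw [if_neg hz, ← q1 z hzU]
      exact h0
  rcases (mem_tch.1 he).2 with h | h
  · exact main _ _ (Or.inl ⟨rfl, rfl⟩) h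
  · exact main _ _ (Or.inr ⟨rfl, rfl⟩) h

/-- deleting a vertex from a side keeps it connected -/
theorem GUnit_del (hc : G.Cub) (h2 : G.Two S (G.ins S)) (m : V) {x y : V} (hx : x ∈ S.erase m)
    (hy : y ∈ S.erase m) : G.Rch (G.ins (S.erase m)) x y := by
  by_contra hn
  have hyK : y ∉ G.cmp (S.erase m) x := fun h => hn (mem_cmp.1 h).2
  have hxK : x ∉ G.cmp (S.erase m) y := fun h => hn (mem_cmp.1 h).2.symm
  have key : ∀ a ∈ S.erase m, ∀ b ∈ S.erase m, b ∉ G.cmp (S.erase m) a →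
      2 ≤ (G.crs (G.ins S) (G.cmp (S.erase m) a)).card ∧
      ∀ e ∈ G.crs (G.ins S) (G.cmp (S.erase m) a), e ∈ G.A ∧
        ∃ z ∈ G.cmp (S.erase m) a, G.Je e m z := by
    intro a ha b hb hab
    obtain ⟨h3, h4, -, -⟩ := cmp_spec (G := G) ha
    refine ⟨h2 _ (h4.trans (erase_subset _ _)) ⟨a, h3⟩
      fun h => hab (h.symm.subset (mem_of_mem_erase hb)), fun e he => ?_⟩
    obtain ⟨h5, h6⟩ := mem_crs.1 he
    obtain ⟨h7, h8, h9⟩ := mem_ins.1 h5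
    have h10 := (mem_cut.1 (GUnit_cmp_cut ha (mem_cut.2 ⟨h7, h6⟩))).2
    have h11 := @h4 (G.s e)
    have h12 := @h4 (G.t e)
    simp only [mem_erase] at h10 h11 h12
    refine ⟨h7, ?_⟩
    by_cases h : G.s e ∈ G.cmp (S.erase m) a
    · exact ⟨_, h, Or.inr ⟨rfl, by (clear * - h h10 h11 h12 h6 h9; grind)⟩⟩
    · exact ⟨G.t e, by (clear * - h h10 h11 h12 h6; tauto), Or.inl ⟨by (clear * - h h10 h11 h12 h6 h8; grind), rfl⟩⟩
  obtain ⟨k1, k2⟩ := key x hx y hy hyK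
  obtain ⟨k3, k4⟩ := key y hy x hx hxK
  have hd : Disjoint (G.crs (G.ins S) (G.cmp (S.erase m) x))
      (G.crs (G.ins S) (G.cmp (S.erase m) y)) := by
    rw [disjoint_left]
    intro e h1 h3
    obtain ⟨-, z, hz, jz⟩ := k2 e h1
    obtain ⟨-, z', hz', jz'⟩ := k4 e h3
    have hm : z ≠ m := (mem_erase.1 (mem_cmp.1 hz).1).1
    have : z = z' := (jz'.at_iff.1 (jz.at_iff.2 (Or.inr rfl))).resolve_left hm
    exact hn ((mem_cmp.1 hz).2.trans (this ▸ (mem_cmp.1 hz').2.symm))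
  have hle := hc.le3 (S := G.crs (G.ins S) (G.cmp (S.erase m) x) ∪
    G.crs (G.ins S) (G.cmp (S.erase m) y))
    (fun e he => (mem_union.1 he).elim (fun h => (k2 e h).1) fun h => (k4 e h).1) m
  have hge : (G.crs (G.ins S) (G.cmp (S.erase m) x) ∪
      G.crs (G.ins S) (G.cmp (S.erase m) y)).card ≤ G.deg (G.crs (G.ins S) (G.cmp (S.erase m) x) ∪
      G.crs (G.ins S) (G.cmp (S.erase m) y)) m := by
    rw [card_eq_sum_ones]
    refine sum_le_sum fun e he => inc_pos.2 ?_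
    rcases mem_union.1 he with h | h
    · obtain ⟨-, z, -, jz⟩ := k2 e h
      exact jz.at_iff.2 (Or.inl rfl)
    · obtain ⟨-, z, -, jz⟩ := k4 e h
      exact jz.at_iff.2 (Or.inl rfl)
  rw [card_union_of_disjoint hd] at hge
  omega

end SG

end Pool.Agent.Work.MP_8c679b_co
end

-- merged part: Pool.Agent.Work.MP_8c679b_co.Six.GUnit
section
/-!
A path through a third terminal with a free sign (PROOF.md, lemma UNIT).
-/

set_option autoImplicit false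
set_option linter.unusedSectionVars false

namespace Pool.Agent.Work.MP_8c679b_co

open Finset

namespace SG

variable {V E : Type} [Fintype V] [DecidableEq V] [DecidableEq E] {G : SG V E}
  {T S W : Finset V} {a b c d : E}

/-- a path through `tc` that contains `td` or all neighbours of `td` -/
theorem unit_kd (hc : G.Cub) (hT : G.HT T) (hS : S ⊆ T) (hq : G.Q4 S a b c d) (h2 : 2 < S.card) :
    ∃ n v g, G.Pth (G.ins S) n v g ∧ v 0 = G.ie S a ∧ v n = G.ie S b ∧ G.ie S c ∈ pv n v ∧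
      (G.ie S d ∈ pv n v ∨ G.cmp (S \ pv n v) (G.ie S d) = {G.ie S d}) := by
  classical
  obtain ⟨ma, mb, mc, md⟩ := hq.mem
  have dv : ∀ {e f : E}, e ∈ G.cut S → f ∈ G.cut S → e ≠ f → G.ie S e ≠ G.ie S f :=
    fun he hf hef => hT.f2 hc hS hq.card h2 he hf hef
  have hab := dv ma mb hq.2.1
  have hca := (dv ma mc hq.2.2.1).symm
  have hcb := (dv mb mc hq.2.2.2.2.1).symm
  have htwo := hT.f3 hS hq.card h2
  have hex : ∃ n v g, G.Pth (G.ins S) n v g ∧ v 0 = G.ie S a ∧ v n = G.ie S b ∧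
      G.ie S c ∈ pv n v := by
    refine pth_through (G.ins S) a hab hca hcb fun M hM hcM => ?_
    obtain ⟨m, hm⟩ : ∃ m, ∀ z ∈ M, z = m ∧ z ≠ G.ie S c := by
      rcases M.eq_empty_or_nonempty with rfl | ⟨m, hm⟩
      · exact ⟨G.ie S a, fun z hz => absurd hz (notMem_empty _)⟩
      · exact ⟨m, fun z hz => ⟨card_le_one.1 (by omega) _ hz _ hm, fun h => hcM (h ▸ hz)⟩⟩
    by_cases hM0 : M = ∅
    · subst hM0
      refine Or.inl ⟨notMem_empty _, (htwo.conn _ (Spl_ie mc) _ (Spl_ie ma)).mono fun e he => ?_⟩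
      exact mem_avo.2 ⟨he, notMem_empty _, notMem_empty _⟩
    obtain ⟨z, hz⟩ := nonempty_iff_ne_empty.2 hM0
    have hcm : G.ie S c ≠ m := fun h => (hm z hz).2 ((hm z hz).1.trans h.symm)
    have hsub : G.ins (S.erase m) ⊆ G.avo (G.ins S) M := fun e he => by
      obtain ⟨h1, h3, h4⟩ := mem_ins.1 he
      exact mem_avo.2 ⟨ins_mono (erase_subset _ _) he, fun h => (mem_erase.1 h3).1 (hm _ h).1,
        fun h => (mem_erase.1 h4).1 (hm _ h).1⟩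
    by_cases ham : G.ie S a = m
    · have hbm : G.ie S b ≠ m := fun h => hab (ham.trans h.symm)
      exact Or.inr ⟨fun h => hbm (hm _ h).1, (GUnit_del hc htwo m (mem_erase.2 ⟨hcm, Spl_ie mc⟩)
        (mem_erase.2 ⟨hbm, Spl_ie mb⟩)).mono hsub⟩
    · exact Or.inl ⟨fun h => ham (hm _ h).1, (GUnit_del hc htwo m (mem_erase.2 ⟨hcm, Spl_ie mc⟩)
        (mem_erase.2 ⟨ham, Spl_ie ma⟩)).mono hsub⟩
  have main : ∀ N : ℕ, ∀ n v g, G.Pth (G.ins S) n v g → v 0 = G.ie S a → v n = G.ie S b →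
      G.ie S c ∈ pv n v → (G.cmp (S \ pv n v) (G.ie S d)).card ≤ N →
      ∃ n v g, G.Pth (G.ins S) n v g ∧ v 0 = G.ie S a ∧ v n = G.ie S b ∧ G.ie S c ∈ pv n v ∧
        (G.ie S d ∈ pv n v ∨ G.cmp (S \ pv n v) (G.ie S d) = {G.ie S d}) := by
    intro N
    induction N using Nat.strong_induction_on with
    | _ N ih =>
    intro n v g hp h0 hn hx hN
    by_cases hd : G.ie S d ∈ pv n v
    · exact ⟨n, v, g, hp, h0, hn, hx, Or.inl hd⟩
    have hdY : G.ie S d ∈ S \ pv n v := mem_sdiff.2 ⟨Spl_ie md, hd⟩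
    obtain ⟨k1, k2, -, k4⟩ := cmp_spec (G := G) hdY
    have k3 : ∀ e ∈ G.cut (G.cmp (S \ pv n v) (G.ie S d)), e ∈ G.cut (S \ pv n v) :=
      fun e he => GUnit_cmp_cut hdY he
    generalize hK : G.cmp (S \ pv n v) (G.ie S d) = K at k1 k2 k3 k4 hN
    by_cases hK1 : K.card ≤ 1
    · refine ⟨n, v, g, hp, h0, hn, hx, Or.inr ?_⟩
      rw [hK]
      exact eq_singleton_iff_unique_mem.2 ⟨k1, fun z hz => card_le_one.1 hK1 _ hz _ k1⟩
    obtain ⟨k, hk, hkx⟩ := mem_pv.1 hx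
    have hk0 : 0 < k := Nat.pos_of_ne_zero fun h => hca (by rw [← hkx, h, h0])
    have hkn : k < n := lt_of_le_of_ne hk fun h => hcb (by rw [← hkx, h, hn])
    have hpS := GUnit_pv_sub hp (by omega)
    have hKS : K ⊂ S := ⟨k2.trans sdiff_subset, fun h => (mem_sdiff.1 (k2 (h (hpS hx)))).2 hx⟩
    have h4 := hT.four hS hKS (by omega)
    have hF : ∀ e ∈ G.cut K \ G.cut S, e ∈ G.ins S ∧ e ∈ G.cut (pv n v) := fun e he => by
      have h5 := mem_cut.1 (k3 e (mem_sdiff.1 he).1)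
      have h6 := (mem_sdiff.1 he).2
      have h7 := @hpS (G.s e)
      have h8 := @hpS (G.t e)
      rw [mem_cut] at h6 ⊢
      rw [mem_ins]
      simp only [mem_sdiff] at h5
      clear * - h5 h6 h7 h8
      (clear * - h5 h6 h7 h8; grind)
    have hF3 : 3 ≤ (G.cut K \ G.cut S).card := by
      have h5 : G.cut K ∩ G.cut S ⊆ {d} := fun e he => by
        obtain ⟨h6, h7⟩ := mem_inter.1 he
        have h8 : G.ie S e ∈ K := by
          rw [← (cut_of_sub hKS.1 h7 (cut_sub_tch h6)).2]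
          exact Spl_ie h6
        have h9 := (mem_sdiff.1 (k2 h8)).2
        rcases (Spl_mem hq e).1 h7 with rfl | rfl | rfl | rfl
        · exact absurd (mem_pv.2 ⟨0, by omega, h0⟩) h9
        · exact absurd (mem_pv.2 ⟨n, le_rfl, hn⟩) h9
        · exact absurd hx h9
        · exact mem_singleton_self _
      have h6 := card_le_card h5
      have h7 := card_sdiff_add_card_inter (G.cut K) (G.cut S)
      rw [card_singleton] at h6
      omega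
    obtain ⟨A, a1, a2, a3⟩ := GUnit_att hc hT hS hp hk0 hkn ⟨c, mc, hkx ▸ ie_at⟩
      ⟨a, ma, h0 ▸ ie_at⟩ ⟨b, mb, hn ▸ ie_at⟩ _ hF
    obtain ⟨i, hi, j, hj, hij, hA, hside⟩ := GUnit_min3 A k a2 (by omega)
    obtain ⟨-, e1, m1, t1⟩ := (a3 i).1 hi
    obtain ⟨hjn, e2, m2, t2⟩ := (a3 j).1 hj
    obtain ⟨n', v', g', hp', h0', hn', hv', ⟨z, hz, hz'⟩, -⟩ := GUnit_ear hp k2 k4 hij hjn
      (hF e1 m1).1 (mem_sdiff.1 m1).1 t1 (hF e2 m2).1 (mem_sdiff.1 m2).1 t2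
    have hsub : G.cmp (S \ pv n' v') (G.ie S d) ⊆ K := by
      refine cmp_min k1 (eq_empty_of_forall_notMem fun e he => ?_)
      obtain ⟨h5, h6⟩ := mem_crs.1 he
      obtain ⟨h7, h8, h9⟩ := mem_ins.1 h5
      have h10 : e ∈ G.cut K \ G.cut S := mem_sdiff.2 ⟨mem_cut.2 ⟨h7, h6⟩,
        fun h => not_ins_of_cut h (ins_mono sdiff_subset h5)⟩
      obtain ⟨l, hl, hl'⟩ := mem_pv.1 (Spl_ie (hF e h10).2)
      have h11 : G.At e (v l) := hl' ▸ ie_at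
      have h12 := hv' l hl (hA l ((a3 l).2 ⟨hl, e, h10, h11⟩))
      rcases h11 with h11 | h11
      · exact (mem_sdiff.1 h8).2 (h11 ▸ h12)
      · exact (mem_sdiff.1 h9).2 (h11 ▸ h12)
    have hlt : (G.cmp (S \ pv n' v') (G.ie S d)).card < K.card :=
      card_lt_card ⟨hsub, fun h => (mem_sdiff.1 (mem_cmp.1 (h hz)).1).2 hz'⟩
    exact ih _ (lt_of_lt_of_le hlt hN) n' v' g' hp' (h0'.trans h0) (hn'.trans hn)
      (hkx ▸ hv' k hk (by omega)) le_rfl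
  obtain ⟨n, v, g, hp, h0, hn, hx⟩ := hex
  exact main _ n v g hp h0 hn hx le_rfl

/-- either some item is inconsistent or the path together with `Y` is balanced -/
theorem GUnit_items {x y0 y1 : V} {Y : Finset V} {n : ℕ} {v : ℕ → V} {g : ℕ → E}
    (hp : G.Pth (G.ins S) n v g) (hn0 : 0 < n) (h0 : v 0 = y0) (hn : v n = y1) (hx : x ∈ pv n v)
    (hY : Y ⊆ S \ pv n v) (hcl : ∀ e ∈ G.cut Y, e ∈ G.cut (pv n v)) :
    (∃ U P p, U ⊆ S ∧ G.Pp U P y0 y1 ∧ (∀ e ∈ P, G.sw p e = 0) ∧ x ∈ U ∧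
      ((∃ f ∈ G.ins U, G.sw p f = 1) ∨
        ∃ u ∈ S \ U, (∀ e ∈ G.cut {u}, e ∈ G.cut U) ∧ ¬ G.Bal (P ∪ G.cut {u}))) ∨
    (∃ J ⊆ Y, J.Nonempty ∧ G.Cn J (G.ins J) ∧ (∀ e ∈ G.cut J, e ∈ G.cut (pv n v)) ∧
      ¬ G.Bal (pe n g ∪ G.tch J)) ∨
    ∃ q, ∀ e ∈ G.ins (pv n v) ∪ G.tch Y, G.sw q e = 0 := by
  obtain ⟨p, hpp, -⟩ := hp.pot
  have hP := hp.pp ins_sub_A
  by_cases h1 : ∃ f ∈ G.ins (pv n v), G.sw p f = 1
  · exact Or.inl ⟨_, _, p, GUnit_pv_sub hp hn0, h0 ▸ hn ▸ hP, hpp, hx, Or.inl h1⟩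
  by_cases h2 : ∀ y ∈ Y, G.Bal (pe n g ∪ G.tch (G.cmp Y y))
  · obtain ⟨q, q1, q2⟩ := GUnit_glue hx hP.2.1 hpp (fun y hy => (mem_sdiff.1 (hY hy)).2) hcl h2
    refine Or.inr (Or.inr ⟨q, fun e he => ?_⟩)
    rcases mem_union.1 he with he | he
    · have h3 : G.sw p e = 0 := (z2 _).resolve_right fun h => h1 ⟨e, he, h⟩
      unfold sw at h3 ⊢
      rw [q1 _ (mem_ins.1 he).2.1, q1 _ (mem_ins.1 he).2.2, h3]
    · exact q2 e he
  · simp only [not_forall] at h2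
    obtain ⟨y, hy, h2⟩ := h2
    obtain ⟨k1, k2, -, k4⟩ := cmp_spec (G := G) hy
    exact Or.inr (Or.inl ⟨_, k2, ⟨y, k1⟩, k4, fun e he => hcl e (GUnit_cmp_cut hy he), h2⟩)

/-- Shrinking an inconsistent item `J` (a connected set off the path all of whose leaving edges
go to the path) while the position of `x` stays on the path. -/
theorem unit_shrink (hc : G.Cub) (hT : G.HT T) (hS : S ⊆ T) {x y0 y1 : V} (J : Finset V) {n : ℕ}
    {v : ℕ → V} {g : ℕ → E} (hp : G.Pth (G.ins S) n v g) (h0 : v 0 = y0) (hn : v n = y1)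
    (hx : x ∈ pv n v) (hx' : ∃ e ∈ G.cut S, G.At e x) (hx0 : x ≠ y0) (hx1 : x ≠ y1)
    (hy0 : ∃ e ∈ G.cut S, G.At e y0) (hy1 : ∃ e ∈ G.cut S, G.At e y1) (hJ : J ⊆ S \ pv n v)
    (hJn : J.Nonempty) (hcn : G.Cn J (G.ins J)) (hcl : ∀ e ∈ G.cut J, e ∈ G.cut (pv n v))
    (hu : ¬ G.Bal (pe n g ∪ G.tch J)) :
    ∃ U P p, U ⊆ S ∧ G.Pp U P y0 y1 ∧ (∀ e ∈ P, G.sw p e = 0) ∧ x ∈ U ∧
      ((∃ f ∈ G.ins U, G.sw p f = 1) ∨
        ∃ u ∈ S \ U, (∀ e ∈ G.cut {u}, e ∈ G.cut U) ∧ ¬ G.Bal (P ∪ G.cut {u})) := by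
  induction hN : J.card using Nat.strong_induction_on generalizing J n v g with
  | _ N ih =>
  obtain ⟨k, hk, hkx⟩ := mem_pv.1 hx
  have hk0 : 0 < k := Nat.pos_of_ne_zero fun h => hx0 (by rw [← hkx, h, h0])
  have hkn : k < n := lt_of_le_of_ne hk fun h => hx1 (by rw [← hkx, h, hn])
  have hpS := GUnit_pv_sub hp (by omega)
  by_cases hJ1 : J.card ≤ 1
  · obtain ⟨u, hu'⟩ := hJn
    have hJu : J = {u} :=
      eq_singleton_iff_unique_mem.2 ⟨hu', fun z hz => card_le_one.1 hJ1 _ hz _ hu'⟩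
    subst hJu
    obtain ⟨p, hpp, -⟩ := hp.pot
    rw [(hT.vtx hc (hS (mem_sdiff.1 (hJ hu')).1)).2.2] at hu
    exact ⟨_, _, p, hpS, h0 ▸ hn ▸ hp.pp ins_sub_A, hpp, hx, Or.inr ⟨u, hJ hu', hcl, hu⟩⟩
  have hJS : J ⊂ S := ⟨hJ.trans sdiff_subset, fun h => (mem_sdiff.1 (hJ (h (hpS hx)))).2 hx⟩
  have h4 := hT.four hS hJS (by omega)
  have hF : ∀ e ∈ G.cut J, e ∈ G.ins S ∧ e ∈ G.cut (pv n v) := fun e he => by
    refine ⟨?_, hcl e he⟩
    have h5 := mem_cut.1 (hcl e he)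
    have h6 := mem_cut.1 he
    have h7 := @hpS (G.s e)
    have h8 := @hpS (G.t e)
    have h9 := @hJ (G.s e)
    have h10 := @hJ (G.t e)
    rw [mem_ins]
    simp only [mem_sdiff] at h9 h10
    clear * - h5 h6 h7 h8 h9 h10
    (clear * - h10 h5 h6 h7 h8 h9; grind)
  obtain ⟨A, a1, a2, a3⟩ := GUnit_att hc hT hS hp hk0 hkn (hkx ▸ hx') (h0 ▸ hy0) (hn ▸ hy1) _ hF
  by_contra hcon
  have step : ∀ i ∈ A, ∀ j ∈ A, i < j → (∀ l ∈ A, l ≤ i ∨ j ≤ l) → (j < k ∨ k < i) →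
      ∃ q, (∀ e ∈ G.tch J, G.sw q e = 0) ∧ ∀ l < n, (l < i ∨ j ≤ l) → G.sw q (g l) = 0 := by
    intro i hi j hj hij hA hside
    obtain ⟨-, e1, m1, t1⟩ := (a3 i).1 hi
    obtain ⟨hjn, e2, m2, t2⟩ := (a3 j).1 hj
    obtain ⟨n', v', g', hp', h0', hn', hv', ⟨z, hz, hz'⟩, hg'⟩ := GUnit_ear hp hJ hcn hij hjn
      (hF e1 m1).1 m1 t1 (hF e2 m2).1 m2 t2
    have hx2 : x ∈ pv n' v' := hkx ▸ hv' k hk (by omega)
    have hn0 : 0 < n' := Nat.pos_of_ne_zero fun h => by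
      have h5 := hp.inj 0 (by omega) n le_rfl (by rw [← h0', ← hn', h])
      omega
    have hout : ∀ e ∈ G.cut J, (G.s e ∉ J → G.s e ∈ pv n' v') ∧ (G.t e ∉ J → G.t e ∈ pv n' v') := by
      intro e he
      obtain ⟨l, hl, hl'⟩ := mem_pv.1 (Spl_ie (hF e he).2)
      have h5 : G.At e (v l) := hl' ▸ ie_at
      have h6 := hv' l hl (hA l ((a3 l).2 ⟨hl, e, he, h5⟩))
      have h7 : v l ∉ J := fun h => (mem_sdiff.1 (hJ h)).2 (mem_pv.2 ⟨l, hl, rfl⟩)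
      rw [eq_oe he h7 h5] at h6
      exact ⟨fun h => by rw [eq_oe he h (Or.inl rfl)]; exact h6,
        fun h => by rw [eq_oe he h (Or.inr rfl)]; exact h6⟩
    have hY : J \ pv n' v' ⊆ S \ pv n' v' := sdiff_subset_sdiff hJS.1 Subset.rfl
    have hlt : (J \ pv n' v').card < J.card :=
      card_lt_card ⟨sdiff_subset, fun h => (mem_sdiff.1 (h hz)).2 hz'⟩
    have hcl' : ∀ e ∈ G.cut (J \ pv n' v'), e ∈ G.cut (pv n' v') := fun e he => by
      have h5 := hout e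
      rw [mem_cut] at he h5 ⊢
      simp only [mem_sdiff] at he
      clear * - he h5
      (clear * - h5 he; grind)
    rcases GUnit_items hp' hn0 (h0'.trans h0) (hn'.trans hn) hx2 hY hcl' with
      h | ⟨J', j1, j2, j3, j4, j5⟩ | ⟨q, hq⟩
    · exact absurd h hcon
    · exact absurd (ih _ (hN ▸ lt_of_le_of_lt (card_le_card j1) hlt) J' hp' (h0'.trans h0)
        (hn'.trans hn) hx2 (j1.trans hY) j2 j3 j4 j5 rfl) hcon
    · refine ⟨q, fun e he => hq e ?_, fun l hl hl' =>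
        hq _ (mem_union_left _ ((hp'.pp ins_sub_A).1 (hg' l hl hl')))⟩
      have h5 := hout e
      rw [mem_cut] at h5
      rw [mem_tch] at he
      rw [mem_union, mem_ins, mem_tch]
      simp only [mem_sdiff]
      clear * - he h5
      (clear * - h5 he; grind)
  obtain ⟨i, hi, j, hj, i', hi', j', hj', hij, hji, hij', hA, hA', hs, hs'⟩ :=
    GUnit_min4 A k a2 (by omega)
  obtain ⟨q, q1, q2⟩ := step i hi j hj hij hA hs
  obtain ⟨r, r1, r2⟩ := step i' hi' j' hj' hij' hA' hs'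
  obtain ⟨hin, e1, m1, t1⟩ := (a3 i).1 hi
  obtain ⟨hjn, e2, m2, t2⟩ := (a3 j).1 hj
  have hr : G.Rch (G.tch J) (v i) (v j) :=
    ((rch_at (cut_sub_tch m1) t1 ie_at).trans
      ((hcn _ (Spl_ie m1) _ (Spl_ie m2)).mono ins_sub_tch)).trans
      (rch_at (cut_sub_tch m2) ie_at t2)
  have hconst := GUnit_const q1 r1 hr
  classical
  obtain ⟨w, w1, w2⟩ : ∃ w : V → ZMod 2,
      (∀ z, (∀ l, i < l → l < j → v l ≠ z) → w z = q z) ∧
      ∀ l, i ≤ l → l ≤ j → w (v l) = r (v l) + (q (v i) + r (v i)) := by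
    refine ⟨fun z => if ∃ l, i < l ∧ l < j ∧ v l = z then r z + (q (v i) + r (v i)) else q z,
      fun z hz => if_neg fun ⟨l, h1, h2, h3⟩ => hz l h1 h2 h3, fun l h1 h2 => ?_⟩
    by_cases h : ∃ l', i < l' ∧ l' < j ∧ v l' = v l
    · exact if_pos h
    · have h3 : l = i ∨ l = j := by
        by_contra h3
        exact h ⟨l, by omega, by omega, rfl⟩
      have key : ∀ a b : ZMod 2, a = b + (a + b) := by decide
      refine (if_neg h).trans ?_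
      rcases h3 with rfl | rfl
      · exact key _ _
      · rw [hconst]
        exact key _ _
  refine hu ⟨w, fun e he => ?_⟩
  rcases mem_union.1 he with he | he
  · obtain ⟨l, hl, rfl⟩ := mem_pe.1 he
    by_cases h : l < i ∨ j ≤ l
    · have h5 := q2 l hl h
      rw [Cut_sw (hp.jn l hl)] at h5 ⊢
      rw [w1 _ fun l' h1 h2 h3 => by have := hp.inj l' (by omega) l (by omega) h3; omega,
        w1 _ fun l' h1 h2 h3 => by have := hp.inj l' (by omega) (l + 1) (by omega) h3; omega, h5]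
    · have h5 := r2 l hl (by omega)
      rw [Cut_sw (hp.jn l hl)] at h5 ⊢
      rw [w2 l (by omega) (by omega), w2 (l + 1) (by omega) (by omega)]
      have key : ∀ n a b c : ZMod 2, n + a + b = 0 → n + (a + c) + (b + c) = 0 := by decide
      exact key _ _ _ _ h5
  · have h5 : ∀ z, G.At e z → w z = q z := fun z hz => w1 z fun l h1 h2 h3 => by
      have h6 : z ∉ J := fun h => (mem_sdiff.1 (hJ h)).2 (mem_pv.2 ⟨l, by omega, h3⟩)
      have h7 : e ∈ G.cut J := by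
        rcases mem_tch_iff.1 he with h | h
        · rcases hz with rfl | rfl
          exacts [absurd (mem_ins.1 h).2.1 h6, absurd (mem_ins.1 h).2.2 h6]
        · exact h
      have := hA l ((a3 l).2 ⟨by omega, e, h7, h3 ▸ hz⟩)
      omega
    have h6 := q1 e he
    unfold sw at h6 ⊢
    rw [h5 _ (Or.inl rfl), h5 _ (Or.inr rfl), h6]

theorem GUnit_half (hc : G.Cub) (hT : G.HT T) (hS : S ⊆ T) (hq : G.Q4 S a b c d)
    (h2 : 2 < S.card) :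
    (∃ U P p, U ⊆ S ∧ G.Pp U P (G.ie S a) (G.ie S b) ∧ (∀ e ∈ P, G.sw p e = 0) ∧
      G.ie S c ∈ U ∧ ((∃ f ∈ G.ins U, G.sw p f = 1) ∨
        ∃ u ∈ S \ U, (∀ e ∈ G.cut {u}, e ∈ G.cut U) ∧ ¬ G.Bal (P ∪ G.cut {u}))) ∨
      G.Bal (G.ins (S.erase (G.ie S d))) := by
  obtain ⟨n, v, g, hp, h0, hn, hx, hd⟩ := unit_kd hc hT hS hq h2
  obtain ⟨ma, mb, mc, md⟩ := hq.mem
  have hab : G.ie S a ≠ G.ie S b := hT.f2 hc hS hq.card h2 ma mb hq.2.1
  have hca : G.ie S c ≠ G.ie S a := hT.f2 hc hS hq.card h2 mc ma hq.2.2.1.symm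
  have hcb : G.ie S c ≠ G.ie S b := hT.f2 hc hS hq.card h2 mc mb hq.2.2.2.2.1.symm
  have hn0 : 0 < n := Nat.pos_of_ne_zero fun h => hab (by rw [← h0, ← hn, h])
  have hY : (S \ pv n v).erase (G.ie S d) ⊆ S \ pv n v := erase_subset _ _
  have hcl : ∀ e ∈ G.cut ((S \ pv n v).erase (G.ie S d)), e ∈ G.cut (pv n v) := fun e he => by
    have h1 := Spl_ie he
    have h3 := oe_not_mem he
    have hj : G.Je e (G.ie ((S \ pv n v).erase (G.ie S d)) e)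
      (G.oe ((S \ pv n v).erase (G.ie S d)) e) := je_ie_oe
    generalize G.ie ((S \ pv n v).erase (G.ie S d)) e = y at h1 hj
    generalize G.oe ((S \ pv n v).erase (G.ie S d)) e = z at h3 hj
    have hA := (mem_cut.1 he).1
    obtain ⟨h4, h5⟩ := mem_erase.1 h1
    obtain ⟨h6, h7⟩ := mem_sdiff.1 h5
    have hz : z ∈ pv n v := by
      by_contra hz
      by_cases hzS : z ∈ S
      · have h8 : z = G.ie S d := by
          by_contra h8
          exact h3 (mem_erase.2 ⟨h8, mem_sdiff.2 ⟨hzS, hz⟩⟩)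
        subst h8
        have h9 : y ∈ G.cmp (S \ pv n v) (G.ie S d) := mem_cmp.2 ⟨h5,
          rch_at (Cut_je_ins hA hj h5 (mem_sdiff.2 ⟨hzS, hz⟩)) (hj.at_iff.2 (Or.inr rfl))
            (hj.at_iff.2 (Or.inl rfl))⟩
        rw [hd.resolve_left hz] at h9
        exact h4 (mem_singleton.1 h9)
      · have h8 : e ∈ G.cut S := by
          rw [mem_cut]
          rcases hj with ⟨h8, h9⟩ | ⟨h8, h9⟩ <;> rw [h8, h9] <;> (clear * - h6 hA hd hzS; tauto)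
        have h9 := eq_ie h8 h6 (hj.at_iff.2 (Or.inl rfl))
        rcases (Spl_mem hq e).1 h8 with rfl | rfl | rfl | rfl
        · exact h7 (mem_pv.2 ⟨0, by omega, h0.trans h9.symm⟩)
        · exact h7 (mem_pv.2 ⟨n, le_rfl, hn.trans h9.symm⟩)
        · exact h7 (h9 ▸ hx)
        · exact h4 h9
    rw [mem_cut]
    rcases hj with ⟨h8, h9⟩ | ⟨h8, h9⟩ <;> rw [h8, h9] <;> (clear * - h7 hA hd hz; tauto)
  rcases GUnit_items hp hn0 h0 hn hx hY hcl with h | ⟨J, j1, j2, j3, j4, j5⟩ | ⟨q, hq'⟩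
  · exact Or.inl h
  · exact Or.inl (unit_shrink hc hT hS J hp h0 hn hx ⟨c, mc, ie_at⟩ hca hcb ⟨a, ma, ie_at⟩
      ⟨b, mb, ie_at⟩ (j1.trans hY) j2 j3 j4 j5)
  · refine Or.inr ⟨q, fun e he => hq' e ?_⟩
    rw [mem_union, mem_ins, mem_tch]
    rw [mem_ins] at he
    simp only [mem_erase, mem_sdiff] at he ⊢
    (clear * - hd he; grind)

theorem unit (hc : G.Cub) (hT : G.HT T) (hS : S ⊆ T) (hu : G.US S) (hq : G.Q4 S a b c d)
    (hN : G.NC S a b) (hd : ¬ G.Qd S a b) :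
    ∃ U P p, U ⊆ S ∧ G.Pp U P (G.ie S a) (G.ie S b) ∧ (∀ e ∈ P, G.sw p e = 0) ∧
      (G.ie S c ∈ U ∨ G.ie S d ∈ U) ∧
      ((∃ f ∈ G.ins U, G.sw p f = 1) ∨
        ∃ u ∈ S \ U, (∀ e ∈ G.cut {u}, e ∈ G.cut U) ∧ ¬ G.Bal (P ∪ G.cut {u})) := by
  have h2 : 2 < S.card := by have := hT.us_card hc hS hu; omega
  rcases GUnit_half hc hT hS hq h2 with ⟨U, P, p, h3, h4, h5, h6, h7⟩ | h1
  · exact ⟨U, P, p, h3, h4, h5, Or.inl h6, h7⟩
  rcases GUnit_half hc hT hS hq.swap2 h2 with ⟨U, P, p, h3, h4, h5, h6, h7⟩ | h3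
  · exact ⟨U, P, p, h3, h4, h5, Or.inr h6, h7⟩
  exact absurd (qd_of_bal hc hT hS hu hq hN h3 h1) hd

end SG

end Pool.Agent.Work.MP_8c679b_co
end

-- merged part: Pool.Agent.Work.MP_8c679b_co.Six.GNg
section
/-!
A path in the quotient with a good box or with a chord at a four-cycle (PROOF.md, lemma NG).
-/

set_option autoImplicit false

namespace Pool.Agent.Work.MP_8c679b_co

open Finset

namespace SG

variable {V E : Type} [Fintype V] [DecidableEq V] [DecidableEq E] {G : SG V E}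
  {T S W : Finset V} {a b c d : E} {Bs : Finset (Finset V)}

omit [Fintype V] in
theorem GNg_avo {A : Finset E} {M : Finset V} {x y : V} (h : G.Rch (G.avo A M) x y) (hx : x ∉ M) :
    y ∉ M :=
  h.closed (P := fun z => z ∉ M) (fun _ he => iff_of_true (mem_filter.1 he).2.1
    (mem_filter.1 he).2.2) hx

theorem GNg_step {A : Finset E} {M : Finset V} {x y : V} {f : E} (hf : f ∈ A) (hj : G.Je f x y)
    (hx : x ∉ M) (hy : y ∉ M) : G.Rch (G.avo A M) x y := by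
  refine rch_at (e := f) (mem_avo.2 ⟨hf, ?_⟩) (hj.at_iff.2 (Or.inl rfl)) (hj.at_iff.2 (Or.inr rfl))
  rcases hj with ⟨h1, h2⟩ | ⟨h1, h2⟩ <;> rw [h1, h2]
  exacts [⟨hx, hy⟩, ⟨hy, hx⟩]

/-- an ear through a component -/
theorem GNg_ear {A : Finset E} {M : Finset V} {x0 x1 y0 y1 : V} {f0 f1 : E} (h0 : x0 ∈ M)
    (h1 : x1 ∈ M) (hx : x0 ≠ x1) (hf0 : f0 ∈ A) (j0 : G.Je f0 y0 x0) (hf1 : f1 ∈ A)
    (j1 : G.Je f1 y1 x1) (hy : y0 ∉ M) (hr : G.Rch (G.avo A M) y0 y1) :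
    ∃ m u h, G.Pth A m u h ∧ u 0 = x0 ∧ u m = x1 ∧ 2 ≤ m ∧ h 0 = f0 ∧ h (m - 1) = f1 ∧
      ∀ l, 0 < l → l < m → G.Rch (G.avo A M) y0 (u l) := by
  obtain ⟨r, v, g, hp, v0, vr⟩ := hr.pth f0
  have h2 : ∀ i ≤ r, G.Rch (G.avo A M) y0 (v i) := fun i hi =>
    v0 ▸ (hp.rch (Nat.zero_le r) hi).mono hp.pe_sub
  have h3 : ∀ x ∈ M, x ∉ pv r v := fun x hx h => by
    obtain ⟨i, hi, rfl⟩ := mem_pv.1 h
    exact GNg_avo (h2 i hi) hy hx
  have h4 := (hp.mono fun i hi => (mem_avo.1 (hp.mem i hi)).1).snoc hf1 (vr ▸ j1) (h3 x1 h1)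
  have h5 := h4.cons (x := x0) hf0 (by simpa [v0] using j0.symm) fun h => by
    obtain ⟨i, hi, e⟩ := mem_pv.1 h
    split_ifs at e with h6
    · exact h3 x0 h0 (mem_pv.2 ⟨i, h6, e⟩)
    · exact hx e.symm
  refine ⟨_, _, _, h5, by simp, by simp, by omega, by simp, by simp, fun l l0 l1 => ?_⟩
  have h6 : l - 1 ≤ r := by omega
  simp only [if_neg l0.ne', if_pos h6]
  exact h2 _ h6

/-- rerouting with all the bookkeeping -/
theorem GNg_rr {A : Finset E} {n m i j : ℕ} {w u : ℕ → V} {g h : ℕ → E} (a b : E)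
    (hp : G.Pth A n w g) (he : G.Pth A m u h) (hij : i < j) (hj : j ≤ n) (h0 : u 0 = w i)
    (hm : u m = w j) (h1 : 1 ≤ m) (hd : ∀ l, 0 < l → l < m → u l ∉ pv n w) :
    ∃ n' w' g', G.Pth A n' w' g' ∧ w' 0 = w 0 ∧ w' n' = w n ∧ i + m ≤ n' ∧
      (∀ l ≤ i, w' l = w l ∧ es a b n' g' l = es a b n g l) ∧ es a b n' g' (i + 1) = h 0 ∧
      w' (i + m) = w j ∧ es a b n' g' (i + m) = h (m - 1) ∧
      es a b n' g' (i + m + 1) = es a b n g (j + 1) ∧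
      ∀ x, x ∈ pv n' w' ↔ (∃ l ≤ i, w l = x) ∨ x ∈ pv m u ∨ ∃ l, j ≤ l ∧ l ≤ n ∧ w l = x := by
  refine ⟨_, _, _, hp.rr he hij hj h0 hm fun k k0 k1 l hl _ e => hd k k0 k1 (mem_pv.2 ⟨l, hl, e.symm⟩),
    Pth_rr1 (Nat.zero_le i), ?_, by omega, fun l hl => ⟨Pth_rr1 hl, ?_⟩, ?_, ?_, ?_, ?_,
    fun x => mem_pv_rr hij.le hj h0 hm⟩
  · rw [Pth_rr3 h0 hm (by omega)]
    congr 1
    omega
  · unfold es
    by_cases l0 : l = 0
    · rw [if_pos l0, if_pos l0]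
    · rw [if_neg l0, if_neg l0, if_pos (by omega), if_pos (by omega), Pth_re1 (by omega)]
  · rw [Quo_es_succ (by omega), Pth_re2 le_rfl (by omega), Nat.sub_self]
  · rw [Pth_rr3 h0 hm le_rfl, Nat.sub_self, Nat.zero_add]
  · obtain ⟨m, rfl⟩ : ∃ k, m = k + 1 := ⟨m - 1, by omega⟩
    rw [← Nat.add_assoc, Quo_es_succ (by omega), Pth_re2 (by omega) (by omega)]
    congr 1
    omega
  · rcases hj.eq_or_lt with rfl | hj
    · rw [Nat.sub_self, Nat.add_zero, Quo_es_last, Quo_es_last]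
    · rw [Quo_es_succ (by omega), Quo_es_succ hj, Pth_re3 le_rfl, Nat.sub_self, Nat.zero_add]

/-- an edge with an end off the path is none of the edges of the track -/
theorem GNg_ne {A : Finset E} {n l : ℕ} {w : ℕ → V} {g : ℕ → E} {f : E} {x y : V}
    (hp : G.Pth A n w g) (ha : a ∉ A) (hb : b ∉ A) (hf : f ∈ A) (hj : G.Je f x y)
    (hx : x ∉ pv n w) : f ≠ es a b n g l := by
  rintro rfl
  unfold es at hf hj
  split_ifs at hf hj with h1 h2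
  · exact ha hf
  · have h3 := (hp.jn (l - 1) (by omega)).at_iff.1 (hj.at_iff.2 (Or.inl rfl))
    exact hx (mem_pv.2 (h3.elim (fun e => ⟨l - 1, by omega, e.symm⟩)
      fun e => ⟨l - 1 + 1, by omega, e.symm⟩))
  · exact hb hf

theorem GNg_mid (hc : G.Cub) (hT : G.HT T) (hW : W ⊆ T) (h4 : (G.cut W).card = 4) {x y z : E}
    (hx : x ∈ G.cut W) (hy : y ∈ G.cut W) (hz : z ∈ G.cut W) (hxy : x ≠ y) (hzx : z ≠ x)
    (hzy : z ≠ y) (h : G.Qd W x y) : ¬ G.Qd W x z ∧ ¬ G.Qd W z y := by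
  obtain ⟨c', d', hq⟩ := exists_q4 h4 hx hy hxy
  rcases (Spl_mem hq z).1 hz with e | e | rfl | rfl
  · exact absurd e hzx
  · exact absurd e hzy
  · exact ⟨(hT.qd_mid hc hW hq h).1, (hT.qd_mid hc hW hq h).2.2.2⟩
  · exact ⟨(hT.qd_mid hc hW hq.swap2 h).1, (hT.qd_mid hc hW hq.swap2 h).2.2.2⟩

/-- a small set cannot send two edges to a box -/
theorem GNg_two (hT : G.HT T) (hS : S ⊆ T) (hq : G.Q4 S a b c d) (hB : G.Bx G.AU S {a, b} Bs)
    {B X : Finset V} (hb : B ∈ Bs) (hX : X ⊆ S) (hn : X.Nonempty) (hd : Disjoint X B)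
    (hx : G.ie S c ∉ X) (hi : G.cut X ⊆ G.ins S) (h4 : (G.cut X).card ≤ 4)
    (h2 : (G.cut X ∩ G.cut B).card = 2) : False := by
  obtain ⟨b1, b2, b3⟩ := hB.1 B hb
  have h5 := cut_submod (G := G) (X := X) (Y := B)
  rw [disjoint_iff_inter_eq_empty.1 hd, sdiff_eq_self_of_disjoint hd,
    sdiff_eq_self_of_disjoint hd.symm, h2, b1.1] at h5
  have h6 : G.ie S c ∉ B := hB.not_mem hb hq.mem.2.2.1
    (by simp [hq.2.2.1.symm, hq.2.2.2.2.1.symm]) ie_at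
  obtain ⟨y, hy⟩ := Spl_nonempty b1.1
  obtain ⟨x, hx'⟩ := hn
  have h7 : 4 ≤ (G.cut (X ∪ B)).card := by
    refine hT.four hS ⟨union_subset hX b2, fun h => ?_⟩ (one_lt_card.2 ⟨x, mem_union_left _ hx', y,
      mem_union_right _ hy, fun e => disjoint_left.1 hd hx' (e ▸ hy)⟩)
    exact (mem_union.1 (h (Spl_ie hq.mem.2.2.1))).elim hx h6
  have h8 := hB.max hb (S := X ∪ B)
    ⟨by omega, fun h => b1.2 (h.mono (ins_mono subset_union_right))⟩ (union_subset hX b2)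
    (cut_union_sub.trans (union_subset (hi.trans subset_union_left) b3))
    fun h => disjoint_left.1 h (mem_union_right _ hy) hy
  exact disjoint_left.1 hd hx' (h8 (mem_union_left _ hx'))

variable (G) in
/-- paths between the nodes of the terminals -/
def GNgP (S : Finset V) (Bs : Finset (Finset V)) (a b : E) (n : ℕ) (w : ℕ → Finset V)
    (g : ℕ → E) : Prop :=
  (G.quo S Bs).Pth (G.quo S Bs).A n w g ∧ w 0 = nd Bs (G.ie S a) ∧ w n = nd Bs (G.ie S b)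

variable (G) in
/-- the failure of the statement -/
def GNgH (S : Finset V) (Bs : Finset (Finset V)) (a b c d : E) : Prop :=
  ∀ n w g, G.GNgP S Bs a b n w g → ({G.ie S c} ∈ pv n w ∨ {G.ie S d} ∈ pv n w) →
    (∀ j ≤ n, w j ∈ Bs → G.Qd (w j) (es a b n g j) (es a b n g (j + 1))) ∧
      ∀ i ≤ n, ∀ j ≤ n, i ≠ j → w i ∈ Bs → ∀ f ∈ G.cut (w i), f ∈ G.cut (w j) → f ∈ pe n g

variable (G) in
/-- attachments of the component of `N` -/
def GNgA (S : Finset V) (Bs : Finset (Finset V)) (n : ℕ) (w : ℕ → Finset V) (N : Finset V)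
    (i : ℕ) : Prop :=
  i ≤ n ∧ ∃ f ∈ (G.quo S Bs).A, ∃ Y,
    (G.quo S Bs).Rch ((G.quo S Bs).avo (G.quo S Bs).A (pv n w)) N Y ∧ (G.quo S Bs).Je f Y (w i)

section Main

variable {n j k : ℕ} {w : ℕ → Finset V} {g : ℕ → E} {e : E} {N : Finset V}

theorem GNg_nA (he : e ∈ G.cut S) : e ∉ (G.quo S Bs).A :=
  fun h => not_ins_of_cut he (mem_quo.1 h).1

theorem GNg_trk (hq : G.Q4 S a b c d) (hB : G.Bx G.AU S {a, b} Bs) (hp : G.GNgP S Bs a b n w g)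
    (hj : j ≤ n) : es a b n g j ∈ G.cut (w j) ∧ es a b n g (j + 1) ∈ G.cut (w j) ∧
      es a b n g j ≠ es a b n g (j + 1) :=
  (trk_of_pth hB.2.1 (fun B hb => (hB.1 B hb).2.1) hp.1 hq.mem.1 hq.mem.2.1 hq.2.1 hp.2.1
    hp.2.2).1.2.2 j hj

/-- no chord -/
theorem GNg_nc (hB : G.Bx G.AU S {a, b} Bs) (hH : G.GNgH S Bs a b c d)
    (hp : G.GNgP S Bs a b n w g) (ht : {G.ie S c} ∈ pv n w) (hj : j ≤ n) (hb : w j ∈ Bs)
    (he : e ∈ (G.quo S Bs).A) (hJ : (G.quo S Bs).Je e (w j) N) (h1 : e ≠ es a b n g j)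
    (h2 : e ≠ es a b n g (j + 1)) : N ∉ pv n w := by
  intro h
  obtain ⟨l, hl, rfl⟩ := mem_pv.1 h
  have h3 := quo_je_inv hB.2.1 he hJ
  have h4 : j ≠ l := by
    rintro rfl
    exact quo_noloop he (hJ.elim (fun h => h.1.trans h.2.symm) fun h => h.1.trans h.2.symm)
  obtain ⟨t, ht', rfl⟩ := mem_pe.1 ((hH n w g hp (Or.inl ht)).2 j hj l hl h4 hb e h3.1 h3.2.1)
  rcases (hp.1.at_iff ht' hj).1 (hJ.at_iff.2 (Or.inl rfl)) with rfl | rfl
  · exact h2 (Quo_es_succ ht').symm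
  · exact h1 (Quo_es_succ ht').symm

/-- an edge at a box that is off the path -/
theorem GNg_off (hq : G.Q4 S a b c d) (hB : G.Bx G.AU S {a, b} Bs) (hH : G.GNgH S Bs a b c d)
    (hp : G.GNgP S Bs a b n w g) (ht : {G.ie S c} ∈ pv n w) (hj : j < n) (hb : w j ∈ Bs) :
    ∃ e N, e ∈ (G.quo S Bs).A ∧ (G.quo S Bs).Je e (w j) N ∧ N ∉ pv n w := by
  obtain ⟨b1, b2, b3⟩ := hB.1 _ hb
  obtain ⟨t1, t2, t3⟩ := GNg_trk hq hB hp hj.le
  obtain ⟨e, e', h4⟩ := exists_q4 b1.1 t1 t2 t3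
  have h5 := h4.mem.2.2.1
  have h6 : ∀ x ∈ G.cut S, x ∈ G.cut (w j) → nd Bs (G.ie S x) = w j := fun x hx hx' =>
    nd_of_mem hB.2.1 hb ((cut_of_sub b2 hx (cut_sub_tch hx')).2 ▸ Spl_ie hx')
  have h7 : e ∈ G.ins S := by
    refine (mem_union.1 (b3 h5)).resolve_right fun h => ?_
    rcases mem_insert.1 h with rfl | h
    · obtain rfl := hp.1.inj 0 (Nat.zero_le n) j hj.le (hp.2.1.trans (h6 _ hq.mem.1 h5))
      exact h4.2.2.1 rfl
    · obtain rfl := mem_singleton.1 h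
      exact hj.ne' (hp.1.inj n le_rfl j hj.le (hp.2.2.trans (h6 _ hq.mem.2.1 h5)))
  have h8 := nd_of_mem hB.2.1 hb (Spl_ie h5)
  have h9 := ((quo_at hB.2.1).2 ⟨h7, h8.symm ▸ h5⟩).1
  have h10 := quo_je (Ns := Bs) h7 (je_ie_oe (X := w j))
  rw [h8] at h10
  exact ⟨e, _, h9, h10, GNg_nc hB hH hp ht hj.le hb h9 h10 h4.2.2.1.symm h4.2.2.2.2.1.symm⟩

/-- an ear that starts at a box and runs forward -/
theorem GNg_fw (hc : G.Cub) (hT : G.HT T) (hS : S ⊆ T) (hq : G.Q4 S a b c d)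
    (hB : G.Bx G.AU S {a, b} Bs) (hH : G.GNgH S Bs a b c d) (hp : G.GNgP S Bs a b n w g)
    (ht : {G.ie S c} ∈ pv n w) (hb : w j ∈ Bs) {m i : ℕ} {u : ℕ → Finset V} {h : ℕ → E}
    (he : (G.quo S Bs).Pth (G.quo S Bs).A m u h) (hij : j < i) (hi : i ≤ n) (h0 : u 0 = w j)
    (hm : u m = w i) (h2 : 2 ≤ m) (hd : ∀ l, 0 < l → l < m → u l ∉ pv n w)
    (hk : (∃ l, i ≤ l ∧ l ≤ n ∧ w l = {G.ie S c}) ∨ {G.ie S d} ∈ pv m u) : False := by
  obtain ⟨n', w', g', p1, p2, p3, p4, p5, p6, -, -, -, p7⟩ :=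
    GNg_rr a b hp.1 he hij hi h0 hm (by omega) hd
  have h3 := (hH n' w' g' ⟨p1, p2.trans hp.2.1, p3.trans hp.2.2⟩ (hk.imp
    (fun h => (p7 _).2 (Or.inr (Or.inr h))) fun h => (p7 _).2 (Or.inr (Or.inl h)))).1 j (by omega)
    ((p5 j le_rfl).1 ▸ hb)
  rw [(p5 j le_rfl).1, (p5 j le_rfl).2, p6] at h3
  obtain ⟨t1, t2, t3⟩ := GNg_trk hq hB hp (j := j) (by omega)
  have h4 := he.jn 0 (by omega)
  have h5 := fun l => GNg_ne (l := l) hp.1 (GNg_nA hq.mem.1) (GNg_nA hq.mem.2.1)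
    (he.mem 0 (by omega)) h4.symm (hd 1 one_pos h2)
  exact (GNg_mid hc hT ((hB.1 _ hb).2.1.trans hS) (hB.1 _ hb).1.1 t1 t2
    (h0 ▸ (quo_je_inv hB.2.1 (he.mem 0 (by omega)) h4).1) t3 (h5 _) (h5 _)
    ((hH n w g hp (Or.inl ht)).1 j (by omega) hb)).1 h3

/-- the item behind an edge at the box has no further attachment on the side of the box -/
theorem GNg_side (hc : G.Cub) (hT : G.HT T) (hS : S ⊆ T) (hq : G.Q4 S a b c d)
    (hB : G.Bx G.AU S {a, b} Bs) (hH : G.GNgH S Bs a b c d) (hp : G.GNgP S Bs a b n w g)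
    (hjk : j < k) (hk : k ≤ n) (ht : w k = {G.ie S c}) (hb : w j ∈ Bs)
    (he : e ∈ (G.quo S Bs).A) (hJ : (G.quo S Bs).Je e (w j) N) (hN : N ∉ pv n w) {i : ℕ}
    (hA : G.GNgA S Bs n w N i) : i = j ∨ k < i := by
  by_contra h
  obtain ⟨hi, f, hf, Y, hY, hfY⟩ := hA
  have ht' : {G.ie S c} ∈ pv n w := mem_pv.2 ⟨k, hk, ht⟩
  have hj : j ≤ n := by omega
  have hne : w j ≠ w i := fun e => h (Or.inl (hp.1.inj j hj i hi e).symm)
  rcases Nat.lt_or_gt_of_ne (fun e => h (Or.inl e) : i ≠ j) with hij | hij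
  · obtain ⟨m, u, h', p, u0, um, m2, -, hm, hu⟩ := GNg_ear (mem_pv.2 ⟨i, hi, rfl⟩)
      (mem_pv.2 ⟨j, hj, rfl⟩) hne.symm hf hfY he hJ.symm (GNg_avo hY hN) hY.symm
    obtain ⟨n', w', g', p1, p2, p3, p4, -, -, p5, p6, p7, p8⟩ := GNg_rr a b hp.1 p hij hj u0 um
      (by omega) fun l l0 l1 => GNg_avo (hu l l0 l1) (GNg_avo hY hN)
    have h3 := (hH n' w' g' ⟨p1, p2.trans hp.2.1, p3.trans hp.2.2⟩ (Or.inl
      ((p8 _).2 (Or.inr (Or.inr ⟨k, hjk.le, hk, ht⟩))))).1 (i + m) p4 (p5 ▸ hb)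
    rw [p5, p6, p7, hm] at h3
    obtain ⟨t1, t2, t3⟩ := GNg_trk hq hB hp hj
    have h5 := fun l => GNg_ne (l := l) hp.1 (GNg_nA hq.mem.1) (GNg_nA hq.mem.2.1) he hJ.symm hN
    exact (GNg_mid hc hT ((hB.1 _ hb).2.1.trans hS) (hB.1 _ hb).1.1 t1 t2
      (quo_je_inv hB.2.1 he hJ).1 t3 (h5 _) (h5 _) ((hH n w g hp (Or.inl ht')).1 j hj hb)).2 h3
  · obtain ⟨m, u, h', p, u0, um, m2, -, -, hu⟩ := GNg_ear (mem_pv.2 ⟨j, hj, rfl⟩)
      (mem_pv.2 ⟨i, hi, rfl⟩) hne he hJ.symm hf hfY hN hY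
    exact GNg_fw hc hT hS hq hB hH hp ht' hb p hij hi u0 um m2
      (fun l l0 l1 => GNg_avo (hu l l0 l1) hN) (Or.inl ⟨k, by omega, hk, ht⟩)

/-- an item with only two attachments contains the last terminal -/
theorem GNg_small (hc : G.Cub) (hT : G.HT T) (hS : S ⊆ T) (hq : G.Q4 S a b c d)
    (h2 : 2 < S.card) (hN : G.NC S a b) (hB : G.Bx G.AU S {a, b} Bs)
    (hp : G.GNgP S Bs a b n w g) (ht : {G.ie S c} ∈ pv n w) {v : V} (hv : v ∈ S)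
    (hM : nd Bs v ∉ pv n w) {i : ℕ} (hi : i ≤ n) (hj : j ≤ n)
    (hA : ∀ l, G.GNgA S Bs n w (nd Bs v) l → l = j ∨ l = i) :
    (G.quo S Bs).Rch ((G.quo S Bs).avo (G.quo S Bs).A (pv n w)) (nd Bs v) {G.ie S d} := by
  by_contra htd
  obtain ⟨Z, z1, z2, z3, -, z5⟩ := quo_comp (G := G) (pv n w) hv hM
  obtain ⟨-, t1, t2, -, -⟩ := nd_term hc hT hS hq h2 hN hB
  have hX : un S Bs Z ⊆ S := fun x hx => (mem_un.1 hx).1
  have h3 : ∀ x ∈ G.cut S, G.ie S x ∉ un S Bs Z := fun x hx h => by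
    have h4 := (mem_un.1 h).2
    rcases (Spl_mem hq x).1 hx with rfl | rfl | rfl | rfl
    · exact disjoint_left.1 z2 h4 (mem_pv.2 ⟨0, Nat.zero_le n, hp.2.1⟩)
    · exact disjoint_left.1 z2 h4 (mem_pv.2 ⟨n, le_rfl, hp.2.2⟩)
    · exact disjoint_left.1 z2 h4 (t1 ▸ ht)
    · exact htd (t2 ▸ (z3 _).1 h4)
  have h4 : G.cut (un S Bs Z) ⊆ G.crs (G.ins S) (un S Bs Z) := fun x hx => by
    rw [crs_ins hX]
    exact mem_sdiff.2 ⟨hx, fun h => h3 x h ((cut_of_sub hX h (cut_sub_tch hx)).2 ▸ Spl_ie hx)⟩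
  have h5 : ∀ f ∈ G.cut (un S Bs Z), (f ∈ G.cut (w j) ∨ f ∈ G.cut (w i)) ∧
      ∀ l, f ≠ es a b n g l := fun f hf => by
    have h6 := h4 hf
    have h7 := z5 f h6
    rw [← quo_crs, mem_crs] at h6
    obtain ⟨Y, hY, M, hM', hJ⟩ : ∃ Y ∈ Z, ∃ M ∈ pv n w, (G.quo S Bs).Je f Y M := by
      rcases h7 with h | h
      · exact ⟨_, by_contra fun h8 => h6.2 (iff_of_false (disjoint_right.1 z2 h) h8), _, h,
          Or.inr ⟨rfl, rfl⟩⟩
      · exact ⟨_, by_contra fun h8 => h6.2 (iff_of_false h8 (disjoint_right.1 z2 h)), _, h,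
          Or.inl ⟨rfl, rfl⟩⟩
    obtain ⟨l, hl, rfl⟩ := mem_pv.1 hM'
    have h8 := (quo_je_inv hB.2.1 h6.1 hJ).2.1
    exact ⟨(hA l ⟨hl, f, h6.1, Y, (z3 Y).1 hY, hJ⟩).imp (fun e : l = j => e ▸ h8)
        fun e : l = i => e ▸ h8,
      fun l' => GNg_ne hp.1 (GNg_nA hq.mem.1) (GNg_nA hq.mem.2.1) h6.1 hJ (disjoint_left.1 z2 hY)⟩
  have h6 : ∀ l ≤ n, (G.cut (un S Bs Z) ∩ G.cut (w l)).card ≤ 2 ∧
      ((G.cut (un S Bs Z)).card ≤ 4 → (G.cut (un S Bs Z) ∩ G.cut (w l)).card ≠ 2) := by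
    intro l hl
    obtain ⟨t1, t2, t3⟩ := GNg_trk hq hB hp hl
    have h7 : (G.cut (un S Bs Z) ∩ G.cut (w l)).card + 2 ≤ (G.cut (w l)).card := by
      rw [← card_pair t3, ← card_union_of_disjoint]
      · exact card_le_card (union_subset inter_subset_right
          (insert_subset t1 (singleton_subset_iff.2 t2)))
      · refine disjoint_left.2 fun f hf h => ?_
        rcases mem_insert.1 h with h | h
        · exact (h5 f (mem_inter.1 hf).1).2 _ h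
        · exact (h5 f (mem_inter.1 hf).1).2 _ (mem_singleton.1 h)
    obtain ⟨y, hy, e⟩ := quo_pth_node hp.1 (Spl_ie hq.mem.1) hp.2.1 l hl
    rcases nd_cases hB.2.1 y with h | h
    · rw [← e] at h
      have h8 := (hB.1 _ h).1.1
      refine ⟨by omega, fun h9 h10 => GNg_two hT hS hq hB h hX ⟨v, mem_un.2 ⟨hv, z1⟩⟩
        (disjoint_left.2 fun x hx hx' => disjoint_left.1 z2 (mem_un.1 hx).2
          (mem_pv.2 ⟨l, hl, (nd_of_mem hB.2.1 h hx').symm⟩)) (h3 c hq.mem.2.2.1)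
        (fun x hx => (mem_crs.1 (h4 hx)).1) h9 h10⟩
    · have h8 := (hT.vtx hc (hS hy)).1
      rw [← h.2, ← e] at h8
      exact ⟨by omega, fun _ => by omega⟩
  have h7 : (G.cut (un S Bs Z)).card ≤ (G.cut (un S Bs Z) ∩ G.cut (w j)).card +
      (G.cut (un S Bs Z) ∩ G.cut (w i)).card := by
    refine le_trans (card_le_card fun f hf => ?_) (card_union_le _ _)
    exact mem_union.2 ((h5 f hf).1.imp (fun h => mem_inter.2 ⟨hf, h⟩) fun h => mem_inter.2 ⟨hf, h⟩)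
  have h8 := hT.mono3 (hX.trans hS) ⟨v, mem_un.2 ⟨hv, z1⟩⟩
  have h9 := h6 j hj
  have h10 := h6 i hi
  omega

/-- every item behind a box contains the last terminal -/
theorem GNg_fam (hc : G.Cub) (hT : G.HT T) (hS : S ⊆ T) (hq : G.Q4 S a b c d)
    (h2 : 2 < S.card) (hN : G.NC S a b) (hB : G.Bx G.AU S {a, b} Bs) (hH : G.GNgH S Bs a b c d)
    (hjk : j < k) (he : e ∈ (G.quo S Bs).A) (r : ℕ) : ∀ n w g, G.GNgP S Bs a b n w g → k ≤ n →
      w k = {G.ie S c} → w j ∈ Bs → (G.quo S Bs).Je e (w j) N → N ∉ pv n w →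
      {Y | (G.quo S Bs).Rch ((G.quo S Bs).avo (G.quo S Bs).A (pv n w)) N Y}.ncard = r →
      (G.quo S Bs).Rch ((G.quo S Bs).avo (G.quo S Bs).A (pv n w)) N {G.ie S d} := by
  classical
  induction r using Nat.strong_induction_on with
  | _ r ih =>
  intro n w g hp hk ht hb hJ hM hr
  have h3 := fun i => GNg_side (i := i) hc hT hS hq hB hH hp hjk hk ht hb he hJ hM
  by_cases h4 : ∃ i, G.GNgA S Bs n w N i ∧ k < i ∧ ∃ i', i < i' ∧ G.GNgA S Bs n w N i'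
  · obtain ⟨i, hi, hki, h5⟩ := h4
    obtain ⟨hii, hi', f', hf', Y', hY', hJ'⟩ := Nat.find_spec h5
    have h6 := fun l => Nat.find_min h5 (m := l)
    generalize Nat.find h5 = i' at *
    obtain ⟨hi, f, hf, Y, hY, hJ1⟩ := hi
    obtain ⟨m, u, h', p, u0, um, m2, -, -, hu⟩ := GNg_ear (mem_pv.2 ⟨i, hi, rfl⟩)
      (mem_pv.2 ⟨i', hi', rfl⟩) (fun e => hii.ne (hp.1.inj i hi i' hi' e)) hf hJ1 hf' hJ'
      (GNg_avo hY hM) (hY.symm.trans hY')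
    obtain ⟨n', w', g', p1, p2, p3, p4, p5, -, -, -, -, p6⟩ := GNg_rr a b hp.1 p hii hi' u0 um
      (by omega) fun l l0 l1 => GNg_avo (hu l l0 l1) (GNg_avo hY hM)
    have hp' : G.GNgP S Bs a b n' w' g' := ⟨p1, p2.trans hp.2.1, p3.trans hp.2.2⟩
    have q1 : w' k = {G.ie S c} := (p5 k hki.le).1.trans ht
    have q2 := p5 j (by omega)
    have q3 := fun l => GNg_ne (l := l) hp.1 (GNg_nA hq.mem.1) (GNg_nA hq.mem.2.1) he hJ.symm hM
    have q4 : N ∉ pv n' w' := GNg_nc hB hH hp' (mem_pv.2 ⟨k, by omega, q1⟩) (j := j) (by omega)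
      (q2.1 ▸ hb) he (q2.1 ▸ hJ) (q2.2 ▸ q3 _) ((p5 (j + 1) (by omega)).2 ▸ q3 _)
    have q5 : ∀ X, (G.quo S Bs).Rch ((G.quo S Bs).avo (G.quo S Bs).A (pv n' w')) N X →
        (G.quo S Bs).Rch ((G.quo S Bs).avo (G.quo S Bs).A (pv n w)) N X := by
      have q6 : ∀ f ∈ (G.quo S Bs).A, ∀ X X', (G.quo S Bs).Je f X X' → X' ∉ pv n' w' →
          (G.quo S Bs).Rch ((G.quo S Bs).avo (G.quo S Bs).A (pv n w)) N X →
          (G.quo S Bs).Rch ((G.quo S Bs).avo (G.quo S Bs).A (pv n w)) N X' := by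
        intro f hf X X' hj hX' hX
        refine hX.trans (GNg_step hf hj (GNg_avo hX hM) fun h => ?_)
        obtain ⟨l, hl, rfl⟩ := mem_pv.1 h
        by_cases l1 : l ≤ i
        · exact hX' ((p6 _).2 (Or.inl ⟨l, l1, rfl⟩))
        by_cases l2 : i' ≤ l
        · exact hX' ((p6 _).2 (Or.inr (Or.inr ⟨l, l2, hl, rfl⟩)))
        exact h6 l (by omega) ⟨by omega, hl, f, hf, X, hX, hj⟩
      intro X hX
      refine hX.closed (fun f hf => ?_) (Rch.refl _ _)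
      obtain ⟨f1, f2, f3⟩ := mem_avo.1 hf
      exact ⟨q6 f f1 _ _ (Or.inl ⟨rfl, rfl⟩) f3, q6 f f1 _ _ (Or.inr ⟨rfl, rfl⟩) f2⟩
    refine q5 _ (ih _ ?_ n' w' g' hp' (by omega) q1 (q2.1 ▸ hb) (q2.1 ▸ hJ) q4 rfl)
    rw [← hr]
    refine Set.ncard_lt_ncard ⟨q5, fun h => ?_⟩ (Set.toFinite _)
    exact GNg_avo (h (hY.trans (hu 1 one_pos m2))) q4
      ((p6 _).2 (Or.inr (Or.inl (mem_pv.2 ⟨1, by omega, rfl⟩))))
  · obtain ⟨v, hv, rfl⟩ := Quo_node he hJ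
    by_cases h5 : ∃ i, G.GNgA S Bs n w (nd Bs v) i ∧ k < i
    · obtain ⟨i, hi, hki⟩ := h5
      refine GNg_small hc hT hS hq h2 hN hB hp (mem_pv.2 ⟨k, hk, ht⟩) hv hM hi.1 (j := j)
        (by omega) fun l hl => (h3 l hl).imp_right fun h => ?_
      rcases lt_trichotomy l i with h6 | h6 | h6
      · exact absurd ⟨l, hl, h, i, h6, hi⟩ h4
      · exact h6
      · exact absurd ⟨i, hi, hki, l, h6, hl⟩ h4
    · exact GNg_small hc hT hS hq h2 hN hB hp (mem_pv.2 ⟨k, hk, ht⟩) hv hM hk (j := j)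
        (by omega) fun l hl => (h3 l hl).imp_right fun h => absurd ⟨l, hl, h⟩ h5

theorem GNg_main (hc : G.Cub) (hT : G.HT T) (hS : S ⊆ T) (hq : G.Q4 S a b c d)
    (h2 : 2 < S.card) (hN : G.NC S a b) (hB : G.Bx G.AU S {a, b} Bs) (hH : G.GNgH S Bs a b c d)
    (hp : G.GNgP S Bs a b n w g) (hjk : j < k) (hk : k ≤ n) (ht : w k = {G.ie S c})
    (hb : w j ∈ Bs) : False := by
  have h3 : ∀ n w g, G.GNgP S Bs a b n w g → k ≤ n → w k = {G.ie S c} → w j ∈ Bs →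
      ∃ e N, e ∈ (G.quo S Bs).A ∧ (G.quo S Bs).Je e (w j) N ∧ N ∉ pv n w ∧
        (G.quo S Bs).Rch ((G.quo S Bs).avo (G.quo S Bs).A (pv n w)) N {G.ie S d} := by
    intro n w g hp hk ht hb
    obtain ⟨e, N, h1, h3, h4⟩ := GNg_off hq hB hH hp (mem_pv.2 ⟨k, hk, ht⟩) (by omega) hb
    exact ⟨e, N, h1, h3, h4, GNg_fam hc hT hS hq h2 hN hB hH hjk h1 _ n w g hp hk ht hb h3 h4 rfl⟩
  obtain ⟨e, N, he, hJ, hM, hr⟩ := h3 n w g hp hk ht hb
  obtain ⟨-, -, t2, -, -⟩ := nd_term hc hT hS hq h2 hN hB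
  have h4 : ∀ m u h i i', (G.quo S Bs).Pth (G.quo S Bs).A m u h → i < i' → i' ≤ n → u 0 = w i →
      u m = w i' → {G.ie S d} ∈ pv m u → 2 ≤ m → (∀ l, 0 < l → l < m → u l ∉ pv n w) → False := by
    intro m u h i i' p hii hi' u0 um hd m2 hu
    have h5 : ∀ l, 0 < l → l < m →
        (G.quo S Bs).Rch ((G.quo S Bs).avo (G.quo S Bs).A (pv n w)) (u 1) (u l) := by
      intro l l0 l1
      induction l with
      | zero => omega
      | succ l ih =>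
        rcases Nat.eq_zero_or_pos l with rfl | l2
        · exact Rch.refl _ _
        · exact (ih l2 (by omega)).trans (GNg_step (p.mem l (by omega)) (p.jn l (by omega))
            (hu l l2 (by omega)) (hu _ l0 l1))
    obtain ⟨l, hl, el⟩ := mem_pv.1 hd
    have h6 := GNg_avo hr hM
    have l0 : 0 < l := Nat.pos_of_ne_zero fun e => h6 (mem_pv.2 ⟨i, by omega, by rw [← u0, ← el, e]⟩)
    have l1 : l < m := hl.lt_of_ne fun e => h6 (mem_pv.2 ⟨i', hi', by rw [← um, ← el, e]⟩)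
    rcases GNg_side hc hT hS hq hB hH hp hjk hk ht hb he hJ hM (i := i) ⟨by omega, h 0,
      p.mem 0 (by omega), u 1, hr.trans (el ▸ (h5 l l0 l1).symm),
      u0 ▸ (p.jn 0 (by omega)).symm⟩ with rfl | hki
    · exact GNg_fw hc hT hS hq hB hH hp (mem_pv.2 ⟨k, hk, ht⟩) hb p hii hi' u0 um m2 hu (Or.inr hd)
    · obtain ⟨n', w', g', p1, p2, p3, p4, p5, -, -, -, -, p6⟩ :=
        GNg_rr a b hp.1 p hii hi' u0 um (by omega) hu
      obtain ⟨e', N', -, -, q1, q2⟩ := h3 n' w' g' ⟨p1, p2.trans hp.2.1, p3.trans hp.2.2⟩ (by omega)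
        ((p5 k hki.le).1.trans ht) ((p5 j (by omega)).1 ▸ hb)
      exact GNg_avo q2 q1 ((p6 _).2 (Or.inr (Or.inl hd)))
  obtain ⟨m, u, h, p, u0, um, hd, m2, hu⟩ := ear_through (G := G.quo S Bs) (G.quo S Bs).A (pv n w)
    a (GNg_avo hr hM) fun M h5 h6 => by
      rw [← t2] at h6 ⊢
      rcases quo_two hc hT hS hq h2 hN hB (Spl_ie hq.mem.2.2.2) M h5 h6 with h | h
      · exact ⟨_, mem_pv.2 ⟨0, Nat.zero_le n, hp.2.1⟩, h⟩
      · exact ⟨_, mem_pv.2 ⟨n, le_rfl, hp.2.2⟩, h⟩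
  obtain ⟨i, hi, ei⟩ := mem_pv.1 u0
  obtain ⟨i', hi', ei'⟩ := mem_pv.1 um
  rcases lt_trichotomy i i' with h5 | rfl | h5
  · exact h4 m u h i i' p h5 hi' ei.symm ei'.symm hd m2 hu
  · have := p.inj 0 (Nat.zero_le m) m le_rfl (ei.symm.trans ei')
    omega
  · exact h4 m _ _ i' i p.rev h5 hi ei'.symm (by simpa using ei.symm) (by rwa [pv_rev]) m2
      fun l l0 l1 => hu _ (by omega) (by omega)

omit [Fintype V] [DecidableEq E] in
theorem GNg_es {l : ℕ} (hl : l ≤ n + 1) :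
    es b a n (fun k => g (n - 1 - k)) l = es a b n g (n + 1 - l) := by
  unfold es
  by_cases h0 : l = 0
  · rw [if_pos h0, if_neg (by omega), if_neg (by omega)]
  · by_cases h1 : l ≤ n
    · rw [if_neg h0, if_pos h1, if_neg (by omega), if_pos (by omega)]
      exact congrArg g (by omega)
    · rw [if_neg h0, if_neg h1, if_pos (by omega)]

theorem GNg_swap (hH : G.GNgH S Bs a b c d) : G.GNgH S Bs b a c d := by
  intro n w g hp ht
  obtain ⟨h1, h2⟩ := hH n _ _ ⟨hp.1.rev, hp.2.2, by simpa using hp.2.1⟩ (by rwa [pv_rev])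
  refine ⟨fun j hj hb => ?_, fun i hi j hj hij hb f hf hf' => ?_⟩
  · have h3 := h1 (n - j) (Nat.sub_le n j)
    rw [GNg_es (by omega), GNg_es (by omega), Nat.sub_sub_self hj,
      show n + 1 - (n - j) = j + 1 by omega, show n + 1 - (n - j + 1) = j by omega] at h3
    exact (h3 hb).symm
  · have h3 := h2 (n - i) (Nat.sub_le n i) (n - j) (Nat.sub_le n j) (by omega)
    rw [Nat.sub_sub_self hi, Nat.sub_sub_self hj, pe_rev] at h3
    exact h3 hb f hf hf'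

end Main

theorem ng (hc : G.Cub) (hT : G.HT T) (hS : S ⊆ T) (hq : G.Q4 S a b c d) (h2 : 2 < S.card)
    (hN : G.NC S a b) (hB : G.Bx G.AU S {a, b} Bs) (hne : Bs.Nonempty) :
    ∃ n w g, (G.quo S Bs).Pth (G.quo S Bs).A n w g ∧ w 0 = nd Bs (G.ie S a) ∧
      w n = nd Bs (G.ie S b) ∧ ({G.ie S c} ∈ pv n w ∨ {G.ie S d} ∈ pv n w) ∧
      ((∃ j ≤ n, w j ∈ Bs ∧ ¬ G.Qd (w j) (es a b n g j) (es a b n g (j + 1))) ∨
        ((∀ j ≤ n, w j ∈ Bs → G.Qd (w j) (es a b n g j) (es a b n g (j + 1))) ∧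
          ∃ i ≤ n, ∃ j ≤ n, i ≠ j ∧ w i ∈ Bs ∧
            ∃ f ∈ G.cut (w i), f ∈ G.cut (w j) ∧ f ∉ pe n g)) := by
  by_contra h
  have hH : G.GNgH S Bs a b c d := fun n w g hp ht => by
    have h1 : ∀ j ≤ n, w j ∈ Bs → G.Qd (w j) (es a b n g j) (es a b n g (j + 1)) :=
      fun j hj hb => by_contra fun h3 =>
        h ⟨n, w, g, hp.1, hp.2.1, hp.2.2, ht, Or.inl ⟨j, hj, hb, h3⟩⟩
    exact ⟨h1, fun i hi j hj hij hb f hf hf' => by_contra fun h3 =>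
      h ⟨n, w, g, hp.1, hp.2.1, hp.2.2, ht, Or.inr ⟨h1, i, hi, j, hj, hij, hb, f, hf, hf', h3⟩⟩⟩
  obtain ⟨n, w, g, p, p0, pn, ht, j, hj, hb⟩ := o3 hc hT hS hq h2 hN hB hne
  obtain ⟨k, hk, ek⟩ := mem_pv.1 ht
  rcases lt_trichotomy j k with h1 | rfl | h1
  · exact GNg_main hc hT hS hq h2 hN hB hH ⟨p, p0, pn⟩ h1 hk ek hb
  · have h3 := hT.us_card hc ((hB.1 _ hb).2.1.trans hS) (hB.1 _ hb).1
    rw [ek, card_singleton] at h3
    omega
  · exact GNg_main (j := n - j) (k := n - k) hc hT hS hq.swap1 h2 hN.symm (pair_comm a b ▸ hB)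
      (GNg_swap hH) ⟨p.rev, pn, by simpa using p0⟩ (by omega) (Nat.sub_le n k)
      (by simpa [Nat.sub_sub_self hk] using ek) (by simpa [Nat.sub_sub_self hj] using hb)

end SG

end Pool.Agent.Work.MP_8c679b_co
end

-- merged part: Pool.Agent.Work.MP_8c679b_co.Six.RPn
section
/-!
Complete good passes of a piece.
-/

set_option autoImplicit false

namespace Pool.Agent.Work.MP_8c679b_co

open Finset

namespace SG

variable {V E : Type} [Fintype V] [DecidableEq V] [DecidableEq E] {G : SG V E}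
  {T S W X : Finset V} {a b c d : E} {Bs Ds : Finset (Finset V)}
  {n : ℕ} {w : ℕ → Finset V} {g : ℕ → E}

/-- the complete pass of one node whose constant depends on the third edge `x` only -/
theorem RPn_node (hc : G.Cub) (hT : G.HT T) (hW : W ⊆ T) {J : Finset E} (hB : G.Bx G.AU W J Bs)
    {v : V} (hv : v ∈ W) {N : Finset V} (hN : N = nd Bs v) (ha : a ∈ G.cut N) (hb : b ∈ G.cut N)
    (hab : a ≠ b) (hQ : N ∈ Bs → G.Qd N a b) {x : E} (hx : x ∈ G.cut N) (hxa : x ≠ a)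
    (hxb : x ≠ b) : ∃ (O Fr : Finset E) (K : Set (Finset E)) (σ : ZMod 2) (κ : ZMod 3), κ ≠ 0 ∧
      G.St N O {a, b} ∧ Fr ⊆ G.fr N {a, b} ∧
      (G.Pa N O Fr K a b fun ψ R => R.PC σ (κ * ψ x)) ∧ G.NP W Bs ∅ N a b N K := by
  rcases nd_cases hB.2.1 v with h | ⟨h, h'⟩
  · rw [← hN] at h
    have hu : G.US N := (hB.1 N h).1
    obtain ⟨y, hq⟩ : ∃ y, G.Q4 N a b x y := by
      obtain ⟨c, d, hq⟩ := exists_q4 hu.1 ha hb hab
      rw [hq.1] at hx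
      simp only [mem_insert, mem_singleton] at hx
      rcases hx with e | e | rfl | rfl
      exacts [(hxa e).elim, (hxb e).elim, ⟨d, hq⟩, ⟨c, hq.swap2⟩]
    obtain ⟨O, σ, κ, h1, h2, h3⟩ := q_pc hc hT ((hB.1 N h).2.1.trans hW) hu hq (hQ h)
    exact ⟨O, _, _, σ, κ, h1, h2, subset_rfl, h3,
      Or.inr (Or.inr ⟨h, x, y, hq, Or.inl rfl, fun t ht => ht.1⟩)⟩
  · rw [h'] at hN
    subst hN
    obtain ⟨y, hy⟩ := hT.third hc (hW hv) ha hb hab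
    obtain rfl : x = y := by
      have := hy.1 ▸ hx
      simpa only [mem_insert, mem_singleton, hxa, hxb, false_or] using this
    obtain ⟨h1, h2⟩ := vtx_pc (hT.vtx hc (hW hv)).2.1 hy
    refine ⟨_, _, _, 0, -G.kap (fun _ => 0) {v} x, neg_ne_zero.2 (red_kap_ne hx), h1, ?_,
      h2.imp fun ψ R _ r => ⟨R, ?_, fun _ _ r => r⟩,
      Or.inl ⟨fun B y => disjoint_singleton_right.2 (h B y), fun ρ y => (notMem_empty ρ y).elim, rfl⟩⟩
    · simp [insert_subset_iff, fr, ha, hb]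
    · rwa [neg_mul]

theorem RPn_z3 : ∀ u k x : ZMod 3, u ≠ 0 → k ≠ 0 → x ≠ 0 → u * (k * x) ≠ u * (k * -x) := by
  decide

/-- A path of nodes whose boxes are four-cycles entered diagonally, with a chord `f` at a box.
HINT: `trk_of_pth`; pass every node completely: a vertex by `vtx_pc`, a box by `q_pc`, where the
box `w i` touches its fourth edge (not `f`; use `Q4.swap2`) and `w j`, if it is a box, touches
`f`.  `run_open` with `Z = ∅`, `L = ∅`; `Pa.imp` with `Rl.ch_pc`; only the term `j` of the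
constant depends on the value of `f`; `Pa.free`, `Rl.U.gd`; `bs_run`. -/
theorem rpn_chord (hc : G.Cub) (hT : G.HT T) (hW : W ⊆ T) (ha : a ∈ G.cut W) (hb : b ∈ G.cut W)
    (hab : a ≠ b) (hB : G.Bx G.AU W {a, b} Bs) (hp : (G.quo W Bs).Pth (G.quo W Bs).A n w g)
    (h0 : w 0 = nd Bs (G.ie W a)) (hn : w n = nd Bs (G.ie W b))
    (hQ : ∀ j ≤ n, w j ∈ Bs → G.Qd (w j) (es a b n g j) (es a b n g (j + 1))) {i j : ℕ}
    (hi : i ≤ n) (hj : j ≤ n) (hij : i ≠ j) (hw : w i ∈ Bs) {f : E} (h1 : f ∈ G.cut (w i))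
    (h2 : f ∈ G.cut (w j)) (h3 : f ∉ pe n g) :
    ∃ O K, G.Pas0 (bu n w) O a b ∅ K Rl.Gd ∧ G.BS W Bs ∅ (bu n w) K := by
  have hBW : ∀ B ∈ Bs, B ⊆ W := fun B h => (hB.1 B h).2.1
  obtain ⟨ht, he0, he1, -⟩ := trk_of_pth hB.2.1 hBW hp ha hb hab h0 hn
  have hN := quo_pth_node hp (ie_mem (cut_sub_tch ha)) h0
  have hd := ht.2.1
  have fW := (Run_two (hd i hi j hj hij) (ht.1 i hi) (ht.1 j hj) (cut_sub_tch h1)
    (cut_sub_tch h2)).1
  have fe : ∀ k, f ≠ es a b n g k := fun k => by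
    unfold es
    split_ifs with r1 r2
    · exact fun r => not_ins_of_cut ha (r ▸ fW)
    · exact fun r => h3 (mem_pe.2 ⟨k - 1, by omega, r.symm⟩)
    · exact fun r => not_ins_of_cut hb (r ▸ fW)
  have hx : ∀ k, ∃ x, k ≤ n → x ∈ G.cut (w k) ∧ x ≠ es a b n g k ∧ x ≠ es a b n g (k + 1) ∧
      (x = f ↔ k = j) := fun k => by
    by_cases hk : k ≤ n
    swap
    · exact ⟨f, fun r => (hk r).elim⟩
    by_cases r : k = j
    · exact ⟨f, fun _ => ⟨r ▸ h2, fe _, fe _, by simp [r]⟩⟩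
    by_cases r' : k = i
    · subst r'
      obtain ⟨x, x1, x2⟩ := exists_mem_notMem_of_card_lt_card
        (s := {es a b n g k, es a b n g (k + 1), f}) (t := G.cut (w k))
        (card_le_three.trans_lt (by rw [(hB.1 _ hw).1.1]; omega))
      simp only [mem_insert, mem_singleton, not_or] at x2
      exact ⟨x, fun _ => ⟨x1, x2.1, x2.2.1, by simp [r, x2.2.2]⟩⟩
    · obtain ⟨x, x1, x2⟩ := exists_mem_notMem_of_card_lt_card
        (s := {es a b n g k, es a b n g (k + 1)}) (t := G.cut (w k))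
        (card_le_two.trans_lt (hT.mono3 ((ht.1 k hk).trans hW)
          ⟨_, ie_mem (cut_sub_tch (ht.2.2 k hk).1)⟩))
      simp only [mem_insert, mem_singleton, not_or] at x2
      have : x ≠ f := fun y => Run_three (hd i hi j hj hij) (hd i hi k hk (Ne.symm r'))
        (hd j hj k hk (Ne.symm r)) (cut_sub_tch h1) (cut_sub_tch h2) (cut_sub_tch (y ▸ x1))
      exact ⟨x, fun _ => ⟨x1, x2.1, x2.2, by simp [r, this]⟩⟩
  choose x hx using hx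
  have hnode : ∀ k, ∃ (O Fr : Finset E) (K : Set (Finset E)) (σ : ZMod 2) (κ : ZMod 3), k ≤ n →
      κ ≠ 0 ∧ G.St (w k) O {es a b n g k, es a b n g (k + 1)} ∧
      Fr ⊆ G.fr (w k) {es a b n g k, es a b n g (k + 1)} ∧
      (G.Pa (w k) O Fr K (es a b n g k) (es a b n g (k + 1)) fun ψ R => R.PC σ (κ * ψ (x k))) ∧
      G.NP W Bs ∅ (w k) (es a b n g k) (es a b n g (k + 1)) (w k) K := fun k => by
    by_cases hk : k ≤ n
    · obtain ⟨v, hv, h⟩ := hN k hk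
      obtain ⟨t1, t2, t3⟩ := ht.2.2 k hk
      obtain ⟨x1, x2, x3, -⟩ := hx k hk
      obtain ⟨O, Fr, K, σ, κ, r⟩ := RPn_node hc hT hW hB hv h t1 t2 t3 (hQ k hk) x1 x2 x3
      exact ⟨O, Fr, K, σ, κ, fun _ => r⟩
    · exact ⟨∅, ∅, ∅, 0, 0, fun r => (hk r).elim⟩
  choose O Fr K σ κ H using hnode
  obtain ⟨s1, s2, -, s3⟩ := run_open (X := w) (O := O) (Fr := Fr) (K := K) (e := es a b n g)
    (Z := fun _ => ∅) (L := ∅) (C := fun k ψ R => R.PC (σ k) (κ k * ψ (x k))) ht.1 hd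
    (empty_subset _) (fun k hk => (H k hk).2.1) (fun k hk => (ht.2.2 k hk).2.2) (by simp)
    (fun k hk => (H k hk).2.2.1) (fun k hk => (H k hk).2.2.2.1) (he0.symm ▸ ha) (he1.symm ▸ hb)
  have s4 := Run_fr (X := w) (O := O) (Fr := Fr) (e := es a b n g) (Z := fun _ => ∅) (L := ∅) hd
    (fun k hk => (H k hk).2.1) (fun k hk => (H k hk).2.2.1)
    (L' := insert (es a b n g 0) (insert (es a b n g (n + 1)) ∅)) (empty_subset _)
    (fun _ => mem_insert_self _ _) fun _ => mem_insert_of_mem (mem_insert_self _ _)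
  rw [Run_bu_empty] at s1
  rw [he0, he1] at s1 s3 s4
  have s5 := (s3.imp (C' := fun ψ R => R.PC (Rl.sg σ (fun k => G.n (es a b n g k)) n)
      (∑ k ∈ range (n + 1), chi (∑ l ∈ range k, (σ l + G.n (es a b n g (l + 1)))) *
        (κ k * ψ (x k)))) fun ψ R _ ⟨Rs, r1, r2⟩ => ⟨R, r2 ▸ Rl.ch_pc r1, fun _ _ r => r⟩).free
    (g := f) s4 fr_sub_tch
    (mem_union_left _ (Run_two (hd i hi j hj hij) (Run_sub hi) (Run_sub hj) (cut_sub_tch h1)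
      (cut_sub_tch h2)).1) (fun r => by
      obtain ⟨k, hk, r⟩ := Run_mem_bu.1 r
      rcases mem_union.1 ((H k hk).2.2.1 r) with r | r
      · by_cases r' : k = i
        · exact not_ins_of_cut h1 (r' ▸ r)
        · exact (Run_two (hd k hk i hi r') (ht.1 k hk) (ht.1 i hi) (ins_sub_tch r)
            (cut_sub_tch h1)).2 r
      · simpa [fe] using (mem_inter.1 r).2) (fun r => by
      have := mem_inter.2 ⟨(s2 i hi f (cut_sub_tch h1)).1 r, h1⟩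
      rw [(H i hi).2.1.2.2] at this
      simp [fe] at this) fun ψ ψ' r1 r2 r3 r => by
      have hj' : j ∈ range (n + 1) := mem_range.2 (Nat.lt_succ_of_le hj)
      have xj : x j = f := (hx j hj).2.2.2.2 rfl
      rw [← add_sum_erase _ _ hj', ← add_sum_erase _ _ hj', xj, r3] at r
      refine RPn_z3 _ _ _ (Sol_chi_ne _) (H j hj).1 r2
        (add_right_cancel (r.trans (congrArg _ (sum_congr rfl fun k hk => ?_))))
      rw [r1 (x k) fun y => (mem_erase.1 hk).1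
        ((hx k (Nat.lt_succ_iff.1 (mem_range.1 (mem_erase.1 hk).2))).2.2.2.1 y)]
  have hD : G.VD W {a, b} ∅ := vd_empty
  obtain ⟨hpd, hbd⟩ := hB.pd hD
  have hS := bs_run (G := G) (Xs := w) (Ks := K) hpd hbd (fun ρ h => (notMem_empty ρ h).elim)
    (fun _ => True) hd (fun k hk _ => ⟨subset_rfl, (H k hk).2.2.2.2⟩)
    (fun _ _ h => (h trivial).elim) hBW
  rw [inter_eq_left.2 (KTrk_bu ht.1)] at hS
  exact ⟨_, _, ⟨hab, s1, s5.imp fun ψ R _ r => ⟨R, r.gd, fun _ _ r => r⟩⟩, hS⟩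

theorem RPn_dead (hq : G.Q4 S a b c d) {O L : Finset E} {K : Set (Finset E)} {C : Rl → Prop}
    (h : G.Pas0 X O a b L K C) (hX : X ⊆ S) (h' : G.ie S c ∈ X ∨ G.ie S d ∈ X) :
    ∃ d0, ∀ e ∈ G.cut S, e ∈ G.tch (S \ X) → e = d0 := by
  have k : ∀ e ∈ G.cut S, e ∈ G.cut X → G.ie S e ∈ X := fun e h1 h2 =>
    (cut_of_sub hX h1 (cut_sub_tch h2)).2 ▸ ie_mem (cut_sub_tch h2)
  have ha := k a hq.mem.1 h.cut.1
  have hb := k b hq.mem.2.1 h.cut.2.1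
  exact h'.elim (fun r => ⟨d, hq.dead ha hb r⟩) fun r => ⟨c, hq.swap2.dead ha hb r⟩

/-- HINT: boxes for `J = {a, b}`.  No box: `unit`, `pure_u` or `pure_v`, `Rl.U.gd`,
`HT.abs_free`, `fin_free`, `Q4.dead`.  Boxes: `ng`.  First case: `trk_open` with the good pass of
the box at `j` (`RP`, third clause of `NP`), `Rl.ch_gd`, `Ncl.tt`.  Second case: `rpn_chord`.
Then `fin_open`. -/
theorem rpn (hc : G.Cub) (hT : G.HT T) (hS : S ⊆ T) (hK : G.KB T)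
    (hI : ∀ B ⊂ S, G.US B → G.RP B) : G.RPN S := by
  intro hu a b c d hq hN hd
  have h2 : 2 < S.card := lt_of_lt_of_le (by omega) (hT.us_card hc hS hu)
  obtain ⟨ha, hb, hc', -⟩ := hq.mem
  have hab := hq.2.1
  obtain ⟨Bs, hB⟩ := hT.boxes hc hS (J := {a, b}) card_le_two
  rcases Bs.eq_empty_or_nonempty with rfl | hne
  · obtain ⟨U, P, p, hU, hP, hp, ht, hg⟩ := unit hc hT hS hu hq hN hd
    obtain ⟨a1, a2⟩ := (Node_in hU ha).1 hP.2.2.2.1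
    obtain ⟨b1, b2⟩ := (Node_in hU hb).1 hP.2.2.2.2
    have hP' : G.Pp U P (G.ie U a) (G.ie U b) := by rwa [a2, b2]
    obtain ⟨X, O, h1, h3, h4⟩ : ∃ X O, X ⊆ S ∧ U ⊆ X ∧ G.Pas0 X O a b ∅ ∅ Rl.Gd := by
      rcases hg with ⟨f, f1, f2⟩ | ⟨u, u1, u2, u3⟩
      · exact ⟨U, _, hU, subset_rfl,
          (pure_u hP' a1 b1 hab hp (Or.inl ⟨f1, f2⟩)).imp fun R r => r.gd⟩
      · obtain ⟨v1, v2⟩ := mem_sdiff.1 u1
        obtain ⟨w1, w2, -⟩ := hT.vtx hc (hS v1)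
        have k : ∀ e ∈ G.cut S, G.ie S e ∈ U → e ∉ G.cut {u} := fun e r1 r2 r3 =>
          (Node_in (singleton_subset_iff.2 v1) r1).2
            (fun r => v2 (mem_singleton.1 r ▸ r2)) (cut_sub_tch r3)
        exact ⟨insert u U, _, insert_subset v1 hU, subset_insert _ _,
          (pure_v hP' a1 b1 hab hp v2 w1 w2 u2 (k a ha hP.2.2.2.1) (k b hb hP.2.2.2.2) u3).imp
            fun R r => r.gd⟩
    obtain ⟨d0, h5⟩ := RPn_dead hq h4 h1 (ht.imp (fun r => h3 r) fun r => h3 r)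
    obtain ⟨O', h6⟩ := hT.abs_free (W := S \ X) (sdiff_subset.trans hS)
    exact ⟨_, (fin_free ha hb hB h4 h1 h6 d0 h5).1⟩
  obtain ⟨n, w, g, hp, h0, hn, ht, hg⟩ := ng hc hT hS hq h2 hN hB hne
  have hBS : ∀ B ∈ Bs, B ⊆ S := fun B h => (hB.1 B h).2.1
  obtain ⟨X, O, K, h1, h3, h4⟩ : ∃ X O K, G.Pas0 X O a b ∅ K Rl.Gd ∧
      (∀ i ≤ n, w i ∉ Bs → w i ⊆ X) ∧ G.BS S Bs ∅ X K := by
    rcases hg with ⟨j, hj, hw, hQ⟩ | ⟨hQ, i, hi, j, hj, hij, hw, f, f1, f2, f3⟩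
    · obtain ⟨t1, t2, t3⟩ := (trk_of_pth hB.2.1 hBS hp ha hb hab h0 hn).1.2.2 j hj
      have uj : G.US (w j) := (hB.1 _ hw).1
      obtain ⟨c', d', hq'⟩ := exists_q4 uj.1 t1 t2 t3
      obtain ⟨X, O, r1, r2⟩ := hI (w j) (hB.ssub hw hc' (by
        simp [hq.2.2.1.symm, hq.2.2.2.2.1.symm])) uj _ _ c' d' hq' hQ
      exact trk_open hc hT hS ha hb hab hB
        (fun B h => (hK B ((hBS B h).trans hS)).2.2.2.2.2.2.2 (hB.1 B h).1) hp h0 hn (fun _ => 0)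
        (j := j) (fun _ => ⟨r1.sub, Or.inr (Or.inr ⟨hw, c', d', hq', r1, subset_rfl⟩), r2⟩)
        fun Rs r3 r4 => Rl.ch_gd hj
          (fun k hk r => ⟨_, (r3 k hk r).tt.2 (notMem_empty _)⟩) (r4 hj)
    · obtain ⟨O, K, r1, r2⟩ := rpn_chord hc hT hS ha hb hab hB hp h0 hn hQ hi hj hij hw f1 f2 f3
      exact ⟨_, O, K, r1, fun k hk _ => Run_sub hk, r2⟩
  have k : ∀ v : V, {v} ∈ pv n w → v ∈ X := fun v r => by
    obtain ⟨i, hi, r⟩ := mem_pv.1 r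
    refine singleton_subset_iff.1 (r ▸ h3 i hi fun y => ?_)
    have := hT.us_card hc ((hBS _ y).trans hS) (hB.1 _ y).1
    rw [r, card_singleton] at this
    omega
  obtain ⟨d0, h5⟩ := RPn_dead hq h1 h4.1 (ht.imp (k _) (k _))
  exact fin_open hc hT hS ha hb hB h1 h4 (hK _ (sdiff_subset.trans hS)).2.2.2.2.2.2.1 d0 h5

end SG

end Pool.Agent.Work.MP_8c679b_co
end
end

-- merged part: Pool.Agent.Work.MP_8c679b_co.Key.PQ
section
-- merged part: Pool.Agent.Work.MP_8c679b_co.Key.PQ1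
section
/-!
Calculus of double passes.

Hints.  Every lemma is the four-edge copy of a lemma of `Six/Ab.lean` or `Six/Fin.lean`; copy the
proofs.  `cov, imp, monoL, swap`: as `PasG.cov, PasG.imp, PasG.monoL, PasG.symm`.
`dq_par`: as `Pa.comp` without a link (both passes start from the same `ψ`; glue the two solutions,
`St.union`, `out_union`).  `dq_seq`: take for `R` the relation of all realised quadruples; solve `X1`
first, then `X2` with the result as given values (as `Ab.seqP`).  `Abs0.seqQ`: as `Abs0.seqG`.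
`Dq.seqA`: the relation is that of the first pass; complete every solution by the absorption of
`X2`.  `Dq.comp`, `Dq.close`: as `Pa.comp`, `Pa.close` with two links (`out_link`).  `finq`: as
`fing`.  `flip_u`: solve `X1` (all leaving edges free) by `φ1` and by `-φ1` (`Sl.neg`); the two
constants differ, `Rl.u_of_pc`.
-/

set_option autoImplicit false
set_option linter.unusedSectionVars false

namespace Pool.Agent.Work.MP_8c679b_co

open Finset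

namespace SG

variable {V E : Type} [Fintype V] [DecidableEq V] [DecidableEq E] {G : SG V E}
  {X X1 X2 W : Finset V} {O O' O1 O2 L L' L1 L2 : Finset E} {K K' K1 K2 : Set (Finset E)}
  {a b c d r s : E} {C C' C1 C2 : Rf → Prop} {l t ε : ZMod 2}

theorem Dq.cov (h : G.Dq X O L K' a b c d C) (hK : G.Cvr X O K' K) : G.Dq X O L K a b c d C := by
  refine ⟨h.1, h.2.1, h.2.2.1, fun ψ h1 => ?_⟩
  obtain ⟨R, h2, h3⟩ := h.2.2.2 ψ h1
  refine ⟨R, h2, fun x y u w k => ?_⟩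
  obtain ⟨φ, h4, h5⟩ := h3 x y u w k
  exact ⟨φ, ⟨h4.1, h4.2.cov hK⟩, h5⟩

theorem Dq.imp (h : G.Dq X O L K a b c d C) (hC : ∀ R, C R → C' R) :
    G.Dq X O L K a b c d C' := by
  exact ⟨h.1, h.2.1, h.2.2.1, fun ψ h1 => (h.2.2.2 ψ h1).imp fun R k => ⟨hC R k.1, k.2⟩⟩

theorem Dq.monoL (h : G.Dq X O L K a b c d C) (hL : ∀ e ∈ G.cut X, e ∈ L → e ∈ L') :
    G.Dq X O L' K a b c d C := by
  refine ⟨h.1, h.2.1, fr_sub_tch, fun ψ h3 => ?_⟩
  obtain ⟨R, h4, h5⟩ := h.2.2.2 _ (Ab_over h3 (χ := fun _ => 1) fun _ => one_ne_zero)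
  refine ⟨R, h4, fun x y u w k => ?_⟩
  obtain ⟨φ, h6, h7⟩ := h5 x y u w k
  refine ⟨φ, Ab_re h6 fun e he => ?_, h7⟩
  simp only [fr, mem_union, mem_inter] at he ⊢
  exact he.imp_right fun k => ⟨k.1, k.2.imp_right (hL e k.1)⟩

theorem Dq.cut (h : G.Dq X O L K a b c d C) :
    a ∈ G.cut X ∧ b ∈ G.cut X ∧ c ∈ G.cut X ∧ d ∈ G.cut X ∧
      ∀ e ∈ G.cut X, e ∈ O ↔ (e = a ∨ e = b ∨ e = c ∨ e = d) := by
  have k : ∀ e, e ∈ O ∧ e ∈ G.cut X ↔ (e = a ∨ e = b ∨ e = c ∨ e = d) := fun e => by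
    rw [← mem_inter, h.2.1.2.2]
    simp
  exact ⟨((k a).2 (by simp)).2, ((k b).2 (by simp)).2, ((k c).2 (by simp)).2,
    ((k d).2 (by simp)).2, fun e he => (and_iff_left he).symm.trans (k e)⟩

theorem Dq.swap1 (h : G.Dq X O L K a b c d C) (hC : ∀ R, C R → C' fun x y u w => R y x u w) :
    G.Dq X O L K b a c d C' := by
  obtain ⟨⟨h1, h2, h3, h4, h5, h6⟩, k1, k2, k3⟩ := h
  have e : ({b, a, c, d} : Finset E) = {a, b, c, d} := insert_comm _ _ _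
  refine ⟨⟨h1.symm, h4, h5, h2, h3, h6⟩, e ▸ k1, e ▸ k2, fun ψ k => ?_⟩
  rw [e] at k ⊢
  obtain ⟨R, r1, r2⟩ := k3 ψ k
  refine ⟨_, hC R r1, fun x y u w r => ?_⟩
  obtain ⟨φ, f1, f2, f3, f4⟩ := r2 _ _ _ _ r
  exact ⟨φ, f1, f3, f2, f4⟩

theorem Dq.swap2 (h : G.Dq X O L K a b c d C) (hC : ∀ R, C R → C' fun x y u w => R x y w u) :
    G.Dq X O L K a b d c C' := by
  obtain ⟨⟨h1, h2, h3, h4, h5, h6⟩, k1, k2, k3⟩ := h
  have e : ({a, b, d, c} : Finset E) = {a, b, c, d} := by rw [pair_comm]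
  refine ⟨⟨h1, h3, h2, h5, h4, h6.symm⟩, e ▸ k1, e ▸ k2, fun ψ k => ?_⟩
  rw [e] at k ⊢
  obtain ⟨R, r1, r2⟩ := k3 ψ k
  refine ⟨_, hC R r1, fun x y u w r => ?_⟩
  obtain ⟨φ, f1, f2, f3, f4, f5⟩ := r2 _ _ _ _ r
  exact ⟨φ, f1, f2, f3, f5, f4⟩

theorem Dq.flip (h : G.Dq X O L K a b c d C) (hC : ∀ R, C R → C' fun x y u w => R u w x y) :
    G.Dq X O L K c d a b C' := by
  obtain ⟨⟨h1, h2, h3, h4, h5, h6⟩, k1, k2, k3⟩ := h
  have e : ({c, d, a, b} : Finset E) = {a, b, c, d} := by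
    ext e
    simp only [mem_insert, mem_singleton]
    (clear * -; tauto)
  refine ⟨⟨h6, h2.symm, h4.symm, h3.symm, h5.symm, h1⟩, e ▸ k1, e ▸ k2, fun ψ k => ?_⟩
  rw [e] at k ⊢
  obtain ⟨R, r1, r2⟩ := k3 ψ k
  refine ⟨_, hC R r1, fun x y u w r => ?_⟩
  obtain ⟨φ, f1, f2, f3, f4, f5⟩ := r2 _ _ _ _ r
  exact ⟨φ, f1, f4, f5, f2, f3⟩

theorem Wk.swap1 (h : G.Wk X a b c d l t ε K) : G.Wk X b a c d l t ε K := by
  exact h.imp fun _ k => ⟨k.1, k.2.swap1 fun _ => Rf.L2.swap1⟩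

theorem Wk.swap2 (h : G.Wk X a b c d l t ε K) : G.Wk X a b d c l t ε K := by
  exact h.imp fun _ k => ⟨k.1, k.2.swap2 fun _ => Rf.L2.swap2⟩

theorem Wk.flip (h : G.Wk X a b c d l t ε K) : G.Wk X c d a b t l ε K := by
  exact h.imp fun _ k => ⟨k.1, k.2.flip fun _ => Rf.L2.flip⟩

theorem Wk.sub (h : G.Wk X a b c d l t ε K') (hK : ∀ u ∈ K, ∃ u' ∈ K', u' ⊆ u) :
    G.Wk X a b c d l t ε K := by
  exact h.imp fun _ k => ⟨k.1, k.2.cov fun u hu => Or.inl (hK u hu)⟩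

theorem DP.swap1 (h : G.DP X a b c d) : G.DP X b a c d := by
  exact fun l => (h l).imp fun _ k => k.imp fun _ k => ⟨k.1, k.2.swap1⟩

theorem DP.swap2 (h : G.DP X a b c d) : G.DP X a b d c := by
  exact fun l => (h l).imp fun _ k => k.imp fun _ k => ⟨k.1, k.2.swap2⟩

end SG

end Pool.Agent.Work.MP_8c679b_co
end

-- merged part: Pool.Agent.Work.MP_8c679b_co.Key.PQ2
section
/-!
Calculus of double passes.

Hints.  Every lemma is the four-edge copy of a lemma of `Six/Ab.lean` or `Six/Fin.lean`; copy the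
proofs.  `cov, imp, monoL, swap`: as `PasG.cov, PasG.imp, PasG.monoL, PasG.symm`.
`dq_par`: as `Pa.comp` without a link (both passes start from the same `ψ`; glue the two solutions,
`St.union`, `out_union`).  `dq_seq`: take for `R` the relation of all realised quadruples; solve `X1`
first, then `X2` with the result as given values (as `Ab.seqP`).  `Abs0.seqQ`: as `Abs0.seqG`.
`Dq.seqA`: the relation is that of the first pass; complete every solution by the absorption of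
`X2`.  `Dq.comp`, `Dq.close`: as `Pa.comp`, `Pa.close` with two links (`out_link`).  `finq`: as
`fing`.  `flip_u`: solve `X1` (all leaving edges free) by `φ1` and by `-φ1` (`Sl.neg`); the two
constants differ, `Rl.u_of_pc`.
-/

set_option autoImplicit false

namespace Pool.Agent.Work.MP_8c679b_co

open Finset

namespace SG

variable {V E : Type} [Fintype V] [DecidableEq V] [DecidableEq E] {G : SG V E}
  {X X1 X2 W : Finset V} {O O' O1 O2 L L' L1 L2 : Finset E} {K K' K1 K2 : Set (Finset E)}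
  {a b c d r s : E} {C C' C1 C2 : Rf → Prop} {l t ε : ZMod 2}

omit [Fintype V] in
theorem PQ2_fr {e : E} : e ∈ G.fr X L ↔ e ∈ G.ins X ∨ (e ∈ G.cut X ∧ e ∈ L) := by
  simp [fr]

theorem PQ2_disj (hd : Disjoint X1 X2) (hF : ∀ e ∈ L2, e ∈ G.cut X2 → e ∉ G.tch X1) :
    Disjoint (G.fr X2 L2) (G.tch X1) := by
  rw [disjoint_left]
  intro e he h1
  rcases PQ2_fr.1 he with h | h
  · exact not_ins_of_cut (Ab_link hd h1 (ins_sub_tch h)).2 h
  · exact hF e h.2 h.1 h1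

theorem PQ2_sub (hd : Disjoint X1 X2)
    (hL1 : ∀ e ∈ L1, e ∈ G.cut X1 → e ∈ G.tch X2 ∨ e ∈ L) (hL2 : ∀ e ∈ L2, e ∈ G.cut X2 → e ∈ L) :
    G.fr X1 L1 ∪ G.fr X2 L2 ⊆ G.fr (X1 ∪ X2) L := by
  intro e he
  have k1 : G.s e ∈ X1 → G.s e ∉ X2 := fun h => disjoint_left.1 hd h
  have k2 : G.t e ∈ X1 → G.t e ∉ X2 := fun h => disjoint_left.1 hd h
  have h1 := hL1 e
  have h2 := hL2 e
  simp only [mem_union, PQ2_fr, mem_ins, mem_cut, mem_tch] at he h1 h2 ⊢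
  grind

/-- solving two regions one after the other -/
theorem PQ2_core {J1 J2 : Finset E} (h1 : G.St X1 O1 J1) (h2 : G.St X2 O2 J2)
    (hd : Disjoint X1 X2) (j1 : ∀ e ∈ J1, e ∉ G.tch X2) (j2 : ∀ e ∈ J2, e ∉ G.tch X1)
    (hL1 : ∀ e ∈ L1, e ∈ G.cut X1 → e ∈ G.tch X2 ∨ e ∈ L)
    (hL2 : ∀ e ∈ L2, e ∈ G.cut X2 → e ∉ G.tch X1 ∧ e ∈ L) :
    G.St (X1 ∪ X2) (O1 ∪ O2) (J1 ∪ J2) ∧
      G.par ((O1 ∪ O2) ∩ G.ins (X1 ∪ X2)) = G.par (O1 ∩ G.ins X1) + G.par (O2 ∩ G.ins X2) ∧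
      ∀ ψ, G.Pre (X1 ∪ X2) (O1 ∪ O2) (G.fr (X1 ∪ X2) L) ψ → ∃ ψ', G.Pre X1 O1 (G.fr X1 L1) ψ' ∧
        G.Pre X2 O2 (G.fr X2 L2) ψ' ∧ ∀ φ, G.Re X1 O1 (G.fr X1 L1) K1 ψ' φ →
          G.Pre X2 O2 (G.fr X2 L2) φ ∧ ∀ χ, G.Re X2 O2 (G.fr X2 L2) K2 φ χ →
            G.Re (X1 ∪ X2) (O1 ∪ O2) (G.fr (X1 ∪ X2) L) (K1 ∪ K2) ψ χ ∧
              (∀ e ∈ G.cut X1, e ∉ G.tch X2 → G.out (X1 ∪ X2) χ e = G.out X1 φ e) ∧
              ∀ e ∈ G.cut X2, e ∉ G.tch X1 → G.out (X1 ∪ X2) χ e = G.out X2 χ e := by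
  obtain ⟨k1, k2, k3, k4⟩ := h1.union h2 hd
    fun e e1 e2 => ⟨fun k => absurd e2 (j1 e k), fun k => absurd e1 (j2 e k)⟩
  have j0 : J1 ∩ J2 = ∅ := eq_empty_of_forall_notMem fun e he => by
    have k := (mem_inter.1 he).2
    rw [← h2.2.2] at k
    exact j1 e (mem_inter.1 he).1 (cut_sub_tch (mem_inter.1 k).2)
  rw [j0, sdiff_empty] at k1
  rw [j0] at k4
  have hF := PQ2_disj hd fun e e1 e2 => (hL2 e e1 e2).1
  refine ⟨k1, by rw [k4]; simp [par], fun ψ h3 => ?_⟩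
  have h4 : ∀ {Fr : Finset E}, G.Pre (X1 ∪ X2) (O1 ∪ O2) Fr
      fun e => if e ∈ G.fr (X1 ∪ X2) L then 1 else ψ e :=
    Ab_over h3 (χ := fun _ => 1) fun _ => one_ne_zero
  refine ⟨fun e => if e ∈ G.fr (X1 ∪ X2) L then 1 else ψ e, fun e he _ h5 => ?_,
    fun e he _ h5 => ?_, fun φ h5 => ?_⟩
  · exact h4 (Fr := ∅) e (tch_mono subset_union_left he) (notMem_empty e) fun k => h5 ((k2 e he).1 k)
  · exact h4 (Fr := ∅) e (tch_mono subset_union_right he) (notMem_empty e)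
      fun k => h5 ((k3 e he).1 k)
  have h6 : G.Re X1 (O1 ∪ O2) (G.fr X1 L1) K1 _ φ := ⟨h5.1, h5.2.congr (fun _ _ => rfl) k2⟩
  refine ⟨fun e he h7 h8 => Ab_pre3 h4 fr_sub_tch h6 e he h7 fun k => h8 ((k3 e he).1 k),
    fun χ h7 => ⟨Ab_re (Ab_then h6 ⟨h7.1, h7.2.congr (fun _ _ => rfl) k3⟩ hF)
      (PQ2_sub hd hL1 fun e e1 e2 => (hL2 e e1 e2).2), fun e e1 e2 => ?_,
      fun e e1 e2 => out_union χ (mem_cut.1 e1).1 e2⟩⟩
  rw [union_comm, out_union χ (mem_cut.1 e1).1 e2, out, out,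
    h7.1 e fun k => e2 (fr_sub_tch k)]

omit [Fintype V] in
theorem PQ2_cut {J : Finset E} (h : G.St X O J) {e : E} (he : e ∈ J) : e ∈ G.cut X := by
  rw [← h.2.2] at he
  exact (mem_inter.1 he).2

/-- two independent passes -/
theorem dq_par {D1 D2 : Rl → Prop} (h1 : G.Pas0 X1 O1 a c L1 K1 D1)
    (h2 : G.Pas0 X2 O2 b d L2 K2 D2) (hd : Disjoint X1 X2) (ha : a ∉ G.tch X2)
    (hc : c ∉ G.tch X2) (hb : b ∉ G.tch X1) (hd' : d ∉ G.tch X1)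
    (hL1 : ∀ e ∈ L1, e ∈ G.cut X1 → e ∉ G.tch X2 ∧ e ∈ L)
    (hL2 : ∀ e ∈ L2, e ∈ G.cut X2 → e ∉ G.tch X1 ∧ e ∈ L)
    (hC : ∀ R1 R2, D1 R1 → D2 R2 → C fun x y u w => R1 x u ∧ R2 y w) :
    G.Dq (X1 ∪ X2) (O1 ∪ O2) L (K1 ∪ K2) a b c d C ∧
      G.par ((O1 ∪ O2) ∩ G.ins (X1 ∪ X2)) = G.par (O1 ∩ G.ins X1) + G.par (O2 ∩ G.ins X2) := by
  obtain ⟨a1, c1, -⟩ := h1.cut
  obtain ⟨b2, d2, -⟩ := h2.cut
  have f1 : ∀ e ∈ insert a (insert c L1), e ∈ G.cut X1 →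
      e ∉ G.tch X2 ∧ e ∈ ({a, b, c, d} ∪ L : Finset E) := by
    intro e he h
    simp only [mem_insert, mem_union, mem_singleton] at he ⊢
    rcases he with rfl | rfl | he
    exacts [⟨ha, by simp⟩, ⟨hc, by simp⟩, ⟨(hL1 e he h).1, Or.inr (hL1 e he h).2⟩]
  obtain ⟨k1, k2, k3⟩ := PQ2_core (L1 := insert a (insert c L1)) (L2 := insert b (insert d L2))
    (L := {a, b, c, d} ∪ L) (K1 := K1) (K2 := K2) h1.2.1 h2.2.1 hd (by simp [ha, hc])
    (by simp [hb, hd']) (fun e e1 e2 => Or.inr (f1 e e1 e2).2) (by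
      intro e he h
      simp only [mem_insert, mem_union, mem_singleton] at he ⊢
      rcases he with rfl | rfl | he
      exacts [⟨hb, by simp⟩, ⟨hd', by simp⟩, ⟨(hL2 e he h).1, Or.inr (hL2 e he h).2⟩])
  have e1 : ({a, c} ∪ {b, d} : Finset E) = {a, b, c, d} := by
    ext e
    simp only [mem_insert, mem_union, mem_singleton]
    (clear * -; tauto)
  rw [e1] at k1
  refine ⟨⟨⟨fun h => ha (h ▸ cut_sub_tch b2), h1.1, fun h => ha (h ▸ cut_sub_tch d2),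
    fun h => hc (h ▸ cut_sub_tch b2), h2.1, fun h => hc (h ▸ cut_sub_tch d2)⟩, k1, fr_sub_tch,
    fun ψ h3 => ?_⟩, k2⟩
  obtain ⟨ψ', p1, p2, p3⟩ := k3 ψ h3
  obtain ⟨R1, r1, r2⟩ := h1.2.2.2 ψ' p1
  obtain ⟨R2, s1, s2⟩ := h2.2.2.2 ψ' p2
  refine ⟨_, hC R1 R2 r1 s1, fun x y u w h => ?_⟩
  obtain ⟨φ, q1, q2, q3⟩ := r2 x u h.1
  obtain ⟨φ', q4, q5, q6⟩ := s2 y w h.2
  have hF := PQ2_disj hd.symm fun e e1 e2 => (f1 e e1 e2).1
  obtain ⟨q7, q8, q9⟩ := (p3 φ q1).2 (fun e => if e ∈ G.tch X2 then φ' e else φ e)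
    ⟨fun e he => by
      dsimp only
      split_ifs with k
      exacts [(q4.1 e he).trans (q1.1 e fun k' => disjoint_left.1 hF k' k).symm, rfl],
    q4.2.congr (fun e he => if_pos he) fun _ _ => Iff.rfl⟩
  refine ⟨_, q7, (q8 a a1 ha).trans q2, (q9 b b2 hb).trans ?_, (q8 c c1 hc).trans q3,
    (q9 d d2 hd').trans ?_⟩
  · rw [← q5]
    simp only [out, if_pos (cut_sub_tch b2)]
  · rw [← q6]
    simp only [out, if_pos (cut_sub_tch d2)]

/-- two passes one after the other: the live edges of the first may lead to the second -/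
theorem dq_seq (h1 : G.Pas0 X1 O1 a b L1 K1 (Rl.Mt l)) (h2 : G.Pas0 X2 O2 c d L2 K2 (Rl.Mt t))
    (hd : Disjoint X1 X2) (ha : a ∉ G.tch X2) (hb : b ∉ G.tch X2) (hc : c ∉ G.tch X1)
    (hd' : d ∉ G.tch X1) (hL1 : ∀ e ∈ L1, e ∈ G.cut X1 → e ∈ G.tch X2 ∨ e ∈ L)
    (hL2 : ∀ e ∈ L2, e ∈ G.cut X2 → e ∉ G.tch X1 ∧ e ∈ L) :
    G.Dq (X1 ∪ X2) (O1 ∪ O2) L (K1 ∪ K2) a b c d (Rf.L2 l t) ∧
      G.par ((O1 ∪ O2) ∩ G.ins (X1 ∪ X2)) = G.par (O1 ∩ G.ins X1) + G.par (O2 ∩ G.ins X2) := by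
  obtain ⟨a1, b1, -⟩ := h1.cut
  obtain ⟨c2, d2, -⟩ := h2.cut
  obtain ⟨k1, k2, k3⟩ := PQ2_core (L1 := insert a (insert b L1)) (L2 := insert c (insert d L2))
    (L := {a, b, c, d} ∪ L) (K1 := K1) (K2 := K2) h1.2.1 h2.2.1 hd (by simp [ha, hb])
    (by simp [hc, hd']) (by
      intro e he h
      simp only [mem_insert, mem_union, mem_singleton] at he ⊢
      rcases he with rfl | rfl | he
      exacts [by simp, by simp, (hL1 e he h).imp id Or.inr]) (by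
      intro e he h
      simp only [mem_insert, mem_union, mem_singleton] at he ⊢
      rcases he with rfl | rfl | he
      exacts [⟨hc, by simp⟩, ⟨hd', by simp⟩, ⟨(hL2 e he h).1, Or.inr (hL2 e he h).2⟩])
  have e1 : ({a, b} ∪ {c, d} : Finset E) = {a, b, c, d} := by
    ext e
    simp only [mem_insert, mem_union, mem_singleton]
    (clear * -; tauto)
  rw [e1] at k1
  refine ⟨⟨⟨h1.1, fun h => ha (h ▸ cut_sub_tch c2), fun h => ha (h ▸ cut_sub_tch d2),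
    fun h => hb (h ▸ cut_sub_tch c2), fun h => hb (h ▸ cut_sub_tch d2), h2.1⟩, k1, fr_sub_tch,
    fun ψ h3 => ⟨fun x y u w => ∃ φ, G.Re (X1 ∪ X2) (O1 ∪ O2) (G.fr (X1 ∪ X2) ({a, b, c, d} ∪ L))
      (K1 ∪ K2) ψ φ ∧ G.out (X1 ∪ X2) φ a = x ∧ G.out (X1 ∪ X2) φ b = y ∧
      G.out (X1 ∪ X2) φ c = u ∧ G.out (X1 ∪ X2) φ d = w, fun k k' => ?_,
      fun _ _ _ _ h => h⟩⟩, k2⟩
  obtain ⟨ψ', p1, -, p3⟩ := k3 ψ h3
  obtain ⟨R1, r1, r2⟩ := h1.2.2.2 ψ' p1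
  obtain ⟨x, y, r3, r4⟩ := r1 k
  obtain ⟨φ, q1, q2, q3⟩ := r2 x y r3
  obtain ⟨R2, s1, s2⟩ := h2.2.2.2 φ (p3 φ q1).1
  obtain ⟨u, w, s3, s4⟩ := s1 k'
  obtain ⟨χ, q4, q5, q6⟩ := s2 u w s3
  obtain ⟨q7, q8, q9⟩ := (p3 φ q1).2 χ q4
  exact ⟨x, y, u, w, ⟨χ, q7, (q8 a a1 ha).trans q2, (q8 b b1 hb).trans q3,
    (q9 c c2 hc).trans q5, (q9 d d2 hd').trans q6⟩, r4, s4⟩

/-- first an absorption, then a double pass -/
theorem Abs0.seqQ (h1 : G.Abs0 X1 O1 L1 K1) (h2 : G.Dq X2 O2 L2 K2 a b c d C)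
    (hd : Disjoint X1 X2) (hJ : ∀ e ∈ ({a, b, c, d} : Finset E), e ∉ G.tch X1)
    (hL1 : ∀ e ∈ L1, e ∈ G.cut X1 → e ∈ G.tch X2 ∨ e ∈ L)
    (hL2 : ∀ e ∈ L2, e ∈ G.cut X2 → e ∉ G.tch X1 ∧ e ∈ L) :
    G.Dq (X1 ∪ X2) (O1 ∪ O2) L (K1 ∪ K2) a b c d C ∧
      G.par ((O1 ∪ O2) ∩ G.ins (X1 ∪ X2)) = G.par O1 + G.par (O2 ∩ G.ins X2) := by
  obtain ⟨k1, k2, k3⟩ := PQ2_core (L1 := L1) (L2 := {a, b, c, d} ∪ L2) (L := {a, b, c, d} ∪ L)
    (K1 := K1) (K2 := K2) h1.1 h2.2.1 hd (by simp) hJ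
    (fun e e1 e2 => (hL1 e e1 e2).imp id (mem_union_right _)) fun e he h =>
      (mem_union.1 he).elim (fun k => ⟨hJ e k, mem_union_left _ k⟩)
        fun k => ⟨(hL2 e k h).1, mem_union_right _ (hL2 e k h).2⟩
  rw [empty_union] at k1
  rw [inter_eq_left.2 h1.1.sub_ins] at k2
  refine ⟨⟨h2.1, k1, fr_sub_tch, fun ψ h3 => ?_⟩, k2⟩
  obtain ⟨ψ', p1, -, p3⟩ := k3 ψ h3
  obtain ⟨φ, q1⟩ := h1.2.2 ψ' p1 trivial
  obtain ⟨R, r1, r2⟩ := h2.2.2.2 φ (p3 φ q1).1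
  refine ⟨R, r1, fun x y u w h => ?_⟩
  obtain ⟨χ, q2, q3, q4, q5, q6⟩ := r2 x y u w h
  obtain ⟨q7, -, q9⟩ := (p3 φ q1).2 χ q2
  have q8 : ∀ e ∈ ({a, b, c, d} : Finset E), G.out (X1 ∪ X2) χ e = G.out X2 χ e :=
    fun e he => q9 e (PQ2_cut h2.2.1 he) (hJ e he)
  exact ⟨χ, q7, (q8 a (by simp)).trans q3, (q8 b (by simp)).trans q4, (q8 c (by simp)).trans q5,
    (q8 d (by simp)).trans q6⟩

/-- first a double pass, then an absorption -/
theorem Dq.seqA (h1 : G.Dq X1 O1 L1 K1 a b c d C) (h2 : G.Abs0 X2 O2 L2 K2)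
    (hd : Disjoint X1 X2) (hJ : ∀ e ∈ ({a, b, c, d} : Finset E), e ∉ G.tch X2)
    (hL1 : ∀ e ∈ L1, e ∈ G.cut X1 → e ∈ G.tch X2 ∨ e ∈ L)
    (hL2 : ∀ e ∈ L2, e ∈ G.cut X2 → e ∉ G.tch X1 ∧ e ∈ L) :
    G.Dq (X1 ∪ X2) (O1 ∪ O2) L (K1 ∪ K2) a b c d C ∧
      G.par ((O1 ∪ O2) ∩ G.ins (X1 ∪ X2)) = G.par (O1 ∩ G.ins X1) + G.par O2 := by
  obtain ⟨k1, k2, k3⟩ := PQ2_core (L1 := {a, b, c, d} ∪ L1) (L2 := L2) (L := {a, b, c, d} ∪ L)
    (K1 := K1) (K2 := K2) h1.2.1 h2.1 hd hJ (by simp)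
    (fun e he h => (mem_union.1 he).elim (fun k => Or.inr (mem_union_left _ k))
      fun k => (hL1 e k h).imp id (mem_union_right _))
    fun e e1 e2 => ⟨(hL2 e e1 e2).1, mem_union_right _ (hL2 e e1 e2).2⟩
  rw [union_empty] at k1
  rw [inter_eq_left.2 h2.1.sub_ins] at k2
  refine ⟨⟨h1.1, k1, fr_sub_tch, fun ψ h3 => ?_⟩, k2⟩
  obtain ⟨ψ', p1, -, p3⟩ := k3 ψ h3
  obtain ⟨R, r1, r2⟩ := h1.2.2.2 ψ' p1
  refine ⟨R, r1, fun x y u w h => ?_⟩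
  obtain ⟨φ, q2, q3, q4, q5, q6⟩ := r2 x y u w h
  obtain ⟨χ, q1⟩ := h2.2.2 φ (p3 φ q2).1 trivial
  obtain ⟨q7, q9, -⟩ := (p3 φ q2).2 χ q1
  have q8 : ∀ e ∈ ({a, b, c, d} : Finset E), G.out (X1 ∪ X2) χ e = G.out X1 φ e :=
    fun e he => q9 e (PQ2_cut h1.2.1 he) (hJ e he)
  exact ⟨χ, q7, (q8 a (by simp)).trans q3, (q8 b (by simp)).trans q4, (q8 c (by simp)).trans q5,
    (q8 d (by simp)).trans q6⟩

/-- first a pass, then an absorption -/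
theorem Pas0.seqA {D : Rl → Prop} (h1 : G.Pas0 X1 O1 a b L1 K1 D) (h2 : G.Abs0 X2 O2 L2 K2)
    (hd : Disjoint X1 X2) (ha : a ∉ G.tch X2) (hb : b ∉ G.tch X2)
    (hL1 : ∀ e ∈ L1, e ∈ G.cut X1 → e ∈ G.tch X2 ∨ e ∈ L)
    (hL2 : ∀ e ∈ L2, e ∈ G.cut X2 → e ∉ G.tch X1 ∧ e ∈ L) :
    G.Pas0 (X1 ∪ X2) (O1 ∪ O2) a b L (K1 ∪ K2) D ∧
      G.par ((O1 ∪ O2) ∩ G.ins (X1 ∪ X2)) = G.par (O1 ∩ G.ins X1) + G.par O2 := by
  obtain ⟨a1, b1, -⟩ := h1.cut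
  obtain ⟨k1, k2, k3⟩ := PQ2_core (L1 := insert a (insert b L1)) (L2 := L2)
    (L := insert a (insert b L)) (K1 := K1) (K2 := K2) h1.2.1 h2.1 hd (by simp [ha, hb]) (by simp)
    (by
      intro e he h
      simp only [mem_insert] at he ⊢
      rcases he with rfl | rfl | he
      exacts [by simp, by simp, (hL1 e he h).imp id fun k => Or.inr (Or.inr k)])
    fun e e1 e2 => ⟨(hL2 e e1 e2).1, mem_insert_of_mem (mem_insert_of_mem (hL2 e e1 e2).2)⟩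
  rw [union_empty] at k1
  rw [inter_eq_left.2 h2.1.sub_ins] at k2
  refine ⟨⟨h1.1, k1, fr_sub_tch, fun ψ h3 => ?_⟩, k2⟩
  obtain ⟨ψ', p1, -, p3⟩ := k3 ψ h3
  obtain ⟨R, r1, r2⟩ := h1.2.2.2 ψ' p1
  refine ⟨R, r1, fun x y h => ?_⟩
  obtain ⟨φ, q2, q3, q4⟩ := r2 x y h
  obtain ⟨χ, q1⟩ := h2.2.2 φ (p3 φ q2).1 trivial
  obtain ⟨q7, q9, -⟩ := (p3 φ q2).2 χ q1
  exact ⟨χ, q7, (q9 a a1 ha).trans q3, (q9 b b1 hb).trans q4⟩

end SG

end Pool.Agent.Work.MP_8c679b_co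
end

-- merged part: Pool.Agent.Work.MP_8c679b_co.Key.PQ
section
/-!
Calculus of double passes.

Hints.  Every lemma is the four-edge copy of a lemma of `Six/Ab.lean` or `Six/Fin.lean`; copy the
proofs.  `cov, imp, monoL, swap`: as `PasG.cov, PasG.imp, PasG.monoL, PasG.symm`.
`dq_par`: as `Pa.comp` without a link (both passes start from the same `ψ`; glue the two solutions,
`St.union`, `out_union`).  `dq_seq`: take for `R` the relation of all realised quadruples; solve `X1`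
first, then `X2` with the result as given values (as `Ab.seqP`).  `Abs0.seqQ`: as `Abs0.seqG`.
`Dq.seqA`: the relation is that of the first pass; complete every solution by the absorption of
`X2`.  `Dq.comp`, `Dq.close`: as `Pa.comp`, `Pa.close` with two links (`out_link`).  `finq`: as
`fing`.  `flip_u`: solve `X1` (all leaving edges free) by `φ1` and by `-φ1` (`Sl.neg`); the two
constants differ, `Rl.u_of_pc`.
-/

set_option autoImplicit false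

namespace Pool.Agent.Work.MP_8c679b_co

open Finset

namespace SG

variable {V E : Type} [Fintype V] [DecidableEq V] [DecidableEq E] {G : SG V E}
  {X X1 X2 W : Finset V} {O O' O1 O2 L L' L1 L2 : Finset E} {K K' K1 K2 : Set (Finset E)}
  {a b c d r s : E} {C C' C1 C2 : Rf → Prop} {l t ε : ZMod 2}

theorem PQ_fr {e : E} : e ∈ G.fr X L ↔ e ∈ G.ins X ∨ (e ∈ G.cut X ∧ e ∈ L) := by
  simp [fr]

theorem PQ_ins {e : E} (hd : Disjoint X1 X2) (h : e ∈ G.ins X1) : e ∉ G.tch X2 := by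
  intro h1
  rw [mem_ins] at h
  rw [mem_tch] at h1
  rcases h1.2 with k | k
  · exact disjoint_left.1 hd h.2.1 k
  · exact disjoint_left.1 hd h.2.2 k

theorem PQ_sub (hd : Disjoint X1 X2)
    (hL1 : ∀ e ∈ L1, e ∈ G.cut X1 → e ∈ G.tch X2 ∨ e ∈ L)
    (hL2 : ∀ e ∈ L2, e ∈ G.cut X2 → e ∈ G.tch X1 ∨ e ∈ L) :
    G.fr X1 L1 ∪ G.fr X2 L2 ⊆ G.fr (X1 ∪ X2) L := by
  intro e he
  have k1 : G.s e ∈ X1 → G.s e ∉ X2 := fun h => disjoint_left.1 hd h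
  have k2 : G.t e ∈ X1 → G.t e ∉ X2 := fun h => disjoint_left.1 hd h
  have h1 := hL1 e
  have h2 := hL2 e
  simp only [mem_union, PQ_fr, mem_ins, mem_cut, mem_tch] at he h1 h2 ⊢
  grind

theorem PQ_out {e : E} (hX : X ⊆ W) (h1 : e ∈ G.cut W) (h2 : e ∈ G.cut X) :
    e ∉ G.tch (W \ X) := by
  have k1 := @hX (G.s e)
  have k2 := @hX (G.t e)
  simp only [mem_sdiff, mem_cut, mem_tch] at h1 h2 ⊢
  grind

theorem PQ_rest {e : E} (h : e ∈ G.cut (W \ X)) :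
    e ∈ G.tch X ∨ (e ∈ G.cut W ∧ e ∈ G.tch (W \ X)) := by
  simp only [mem_sdiff, mem_cut, mem_tch] at h ⊢
  grind

theorem PQ_congrO {Fr : Finset E} (h : G.Pq X O Fr K a b c d C)
    (hO : ∀ e ∈ G.tch X, e ∈ O' ↔ e ∈ O) : G.Pq X O' Fr K a b c d C := by
  refine ⟨h.1, fun ψ h1 => ?_⟩
  obtain ⟨R, h2, h3⟩ := h.2 ψ fun e he k1 k2 => h1 e he k1 fun k => k2 ((hO e he).1 k)
  refine ⟨R, h2, fun x y u w hxy => ?_⟩
  obtain ⟨φ, h4, h5⟩ := h3 x y u w hxy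
  exact ⟨φ, ⟨h4.1, h4.2.congr (fun _ _ => rfl) hO⟩, h5⟩

theorem PQ_mono {Fr Fr' : Finset E} (h : G.Pq X O Fr K a b c d C) (h1 : Fr ⊆ Fr')
    (h2 : Fr' ⊆ G.tch X) : G.Pq X O Fr' K a b c d C := by
  refine ⟨h2, fun ψ h3 => ?_⟩
  obtain ⟨R, h4, h5⟩ := h.2 _ (Ab_over h3 (χ := fun _ => 1) fun _ => one_ne_zero)
  refine ⟨R, h4, fun x y u w hxy => ?_⟩
  obtain ⟨φ, h6, h7⟩ := h5 x y u w hxy
  exact ⟨φ, Ab_re h6 h1, h7⟩

/-- gluing two solutions that agree on the links `r, s` -/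
theorem PQ_glue {Fr1 Fr2 : Finset E} {ψ φ1 φ2 : E → ZMod 3} (p1 : G.Re X1 O Fr1 K1 ψ φ1)
    (q1 : G.Re X2 O Fr2 K2 ψ φ2) (hd : Disjoint X1 X2) (r1 : r ∈ G.cut X1) (r2 : r ∈ G.cut X2)
    (s1 : s ∈ G.cut X1) (s2 : s ∈ G.cut X2)
    (f1 : ∀ e ∈ Fr1, e ∈ G.tch X2 → e = r ∨ e = s) (f2 : ∀ e ∈ Fr2, e ∈ G.tch X1 → e = r ∨ e = s)
    (hr : G.out X2 φ2 r = -(chi (G.n r)) * G.out X1 φ1 r)
    (hs : G.out X2 φ2 s = -(chi (G.n s)) * G.out X1 φ1 s) :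
    ∃ χ, G.Re (X1 ∪ X2) O (Fr1 ∪ Fr2) (K1 ∪ K2) ψ χ ∧
      (∀ e ∈ G.cut X1, e ∉ G.tch X2 → G.out (X1 ∪ X2) χ e = G.out X1 φ1 e) ∧
      ∀ e ∈ G.cut X2, e ∉ G.tch X1 → G.out (X1 ∪ X2) χ e = G.out X2 φ2 e := by
  have hm : φ1 r = φ2 r := out_inj r2 (by rw [out_link φ1 hd r1 r2, hr])
  have ha : φ1 s = φ2 s := out_inj s2 (by rw [out_link φ1 hd s1 s2, hs])
  obtain ⟨χ, t1, t2, t3⟩ := Ab_glue p1 q1 fun e e1 e2 => by
    by_cases k : e = r ∨ e = s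
    · rcases k with rfl | rfl <;> assumption
    · rw [p1.1 e fun k3 => k (f1 e k3 e2), q1.1 e fun k3 => k (f2 e k3 e1)]
  refine ⟨χ, t1, fun e e1 e2 => ?_, fun e e1 e2 => ?_⟩
  · rw [union_comm, out_union χ (mem_cut.1 e1).1 e2, out, out, t2 e (cut_sub_tch e1)]
  · rw [out_union χ (mem_cut.1 e1).1 e2, out, out, t3 e (cut_sub_tch e1)]

theorem PQ_par (h : r ≠ s) : G.par {r, s} = G.n r + G.n s := by
  unfold par
  rw [sum_pair h]

theorem PQ_z3 : ∀ κ x : ZMod 3, κ ≠ 0 → x ≠ 0 → κ * x ≠ κ * -x := by decide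

/-- two double passes joined by the links `r, s` -/
theorem Dq.comp (h1 : G.Dq X1 O1 ∅ K1 a b r s C1) (h2 : G.Dq X2 O2 ∅ K2 r s c d C2)
    (hd : Disjoint X1 X2) (ha : a ∉ G.tch X2) (hb : b ∉ G.tch X2) (hc : c ∉ G.tch X1)
    (hd' : d ∉ G.tch X1) (hC : ∀ R1 R2, C1 R1 → C2 R2 → C (Rf.cp (G.n r) (G.n s) R1 R2)) :
    G.Dq (X1 ∪ X2) (O1 ∪ O2) ∅ (K1 ∪ K2) a b c d C ∧
      G.par ((O1 ∪ O2) ∩ G.ins (X1 ∪ X2)) =
        G.par (O1 ∩ G.ins X1) + G.par (O2 ∩ G.ins X2) + (G.n r + G.n s) := by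
  obtain ⟨a1, b1, r1, s1, o1⟩ := h1.cut
  obtain ⟨r2, s2, c2, d2, o2⟩ := h2.cut
  obtain ⟨⟨ab, ar, as, br, bs, rs⟩, S1, P1⟩ := h1
  obtain ⟨⟨-, rc, rd, sc, sd, cd⟩, S2, P2⟩ := h2
  have ac : a ≠ c := fun k => hc (k ▸ cut_sub_tch a1)
  have ad : a ≠ d := fun k => hd' (k ▸ cut_sub_tch a1)
  have bc : b ≠ c := fun k => hc (k ▸ cut_sub_tch b1)
  have bd : b ≠ d := fun k => hd' (k ▸ cut_sub_tch b1)
  obtain ⟨k1, k2, k3, k4⟩ := S1.union S2 hd fun e e1 e2 => by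
    simp only [mem_insert, mem_singleton]
    grind
  have j1 : ({a, b, r, s} : Finset E) ∩ {r, s, c, d} = {r, s} := by
    ext e
    simp only [mem_insert, mem_singleton, mem_inter]
    (clear * - ac ad bc bd; grind)
  have j2 : (({a, b, r, s} : Finset E) ∪ {r, s, c, d}) \ {r, s} = {a, b, c, d} := by
    ext e
    simp only [mem_insert, mem_singleton, mem_union, mem_sdiff]
    (clear * - ar as br bs rc rd sc sd; grind)
  rw [j1] at k1 k4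
  rw [j2] at k1
  rw [PQ_par rs] at k4
  have rO : r ∈ O1 ∪ O2 := mem_union_left _ ((o1 r r1).2 (by simp))
  have sO : s ∈ O1 ∪ O2 := mem_union_left _ ((o1 s s1).2 (by simp))
  have f1 : ∀ e ∈ G.fr X1 ({a, b, r, s} ∪ ∅), e ∈ G.tch X2 → e = r ∨ e = s := by
    intro e he h3
    rcases PQ_fr.1 he with k | k
    · exact absurd h3 (PQ_ins hd k)
    · have k5 := k.2
      simp only [union_empty, mem_insert, mem_singleton] at k5
      (clear * - h3 ha hb k5; grind)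
  have f2 : ∀ e ∈ G.fr X2 ({r, s, c, d} ∪ ∅), e ∈ G.tch X1 → e = r ∨ e = s := by
    intro e he h3
    rcases PQ_fr.1 he with k | k
    · exact absurd h3 (PQ_ins hd.symm k)
    · have k5 := k.2
      simp only [union_empty, mem_insert, mem_singleton] at k5
      (clear * - h3 hc hd' k5; grind)
  have Q1 := PQ_congrO P1 k2
  have Q2 := PQ_congrO P2 k3
  refine ⟨⟨⟨ab, ac, ad, bc, bd, cd⟩, k1, PQ_mono (Fr := G.fr X1 ({a, b, r, s} ∪ ∅) ∪
    G.fr X2 ({r, s, c, d} ∪ ∅)) ⟨Ab_sub Q1.1 Q2.1, fun ψ h3 => ?_⟩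
    (PQ_sub hd (fun e he _ => ?_) fun e he _ => ?_) fr_sub_tch⟩, k4⟩
  · obtain ⟨R1, c1, t1⟩ := Q1.2 ψ (Ab_pre1 h3 fun e k5 k6 => by
      rcases f2 e k5 k6 with rfl | rfl <;> assumption)
    obtain ⟨R2, c3, t2⟩ := Q2.2 ψ (Ab_pre2 h3 fun e k5 k6 => by
      rcases f1 e k5 k6 with rfl | rfl <;> assumption)
    refine ⟨_, hC R1 R2 c1 c3, ?_⟩
    rintro x y u w ⟨z, z', k5, k6⟩
    obtain ⟨φ1, p1, p2, p3, p4, p5⟩ := t1 _ _ _ _ k5
    obtain ⟨φ2, q1, q2, q3, q4, q5⟩ := t2 _ _ _ _ k6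
    obtain ⟨χ, g1, g2, g3⟩ := PQ_glue p1 q1 hd r1 r2 s1 s2 f1 f2 (by rw [q2, p4]) (by rw [q3, p5])
    exact ⟨χ, g1, (g2 a a1 ha).trans p2, (g2 b b1 hb).trans p3, (g3 c c2 hc).trans q4,
      (g3 d d2 hd').trans q5⟩
  · have k5 := cut_sub_tch r2
    have k6 := cut_sub_tch s2
    simp only [union_empty, mem_insert, mem_singleton] at he ⊢
    (clear * - he k5 k6; grind)
  · have k5 := cut_sub_tch r1
    have k6 := cut_sub_tch s1
    simp only [union_empty, mem_insert, mem_singleton] at he ⊢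
    (clear * - he k5 k6; grind)

/-- a double pass closed by a pass -/
theorem Dq.close {D D' : Rl → Prop} (h1 : G.Dq X1 O1 L1 K1 a b r s C1)
    (h2 : G.Pas0 X2 O2 r s L2 K2 D) (hd : Disjoint X1 X2) (ha : a ∉ G.tch X2)
    (hb : b ∉ G.tch X2) (hL1 : ∀ e ∈ L1, e ∈ G.cut X1 → e ∉ G.tch X2 ∧ e ∈ L)
    (hL2 : ∀ e ∈ L2, e ∈ G.cut X2 → e ∉ G.tch X1 ∧ e ∈ L)
    (hC : ∀ R1 R2, C1 R1 → D R2 → D' (Rf.cl (G.n r) (G.n s) R1 R2)) :
    G.Pas0 (X1 ∪ X2) (O1 ∪ O2) a b L (K1 ∪ K2) D' ∧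
      G.par ((O1 ∪ O2) ∩ G.ins (X1 ∪ X2)) =
        G.par (O1 ∩ G.ins X1) + G.par (O2 ∩ G.ins X2) + (G.n r + G.n s) := by
  obtain ⟨a1, b1, r1, s1, o1⟩ := h1.cut
  obtain ⟨r2, s2, -, -, -⟩ := h2.cut
  obtain ⟨⟨ab, ar, as, br, bs, rs⟩, S1, P1⟩ := h1
  obtain ⟨-, S2, P2⟩ := h2
  obtain ⟨k1, k2, k3, k4⟩ := S1.union S2 hd fun e e1 e2 => by
    simp only [mem_insert, mem_singleton]
    grind
  have j1 : ({a, b, r, s} : Finset E) ∩ {r, s} = {r, s} := by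
    ext e
    simp only [mem_insert, mem_singleton, mem_inter]
    (clear * -; grind)
  have j2 : (({a, b, r, s} : Finset E) ∪ {r, s}) \ {r, s} = {a, b} := by
    ext e
    simp only [mem_insert, mem_singleton, mem_union, mem_sdiff]
    (clear * - ar as br bs; grind)
  rw [j1] at k1 k4
  rw [j2] at k1
  rw [PQ_par rs] at k4
  have rO : r ∈ O1 ∪ O2 := mem_union_left _ ((o1 r r1).2 (by simp))
  have sO : s ∈ O1 ∪ O2 := mem_union_left _ ((o1 s s1).2 (by simp))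
  have f1 : ∀ e ∈ G.fr X1 ({a, b, r, s} ∪ L1), e ∈ G.tch X2 → e = r ∨ e = s := by
    intro e he h3
    rcases PQ_fr.1 he with k | k
    · exact absurd h3 (PQ_ins hd k)
    · have k5 := k.2
      have k6 := fun k7 => (hL1 e k7 k.1).1
      simp only [mem_union, mem_insert, mem_singleton] at k5
      (clear * - h3 ha hb k5 k6; grind)
  have f2 : ∀ e ∈ G.fr X2 (insert r (insert s L2)), e ∈ G.tch X1 → e = r ∨ e = s := by
    intro e he h3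
    rcases PQ_fr.1 he with k | k
    · exact absurd h3 (PQ_ins hd.symm k)
    · have k5 := k.2
      have k6 := fun k7 => (hL2 e k7 k.1).1
      simp only [mem_insert] at k5
      grind
  have Q1 := PQ_congrO P1 k2
  have Q2 := P2.congrO k3
  refine ⟨⟨ab, k1, Pa.mono (Fr := G.fr X1 ({a, b, r, s} ∪ L1) ∪
    G.fr X2 (insert r (insert s L2))) ⟨Ab_sub Q1.1 Q2.1, fun ψ h3 => ?_⟩
    (PQ_sub hd (fun e he k => ?_) fun e he k => ?_) fr_sub_tch⟩, k4⟩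
  · obtain ⟨R1, c1, t1⟩ := Q1.2 ψ (Ab_pre1 h3 fun e k5 k6 => by
      rcases f2 e k5 k6 with rfl | rfl <;> assumption)
    obtain ⟨R2, c3, t2⟩ := Q2.2 ψ (Ab_pre2 h3 fun e k5 k6 => by
      rcases f1 e k5 k6 with rfl | rfl <;> assumption)
    refine ⟨_, hC R1 R2 c1 c3, ?_⟩
    rintro x y ⟨z, z', k5, k6⟩
    obtain ⟨φ1, p1, p2, p3, p4, p5⟩ := t1 _ _ _ _ k5
    obtain ⟨φ2, q1, q2, q3⟩ := t2 _ _ k6
    obtain ⟨χ, g1, g2, -⟩ := PQ_glue p1 q1 hd r1 r2 s1 s2 f1 f2 (by rw [q2, p4]) (by rw [q3, p5])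
    exact ⟨χ, g1, (g2 a a1 ha).trans p2, (g2 b b1 hb).trans p3⟩
  · have k5 := cut_sub_tch r2
    have k6 := cut_sub_tch s2
    have k7 := fun k7 => (hL1 e k7 k).2
    simp only [mem_union, mem_insert, mem_singleton] at he ⊢
    (clear * - he k5 k6 k7; grind)
  · have k5 := cut_sub_tch r1
    have k6 := cut_sub_tch s1
    have k7 := fun k7 => (hL2 e k7 k).2
    simp only [mem_insert] at he ⊢
    (clear * - he k5 k6 k7; grind)

/-- completing a double pass by a solution of the rest -/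
theorem finq (h : G.Dq X O ∅ K a b c d C) (hX : X ⊆ W)
    (hJ : ∀ e ∈ ({a, b, c, d} : Finset E), e ∈ G.cut W)
    (h' : G.Abs0 (W \ X) O' (G.cut (W \ X)) K') (z : E)
    (hz : ∀ e ∈ G.cut W, e ∈ G.tch (W \ X) → e = z) {K0 : Set (Finset E)}
    (hK : ∀ u ∈ K0, (∃ u' ∈ K ∪ K', u' ⊆ u) ∨
      ∃ e ∈ u, e ∈ G.tch W ∧ e ∉ G.ins X ∧ e ∉ G.ins (W \ X) ∧ e ∉ ({a, b, c, d} : Finset E)) :
    G.Dq W (O' ∪ O) ∅ K0 a b c d C ∧
      G.par ((O' ∪ O) ∩ G.ins W) = G.par O' + G.par (O ∩ G.ins X) := by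
  have hJX : ∀ e ∈ ({a, b, c, d} : Finset E), e ∈ G.cut X := fun e he => by
    rw [← h.2.1.2.2] at he
    exact (mem_inter.1 he).2
  have k := (h'.neg (L := G.tch X) z fun e he => (PQ_rest he).imp id fun k => hz e k.1 k.2).seqQ
    (L := ∅) h sdiff_disjoint (fun e he => PQ_out hX (hJ e he) (hJX e he))
    (fun e he _ => Or.inl he) fun e he _ => absurd he (notMem_empty e)
  rw [sdiff_union_of_subset hX] at k
  refine ⟨k.1.cov fun t ht => ?_, k.2⟩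
  rcases hK t ht with ⟨t', h1, h2⟩ | ⟨e, h1, h2, h3, h4, h5⟩
  · exact Or.inl ⟨t', Set.union_comm K K' ▸ h1, h2⟩
  · refine Or.inr ⟨e, h1, h2, fun k' => ?_⟩
    rcases mem_union.1 k' with k' | k'
    · exact h'.not_mem h4 k'
    · apply h5
      rw [← h.2.1.2.2]
      exact mem_inter.2 ⟨k', (mem_tch_iff.1 (h.2.1.1 k')).resolve_left h3⟩

/-- negating a branch: the constant of the pass changes -/
theorem flip_u {σ : ZMod 2} {κ : ZMod 3} {g : E} (h1 : G.Abs0 X1 O1 (G.cut X1) K1)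
    (hS : G.St X2 O2 {a, b}) (hab : a ≠ b)
    (h2 : G.Pa X2 O2 (G.fr X2 {a, b}) K2 a b fun ψ R => R.PC σ (κ * ψ g)) (hκ : κ ≠ 0)
    (hd : Disjoint X1 X2) (ha : a ∉ G.tch X1) (hb : b ∉ G.tch X1) (g1 : g ∈ G.cut X1)
    (g2 : g ∈ G.cut X2) (hL : ∀ e ∈ G.cut X1, e ∈ G.tch X2 ∨ e ∈ L) :
    G.Pas0 (X1 ∪ X2) (O1 ∪ O2) a b L (K1 ∪ K2) (Rl.U σ) ∧
      G.par ((O1 ∪ O2) ∩ G.ins (X1 ∪ X2)) = G.par O1 + G.par (O2 ∩ G.ins X2) := by
  obtain ⟨k1, k2, k3, k4⟩ := h1.1.union hS hd fun e he _ =>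
    ⟨fun k => absurd k (notMem_empty e), fun k => by
      rcases mem_insert.1 k with rfl | k
      · exact absurd he ha
      · rw [mem_singleton.1 k] at he
        exact absurd he hb⟩
  simp only [empty_union, empty_inter, sdiff_empty] at k1 k4
  rw [inter_eq_left.2 h1.1.sub_ins] at k4
  have a2 : a ∈ O2 ∩ G.cut X2 := by rw [hS.2.2]; simp
  have b2 : b ∈ O2 ∩ G.cut X2 := by rw [hS.2.2]; simp
  have aA := (mem_cut.1 (mem_inter.1 a2).2).1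
  have bA := (mem_cut.1 (mem_inter.1 b2).2).1
  have Q2 := h2.congrO k3
  obtain ⟨φ1, p1⟩ := (h1.2.congrO k2).sl
  have gO : g ∉ O1 ∪ O2 := fun k => h1.not_mem (not_ins_of_cut g1) ((k2 g (cut_sub_tch g1)).1 k)
  have hF : Disjoint (G.fr X2 {a, b}) (G.tch X1) := by
    refine disjoint_left.2 fun e he h3 => ?_
    rcases PQ_fr.1 he with k | k
    · exact PQ_ins hd.symm k h3
    · rcases mem_insert.1 k.2 with rfl | k5
      · exact ha h3
      · rw [mem_singleton.1 k5] at h3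
        exact hb h3
  refine ⟨⟨hab, k1, Pa.mono (Fr := G.fr X1 (G.cut X1) ∪ G.fr X2 {a, b})
    ⟨Ab_sub fr_sub_tch fr_sub_tch, fun ψ h3 => ?_⟩
    (PQ_sub hd (fun e he _ => ?_) fun e he _ => ?_) fr_sub_tch⟩, by rw [k4]; simp [par]⟩
  · rw [fr_cut] at h3 ⊢
    have key : ∀ χ, G.Sl X1 (O1 ∪ O2) K1 χ → Rl.PC σ (κ * χ g) fun x y =>
        ∃ φ, G.Re (X1 ∪ X2) (O1 ∪ O2) (G.tch X1 ∪ G.fr X2 {a, b}) (K1 ∪ K2) ψ φ ∧
          G.out (X1 ∪ X2) φ a = x ∧ G.out (X1 ∪ X2) φ b = y := by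
      intro χ hχ x y hxy
      have h4 : G.Re X1 (O1 ∪ O2) (G.tch X1) K1 ψ fun e => if e ∈ G.tch X1 then χ e else ψ e :=
        ⟨fun e he => if_neg he, hχ.congr (fun e he => if_pos he) fun _ _ => Iff.rfl⟩
      obtain ⟨R, h5, h6⟩ := Q2.2 _ (Ab_pre3 h3 Subset.rfl h4)
      simp only [if_pos (cut_sub_tch g1)] at h5
      obtain ⟨φ, h7, h8, h9⟩ := h6 x y (h5 x y hxy)
      exact ⟨φ, Ab_then h4 h7 hF, (out_union φ aA ha).trans h8, (out_union φ bA hb).trans h9⟩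
    exact ⟨_, Rl.u_of_pc (key φ1 p1) (key _ p1.neg)
      (PQ_z3 _ _ hκ (p1.2.1 g (cut_sub_tch g1) gO)), fun _ _ => id⟩
  · exact (hL e he).imp id fun k => mem_insert_of_mem (mem_insert_of_mem k)
  · simp only [mem_insert, mem_singleton] at he ⊢
    grind

end SG

end Pool.Agent.Work.MP_8c679b_co
end
end
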