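import Pool.Agent.Work.MP_8c679b_co.Cubic
import Pool.Agent.Work.MP_8c679b_co.Six.GNorm
import Pool.Agent.Work.MP_8c679b_co.Six.PAll
import Pool.Agent.Work.MP_8c679b_co.Key.PQ
import Pool.Agent.Work.MP_8c679b_co.Top.LRad

-- merged part: Pool.Agent.Work.MP_8c679b_co.Key.TY2b
section
-- merged part: Pool.Agent.Work.MP_8c679b_co.Six.RPs
section
/-!
Good passes of an unbalanced side.
-/

set_option autoImplicit false

namespace Pool.Agent.Work.MP_8c679b_co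

open Finset

namespace SG

variable {V E : Type} [Fintype V] [DecidableEq V] [DecidableEq E] {G : SG V E}
  {T S W X : Finset V} {a b c d : E} {Bs Ds : Finset (Finset V)}

theorem RPs_cov {O : Finset E} {K K' : Set (Finset E)} {C : Rl → Prop} (hq : G.Q4 X a b c d)
    (h : G.Pas0 X O a b ∅ K' C) (hK : ∀ t ∈ K, (∃ t' ∈ K', t' ⊆ t) ∨ c ∈ t) :
    G.Pas0 X O a b ∅ K C :=
  h.cov fun t ht => (hK t ht).imp_right fun k => ⟨c, k, cut_sub_tch hq.mem.2.2.1, fun k' =>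
    (h.cut.2.2.2.2 c hq.mem.2.2.1 k').elim hq.2.2.1.symm hq.2.2.2.2.1.symm⟩

/-- HINT: `exists_bal`.  No balanced split: first piece `P` (`exists_piece`).  If `P` is not
`Qd`: `RPN`, `TLp`.  Otherwise `P` is a split; `q_dbl`, the next piece (`exists_next`,
`piece_pass`), `Dbl.close`, `Rl.Xi.gd`; coverage by `next_cov`, `HT.kus4`; `TLp`.
A balanced split: `X0` the largest one, `X1` the next one; the last clause of `HDp X1` with
`PSN` of the suitable sign or `BP` and `sgn`; `Sp.cov1`, `TLp`. -/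
theorem rp_step (hc : G.Cub) (hT : G.HT T) (hS : S ⊆ T) (hu : G.US S) (hK : G.KB T)
    (hN : ∀ S' ⊆ S, G.RPN S') : G.RP S := by
  intro a b c d hq hQ
  have hL := (hK S hS).2.2.2.2.2.1
  have key : ∀ X1, (X1 = S ∨ G.Sp S a b X1) → ∀ O1, G.Pas0 X1 O1 a b ∅ (G.Kus X1) Rl.Gd →
      ∃ X O, G.Rg S X c d ∧ G.Pas0 X O a b ∅ (G.Kp S X c d) Rl.Gd := fun X1 h1 O1 h2 => by
    obtain ⟨X, δ, h3, h4⟩ := hL a b c d hq X1 h1
    obtain ⟨O, h5, -⟩ := h4 O1 _ h2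
    exact ⟨X, O, h3, h5⟩
  rcases exists_bal hc hT hS hq with hb | ⟨X0, s0, hB, hm⟩
  · obtain ⟨P, h1, h2, -⟩ := exists_piece hc hT hS hq
    rcases h1 with rfl | h1
    · obtain ⟨O, hO⟩ := hN P Subset.rfl hu a b c d hq h2 hQ
      exact key P (Or.inl rfl) O hO
    obtain ⟨-, -, -, -, -, -, -, -, -, -, -, -, x, y, hx, -⟩ := h1.str hc hT hS hq
    have hP : G.US P := ⟨hx.card, hb P h1⟩
    by_cases hd : G.Qd P a b
    swap
    · obtain ⟨O, hO⟩ := hN P h1.1 hP a b x y hx h2 hd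
      exact key P (Or.inr h1) O hO
    obtain ⟨O1, h7⟩ := q_dbl hc hT (h1.1.trans hS) hP hx hd
    obtain ⟨X2, u, w, k1, k2, k3, k4, k5, -⟩ := exists_next hc hT hS hq h1 hx
    have hX2 : X2 ⊆ T := (k1.elim (fun e => e.subset) fun e => e.1).trans hS
    have hP2 : X2 \ P ⊆ T := sdiff_subset.trans hX2
    obtain ⟨-, -, -, -, l1, -⟩ := k2.link hc hT hX2 k3 hx
    obtain ⟨-, -, -, -, -, -, -, -, ha, hb', -⟩ := k2.str hc hT hX2 k3
    obtain ⟨O2, σ, h6⟩ := piece_pass (hK _ hP2).1 (hK _ hP2).2.2.2.2.1 k4 l1 k5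
    obtain ⟨O, h9, -⟩ := h7.close h6 (fun _ k => k.tt) disjoint_sdiff hq.2.1 ha hb'
    rw [union_sdiff_of_subset k2.1] at h9
    refine key X2 k1 O (RPs_cov k3 (h9.imp fun _ r => r.gd) fun t ht => ?_)
    rcases next_cov hc hT hX2 k3 k2 hx k5 t ht with m | m | m
    · refine Or.inl ⟨{x}, Or.inr rfl, singleton_subset_iff.2 ?_⟩
      rw [hT.kus4 hc (h1.1.trans hS) hd.1 t m]
      exact hx.mem.2.2.1
    · exact Or.inl ⟨t, Or.inl m, Subset.rfl⟩
    · exact Or.inr m.1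
  obtain ⟨-, -, -, -, -, -, -, -, -, -, -, -, x, y, hx, -⟩ := s0.str hc hT hS hq
  obtain ⟨X1, u, w, h1, h2, h3, h4, h5, -⟩ := exists_next hc hT hS hq s0 hx
  have hX : X1 ⊆ T := (h1.elim (fun e => e.subset) fun e => e.1).trans hS
  have hn : ¬ G.Bal (G.ins X1) := h1.elim (fun e => e ▸ hu.2) fun e => hm X1 e (Spl_ss h2)
  have key2 : ∀ O1, G.Pas0 X1 O1 a b ∅ (G.Kus (X1 \ X0)) Rl.Gd →
      ∃ X O, G.Rg S X c d ∧ G.Pas0 X O a b ∅ (G.Kp S X c d) Rl.Gd := fun O1 hO =>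
    key X1 h1 O1 (RPs_cov h3 hO fun t ht => (h2.cov1 hc hT hX h3 hx hB h5 t ht).imp
      (fun k => ⟨t, k, Subset.rfl⟩) fun k => k.1)
  obtain ⟨p, hp⟩ := id hB
  have hD := (hK X1 hX).2.1 h3.card a b X0 x y h2 hx p hp
  have hP := hK _ (sdiff_subset.trans hX : X1 \ X0 ⊆ T)
  by_cases hB' : G.Bal (G.ins (X1 \ X0))
  · obtain ⟨q, hq'⟩ := id hB'
    obtain ⟨-, -, -, -, l1, -, l2⟩ := h2.link hc hT hX h3 hx
    obtain ⟨Om, -, hO⟩ := hP.1 x y u w h4 l1 q hq'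
    obtain ⟨O, -, -, -, k⟩ := hD Om _ _ hO
    exact key2 O (kus_bal hB' ▸ k _ (fun _ r => r) (sgn h2.1 l2 hn hp hq'))
  · obtain ⟨Om, hO⟩ := hP.2.2.2.2.1 ⟨h4.card, hB'⟩ x y u w h4 h5
      (1 - (p (G.ie X0 x) + p (G.ie X0 y) + (G.n x + G.n y)))
    obtain ⟨O, -, -, -, k⟩ := hD Om _ _ hO
    exact key2 O (k _ (fun _ r => r) (add_sub_cancel _ _))

end SG

end Pool.Agent.Work.MP_8c679b_co
end

-- merged part: Pool.Agent.Work.MP_8c679b_co.Six.RAll
section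
/-!
Good passes.
-/

set_option autoImplicit false

namespace Pool.Agent.Work.MP_8c679b_co

open Finset

namespace SG

variable {V E : Type} [Fintype V] [DecidableEq V] [DecidableEq E] {G : SG V E}
  {T S W X : Finset V} {a b c d : E} {Bs Ds : Finset (Finset V)}

/-- HINT: strong induction on `S.card`; `kb`, `rpn`, `rp_step`. -/
theorem rpa (hc : G.Cub) (hT : G.HT T) : G.RPA T := by
  have hK := kb hc hT
  intro S
  induction S using Finset.strongInduction with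
  | H S ih =>
    intro hS hu
    refine rp_step hc hT hS hu hK fun S' hS' => ?_
    refine rpn hc hT (hS'.trans hS) hK fun B hB huB => ?_
    exact ih B (hB.trans_subset hS') ((hB.subset.trans hS').trans hS) huB

end SG

end Pool.Agent.Work.MP_8c679b_co
end

-- merged part: Pool.Agent.Work.MP_8c679b_co.Key.FIN
section
/-!
Finishing a double pass by a clean solution of the rest.

Hints.  `cut_inj`: the symmetric difference has an empty cut, `HT.mono3`.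
`fin0`: let `Bs'` be the boxes for which the first or the second case of `BK1` holds,
`Fm := {S | G.US S ∧ ∃ B ∈ Bs', S ⊆ B}` and `K' := K ∪` all `G.Kp B (B ∩ X) c d` that occur in the
second case.  Then `G.Bx Fm Y J Bs'` and `G.BS Y Bs' ∅ X K'` with `J = {a, b, c, d}`; apply `finc`,
`Fo.vd0`, `Fo.cover` and `finq`.  A target `G.cut S` with `v ∉ S` that contains an added target
`G.cut S'` equals it (both have four edges), so `S' = S` by `cut_inj` and the target is in `Kpv`.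
For `S` inside a box of the third kind: `S ⊆ Y \ X` gives a target of `G.Tg G.AU (Y \ X) Ds`.
`kfin`: split on `F.ty`; `F.Ok.cov` gives the covering hypothesis.  `kfin'`: `par_all` gives `CP`.
`two_trk`: for one ring `dq_par`, for two rings `dq_seq` (track `i` first, `Dq.flip` if `i = true`;
each class has a member because the pass has one for `ψ = 1`), both with the live set
`G.tch XQ`; a live edge to `XQ` does not touch the other track.  Then `Dq.seqA`.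
-/

set_option autoImplicit false

namespace Pool.Agent.Work.MP_8c679b_co

open Finset

variable {V E : Type} [Fintype V] [DecidableEq V] [DecidableEq E] {G : SG V E}
  {T X X' Y S S' B : Finset V} {O : Finset E} {K K' : Set (Finset E)} {a b c d z : E} {v : V}
  {Bs : Finset (Finset V)} {C : Rf → Prop} {F : Kf V E} {t ε g : ZMod 2}

namespace SG

omit [Fintype V] in
theorem FIN_three {e : E} (h1 : Disjoint X S) (h2 : Disjoint X S') (h3 : Disjoint S S')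
    (k1 : e ∈ G.tch X) (k2 : e ∈ G.tch S') : e ∉ G.tch S := fun k3 => by
  have a1 := @disjoint_left.1 h1
  have a2 := @disjoint_left.1 h2
  have a3 := @disjoint_left.1 h3
  rcases (mem_tch.1 k1).2 with b1 | b1 <;> rcases (mem_tch.1 k2).2 with b2 | b2 <;>
    rcases (mem_tch.1 k3).2 with b3 | b3 <;>
    first | exact a1 b1 b3 | exact a2 b1 b2 | exact a3 b3 b2

theorem FIN_nt {e : E} (he : e ∈ G.cut Y) (hS : S ⊆ Y) (hS' : S' ⊆ Y) (hd : Disjoint S S')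
    (k : e ∈ G.tch S) : e ∉ G.tch S' := fun k' =>
  disjoint_left.1 hd ((cut_of_sub hS he k).2 ▸ ie_mem k) ((cut_of_sub hS' he k').2 ▸ ie_mem k')

theorem cut_inj (hT : G.HT T) (hS : S ⊆ T) (hS' : S' ⊆ T) (h : G.cut S = G.cut S') : S = S' := by
  by_contra k
  have h1 := hT.mono3 (symmDiff_subset_union.trans (union_subset hS hS'))
    (nonempty_iff_ne_empty.2 fun k' => k (symmDiff_eq_empty.1 k'))
  obtain ⟨e, he⟩ := card_pos.1 (lt_of_lt_of_le (by norm_num) h1)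
  have h2 : e ∈ G.cut S ↔ e ∈ G.cut S' := by rw [h]
  simp only [mem_cut, mem_symmDiff] at he h2
  (clear * - h2 he; grind)

omit [Fintype V] in
theorem BK1.congr (h : G.BK1 B X K v) (hX : B ∩ X' = B ∩ X) (hK : K ⊆ K') : G.BK1 B X' K' v := by
  rcases h with h | ⟨a, b, c, d, h1, h2, h3⟩ | h
  · exact Or.inl (disjoint_iff_inter_eq_empty.2 (hX.trans (disjoint_iff_inter_eq_empty.1 h)))
  · refine Or.inr (Or.inl ⟨a, b, c, d, h1, hX ▸ h2, fun t ht => ?_⟩)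
    obtain ⟨t', k1, k2⟩ := h3 t (hX ▸ ht)
    exact ⟨t', hK k1, k2⟩
  · refine Or.inr (Or.inr fun S hS h1 h2 => (h S hS h1 h2).imp (fun k => ?_)
      fun ⟨t', k1, k2⟩ => ⟨t', hK k1, k2⟩)
    exact disjoint_left.2 fun x k1 k2 =>
      disjoint_left.1 k k1 (mem_inter.1 (hX ▸ mem_inter.2 ⟨hS k1, k2⟩ : x ∈ B ∩ X)).2

omit [Fintype V] [DecidableEq E] in
theorem kv_sub : G.Kv X v ⊆ G.Kus X := by
  exact fun _ ⟨S, h1, h2, _, h3⟩ => ⟨S, h1, h2, h3⟩

omit [Fintype V] [DecidableEq E] in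
theorem kpv_sub : G.Kpv S X c d v ⊆ G.Kp S X c d := by
  exact fun _ h => ⟨kv_sub h.1, h.2⟩

omit [Fintype V] [DecidableEq E] in
theorem kp_swap : G.Kp S X c d = G.Kp S X d c ∧ G.Kpv S X c d v = G.Kpv S X d c v := by
  exact ⟨Set.ext fun _ => and_congr_right' (or_congr_right or_comm),
    Set.ext fun _ => and_congr_right' (or_congr_right or_comm)⟩

/-- the other two edges of a four-cut are determined up to their order -/
theorem Q4.uniq {c' d' : E} (h : G.Q4 S a b c d) (h' : G.Q4 S a b c' d') :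
    (c' = c ∧ d' = d) ∨ (c' = d ∧ d' = c) := by
  have h1 := h'.mem.2.2.1
  have h2 := h'.mem.2.2.2
  obtain ⟨-, -, k1, k2, k3, k4, k5⟩ := h'
  rw [h.1] at h1 h2
  simp only [mem_insert, mem_singleton] at h1 h2
  rcases h1 with h1 | h1 | h1 | h1
  · exact absurd h1.symm k1
  · exact absurd h1.symm k3
  all_goals
    rcases h2 with h2 | h2 | h2 | h2
    · exact absurd h2.symm k2
    · exact absurd h2.symm k4
    all_goals first
      | exact absurd (h1.trans h2.symm) k5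
      | exact Or.inl ⟨h1, h2⟩
      | exact Or.inr ⟨h1, h2⟩

theorem fin0 (hc : G.Cub) (hT : G.HT T) (hY : Y ⊆ T) (hpd : PD Bs)
    (hB : ∀ B ∈ Bs, B ⊆ Y ∧ G.US B ∧ G.cut B ⊆ G.ins Y ∪ {a, b, c, d})
    (h : G.Dq X O ∅ K a b c d C) (hX : X ⊆ Y)
    (hJ : ∀ e ∈ ({a, b, c, d} : Finset E), e ∈ G.cut Y)
    (hz : ∀ e ∈ G.cut Y, e ∈ ({a, b, c, d} : Finset E) ∨ e = z)
    (hcov : ∀ S ⊆ Y, G.US S → v ∉ S → (∃ B ∈ Bs, S ⊆ B) ∨
      ∃ e ∈ G.cut S, e ∈ G.cut Y ∧ e ∉ ({a, b, c, d} : Finset E))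
    (hbk : ∀ B ∈ Bs, G.BK1 B X K v) :
    ∃ Ds, G.VD (Y \ X) ∅ Ds ∧ ∀ ε, G.CSp (Y \ X) Ds ε →
      ∃ O', G.par (O' ∩ G.ins Y) = ε + G.par (O ∩ G.ins X) ∧
        G.Dq Y O' ∅ (G.Kv Y v) a b c d C := by
  classical
  have hJX : ({a, b, c, d} : Finset E) ⊆ G.tch X := fun e he => by
    obtain ⟨k1, k2, k3, k4, -⟩ := h.cut
    simp only [mem_insert, mem_singleton] at he
    rcases he with rfl | rfl | rfl | rfl <;> exact cut_sub_tch (by assumption)
  let P : Finset V → E → E → Prop := fun B c d => (∃ a b, G.Q4 B a b c d) ∧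
    G.Rg B (B ∩ X) c d ∧ ∀ t ∈ G.Kpv B (B ∩ X) c d v, ∃ t' ∈ K, t' ⊆ t
  let Bs' := Bs.filter fun B => Disjoint B X ∨ ∃ c d, P B c d
  have hs : ∀ B ∈ Bs', B ∈ Bs := fun B k => (mem_filter.1 k).1
  obtain ⟨Ds, hF⟩ := finc (Fm := {S | G.US S ∧ ∃ B ∈ Bs', S ⊆ B}) (J := {a, b, c, d}) (Bs := Bs')
    (Ds := ∅) (K := {t | ∃ B ∈ Bs, ∃ c d, P B c d ∧ t ∈ G.Kp B (B ∩ X) c d}) hc hT hY
    (fun S k => k.1)
    ⟨fun B k => ⟨⟨(hB B (hs B k)).2.1, B, k, Subset.rfl⟩, (hB B (hs B k)).1, (hB B (hs B k)).2.2⟩,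
      fun B k B' k' => hpd B (hs B k) B' (hs B' k'), fun S k _ _ => k.2⟩ vd_empty
    ⟨hX, fun B k => (mem_filter.1 k).2.imp_right fun ⟨c, d, ⟨a, b, k1⟩, k2⟩ =>
      ⟨a, b, c, d, k1, k2.1, fun t ht => ⟨B, hs B k, c, d, ⟨⟨a, b, k1⟩, k2⟩, ht⟩⟩,
      fun ρ k => absurd k (notMem_empty ρ)⟩
    fun B k e he => (mem_union.1 ((hB B (hs B k)).2.2 he)).imp_right fun k => hJX k
  refine ⟨Ds, hF.vd0 hJX, fun ε ⟨O', hO, h'⟩ => ?_⟩
  have hK := hF.cover (fun B k => (hB B (hs B k)).1) hX hJ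
  obtain ⟨h1, h2⟩ := finq h hX hJ h' z (fun e k1 k2 => (hz e k1).resolve_left fun k =>
    FIN_nt k1 hX sdiff_subset disjoint_sdiff (hJX k) k2) (K0 := G.Kv Y v) (by
      rintro _ ⟨S, a1, a2, a3, rfl⟩
      rcases hcov S a1 a2 a3 with ⟨B, b1, b2⟩ | ⟨e, b1, b2, b3⟩
      swap
      · exact Or.inr ⟨e, b1, cut_sub_tch b2, fun k => not_ins_of_cut b2 (ins_mono hX k),
          fun k => not_ins_of_cut b2 (ins_mono sdiff_subset k), b3⟩
      by_cases k : B ∈ Bs'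
      · refine (hK _ (Or.inl ⟨S, ⟨a2, B, k, b2⟩, a1, rfl⟩)).imp_left ?_
        rintro ⟨t, ⟨B', c1, c, d, c2, ⟨S', c3, c4, rfl⟩, c5⟩ | c1, c6⟩
        · have c7 : G.cut S' = G.cut S := eq_of_subset_of_card_le c6 (a2.1.trans c4.1.symm).le
          obtain rfl := cut_inj hT (c3.trans ((hB B' c1).1.trans hY)) (a1.trans hY) c7
          obtain ⟨t', d1, d2⟩ := c2.2.2 _ ⟨⟨S', c3, c4, a3, rfl⟩, c5⟩
          exact ⟨t', Or.inl d1, d2⟩
        · exact ⟨t, Or.inr (c1.imp_left fun ⟨S', d1, d2⟩ => ⟨S', d1.1, d2⟩), c6⟩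
      rcases hbk B b1 with k1 | ⟨a', b', c', d', k1, k2⟩ | k1
      · exact absurd (mem_filter.2 ⟨b1, Or.inl k1⟩) k
      · exact absurd (mem_filter.2 ⟨b1, Or.inr ⟨c', d', ⟨a', b', k1⟩, k2⟩⟩) k
      · rcases k1 S b2 a2 a3 with k2 | ⟨t', k2, k3⟩
        · exact Or.inl ⟨_, Or.inr (Or.inl ⟨S, a2, subset_sdiff.2 ⟨a1, k2⟩, rfl⟩), Subset.rfl⟩
        · exact Or.inl ⟨t', Or.inl k2, k3⟩)
  exact ⟨_, by rw [h2, hO], h1⟩

end SG

namespace Kf

theorem FIN_gen {l : ZMod 2} (h : F.Ok G T) (hX : X ⊆ F.Y) (hJ : {a, b, c, d} = F.J)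
    (hw : G.Wk X a b c d l t ε K) (hv : v = F.v0 ∨ ∃ B ∈ F.Bs, v ∈ B)
    (hbk : ∀ B ∈ F.Bs, G.BK1 B X K v) : ∃ Ds, G.VD (F.Y \ X) ∅ Ds ∧
      ∀ ε', G.CSp (F.Y \ X) Ds ε' → G.Wk F.Y a b c d l t (ε + ε') (G.Kv F.Y v) := by
  obtain ⟨O, hO, hw⟩ := hw
  obtain ⟨Ds, h1, h2⟩ := SG.fin0 (z := F.z) h.hc h.hT h.hY h.wf.pd
    (fun B k => ⟨(h.wf.sub B k).1, hJ ▸ h.bx B k⟩) hw hX (fun e he => by
      rw [hJ, J] at he
      simp only [mem_insert, mem_singleton] at he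
      rcases he with rfl | rfl | rfl | rfl
      exacts [h.wf.pc _, h.wf.qc _, h.wf.pc _, h.wf.qc _]) (hJ ▸ h.ct)
    (fun S k1 k2 k3 => (h.cov S k1 k2).imp_right fun k => hJ ▸ k.resolve_left fun k4 =>
      k3 (hv.elim (fun k5 => k5 ▸ k4.1) fun ⟨B, k5, k6⟩ => k4.2 B k5 k6)) hbk
  refine ⟨Ds, h1, fun ε' k => ?_⟩
  obtain ⟨O', k1, k2⟩ := h2 ε' k
  exact ⟨O', by rw [k1, hO, add_comm], k2⟩

theorem kfin (h : F.Ok G T) (hX : X ⊆ F.Y) (hw : F.WkF G X t ε K)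
    (hv : v = F.v0 ∨ ∃ B ∈ F.Bs, v ∈ B) (hbk : ∀ B ∈ F.Bs, G.BK1 B X K v) :
    ∃ Ds, G.VD (F.Y \ X) ∅ Ds ∧ ∀ ε', G.CSp (F.Y \ X) Ds ε' →
      F.WkF G F.Y t (ε + ε') (G.Kv F.Y v) := by
  unfold WkF at hw ⊢
  cases k : F.ty <;> simp only [k, Bool.false_eq_true, if_false, if_true] at hw ⊢
  · exact FIN_gen h hX rfl hw hv hbk
  · exact FIN_gen h hX (congrArg (insert _) (insert_comm _ _ _)) hw hv hbk

theorem kfin' (h : F.Ok G T) (hX : X ⊆ F.Y) (hw : F.WkF G X t ε K)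
    (hv : v = F.v0 ∨ ∃ B ∈ F.Bs, v ∈ B) (hbk : ∀ B ∈ F.Bs, G.BK1 B X K v)
    (ht : F.f = true ∨ t = F.lam true)
    (hg : G.FH (F.Y \ X) ∨ g + F.lam false + t = ε + G.nu (F.Y \ X)) : F.WinN G g := by
  obtain ⟨Ds, h1, h2⟩ := kfin h hX hw hv hbk
  have h3 := h2 (g + F.lam false + t + ε) ((SG.par_all h.hc h.hT _ (sdiff_subset.trans h.hY)).1
    Ds h1 _ (hg.imp_right fun k => by rw [k]; linear_combination z2_add_self ε))
  rw [show ε + (g + F.lam false + t + ε) = g + F.lam false + t by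
    linear_combination z2_add_self ε] at h3
  exact ⟨t, ht, v, hv.elim (fun k => k ▸ h.v0) fun ⟨B, k1, k2⟩ => (h.wf.sub B k1).1 k2, h3⟩

/-- joining the passes of the two tracks and a set that is absorbed last -/
theorem two_trk (hw : F.Wf G) {X : Bool → Finset V} {O L : Bool → Finset E}
    {K : Bool → Set (Finset E)} {C : Bool → Rl → Prop} (i : Bool) {XQ : Finset V} {OQ : Finset E}
    {KQ : Set (Finset E)} (hp : ∀ j, G.Pas0 (X j) (O j) (F.p j) (F.q j) (L j) (K j) (C j))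
    (hX : ∀ j, X j ⊆ F.Y) (hd : Disjoint (X false) (X true)) (hQ : G.Abs0 XQ OQ ∅ KQ)
    (hQY : XQ ⊆ F.Y) (hdQ : ∀ j, Disjoint (X j) XQ)
    (hL : ∀ j, ∀ e ∈ L j, e ∈ G.cut (X j) →
      e ∈ G.tch XQ ∨ (F.ty = false ∧ j = i ∧ e ∈ G.tch (X (!j))))
    (hC : ∀ R : Bool → Rl, (∀ j, C j (R j)) → CL F.ty (F.lam false) t R) :
    F.WkF G (X false ∪ X true ∪ XQ) t
      (G.par (O false ∩ G.ins (X false)) + G.par (O true ∩ G.ins (X true)) + G.par OQ)
      (K false ∪ K true ∪ KQ) := by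
  have pt : ∀ j, F.p j ∈ G.tch (X j) := fun j => SG.cut_sub_tch (hp j).cut.1
  have qt : ∀ j, F.q j ∈ G.tch (X j) := fun j => SG.cut_sub_tch (hp j).cut.2.1
  have p0 := SG.FIN_nt (hw.pc false) (hX false) (hX true) hd (pt false)
  have q0 := SG.FIN_nt (hw.qc false) (hX false) (hX true) hd (qt false)
  have p1 := SG.FIN_nt (hw.pc true) (hX true) (hX false) hd.symm (pt true)
  have q1 := SG.FIN_nt (hw.qc true) (hX true) (hX false) hd.symm (qt true)
  have pQ := fun j => SG.FIN_nt (hw.pc j) (hX j) hQY (hdQ j) (pt j)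
  have qQ := fun j => SG.FIN_nt (hw.qc j) (hX j) hQY (hdQ j) (qt j)
  have l0 : ∀ e ∈ G.cut (X false), e ∈ G.tch XQ → e ∉ G.tch (X true) ∧ e ∈ G.tch XQ :=
    fun e k1 k2 => ⟨SG.FIN_three hd (hdQ false) (hdQ true) (SG.cut_sub_tch k1) k2, k2⟩
  have l1 : ∀ e ∈ G.cut (X true), e ∈ G.tch XQ → e ∉ G.tch (X false) ∧ e ∈ G.tch XQ :=
    fun e k1 k2 => ⟨SG.FIN_three hd.symm (hdQ true) (hdQ false) (SG.cut_sub_tch k1) k2, k2⟩
  have fin : ∀ {a b c d : E}, (∀ e ∈ ({a, b, c, d} : Finset E), e ∉ G.tch XQ) →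
      G.Dq (X false ∪ X true) (O false ∪ O true) (G.tch XQ) (K false ∪ K true) a b c d
        (Rf.L2 (F.lam false) t) ∧ G.par ((O false ∪ O true) ∩ G.ins (X false ∪ X true)) =
        G.par (O false ∩ G.ins (X false)) + G.par (O true ∩ G.ins (X true)) →
      G.Wk (X false ∪ X true ∪ XQ) a b c d (F.lam false) t
        (G.par (O false ∩ G.ins (X false)) + G.par (O true ∩ G.ins (X true)) + G.par OQ)
        (K false ∪ K true ∪ KQ) := fun hJ k => by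
    obtain ⟨k1, k2⟩ := k.1.seqA (L := ∅) hQ (disjoint_union_left.2 ⟨hdQ false, hdQ true⟩) hJ
      (fun e k _ => Or.inl k) fun e k => absurd k (notMem_empty e)
    exact ⟨_, by rw [k2, k.2], k1⟩
  unfold WkF
  cases k : F.ty <;> simp only [k, CL, Bool.false_eq_true, if_false, if_true] at hC hL ⊢
  · have ex : ∀ j, ∃ R, C j R := fun j =>
      ((hp j).2.2.2 (fun _ => 1) fun _ _ _ _ => (by decide : (1 : ZMod 3) ≠ 0)).imp fun _ k => k.1
    obtain ⟨R0, r0⟩ := ex false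
    obtain ⟨R1, r1⟩ := ex true
    have m0 := (hp false).imp (C' := Rl.Mt (F.lam false)) fun R k =>
      (hC (fun j => cond j R1 R) fun j => by cases j <;> assumption).1
    have m1 := (hp true).imp (C' := Rl.Mt t) fun R k =>
      (hC (fun j => cond j R R0) fun j => by cases j <;> assumption).2
    refine fin (by simp [pQ, qQ]) ?_
    cases i
    · exact SG.dq_seq m0 m1 hd p0 q0 p1 q1
        (fun e k1 k2 => ((hL false e k1 k2).imp_right fun k => k.2.2).symm)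
        fun e k1 k2 => l1 e k2 ((hL true e k1 k2).resolve_right fun k => by simpa using k.2.1)
    · obtain ⟨k1, k2⟩ := SG.dq_seq (L := G.tch XQ) m1 m0 hd.symm p1 q1 p0 q0
        (fun e k1 k2 => ((hL true e k1 k2).imp_right fun k => k.2.2).symm)
        fun e k1 k2 => l0 e k2 ((hL false e k1 k2).resolve_right fun k => by simpa using k.2.1)
      rw [union_comm (X true), union_comm (O true)] at k1 k2
      rw [Set.union_comm] at k1
      exact ⟨k1.flip fun R k => k.flip, k2.trans (add_comm _ _)⟩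
  · refine fin (by simp [pQ, qQ]) (SG.dq_par (hp false) (hp true) hd p0 q0 p1 q1
      (fun e k1 k2 => l0 e k2 ((hL false e k1 k2).resolve_right fun k => by simpa using k.1))
      (fun e k1 k2 => l1 e k2 ((hL true e k1 k2).resolve_right fun k => by simpa using k.1))
      fun R0 R1 r0 r1 x y => ?_)
    obtain ⟨x, y, u, w, k1, k2, k3⟩ :=
      hC (fun j => cond j R1 R0) (fun j => by cases j <;> assumption) x y
    exact ⟨x, y, u, w, ⟨k1, k2⟩, k3⟩

end Kf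

end Pool.Agent.Work.MP_8c679b_co
end

-- merged part: Pool.Agent.Work.MP_8c679b_co.Key.TY1
section
/-!
Heads of unbalanced sides: graph structure.

Hints.  `exists_head`: `exists_bal`; if all splits are unbalanced take `X0 = ∅` and the first piece
(`exists_piece`); else `X0` is the largest balanced split and `X1` comes from `exists_next`
(`Sp.nested` for `min`).
`cross_link`: `HT.f3` gives two edges of `G.ins S` between `S ∩ X` and `S \ X`; they lie in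
`G.crs (G.ins N) X = {x, y}` (`Sp.link`).
`hd_bal`: a balanced split is nested with `X1` and `X0`; `X0 ⊂ X ⊂ X1` contradicts `NC` by
`Sp.of_sub`, `Sp.sub`.
`hd_cov`: first `S ⊆ X1`: if `S` is not inside `X1 \ X0` it crosses `X0`, both links are inside
`S`; `Sp.cov1` and `cut_inj` give that the other two edges `u, w` of `X1` are in the cut of `S`;
if `(X1 \ X0) \ S` were nonempty, its at least three cut edges would be further cut edges of `S`.
If `S` crosses `X1`: both links `u, w` are inside `S`, the parts `S ∩ X1` and `S \ X1` have two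
vertices each, so both cuts have exactly four edges (`cut_add`, `HT.four`); `X1 \ S` is empty or a
split of `N` properly inside `X1`, hence balanced (`Hd.min`) and inside `X0` (`hd_bal`).
`cross_nc`: a split `X` for `a, b` and a split `X'` for `a, c` cut `N` into four corners, each
with one edge of the cut of `N`; `cut_submod`, `cut_posi` and `HT` show that each corner has cut
three, so it is one vertex.
-/

set_option autoImplicit false

namespace Pool.Agent.Work.MP_8c679b_co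

open Finset

namespace SG

variable {V E : Type} [Fintype V] [DecidableEq V] [DecidableEq E] {G : SG V E}
  {T N S X X0 X1 : Finset V} {a b c d x y : E}

theorem TY1_crs (hS : S ⊆ N) : G.crs (G.ins S) (S ∩ X) ⊆ G.crs (G.ins N) X := fun e => by
  have h1 := @hS (G.s e)
  have h2 := @hS (G.t e)
  simp only [mem_crs, mem_ins, mem_inter]
  tauto

theorem TY1_at {v : V} (h : x ∈ G.ins S) (hv : G.At x v) : v ∈ S := by
  rcases hv with rfl | rfl
  exacts [(mem_ins.1 h).2.1, (mem_ins.1 h).2.2]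

theorem TY1_out (hX : X ⊆ N) (hS : S ⊆ N) (h : x ∈ G.cut (X \ S)) :
    x ∉ G.ins S ∧ (x ∈ G.cut S → x ∉ G.cut N) := by
  have h1 := @hS (G.s x)
  have h2 := @hS (G.t x)
  have h3 := @hX (G.s x)
  have h4 := @hX (G.t x)
  simp only [mem_cut, mem_ins, mem_sdiff] at h ⊢
  (clear * - h h1 h2 h3 h4; grind)

theorem TY1_one {X' : Finset V} (hc : G.Cub) (hT : G.HT T) (hN : N ⊆ T) (hq : G.Q4 N a b c d)
    (h : G.Sp N a b X) (h' : G.Sp N a c X') : (X \ X').card = 1 ∧ (X' \ X).card = 1 := by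
  have key : ∀ {Y Y' : Finset V} {e : E}, Y ⊂ N → Y' ⊆ N → e ∈ G.cut Y ∧ e ∈ G.cut N →
      e ∉ G.cut Y' → 3 ≤ (G.cut (Y \ Y')).card ∧
        ((G.cut (Y \ Y')).card = 3 → (Y \ Y').card = 1) := fun {Y Y' e} k k' he hn => by
    have := hT (Y \ Y') (sdiff_subset.trans (k.1.trans hN)) ⟨G.ie N e, mem_sdiff.2
      ⟨(cut_of_sub k.1 he.2 (cut_sub_tch he.1)).2 ▸ Spl_ie he.1,
        fun m => hn (Spl_cut_of k' he.2 m).1⟩⟩
    exact ⟨this.1, fun m => (this.2 m).resolve_right fun e =>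
      k.2 (hN.trans (e.ge.trans sdiff_subset))⟩
  obtain ⟨h1, h1'⟩ := key (Spl_ss h) h'.1 (Spl_ab h).2 fun k =>
    ((Spl_iff h' b).1 ⟨k, hq.mem.2.1⟩).elim hq.2.1.symm hq.2.2.2.2.1
  obtain ⟨h2, h2'⟩ := key (Spl_ss h') h.1 (Spl_ab h').2 fun k =>
    ((Spl_iff h c).1 ⟨k, hq.mem.2.2.1⟩).elim hq.2.2.1.symm hq.2.2.2.2.1.symm
  have h3 := cut_posi (G := G) (X := X) (Y := X')
  have h5 := (Spl_ab h).1
  have h6 := (Spl_ab h').1
  have h4 : 0 < (G.cut (X ∩ X') ∩ G.cut (X ∪ X')).card := card_pos.2 ⟨a, mem_inter.2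
    ⟨(Spl_cut_of (inter_subset_left.trans h.1) h5.2 (mem_inter.2
      ⟨(cut_of_sub h.1 h5.2 (cut_sub_tch h5.1)).2 ▸ Spl_ie h5.1,
        (cut_of_sub h'.1 h6.2 (cut_sub_tch h6.1)).2 ▸ Spl_ie h6.1⟩)).1,
      Spl_mid subset_union_left (union_subset h.1 h'.1) h5.1 h5.2⟩⟩
  rw [h.2.1, h'.2.1] at h3
  exact ⟨h1' (by omega), h2' (by omega)⟩

theorem TY1_four {X' : Finset V} (hc : G.Cub) (hT : G.HT T) (hN : N ⊆ T) (hq : G.Q4 N a b c d)
    (h : G.Sp N a b X) (h' : G.Sp N a c X') : N.card = 4 := by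
  obtain ⟨h1, h2⟩ := TY1_one hc hT hN hq h h'
  obtain ⟨h3, h4⟩ := TY1_one hc hT hN hq.swap1.swap2 h.symm (h'.compl hq.mid)
  have h5 := card_sdiff_add_card_eq_card h.1
  have h6 := card_sdiff_add_card_inter X X'
  have h7 := card_sdiff_add_card_inter (N \ X) X'
  have e1 : X \ (N \ X') = X ∩ X' := by
    ext v
    have := @h.1 v
    simp only [mem_sdiff, mem_inter]
    tauto
  have e2 : (N \ X) ∩ X' = X' \ X := by
    ext v
    have := @h'.1 v
    simp only [mem_sdiff, mem_inter]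
    tauto
  rw [e1] at h3
  rw [e2, sdiff_right_comm] at h7
  omega

theorem exists_head (hc : G.Cub) (hT : G.HT T) (hN : N ⊆ T) (hu : G.US N) (hq : G.Q4 N a b c d) :
    ∃ X0 X1, G.Hd N a b X0 X1 := by
  rcases exists_bal hc hT hN hq with k | ⟨X0, h1, h2, h3⟩
  · obtain ⟨P, p1, p2, p3⟩ := exists_piece hc hT hN hq
    exact ⟨∅, P, p1, p1.elim (fun e => e ▸ hu) fun e => ⟨e.2.1, k P e⟩, Or.inl ⟨rfl, p2⟩,
      fun X hX _ => p3 X hX⟩
  obtain ⟨x, y, hx⟩ := exists_q4 h1.2.1 (Spl_ab h1).1.1 (Spl_ab h1).2.1 hq.2.1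
  obtain ⟨X1, u, w, p1, p2, p3, -, p4, -, -, p5⟩ := exists_next hc hT hN hq h1 hx
  refine ⟨X0, X1, p1, p1.elim (fun e => e ▸ hu) fun e => ⟨e.2.1, h3 _ e (Spl_ss p2)⟩,
    Or.inr ⟨p2, h2, fun x' y' hx' => ?_⟩, fun X hX hB => ?_⟩
  · rcases hx.uniq hx' with ⟨rfl, rfl⟩ | ⟨rfl, rfl⟩
    exacts [p4, p4.symm]
  · have k : ¬ X ⊆ X0 := fun k => hB (h2.mono (ins_mono k))
    exact p5 X hX ⟨(h1.nested hc hT hN hq hX).resolve_right k, k⟩

theorem cross_link (hc : G.Cub) (hT : G.HT T) (hN : N ⊆ T) (hq : G.Q4 N a b c d)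
    (h : G.Sp N a b X) (hx : G.Q4 X a b x y) (hS : S ⊆ N) (hu : G.US S) (h1 : ¬ S ⊆ X)
    (h2 : ¬ Disjoint S X) : x ∈ G.ins S ∧ y ∈ G.ins S ∧ G.ie X x ∈ S := by
  have h3 := hT.us_card hc (hS.trans hN) hu
  have h4 := hT.f3 (hS.trans hN) hu.1 (by omega) (S ∩ X) inter_subset_left
    (not_disjoint_iff_nonempty_inter.1 h2) fun k => h1 (inter_eq_left.1 k)
  have h5 := eq_of_subset_of_card_le ((TY1_crs hS).trans (h.link hc hT hN hq hx).2.2.2.2.2.2.le)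
    ((card_pair hx.2.2.2.2.2.2).trans_le h4)
  have h6 : ∀ e ∈ ({x, y} : Finset E), e ∈ G.ins S := fun e he => (mem_crs.1 (h5 ▸ he)).1
  exact ⟨h6 x (by simp), h6 y (by simp), TY1_at (h6 x (by simp)) ie_at⟩

/-- the basic data of a head -/
theorem Hd.str (hc : G.Cub) (hT : G.HT T) (hN : N ⊆ T) (hq : G.Q4 N a b c d)
    (h : G.Hd N a b X0 X1) : X0 ⊂ X1 ∧ X1 ⊆ N ∧ ∃ u w, G.Q4 X1 a b u w ∧ G.Dv X1 u w ∧
      (X1 = N → u = c ∧ w = d) ∧ (X1 ≠ N → G.Q4 (N \ X1) u w c d ∧ G.Dv (N \ X1) u w) := by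
  refine ⟨h.pc.elim (fun k => k.1 ▸ empty_ssubset.2 (Spl_nonempty h.us.1)) fun k => Spl_ss k.1,
    h.sp.elim (fun k => k.le) And.left, ?_⟩
  rcases h.sp with rfl | k
  · have := hT.us_card hc hN h.us
    exact ⟨c, d, hq, hT.f2 hc hN hq.card (by omega) hq.mem.2.2.1 hq.mem.2.2.2 hq.2.2.2.2.2.2,
      fun _ => ⟨rfl, rfl⟩, fun k => absurd rfl k⟩
  · obtain ⟨x, y, hx⟩ := exists_q4 k.2.1 (Spl_ab k).1.1 (Spl_ab k).2.1 hq.2.1
    obtain ⟨p1, -, -, p2, p3, -⟩ := k.link hc hT hN hq hx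
    exact ⟨x, y, hx, p2, fun e => absurd e (Spl_ne k), fun _ => ⟨p1, p3⟩⟩

theorem hd_bal (hc : G.Cub) (hT : G.HT T) (hN : N ⊆ T) (hq : G.Q4 N a b c d)
    (h : G.Hd N a b X0 X1) (hX : G.Sp N a b X) (hB : G.Bal (G.ins X)) : X ⊆ X0 := by
  obtain ⟨-, h1, u, w, hu, -⟩ := h.str hc hT hN hq
  have h2 : G.Sp X1 a b X := by
    rcases h.sp with rfl | k
    · exact hX
    have k1 : ¬ X1 ⊆ X := fun k => h.us.2 (hB.mono (ins_mono k))
    exact k.of_sub hX ⟨(k.nested hc hT hN hq hX).resolve_left k1, k1⟩ hT hN hq.2.1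
  rcases h.pc with k | ⟨k, -, k'⟩
  · exact absurd h2 (k.2 X)
  by_contra k1
  obtain ⟨x, y, hx⟩ := exists_q4 k.2.1 (Spl_ab k).1.1 (Spl_ab k).2.1 hq.2.1
  exact k' x y hx _ (k.sub hc hT (h1.trans hN) hu hx h2
    ⟨(k.nested hc hT (h1.trans hN) hu h2).resolve_right k1, k1⟩).1

theorem hd_cov (hc : G.Cub) (hT : G.HT T) (hN : N ⊆ T) (hq : G.Q4 N a b c d)
    (h : G.Hd N a b X0 X1) (hS : S ⊆ N) (hu : G.US S) :
    S ⊆ X1 \ X0 ∨ X1 \ X0 ⊆ S ∨ Disjoint S X1 := by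
  obtain ⟨-, h1, u, w, hw, d1, -, h2⟩ := h.str hc hT hN hq
  have hT1 := h1.trans hN
  by_cases k0 : S ⊆ X1 \ X0
  · exact Or.inl k0
  by_cases k1 : Disjoint S X1
  · exact Or.inr (Or.inr k1)
  refine Or.inr (Or.inl ?_)
  by_cases k2 : S ⊆ X1
  · rcases h.pc with k | ⟨k, hB, k'⟩
    · exact absurd (by rwa [k.1, sdiff_empty]) k0
    obtain ⟨x, y, hx⟩ := exists_q4 k.2.1 (Spl_ab k).1.1 (Spl_ab k).2.1 hq.2.1
    have k3 : ¬ S ⊆ X0 := fun k => hu.2 (hB.mono (ins_mono k))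
    obtain ⟨p1, p2, -⟩ := cross_link hc hT hT1 hw k hx k2 hu k3
      fun e => k0 (subset_sdiff.2 ⟨k2, e⟩)
    rcases k.f6 hc hT hT1 hw k2 hu with e | e | ⟨e1, e2⟩ | ⟨X', e1, e2, -⟩
    · exact absurd e k3
    · exact absurd e k0
    swap
    · exact absurd (k.sub hc hT hT1 hw hx e1 e2).1 (k' x y hx _)
    by_contra k4
    have p3 := hT.mono3 ((sdiff_subset.trans sdiff_subset).trans hT1) (sdiff_nonempty.2 k4)
    have p4 : G.cut ((X1 \ X0) \ S) ⊆ G.cut S \ {u, w} := fun e he => by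
      have q1 := TY1_out sdiff_subset k2 he
      have q2 := mem_union.1 (cut_sdiff_sub he)
      have q3 : e ≠ u := fun k => q1.2 (k ▸ e1) (k ▸ hw.mem.2.2.1)
      have q4 : e ≠ w := fun k => q1.2 (k ▸ e2) (k ▸ hw.mem.2.2.2)
      have q5 : e ≠ x := fun k => q1.1 (k ▸ p1)
      have q6 : e ≠ y := fun k => q1.1 (k ▸ p2)
      rw [Spl_mem (Spl_q4 hw k hx)] at q2
      simp only [mem_sdiff, mem_insert, mem_singleton]
      (clear * - h2 q1 q2 q3 q4 q5 q6; tauto)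
    have p5 := card_le_card p4
    rw [card_sdiff_of_subset (insert_subset e1 (singleton_subset_iff.2 e2)), hu.1,
      card_pair hw.2.2.2.2.2.2] at p5
    omega
  have k3 : X1 ≠ N := fun e => k2 (e ▸ hS)
  have k := h.sp.resolve_left k3
  obtain ⟨q1, d2⟩ := h2 k3
  obtain ⟨p1, p2, -⟩ := cross_link hc hT hN hq k hw hS hu k2 k1
  by_cases k4 : X1 ⊆ S
  · exact sdiff_subset.trans k4
  have i1 : ∀ e ∈ G.ins S, e ∈ G.cut X1 → G.ie X1 e ∈ S ∩ X1 := fun e he he' =>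
    mem_inter.2 ⟨TY1_at he ie_at, Spl_ie he'⟩
  have i2 : ∀ e ∈ G.ins S, e ∈ G.cut (N \ X1) → G.ie (N \ X1) e ∈ S \ (S ∩ X1) :=
    fun e he he' => mem_sdiff.2 ⟨TY1_at he ie_at, fun k =>
      (mem_sdiff.1 (Spl_ie he')).2 (mem_inter.1 k).2⟩
  have c1 := hT.four (hS.trans hN) (X := S ∩ X1)
    ⟨inter_subset_left, fun e => k2 (e.trans inter_subset_right)⟩
    (one_lt_card.2 ⟨_, i1 u p1 hw.mem.2.2.1, _, i1 w p2 hw.mem.2.2.2, d1⟩)
  have c2 := hT.four (hS.trans hN) (X := S \ (S ∩ X1))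
    (sdiff_ssubset inter_subset_left ⟨_, i1 u p1 hw.mem.2.2.1⟩)
    (one_lt_card.2 ⟨_, i2 u p1 q1.mem.1, _, i2 w p2 q1.mem.2.1, d2⟩)
  have c3 := cut_add (G := G) (inter_subset_left (s₁ := S) (s₂ := X1))
  have c4 := card_le_card ((TY1_crs hS).trans (k.link hc hT hN hq hw).2.2.2.2.2.2.le)
  rw [card_pair hw.2.2.2.2.2.2] at c4
  rw [hu.1] at c3
  have s1 := (Spl_sp_of hT hT1 (X := S ∩ X1)
    ⟨inter_subset_right, fun e => k4 (e.trans inter_subset_left)⟩ hw.card (by omega)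
    hw.2.2.2.2.2.2
    ⟨(Spl_cut_of inter_subset_right hw.mem.2.2.1 (i1 u p1 hw.mem.2.2.1)).1, hw.mem.2.2.1⟩
    ⟨(Spl_cut_of inter_subset_right hw.mem.2.2.2 (i1 w p2 hw.mem.2.2.2)).1, hw.mem.2.2.2⟩).compl
    hw.flip
  have s2 := hd_bal hc hT hN hq h (k.trans s1)
    (not_not.1 fun e => (Spl_ss s1).2 (h.min _ (k.trans s1) e))
  intro v hv
  by_contra e
  exact (mem_sdiff.1 hv).2 (s2 (mem_sdiff.2 ⟨(mem_sdiff.1 hv).1, fun k => e (mem_inter.1 k).1⟩))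

theorem cross_nc (hc : G.Cub) (hT : G.HT T) (hN : N ⊆ T) (hq : G.Q4 N a b c d)
    (h : G.Sp N a b X) (h4 : N.card ≠ 4) :
    G.NC N a c ∧ G.NC N a d ∧ G.NC N c b ∧ G.NC N d b := by
  exact ⟨fun _ k => h4 (TY1_four hc hT hN hq h k), fun _ k => h4 (TY1_four hc hT hN hq.swap2 h k),
    fun _ k => h4 (TY1_four hc hT hN hq.swap1 h.symm k.symm),
    fun _ k => h4 (TY1_four hc hT hN hq.swap1.swap2 h.symm k.symm)⟩

/-- a side that is not a chain is passed completely -/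
theorem Rg.eq_of_nc (hc : G.Cub) (hT : G.HT T) (hN : N ⊆ T) (hu : G.US N) (hq : G.Q4 N a b c d)
    (h : G.Rg N X c d) (hn : G.NC N a b) : X = N := by
  have := hT.us_card hc hN hu
  by_contra k
  exact hn X (h.sp hc hT hN hq (by omega) k).1

/-- two proper parts coincide -/
theorem Rg.uniq {X' : Finset V} (h : G.Rg N X c d) (h' : G.Rg N X' c d) (h1 : X ≠ N)
    (h2 : X' ≠ N) : X = X' := by
  obtain ⟨p1, p2, -⟩ := h.resolve_left h1
  obtain ⟨q1, q2, -⟩ := h'.resolve_left h2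
  rw [← Finset.sdiff_sdiff_eq_self p1, p2, ← q2, Finset.sdiff_sdiff_eq_self q1]

end SG

end Pool.Agent.Work.MP_8c679b_co
end

-- merged part: Pool.Agent.Work.MP_8c679b_co.Key.TY2b
section
/-!
Elementary passes: balanced double passes, four-cycles, sweeps.

Hints.  `bdp`: `link_chord` gives two disjoint paths; `pure_p` twice, `dq_par`, then `finq` with
`HT.abs_bal` for the rest (see `hdp` in `Six/KBp.lean`); `Pp.par` gives the parity.
`dp_plus`: `HT.qst`; the two matchings `e1, e3` and `e4, e2` have different total signs.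
`q_real`: diagonal pair: the two arcs from `a` to `b` have different signs; absorb the fourth
vertex first (`finp`, `vtx_abs`); the only target is `G.cut N` (`HT.kus4`) and contains a dead edge.
Adjacent pair: the edge itself (`X = ` the rung at `a, b`, no target) and the long arc (`X = N`).
`tl2`: copy the proof of `tlp` in `Six/KSw.lean` (`swp` with `kb`, `sw_cov`, `Abs0.seqP`);
`St.par_bal` gives `δ = 0`; for the version with tolerance a target `G.cut S` with `v ∉ S` that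
contains a member `G.cut S'` of `G.Kus X1` equals it, so `S' = S` (`cut_inj`).
-/

set_option autoImplicit false

namespace Pool.Agent.Work.MP_8c679b_co

open Finset

namespace SG

variable {V E : Type} [Fintype V] [DecidableEq V] [DecidableEq E] {G : SG V E}
  {T N S X X0 X1 : Finset V} {a b c d x y : E} {p : V → ZMod 2}

/-- a pass along a balanced connected set, with its own parity as sign -/
theorem TY2b_pass {P : Finset E} (hX : X ⊆ N) (ha : a ∈ G.cut N) (hb : b ∈ G.cut N) (hab : a ≠ b)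
    (h : G.Pp X P (G.ie N a) (G.ie N b)) (hp : ∀ e ∈ P, G.sw p e = 0) :
    ∃ O, G.par (O ∩ G.ins X) = G.par P ∧ G.Pas0 X O a b ∅ ∅ (Rl.P (G.par P)) := by
  obtain ⟨ca, ja⟩ := (Node_in hX ha).1 h.2.2.2.1
  obtain ⟨cb, jb⟩ := (Node_in hX hb).1 h.2.2.2.2
  rw [← ja, ← jb] at h
  refine ⟨insert a (insert b P), by rw [(h.st ca cb hab).2], ?_⟩
  rw [h.par hp]
  exact pure_p h ca cb hab hp

/-- the only target of a four-cycle contains the dead edge `c` -/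
theorem TY2b_cov {O : Finset E} {C : Rl → Prop} (hc : G.Cub) (hT : G.HT T) (hN : N ⊆ T)
    (hq : G.Q4 N a b c d) (h4 : N.card = 4) (h : G.Pas0 N O a b ∅ ∅ C) :
    G.Pas0 N O a b ∅ (G.Kp N N c d) C := by
  refine h.cov fun t ht => Or.inr ?_
  obtain ⟨-, -, hc', -⟩ := hq.mem
  rw [hT.kus4 hc hN h4 t ht.1]
  refine ⟨c, hc', cut_sub_tch hc', fun k => ?_⟩
  rcases h.cut.2.2.2.2 c hc' k with r | r
  exacts [hq.2.2.1 r.symm, hq.2.2.2.2.1 r.symm]

omit [Fintype V] in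
theorem TY2b_swap {s π : ZMod 2} (h : G.Qr N X a b c d s π) : G.Qr N X a b d c s π := by
  have : G.Kp N X d c = G.Kp N X c d := by
    ext t
    simp only [Kp, Set.mem_ofPred_eq]
    exact and_congr_right fun _ => or_congr_right or_comm
  unfold Qr
  rw [this]
  exact h

/-- the arc with two edges through the terminal of `c` -/
theorem TY2b_arc {u v z w : V} {e1 e2 : E} (hc : G.Cub) (hT : G.HT T) (hN : N ⊆ T)
    (hq : G.Q4 N a b c d) (ia : G.ie N a = u) (ib : G.ie N b = v) (ic : G.ie N c = z)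
    (d1 : u ≠ v) (d2 : u ≠ z) (d3 : u ≠ w) (d4 : v ≠ z) (d5 : v ≠ w) (d6 : z ≠ w)
    (hS : N = {u, v, z, w}) (m1 : e1 ∈ G.A) (m2 : e2 ∈ G.A) (j1 : G.Je e1 u z)
    (j2 : G.Je e2 z v) : ∃ O, G.par (O ∩ G.ins N) = G.n e1 + G.n e2 ∧
      G.Pas0 N O a b ∅ ∅ (Rl.P (G.n e1 + G.n e2)) := by
  obtain ⟨ha, hb, -, -⟩ := hq.mem
  have hU : {u, v, z} ⊆ N := by simp [hS, insert_subset_iff]
  have hw : N \ {u, v, z} = {w} := by
    ext r
    simp only [hS, mem_sdiff, mem_insert, mem_singleton, not_or]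
    constructor
    · rintro ⟨r1 | r1 | r1 | r1, r2, r3, r4⟩
      exacts [(r2 r1).elim, (r3 r1).elim, (r4 r1).elim, r1]
    · rintro rfl
      exact ⟨Or.inr (Or.inr (Or.inr rfl)), d3.symm, d5.symm, d6.symm⟩
  have n12 : e1 ≠ e2 := Cut_je_ne j1 j2 d2 d1
  have hp : G.Pp {u, v, z} {e1, e2} (G.ie N a) (G.ie N b) := by
    rw [ia, ib]
    refine ⟨insert_subset (Cut_je_ins m1 j1 (by simp) (by simp))
      (singleton_subset_iff.2 (Cut_je_ins m2 j2 (by simp) (by simp))), cn_of_base (a := z) ?_, ?_,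
      by simp, by simp⟩
    · simp only [mem_insert, mem_singleton, forall_eq_or_imp, forall_eq]
      exact ⟨.single ⟨e1, by simp, j1.symm⟩, .single ⟨e2, by simp, j2⟩, Rch.refl _ _⟩
    · rw [insert_eq]
      exact (od_edge j1).union (od_edge j2) (disjoint_singleton.2 n12)
  obtain ⟨q, p1, p2, p3⟩ : ∃ q : V → ZMod 2, q u = G.n e1 ∧ q v = G.n e2 ∧ q z = 0 :=
    ⟨fun t => if t = u then G.n e1 else if t = v then G.n e2 else 0, by simp, by simp [d1.symm],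
      by simp [d2.symm, d4.symm]⟩
  have s1 : G.sw q e1 = 0 := by rw [Node_sw j1, p1, p3, z2_add_self, add_zero]
  have s2 : G.sw q e2 = 0 := by rw [Node_sw j2, p2, p3, add_zero, z2_add_self]
  obtain ⟨O, h1, h2⟩ := TY2b_pass (p := q) hU ha hb hq.2.1 hp (by simp [s1, s2])
  rw [show G.par {e1, e2} = G.n e1 + G.n e2 from sum_pair n12] at h1 h2
  obtain ⟨v3, v0, -⟩ := hT.vtx hc (hN (show w ∈ N by simp [hS]))
  have k := finp (O' := ∅) (K' := ∅) (K0 := ∅) h2 hU ha hb (empty_subset _)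
    (by rw [hw]; exact vtx_abs v0 v3) d
    (fun e r1 r2 => Or.inr (hq.dead (by simp [ia]) (by simp [ib]) (by simp [ic]) e r1 r2))
    fun t ht => absurd ht (Set.notMem_empty t)
  refine ⟨_, ?_, k.1⟩
  rw [k.2, h1, par, sum_empty, zero_add]

/-- the case in which the terminals of `a` and `b` are adjacent -/
theorem TY2b_adj (hc : G.Cub) (hT : G.HT T) (hN : N ⊆ T) (hu : G.US N) (hq : G.Q4 N a b c d)
    (hd : G.Qd N a c) : ∃ X : ZMod 2 → Finset V,
      (∀ s, G.Rg N (X s) c d ∧ G.Qr N (X s) a b c d s s) ∧ ∃ s, X s = N := by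
  obtain ⟨u, z, v, w, e1, e2, e3, e4, ia, ic, ib, id, d1, d2, d3, d4, d5, d6, hS, hi, j1, j2, j3,
    j4, hn⟩ := Node_q hc hT hN hu hq.mid hd
  obtain ⟨ha, hb, hc', hd'⟩ := hq.mem
  obtain ⟨m1, m2, m3, m4⟩ : e1 ∈ G.A ∧ e2 ∈ G.A ∧ e3 ∈ G.A ∧ e4 ∈ G.A := by
    simpa [hi, insert_subset_iff] using ins_sub_A (G := G) (W := N)
  have hU : {u, v} ⊆ N := by simp [hS, insert_subset_iff]
  have hne : ({u, v} : Finset V) ≠ N := fun k => by
    have : z ∈ ({u, v} : Finset V) := by rw [k, hS]; simp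
    simp [d1.symm, d4] at this
  have short : G.Rg N {u, v} c d ∧ G.Qr N {u, v} a b c d (G.n e1) (G.n e1) := by
    refine ⟨Or.inr ⟨hU, ?_, ?_, ?_⟩, ?_⟩
    · rw [ic, id]
      ext r
      simp only [hS, mem_sdiff, mem_insert, mem_singleton, not_or]
      constructor
      · rintro ⟨r1 | r1 | r1 | r1, r2, r3⟩
        exacts [(r2 r1).elim, Or.inl r1, (r3 r1).elim, Or.inr r1]
      · rintro (rfl | rfl)
        exacts [⟨Or.inr (Or.inl rfl), d1.symm, d4⟩,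
          ⟨Or.inr (Or.inr (Or.inr rfl)), d3.symm, d6.symm⟩]
    · rw [Dv, ic, id]
      exact d5
    · rw [ic, id]
      exact ⟨e3, m3, j3⟩
    · obtain ⟨O, h1, h2⟩ := TY2b_pass (P := {e1}) (p := fun t => if t = u then G.n e1 else 0) hU ha
        hb hq.2.1 (by rw [ia, ib]; exact Node_edge m1 j1)
        (by simp [Node_sw j1, d2.symm, z2_add_self])
      rw [show G.par {e1} = G.n e1 from sum_singleton _ _] at h1 h2
      refine ⟨O, h1, h2.cov fun t ht => ?_⟩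
      obtain ⟨t1, t2⟩ := ht
      rw [hT.kus4 hc hN hd.1 t t1] at t2
      rcases t2 with r | r | r
      exacts [(hne r).elim, (r hc').elim, (r hd').elim]
  have long : G.Qr N N a b c d (G.n e1 + 1) (G.n e1 + 1) := by
    have n43 : e4 ≠ e3 := Cut_je_ne j4.symm j3 d1 d3
    have n42 : e4 ≠ e2 := Cut_je_ne j4.symm j2 d2 d1
    have n32 : e3 ≠ e2 := Cut_je_ne j3.symm j2 d6.symm d5.symm
    have hp : G.Pp N {e4, e3, e2} (G.ie N a) (G.ie N b) := by
      rw [ia, ib]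
      refine ⟨by simp [hi, insert_subset_iff], cn_of_base (a := z) ?_, ?_, by simp [hS],
        by simp [hS]⟩
      · have r3 : G.Rch {e4, e3, e2} z w := .single ⟨e3, by simp, j3⟩
        simp only [hS, mem_insert, mem_singleton, forall_eq_or_imp, forall_eq]
        exact ⟨r3.trans (.single ⟨e4, by simp, j4⟩), Rch.refl _ _,
          .single ⟨e2, by simp, j2.symm⟩, r3⟩
      · rw [insert_eq, insert_eq]
        exact (od_edge j4.symm).union ((od_edge j3.symm).union (od_edge j2.symm)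
          (disjoint_singleton.2 n32)) (by simp [n43, n42])
    obtain ⟨q, p1, p2, p3, p4⟩ : ∃ q : V → ZMod 2,
        q u = G.n e4 + G.n e3 ∧ q v = G.n e2 ∧ q w = G.n e3 ∧ q z = 0 :=
      ⟨fun t => if t = u then G.n e4 + G.n e3 else if t = v then G.n e2 else
        if t = w then G.n e3 else 0, by simp, by simp [d2.symm], by simp [d3.symm, d6.symm],
        by simp [d1.symm, d4, d5]⟩
    have s2 : G.sw q e2 = 0 := by rw [Node_sw j2, p2, p4, z2_add_self, add_zero]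
    have s3 : G.sw q e3 = 0 := by rw [Node_sw j3, p3, p4, add_zero, z2_add_self]
    have s4 : G.sw q e4 = 0 := by rw [Node_sw j4, p3, p1, z2_add_self]
    obtain ⟨O, h1, h2⟩ := TY2b_pass (p := q) Subset.rfl ha hb hq.2.1 hp (by simp [s2, s3, s4])
    have hs : G.par {e4, e3, e2} = G.n e1 + 1 := by
      rw [par, sum_insert (by simp [n43, n42]), sum_pair n32, ← hn]
      linear_combination -z2_add_self (G.n e1)
    rw [hs] at h1 h2
    exact ⟨O, h1, TY2b_cov hc hT hN hq hd.1 h2⟩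
  have hz : ∀ s t : ZMod 2, s ≠ t → s = t + 1 := by decide
  refine ⟨fun s => if s = G.n e1 then {u, v} else N, fun s => ?_, G.n e1 + 1, if_neg (by simp)⟩
  by_cases r : s = G.n e1
  · simp only [if_pos r]
    rw [r]
    exact short
  · simp only [if_neg r]
    rw [hz _ _ r]
    exact ⟨Or.inl rfl, long⟩

theorem q_real (hc : G.Cub) (hT : G.HT T) (hN : N ⊆ T) (hu : G.US N) (hq : G.Q4 N a b c d)
    (h4 : N.card = 4) : ∃ X : ZMod 2 → Finset V,
      (∀ s, G.Rg N (X s) c d ∧ G.Qr N (X s) a b c d s s) ∧ ∃ s, X s = N := by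
  by_cases hd : G.Qd N a b
  · obtain ⟨u, v, z, w, e1, e2, e3, e4, ia, ib, ic, id, d1, d2, d3, d4, d5, d6, hS, hi, j1, j2, j3,
      j4, hn⟩ := Node_q hc hT hN hu hq hd
    obtain ⟨m1, m2, m3, m4⟩ : e1 ∈ G.A ∧ e2 ∈ G.A ∧ e3 ∈ G.A ∧ e4 ∈ G.A := by
      simpa [hi, insert_subset_iff] using ins_sub_A (G := G) (W := N)
    obtain ⟨O1, h1, h2⟩ := TY2b_arc hc hT hN hq ia ib ic d1 d2 d3 d4 d5 d6 hS m1 m2 j1 j2
    obtain ⟨O2, h3, h5⟩ := TY2b_arc hc hT hN hq.swap2 ia ib id d1 d3 d2 d5 d4 d6.symm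
      (by rw [hS, pair_comm z w]) m4 m3 j4.symm j3.symm
    have hz : ∀ s x1 x2 x3 x4 : ZMod 2, x1 + x2 + x3 + x4 = 1 → s = x1 + x2 ∨ s = x4 + x3 := by
      decide
    refine ⟨fun _ => N, fun s => ⟨Or.inl rfl, ?_⟩, 0, rfl⟩
    rcases hz s _ _ _ _ hn with rfl | rfl
    exacts [⟨O1, h1, TY2b_cov hc hT hN hq h4 h2⟩, ⟨O2, h3, TY2b_cov hc hT hN hq h4 h5⟩]
  by_cases hd1 : G.Qd N a c
  · exact TY2b_adj hc hT hN hu hq hd1
  by_cases hd2 : G.Qd N a d
  · obtain ⟨X, h1, h2⟩ := TY2b_adj hc hT hN hu hq.swap2 hd2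
    exact ⟨X, fun s => ⟨(h1 s).1.swap, TY2b_swap (h1 s).2⟩, h2⟩
  exfalso
  obtain ⟨e1, m1, j1⟩ : G.Adj G.A (G.ie N a) (G.ie N b) := by_contra fun k => hd ⟨h4, k⟩
  obtain ⟨e2, m2, j2⟩ : G.Adj G.A (G.ie N a) (G.ie N c) := by_contra fun k => hd1 ⟨h4, k⟩
  obtain ⟨e3, m3, j3⟩ : G.Adj G.A (G.ie N a) (G.ie N d) := by_contra fun k => hd2 ⟨h4, k⟩
  obtain ⟨ha, hb, hc', hd'⟩ := hq.mem
  obtain ⟨-, q1, q2, q3, q4, q5, q6⟩ := hq
  have dv : ∀ e ∈ G.cut N, ∀ f ∈ G.cut N, e ≠ f → G.ie N e ≠ G.ie N f := fun e he f hf x =>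
    hT.f2 hc hN hu.1 (by rw [h4]; decide) he hf x
  have im : ∀ e ∈ G.cut N, G.ie N e ∈ N := fun e he => ie_mem (cut_sub_tch he)
  have nc : ∀ e ∈ G.cut N, ∀ f ∈ G.A, G.Je f (G.ie N a) (G.ie N e) → a ≠ f := fun e he f hf j k =>
    not_ins_of_cut ha (k ▸ Cut_je_ins hf j (im a ha) (im e he))
  have ct : ∀ e ∈ G.cut N, a ≠ e → ∀ f ∈ G.A, G.Je f (G.ie N a) (G.ie N e) →
      f ∈ G.cut {G.ie N a} := fun e he k f hf j =>
    (Node_cut hf j (mem_singleton_self _) (by simpa using (dv a ha e he k).symm)).1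
  have hsub : {a, e1, e2, e3} ⊆ G.cut {G.ie N a} :=
    insert_subset (mem_inter.1 (Cut_ie ha rfl)).1 (insert_subset (ct b hb q1 e1 m1 j1)
      (insert_subset (ct c hc' q2 e2 m2 j2) (singleton_subset_iff.2 (ct d hd' q3 e3 m3 j3))))
  have n12 : e1 ≠ e2 := Cut_je_ne (Or.symm j1) j2 (dv a ha b hb q1).symm (dv b hb c hc' q4)
  have n13 : e1 ≠ e3 := Cut_je_ne (Or.symm j1) j3 (dv a ha b hb q1).symm (dv b hb d hd' q5)
  have n23 : e2 ≠ e3 := Cut_je_ne (Or.symm j2) j3 (dv a ha c hc' q2).symm (dv c hc' d hd' q6)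
  have k := card_le_card hsub
  rw [(hT.vtx hc (hN (im a ha))).1, card_insert_of_notMem (by
      simp [nc b hb e1 m1 j1, nc c hc' e2 m2 j2, nc d hd' e3 m3 j3]),
    card_insert_of_notMem (by simp [n12, n13]), card_pair n23] at k
  omega

end SG

end Pool.Agent.Work.MP_8c679b_co
end
end

-- merged part: Pool.Agent.Work.MP_8c679b_co.Top.PRing
section
-- merged part: Pool.Agent.Work.MP_8c679b_co.Top.TPass
section
/-!
Passing and absorbing a three-side with frustration at least two.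
-/

set_option autoImplicit false

namespace Pool.Agent.Work.MP_8c679b_co

open Finset

namespace SG

variable {V E : Type} [Fintype V] [DecidableEq V] [DecidableEq E] {G : SG V E}
  {T : Finset V} {L : Finset E} {a b c x y : E}

omit [Fintype V] in
theorem TPass_th1 {u v w1 w2 w3 : V} {f1 f2 g1 g2 h1 h2 : E}
    (hs : G.ins T ⊆ {f1, f2, g1, g2, h1, h2}) (j1 : G.Je f1 u w1) (j2 : G.Je f2 w1 v)
    (j4 : G.Je g2 w2 v) (j5 : G.Je h1 u w3) (j6 : G.Je h2 w3 v) (d1 : u ≠ v) (d2 : u ≠ w1)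
    (d3 : u ≠ w2) (d4 : u ≠ w3) (d5 : v ≠ w1) (d6 : v ≠ w2) (d7 : v ≠ w3) (d8 : w1 ≠ w2)
    (d9 : w1 ≠ w3) (d10 : w2 ≠ w3) (hn : G.n f1 + G.n f2 = G.n h1 + G.n h2) : ¬ G.F2 T := by
  refine fun h => h g1 ⟨fun z => if z = w1 then G.n f1 else if z = v then G.n f1 + G.n f2
    else if z = w3 then G.n h1 else if z = w2 then G.n f1 + G.n f2 + G.n g2 else 0, fun e he => ?_⟩
  obtain ⟨k1, k2⟩ := mem_erase.1 he
  have k3 := hs k2
  simp only [mem_insert, mem_singleton] at k3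
  rcases k3 with rfl | rfl | rfl | rfl | rfl | rfl
  · simp [Cut_sw j1, d1, d2, d3, d4, z2_add_self]
  · simp only [Cut_sw j2, d5, if_true, if_false]
    linear_combination z2_add_self (G.n f1) + z2_add_self (G.n e)
  · exact absurd rfl k1
  · simp only [Cut_sw j4, d5, d6.symm, d8.symm, d10, if_true, if_false]
    linear_combination z2_add_self (G.n f1) + z2_add_self (G.n f2) + z2_add_self (G.n e)
  · simp [Cut_sw j5, d1, d2, d3, d4, d7.symm, d9.symm, z2_add_self]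
  · simp only [Cut_sw j6, d5, d7.symm, d9.symm, if_true, if_false]
    linear_combination hn + z2_add_self (G.n h1) + z2_add_self (G.n e)

omit [Fintype V] in
/-- three paths of length two -/
theorem TPass_th {u v w1 w2 w3 : V} {f1 f2 g1 g2 h1 h2 : E}
    (hs : G.ins T ⊆ {f1, f2, g1, g2, h1, h2}) (j1 : G.Je f1 u w1) (j2 : G.Je f2 w1 v)
    (j3 : G.Je g1 u w2) (j4 : G.Je g2 w2 v) (j5 : G.Je h1 u w3) (j6 : G.Je h2 w3 v) (d1 : u ≠ v)
    (d2 : u ≠ w1) (d3 : u ≠ w2) (d4 : u ≠ w3) (d5 : v ≠ w1) (d6 : v ≠ w2) (d7 : v ≠ w3)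
    (d8 : w1 ≠ w2) (d9 : w1 ≠ w3) (d10 : w2 ≠ w3) : ¬ G.F2 T := by
  have k : ∀ p q r : ZMod 2, p = r ∨ q = r ∨ p = q := by decide
  rcases k (G.n f1 + G.n f2) (G.n g1 + G.n g2) (G.n h1 + G.n h2) with k | k | k
  · exact TPass_th1 hs j1 j2 j4 j5 j6 d1 d2 d3 d4 d5 d6 d7 d8 d9 d10 k
  · refine TPass_th1 (g1 := f1) (hs.trans fun e he => ?_) j3 j4 j2 j5 j6 d1 d3 d2 d4 d6 d5 d7
      d8.symm d10 d9 k
    simp only [mem_insert, mem_singleton] at he ⊢
    clear * - he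
    tauto
  · refine TPass_th1 (g1 := h1) (hs.trans fun e he => ?_) j1 j2 j6 j3 j4 d1 d2 d4 d3 d5 d7 d6
      d9 d8 d10.symm k
    simp only [mem_insert, mem_singleton] at he ⊢
    clear * - he
    tauto

/-- the side that remains when a terminal is removed -/
theorem t_side (hc : G.Cub) (hT : G.T3 T) (hF : G.F2 T) (hq : G.Q3 T a b c) :
    ∃ x y, G.Q3 {G.ie T c} x y c ∧ G.Q4 (T \ {G.ie T c}) a b x y ∧ G.US (T \ {G.ie T c}) ∧
      G.NC (T \ {G.ie T c}) a b ∧ G.NC (T \ {G.ie T c}) x y ∧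
      ¬ G.Qd (T \ {G.ie T c}) a b ∧ ¬ G.Qd (T \ {G.ie T c}) x y := by
  obtain ⟨ht, h3, hu⟩ := hT
  obtain ⟨q0, n1, n2, n3⟩ := hq
  obtain ⟨ma, mb, mc⟩ : a ∈ G.cut T ∧ b ∈ G.cut T ∧ c ∈ G.cut T := by simp [q0]
  have htm : G.ie T c ∈ T := ie_mem (cut_sub_tch mc)
  have hs1 : {G.ie T c} ⊆ T := singleton_subset_iff.2 htm
  obtain ⟨v1, v2, v3⟩ := ht.vtx hc htm
  have h1 : 1 < T.card := by
    by_contra k
    have k1 : T = {G.ie T c} := (eq_of_subset_of_card_le hs1 (by rw [card_singleton]; omega)).symm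
    refine hu ?_
    rw [k1, v2]
    exact ⟨0, fun _ h => absurd h (notMem_empty _)⟩
  have da := ht.f2' hc h3 h1 ma mc n2
  have db := ht.f2' hc h3 h1 mb mc n3
  generalize hv : G.ie T c = t at *
  have cc : c ∈ G.cut {t} := (cut_of_sub hs1 mc (Cut_tch (mem_cut.1 mc).1 (hv ▸ ie_at)
    (mem_singleton_self t))).1
  obtain ⟨x, y, hxy, hR⟩ : ∃ x y, x ≠ y ∧ (G.cut {t}).erase c = {x, y} :=
    card_eq_two.1 (by rw [card_erase_of_mem cc, v1])
  have mx : x ∈ (G.cut {t}).erase c := by simp [hR]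
  have my : y ∈ (G.cut {t}).erase c := by simp [hR]
  obtain ⟨xc, mx⟩ := mem_erase.1 mx
  obtain ⟨yc, my⟩ := mem_erase.1 my
  have q1 : G.cut {t} = {x, y, c} := by
    rw [← insert_erase cc, hR]
    ext e
    simp only [mem_insert, mem_singleton]
    exact or_rotate
  have nt : ∀ e ∈ G.cut T, e ≠ c → e ∉ G.cut {t} := fun e he hec k => by
    have k1 := (cut_of_sub hs1 he (cut_sub_tch k)).2
    have k2 : G.ie T e = t := k1 ▸ mem_singleton.1 (ie_mem (cut_sub_tch k))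
    rw [q0] at he
    simp only [mem_insert, mem_singleton] at he
    rcases he with rfl | rfl | rfl
    exacts [da (k2.trans hv.symm), db (k2.trans hv.symm), hec rfl]
  have cS : ∀ e, e ∈ G.cut (T \ {t}) ↔ (e ∈ G.cut T ↔ e ∉ G.cut {t}) := fun e => by
    simp only [mem_cut, mem_sdiff, mem_singleton]
    have k1 : G.s e = t → G.s e ∈ T := fun k => k ▸ htm
    have k2 : G.t e = t → G.t e ∈ T := fun k => k ▸ htm
    by_cases k : e ∈ G.A
    · clear * - k k1 k2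
      (clear * - k k1 k2; grind)
    · simp [k]
  have xT : x ∉ G.cut T := fun k => nt x k xc mx
  have yT : y ∉ G.cut T := fun k => nt y k yc my
  have ax : a ≠ x := fun k => xT (k ▸ ma)
  have ay : a ≠ y := fun k => yT (k ▸ ma)
  have bx : b ≠ x := fun k => xT (k ▸ mb)
  have by' : b ≠ y := fun k => yT (k ▸ mb)
  have q4 : G.Q4 (T \ {t}) a b x y := by
    refine ⟨?_, n1, ax, ay, bx, by', hxy⟩
    ext e
    rw [cS, q0, q1]
    simp only [mem_insert, mem_singleton]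
    constructor
    · intro k
      by_cases k1 : e = c
      · simp [k1] at k
      · clear * - k k1
        tauto
    · rintro (rfl | rfl | rfl | rfl)
      · simp [ax, ay, n2]
      · simp [bx, by', n3]
      · simp [ax.symm, bx.symm, xc]
      · simp [ay.symm, by'.symm, yc]
  have hS : T \ {t} ⊆ T := sdiff_subset
  obtain ⟨-, -, sx, sy⟩ := q4.mem
  have lk : ∀ e ∈ G.cut (T \ {t}), e ∈ G.cut {t} → G.Je e (G.ie (T \ {t}) e) t := fun e k1 k2 => by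
    have k3 := (ie_link sdiff_disjoint k1 k2).1
    have k4 : G.ie {t} e = t := mem_singleton.1 (ie_mem (cut_sub_tch k2))
    have k5 := je_ie_oe (G := G) (X := T \ {t}) (e := e)
    rwa [← k3, k4] at k5
  have jx := lk x sx mx
  have jy := lk y sy my
  have iT : ∀ e ∈ G.ins T, e ∈ G.ins (T \ {t}) ∨ e = x ∨ e = y := fun e he => by
    by_cases k : e ∈ G.cut {t}
    · rw [q1] at k
      simp only [mem_insert, mem_singleton] at k
      exact Or.inr (k.imp_right fun k1 => k1.resolve_right fun k2 => not_ins_of_cut mc (k2 ▸ he))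
    · rw [← v3, mem_tch] at k
      simp only [mem_singleton, not_and, not_or] at k
      obtain ⟨k1, k2, k3⟩ := mem_ins.1 he
      exact Or.inl (mem_ins.2 ⟨k1, mem_sdiff.2 ⟨k2, by simpa using (k k1).1⟩,
        mem_sdiff.2 ⟨k3, by simpa using (k k1).2⟩⟩)
  have nS : ∀ v ∈ T \ {t}, v ≠ t := fun v k => by simpa using (mem_sdiff.1 k).2
  have us : G.US (T \ {t}) := by
    refine ⟨q4.card, fun ⟨p, hp⟩ => hF x ⟨fun v => if v = t then G.n y + p (G.ie (T \ {t}) y)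
      else p v, fun e he => ?_⟩⟩
    obtain ⟨k1, k2⟩ := mem_erase.1 he
    rcases iT e k2 with k | k | rfl
    · have := hp e k
      rw [sw] at this ⊢
      rwa [if_neg (nS _ (mem_ins.1 k).2.1), if_neg (nS _ (mem_ins.1 k).2.2)]
    · exact absurd k k1
    · rw [Cut_sw jy, if_neg (nS _ (ie_mem (cut_sub_tch sy))), if_pos rfl]
      linear_combination z2_add_self (G.n e) + z2_add_self (p (G.ie (T \ {t}) e))
  have nc : G.NC (T \ {t}) a b := by
    rintro X ⟨k1, k2, k3⟩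
    have k4 := cut_add (G := G) (k1.trans hS)
    have k5 : G.cut X \ G.cut T = G.cut X \ {a, b} := by
      ext e
      simp only [mem_sdiff]
      refine and_congr_right fun he => not_congr ⟨fun k => ?_, fun k => ?_⟩
      · rw [← k3]
        refine mem_inter.2 ⟨he, (cut_of_sub hS k (tch_mono k1 (cut_sub_tch he))).1⟩
      · simp only [mem_insert, mem_singleton] at k
        rcases k with rfl | rfl <;> assumption
    have k6 : ({a, b} : Finset E) ⊆ G.cut X := k3 ▸ inter_subset_left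
    rw [crs_ins (k1.trans hS), k5, card_sdiff_of_subset k6, card_pair n1, k2, h3] at k4
    have k7 : t ∈ T \ X := mem_sdiff.2 ⟨htm, fun k => nS t (k1 k) rfl⟩
    rcases (ht (T \ X) sdiff_subset ⟨t, k7⟩).2 (by omega) with k8 | k8
    · obtain ⟨z, hz⟩ := card_eq_one.1 k8
      have k9 : X = T \ {t} := by
        rw [hz, mem_singleton] at k7
        rw [k7, ← hz, Finset.sdiff_sdiff_eq_self (k1.trans hS)]
      rw [k9, inter_self, q4.1] at k3
      have : x ∈ ({a, b} : Finset E) := k3 ▸ by simp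
      simp [ax.symm, bx.symm] at this
    · have k9 := ie_mem (cut_sub_tch (k6 (mem_insert_self _ _)))
      exact (mem_sdiff.1 (k8.ge (hS (k1 k9)))).2 k9
  have nc' : G.NC (T \ {t}) x y := by
    rintro X ⟨k1, k2, k3⟩
    have k4 := cut_add (G := G) k1
    rw [crs_ins k1, ← sdiff_inter_self_left (G.cut X), k3,
      card_sdiff_of_subset (k3 ▸ inter_subset_left), card_pair hxy, k2, q4.card] at k4
    refine nc ((T \ {t}) \ X) ⟨sdiff_subset, by omega, ?_⟩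
    ext e
    have k5 := Finset.ext_iff.1 k3 e
    have k6 := Finset.ext_iff.1 q4.1 e
    have k7 : e ∈ G.cut (T \ {t}) → (e ∈ G.cut ((T \ {t}) \ X) ↔ e ∉ G.cut X) := by
      have l1 := @k1 (G.s e)
      have l2 := @k1 (G.t e)
      generalize T \ {t} = S at l1 l2 ⊢
      simp only [mem_cut, mem_sdiff]
      clear * - l1 l2
      (clear * - l1 l2; grind)
    simp only [mem_inter, mem_insert, mem_singleton] at k5 k6 ⊢
    constructor
    · clear * - k5 k6 k7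
      (clear * - k5 k6 k7; grind)
    · rintro (rfl | rfl)
      · simp only [ax, ay, or_self, iff_false, true_or, iff_true] at k5 k6
        exact ⟨(k7 k6).2 fun k => k5 ⟨k, k6⟩, k6⟩
      · simp only [bx, by', or_self, iff_false, true_or, or_true, iff_true] at k5 k6
        exact ⟨(k7 k6).2 fun k => k5 ⟨k, k6⟩, k6⟩
  have h2 : 2 < (T \ {t}).card := lt_of_lt_of_le (by norm_num) (ht.us_card hc hS us)
  obtain ⟨sa, sb, -, -⟩ := q4.mem
  have f := fun e f k1 k2 k3 => ht.f2 (e := e) (f := f) hc hS q4.card h2 k1 k2 k3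
  have g := fun e (k : e ∈ G.cut (T \ {t})) => nS _ (ie_mem (cut_sub_tch k))
  refine ⟨x, y, ⟨q1, hxy, xc, yc⟩, q4, us, nc, nc', fun k => ?_, fun k => ?_⟩
  · obtain ⟨e1, e2, e3, e4, i1, -, j1, j2, j3, j4, -⟩ := ht.qst hc hS q4 k
    refine TPass_th (f1 := e1) (f2 := e4) (g1 := e2) (g2 := e3) (h1 := x) (h2 := y)
      (fun e he => ?_) (Or.symm j1) (Or.symm j4) j2 j3 jx (Or.symm jy) (f x y sx sy hxy)
      (f x a sx sa ax.symm) (f x b sx sb bx.symm) (g x sx) (f y a sy sa ay.symm)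
      (f y b sy sb by'.symm) (g y sy) (f a b sa sb n1) (g a sa) (g b sb) hF
    have := iT e he
    simp only [i1, mem_insert, mem_singleton] at this ⊢
    clear * - this
    tauto
  · obtain ⟨e1, e2, e3, e4, i1, -, j1, j2, j3, j4, -⟩ := ht.qst hc hS q4.flip k
    refine TPass_th (f1 := e1) (f2 := e2) (g1 := e4) (g2 := e3) (h1 := x) (h2 := y)
      (fun e he => ?_) j1 j2 (Or.symm j4) (Or.symm j3) jx (Or.symm jy) (f x y sx sy hxy)
      (f x a sx sa ax.symm) (f x b sx sb bx.symm) (g x sx) (f y a sy sa ay.symm)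
      (f y b sy sb by'.symm) (g y sy) (f a b sa sb n1) (g a sa) (g b sb) hF
    have := iT e he
    simp only [i1, mem_insert, mem_singleton] at this ⊢
    clear * - this
    tauto

/-- all targets of a three-side: the cuts of its unbalanced sides and, for every leaving edge of
`Z`, the two inner edges at its end -/
def Kt (G : SG V E) (T : Finset V) (Z : Finset E) : Set (Finset E) :=
  G.Kus T ∪ {t | ∃ e ∈ Z, e ∈ G.cut T ∧ t = G.cut {G.ie T e} \ {e}}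

/-- completing a pass of the side by the removed terminal -/
theorem TPass_fin (hc : G.Cub) (hT : G.T3 T) (hq : G.Q3 T a b c) {O : Finset E} {C : Rl → Prop}
    (q3 : G.Q3 {G.ie T c} x y c) (q4 : G.Q4 (T \ {G.ie T c}) a b x y)
    (h : G.Pas0 (T \ {G.ie T c}) O a b ∅ (G.Kus (T \ {G.ie T c})) C) :
    G.Pas0 T O a b L (G.Kt T (G.cut T)) C := by
  obtain ⟨q0, n1, n2, n3⟩ := hq
  obtain ⟨ma, mb, mc⟩ : a ∈ G.cut T ∧ b ∈ G.cut T ∧ c ∈ G.cut T := by simp [q0]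
  have htm : G.ie T c ∈ T := ie_mem (cut_sub_tch mc)
  have hs1 : {G.ie T c} ⊆ T := singleton_subset_iff.2 htm
  obtain ⟨v1, v2, v3⟩ := hT.1.vtx hc htm
  have e1 : T \ (T \ {G.ie T c}) = {G.ie T c} := Finset.sdiff_sdiff_eq_self hs1
  have cc : c ∈ G.cut {G.ie T c} := by simp [q3.1]
  have k := (finp (W := T) (K0 := G.Kus T ∪ {G.cut {G.ie T c} \ {c}}) h sdiff_subset ma mb
    (empty_subset _) (O' := ∅) (K' := ∅) (by rw [e1]; exact vtx_abs v2 v1) c
    (fun e k1 k2 => Or.inr (by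
      rw [e1, v3, q3.1] at k2
      simp only [mem_insert, mem_singleton] at k2
      obtain ⟨-, -, sx, sy⟩ := q4.mem
      have cx : x ∈ G.cut {G.ie T c} := by simp [q3.1]
      have cy : y ∈ G.cut {G.ie T c} := by simp [q3.1]
      rcases k2 with rfl | rfl | rfl
      · have := (ie_link sdiff_disjoint sx cx).2
        rw [sdiff_union_of_subset hs1] at this
        exact absurd this (not_ins_of_cut k1)
      · have := (ie_link sdiff_disjoint sy cy).2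
        rw [sdiff_union_of_subset hs1] at this
        exact absurd this (not_ins_of_cut k1)
      · rfl))
    (fun t ht => by
      rw [e1, v2]
      rcases ht with ⟨S, k1, k2, rfl⟩ | rfl
      · by_cases k3 : G.ie T c ∈ S
        · refine Or.inr ⟨c, (cut_of_sub k1 mc (Cut_tch (mem_cut.1 mc).1 ie_at k3)).1,
            cut_sub_tch mc, fun k => not_ins_of_cut mc (ins_mono sdiff_subset k), notMem_empty _,
            n2.symm, n3.symm⟩
        · exact Or.inl ⟨_, Or.inl ⟨S, subset_sdiff.2 ⟨k1, disjoint_singleton_right.2 k3⟩, k2, rfl⟩,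
            Subset.rfl⟩
      · obtain ⟨-, -, sx, -⟩ := q4.mem
        exact Or.inr ⟨x, by simp [q3.1, q3.2.2.1], tch_mono sdiff_subset (cut_sub_tch sx),
          not_ins_of_cut sx, notMem_empty _, q4.2.2.1.symm, q4.2.2.2.2.1.symm⟩)).1
  rw [empty_union] at k
  refine (k.monoL fun e _ he => absurd he (notMem_empty e)).cov fun t ht => ?_
  rcases ht with ht | ⟨e, -, he, rfl⟩
  · exact Or.inl ⟨t, Or.inl ht, Subset.rfl⟩
  by_cases hec : e = c
  · exact Or.inl ⟨_, Or.inr rfl, hec ▸ Subset.rfl⟩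
  have eO : e ∈ O := by
    rw [q0] at he
    simp only [mem_insert, mem_singleton] at he
    rcases he with rfl | rfl | rfl
    exacts [k.cut.2.2.1, k.cut.2.2.2.1, absurd rfl hec]
  have hv := ie_mem (cut_sub_tch he)
  obtain ⟨w1, w2, w3⟩ := hT.1.vtx hc hv
  right
  by_contra hcon
  have hall : G.cut {G.ie T e} ⊆ O := fun f hf => by
    by_contra k1
    exact hcon ⟨f, mem_sdiff.2 ⟨hf, fun k2 => k1 (mem_singleton.1 k2 ▸ eO)⟩,
      tch_mono (singleton_subset_iff.2 hv) (cut_sub_tch hf), k1⟩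
  have k2 := (k.2.1.res (singleton_subset_iff.2 hv)).card_even
  rw [inter_eq_right.2 hall, w1] at k2
  exact absurd k2 (by decide)

/-- passes of both signs; the third edge is dead -/
theorem t_psn (hc : G.Cub) (hT : G.T3 T) (hF : G.F2 T) (hq : G.Q3 T a b c) (σ : ZMod 2) :
    ∃ O, G.Pas0 T O a b L (G.Kt T (G.cut T)) (Rl.P σ) := by
  obtain ⟨x, y, q3, q4, us, nc, -⟩ := t_side hc hT hF hq
  obtain ⟨O, h⟩ := (kb hc hT.1 _ sdiff_subset).2.2.2.2.1 us a b x y q4 nc σ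
  exact ⟨O, TPass_fin hc hT hq q3 q4 h⟩

/-- a good pass; the third edge is dead -/
theorem t_rpn (hc : G.Cub) (hT : G.T3 T) (hF : G.F2 T) (hq : G.Q3 T a b c) :
    ∃ O, G.Pas0 T O a b L (G.Kt T (G.cut T)) Rl.Gd := by
  obtain ⟨x, y, q3, q4, us, nc, -, nq, -⟩ := t_side hc hT hF hq
  obtain ⟨O, h⟩ := rpn hc hT.1 sdiff_subset (kb hc hT.1)
    (fun B k => rpa hc hT.1 B (k.subset.trans sdiff_subset)) us a b x y q4 nc nq
  exact ⟨O, TPass_fin hc hT hq q3 q4 h⟩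

/-- a vertex with a live edge puts a zero on one of the two other edges -/
theorem TPass_vtx {v : V} (h0 : G.ins {v} = ∅) (h : G.Q3 {v} a b c) (hc : c ∈ L) :
    G.Pas0 {v} {a, b} a b L {G.cut {v} \ {c}} Rl.X0 := by
  obtain ⟨k1, k2⟩ := vtx_pc h0 h
  obtain ⟨ha, hb, hg⟩ : a ∈ G.cut {v} ∧ b ∈ G.cut {v} ∧ c ∈ G.cut {v} := by simp [h.1]
  have key : G.Pas0 {v} {a, b} a b L ∅ fun R => ∀ x y, x + y ≠ 0 → R x y := by
    refine ⟨h.2.1, k1, fr_sub_tch, fun ψ _ => ⟨fun x y => x + y ≠ 0, fun _ _ k => k,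
      fun x y hxy => ?_⟩⟩
    have cF : c ∈ G.fr {v} (insert a (insert b L)) :=
      mem_union_right _ (mem_inter.2 ⟨hg, by simp [hc]⟩)
    have o1 : G.out {v} (Function.update ψ c (G.kap (fun _ => 0) {v} c * -(x + y))) c =
        -(x + y) := by
      rw [out, Function.update_self, ← mul_assoc, (kap_sign (fun _ => 0) hg).2, one_mul]
    obtain ⟨R, r1, r2⟩ := k2.2 (Function.update ψ c (G.kap (fun _ => 0) {v} c * -(x + y)))
      fun e he _ l2 => by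
        rw [mem_tch_iff, h0, h.1] at he
        simp only [notMem_empty, false_or, mem_insert, mem_singleton, not_or] at he l2
        obtain rfl : e = c := (he.resolve_left l2.1).resolve_left l2.2
        rw [← out_ne hg, o1]
        exact neg_ne_zero.2 hxy
    obtain ⟨φ, ⟨f1, f2⟩, f3⟩ := r2 x y (r1 x y (by rw [o1, chi_zero, one_mul, neg_neg]))
    refine ⟨φ, ⟨fun e he => ?_, f2⟩, f3⟩
    rw [f1 e fun k => he (mem_union_right _ (mem_inter.2 ⟨?_, ?_⟩)),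
      Function.update_of_ne fun k : e = c => he (k ▸ cF)]
    · simp only [mem_insert, mem_singleton] at k
      rcases k with rfl | rfl <;> assumption
    · simp only [mem_insert, mem_singleton] at k ⊢
      exact k.imp_right Or.inl
  refine Node_hit key (by simp [ha, h.2.2.1]) (by simp [hb, h.2.2.2]) fun R r x y e =>
    ⟨r x y ?_, by clear * - e; tauto⟩
  revert x y
  decide

/-- absorbing a three-side with one live edge `c` -/
theorem t_abs (hc : G.Cub) (hT : G.T3 T) (hF : G.F2 T) (mc : c ∈ G.cut T) :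
    ∃ O, G.Abs0 T O {c} (G.Kt T {c}) := by
  obtain ⟨a, b, n1, hR⟩ : ∃ a b, a ≠ b ∧ (G.cut T).erase c = {a, b} :=
    card_eq_two.1 (by rw [card_erase_of_mem mc, hT.2.1])
  have ma : a ∈ (G.cut T).erase c := by simp [hR]
  have mb : b ∈ (G.cut T).erase c := by simp [hR]
  have hq : G.Q3 T a b c := by
    refine ⟨?_, n1, (mem_erase.1 ma).1, (mem_erase.1 mb).1⟩
    rw [← insert_erase mc, hR]
    ext e
    simp only [mem_insert, mem_singleton]
    exact or_rotate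
  obtain ⟨x, y, q3, q4, us, -, nc, -, nq⟩ := t_side hc hT hF hq
  obtain ⟨O, h⟩ := rpn hc hT.1 sdiff_subset (kb hc hT.1)
    (fun B k => rpa hc hT.1 B (k.subset.trans sdiff_subset)) us x y a b q4.flip nc nq
  have htm : G.ie T c ∈ T := ie_mem (cut_sub_tch mc)
  have hs1 : {G.ie T c} ⊆ T := singleton_subset_iff.2 htm
  obtain ⟨v1, v2, v3⟩ := hT.1.vtx hc htm
  have q3' : G.Q3 {G.ie T c} y x c :=
    ⟨by rw [q3.1, insert_comm], q3.2.1.symm, q3.2.2.2, q3.2.2.1⟩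
  have k := (close_two (Y := T) (L := {c}) (h.monoL fun e _ he => absurd he (notMem_empty e))
    (TPass_vtx v2 q3' (mem_singleton_self c)) sdiff_disjoint (singleton_subset_iff.2 mc)
    sdiff_subset hs1 fun R1 R2 r1 r2 => by
      obtain ⟨u, w, k1, k2⟩ := r1.2 0 0
      refine ⟨u, w, -(chi (G.n x)) * u, k1, r2 _ _ ?_, (Rl.Z3_link _ _).symm⟩
      clear * - k2
      rcases z2 (G.n x) with k | k <;> rcases z2 (G.n y) with k' | k' <;> simp [k, k'] <;> tauto).1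
  rw [sdiff_union_of_subset hs1] at k
  refine ⟨_, k.cov fun t ht => ?_⟩
  rcases ht with ⟨S, k1, k2, rfl⟩ | ⟨e, he, -, rfl⟩
  · by_cases k3 : G.ie T c ∈ S
    · exact Or.inr ⟨c, (cut_of_sub k1 mc (Cut_tch (mem_cut.1 mc).1 ie_at k3)).1,
        cut_sub_tch mc, k.not_mem (not_ins_of_cut mc)⟩
    · exact Or.inl ⟨_, Or.inl ⟨S, subset_sdiff.2 ⟨k1, disjoint_singleton_right.2 k3⟩, k2, rfl⟩,
        Subset.rfl⟩
  · rw [mem_singleton.1 he]
    exact Or.inl ⟨_, Or.inr rfl, Subset.rfl⟩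

end SG

end Pool.Agent.Work.MP_8c679b_co
end

-- merged part: Pool.Agent.Work.MP_8c679b_co.Top.PDefs
section
/-!
The interface of the residue solution with three-sides as nodes.
-/

set_option autoImplicit false

namespace Pool.Agent.Work.MP_8c679b_co

open Finset

namespace SG

variable {V E : Type} [Fintype V] [DecidableEq V] [DecidableEq E] {G : SG V E}

variable (G)

/-- the set-up: the region `W`, the joint three-sides `Ts`, the hard digons `Hh`, the dangerous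
sides `Fm`, the join `F` and a chosen leaving edge `ex T` of every joint three-side -/
structure PSu (W : Finset V) (Ts Hh : Finset (Finset V)) (Fm : Set (Finset V)) (F : Finset E)
    (ex : Finset V → E) : Prop where
  ht : G.HT W
  t3 : ∀ T ∈ Ts, G.T3 T ∧ G.F2 T ∧ Disjoint T W ∧ ex T ∈ G.cut T ∧
    ex T ∈ G.cut (W ∪ Ts.biUnion id)
  dg : ∀ N ∈ Hh, G.Dg N ∧ Disjoint N (W ∪ Ts.biUnion id) ∧ G.cut N ⊆ G.cut (W ∪ Ts.biUnion id)
  pt : PD Ts
  ph : PD Hh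
  fm : ∀ S ∈ Fm, S ⊆ W ∧ G.US S ∧ G.cut S ⊆ G.ins (W ∪ Ts.biUnion id)
  un : ∀ S ∈ Fm, ∀ S' ∈ Fm, ¬ Disjoint S S' → S ∪ S' ∈ Fm
  jf : F ⊆ G.ins (W ∪ Ts.biUnion id)
  jv : ∀ v ∈ W, G.dg (F ∪ G.ends Hh) v = 0
  jt : ∀ T ∈ Ts, Even ((F ∪ G.ends Hh) ∩ G.cut T).card
  nf : ∀ S ∈ Fm, ¬ G.cut S ⊆ F
  inv : ∀ U ⊆ W ∪ Hh.biUnion id, U.Nonempty → (G.cut U).Nonempty

/-- the residue solution on the region and the joint three-sides -/
def PCo (W : Finset V) (Ts Hh : Finset (Finset V)) (Fm : Set (Finset V)) (ex : Finset V → E)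
    (O : Finset E) (φ : E → ZMod 3) : Prop :=
  G.St (W ∪ Ts.biUnion id) O (G.ends Hh) ∧ G.Sl (W ∪ Ts.biUnion id) O ∅ φ ∧ G.Dc Hh ∅ φ ∧
    (∀ S ∈ Fm, ∃ e ∈ G.cut S, e ∉ O ∨ φ e = 0) ∧
    ∀ T ∈ Ts, (∀ S ⊆ T, G.US S → ∃ e ∈ G.cut S, e ∉ O ∨ φ e = 0) ∧
      ∃ e ∈ G.cut {G.ie T (ex T)}, e ≠ ex T ∧ (e ∉ O ∨ φ e = 0)

/-- the statement proved in `PFin.lean` as `p_res` -/
def PRes : Prop :=
  ∀ W Ts Hh Fm F ex, G.PSu W Ts Hh Fm F ex → ∃ O φ, G.PCo W Ts Hh Fm ex O φ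

/-- a circuit of the edge set `Z` through the nodes given by `Ns` -/
def Rng (Y : Finset V) (Ns : Finset (Finset V)) (Z : Finset E) (n : ℕ) (N : ℕ → Finset V)
    (e : ℕ → E) : Prop :=
  G.Trk Y n N e ∧ 1 ≤ n ∧ e (n + 1) = e 0 ∧ (∀ i ≤ n, e i ∈ Z) ∧
    (∀ i ≤ n, ∀ f ∈ Z, f ∈ G.cut (N i) → f = e i ∨ f = e (i + 1)) ∧
    ∀ i ≤ n, ∃ v ∈ Y, N i = nd Ns v

/-- the union `NX` of some circuits of nodes, the absorbed part `X` and its solution -/
structure PAb (W : Finset V) (Ts Hh Bs : Finset (Finset V)) (Z : Finset E) (NX X : Finset V)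
    (O : Finset E) (K : Set (Finset E)) : Prop where
  sub : X ⊆ NX
  nx : NX ⊆ W ∪ Ts.biUnion id ∪ Hh.biUnion id
  nn : ∀ N ∈ Bs ∪ Ts ∪ Hh, N ⊆ NX ∨ Disjoint N NX
  cl : ∀ f ∈ Z, f ∈ G.tch NX → f ∈ G.ins NX
  ab : G.Abs0 X O ∅ K
  bs : G.BS W Bs ∅ (X ∩ W) K
  lk : ∀ f ∈ Z, f ∈ G.tch NX → f ∈ G.cut W → f ∈ O
  oz : ∀ f ∈ O, f ∈ G.cut W → f ∈ Z
  tt : ∀ T ∈ Ts, T ⊆ NX → T ⊆ X ∧ G.Kt T (G.cut T) ⊆ K
  hh : ∀ N ∈ Hh, N ⊆ NX → N ⊆ X ∧ G.cut N ∈ K ∧ G.cut N ⊆ O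

end SG

end Pool.Agent.Work.MP_8c679b_co
end

-- merged part: Pool.Agent.Work.MP_8c679b_co.Top.PRing
section
/-!
Circuits of the join through nodes: boxes, three-sides, digons and vertices.
-/

set_option autoImplicit false

namespace Pool.Agent.Work.MP_8c679b_co

open Finset

namespace SG

variable {V E : Type} [Fintype V] [DecidableEq V] [DecidableEq E] {G : SG V E}
  {W NX X : Finset V} {Ts Hh Bs Ds : Finset (Finset V)} {Fm : Set (Finset V)} {F O : Finset E}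
  {ex : Finset V → E} {K : Set (Finset E)} {n : ℕ} {N : ℕ → Finset V} {e : ℕ → E}

/-- HINT: the second half of the proof of `fc_exists` (file `Six/GNorm`), verbatim. -/
theorem ring_exists {Y : Finset V} {Ns : Finset (Finset V)} {Z : Finset E} (hP : PD Ns)
    (hY : ∀ M ∈ Ns, M ⊆ Y) (hZ : Z ⊆ G.ins Y)
    (hdeg : ∀ u ∈ Y, (Z ∩ G.cut (nd Ns u)).card = 0 ∨ (Z ∩ G.cut (nd Ns u)).card = 2)
    {v : V} {f : E} (hf : f ∈ Z) (hf' : f ∈ G.cut (nd Ns v)) :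
    ∃ n N e, G.Rng Y Ns Z n N e ∧ N 0 = nd Ns v := by
  have hat : ∀ x ∈ Z, ∀ u, x ∈ G.cut (nd Ns u) →
      x ∈ Z ∩ (G.quo Y Ns).A ∧ (G.quo Y Ns).At x (nd Ns u) := fun x hx u k =>
    have := (quo_at hP).2 ⟨hZ hx, k⟩
    ⟨mem_inter.2 ⟨hx, this.1⟩, this.2⟩
  obtain ⟨n, w, g, hC, h0, g0, hcl⟩ := cyc_of_deg (G := G.quo Y Ns)
    (S := Z ∩ (G.quo Y Ns).A) (fun x hx => quo_noloop (mem_inter.1 hx).2)
    (fun x => by
      by_cases hx : ∃ u ∈ Y, nd Ns u = x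
      · obtain ⟨u, hu, rfl⟩ := hx
        rw [quo_deg hP inter_subset_right, show Z ∩ (G.quo Y Ns).A ∩ G.cut (nd Ns u) =
          Z ∩ G.cut (nd Ns u) from Subset.antisymm
            (inter_subset_inter_right inter_subset_left) fun e he => mem_inter.2
              ⟨(hat e (mem_inter.1 he).1 u (mem_inter.1 he).2).1, (mem_inter.1 he).2⟩]
        exact hdeg u hu
      · push Not at hx
        exact Or.inl (quo_deg_zero inter_subset_right hx))
    (hat f hf v hf').1 (hat f hf v hf').2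
  have hg : ∀ i ≤ n, g i ∈ Z ∩ (G.quo Y Ns).A := fun i hi => by
    rcases hi.lt_or_eq with k | rfl
    exacts [hC.pth.mem i k, hC.cm]
  have hC' := hC.mono fun i hi => (mem_inter.1 (hg i hi)).2
  obtain ⟨t1, t2, -⟩ := trk_of_cyc hP hY hC'
  have hw := quo_cyc_node hC'
  refine ⟨n, w, _, ⟨t1, hC.pos, t2, fun i hi => ?_, fun i hi x hx k => ?_, hw⟩, h0⟩
  · rcases i with _ | i
    · exact (mem_inter.1 (hg n le_rfl)).1
    · rw [Quo_es_succ hi]
      exact (mem_inter.1 (hg i (Nat.le_of_succ_le hi))).1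
  · obtain ⟨u, -, hu⟩ := hw i hi
    have k1 := hat x hx u (hu ▸ k)
    rw [← hu] at k1
    obtain ⟨j, hj', rfl⟩ := mem_pe.1 (hcl x k1.1 i hi k1.2)
    exact (hC.at_iff hi (Nat.le_of_lt_succ hj')).1 k1.2

/-- HINT: `Cut_boxes` with `h.un`. -/
theorem PSu.boxes (h : G.PSu W Ts Hh Fm F ex) :
    ∃ Bs, G.Bx Fm W ((F ∪ G.ends Hh) ∩ G.cut W) Bs := by
  exact Cut_boxes fun S hS _ _ S' hS' _ _ => h.un S hS S' hS'

/-- HINT: boxes lie in `W`; members of `Ts` and `Hh` are nonempty and disjoint from `W`; members of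
`Hh` are disjoint from the members of `Ts`.  `Quo_mem_nd`, `ie_link`. -/
theorem PSu.nodes (h : G.PSu W Ts Hh Fm F ex)
    (hB : G.Bx Fm W ((F ∪ G.ends Hh) ∩ G.cut W) Bs) :
    PD (Bs ∪ Ts ∪ Hh) ∧ Disjoint Bs Ts ∧ Disjoint Bs Hh ∧ Disjoint Ts Hh ∧
      (∀ M ∈ Bs ∪ Ts ∪ Hh, M ⊆ W ∪ Ts.biUnion id ∪ Hh.biUnion id ∧ M.Nonempty) ∧
      (∀ v ∈ W, nd (Bs ∪ Ts ∪ Hh) v = nd (Bs ∪ ∅) v ∧ nd (Bs ∪ Ts ∪ Hh) v ⊆ W) ∧
      F ∪ G.ends Hh ⊆ G.ins (W ∪ Ts.biUnion id ∪ Hh.biUnion id) := by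
  have bW : ∀ B ∈ Bs, B ⊆ W := fun B k => (hB.1 B k).2.1
  have bN : ∀ B ∈ Bs, B.Nonempty := fun B k => Spl_nonempty (h.fm B (hB.1 B k).1).2.1.1
  have tN : ∀ T ∈ Ts, T.Nonempty := fun T k => ⟨_, ie_mem (cut_sub_tch (h.t3 T k).2.2.2.1)⟩
  have hN : ∀ M ∈ Hh, M.Nonempty := fun M k => by
    obtain ⟨u, v, -, -, -, e, -⟩ := (h.dg M k).1
    exact ⟨u, by simp [e]⟩
  have tU : ∀ T ∈ Ts, T ⊆ Ts.biUnion id := fun T k => subset_biUnion_of_mem id k
  have hU : ∀ M ∈ Hh, M ⊆ Hh.biUnion id := fun M k => subset_biUnion_of_mem id k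
  have bt : ∀ B ∈ Bs, ∀ T ∈ Ts, Disjoint B T := fun B k T k' =>
    ((h.t3 T k').2.2.1.mono_right (bW B k)).symm
  have bh : ∀ B ∈ Bs, ∀ M ∈ Hh, Disjoint B M := fun B k M k' =>
    ((h.dg M k').2.1.mono_right ((bW B k).trans subset_union_left)).symm
  have th : ∀ T ∈ Ts, ∀ M ∈ Hh, Disjoint T M := fun T k M k' =>
    ((h.dg M k').2.1.mono_right ((tU T k).trans subset_union_right)).symm
  have dj : ∀ {A B : Finset (Finset V)}, (∀ M ∈ A, M.Nonempty) →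
      (∀ M ∈ A, ∀ M' ∈ B, Disjoint M M') → Disjoint A B := fun k1 k2 =>
    disjoint_left.2 fun M a b => by
      obtain ⟨x, hx⟩ := k1 M a
      exact disjoint_left.1 (k2 M a M b) hx hx
  have hnd : ∀ v ∈ W, nd (Bs ∪ Ts ∪ Hh) v = nd (Bs ∪ ∅) v := fun v hv => by
    ext u
    simp only [Quo_mem_nd, union_empty]
    refine or_congr_right ⟨fun ⟨M, hM, k⟩ => ⟨M, ?_, k⟩, fun ⟨M, hM, k⟩ =>
      ⟨M, mem_union_left _ (mem_union_left _ hM), k⟩⟩
    rcases mem_union.1 hM with k1 | k1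
    · exact (mem_union.1 k1).resolve_right fun k2 => disjoint_left.1 (h.t3 M k2).2.2.1 k.1 hv
    · exact absurd (mem_union_left _ hv) (disjoint_left.1 (h.dg M k1).2.1 k.1)
  refine ⟨fun M hM M' hM' hne => ?_, dj bN bt, dj bN bh, dj tN th, fun M hM => ?_,
    fun v hv => ⟨hnd v hv, ?_⟩, union_subset (h.jf.trans (ins_mono subset_union_left))
      fun f hf => ?_⟩
  · simp only [mem_union] at hM hM'
    rcases hM with (k | k) | k <;> rcases hM' with (k' | k') | k'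
    exacts [hB.2.1 M k M' k' hne, bt M k M' k', bh M k M' k', (bt M' k' M k).symm,
      h.pt M k M' k' hne, th M k M' k', (bh M' k' M k).symm, (th M' k' M k).symm,
      h.ph M k M' k' hne]
  · simp only [mem_union] at hM
    rcases hM with (k | k) | k
    exacts [⟨((bW M k).trans subset_union_left).trans subset_union_left, bN M k⟩,
      ⟨((tU M k).trans subset_union_right).trans subset_union_left, tN M k⟩,
      ⟨(hU M k).trans subset_union_right, hN M k⟩]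
  · rw [hnd v hv, union_empty]
    exact nd_sub bW hv
  · obtain ⟨M, hM, hf⟩ := mem_biUnion.1 hf
    exact ins_mono (union_subset ((hU M hM).trans subset_union_right) subset_union_left)
      (ie_link (h.dg M hM).2.1 hf ((h.dg M hM).2.2 hf)).2

/-- HINT: as `hdeg` in `fc_exists`.  Box: even (`GNorm_even`), four leaving edges, not all in the
join (`h.nf`; a leaving edge of a box lies inside `W ∪ ⋃ Ts`, so it is no end of a digon).
Three-side: even and at most three.  Digon: two.  Vertex: even and at most three. -/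
theorem PSu.deg (hc : G.Cub) (h : G.PSu W Ts Hh Fm F ex)
    (hB : G.Bx Fm W ((F ∪ G.ends Hh) ∩ G.cut W) Bs) :
    ∀ u ∈ W ∪ Ts.biUnion id ∪ Hh.biUnion id,
      ((F ∪ G.ends Hh) ∩ G.cut (nd (Bs ∪ Ts ∪ Hh) u)).card = 0 ∨
      ((F ∪ G.ends Hh) ∩ G.cut (nd (Bs ∪ Ts ∪ Hh) u)).card = 2 := by
  obtain ⟨hP, -, -, -, -, -, hZ⟩ := h.nodes hB
  have hev : ∀ M ⊆ W, Even ((F ∪ G.ends Hh) ∩ G.cut M).card := fun M hM =>
    GNorm_even (hZ.trans ins_sub_A) fun v hv => h.jv v (hM hv)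
  have h3 : ∀ M, (G.cut M).card = 3 → Even ((F ∪ G.ends Hh) ∩ G.cut M).card →
      ((F ∪ G.ends Hh) ∩ G.cut M).card = 0 ∨ ((F ∪ G.ends Hh) ∩ G.cut M).card = 2 := by
    rintro M k ⟨m, hm⟩
    have := card_le_card (inter_subset_right (s₁ := F ∪ G.ends Hh) (s₂ := G.cut M))
    omega
  intro u hu
  rcases nd_cases hP u with k | ⟨k, k'⟩
  · generalize nd (Bs ∪ Ts ∪ Hh) u = M at k
    rcases mem_union.1 k with k | k
    · rcases mem_union.1 k with k | k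
      · obtain ⟨h1, h2, -⟩ := hB.1 M k
        obtain ⟨-, g2, g3⟩ := h.fm M h1
        refine GNorm_two g2.1 (hev M h2) fun hs => h.nf M h1 fun f hf => ?_
        refine (mem_union.1 (hs hf)).resolve_right fun k' => ?_
        obtain ⟨D, hD, k'⟩ := mem_biUnion.1 k'
        exact not_ins_of_cut ((h.dg D hD).2.2 k') (g3 hf)
      · exact h3 M (h.t3 M k).1.2.1 (h.jt M k)
    · obtain ⟨_, _, _, _, -, -, -, -, -, -, -, h2⟩ := (h.dg M k).1
      right
      rwa [inter_eq_right.2 (show G.cut M ⊆ F ∪ G.ends Hh from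
        (subset_biUnion_of_mem G.cut k).trans subset_union_right)]
  · have huW : u ∈ W := by
      simp only [mem_union, mem_biUnion, id] at hu
      rcases hu with (k1 | ⟨M, hM, k1⟩) | ⟨M, hM, k1⟩
      exacts [k1, absurd k1 (k M (mem_union_left _ (mem_union_right _ hM))),
        absurd k1 (k M (mem_union_right _ hM))]
    rw [k']
    exact h3 {u} (h.ht.vtx hc huW).1 (hev {u} (singleton_subset_iff.2 huW))

/-- The passes along a circuit whose first node is a three-side; no edge is live.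
HINT: as `sp_pass` (file `Six/SpStep`).  Digon: `dg_hard`.  Three-side: `t_psn`, `t_rpn` (the third
edge from `Cut_rest` or `exists_q3`).  Otherwise the node is `nd (Bs ∪ ∅) v` with `v ∈ W`:
`node_pass` with `Ds = ∅`, `L = ∅`, `σ = 0`, `J = (F ∪ ends Hh) ∩ cut W`, `kb` for `PS`,
`Ncl.tt`. -/
theorem ring_pass (hc : G.Cub) (h : G.PSu W Ts Hh Fm F ex)
    (hB : G.Bx Fm W ((F ∪ G.ends Hh) ∩ G.cut W) Bs)
    (hR : G.Rng (W ∪ Ts.biUnion id ∪ Hh.biUnion id) (Bs ∪ Ts ∪ Hh) (F ∪ G.ends Hh) n N e)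
    (h0 : N 0 ∈ Ts) {C0 : Rl → Prop} (hC : (∃ σ, C0 = Rl.P σ) ∨ C0 = Rl.Gd) :
    ∃ (Xs : ℕ → Finset V) (Os : ℕ → Finset E) (Ks : ℕ → Set (Finset E)), ∀ i ≤ n, Xs i ⊆ N i ∧
      G.NP W Bs ∅ (N i) (e i) (e (i + 1)) (Xs i) (Ks i) ∧
      (N i ∈ Hh → Xs i = N i ∧ G.cut (N i) ∈ Ks i) ∧
      (N i ∈ Ts → Xs i = N i ∧ G.Kt (N i) (G.cut (N i)) ⊆ Ks i) ∧
      G.Pas0 (Xs i) (Os i) (e i) (e (i + 1)) ∅ (Ks i) fun R =>
        (i = 0 → C0 R) ∧ (i ≠ 0 → N i ∈ Hh → R.X0) ∧ (i ≠ 0 → N i ∉ Hh → R.P 0) := by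
  obtain ⟨⟨-, -, t3⟩, -, e0, he, -, hnd⟩ := hR
  have he' : ∀ i ≤ n + 1, e i ∈ F ∪ G.ends Hh := by
    intro i hi
    rcases Nat.lt_or_ge n i with h2 | h2
    · obtain rfl : i = n + 1 := by omega
      exact e0 ▸ he 0 (Nat.zero_le n)
    · exact he i h2
  obtain ⟨hpd, -, -, dth, -, hW, -⟩ := h.nodes hB
  have key : ∀ i, ∃ (X : Finset V) (O : Finset E) (K : Set (Finset E)), i ≤ n → X ⊆ N i ∧
      G.NP W Bs ∅ (N i) (e i) (e (i + 1)) X K ∧
      (N i ∈ Hh → X = N i ∧ G.cut (N i) ∈ K) ∧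
      (N i ∈ Ts → X = N i ∧ G.Kt (N i) (G.cut (N i)) ⊆ K) ∧
      G.Pas0 X O (e i) (e (i + 1)) ∅ K fun R =>
        (i = 0 → C0 R) ∧ (i ≠ 0 → N i ∈ Hh → R.X0) ∧ (i ≠ 0 → N i ∉ Hh → R.P 0) := by
    intro i
    by_cases hi : i ≤ n
    swap
    · exact ⟨∅, ∅, ∅, fun k => absurd k hi⟩
    obtain ⟨a1, a2, a3⟩ := t3 i hi
    have hnp : Disjoint (N i) W → ∀ K, G.NP W Bs ∅ (N i) (e i) (e (i + 1)) (N i) K := fun d K =>
      Or.inl ⟨fun B hB' => d.symm.mono_left (hB.1 B hB').2.1,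
        fun ρ hρ => absurd hρ (notMem_empty ρ), rfl⟩
    by_cases ht : N i ∈ Ts
    · obtain ⟨d1, d2, d3, -⟩ := h.t3 _ ht
      have hh : N i ∉ Hh := disjoint_left.1 dth ht
      obtain ⟨R, r1, r2, r3, r4⟩ := Cut_rest (k := 1) d1.2.1 a1 a2 a3
      obtain ⟨c, rfl⟩ := card_eq_one.1 r1
      have hq : G.Q3 (N i) (e i) (e (i + 1)) c :=
        ⟨r2, a3, fun k => r3 (mem_singleton.2 k), fun k => r4 (mem_singleton.2 k)⟩
      have : ∃ O, G.Pas0 (N i) O (e i) (e (i + 1)) ∅ (G.Kt (N i) (G.cut (N i))) fun R =>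
          (i = 0 → C0 R) ∧ (i ≠ 0 → R.P 0) := by
        by_cases hi0 : i = 0
        · rcases hC with ⟨σ, rfl⟩ | rfl
          · obtain ⟨O, hO⟩ := t_psn (L := ∅) hc d1 d2 hq σ
            exact ⟨O, hO.imp fun R r => ⟨fun _ => r, fun k => absurd hi0 k⟩⟩
          · obtain ⟨O, hO⟩ := t_rpn (L := ∅) hc d1 d2 hq
            exact ⟨O, hO.imp fun R r => ⟨fun _ => r, fun k => absurd hi0 k⟩⟩
        · obtain ⟨O, hO⟩ := t_psn (L := ∅) hc d1 d2 hq 0
          exact ⟨O, hO.imp fun R r => ⟨fun k => absurd k hi0, fun _ => r⟩⟩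
      obtain ⟨O, hO⟩ := this
      exact ⟨N i, O, _, fun _ => ⟨Subset.rfl, hnp d3 _, fun k => absurd k hh,
        fun _ => ⟨rfl, Set.Subset.rfl⟩,
        hO.imp fun R r => ⟨r.1, fun _ k => absurd k hh, fun k _ => r.2 k⟩⟩⟩
    have hi0 : i ≠ 0 := fun k => ht (k ▸ h0)
    by_cases hh : N i ∈ Hh
    · obtain ⟨d1, d2, -⟩ := h.dg _ hh
      have hab : G.cut (N i) = {e i, e (i + 1)} := by
        obtain ⟨u, v, e1, e2, -, -, -, -, -, -, -, d3⟩ := d1
        refine (eq_of_subset_of_card_le (insert_subset a1 (singleton_subset_iff.2 a2)) ?_).symm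
        rw [d3, card_pair a3]
      obtain ⟨O, hO⟩ := dg_hard (L := ∅) hc d1 hab
      exact ⟨N i, O, {G.cut (N i)}, fun _ => ⟨Subset.rfl,
        hnp (d2.mono_right subset_union_left) _, fun _ => ⟨rfl, rfl⟩, fun k => absurd k ht,
        hO.imp fun R r => ⟨fun k => absurd k hi0, fun _ _ => r, fun _ k => absurd hh k⟩⟩⟩
    obtain ⟨v, hv, hN⟩ := hnd i hi
    have hvW : v ∈ W := by
      simp only [mem_union, mem_biUnion, id] at hv
      rcases hv with (k | ⟨M, hM, k⟩) | ⟨M, hM, k⟩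
      · exact k
      · rw [nd_of_mem hpd (mem_union_left _ (mem_union_right _ hM)) k] at hN
        exact absurd (hN ▸ hM) ht
      · rw [nd_of_mem hpd (mem_union_right _ hM) k] at hN
        exact absurd (hN ▸ hM) hh
    have hNW : N i ⊆ W := hN ▸ (hW v hvW).2
    rw [(hW v hvW).1] at hN
    have hin : ∀ f ∈ G.cut (N i), f ∈ F ∪ G.ends Hh →
        f ∈ G.ins W ∪ (F ∪ G.ends Hh) ∩ G.cut W := fun f k1 k2 => by
      rcases mem_tch_iff.1 (tch_mono hNW (cut_sub_tch k1)) with k | k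
      exacts [mem_union_left _ k, mem_union_right _ (mem_inter.2 ⟨k2, k⟩)]
    obtain ⟨X, O, K, b1, b2, b3⟩ := node_pass (L := ∅) (Ds := ∅) hc h.ht Subset.rfl
      (fun S hS => (h.fm S hS).2.1) hB
      ⟨fun _ k => absurd k (notMem_empty _), fun _ k => absurd k (notMem_empty _)⟩
      (fun B k => (kb hc h.ht B (hB.1 B k).2.1).2.2.2.2.2.2.2 (h.fm B (hB.1 B k).1).2.1)
      (fun _ k => absurd k (notMem_empty _)) (disjoint_empty_left _) hvW hN a1 a2 a3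
      (hin _ a1 (he' i (by omega))) (hin _ a2 (he' (i + 1) (by omega))) (empty_subset _) 0
    exact ⟨X, O, K, fun _ => ⟨b1, b2, fun k => absurd k hh, fun k => absurd k ht,
      b3.imp fun R r => ⟨fun k => absurd k hi0, fun _ k => absurd k hh, fun _ _ => by
        simpa only [ite_self] using r.tt.2 (notMem_empty _)⟩⟩⟩
  choose X O K hk using key
  exact ⟨X, O, K, fun i hi => hk i hi⟩

end SG

end Pool.Agent.Work.MP_8c679b_co
end
end

-- merged part: Pool.Agent.Work.MP_8c679b_co.Key.MB4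
section
-- merged part: Pool.Agent.Work.MP_8c679b_co.Key.MB1
section
/-!
Members: basic structure.

Hints.  `trk_of_pth`, `quo_pth_node`, `nd_cases`, `nd_disj`, `quo_je_inv`, `Pth.einj`.  The edge
`F.e M i (k + 1) = M.g i k` (`k < M.n i`) has one end in `M.w i k` and one in `M.w i (k + 1)`; the
edges `F.p i`, `F.q i` have one end outside `F.Y`.
-/

set_option autoImplicit false

namespace Pool.Agent.Work.MP_8c679b_co

open Finset

variable {V E : Type} [Fintype V] [DecidableEq V] [DecidableEq E] {G : SG V E}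
  {T U Z X B N N' : Finset V} {F : Kf V E} {M M' : Mb V E} {i j : Bool} {k l x y m : ℕ}
  {σ σ' π : Finset V → ZMod 2} {u : ℕ → Finset V} {h : ℕ → E} {a b c d e f : E} {v : V}
  {Zs : Finset (Finset V)} {g s : ZMod 2}

namespace Kf

theorem mem_vt : v ∈ M.vt i ↔ ∃ k ≤ M.n i, v ∈ M.w i k := by
  exact mem_bu

theorem mem_gap : v ∈ M.gap i x y ↔ ∃ k, x < k ∧ k < y ∧ v ∈ M.w i k := by
  simp only [Mb.gap, mem_biUnion, mem_Ioo, and_assoc]

theorem mem_inn : v ∈ inn m u ↔ ∃ k, 0 < k ∧ k < m ∧ v ∈ u k := by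
  simp only [inn, mem_biUnion, mem_Ioo, and_assoc]

theorem mem_rest : v ∈ F.rest M ↔ v ∈ F.Y ∧ ∀ i, ∀ k ≤ M.n i, v ∉ M.w i k := by
  simp only [rest, mem_sdiff, mem_union, mem_vt, not_or, not_exists, not_and, Bool.forall_bool]

theorem e_succ (hk : k < M.n i) : F.e M i (k + 1) = M.g i k := by
  exact SG.Quo_es_succ hk

theorem IsM.trk (hw : F.Wf G) (hM : F.IsM G M) (i : Bool) :
    G.Trk F.Y (M.n i) (M.w i) (F.e M i) ∧ F.e M i 0 = F.p i ∧ F.e M i (M.n i + 1) = F.q i := by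
  obtain ⟨h1, h2, h3, -⟩ := SG.trk_of_pth hw.pd (fun B hB => (hw.sub B hB).1) (hM.pth i) (hw.pc i)
    (hw.qc i) (hw.pq i i) (hM.fst i) (hM.lst i)
  exact ⟨h1, h2, h3⟩

theorem IsM.node (hw : F.Wf G) (hM : F.IsM G M) (hk : k ≤ M.n i) :
    (∃ v ∈ F.Y, M.w i k = nd F.Bs v) ∧ (M.w i k).Nonempty ∧ M.w i k ⊆ F.Y ∧
      (M.w i k ∈ F.Bs ∨ ∃ v ∈ F.Y, M.w i k = {v} ∧ ∀ B ∈ F.Bs, v ∉ B) := by
  obtain ⟨v, hv, h1⟩ := SG.quo_pth_node (hM.pth i) (SG.ie_mem (SG.cut_sub_tch (hw.pc i)))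
    (hM.fst i) k hk
  refine ⟨⟨v, hv, h1⟩, ⟨v, h1 ▸ mem_nd_self⟩, ((hM.trk hw i).1.1 k hk), ?_⟩
  rw [h1]
  exact (nd_cases hw.pd v).imp_right fun h2 => ⟨v, hv, h2.2, h2.1⟩

theorem IsM.inj (hM : F.IsM G M) (hk : k ≤ M.n i) (hl : l ≤ M.n j) (h : M.w i k = M.w j l) :
    j = i ∧ l = k := by
  cases i <;> cases j
  · exact ⟨rfl, ((hM.pth _).inj k hk l hl h).symm⟩
  · exact absurd h (hM.dj k hk l hl)
  · exact absurd h.symm (hM.dj l hl k hk)
  · exact ⟨rfl, ((hM.pth _).inj k hk l hl h).symm⟩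

theorem IsM.disj (hw : F.Wf G) (hM : F.IsM G M) (hk : k ≤ M.n i) (hl : l ≤ M.n j)
    (h : ¬ (j = i ∧ l = k)) : Disjoint (M.w i k) (M.w j l) := by
  obtain ⟨v, -, h1⟩ := (hM.node hw hk).1
  obtain ⟨v', -, h2⟩ := (hM.node hw hl).1
  have h3 : M.w i k ≠ M.w j l := fun r => h (hM.inj hk hl r)
  rw [h1, h2] at h3 ⊢
  exact nd_disj hw.pd h3

theorem rest_disj (hk : k ≤ M.n i) : Disjoint (M.w i k) (F.rest M) := by
  exact disjoint_left.2 fun v h1 h2 => (mem_rest.1 h2).2 i k hk h1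

theorem gap_disj (hy : y ≤ M.n i) : Disjoint (M.gap i x y) (F.rest M) := by
  refine disjoint_left.2 fun v h1 h2 => ?_
  obtain ⟨k, -, h3, h4⟩ := mem_gap.1 h1
  exact (mem_rest.1 h2).2 i k (by omega) h4

theorem IsM.sa (hw : F.Wf G) (hM : F.IsM G M) : F.Sa (F.rest M) := by
  intro v hv r hr
  obtain ⟨h1, h2⟩ := mem_rest.1 hv
  refine mem_rest.2 ⟨nd_sub (fun B hB => (hw.sub B hB).1) h1 hr, fun i k hk h3 => h2 i k hk ?_⟩
  obtain ⟨v', -, h4⟩ := (hM.node hw hk).1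
  rw [h4] at h3 ⊢
  rw [← (nd_eq_iff hw.pd).2 h3, (nd_eq_iff hw.pd).2 hr]
  exact mem_nd_self

theorem IsM.box (hw : F.Wf G) (hM : F.IsM G M) (hB : B ∈ F.Bs) :
    B ⊆ F.rest M ∨ ∃ i k, F.Nd M i k ∧ M.w i k = B := by
  obtain ⟨h1, v, hv⟩ := hw.sub B hB
  by_cases h2 : v ∈ F.rest M
  · exact Or.inl (nd_of_mem hw.pd hB hv ▸ hM.sa hw v h2)
  · simp only [mem_rest, h1 hv, true_and, not_forall, not_not] at h2
    obtain ⟨i, k, hk, h3⟩ := h2
    obtain ⟨v', -, h4⟩ := (hM.node hw hk).1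
    have h5 : M.w i k = B := by
      rw [h4] at h3 ⊢
      rw [← (nd_eq_iff hw.pd).2 h3, nd_of_mem hw.pd hB hv]
    exact Or.inr ⟨i, k, ⟨hk, h5 ▸ hB⟩, h5⟩

theorem MB1_not (hw : F.Wf G) (hM : F.IsM G M) (hk : k ≤ M.n i + 1) (hU : U ⊆ F.Y)
    (h1 : k ≤ M.n i → Disjoint U (M.w i k)) (h2 : ∀ x, x + 1 = k → Disjoint U (M.w i x)) :
    F.e M i k ∉ G.tch U := by
  obtain ⟨⟨t1, t2, t3⟩, t4, t5⟩ := hM.trk hw i
  intro h
  rcases k with _ | k
  · exact SG.not_ins_of_cut (t4 ▸ hw.pc i) (SG.Quo_two hU (t1 0 (Nat.zero_le _))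
      (h1 (Nat.zero_le _)) h (SG.cut_sub_tch (t3 0 (Nat.zero_le _)).1))
  have h3 : k ≤ M.n i := by omega
  rcases h3.eq_or_lt with rfl | h4
  · exact SG.not_ins_of_cut (t5 ▸ hw.qc i) (SG.Quo_two hU (t1 _ h3) (h2 _ rfl) h
      (SG.cut_sub_tch (t3 _ h3).2.1))
  · exact SG.Quo_three (h1 h4) (h2 k rfl) (t2 _ h4 _ h3 (Nat.succ_ne_self k)) h
      (SG.cut_sub_tch (t3 _ h4).1) (SG.cut_sub_tch (t3 _ h3).2.1)

theorem IsM.e_tch (hw : F.Wf G) (hM : F.IsM G M) (hk : k ≤ M.n i + 1) (hl : l ≤ M.n j) :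
    F.e M i k ∈ G.tch (M.w j l) ↔ j = i ∧ (l = k ∨ l + 1 = k) := by
  constructor
  · intro h
    by_contra h'
    exact MB1_not hw hM hk (hM.node hw hl).2.2.1 (fun h1 => hM.disj hw hl h1 fun r =>
      h' ⟨r.1.symm, Or.inl r.2.symm⟩) (fun x h1 => hM.disj hw hl (by omega) fun r =>
      h' ⟨r.1.symm, Or.inr (r.2 ▸ h1)⟩) h
  · rintro ⟨rfl, rfl | rfl⟩
    · exact SG.cut_sub_tch ((hM.trk hw j).1.2.2 l hl).1
    · exact SG.cut_sub_tch ((hM.trk hw j).1.2.2 l hl).2.1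

theorem IsM.e_rest (hw : F.Wf G) (hM : F.IsM G M) (hk : k ≤ M.n i + 1) :
    F.e M i k ∉ G.tch (F.rest M) := by
  exact MB1_not hw hM hk sdiff_subset (fun h1 => (rest_disj h1).symm)
    fun x h1 => (rest_disj (by omega)).symm

theorem IsM.e_inj (hw : F.Wf G) (hM : F.IsM G M) (hk : k ≤ M.n i + 1) (hl : l ≤ M.n j + 1)
    (h : F.e M i k = F.e M j l) : j = i ∧ l = k := by
  obtain rfl : j = i := by
    rcases hl.eq_or_lt with rfl | h1
    · exact ((hM.e_tch hw hk le_rfl).1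
        (h ▸ (hM.e_tch hw le_rfl le_rfl).2 ⟨rfl, Or.inr rfl⟩)).1
    · exact ((hM.e_tch hw hk (Nat.le_of_lt_succ h1)).1
        (h ▸ (hM.e_tch hw hl (Nat.le_of_lt_succ h1)).2 ⟨rfl, Or.inl rfl⟩)).1
  have key : ∀ k l, l ≤ M.n j + 1 → F.e M j k = F.e M j l → ¬ k < l := fun k l hl h h1 => by
    have h2 : k ≤ M.n j := by omega
    have h3 := ((hM.e_tch hw hl h2).1
      (h ▸ (hM.e_tch hw (h2.trans (Nat.le_succ _)) h2).2 ⟨rfl, Or.inl rfl⟩)).2
    obtain rfl : k + 1 = l := by omega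
    exact ((hM.trk hw j).1.2.2 k h2).2.2 h
  exact ⟨rfl, le_antisymm (not_lt.1 (key k l hl h)) (not_lt.1 (key l k hk h.symm))⟩

theorem IsM.j_rest (hw : F.Wf G) (hM : F.IsM G M) (he : e ∈ F.J) : e ∉ G.tch (F.rest M) := by
  have h1 : ∀ i, F.p i ∉ G.tch (F.rest M) := fun i =>
    (hM.trk hw i).2.1 ▸ hM.e_rest hw (Nat.zero_le _)
  have h2 : ∀ i, F.q i ∉ G.tch (F.rest M) := fun i => (hM.trk hw i).2.2 ▸ hM.e_rest hw le_rfl
  simp only [J, mem_insert, mem_singleton] at he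
  rcases he with rfl | rfl | rfl | rfl
  exacts [h1 _, h2 _, h1 _, h2 _]

/-- the edges that leave a part of the rest -/
theorem IsM.cut_rest (h : F.Ok G T) (hM : F.IsM G M) (hX : X ⊆ F.rest M) (he : e ∈ G.cut X) :
    e ∈ G.ins (F.rest M) ∨ e = F.z ∨ ∃ i, ∃ k ≤ M.n i, e ∈ G.cut (M.w i k) := by
  have h1 := SG.tch_mono hX (SG.cut_sub_tch he)
  refine (SG.mem_tch_iff.1 h1).imp_right fun h2 => ?_
  by_cases h3 : G.oe (F.rest M) e ∈ F.Y
  · have h4 := SG.oe_not_mem h2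
    simp only [mem_rest, h3, true_and, not_forall, not_not] at h4
    obtain ⟨i, k, hk, h5⟩ := h4
    exact Or.inr ⟨i, k, hk, (SG.mem_tch_iff.1 (SG.Cut_tch (SG.mem_cut.1 he).1 SG.oe_at
      h5)).resolve_left fun r => SG.Quo_ins r (rest_disj hk).symm h1⟩
  · have h4 : e ∈ G.cut F.Y := (SG.mem_tch_iff.1 (SG.tch_mono sdiff_subset h1)).resolve_left
      fun r => h3 ((SG.oe_at (G := G) (X := F.rest M) (e := e)).elim
        (fun k => k ▸ (SG.mem_ins.1 r).2.1) fun k => k ▸ (SG.mem_ins.1 r).2.2)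
    exact Or.inl ((h.ct e h4).resolve_left fun r => hM.j_rest h.wf r h1)

theorem IsM.q4 (h : F.Ok G T) (hM : F.IsM G M) (hk : F.Nd M i k) :
    ∃ c d, G.Q4 (M.w i k) (F.e M i k) (F.e M i (k + 1)) c d := by
  obtain ⟨h1, h2, h3⟩ := (hM.trk h.wf i).1.2.2 k hk.1
  exact SG.exists_q4 (h.bx _ hk.2).1.1 h1 h2 h3

theorem IsM.q3 (h : F.Ok G T) (hM : F.IsM G M) (hk : k ≤ M.n i) (hn : M.w i k ∉ F.Bs) :
    ∃ v g, M.w i k = {v} ∧ G.Q3 {v} (F.e M i k) (F.e M i (k + 1)) g ∧ G.ins {v} = ∅ := by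
  obtain ⟨v, hv, h0, -⟩ := (hM.node h.wf hk).2.2.2.resolve_left hn
  obtain ⟨h1, h2, h3⟩ := (hM.trk h.wf i).1.2.2 k hk
  rw [h0] at h1 h2
  obtain ⟨g, h4⟩ := h.hT.third h.hc (h.hY hv) h1 h2 h3
  exact ⟨v, g, h0, h4, (h.hT.vtx h.hc (h.hY hv)).2.1⟩

theorem Sa.union (h1 : F.Sa U) (h2 : F.Sa Z) : F.Sa (U ∪ Z) := by
  exact fun v hv => (mem_union.1 hv).elim (fun k => (h1 v k).trans subset_union_left)
    fun k => (h2 v k).trans subset_union_right

theorem sa_real (hU : ∀ B ∈ F.Bs, Disjoint B U) : F.Sa U := by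
  intro v hv
  rw [nd_of_not fun B hB k => disjoint_left.1 (hU B hB) k hv]
  exact singleton_subset_iff.2 hv

theorem sa_iff (hw : F.Wf G) : F.Sa U ↔ ∀ B ∈ F.Bs, B ⊆ U ∨ Disjoint B U := by
  constructor
  · intro h B hB
    by_cases k : Disjoint B U
    · exact Or.inr k
    · obtain ⟨v, h1, h2⟩ := not_disjoint_iff.1 k
      exact Or.inl (nd_of_mem hw.pd hB h1 ▸ h v h2)
  · intro h v hv
    rcases nd_cases hw.pd v with k | ⟨-, k⟩
    · exact (h _ k).resolve_right fun r => disjoint_left.1 r mem_nd_self hv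
    · rw [k]
      exact singleton_subset_iff.2 hv

end Kf

end Pool.Agent.Work.MP_8c679b_co
end

-- merged part: Pool.Agent.Work.MP_8c679b_co.Key.MB4
section
/-!
Absorbed parts, rungs left over, changes of signs.

Hints.  For a box use `F.Ok.pk` with `IsM.q4`; `Pk.rg`, `Rg.ie_mem`, `Rg.sp`, `Sp.link`, `HT.rung`,
`Rg.uniq`.  `rung_on`: a vertex of the rung has three edges: one to the absorbed part, the rung
edge, and `c` or `d`.  `F.W0 M σ \ F.rest M` is the disjoint union of the rungs left over, each has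
two vertices.  A node occurs at one position only (`IsM.inj`).
-/

set_option autoImplicit false

namespace Pool.Agent.Work.MP_8c679b_co

open Finset

variable {V E : Type} [Fintype V] [DecidableEq V] [DecidableEq E] {G : SG V E}
  {T U Z X B N N' : Finset V} {F : Kf V E} {M M' : Mb V E} {i j : Bool} {k l x y m : ℕ}
  {σ σ' π : Finset V → ZMod 2} {u : ℕ → Finset V} {h : ℕ → E} {a b c d e f : E} {v : V}
  {Zs : Finset (Finset V)} {g s : ZMod 2}
  {W : Finset V} {D : Finset E}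

namespace Kf

omit [Fintype V] [DecidableEq E] in
theorem MB4_box (hk : M.w i k ∈ F.Bs) :
    F.xs M σ i k = F.xf (M.w i k) (F.e M i k) (F.e M i (k + 1)) (σ (M.w i k)) := if_pos hk

omit [Fintype V] [DecidableEq E] in
theorem MB4_vtx (hk : M.w i k ∉ F.Bs) : F.xs M σ i k = M.w i k := if_neg hk

theorem MB4_rg (h : F.Ok G T) (hk : F.Nd M i k)
    (hq : G.Q4 (M.w i k) (F.e M i k) (F.e M i (k + 1)) c d) :
    G.Rg (M.w i k) (F.xs M σ i k) c d := by
  rw [MB4_box hk.2]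
  exact (h.pk _ hk.2 _ _ c d hq).rg _

theorem MB4_nd (h : F.Ok G T) (hk : F.Nd M i k) : M.w i k ⊆ T ∧ 2 < (M.w i k).card := by
  have h1 : M.w i k ⊆ T := (h.wf.sub _ hk.2).1.trans h.hY
  have h2 := h.hT.us_card h.hc h1 (h.bx _ hk.2).1
  exact ⟨h1, by omega⟩

theorem xs_sub (h : F.Ok G T) (hM : F.IsM G M) (hk : k ≤ M.n i) :
    F.xs M σ i k ⊆ M.w i k ∧ F.e M i k ∈ G.cut (F.xs M σ i k) ∧
      F.e M i (k + 1) ∈ G.cut (F.xs M σ i k) := by
  by_cases hB : M.w i k ∈ F.Bs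
  · obtain ⟨c, d, hq⟩ := hM.q4 h ⟨hk, hB⟩
    have hr := MB4_rg (σ := σ) h ⟨hk, hB⟩ hq
    obtain ⟨h1, h2⟩ := MB4_nd h ⟨hk, hB⟩
    exact ⟨hr.sub, (hr.ie_mem h.hc h.hT h1 hq h2).2.2⟩
  · rw [MB4_vtx hB]
    obtain ⟨h1, h2, -⟩ := (hM.trk h.wf i).1.2.2 k hk
    exact ⟨Subset.rfl, h1, h2⟩

theorem xs_rg (h : F.Ok G T) (hk : F.Nd M i k)
    (hq : G.Q4 (M.w i k) (F.e M i k) (F.e M i (k + 1)) c d) : G.Rg (M.w i k) (F.xs M σ i k) c d := by
  exact MB4_rg h hk hq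

theorem mem_xt : v ∈ F.xt M σ i ↔ ∃ k ≤ M.n i, v ∈ F.xs M σ i k := by
  simp only [xt, bu, mem_biUnion, mem_range, Nat.lt_succ_iff]

theorem mem_xo : v ∈ F.xo M σ i Zs ↔ ∃ k ≤ M.n i, M.w i k ∉ Zs ∧ v ∈ F.xs M σ i k := by
  simp only [xo, mem_biUnion, mem_filter, mem_range, Nat.lt_succ_iff, and_assoc]

theorem MB4_W0 : v ∈ F.W0 M σ ↔ v ∈ F.Y ∧ ∀ i, ∀ k ≤ M.n i, v ∉ F.xs M σ i k := by
  simp only [W0, mem_sdiff, mem_union, mem_xt, not_or, not_exists, not_and, Bool.forall_bool]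

theorem MB4_only (h : F.Ok G T) (hM : F.IsM G M) (hk : k ≤ M.n i) (hl : l ≤ M.n j)
    (hv : v ∈ M.w i k \ F.xs M σ i k) : v ∉ F.xs M σ j l := by
  intro hx
  by_cases he : j = i ∧ l = k
  · obtain ⟨rfl, rfl⟩ := he
    exact (mem_sdiff.1 hv).2 hx
  · exact disjoint_left.1 (hM.disj h.wf hk hl he) (mem_sdiff.1 hv).1 ((xs_sub h hM hl).1 hx)

theorem mem_W0 (h : F.Ok G T) (hM : F.IsM G M) :
    v ∈ F.W0 M σ ↔ v ∈ F.rest M ∨ ∃ i, ∃ k ≤ M.n i, v ∈ M.w i k \ F.xs M σ i k := by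
  rw [MB4_W0]
  constructor
  · rintro ⟨h1, h2⟩
    by_cases hr : v ∈ F.rest M
    · exact Or.inl hr
    · rw [mem_rest] at hr
      push Not at hr
      obtain ⟨i, k, hk, hv⟩ := hr h1
      exact Or.inr ⟨i, k, hk, mem_sdiff.2 ⟨hv, h2 i k hk⟩⟩
  · rintro (hr | ⟨i, k, hk, hv⟩)
    · rw [mem_rest] at hr
      exact ⟨hr.1, fun i k hk hx => hr.2 i k hk ((xs_sub h hM hk).1 hx)⟩
    · exact ⟨(hM.node h.wf hk).2.2.1 (mem_sdiff.1 hv).1, fun j l hl => MB4_only h hM hk hl hv⟩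

theorem W0_sub (h : F.Ok G T) (hM : F.IsM G M) : F.rest M ⊆ F.W0 M σ ∧ F.W0 M σ ⊆ F.Y := by
  exact ⟨fun v hv => (mem_W0 h hM).2 (Or.inl hv), sdiff_subset⟩

theorem W0_inter (h : F.Ok G T) (hM : F.IsM G M) (hk : k ≤ M.n i) :
    F.W0 M σ ∩ M.w i k = M.w i k \ F.xs M σ i k := by
  ext v
  rw [mem_inter]
  exact ⟨fun hv => mem_sdiff.2 ⟨hv.2, (MB4_W0.1 hv.1).2 i k hk⟩,
    fun hv => ⟨(mem_W0 h hM).2 (Or.inr ⟨i, k, hk, hv⟩), (mem_sdiff.1 hv).1⟩⟩

theorem mem_lo (h : F.Ok G T) (hM : F.IsM G M) :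
    v ∈ F.lo M σ i ↔ F.ty = false ∧ ∃ k ≤ M.n (!i), v ∈ M.w (!i) k \ F.xs M σ (!i) k := by
  rw [lo]
  cases ht : F.ty
  · rw [if_neg Bool.false_ne_true, mem_sdiff, mem_vt, mem_xt]
    constructor
    · rintro ⟨⟨k, hk, hv⟩, hn⟩
      exact ⟨rfl, k, hk, mem_sdiff.2 ⟨hv, fun hx => hn ⟨k, hk, hx⟩⟩⟩
    · rintro ⟨-, k, hk, hv⟩
      exact ⟨⟨k, hk, (mem_sdiff.1 hv).1⟩, fun ⟨l, hl, hx⟩ => MB4_only h hM hk hl hv hx⟩
  · simp

omit [Fintype V] [DecidableEq E] in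
theorem MB4_lf_nd (hl : F.Lf M σ i k) : F.Nd M i k :=
  ⟨hl.1, by_contra fun hB => hl.2 (MB4_vtx hB)⟩

theorem lf_str (h : F.Ok G T) (hM : F.IsM G M) (hl : F.Lf M σ i k) : F.Nd M i k ∧ ∀ c d,
    G.Q4 (M.w i k) (F.e M i k) (F.e M i (k + 1)) c d →
      G.Sp (M.w i k) (F.e M i k) (F.e M i (k + 1)) (F.xs M σ i k) ∧
      M.w i k \ F.xs M σ i k = {G.ie (M.w i k) c, G.ie (M.w i k) d} ∧ G.Dv (M.w i k) c d ∧
      ∃ x y r, G.Q4 (F.xs M σ i k) (F.e M i k) (F.e M i (k + 1)) x y ∧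
        G.Q4 (M.w i k \ F.xs M σ i k) x y c d ∧ G.ins (M.w i k \ F.xs M σ i k) = {r} ∧
        G.Je r (G.ie (M.w i k) c) (G.ie (M.w i k) d) := by
  have hk := MB4_lf_nd hl
  refine ⟨hk, fun c d hq => ?_⟩
  obtain ⟨h1, h2⟩ := MB4_nd h hk
  have hr := MB4_rg (σ := σ) h hk hq
  have hs := (hr.sp h.hc h.hT h1 hq h2 hl.2).1
  obtain ⟨-, e1, e2, e3⟩ := hr.resolve_left hl.2
  obtain ⟨x, y, q1, q2⟩ := (hs.str h.hc h.hT h1 hq).2.2.2.2.2.2.2.2.2.2.2.2
  have hsub : ({G.ie (M.w i k) c, G.ie (M.w i k) d} : Finset V) ⊆ T :=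
    e1 ▸ sdiff_subset.trans h1
  obtain ⟨-, -, r, r1, r2⟩ := h.hT.rung' h.hc (hsub (mem_insert_self _ _))
    (hsub (mem_insert_of_mem (mem_singleton_self _))) e2 e3
  exact ⟨hs, e1, e2, x, y, r, q1, q2, e1 ▸ r1, r2⟩

omit [Fintype V] in
theorem MB4_par (hE : G.Ev D) (h1 : G.crs D X ⊆ {a, b}) (h2 : a ∈ G.crs D X) :
    b ∈ G.crs D X := by
  by_contra hb
  have e : G.crs D X = {a} := by
    refine eq_singleton_iff_unique_mem.2 ⟨h2, fun e he => ?_⟩
    rcases mem_insert.1 (h1 he) with h | h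
    · exact h
    · exact absurd (mem_singleton.1 h ▸ he) hb
  have := hE.even_crs X
  rw [e, card_singleton] at this
  exact Nat.not_even_one this

omit [Fintype V] in
theorem MB4_vx {p q : V} {r : E} (hE : G.Ev D) (hA : D ⊆ G.A) (hpq : p ≠ q)
    (hr : G.ins {p, q} = {r}) (hj : G.Je r p q) (hc : c ∈ G.cut {p, q}) (hd : d ∈ G.cut {p, q})
    (hcp : G.At c p) (hdq : G.At d q) (hD : ∀ e ∈ D, e ∈ G.cut {p, q} → e = c ∨ e = d) :
    (r ∈ D → c ∈ D) ∧ (p ∈ G.vs D → r ∈ D) := by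
  have hp : p ∈ ({p, q} : Finset V) := mem_insert_self _ _
  have hq : q ∈ ({p, q} : Finset V) := mem_insert_of_mem (mem_singleton_self _)
  have k1 : ∀ e ∈ D, G.At e p → e = r ∨ e = c := by
    intro e he hat
    by_cases hi : e ∈ G.ins {p, q}
    · exact Or.inl (mem_singleton.1 (hr ▸ hi))
    · have hc' : e ∈ G.cut {p, q} := by
        refine SG.mem_cut.2 ⟨hA he, fun hh => hi (SG.mem_ins.2 ⟨hA he, ?_⟩)⟩
        rcases hat with h | h
        · exact ⟨h ▸ hp, hh.1 (h ▸ hp)⟩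
        · exact ⟨hh.2 (h ▸ hp), h ▸ hp⟩
      rcases hD e he hc' with h | h
      · exact Or.inr h
      · subst h
        refine absurd ?_ (SG.mem_cut.1 hd).2
        rcases hat with h | h <;> rcases hdq with h' | h'
        · exact absurd (h.symm.trans h') hpq
        · exact iff_of_true (h ▸ hp) (h' ▸ hq)
        · exact iff_of_true (h' ▸ hq) (h ▸ hp)
        · exact absurd (h.symm.trans h') hpq
  have k2 : G.crs D {p} ⊆ {r, c} := by
    intro e he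
    obtain ⟨h1, h2⟩ := SG.mem_crs.1 he
    rw [mem_insert, mem_singleton]
    refine k1 e h1 (by_contra fun hn => h2 ?_)
    rw [mem_singleton, mem_singleton]
    exact iff_of_false (fun h => hn (Or.inl h)) fun h => hn (Or.inr h)
  have k3 : r ∈ D → r ∈ G.crs D {p} := fun h => by
    refine SG.mem_crs.2 ⟨h, ?_⟩
    rw [mem_singleton, mem_singleton]
    rcases hj with ⟨h1, h2⟩ | ⟨h1, h2⟩
    · exact fun hh => hpq ((hh.1 h1).symm.trans h2)
    · exact fun hh => hpq ((hh.2 h2).symm.trans h1)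
  have k4 : c ∈ D → c ∈ G.crs D {p} := fun h => by
    refine SG.mem_crs.2 ⟨h, fun hh => (SG.mem_cut.1 hc).2 ?_⟩
    rw [mem_singleton, mem_singleton] at hh
    rcases hcp with h1 | h1
    · rw [h1, hh.1 h1]
    · rw [h1, hh.2 h1]
  refine ⟨fun h => (SG.mem_crs.1 (MB4_par hE k2 (k3 h))).1, fun h => ?_⟩
  obtain ⟨e, he, hat⟩ := SG.mem_vs.1 h
  rcases k1 e he hat with rfl | rfl
  · exact he
  · exact (SG.mem_crs.1 (MB4_par hE (pair_comm r e ▸ k2) (k4 he))).1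

omit [Fintype V] [DecidableEq E] in
theorem MB4_at (X : Finset V) (e : E) : G.At e (G.ie X e) := by
  rw [SG.ie]
  split_ifs
  exacts [Or.inl rfl, Or.inr rfl]

theorem rung_on (h : F.Ok G T) (hM : F.IsM G M) (hk : k ≤ M.n i)
    (hW : Disjoint W (F.xs M σ i k)) (hD : D ⊆ G.ins W) (hE : G.Ev D)
    (hm : ¬ Disjoint (M.w i k) (G.vs D)) :
    F.Lf M σ i k ∧ M.w i k \ F.xs M σ i k ⊆ G.vs D ∧ G.ins (M.w i k \ F.xs M σ i k) ⊆ D ∧
      ∀ c d, G.Q4 (M.w i k) (F.e M i k) (F.e M i (k + 1)) c d → c ∈ D ∧ d ∈ D := by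
  obtain ⟨v, hv, hvD⟩ := not_disjoint_iff.1 hm
  obtain ⟨hA, hvs⟩ := SG.sub_ins_iff.1 hD
  have hvx : v ∉ F.xs M σ i k := disjoint_left.1 hW (hvs hvD)
  have hl : F.Lf M σ i k := ⟨hk, fun he => hvx (he ▸ hv)⟩
  obtain ⟨hn, hs⟩ := lf_str h hM hl
  have hX : ∀ e ∈ D, e ∉ G.cut (F.xs M σ i k) := fun e he hc =>
    (SG.mem_cut.1 hc).2 (iff_of_false (disjoint_left.1 hW (SG.mem_ins.1 (hD he)).2.1)
      (disjoint_left.1 hW (SG.mem_ins.1 (hD he)).2.2))
  have key : ∀ c d, G.Q4 (M.w i k) (F.e M i k) (F.e M i (k + 1)) c d →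
      M.w i k \ F.xs M σ i k ⊆ G.vs D ∧ G.ins (M.w i k \ F.xs M σ i k) ⊆ D ∧ c ∈ D ∧ d ∈ D := by
    intro c d hq
    obtain ⟨-, e1, e2, x, y, r, q1, q2, r1, r2⟩ := hs c d hq
    have hv' : v ∈ M.w i k \ F.xs M σ i k := mem_sdiff.2 ⟨hv, hvx⟩
    rw [e1] at q2 r1 hv' ⊢
    have hcd : ∀ e ∈ D, e ∈ G.cut {G.ie (M.w i k) c, G.ie (M.w i k) d} → e = c ∨ e = d := by
      intro e he hc
      rw [q2.1] at hc
      simp only [mem_insert, mem_singleton] at hc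
      rcases hc with rfl | rfl | hc
      · exact absurd q1.mem.2.2.1 (hX _ he)
      · exact absurd q1.mem.2.2.2 (hX _ he)
      · exact hc
    have a1 := MB4_vx hE hA e2 r1 r2 q2.mem.2.2.1 q2.mem.2.2.2 (MB4_at _ c) (MB4_at _ d) hcd
    have a2 := MB4_vx hE hA (Ne.symm e2) (pair_comm _ (G.ie (M.w i k) d) ▸ r1) (Or.symm r2)
      (pair_comm _ (G.ie (M.w i k) d) ▸ q2.mem.2.2.2)
      (pair_comm _ (G.ie (M.w i k) d) ▸ q2.mem.2.2.1) (MB4_at _ d) (MB4_at _ c)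
      fun e he hc => (hcd e he (pair_comm (G.ie (M.w i k) d) _ ▸ hc)).symm
    have hr : r ∈ D := by
      rcases mem_insert.1 hv' with h | h
      · exact a1.2 (h ▸ hvD)
      · exact a2.2 (mem_singleton.1 h ▸ hvD)
    refine ⟨fun w hw => ?_, r1 ▸ singleton_subset_iff.2 hr, a1.1 hr, a2.1 hr⟩
    rcases mem_insert.1 hw with h | h
    · exact SG.mem_vs.2 ⟨c, a1.1 hr, h ▸ MB4_at _ c⟩
    · exact SG.mem_vs.2 ⟨d, a2.1 hr, mem_singleton.1 h ▸ MB4_at _ d⟩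
  obtain ⟨c, d, hq⟩ := hM.q4 h hn
  exact ⟨hl, (key c d hq).1, (key c d hq).2.1, fun c d hq => (key c d hq).2.2⟩

theorem lf_same (h : F.Ok G T) (hM : F.IsM G M) (h1 : F.Lf M σ i k) (h2 : F.Lf M σ' i k) :
    F.xs M σ' i k = F.xs M σ i k := by
  have hk := MB4_lf_nd h1
  obtain ⟨c, d, hq⟩ := hM.q4 h hk
  exact (MB4_rg h hk hq).uniq (MB4_rg h hk hq) h2.2 h1.2

omit [Fintype V] [DecidableEq E] in
theorem MB4_aj (ha : F.Aj M i k) (s s' : ZMod 2) :
    F.xf (M.w i k) (F.e M i k) (F.e M i (k + 1)) s =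
      F.xf (M.w i k) (F.e M i k) (F.e M i (k + 1)) s' := by
  rcases z2 s with rfl | rfl <;> rcases z2 s' with rfl | rfl
  exacts [rfl, ha.2, ha.2.symm, rfl]

theorem lf_four (h : F.Ok G T) (hM : F.IsM G M) (h1 : F.Lf M σ i k) (h2 : F.Aj M i k) :
    (M.w i k).card ≠ 4 := by
  intro h4
  obtain ⟨c, d, hq⟩ := hM.q4 h h2.1
  obtain ⟨s, hs⟩ := ((h.pk _ h2.1.2 _ _ c d hq).four h4).2
  exact h1.2 ((MB4_box h2.1.2).trans ((MB4_aj h2 _ s).trans hs))

theorem fl_xs (hM : F.IsM G M) (hk : k ≤ M.n i) (hl : l ≤ M.n j) (hne : ¬ (j = i ∧ l = k)) :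
    F.xs M (fl σ (M.w i k)) j l = F.xs M σ j l := by
  rw [xs, xs, fl, Function.update_of_ne fun he => hne (hM.inj hk hl he.symm)]

theorem fl_aj (hM : F.IsM G M) (ha : F.Aj M i k) :
    (∀ j, ∀ l ≤ M.n j, F.xs M (fl σ (M.w i k)) j l = F.xs M σ j l) ∧
      F.W0 M (fl σ (M.w i k)) = F.W0 M σ ∧ F.lc M (fl σ (M.w i k)) = F.lc M σ := by
  have k1 : ∀ j, ∀ l ≤ M.n j, F.xs M (fl σ (M.w i k)) j l = F.xs M σ j l := by
    intro j l hl
    by_cases he : j = i ∧ l = k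
    · obtain ⟨rfl, rfl⟩ := he
      rw [MB4_box ha.1.2, MB4_box ha.1.2]
      exact MB4_aj ha _ _
    · exact fl_xs hM ha.1.1 hl he
  have k2 : F.W0 M (fl σ (M.w i k)) = F.W0 M σ := by
    ext v
    rw [MB4_W0, MB4_W0]
    exact and_congr_right' (forall_congr' fun j => forall₂_congr fun l hl => by rw [k1 j l hl])
  exact ⟨k1, k2, by rw [lc, lc, k2]⟩

theorem MB4_off (h : F.Ok G T) (hM : F.IsM G M) (hk : k ≤ M.n i) :
    F.W0 M (fl σ (M.w i k)) \ M.w i k = F.W0 M σ \ M.w i k := by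
  ext v
  rw [mem_sdiff, mem_sdiff, MB4_W0, MB4_W0]
  refine and_congr_left fun hv => and_congr_right'
    (forall_congr' fun j => forall₂_congr fun l hl => ?_)
  by_cases he : j = i ∧ l = k
  · obtain ⟨rfl, rfl⟩ := he
    exact iff_of_true (fun hx => hv ((xs_sub h hM hl).1 hx)) fun hx => hv ((xs_sub h hM hl).1 hx)
  · rw [fl_xs hM hk hl he]

theorem MB4_lc (h : F.Ok G T) (hM : F.IsM G M) (hk : k ≤ M.n i) (σ : Finset V → ZMod 2) :
    F.lc M σ = ((F.W0 M σ \ M.w i k) \ F.rest M).card + (M.w i k \ F.xs M σ i k).card := by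
  rw [lc, ← card_sdiff_add_card_inter (F.W0 M σ \ F.rest M) (M.w i k), sdiff_right_comm,
    ← W0_inter h hM hk]
  congr 2
  ext v
  rw [mem_inter, mem_inter, mem_sdiff]
  exact and_congr_left fun hv => and_iff_left (disjoint_left.1 (rest_disj hk) hv)

theorem MB4_two (h : F.Ok G T) (hM : F.IsM G M) (hl : F.Lf M σ i k) :
    (M.w i k \ F.xs M σ i k).card = 2 := by
  have hk := MB4_lf_nd hl
  obtain ⟨c, d, hq⟩ := hM.q4 h hk
  obtain ⟨h1, h2⟩ := MB4_nd h hk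
  exact ((MB4_rg h hk hq).sp h.hc h.hT h1 hq h2 hl.2).2

theorem MB4_zero (h : F.Ok G T) (hM : F.IsM G M) (hk : k ≤ M.n i) (hl : ¬ F.Lf M σ i k) :
    (M.w i k \ F.xs M σ i k).card = 0 ∧ F.W0 M σ \ M.w i k = F.W0 M σ := by
  have e : F.xs M σ i k = M.w i k := by_contra fun hn => hl ⟨hk, hn⟩
  have e' := W0_inter (σ := σ) h hM hk
  rw [e, Finset.sdiff_self] at e' ⊢
  exact ⟨card_empty, sdiff_eq_self_of_disjoint (disjoint_iff_inter_eq_empty.2 e')⟩

theorem fl_lf (h : F.Ok G T) (hM : F.IsM G M) (hl : F.Lf M σ i k) (ha : ¬ F.Aj M i k) :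
    ¬ F.Lf M (fl σ (M.w i k)) i k ∧ F.W0 M (fl σ (M.w i k)) = F.W0 M σ \ M.w i k ∧
      F.lc M (fl σ (M.w i k)) + 2 = F.lc M σ := by
  have hk := MB4_lf_nd hl
  have k1 : ¬ F.Lf M (fl σ (M.w i k)) i k := fun hl' => by
    have e := lf_same h hM hl hl'
    rw [MB4_box hk.2, MB4_box hk.2, fl, Function.update_self] at e
    refine ha ⟨hk, ?_⟩
    rcases z2 (σ (M.w i k)) with h0 | h0
    · rw [h0, zero_add] at e
      exact e.symm
    · rw [h0, z2_add_self] at e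
      exact e
  obtain ⟨k2, k3⟩ := MB4_zero h hM hl.1 k1
  refine ⟨k1, k3.symm.trans (MB4_off h hM hl.1), ?_⟩
  rw [MB4_lc h hM hl.1, MB4_lc h hM hl.1 σ, k2, MB4_two h hM hl, MB4_off h hM hl.1]

theorem fl_cp (h : F.Ok G T) (hM : F.IsM G M) (hk : k ≤ M.n i) (hl : ¬ F.Lf M σ i k) :
    F.W0 M σ ⊆ F.W0 M (fl σ (M.w i k)) ∧ F.W0 M (fl σ (M.w i k)) ⊆ F.W0 M σ ∪ M.w i k ∧
      F.lc M (fl σ (M.w i k)) ≤ F.lc M σ + 2 := by
  obtain ⟨k2, k3⟩ := MB4_zero h hM hk hl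
  have k4 := MB4_off (σ := σ) h hM hk
  refine ⟨?_, fun v hv => ?_, ?_⟩
  · rw [← k3, ← k4]
    exact sdiff_subset
  · by_cases hN : v ∈ M.w i k
    · exact mem_union_right _ hN
    · exact mem_union_left _ (mem_sdiff.1 (k4 ▸ mem_sdiff.2 ⟨hv, hN⟩)).1
  · rw [MB4_lc h hM hk, MB4_lc h hM hk σ, k2, k4]
    by_cases hl' : F.Lf M (fl σ (M.w i k)) i k
    · rw [MB4_two h hM hl']
    · rw [(MB4_zero h hM hk hl').1]
      omega

theorem fl_le (h : F.Ok G T) (hM : F.IsM G M) (hl : F.Lf M σ i k ∨ F.Aj M i k) :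
    F.W0 M (fl σ (M.w i k)) ⊆ F.W0 M σ ∧ F.lc M (fl σ (M.w i k)) ≤ F.lc M σ := by
  by_cases ha : F.Aj M i k
  · obtain ⟨-, k1, k2⟩ := fl_aj (σ := σ) hM ha
    exact ⟨k1.le, k2.le⟩
  · obtain ⟨-, k1, k2⟩ := fl_lf h hM (hl.resolve_right ha) ha
    exact ⟨k1 ▸ sdiff_subset, by omega⟩

end Kf

end Pool.Agent.Work.MP_8c679b_co
end
end
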