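import Pool.Agent.Work.MP_8c679b_co.Key.ChA
import Pool.Agent.Work.MP_8c679b_co.Six.PAll
import Pool.Agent.Work.MP_8c679b_co.Key.MB4
import Pool.Agent.Work.MP_8c679b_co.Six.GNorm
import Pool.Agent.Work.MP_8c679b_co.K1.GT1
import Pool.Agent.Work.MP_8c679b_co.K1.Tp2

-- merged part: Pool.Agent.Work.MP_8c679b_co.Key.Ch
section
-- merged part: Pool.Agent.Work.MP_8c679b_co.Key.ChB
section
/-!
Double passes of a chain: crossing sides and the passes of a head.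
-/

set_option autoImplicit false

namespace Pool.Agent.Work.MP_8c679b_co

open Finset

theorem ChB_z : ∀ (s1 s3 nx ny l : ZMod 2) (c1 c3 k : ZMod 3), ∃ j : ZMod 3, ∀ r s : ZMod 3,
    r + chi l * s = j → ∃ x ξ y : ZMod 3, x + chi s1 * ξ = c1 ∧ -(chi nx) * ξ = r ∧
      -(chi ny) * s + chi s3 * y = c3 ∧ x + chi (s1 + s3 + (nx + ny) + l) * y = k := by
  intro s1 s3 nx ny l c1 c3 k
  have a1 := chi_mul_self (R := ZMod 3) s1
  have a3 := chi_mul_self (R := ZMod 3) s3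
  have ax := chi_mul_self (R := ZMod 3) nx
  have ay := chi_mul_self (R := ZMod 3) ny
  refine ⟨chi s1 * chi nx * (k - c1 - chi s1 * chi nx * chi ny * chi l * c3), fun r s h =>
    ⟨c1 + chi s1 * chi nx * r, -(chi nx) * r, chi s3 * (c3 + chi ny * s), by ring,
      by linear_combination r * ax, by linear_combination (c3 + chi ny * s) * a3, ?_⟩⟩
  rw [chi_add, chi_add, chi_add, chi_add]
  linear_combination chi s1 * chi nx * h +
    (chi s1 * chi nx * chi ny * chi l * (c3 + chi ny * s)) * a3 +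
    (chi s1 * chi nx * chi l * s) * ay +
    (k - c1 - chi s1 * chi nx * chi ny * chi l * c3) * (chi nx * chi nx * a1 + ax)

theorem ChB_mt {R1 R2 R3 : Rl} {s1 s3 l : ZMod 2} (nx ny : ZMod 2) (h1 : R1.P s1) (h2 : R2.Mt l)
    (h3 : R3.P s3) : (Rl.Z3cp ny (Rl.Z3cp nx R1 R2) R3).Mt (s1 + s3 + (nx + ny) + l) := by
  obtain ⟨c1, h1⟩ := h1
  obtain ⟨c3, h3⟩ := h3
  intro k
  obtain ⟨j, hj⟩ := ChB_z s1 s3 nx ny l c1 c3 k
  obtain ⟨r, s, k1, k2⟩ := h2 j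
  obtain ⟨x, ξ, y, k3, k4, k5, k6⟩ := hj r s k2
  exact ⟨x, y, ⟨s, ⟨ξ, h1 _ _ k3, k4 ▸ k1⟩, h3 _ _ k5⟩, k6⟩

theorem ChB_swap {R : Rl} {l : ZMod 2} (h : R.Mt l) : Rl.Mt l fun x y => R y x := fun k => by
  obtain ⟨x, y, k1, k2⟩ := h (chi l * k)
  exact ⟨y, x, k1, ChA_chi _ _ _ _ k2⟩

namespace SG

variable {V E : Type} [Fintype V] [DecidableEq V] [DecidableEq E] {G : SG V E}
  {T S X Y Z X0 X1 : Finset V} {a b c d x y u w : E} {l : ZMod 2}

/-- a side that crosses a split contains both links -/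
theorem ch_link (hc : G.Cub) (hT : G.HT T) (hS : S ⊆ T) (hq : G.Q4 S a b c d)
    (h : G.Sp S a b X) (hx : G.Q4 X a b x y) (hZ : Z ⊆ S) (hu : G.US Z) (h1 : ¬ Z ⊆ X)
    (h2 : ¬ Z ⊆ S \ X) : x ∈ G.ins Z ∧ y ∈ G.ins Z ∧ (G.cut (Z ∩ X)).card = 4 ∧
      x ∈ G.cut (Z ∩ X) ∧ y ∈ G.cut (Z ∩ X) := by
  obtain ⟨-, -, -, dv, -, -, hcr⟩ := h.link hc hT hS hq hx
  have k0 := cut_add (G := G) (inter_subset_left (s₁ := Z) (s₂ := X))
  have k1 : G.crs (G.ins Z) (Z ∩ X) ⊆ {x, y} := fun e he => by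
    rw [← hcr]
    have z1 := @hZ (G.s e)
    have z2 := @hZ (G.t e)
    simp only [mem_crs, mem_ins, mem_inter] at he ⊢
    clear * - he z1 z2
    tauto
  have n1 : (Z ∩ X).Nonempty := by
    obtain ⟨v, v1, v2⟩ := not_subset.1 h2
    exact ⟨v, mem_inter.2 ⟨v1, by_contra fun k => v2 (mem_sdiff.2 ⟨hZ v1, k⟩)⟩⟩
  have n2 : (Z \ (Z ∩ X)).Nonempty := by
    obtain ⟨v, v1, v2⟩ := not_subset.1 h1
    exact ⟨v, mem_sdiff.2 ⟨v1, fun k => v2 (mem_inter.1 k).2⟩⟩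
  have s1 : Z ∩ X ⊆ S := inter_subset_left.trans hZ
  have s2 : Z \ (Z ∩ X) ⊆ S := sdiff_subset.trans hZ
  have c1 := hT.mono3 (s1.trans hS) n1
  have c2 := hT.mono3 (s2.trans hS) n2
  have c3 := hT.four' hS hq.card s1
  have c4 := hT.four' hS hq.card s2
  have c5 := hT.us_card hc (hZ.trans hS) hu
  have c6 := card_sdiff_add_card_eq_card (inter_subset_left (s₁ := Z) (s₂ := X))
  have c7 := card_le_card k1
  have c8 := card_pos.2 n1
  have c9 := card_pos.2 n2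
  have p1 := hT.par hc (s1.trans hS)
  have p2 := hT.par hc (s2.trans hS)
  rw [card_pair hx.2.2.2.2.2.2] at c7
  rw [hu.1] at k0
  have k2 : G.crs (G.ins Z) (Z ∩ X) = {x, y} :=
    eq_of_subset_of_card_le k1 (by rw [card_pair hx.2.2.2.2.2.2]; omega)
  have k3 : ∀ e ∈ ({x, y} : Finset E), e ∈ G.ins Z ∧ e ∈ G.cut (Z ∩ X) := fun e he => by
    rw [← k2] at he
    exact ⟨(mem_crs.1 he).1, mem_cut.2 ⟨ins_sub_A (mem_crs.1 he).1, (mem_crs.1 he).2⟩⟩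
  obtain ⟨x1, x2⟩ := k3 x (by simp)
  obtain ⟨y1, y2⟩ := k3 y (by simp)
  have e1 := (cut_of_sub inter_subset_right hx.mem.2.2.1 (cut_sub_tch x2)).2
  have e2 := (cut_of_sub inter_subset_right hx.mem.2.2.2 (cut_sub_tch y2)).2
  have c10 : 1 < (Z ∩ X).card := one_lt_card.2 ⟨_, Spl_ie x2, _, Spl_ie y2, by rwa [e1, e2]⟩
  have c11 : 1 < (Z \ (Z ∩ X)).card := by
    by_contra k
    have hq' := (h.link hc hT hS hq hx).1
    have dv' := (h.link hc hT hS hq hx).2.2.2.2.1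
    have m : ∀ e ∈ G.ins Z, e ∈ G.cut (S \ X) → G.ie (S \ X) e ∈ Z \ (Z ∩ X) := fun e e1 e2 => by
      have m1 := Spl_ie e2
      have m2 : G.ie (S \ X) e ∈ Z := by
        rcases ie_at (G := G) (e := e) (X := S \ X) with r | r
        exacts [r ▸ (mem_ins.1 e1).2.1, r ▸ (mem_ins.1 e1).2.2]
      exact mem_sdiff.2 ⟨m2, fun r => (mem_sdiff.1 m1).2 (mem_inter.1 r).2⟩
    exact k (one_lt_card.2 ⟨_, m x x1 hq'.mem.1, _, m y y1 hq'.mem.2.1, dv'⟩)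
  rw [k2, card_pair hx.2.2.2.2.2.2] at k0
  exact ⟨x1, y1, by omega, x2, y2⟩

/-- a final part contains the last piece -/
theorem ch_last (hT : G.HT T) (hX : X ⊆ T) (hY : Y ⊆ X) (hq : G.Q4 Y x y u w) (hn : G.NC Y x y)
    (hu : u ∈ G.cut X) (hw : w ∈ G.cut X) (hZ : Z ⊆ X) (h4 : (G.cut Z).card = 4)
    (zu : u ∈ G.cut Z) (zw : w ∈ G.cut Z) : Y ⊆ Z := by
  by_contra k
  obtain ⟨-, -, yu, yw⟩ := hq.mem
  have k0 := cut_posi (G := G) (X := Y) (Y := Z)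
  have k1 : ∀ e ∈ G.cut X, e ∈ G.cut Y → e ∈ G.cut Z → e ∈ G.cut (Y ∩ Z) ∩ G.cut (Y ∪ Z) :=
    fun e e1 e2 e3 => by
      have y1 := @hY (G.s e)
      have y2 := @hY (G.t e)
      have z1 := @hZ (G.s e)
      have z2 := @hZ (G.t e)
      simp only [mem_cut, mem_inter, mem_union] at e1 e2 e3 ⊢
      clear * - e1 e2 e3 y1 y2 z1 z2
      by_cases p : G.s e ∈ Y <;> by_cases q : G.s e ∈ Z <;> by_cases p' : G.t e ∈ Y <;>
        by_cases q' : G.t e ∈ Z <;> simp_all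
  have k2 : 1 < (G.cut (Y ∩ Z) ∩ G.cut (Y ∪ Z)).card :=
    one_lt_card.2 ⟨u, k1 u hu yu zu, w, k1 w hw yw zw, hq.2.2.2.2.2.2⟩
  have k3 := hT.mono3 ((sdiff_subset.trans hY).trans hX) (sdiff_nonempty.2 k)
  have k4 : Z ⊆ Y := by
    by_contra r
    have := hT.mono3 ((sdiff_subset.trans hZ).trans hX) (sdiff_nonempty.2 r)
    rw [hq.card, h4] at k0
    omega
  exact hn _ ((Spl_sp_of hT (hY.trans hX) ⟨k4, k⟩ hq.card h4 hq.2.2.2.2.2.2 ⟨zu, yu⟩
    ⟨zw, yw⟩).compl hq.flip)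

theorem ChB_hd {U1 U2 : Finset V} {P1 P2 Om : Finset E} {p : V → ZMod 2}
    {K : Set (Finset E)} (hc : G.Cub) (hT : G.HT T) (hS : S ⊆ T)
    (hq : G.Q4 S a b c d) (hsp : G.Sp S a b X0) (hx : G.Q4 X0 a b x y)
    (hp : ∀ e ∈ G.ins X0, G.sw p e = 0) (hm : G.Pas0 (S \ X0) Om x y ∅ K (Rl.Mt l)) (u1 : U1 ⊆ X0)
    (u2 : U2 ⊆ X0) (dj : Disjoint U1 U2) (p1 : G.Pp U1 P1 (G.ie X0 a) (G.ie X0 x))
    (p2 : G.Pp U2 P2 (G.ie X0 b) (G.ie X0 y)) : ∃ O,
      G.par (O ∩ G.ins S) = p (G.ie X0 a) + p (G.ie X0 b) + (p (G.ie X0 x) + p (G.ie X0 y)) +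
        (G.n x + G.n y) + G.par (Om ∩ G.ins (S \ X0)) ∧
      G.Pas0 S O a b ∅ K (Rl.Mt (p (G.ie X0 a) + p (G.ie X0 b) +
        (p (G.ie X0 x) + p (G.ie X0 y)) + (G.n x + G.n y) + l)) := by
  obtain ⟨ha, hb, hc', hd'⟩ := hq.mem
  obtain ⟨xa, xb, xx, xy⟩ := hx.mem
  obtain ⟨hss, -, ia, ib, ic, id', -⟩ := hsp.str hc hT hS hq
  obtain ⟨hq', -⟩ := hsp.link hc hT hS hq hx
  have hX := hss.subset
  obtain ⟨a1, a2⟩ := Spl_cut_of u1 xa p1.2.2.2.1
  obtain ⟨x1, x2⟩ := Spl_cut_of u1 xx p1.2.2.2.2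
  obtain ⟨b1, b2⟩ := Spl_cut_of u2 xb p2.2.2.2.1
  obtain ⟨y1, y2⟩ := Spl_cut_of u2 xy p2.2.2.2.2
  have q1 : ∀ e ∈ P1, G.sw p e = 0 := fun e he => hp e (ins_mono u1 (p1.1 he))
  have q2 : ∀ e ∈ P2, G.sw p e = 0 := fun e he => hp e (ins_mono u2 (p2.1 he))
  have m1 : G.ie S a ∈ U1 := ia ▸ p1.2.2.2.1
  have m2 : G.ie S b ∈ U2 := ib ▸ p2.2.2.2.1
  rw [← a2, ← x2] at p1
  rw [← b2, ← y2] at p2
  rw [← a2, ← x2, ← b2, ← y2]
  have ax : a ≠ x := hx.2.2.1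
  have yb : y ≠ b := hx.2.2.2.2.2.1.symm
  have s1 := p1.st a1 x1 ax
  have s2 := p2.symm.st y1 b1 yb
  obtain ⟨t1, t2, t3, t4⟩ :=
    KBp_three (u1.trans hX) sdiff_subset (u2.trans hX) (disjoint_sdiff.mono_left u1) dj
      (disjoint_sdiff.mono_left u2).symm s1.1 hm.2.1 s2.1 ax hm.1 yb (Pure_fr p1.1 a1 x1)
      Subset.rfl (Pure_fr p2.1 y1 b1) (pure_pc p1 a1 x1 ax q1) hm.2.2
      (pure_pc p2.symm y1 b1 yb q2) ha hb
  have hW : U1 ∪ S \ X0 ∪ U2 ⊆ S :=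
    union_subset (union_subset (u1.trans hX) sdiff_subset) (u2.trans hX)
  obtain ⟨O', o1, o2⟩ := KBp_bal (W := S \ (U1 ∪ S \ X0 ∪ U2)) hT (hX.trans hS) (fun v hv => by
    simp only [mem_sdiff, mem_union] at hv
    clear * - hv
    tauto) hp
  obtain ⟨r1, r2⟩ := finp (K0 := K) ⟨hq.2.1, t1, (t4.imp fun ψ R _ ⟨R1, R2, R3, h1, h2, h3, e⟩ =>
      ⟨R, e ▸ ChB_mt (G.n x) (G.n y) ⟨_, h1⟩ h2 ⟨_, h3⟩, fun _ _ h => h⟩).mono t3 fr_sub_tch⟩
    hW ha hb (empty_subset _) o2 a (fun e he h => by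
      refine absurd h (KBp_out hW he ?_)
      rcases (Spl_mem hq e).1 he with rfl | rfl | rfl | rfl
      · exact mem_union_left _ (mem_union_left _ m1)
      · exact mem_union_right _ m2
      · exact mem_union_left _ (mem_union_right _ (ic ▸ Spl_ie hq'.mem.2.2.1))
      · exact mem_union_left _ (mem_union_right _ (id' ▸ Spl_ie hq'.mem.2.2.2)))
      fun t ht => Or.inl ⟨t, Or.inl ht, Subset.rfl⟩
  refine ⟨_, ?_, r1.imp fun R h => ?_⟩
  · rw [r2, o1, t2, s1.2, s2.2, p1.par q1, p2.par q2]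
    ring
  · convert h using 1
    ring

/-- two paths through a balanced split joined by a pass that meets all lines of one slope -/
theorem ch_hd {p : V → ZMod 2} (hc : G.Cub) (hT : G.HT T) (hS : S ⊆ T) (hq : G.Q4 S a b c d)
    (hsp : G.Sp S a b X0) (hx : G.Q4 X0 a b x y) (hp : ∀ e ∈ G.ins X0, G.sw p e = 0) :
    ∃ κ, ∀ Om K l, G.Pas0 (S \ X0) Om x y ∅ K (Rl.Mt l) → ∃ O,
      G.par (O ∩ G.ins S) = κ + G.par (Om ∩ G.ins (S \ X0)) ∧
      G.Pas0 S O a b ∅ K (Rl.Mt (κ + l)) := by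
  obtain ⟨hss, -, -, -, -, -, hv, -⟩ := hsp.str hc hT hS hq
  obtain ⟨U1, U2, P1, P2, x', y', g, hxy, u1, u2, dj, p1, p2, -⟩ :=
    link_chord hc hT (hss.subset.trans hS) hx hv
  rcases hxy with ⟨rfl, rfl⟩ | ⟨rfl, rfl⟩
  · exact ⟨_, fun Om K l hm => ChB_hd hc hT hS hq hsp hx hp hm u1 u2 dj p1 p2⟩
  · exact ⟨_, fun Om K l hm => ChB_hd hc hT hS hq hsp hx.swap2 hp
      (hm.symm fun _ h => ChB_swap h) u1 u2 dj p1 p2⟩

variable (G) in
/-- complete passes of an initial part `X` with links `u, w`: a real pass or both parities with a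
tolerance vertex in all final parts, and a pass without tolerance -/
def ChP (X : Finset V) (a b u w : E) : Prop :=
  ((∃ s, G.Rc X a b s) ∨ ∃ l, ∀ ε, ∃ O, ∃ v ∈ X,
    (∀ Z ⊆ X, (G.cut Z).card = 4 → u ∈ G.cut Z → w ∈ G.cut Z → v ∈ Z) ∧
    G.par (O ∩ G.ins X) = ε ∧ G.Pas0 X O a b ∅ (G.Kv X v) (Rl.Mt l)) ∧
  ∃ O σ, G.Pas0 X O a b ∅ (G.Kus X) (Rl.P σ)

theorem ChB_rc {s : ZMod 2} (h : G.Rc X a b s) : G.ChP X a b u w :=
  ⟨Or.inl ⟨s, h⟩, h.imp fun _ k => ⟨s, k.2⟩⟩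

theorem chp_bal (hc : G.Cub) (hT : G.HT T) (hX : X ⊆ T) (hq : G.Q4 X a b u w) (hv : G.Dv X a b)
    (hB : G.Bal (G.ins X)) : ∃ s, G.Rc X a b s := by
  obtain ⟨p, hp⟩ := id hB
  obtain ⟨O, h1, h2⟩ := bp hc hT hX a b u w hq hv p hp
  exact ⟨_, O, h1, (kus_bal hB).symm ▸ h2⟩

theorem chp_nc (hc : G.Cub) (hT : G.HT T) (hX : X ⊆ T) (hq : G.Q4 X a b u w) (hu : G.US X)
    (hn : G.NC X a b) (hE : G.ER X a b) : G.ChP X a b u w := by
  rcases hE 0 with h | h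
  · exact ChB_rc h
  refine ⟨Or.inr ⟨0 + 1, fun ε => ?_⟩, ?_⟩
  · obtain ⟨O, v, v1, k⟩ := h ε
    exact ⟨O, v, v1, fun Z hZ h4 zu zw => ch_last hT hX Subset.rfl hq hn hq.mem.2.2.1 hq.mem.2.2.2
      hZ h4 zu zw v1, k⟩
  · obtain ⟨O, k⟩ := (kb hc hT X hX).2.2.2.2.1 hu a b u w hq hn 0
    exact ⟨O, 0, k⟩

theorem chp_hd (hc : G.Cub) (hT : G.HT T) (hX : X1 ⊆ T) (hq : G.Q4 X1 a b u w)
    (hs : G.Sp X1 a b X0) (hx : G.Q4 X0 a b x y) (hB : G.Bal (G.ins X0))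
    (hn : G.NC (X1 \ X0) x y) (hE : G.US (X1 \ X0) → G.ER (X1 \ X0) x y) : G.ChP X1 a b u w := by
  obtain ⟨p, hp⟩ := id hB
  obtain ⟨hq', -, -, -, hv, -⟩ := hs.link hc hT hX hq hx
  have hY : X1 \ X0 ⊆ T := sdiff_subset.trans hX
  have hd := hdp hc hT hX hq.card a b X0 x y hs hx p hp
  have rc : ∀ s, G.Rc (X1 \ X0) x y s → G.ChP X1 a b u w := fun s ⟨O, h1, h2⟩ => by
    obtain ⟨O', k1, k2, -⟩ := hd O _ _ h2
    exact ChB_rc ⟨O', h1 ▸ k1, PFp_cov1 hc hT hX hq hs hx hB hn (k2 s fun _ k => k)⟩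
  by_cases hb : G.Bal (G.ins (X1 \ X0))
  · obtain ⟨s, k⟩ := chp_bal hc hT hY hq' hv hb
    exact rc s k
  have hu : G.US (X1 \ X0) := ⟨hq'.card, hb⟩
  rcases hE hu 0 with h | h
  · exact rc 0 h
  refine ⟨Or.inr ?_, ?_⟩
  · obtain ⟨κ, hκ⟩ := ch_hd hc hT hX hq hs hx hp
    refine ⟨κ + (0 + 1), fun ε => ?_⟩
    · obtain ⟨O, v, v1, k1, k2⟩ := h (κ + ε)
      obtain ⟨O', k3, k4⟩ := hκ O _ _ k2
      refine ⟨O', v, (mem_sdiff.1 v1).1, fun Z hZ h4 zu zw => ch_last hT hX sdiff_subset hq' hn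
        hq.mem.2.2.1 hq.mem.2.2.2 hZ h4 zu zw v1, by rw [k3, k1, ← add_assoc, z2_add_self, zero_add],
        PFp_cov hq k4 ?_⟩
      rintro _ ⟨Z, z1, z2, z3, rfl⟩
      rcases hs.f6 hc hT hX hq z1 z2 with k | k | k | ⟨X', k5, k6, -⟩
      · exact absurd (hB.mono (ins_mono k)) z2.2
      · exact Or.inl ⟨_, ⟨Z, k, z2, z3, rfl⟩, Subset.rfl⟩
      · exact Or.inr k.1
      · exact absurd (hs.sub hc hT hX hq hx k5 k6).1 (hn _)
  · obtain ⟨O, k⟩ := (kb hc hT _ hY).2.2.2.2.1 hu x y u w hq' hn 0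
    obtain ⟨O', -, k2, -⟩ := hd O _ _ k
    exact ⟨O', _, PFp_cov1 hc hT hX hq hs hx hB hn (k2 0 fun _ k => k)⟩

/-- the least unbalanced initial part -/
theorem ch_head (hc : G.Cub) (hT : G.HT T) (hS : S ⊆ T) (hq : G.Q4 S a b c d)
    (hI : ∀ N ⊂ S, G.IHd N) : ∃ X1, (∀ X, G.Sp S a b X → ¬ G.Bal (G.ins X) → X1 ⊆ X) ∧
      (X1 = S ∨ (G.Sp S a b X1 ∧ G.US X1 ∧ ∀ u w, G.Q4 X1 a b u w → G.ChP X1 a b u w)) := by
  rcases exists_bal hc hT hS hq with h | ⟨X0, h1, h2, h3⟩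
  · obtain ⟨P, k1, k2, k3⟩ := exists_piece hc hT hS hq
    refine ⟨P, fun X hX _ => k3 X hX, k1.imp_right fun k => ?_⟩
    have k4 : G.US P := ⟨k.2.1, h P k⟩
    exact ⟨k, k4, fun u w hp => chp_nc hc hT (k.1.trans hS) hp k4 k2
      (hI P (Spl_ss k) P Subset.rfl k4 a b u w hp k2).1⟩
  · obtain ⟨-, -, -, -, -, -, -, -, -, -, -, -, x, y, hx, -⟩ := h1.str hc hT hS hq
    obtain ⟨X1, u, w, k1, k2, -, k4, k5, -, -, k8⟩ := exists_next hc hT hS hq h1 hx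
    refine ⟨X1, fun X hX hb => k8 X hX ?_, k1.imp_right fun k => ?_⟩
    · rcases h1.nested hc hT hS hq hX with r | r
      · exact r.ssubset_of_ne fun e => hb (e ▸ h2)
      · exact absurd (h2.mono (ins_mono r)) hb
    · exact ⟨k, ⟨k.2.1, h3 X1 k (Spl_ss k2)⟩, fun u' w' hp =>
        chp_hd hc hT (k.1.trans hS) hp k2 hx h2 k5 fun r =>
          (hI X1 (Spl_ss k) _ sdiff_subset r x y u w k4 k5).1⟩

end SG

end Pool.Agent.Work.MP_8c679b_co
end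

-- merged part: Pool.Agent.Work.MP_8c679b_co.Key.TY2a
section
/-!
Elementary passes: balanced double passes, four-cycles, sweeps.

Hints.  `bdp`: `link_chord` gives two disjoint paths; `pure_p` twice, `dq_par`, then `finq` with
`HT.abs_bal` for the rest (see `hdp` in `Six/KBp.lean`); `Pp.par` gives the parity.
`dp_plus`: `HT.qst`; the two matchings `e1, e3` and `e4, e2` have different total signs.
`q_real`: diagonal pair: the two arcs from `a` to `b` have different signs; absorb the fourth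
vertex first (`finp`, `vtx_abs`); the only target is `G.cut N` (`HT.kus4`) and contains a dead edge.
Adjacent pair: the edge itself (`X = ` the rung at `a, b`, no target) and the long arc (`X = N`).
`tl2`: copy the proof of `tlp` in `Six/KSw.lean` (`swp` with `kb`, `sw_cov`, `Abs0.seqP`);
`St.par_bal` gives `δ = 0`; for the version with tolerance a target `G.cut S` with `v ∉ S` that
contains a member `G.cut S'` of `G.Kus X1` equals it, so `S' = S` (`cut_inj`).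
-/

set_option autoImplicit false

namespace Pool.Agent.Work.MP_8c679b_co

open Finset

namespace SG

variable {V E : Type} [Fintype V] [DecidableEq V] [DecidableEq E] {G : SG V E}
  {T N S X X0 X1 : Finset V} {a b c d x y : E} {p : V → ZMod 2}

/-- two disjoint consistent paths and a balanced rest -/
theorem TY2a_core {U1 U2 : Finset V} {P1 P2 : Finset E} (hT : G.HT T) (hS : S ⊆ T)
    (hq : G.Q4 S a b c d) (u1 : U1 ⊆ S) (u2 : U2 ⊆ S) (dj : Disjoint U1 U2)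
    (p1 : G.Pp U1 P1 (G.ie S a) (G.ie S c)) (p2 : G.Pp U2 P2 (G.ie S b) (G.ie S d))
    (q1 : ∀ e ∈ P1, G.sw p e = 0) (q2 : ∀ e ∈ P2, G.sw p e = 0)
    (hB : G.Bal (G.ins (S \ (U1 ∪ U2)))) :
    ∃ O, G.par (O ∩ G.ins S) = p (G.ie S a) + p (G.ie S b) + (p (G.ie S c) + p (G.ie S d)) ∧
      G.Dq S O ∅ ∅ a b c d
        (Rf.PP (p (G.ie S a) + p (G.ie S b) + (p (G.ie S c) + p (G.ie S d)))) := by
  obtain ⟨ha, hb, hc', hd'⟩ := hq.mem
  have ka := KBp_end u1 u2 dj ha p1.2.2.2.1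
  have kc := KBp_end u1 u2 dj hc' p1.2.2.2.2
  have kb := KBp_end u2 u1 dj.symm hb p2.2.2.2.1
  have kd := KBp_end u2 u1 dj.symm hd' p2.2.2.2.2
  have hW : U1 ∪ U2 ⊆ S := union_subset u1 u2
  have ko : ∀ e ∈ G.cut S, e ∉ G.tch (S \ (U1 ∪ U2)) := fun e he => KBp_out hW he (by
    rcases (Spl_mem hq e).1 he with rfl | rfl | rfl | rfl
    · exact mem_union_left _ p1.2.2.2.1
    · exact mem_union_right _ p2.2.2.2.1
    · exact mem_union_left _ p1.2.2.2.2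
    · exact mem_union_right _ p2.2.2.2.2)
  rw [← ka.2, ← kc.2] at p1
  rw [← kb.2, ← kd.2] at p2
  rw [← ka.2, ← kb.2, ← kc.2, ← kd.2]
  have ac : a ≠ c := hq.2.2.1
  have bd : b ≠ d := hq.2.2.2.2.2.1
  obtain ⟨t1, t2⟩ := dq_par (L := ∅) (C := Rf.PP (p (G.ie U1 a) + p (G.ie U2 b) +
      (p (G.ie U1 c) + p (G.ie U2 d))))
    (pure_p (L := ∅) p1 ka.1.1 kc.1.1 ac q1) (pure_p (L := ∅) p2 kb.1.1 kd.1.1 bd q2) dj
    ka.1.2 kc.1.2 kb.1.2 kd.1.2 (fun _ h => absurd h (notMem_empty _))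
    (fun _ h => absurd h (notMem_empty _)) fun R1 R2 ⟨c1, h1⟩ ⟨c2, h2⟩ =>
      ⟨_, _, c1, c2, by ring, Or.inl fun x y u w k1 k2 => ⟨h1 x u k1, h2 y w k2⟩⟩
  obtain ⟨O', o1, o2⟩ := hT.abs_bal (sdiff_subset.trans hS) hB
  obtain ⟨f1, f2⟩ := finq (K0 := ∅) t1 hW (fun e he => hq.1 ▸ he) o2 a
    (fun e he h => absurd h (ko e he)) fun _ h => h.elim
  refine ⟨_, ?_, f1⟩
  rw [f2, o1, t2, (p1.st ka.1.1 kc.1.1 ac).2, (p2.st kb.1.1 kd.1.1 bd).2, p1.par q1, p2.par q2]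
  ring

/-- a perfect matching of a four-vertex side -/
theorem TY2a_match {e f : E} (hc : G.Cub) (hT : G.HT T) (hS : S ⊆ T) (hq : G.Q4 S a b c d)
    (h4 : S.card = 4) (hv : S = {G.ie S a, G.ie S b, G.ie S c, G.ie S d}) (he : e ∈ G.A)
    (hf : f ∈ G.A) (je : G.Je e (G.ie S a) (G.ie S c)) (jf : G.Je f (G.ie S b) (G.ie S d)) :
    ∃ O, G.par (O ∩ G.ins S) = G.n e + G.n f ∧ G.Dq S O ∅ ∅ a b c d (Rf.PP (G.n e + G.n f)) := by
  obtain ⟨ma, mb, mc, md⟩ := hq.mem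
  have h2 : 2 < S.card := by omega
  obtain ⟨-, n1, n2, n3, n4, n5, n6⟩ := id hq
  have d1 : G.ie S a ≠ G.ie S b := hT.f2 hc hS hq.card h2 ma mb n1
  have d2 : G.ie S a ≠ G.ie S c := hT.f2 hc hS hq.card h2 ma mc n2
  have d3 : G.ie S a ≠ G.ie S d := hT.f2 hc hS hq.card h2 ma md n3
  have d4 : G.ie S b ≠ G.ie S c := hT.f2 hc hS hq.card h2 mb mc n4
  have d5 : G.ie S b ≠ G.ie S d := hT.f2 hc hS hq.card h2 mb md n5
  have d6 : G.ie S c ≠ G.ie S d := hT.f2 hc hS hq.card h2 mc md n6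
  obtain ⟨q, qa, qb, qc, qd⟩ : ∃ q : V → ZMod 2, q (G.ie S a) = 0 ∧ q (G.ie S b) = 0 ∧
      q (G.ie S c) = G.n e ∧ q (G.ie S d) = G.n f :=
    ⟨fun v => if v = G.ie S c then G.n e else if v = G.ie S d then G.n f else 0,
      (if_neg d2).trans (if_neg d3), (if_neg d4).trans (if_neg d5), if_pos rfl,
      (if_neg d6.symm).trans (if_pos rfl)⟩
  have p1 := KBp_ext (pp_single (G := G) (G.ie S a)) he je (by simpa using d2.symm)
  have p2 := KBp_ext (pp_single (G := G) (G.ie S b)) hf jf (by simpa using d5.symm)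
  have e0 : S \ (insert (G.ie S c) {G.ie S a} ∪ insert (G.ie S d) {G.ie S b}) = ∅ := by
    refine sdiff_eq_empty_iff_subset.2 fun v h => ?_
    rw [hv] at h
    simp only [mem_insert, mem_singleton, mem_union] at h ⊢
    (clear * - h; tauto)
  have := TY2a_core (p := q) hT hS hq (Cut_pair (Spl_ie mc) (Spl_ie ma))
    (Cut_pair (Spl_ie md) (Spl_ie mb)) (by
      simp only [disjoint_insert_left, disjoint_singleton_left, mem_insert, mem_singleton, not_or]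
      exact ⟨⟨d6, d4.symm⟩, d3, d1⟩) p1 p2
    (fun g h => by
      rw [(mem_insert.1 h).resolve_right (notMem_empty _), Cut_sw je, qa, qc, add_zero, z2_add_self])
    (fun g h => by
      rw [(mem_insert.1 h).resolve_right (notMem_empty _), Cut_sw jf, qb, qd, add_zero, z2_add_self])
    ⟨q, fun g h => by
      rw [e0] at h
      exact absurd (mem_ins.1 h).2.1 (notMem_empty _)⟩
  rwa [qa, qb, qc, qd, add_zero, zero_add] at this

theorem TY2a_z2 : ∀ u v w z σ : ZMod 2, u + v + w + z = 1 → σ = u + w ∨ σ = z + v := by decide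

theorem bdp (hc : G.Cub) (hT : G.HT T) (hS : S ⊆ T) (hq : G.Q4 S a b c d) (hd : G.Dv S a b)
    (hp : ∀ e ∈ G.ins S, G.sw p e = 0) :
    ∃ O, G.par (O ∩ G.ins S) = p (G.ie S a) + p (G.ie S b) + (p (G.ie S c) + p (G.ie S d)) ∧
      G.Dq S O ∅ ∅ a b c d
        (Rf.PP (p (G.ie S a) + p (G.ie S b) + (p (G.ie S c) + p (G.ie S d)))) := by
  obtain ⟨U1, U2, P1, P2, x, y, g, hxy, u1, u2, dj, p1, p2, -⟩ := link_chord hc hT hS hq hd
  have q1 : ∀ e ∈ P1, G.sw p e = 0 := fun e he => hp e (ins_mono u1 (p1.1 he))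
  have q2 : ∀ e ∈ P2, G.sw p e = 0 := fun e he => hp e (ins_mono u2 (p2.1 he))
  have hB : G.Bal (G.ins (S \ (U1 ∪ U2))) := ⟨p, fun e he => hp e (ins_mono sdiff_subset he)⟩
  rcases hxy with ⟨rfl, rfl⟩ | ⟨rfl, rfl⟩
  · exact TY2a_core hT hS hq u1 u2 dj p1 p2 q1 q2 hB
  · obtain ⟨O, h1, h2⟩ := TY2a_core hT hS hq.swap2 u1 u2 dj p1 p2 q1 q2 hB
    rw [add_comm (p (G.ie S x))] at h1 h2
    exact ⟨O, h1, h2.swap2 fun _ => Rf.PP.swap2⟩

theorem dp_plus (hc : G.Cub) (hT : G.HT T) (hS : S ⊆ T) (hu : G.US S) (hq : G.Q4 S a b c d)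
    (hd : G.Qd S a b) (σ : ZMod 2) :
    ∃ O, G.par (O ∩ G.ins S) = σ ∧ G.Dq S O ∅ ∅ a b c d (Rf.PP σ) := by
  obtain ⟨e1, e2, e3, e4, hi, hv, j1, j2, j3, j4, hs⟩ := hT.qst hc hS hq hd
  have m : ∀ e ∈ ({e1, e2, e3, e4} : Finset E), e ∈ G.A := fun e he => ins_sub_A (hi ▸ he)
  rcases TY2a_z2 _ _ _ _ σ (hs hu) with rfl | rfl
  · exact TY2a_match hc hT hS hq hd.1 hv (m _ (by simp)) (m _ (by simp)) j1 j3
  · obtain ⟨O, h1, h2⟩ := TY2a_match hc hT hS hq.swap2 hd.1 (by rw [pair_comm]; exact hv)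
      (m e4 (by simp)) (m e2 (by simp)) (Or.symm j4) (Or.symm j2)
    exact ⟨O, h1, h2.swap2 fun _ => Rf.PP.swap2⟩

end SG

end Pool.Agent.Work.MP_8c679b_co
end

-- merged part: Pool.Agent.Work.MP_8c679b_co.Key.TY2
section
/-!
Elementary passes: balanced double passes, four-cycles, sweeps.

Hints.  `bdp`: `link_chord` gives two disjoint paths; `pure_p` twice, `dq_par`, then `finq` with
`HT.abs_bal` for the rest (see `hdp` in `Six/KBp.lean`); `Pp.par` gives the parity.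
`dp_plus`: `HT.qst`; the two matchings `e1, e3` and `e4, e2` have different total signs.
`q_real`: diagonal pair: the two arcs from `a` to `b` have different signs; absorb the fourth
vertex first (`finp`, `vtx_abs`); the only target is `G.cut N` (`HT.kus4`) and contains a dead edge.
Adjacent pair: the edge itself (`X = ` the rung at `a, b`, no target) and the long arc (`X = N`).
`tl2`: copy the proof of `tlp` in `Six/KSw.lean` (`swp` with `kb`, `sw_cov`, `Abs0.seqP`);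
`St.par_bal` gives `δ = 0`; for the version with tolerance a target `G.cut S` with `v ∉ S` that
contains a member `G.cut S'` of `G.Kus X1` equals it, so `S' = S` (`cut_inj`).
-/

set_option autoImplicit false

namespace Pool.Agent.Work.MP_8c679b_co

open Finset

namespace SG

variable {V E : Type} [Fintype V] [DecidableEq V] [DecidableEq E] {G : SG V E}
  {T N S X X0 X1 : Finset V} {a b c d x y : E} {p : V → ZMod 2}

theorem tl2 (hc : G.Cub) (hT : G.HT T) (hN : N ⊆ T) (hq : G.Q4 N a b c d)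
    (hX : X1 = N ∨ G.Sp N a b X1) :
    ∃ X δ, G.Rg N X c d ∧ X1 ⊆ X ∧ (G.Bal (G.ins (N \ X1)) → δ = 0) ∧
      (∀ O1 C, G.Pas0 X1 O1 a b ∅ (G.Kus X1) C → ∃ O, G.Pas0 X O a b ∅ (G.Kp N X c d) C ∧
        G.par (O ∩ G.ins X) = G.par (O1 ∩ G.ins X1) + δ) ∧
      ∀ O1 C v, G.Pas0 X1 O1 a b ∅ (G.Kv X1 v) C → ∃ O, G.Pas0 X O a b ∅ (G.Kpv N X c d v) C ∧
        G.par (O ∩ G.ins X) = G.par (O1 ∩ G.ins X1) + δ := by
  rcases hX with rfl | hP
  · refine ⟨X1, 0, Or.inl rfl, Subset.rfl, fun _ => rfl,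
      fun O1 C h1 => ⟨O1, h1.cov ?_, (add_zero _).symm⟩,
      fun O1 C v h1 => ⟨O1, h1.cov ?_, (add_zero _).symm⟩⟩
    · exact fun t ht => Or.inl ⟨t, ht.1, Subset.rfl⟩
    · exact fun t ht => Or.inl ⟨t, ht.1, Subset.rfl⟩
  · obtain ⟨-, -, -, -, -, -, -, hv, ha, hb, -, -, x, y, hx, hq'⟩ := hP.str hc hT hN hq
    have hsub : N \ X1 ⊆ T := sdiff_subset.trans hN
    have hsw : G.SWp (N \ X1) := swp hc hT hsub fun S' hS' => by
      obtain ⟨k1, -, -, k2, k3, -⟩ := kb hc hT S' (hS'.trans hsub)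
      exact ⟨k2, k3, k1⟩
    obtain ⟨X', O', hr, h'⟩ := hsw x y c d hq' hv
    have key : ∀ O1 C K, G.Pas0 X1 O1 a b ∅ K C →
        G.Pas0 (X' ∪ X1) (O' ∪ O1) a b ∅ ((G.Kp (N \ X1) X' c d ∪ G.Lk (N \ X1) x y) ∪ K) C ∧
          G.par ((O' ∪ O1) ∩ G.ins (X' ∪ X1)) = G.par (O1 ∩ G.ins X1) + G.par O' := by
      intro O1 C K h1
      obtain ⟨k, k'⟩ := h'.seqP (L := ∅) h1 (KSw_dj hr.sub) (fun m => ha (tch_mono hr.sub m))
        (fun m => hb (tch_mono hr.sub m)) (fun e he => absurd he (notMem_empty _))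
        (fun e he _ => Or.inl (by
          rcases mem_insert.1 he with rfl | he
          · exact cut_sub_tch hx.mem.2.2.1
          · rw [mem_singleton.1 he]
            exact cut_sub_tch hx.mem.2.2.2))
        (fun e he _ => he)
      exact ⟨k, k'.trans (add_comm _ _)⟩
    refine ⟨X' ∪ X1, G.par O', union_comm X1 X' ▸ Rg.add hc hT hN hq hP hr, subset_union_right,
      fun hB => h'.1.par_bal (hB.mono (ins_mono hr.sub)), fun O1 C h1 => ?_, fun O1 C v h1 => ?_⟩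
    · obtain ⟨k, k'⟩ := key O1 C _ h1
      exact ⟨O' ∪ O1, k.cov (sw_cov hc hT hN hq hP hx hr k.cut.2.2.2.2), k'⟩
    · obtain ⟨k, k'⟩ := key O1 C _ h1
      refine ⟨O' ∪ O1, k.cov ?_, k'⟩
      rintro t ⟨⟨S, hS, hu, hvS, rfl⟩, ht⟩
      rcases sw_cov hc hT hN hq hP hx hr (O := O' ∪ O1) k.cut.2.2.2.2 _ ⟨⟨S, hS, hu, rfl⟩, ht⟩ with
        ⟨t', m | ⟨S', m1, m2, rfl⟩, m'⟩ | m
      · exact Or.inl ⟨t', Or.inl m, m'⟩
      · have e1 : G.cut S' = G.cut S := eq_of_subset_of_card_le m' (by rw [hu.1, m2.1])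
        have e2 : S' = S := cut_inj hT (m1.trans (hP.1.trans hN)) (hS.trans hN) e1
        exact Or.inl ⟨_, Or.inr ⟨S', m1, m2, e2 ▸ hvS, rfl⟩, m'⟩
      · exact Or.inr m

/-- complete good passes and passes of both parities when the side is not a chain -/
theorem rpn_fpn (hc : G.Cub) (hT : G.HT T) (hS : S ⊆ T) : G.RPN S ∧ G.FPN S :=
  ⟨rpn hc hT hS (kb hc hT) fun B hB hu => rpa hc hT B (hB.subset.trans hS) hu,
    fpn hc hT hS (kb hc hT) fun W hW => par_all hc hT W (hW.subset.trans hS)⟩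

end SG

end Pool.Agent.Work.MP_8c679b_co
end

-- merged part: Pool.Agent.Work.MP_8c679b_co.Key.TY3
section
/-!
Passes of a head.  Write `Y0 = X1 \ X0`, let `x, y` be the links of `X0` and `u, w` the other
edges of `X1`; `G.Q4 Y0 x y u w` by `Sp.link`.

Hints.  `hd_real`: `X0 = ∅`: this is `ER X1`.  `Y0` unbalanced: `bdp` on `X0` closed (`Dq.close`,
`PP.cl_p`, `PP.cl_mt`) by the passes that `ER Y0` gives for the sign
`s + σ0 + G.n x + G.n y`.  `Y0` balanced: `bdp` closed by `BP Y0` (from `kb`); `sgn` and `Hs` show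
that the sign is `s`.  Targets: `Sp.cov1`; `u` is dead and off `O` (`Pas0.cov`, `Pas0.cut`);
with tolerance use `cut_inj`.
`hd_gd`: `X0 = ∅`: `rpn_fpn`.  Else the third part of `HDp X1` with `PSN Y0` or `BP Y0` (`sgn`).
`hd_dp`: `X0 = ∅`: `DP X1`.  Else `Dq.comp` of `bdp` on `X0` with `DP Y0` (`PP.cp_l2`) or with
`bdp` on `Y0` (`PP.cp`, `PP.l2`, any vertex of `Y0`); targets by `hd_cov` with `N = X1`.
`wk_tail`: `Dq.comp` with `bdp` on `X \ X1`, `L2.cp_pp`.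
`wk_close`: `Dq.close` with `L2.cl_p`.
-/

set_option autoImplicit false

namespace Pool.Agent.Work.MP_8c679b_co

open Finset

namespace SG

variable {V E : Type} [Fintype V] [DecidableEq V] [DecidableEq E] {G : SG V E}
  {T N S X X0 X1 X2 : Finset V} {a b c d x y u w : E} {s l t : ZMod 2} {K K' : Set (Finset E)}

theorem TY3_two : (2 : ZMod 2) = 0 := rfl

theorem TY3_cov {O : Finset E} {C : Rl → Prop} (hq : G.Q4 X a b c d)
    (h : G.Pas0 X O a b ∅ K' C) (hK : ∀ t ∈ K, t ∈ K' ∨ c ∈ t) : G.Pas0 X O a b ∅ K C :=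
  h.cov fun t ht => (hK t ht).imp (fun k => ⟨t, k, Subset.rfl⟩) fun k =>
    ⟨c, k, cut_sub_tch hq.mem.2.2.1, fun k' =>
      (h.cut.2.2.2.2 c hq.mem.2.2.1 k').elim hq.2.2.1.symm hq.2.2.2.2.1.symm⟩

/-- a balanced split closed by a pass of the rest -/
theorem TY3_close {p : V → ZMod 2} {σ : ZMod 2} {O2 : Finset E} {D D' : Rl → Prop} (hc : G.Cub)
    (hT : G.HT T) (hX : X1 ⊆ T) (hu : G.Q4 X1 a b u w) (h : G.Sp X1 a b X0)
    (hx : G.Q4 X0 a b x y) (hp : ∀ e ∈ G.ins X0, G.sw p e = 0)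
    (hσ : σ = p (G.ie X0 a) + p (G.ie X0 b) + (p (G.ie X0 x) + p (G.ie X0 y)))
    (h2 : G.Pas0 (X1 \ X0) O2 x y ∅ K D)
    (hC : ∀ R1 R2, Rf.PP σ R1 → D R2 → D' (Rf.cl (G.n x) (G.n y) R1 R2)) :
    ∃ O, G.par (O ∩ G.ins X1) = σ + G.par (O2 ∩ G.ins (X1 \ X0)) + (G.n x + G.n y) ∧
      G.Pas0 X1 O a b ∅ K D' := by
  obtain ⟨-, -, -, -, -, -, dv, -, ha, hb, -⟩ := h.str hc hT hX hu
  obtain ⟨O1, p1, q1⟩ := bdp hc hT (h.1.trans hX) hx dv hp
  rw [← hσ] at p1 q1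
  obtain ⟨k1, k2⟩ := q1.close (L := ∅) h2 disjoint_sdiff ha hb
    (fun _ k => absurd k (notMem_empty _)) (fun _ k => absurd k (notMem_empty _)) hC
  rw [union_sdiff_of_subset h.1] at k1 k2
  rw [Set.empty_union] at k1
  exact ⟨_, p1 ▸ k2, k1⟩

/-- a balanced split followed by a double pass of the rest -/
theorem TY3_comp {p : V → ZMod 2} {σ : ZMod 2} {O2 : Finset E} {D D' : Rf → Prop} (hc : G.Cub)
    (hT : G.HT T) (hX : X1 ⊆ T) (hu : G.Q4 X1 a b u w) (h : G.Sp X1 a b X0)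
    (hx : G.Q4 X0 a b x y) (hp : ∀ e ∈ G.ins X0, G.sw p e = 0)
    (hσ : σ = p (G.ie X0 a) + p (G.ie X0 b) + (p (G.ie X0 x) + p (G.ie X0 y)))
    (h2 : G.Dq (X1 \ X0) O2 ∅ K x y u w D)
    (hC : ∀ R1 R2, Rf.PP σ R1 → D R2 → D' (Rf.cp (G.n x) (G.n y) R1 R2)) :
    ∃ O, G.par (O ∩ G.ins X1) = σ + G.par (O2 ∩ G.ins (X1 \ X0)) + (G.n x + G.n y) ∧
      G.Dq X1 O ∅ K a b u w D' := by
  obtain ⟨-, -, -, -, -, -, dv, -, ha, hb, hu', hw, -⟩ := h.str hc hT hX hu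
  obtain ⟨O1, p1, q1⟩ := bdp hc hT (h.1.trans hX) hx dv hp
  rw [← hσ] at p1 q1
  obtain ⟨k1, k2⟩ := q1.comp h2 disjoint_sdiff ha hb hu' hw hC
  rw [union_sdiff_of_subset h.1] at k1 k2
  rw [Set.empty_union] at k1
  exact ⟨_, p1 ▸ k2, k1⟩

theorem hd_real (hc : G.Cub) (hT : G.HT T) (hN : N ⊆ T) (hq : G.Q4 N a b c d) (hI : G.IHd N)
    (h : G.Hd N a b X0 X1) (hs : G.Hs a b X0 X1 s) :
    G.Rc X1 a b s ∨ ∀ ε, ∃ O, ∃ v ∈ X1, G.par (O ∩ G.ins X1) = ε ∧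
      G.Pas0 X1 O a b ∅ (G.Kv X1 v) (Rl.Mt (s + 1)) := by
  obtain ⟨-, hXN, u, w, hu, -⟩ := h.str hc hT hN hq
  have hX := hXN.trans hN
  rcases h.pc with ⟨-, nc⟩ | ⟨sp, hB, nc⟩
  · exact (hI X1 hXN h.us a b u w hu nc).1 s
  obtain ⟨-, -, -, -, -, -, -, -, -, -, -, -, x, y, hx, h4⟩ := sp.str hc hT hX hu
  obtain ⟨-, -, -, -, l1, -, l2⟩ := sp.link hc hT hX hu hx
  have cov := sp.cov1 hc hT hX hu hx hB (nc x y hx)
  obtain ⟨p, hp⟩ := hB
  obtain ⟨σ, hσ⟩ : ∃ σ, σ = p (G.ie X0 a) + p (G.ie X0 b) + (p (G.ie X0 x) + p (G.ie X0 y)) :=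
    ⟨_, rfl⟩
  by_cases hB' : G.Bal (G.ins (X1 \ X0))
  · have e1 := hs (Spl_nonempty hx.card).ne_empty hB' p hp
    obtain ⟨q, hq'⟩ := id hB'
    have e2 := sgn sp.1 l2 h.us.2 hp hq'
    obtain ⟨O2, p2, q2⟩ := (kb hc hT _ (sdiff_subset.trans hX)).1 x y u w h4 l1 q hq'
    obtain ⟨O, k1, k2⟩ := TY3_close (D' := Rl.P s) hc hT hX hu sp hx hp hσ q2 fun R1 R2 r1 r2 => by
      have k := r1.cl_p (τ := G.n x) (τ' := G.n y) r2
      rwa [show q (G.ie (X1 \ X0) x) + q (G.ie (X1 \ X0) y) + σ + G.n x + G.n y = s by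
        linear_combination hσ + e2 - e1] at k
    refine Or.inl ⟨O, ?_, TY3_cov hu k2 fun t ht => (cov t ht).imp (fun k => ?_) fun k => k.1⟩
    · rw [k1, p2]
      linear_combination hσ + e2 - e1
    · exact kus_bal hB' ▸ k
  rcases (hI _ (sdiff_subset.trans hXN) ⟨h4.card, hB'⟩ x y u w h4 (nc x y hx)).1
    (s + σ + G.n x + G.n y) with ⟨O2, p2, q2⟩ | k
  · obtain ⟨O, k1, k2⟩ := TY3_close (D' := Rl.P s) hc hT hX hu sp hx hp hσ q2 fun R1 R2 r1 r2 => by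
      have k := r1.cl_p (τ := G.n x) (τ' := G.n y) r2
      rwa [show s + σ + G.n x + G.n y + σ + G.n x + G.n y = s by
        linear_combination (σ + G.n x + G.n y) * TY3_two] at k
    refine Or.inl ⟨O, ?_, TY3_cov hu k2 fun t ht => (cov t ht).imp_right fun k => k.1⟩
    rw [k1, p2]
    linear_combination (σ + G.n x + G.n y) * TY3_two
  · refine Or.inr fun ε => ?_
    obtain ⟨O2, v, hv, p2, q2⟩ := k (ε + σ + G.n x + G.n y)
    obtain ⟨O, k1, k2⟩ := TY3_close (D' := Rl.Mt (s + 1)) hc hT hX hu sp hx hp hσ q2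
      fun R1 R2 r1 r2 => by
        have k := r1.cl_mt (τ := G.n x) (τ' := G.n y) r2
        rwa [show s + σ + G.n x + G.n y + 1 + σ + G.n x + G.n y = s + 1 by
          linear_combination (σ + G.n x + G.n y) * TY3_two] at k
    refine ⟨O, v, sdiff_subset hv, ?_, TY3_cov hu k2 fun t ht =>
      (cov t (kv_sub ht)).imp (fun k => ?_) fun k => k.1⟩
    · rw [k1, p2]
      linear_combination (σ + G.n x + G.n y) * TY3_two
    · obtain ⟨S, s1, s2, s3, rfl⟩ := ht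
      obtain ⟨S', s4, -, s5⟩ := k
      obtain rfl := cut_inj hT (s1.trans hX) (s4.trans (sdiff_subset.trans hX)) s5
      exact ⟨S, s4, s2, s3, rfl⟩

theorem hd_gd (hc : G.Cub) (hT : G.HT T) (hN : N ⊆ T) (hq : G.Q4 N a b c d)
    (h : G.Hd N a b X0 X1) (hd : X0 = ∅ → ¬ G.Qd X1 a b) :
    ∃ O, G.Pas0 X1 O a b ∅ (G.Kus X1) Rl.Gd := by
  obtain ⟨-, hXN, u, w, hu, -⟩ := h.str hc hT hN hq
  have hX := hXN.trans hN
  rcases h.pc with ⟨h0, nc⟩ | ⟨sp, hB, nc⟩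
  · exact (rpn_fpn hc hT hX).1 h.us a b u w hu nc (hd h0)
  obtain ⟨-, -, -, -, -, -, -, -, -, -, -, -, x, y, hx, h4⟩ := sp.str hc hT hX hu
  obtain ⟨-, -, -, -, l1, -, l2⟩ := sp.link hc hT hX hu hx
  have key : ∀ O1, G.Pas0 X1 O1 a b ∅ (G.Kus (X1 \ X0)) Rl.Gd →
      ∃ O, G.Pas0 X1 O a b ∅ (G.Kus X1) Rl.Gd := fun O1 hO =>
    ⟨O1, TY3_cov hu hO fun t ht =>
      (sp.cov1 hc hT hX hu hx hB (nc x y hx) t ht).imp_right fun k => k.1⟩
  obtain ⟨p, hp⟩ := hB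
  have hD := (kb hc hT X1 hX).2.1 hu.card a b X0 x y sp hx p hp
  have hP := kb hc hT _ (sdiff_subset.trans hX : X1 \ X0 ⊆ T)
  by_cases hB' : G.Bal (G.ins (X1 \ X0))
  · obtain ⟨q, hq'⟩ := id hB'
    obtain ⟨Om, -, hO⟩ := hP.1 x y u w h4 l1 q hq'
    obtain ⟨O, -, -, -, k⟩ := hD Om _ _ hO
    exact key O (kus_bal hB' ▸ k _ (fun _ r => r) (sgn sp.1 l2 h.us.2 hp hq'))
  · obtain ⟨Om, hO⟩ := hP.2.2.2.2.1 ⟨h4.card, hB'⟩ x y u w h4 (nc x y hx)
      (1 - (p (G.ie X0 x) + p (G.ie X0 y) + (G.n x + G.n y)))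
    obtain ⟨O, -, -, -, k⟩ := hD Om _ _ hO
    exact key O (k _ (fun _ r => r) (add_sub_cancel _ _))

theorem hd_dp (hc : G.Cub) (hT : G.HT T) (hN : N ⊆ T) (hq : G.Q4 N a b c d) (hI : G.IHd N)
    (h : G.Hd N a b X0 X1) (hu : G.Q4 X1 a b u w) (l : ZMod 2) :
    ∃ t, ∃ v ∈ X1 \ X0, G.Wk X1 a b u w l t (1 + l + t) (G.Kv (X1 \ X0) v) := by
  obtain ⟨-, hXN, -⟩ := h.str hc hT hN hq
  have hX := hXN.trans hN
  rcases h.pc with ⟨rfl, nc⟩ | ⟨sp, ⟨p, hp⟩, nc⟩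
  · rw [sdiff_empty]
    exact (hI X1 hXN h.us a b u w hu nc).2 l
  obtain ⟨-, -, -, -, -, -, -, -, -, -, -, -, x, y, hx, h4⟩ := sp.str hc hT hX hu
  obtain ⟨-, -, -, -, l1, -⟩ := sp.link hc hT hX hu hx
  obtain ⟨σ, hσ⟩ : ∃ σ, σ = p (G.ie X0 a) + p (G.ie X0 b) + (p (G.ie X0 x) + p (G.ie X0 y)) :=
    ⟨_, rfl⟩
  by_cases hB' : G.Bal (G.ins (X1 \ X0))
  · obtain ⟨q, hq'⟩ := id hB'
    obtain ⟨v, hv⟩ := Spl_nonempty h4.card
    obtain ⟨O2, p2, q2⟩ := bdp hc hT (sdiff_subset.trans hX) h4 l1 hq'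
    generalize q (G.ie (X1 \ X0) x) + q (G.ie (X1 \ X0) y) +
      (q (G.ie (X1 \ X0) u) + q (G.ie (X1 \ X0) w)) = σ' at p2 q2
    obtain ⟨O, k1, k2⟩ := TY3_comp (D' := Rf.L2 l (1 + l + (σ + σ' + G.n x + G.n y))) hc hT hX hu
      sp hx hp hσ q2 fun R1 R2 r1 r2 => (r1.cp r2).l2 (by linear_combination -(1 + l) * TY3_two)
    refine ⟨_, v, hv, O, ?_, k2.cov fun t ht => absurd (kus_bal hB' ▸ kv_sub ht) (Set.notMem_empty t)⟩
    rw [k1, p2]
    linear_combination -(1 + l) * TY3_two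
  obtain ⟨t, v, hv, O2, p2, q2⟩ := (hI _ (sdiff_subset.trans hXN) ⟨h4.card, hB'⟩ x y u w h4
    (nc x y hx)).2 (l + σ + G.n x + G.n y)
  obtain ⟨O, k1, k2⟩ := TY3_comp (D' := Rf.L2 l t) hc hT hX hu sp hx hp hσ q2
    fun R1 R2 r1 r2 => by
      have k := r1.cp_l2 (τ := G.n x) (τ' := G.n y) r2
      rwa [show l + σ + G.n x + G.n y + σ + G.n x + G.n y = l by
        linear_combination (σ + G.n x + G.n y) * TY3_two] at k
  refine ⟨t, v, hv, O, ?_, k2⟩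
  rw [k1, p2]
  linear_combination (σ + G.n x + G.n y) * TY3_two

/-- extending a double pass through a balanced part -/
theorem wk_tail (hc : G.Cub) (hT : G.HT T) (hX : X2 ⊆ T) (h : G.Wk X1 a b u w l t (1 + l + t) K)
    (hd : Disjoint X1 X2) (hq : G.Q4 X2 u w c d) (hv : G.Dv X2 u w) (hB : G.Bal (G.ins X2))
    (ha : a ∉ G.tch X2) (hb : b ∉ G.tch X2) (hc' : c ∉ G.tch X1) (hd' : d ∉ G.tch X1) :
    ∃ t', G.Wk (X1 ∪ X2) a b c d l t' (1 + l + t') K := by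
  obtain ⟨O1, p1, q1⟩ := h
  obtain ⟨q, hq'⟩ := hB
  obtain ⟨O2, p2, q2⟩ := bdp hc hT hX hq hv hq'
  generalize q (G.ie X2 u) + q (G.ie X2 w) + (q (G.ie X2 c) + q (G.ie X2 d)) = σ at p2 q2
  obtain ⟨k1, k2⟩ := q1.comp (C := Rf.L2 l (t + σ + G.n u + G.n w)) q2 hd ha hb hc' hd'
    fun R1 R2 r1 r2 => r1.cp_pp r2
  rw [Set.union_empty] at k1
  refine ⟨_, _, ?_, k1⟩
  rw [k2, p1, p2]
  ring

/-- closing a double pass of the natural parity by a real pass of the right sign -/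
theorem wk_close {O2 : Finset E} (h : G.Wk X1 a b u w (s + 1) t (1 + (s + 1) + t) K)
    (h2 : G.Pas0 X2 O2 u w ∅ K' (Rl.P (t + G.n u + G.n w)))
    (hp : G.par (O2 ∩ G.ins X2) = t + G.n u + G.n w) (hd : Disjoint X1 X2) (ha : a ∉ G.tch X2)
    (hb : b ∉ G.tch X2) :
    ∃ O, G.par (O ∩ G.ins (X1 ∪ X2)) = s ∧ G.Pas0 (X1 ∪ X2) O a b ∅ (K ∪ K') (Rl.Mt (s + 1)) := by
  obtain ⟨O1, p1, q1⟩ := h
  obtain ⟨k1, k2⟩ := q1.close (L := ∅) (D' := Rl.Mt (s + 1)) h2 hd ha hb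
    (fun _ k => absurd k (notMem_empty _)) (fun _ k => absurd k (notMem_empty _))
    fun R1 R2 r1 r2 => r1.cl_p r2 (by linear_combination -(G.n u + G.n w) * TY3_two)
  refine ⟨_, ?_, k1⟩
  rw [k2, p1, hp]
  linear_combination (1 + t + G.n u + G.n w) * TY3_two

end SG

end Pool.Agent.Work.MP_8c679b_co
end

-- merged part: Pool.Agent.Work.MP_8c679b_co.Key.TY4a
section
/-!
Packages.  Let `X0, X1` be the head (`exists_head`), `Y0 = X1 \ X0`.

`pk_dp`: the tail `N \ X1` is balanced.  `hd_dp`, then `wk_tail` through the tail (or nothing if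
`X1 = N`); a side `S` that avoids `v ∈ Y0` lies in `Y0` by `hd_cov`.
`pk_dpn`: `X` is a split (`Rg.sp`).  If it is unbalanced, `X1 ⊆ X`: `hd_dp` and `wk_tail` through
`X \ X1` (`Sp.sub`).  If it is balanced: `bdp` on `X`, `PP.l2`, `v = G.ie X x` lies in every side
(`cross_link`; the rung contains no side, `HT.us_card`).
`lw2_head`: if the tail is a four-cycle use `hd_dp` with `l = s + 1`, `q_real` on the tail and
`wk_close`; `Rg.add`; targets by `hd_cov`.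
`lw2_short`: `BP X0`; if the tail is a four-cycle use `bdp`, `q_real`, `Dq.close`, `PP.cl_p`,
`P.mt` with `v = G.ie X0 x` (`cross_link`).
`pk_sign`: with `Hs`: `hd_real`; tolerance gives `Lw1` by `tl2`; a real pass gives `Lw2` if the
tail is unbalanced and `Gud` on the set of `tl2` otherwise.
`pk_short`: without `Hs`: `lw2_short`, or `tl2` from `X0` (`kus_bal`).
`tp_qd`: `dp_plus` on `X1` closed by `BP` of the tail; every side contains `v ∈ X1`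
(`hd_cov`, `HT.us_card`).
`pk_ex`: for a four-cycle take `q_real`, `pk_dp`, `pk_dpn` (the tail has at most two vertices).
Else fix the set `Xs` of `tl2` for `X1`; for a sign with `Gud` take its set, for a sign with a local
win take the set of `PS` (`kb`).  For `both`: without local wins some sign has `Hs`, its set is
`Xs`, and `hd_gd` with `tl2`, or `tp_qd`, applies.
-/

set_option autoImplicit false

namespace Pool.Agent.Work.MP_8c679b_co

open Finset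

namespace SG

variable {V E : Type} [Fintype V] [DecidableEq V] [DecidableEq E] {G : SG V E}
  {T N S X X0 X1 : Finset V} {a b c d x y : E} {s : ZMod 2}

/-- a side that avoids a vertex of the last piece of the head -/
theorem TY4a_side {v : V} (hc : G.Cub) (hT : G.HT T) (hN : N ⊆ T) (hq : G.Q4 N a b c d)
    (h : G.Hd N a b X0 X1) (hv : v ∈ X1 \ X0) (hS : S ⊆ N) (hu : G.US S) (hvS : v ∉ S) :
    S ⊆ X1 \ X0 ∨ S ⊆ N \ X1 := by
  rcases hd_cov hc hT hN hq h hS hu with k | k | k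
  · exact Or.inl k
  · exact absurd (k hv) hvS
  · exact Or.inr (subset_sdiff.2 ⟨hS, k⟩)

/-- a side that avoids the end of a link of a balanced split -/
theorem TY4a_bal (hc : G.Cub) (hT : G.HT T) (hN : N ⊆ T) (hq : G.Q4 N a b c d)
    (h : G.Sp N a b X) (hx : G.Q4 X a b x y) (hB : G.Bal (G.ins X)) (hS : S ⊆ N) (hu : G.US S)
    (hvS : G.ie X x ∉ S) : S ⊆ N \ X := by
  refine subset_sdiff.2 ⟨hS, by_contra fun k => hvS ?_⟩
  exact (cross_link hc hT hN hq h hx hS hu (fun k' => hu.2 (hB.mono (ins_mono k'))) k).2.2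

/-- closing a split by a pass of its tail, a four-cycle -/
theorem TY4a_fin {Z : Finset V} {O : Finset E} {K : Set (Finset E)} {v : V} (hc : G.Cub)
    (hT : G.HT T) (hN : N ⊆ T) (hq : G.Q4 N a b c d) (h : G.Sp N a b X)
    (hx : G.Q4 (N \ X) x y c d) (h4 : (N \ X).card = 4) (hr : G.Rg (N \ X) Z c d) (hv : v ∈ N)
    (hp : G.par (O ∩ G.ins (X ∪ Z)) = s)
    (hO : G.Pas0 (X ∪ Z) O a b ∅ (K ∪ G.Kp (N \ X) Z c d) (Rl.Mt (s + 1)))
    (hK : ∀ S ⊆ N, G.US S → v ∉ S → G.cut S ∈ K ∨ S ⊆ N \ X) :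
    ∃ X', G.Rg N X' c d ∧ X ⊂ X' ∧ G.Tp N X' a b c d s s := by
  have hz := (hr.ie_mem hc hT (sdiff_subset.trans hN) hx (by omega)).1
  refine ⟨X ∪ Z, Rg.add hc hT hN hq h hr, ?_, O, v, hv, hp, hO.cov ?_⟩
  · exact (ssubset_iff_of_subset subset_union_left).2
      ⟨_, mem_union_right _ hz, (mem_sdiff.1 (hr.sub hz)).2⟩
  · rintro _ ⟨⟨S, s1, s2, s3, rfl⟩, k⟩
    refine Or.inl ⟨_, (hK S s1 s2 s3).imp_right fun k' => ⟨⟨S, k', s2, rfl⟩, k.imp_left fun e => ?_⟩,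
      Subset.rfl⟩
    refine Subset.antisymm hr.sub fun z hz' => ?_
    obtain ⟨z1, z2⟩ := mem_sdiff.1 hz'
    exact (mem_union.1 (e.symm ▸ z1 : z ∈ X ∪ Z)).resolve_left z2

theorem pk_dp (hc : G.Cub) (hT : G.HT T) (hN : N ⊆ T) (hq : G.Q4 N a b c d) (hI : G.IHd N)
    (h : G.Hd N a b X0 X1) (hB : G.Bal (G.ins (N \ X1))) : G.DP N a b c d := by
  intro l
  obtain ⟨-, hXN, u, w, hu, -, e1, e2⟩ := h.str hc hT hN hq
  obtain ⟨t, v, hv, hw⟩ := hd_dp hc hT hN hq hI h hu l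
  have cov : ∀ k ∈ G.Kv N v, ∃ k' ∈ G.Kv (X1 \ X0) v, k' ⊆ k := by
    rintro _ ⟨S, s1, s2, s3, rfl⟩
    refine ⟨_, ⟨S, ?_, s2, s3, rfl⟩, Subset.rfl⟩
    exact (TY4a_side hc hT hN hq h hv s1 s2 s3).resolve_right fun k =>
      s2.2 (hB.mono (ins_mono k))
  have hvN : v ∈ N := hXN (sdiff_subset hv)
  rcases h.sp with k | sp
  · obtain ⟨rfl, rfl⟩ := e1 k
    subst k
    exact ⟨t, v, hvN, hw.sub cov⟩
  · obtain ⟨-, -, -, -, -, -, -, -, ha, hb, hc', hd', -⟩ := sp.str hc hT hN hq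
    obtain ⟨q1, q2⟩ := e2 (Spl_ne sp)
    obtain ⟨t', k⟩ :=
      wk_tail hc hT (sdiff_subset.trans hN) hw disjoint_sdiff q1 q2 hB ha hb hc' hd'
    rw [union_sdiff_of_subset hXN] at k
    exact ⟨t', v, hvN, k.sub cov⟩

theorem pk_dpn (hc : G.Cub) (hT : G.HT T) (hN : N ⊆ T) (hq : G.Q4 N a b c d) (hI : G.IHd N)
    (h : G.Hd N a b X0 X1) (hB : G.Bal (G.ins (N \ X1))) (hr : G.Rg N X c d) (hX : X ≠ N)
    (hx : G.Q4 X a b x y) : G.DPn N X a b x y := by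
  intro l
  obtain ⟨-, hXN, u, w, hu, -⟩ := h.str hc hT hN hq
  have c4 := (hT.us_card hc (hXN.trans hN) h.us).trans (card_le_card hXN)
  obtain ⟨sp, c2⟩ := hr.sp hc hT hN hq (by omega) hX
  have hXT := sp.1.trans hN
  by_cases hB' : G.Bal (G.ins X)
  · obtain ⟨-, -, -, -, -, -, dv, -⟩ := sp.str hc hT hN hq
    obtain ⟨p, hp⟩ := id hB'
    obtain ⟨O, p1, q1⟩ := bdp hc hT hXT hx dv hp
    generalize p (G.ie X a) + p (G.ie X b) + (p (G.ie X x) + p (G.ie X y)) = σ at p1 q1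
    have e : σ = 1 + l + (1 + l + σ) := by linear_combination -(1 + l) * TY3_two
    refine ⟨1 + l + σ, G.ie X x, Spl_ie hx.mem.2.2.1, fun S s1 s2 s3 => ?_, O, p1.trans e,
      (q1.imp fun R r => r.l2 e).cov fun k hk =>
        absurd (kus_bal hB' ▸ kv_sub hk) (Set.notMem_empty k)⟩
    have k1 := card_le_card (TY4a_bal hc hT hN hq sp hx hB' s1 s2 s3)
    have k2 := hT.us_card hc (s1.trans hN) s2
    omega
  have hs := h.min X sp hB'
  obtain ⟨t, v, hv, hw⟩ := hd_dp hc hT hN hq hI h hu l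
  have sd : ∀ S ⊆ N, G.US S → v ∉ S → S ⊆ X1 \ X0 := fun S s1 s2 s3 =>
    (TY4a_side hc hT hN hq h hv s1 s2 s3).resolve_right fun k => s2.2 (hB.mono (ins_mono k))
  have sd' : ∀ S ⊆ N, G.US S → v ∉ S → S ⊆ X := fun S s1 s2 s3 =>
    (sd S s1 s2 s3).trans (sdiff_subset.trans hs)
  have cov : ∀ k ∈ G.Kv X v, ∃ k' ∈ G.Kv (X1 \ X0) v, k' ⊆ k := by
    rintro _ ⟨S, s1, s2, s3, rfl⟩
    exact ⟨_, ⟨S, sd S (s1.trans sp.1) s2 s3, s2, s3, rfl⟩, Subset.rfl⟩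
  have hvX : v ∈ X := hs (sdiff_subset hv)
  rcases hs.eq_or_ssubset with k | k
  · subst k
    rcases hu.uniq hx with ⟨rfl, rfl⟩ | ⟨rfl, rfl⟩
    · exact ⟨t, v, hvX, sd', hw.sub cov⟩
    · exact ⟨t, v, hvX, sd', hw.swap2.sub cov⟩
  · have sp1 : G.Sp N a b X1 := h.sp.resolve_left fun e => k.2 (e ▸ sp.1)
    have sp2 := sp.of_sub sp1 k hT hN hq.2.1
    obtain ⟨-, -, -, -, -, -, -, -, ha, hb, hx', hy', -⟩ := sp2.str hc hT hXT hx
    obtain ⟨q1, -, -, -, q2, -⟩ := sp2.link hc hT hXT hx hu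
    obtain ⟨t', k'⟩ := wk_tail hc hT (sdiff_subset.trans hXT) hw disjoint_sdiff q1 q2
      (hB.mono (ins_mono (sdiff_subset_sdiff sp.1 Subset.rfl))) ha hb hx' hy'
    rw [union_sdiff_of_subset hs] at k'
    exact ⟨t', v, hvX, sd', k'.sub cov⟩

theorem lw2_head (hc : G.Cub) (hT : G.HT T) (hN : N ⊆ T) (hq : G.Q4 N a b c d) (hI : G.IHd N)
    (h : G.Hd N a b X0 X1) (hB : ¬ G.Bal (G.ins (N \ X1))) (hr : G.Rc X1 a b s) :
    G.Lw2 N a b c d s := by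
  obtain ⟨-, hXN, u, w, hu, -, -, e2⟩ := h.str hc hT hN hq
  have sp : G.Sp N a b X1 := h.sp.resolve_left fun e => hB ⟨fun _ => 0, fun f hf => by
    rw [e, sdiff_self] at hf
    exact absurd (mem_ins.1 hf).2.1 (notMem_empty _)⟩
  refine ⟨X1, sp, hB, hr, fun h4 => ?_⟩
  obtain ⟨-, -, -, -, -, -, -, -, ha, hb, -⟩ := sp.str hc hT hN hq
  obtain ⟨q1, -⟩ := e2 (Spl_ne sp)
  obtain ⟨t, v, hv, hw⟩ := hd_dp hc hT hN hq hI h hu (s + 1)
  obtain ⟨Z, hZ, -⟩ := q_real hc hT (sdiff_subset.trans hN) ⟨q1.card, hB⟩ q1 h4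
  obtain ⟨rg, O2, p2, q2⟩ := hZ (t + G.n u + G.n w)
  obtain ⟨O, p1, k⟩ := wk_close hw q2 p2 (disjoint_sdiff.mono_right rg.sub)
    (fun k => ha (tch_mono rg.sub k)) fun k => hb (tch_mono rg.sub k)
  exact TY4a_fin hc hT hN hq sp q1 h4 rg (hXN (sdiff_subset hv)) p1 k fun S s1 s2 s3 =>
    (TY4a_side hc hT hN hq h hv s1 s2 s3).imp_left fun k' => ⟨S, k', s2, s3, rfl⟩

theorem lw2_short (hc : G.Cub) (hT : G.HT T) (hN : N ⊆ T) (hq : G.Q4 N a b c d)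
    (h : G.Hd N a b X0 X1) (hs : ¬ G.Hs a b X0 X1 s) :
    G.Rc X0 a b s ∧ G.Sp N a b X0 ∧ (¬ G.Bal (G.ins (N \ X0)) → G.Lw2 N a b c d s) := by
  obtain ⟨h0, p, hp, e⟩ : X0 ≠ ∅ ∧ ∃ p : V → ZMod 2, (∀ e ∈ G.ins X0, G.sw p e = 0) ∧
      p (G.ie X0 a) + p (G.ie X0 b) = s := by
    refine ⟨fun k => hs fun k' => absurd k k', by_contra fun k => hs fun _ _ p hp => ?_⟩
    have k' : p (G.ie X0 a) + p (G.ie X0 b) - s ≠ 0 := fun k' => k ⟨p, hp, sub_eq_zero.1 k'⟩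
    linear_combination -(z2_ne _).1 k' - TY3_two
  obtain ⟨sp0, hB, -⟩ := h.pc.resolve_left fun k => h0 k.1
  have sp : G.Sp N a b X0 := h.sp.elim (fun k => k ▸ sp0) fun k => k.trans sp0
  have hX := sp.1.trans hN
  obtain ⟨-, -, -, -, -, -, dv, -, ha, hb, -, -, x, y, hx, q1⟩ := sp.str hc hT hN hq
  have rc : G.Rc X0 a b s := by
    obtain ⟨O, p1, k⟩ := bp hc hT hX a b x y hx dv p hp
    rw [e] at p1 k
    exact ⟨O, p1, kus_bal hB ▸ k⟩
  refine ⟨rc, sp, fun hB' => ⟨X0, sp, hB', rc, fun h4 => ?_⟩⟩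
  obtain ⟨O1, p1, k1⟩ := bdp hc hT hX hx dv hp
  generalize p (G.ie X0 a) + p (G.ie X0 b) + (p (G.ie X0 x) + p (G.ie X0 y)) = σ at p1 k1
  obtain ⟨Z, hZ, -⟩ := q_real hc hT (sdiff_subset.trans hN) ⟨q1.card, hB'⟩ q1 h4
  obtain ⟨rg, O2, p2, q2⟩ := hZ (s + σ + G.n x + G.n y)
  obtain ⟨k2, k3⟩ := k1.close (L := ∅) (D' := Rl.Mt (s + 1)) q2
    (disjoint_sdiff.mono_right rg.sub) (fun k => ha (tch_mono rg.sub k))
    (fun k => hb (tch_mono rg.sub k)) (fun _ k => absurd k (notMem_empty _))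
    (fun _ k => absurd k (notMem_empty _)) fun R1 R2 r1 r2 => by
      have k := r1.cl_p (τ := G.n x) (τ' := G.n y) r2
      rw [show s + σ + G.n x + G.n y + σ + G.n x + G.n y = s by
        linear_combination (σ + G.n x + G.n y) * TY3_two] at k
      exact k.mt
  refine TY4a_fin hc hT hN hq sp q1 h4 rg (sp.1 (Spl_ie hx.mem.2.2.1)) ?_ k2 fun S s1 s2 s3 =>
    Or.inr (TY4a_bal hc hT hN hq sp hx hB s1 s2 s3)
  rw [k3, p1, p2]
  linear_combination (σ + G.n x + G.n y) * TY3_two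

end SG

end Pool.Agent.Work.MP_8c679b_co
end

-- merged part: Pool.Agent.Work.MP_8c679b_co.Key.IHa
section
/-!
A side without any split: its proper unbalanced sides have maximal members, and two disjoint
paths of the quotient join the two pairs of terminals.
-/

set_option autoImplicit false

namespace Pool.Agent.Work.MP_8c679b_co

open Finset

namespace SG

variable {V E : Type} [Fintype V] [DecidableEq V] [DecidableEq E] {G : SG V E}
  {T S X N : Finset V} {a b c d e : E} {Bs : Finset (Finset V)}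

theorem IHa_cut (hX : X ⊆ S) (he : e ∈ G.cut S) : e ∈ G.cut X ↔ G.ie S e ∈ X :=
  ⟨fun k => (cut_of_sub hX he (cut_sub_tch k)).2 ▸ Spl_ie k, fun k => (Spl_cut_of hX he k).1⟩

theorem IHa_ns (hq : G.Q4 S a b c d) (h1 : G.NC S a b) (h2 : G.NC S a c) (h3 : G.NC S a d) :
    ∀ X ⊆ S, (G.cut X).card = 4 → (G.cut X ∩ G.cut S).card ≠ 2 := by
  have key : ∀ X ⊆ S, (G.cut X).card = 4 → a ∈ G.cut X → (G.cut X ∩ G.cut S).card ≠ 2 := by
    intro X hX h4 ha k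
    obtain ⟨x, y, hxy, k⟩ := card_eq_two.1 k
    have m : a ∈ ({x, y} : Finset E) := k ▸ mem_inter.2 ⟨ha, hq.mem.1⟩
    obtain ⟨z, z1, z2⟩ : ∃ z, a ≠ z ∧ G.cut X ∩ G.cut S = {a, z} := by
      rcases mem_insert.1 m with rfl | m
      · exact ⟨y, hxy, k⟩
      · rw [mem_singleton] at m
        subst m
        exact ⟨x, hxy.symm, k.trans (pair_comm _ _)⟩
    have m' : z ∈ G.cut X ∩ G.cut S := z2 ▸ mem_insert_of_mem (mem_singleton_self z)
    rcases (Spl_mem hq z).1 (mem_inter.1 m').2 with rfl | rfl | rfl | rfl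
    · exact z1 rfl
    · exact h1 X ⟨hX, h4, z2⟩
    · exact h2 X ⟨hX, h4, z2⟩
    · exact h3 X ⟨hX, h4, z2⟩
  intro X hX h4 k
  by_cases ha : a ∈ G.cut X
  · exact key X hX h4 ha k
  have c1 := Spl_card (G := G) hX
  have c2 := hq.card
  refine key (S \ X) sdiff_subset (by omega)
    ((Spl_sd hX a).2 fun k' => ha (k'.1 hq.mem.1)) ?_
  have c3 : G.cut (S \ X) ∩ G.cut S = G.cut S \ G.cut X := by
    ext f
    rw [mem_inter, mem_sdiff, Spl_sd hX]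
    tauto
  have c4 := card_sdiff_add_card_inter (G.cut S) (G.cut X)
  rw [inter_comm] at c4
  rw [c3]
  omega

theorem IHa_crs (hT : G.HT T) (hS : S ⊆ T) (h4 : (G.cut S).card = 4) (h2 : 2 < S.card)
    (hN : ∀ X ⊆ S, (G.cut X).card = 4 → (G.cut X ∩ G.cut S).card ≠ 2) (hX : X ⊆ S)
    (hn : X.Nonempty) (hX' : X ≠ S) : 2 ≤ (G.crs (G.ins S) X).card ∧
      ((G.cut X ∩ G.cut S).card = 2 → 3 ≤ (G.crs (G.ins S) X).card) ∧
      ((G.cut X).card = 4 → (G.cut X ∩ G.cut S).card ≤ 1) := by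
  have c1 := hT.f3 hS h4 h2 X hX hn hX'
  have c2 := card_sdiff_add_card_inter (G.cut X) (G.cut S)
  rw [← crs_ins hX] at c2
  have c3 := hN X hX
  refine ⟨c1, fun k => ?_, fun k => ?_⟩
  · by_contra k'
    exact c3 (by omega) k
  · have := c3 k
    omega

theorem IHa_box (hc : G.Cub) (hT : G.HT T) (hS : S ⊆ T) (h4 : (G.cut S).card = 4)
    (hN : ∀ X ⊆ S, (G.cut X).card = 4 → (G.cut X ∩ G.cut S).card ≠ 2) :
    ∃ Bs, G.Bx {N | G.US N ∧ N ≠ S} S (G.cut S) Bs := by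
  refine Cut_boxes fun N h1 h2 _ N' h5 h6 _ hd => ?_
  by_cases k1 : N ⊆ N'
  · rwa [union_eq_right.2 k1]
  by_cases k2 : N' ⊆ N
  · rwa [union_eq_left.2 k2]
  have c1 := hT.us_card hc (h2.trans hS) h1.1
  have c2 := hT.us_card hc (h6.trans hS) h5.1
  have c3 := hT.four' hS h4 (union_subset h2 h6)
    (le_trans (by omega) (card_le_card (subset_union_left (s₁ := N) (s₂ := N'))))
  obtain ⟨-, f1, f2, -⟩ := hT.f4 hc (h2.trans hS) (h6.trans hS) h1.1.1 h5.1.1 (by omega) (by omega)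
    (by omega) (not_disjoint_iff_nonempty_inter.1 hd) (sdiff_nonempty.2 k1) (sdiff_nonempty.2 k2)
  refine ⟨⟨f1, fun k => h1.1.2 (k.mono (ins_mono subset_union_left))⟩, fun k => ?_⟩
  have c4 := Spl_card (G := G) h6
  have c5 : S \ N' = N \ N' := by rw [← k, union_sdiff_right]
  rw [c5, f2, h4, h5.1.1] at c4
  exact hN N' h6 h5.1.1 (by omega)

/-- two different boxes do not form a side -/
theorem IHa_r2 {Fm : Set (Finset V)} {J : Finset E} (hc : G.Cub) (hT : G.HT T) (hS : S ⊆ T)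
    (hB : G.Bx Fm S J Bs) (hF : Fm ⊆ G.AU) {B B' : Finset V} (h1 : B ∈ Bs) (h2 : B' ∈ Bs)
    (hne : B ≠ B') (h : G.US (B ∪ B') → B ∪ B' ∈ Fm) : (G.cut (B ∪ B')).card ≠ 4 := by
  intro k
  obtain ⟨k1, k2, k3⟩ := hB.1 B h1
  obtain ⟨k4, k5, k6⟩ := hB.1 B' h2
  have u1 : G.US B := hF k1
  have u2 : G.US B' := hF k4
  obtain ⟨B0, m1, m2⟩ := hB.2.2 _ (h ⟨k, fun k => u1.2 (k.mono (ins_mono subset_union_left))⟩)
    (union_subset k2 k5) (cut_union_sub.trans (union_subset k3 k6))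
  have key : ∀ N ∈ Bs, G.US N → N ⊆ S → N ⊆ B0 → N = B0 := fun N n1 n2 n3 n4 => by
    by_contra n5
    have c1 := hT.us_card hc (n3.trans hS) n2
    obtain ⟨x, hx⟩ : N.Nonempty := card_pos.1 (by omega)
    exact disjoint_left.1 (hB.2.1 N n1 B0 m1 n5) hx (n4 hx)
  exact hne ((key B h1 u1 k2 (subset_union_left.trans m2)).trans
    (key B' h2 u2 k5 (subset_union_right.trans m2)).symm)

theorem IHa_r2' (hc : G.Cub) (hT : G.HT T) (hS : S ⊆ T) (h4 : (G.cut S).card = 4)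
    (hN : ∀ X ⊆ S, (G.cut X).card = 4 → (G.cut X ∩ G.cut S).card ≠ 2)
    (hB : G.Bx {N | G.US N ∧ N ≠ S} S (G.cut S) Bs) {B B' : Finset V} (h1 : B ∈ Bs)
    (h2 : B' ∈ Bs) (hne : B ≠ B') : (G.cut (B ∪ B')).card ≠ 4 := by
  refine IHa_r2 hc hT hS hB (fun N k => k.1) h1 h2 hne fun k => ⟨k, fun k' => ?_⟩
  obtain ⟨k1, k2, -⟩ := hB.1 B h1
  obtain ⟨k4, -, -⟩ := hB.1 B' h2
  have c4 := Spl_card (G := G) k2
  have c5 : S \ B = B' := by
    rw [← k', union_sdiff_left, Finset.sdiff_eq_self_iff_disjoint.2 (hB.2.1 B' h2 B h1 hne.symm)]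
  rw [c5, k4.1.1, h4, k1.1.1] at c4
  exact hN B k2 k1.1.1 (by omega)

/-- a node has at most four leaving edges, at most one of them leaves `S` -/
theorem IHa_node (hc : G.Cub) (hT : G.HT T) (hS : S ⊆ T) (h4 : (G.cut S).card = 4)
    (h2 : 2 < S.card) (hN : ∀ X ⊆ S, (G.cut X).card = 4 → (G.cut X ∩ G.cut S).card ≠ 2)
    (hB : G.Bx {N | G.US N ∧ N ≠ S} S (G.cut S) Bs) {v : V} (hv : v ∈ S) :
    (G.cut (nd Bs v)).card ≤ 4 ∧ ∀ e ∈ G.cut S, ∀ f ∈ G.cut S, G.ie S e ∈ nd Bs v →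
      G.ie S f ∈ nd Bs v → e = f := by
  rcases nd_cases hB.2.1 v with k | k
  · obtain ⟨k1, k2, -⟩ := hB.1 _ k
    refine ⟨k1.1.1.le, fun e he f hf m1 m2 => ?_⟩
    exact card_le_one.1 ((IHa_crs hT hS h4 h2 hN k2 ⟨v, mem_nd_self⟩ k1.2).2.2 k1.1.1) e
      (mem_inter.2 ⟨(IHa_cut k2 he).2 m1, he⟩) f (mem_inter.2 ⟨(IHa_cut k2 hf).2 m2, hf⟩)
  · rw [k.2, (hT.vtx hc (hS hv)).1]
    refine ⟨by omega, fun e he f hf m1 m2 => ?_⟩
    by_contra ne
    exact hT.f2 hc hS h4 h2 he hf ne ((mem_singleton.1 m1).trans (mem_singleton.1 m2).symm)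

omit [Fintype V] [DecidableEq E] in
theorem IHa_avo {A : Finset E} {M : Finset V} {x y : V} (h : G.Rch (G.avo A M) x y) (hx : x ∉ M) :
    y ∉ M := by
  induction h with
  | refl => exact hx
  | tail _ h2 _ =>
    obtain ⟨e, he, hj⟩ := h2
    exact ((GO3_je hj).1 he).2.2

theorem IHa_sep (hc : G.Cub) (hT : G.HT T) (hS : S ⊆ T) (hq : G.Q4 S a b c d) (h2 : 2 < S.card)
    (hN : ∀ X ⊆ S, (G.cut X).card = 4 → (G.cut X ∩ G.cut S).card ≠ 2)
    (hB : G.Bx {N | G.US N ∧ N ≠ S} S (G.cut S) Bs) (M : Finset (Finset V)) (hM : M.card < 2) :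
    ∃ x ∈ ({nd Bs (G.ie S a), nd Bs (G.ie S b)} : Finset (Finset V)),
      ∃ y ∈ ({nd Bs (G.ie S c), nd Bs (G.ie S d)} : Finset (Finset V)), x ∉ M ∧ y ∉ M ∧
        (G.quo S Bs).Rch ((G.quo S Bs).avo (G.quo S Bs).A M) x y := by
  classical
  by_contra hn
  obtain ⟨ma, mb, mc, md⟩ := hq.mem
  obtain ⟨U, hU⟩ : ∃ U : Finset V, ∀ x, x ∈ U ↔ x ∈ S ∧ ∃ f, (f = a ∨ f = b) ∧
      nd Bs (G.ie S f) ∉ M ∧
      (G.quo S Bs).Rch ((G.quo S Bs).avo (G.quo S Bs).A M) (nd Bs (G.ie S f)) (nd Bs x) :=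
    ⟨S.filter _, fun x => mem_filter⟩
  obtain ⟨s, hs, s4, s1⟩ : ∃ s : Finset V, (∀ x ∈ S, x ∈ s ↔ nd Bs x ∈ M) ∧ (G.cut s).card ≤ 4 ∧
      ∀ e ∈ G.cut S, ∀ f ∈ G.cut S, G.ie S e ∈ s → G.ie S f ∈ s → e = f := by
    by_cases k : ∃ v ∈ S, nd Bs v ∈ M
    · obtain ⟨v, hv, hvM⟩ := k
      refine ⟨nd Bs v, fun p _ => ?_, IHa_node hc hT hS hq.card h2 hN hB hv⟩
      rw [← nd_eq_iff hB.2.1]
      exact ⟨fun k => k ▸ hvM, fun k => card_le_one.1 (Nat.le_of_lt_succ hM) _ k _ hvM⟩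
    · refine ⟨∅, fun x hx => iff_of_false (notMem_empty x) fun k' => k ⟨x, hx, k'⟩, ?_,
        fun e _ f _ k => (notMem_empty _ k).elim⟩
      have : G.cut (∅ : Finset V) = ∅ := by
        refine eq_empty_of_forall_notMem fun e he => (mem_cut.1 he).2 ?_
        simp
      rw [this, card_empty]
      omega
  have hUS : U ⊆ S := fun x hx => ((hU x).1 hx).1
  have z7 : ∀ p ∈ U, p ∉ s := fun p hp k => by
    obtain ⟨k1, f, -, k2, k3⟩ := (hU p).1 hp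
    exact IHa_avo k3 k2 ((hs p k1).1 k)
  have z6 : ∀ e ∈ G.ins S, ∀ p ∈ U, ∀ q ∉ U, G.Je e p q → q ∈ s := by
    intro e he p hp q hq' j
    have hqS : q ∈ S := ((Pth_ends j).1 (mem_ins.1 he).2).2
    obtain ⟨k1, f, k0, k2, k3⟩ := (hU p).1 hp
    by_contra k
    refine hq' ((hU q).2 ⟨hqS, f, k0, k2, ?_⟩)
    by_cases ne : nd Bs p = nd Bs q
    · exact ne ▸ k3
    · have j' := quo_je (Ns := Bs) he j
      refine GO3_tail k3 ((GO3_je j').2 ⟨mem_quo.2 ⟨he, ?_⟩, IHa_avo k3 k2,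
        fun k' => k ((hs q hqS).2 k')⟩) j'
      rcases j with ⟨rfl, rfl⟩ | ⟨rfl, rfl⟩
      · exact ne
      · exact Ne.symm ne
  have ua : ∀ f, (f = a ∨ f = b) → G.ie S f ∉ s → G.ie S f ∈ U := fun f k k' => by
    have m : G.ie S f ∈ S := Spl_ie (k.elim (fun k => k ▸ ma) fun k => k ▸ mb)
    exact (hU _).2 ⟨m, f, k, fun k1 => k' ((hs _ m).2 k1), Rch.refl _ _⟩
  have uc : ∀ f, (f = c ∨ f = d) → G.ie S f ∉ U := fun f k k' => by
    obtain ⟨-, f', k0, k2, k3⟩ := (hU _).1 k'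
    refine hn ⟨_, ?_, _, ?_, k2, IHa_avo k3 k2, k3⟩
    · rcases k0 with rfl | rfl <;> simp
    · rcases k with rfl | rfl <;> simp
  have m : ∀ p, p ∈ S \ (U ∪ s) ↔ p ∈ S ∧ p ∉ U ∧ p ∉ s := fun p => by
    rw [mem_sdiff, mem_union, not_or]
  obtain ⟨x, hx⟩ : U.Nonempty := by
    by_cases k : G.ie S a ∈ s
    · exact ⟨_, ua b (Or.inr rfl) fun k' => hq.2.1 (s1 a ma b mb k k')⟩
    · exact ⟨_, ua a (Or.inl rfl) k⟩
  obtain ⟨y, hy⟩ : (S \ (U ∪ s)).Nonempty := by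
    by_cases k : G.ie S c ∈ s
    · exact ⟨_, (m _).2 ⟨Spl_ie md, uc d (Or.inr rfl), fun k' => hq.2.2.2.2.2.2 (s1 c mc d md k k')⟩⟩
    · exact ⟨_, (m _).2 ⟨Spl_ie mc, uc c (Or.inl rfl), k⟩⟩
  obtain ⟨c1, c2, -⟩ := IHa_crs hT hS hq.card h2 hN hUS ⟨x, hx⟩
    fun k => ((m y).1 hy).2.1 (k.symm ▸ ((m y).1 hy).1)
  obtain ⟨c3, c4, -⟩ := IHa_crs hT hS hq.card h2 hN sdiff_subset ⟨y, hy⟩
    fun k => ((m x).1 (k.symm ▸ hUS hx)).2.1 hx
  have pt : ∀ e ∈ G.ins S, (G.s e ∈ U → G.t e ∉ U → G.t e ∈ s) ∧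
      (G.t e ∈ U → G.s e ∉ U → G.s e ∈ s) ∧ (G.s e ∈ U → G.s e ∉ s) ∧ (G.t e ∈ U → G.t e ∉ s) ∧
      G.s e ∈ S ∧ G.t e ∈ S := fun e he =>
    ⟨fun k k' => z6 e he _ k _ k' (Or.inl ⟨rfl, rfl⟩),
      fun k k' => z6 e he _ k _ k' (Or.inr ⟨rfl, rfl⟩), z7 _, z7 _, (mem_ins.1 he).2⟩
  have d1 : Disjoint (G.crs (G.ins S) U) (G.crs (G.ins S) (S \ (U ∪ s))) := by
    refine disjoint_left.2 fun e k1 k2 => ?_
    rw [mem_crs, m, m] at k2
    exact (GO3_prop (pt e k2.1)).1 (mem_crs.1 k1).2 k2.2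
  have d2 : G.crs (G.ins S) U ∪ G.crs (G.ins S) (S \ (U ∪ s)) ⊆ G.cut s := by
    intro e he
    rw [mem_union, mem_crs, mem_crs, m, m] at he
    rcases he with k | k
    · exact mem_cut.2 ⟨ins_sub_A k.1, (GO3_prop (pt e k.1)).2.1 k.2⟩
    · exact mem_cut.2 ⟨ins_sub_A k.1, (GO3_prop (pt e k.1)).2.2 k.2⟩
  have d3 := card_le_card d2
  rw [card_union_of_disjoint d1] at d3
  by_cases k : G.ie S a ∈ s ∨ G.ie S b ∈ s
  · have nc : ∀ f, (f = c ∨ f = d) → G.ie S f ∉ s := fun f k1 k2 => by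
      have mf : f ∈ G.cut S := k1.elim (fun k => k ▸ mc) fun k => k ▸ md
      rcases k with k | k
      · have := s1 a ma f mf k k2
        rcases k1 with rfl | rfl
        exacts [hq.2.2.1 this, hq.2.2.2.1 this]
      · have := s1 b mb f mf k k2
        rcases k1 with rfl | rfl
        exacts [hq.2.2.2.2.1 this, hq.2.2.2.2.2.1 this]
    have : G.cut (S \ (U ∪ s)) ∩ G.cut S = {c, d} := by
      ext f
      rw [mem_inter, mem_insert, mem_singleton]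
      refine ⟨fun k1 => ?_, fun k1 => ?_⟩
      · have k2 := (m _).1 ((IHa_cut sdiff_subset k1.2).1 k1.1)
        rcases (Spl_mem hq f).1 k1.2 with k3 | k3 | k3
        · exact (k2.2.1 (ua f (Or.inl k3) k2.2.2)).elim
        · exact (k2.2.1 (ua f (Or.inr k3) k2.2.2)).elim
        · exact k3
      · have mf : f ∈ G.cut S := k1.elim (fun k => k ▸ mc) fun k => k ▸ md
        exact ⟨(IHa_cut sdiff_subset mf).2 ((m _).2 ⟨Spl_ie mf, uc f k1, nc f k1⟩), mf⟩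
    have := c4 (by rw [this, card_pair hq.2.2.2.2.2.2])
    omega
  · rw [not_or] at k
    have : G.cut U ∩ G.cut S = {a, b} := by
      ext f
      rw [mem_inter, mem_insert, mem_singleton]
      refine ⟨fun k1 => ?_, fun k1 => ?_⟩
      · have k2 := (IHa_cut hUS k1.2).1 k1.1
        rcases (Spl_mem hq f).1 k1.2 with k3 | k3 | k3
        · exact Or.inl k3
        · exact Or.inr k3
        · exact (uc f k3 k2).elim
      · have mf : f ∈ G.cut S := k1.elim (fun k => k ▸ ma) fun k => k ▸ mb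
        exact ⟨(IHa_cut hUS mf).2 (ua f k1 (k1.elim (fun j => j ▸ k.1) fun j => j ▸ k.2)), mf⟩
    have := c2 (by rw [this, card_pair hq.2.1])
    omega

/-- two disjoint paths of the quotient from the first pair to the second pair -/
theorem IHa_link (hc : G.Cub) (hT : G.HT T) (hS : S ⊆ T) (hq : G.Q4 S a b c d) (h2 : 2 < S.card)
    (hN : ∀ X ⊆ S, (G.cut X).card = 4 → (G.cut X ∩ G.cut S).card ≠ 2)
    (hB : G.Bx {N | G.US N ∧ N ≠ S} S (G.cut S) Bs) :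
    ∃ (M : MP_8c679b_co.Mb V E) (x y : E), ((x = c ∧ y = d) ∨ (x = d ∧ y = c)) ∧
      (∀ i, (G.quo S Bs).Pth (G.quo S Bs).A (M.n i) (M.w i) (M.g i)) ∧
      M.w false 0 = nd Bs (G.ie S a) ∧ M.w true 0 = nd Bs (G.ie S b) ∧
      M.w false (M.n false) = nd Bs (G.ie S x) ∧ M.w true (M.n true) = nd Bs (G.ie S y) ∧
      ∀ k ≤ M.n false, ∀ l ≤ M.n true, M.w false k ≠ M.w true l := by
  obtain ⟨n, w, g, h1, h3⟩ := menger (G := G.quo S Bs) (G.quo S Bs).A _ _ 2 a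
    (IHa_sep hc hT hS hq h2 hN hB)
  have dj : ∀ i j, i ≠ j → ∀ k ≤ n i, ∀ l ≤ n j, w i k ≠ w j l := fun i j hij k hk l hl e =>
    disjoint_left.1 (h3 i j hij) (mem_pv.2 ⟨k, hk, rfl⟩) (mem_pv.2 ⟨l, hl, e.symm⟩)
  obtain ⟨i, j, hij, ea, eb⟩ : ∃ i j, i ≠ j ∧ w i 0 = nd Bs (G.ie S a) ∧
      w j 0 = nd Bs (G.ie S b) := by
    have k0 := (h1 0).2.1
    have k1 := (h1 1).2.1
    have k2 := dj 0 1 (by decide) 0 (Nat.zero_le _) 0 (Nat.zero_le _)
    rw [mem_insert, mem_singleton] at k0 k1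
    rcases k0 with k0 | k0 <;> rcases k1 with k1 | k1
    · exact (k2 (k0.trans k1.symm)).elim
    · exact ⟨0, 1, by decide, k0, k1⟩
    · exact ⟨1, 0, by decide, k1, k0⟩
    · exact (k2 (k0.trans k1.symm)).elim
  obtain ⟨x, y, hxy, ex, ey⟩ : ∃ x y, ((x = c ∧ y = d) ∨ (x = d ∧ y = c)) ∧
      w i (n i) = nd Bs (G.ie S x) ∧ w j (n j) = nd Bs (G.ie S y) := by
    have k0 := (h1 i).2.2.1
    have k1 := (h1 j).2.2.1
    have k2 := dj i j hij _ le_rfl _ le_rfl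
    rw [mem_insert, mem_singleton] at k0 k1
    rcases k0 with k0 | k0 <;> rcases k1 with k1 | k1
    · exact (k2 (k0.trans k1.symm)).elim
    · exact ⟨c, d, Or.inl ⟨rfl, rfl⟩, k0, k1⟩
    · exact ⟨d, c, Or.inr ⟨rfl, rfl⟩, k0, k1⟩
    · exact (k2 (k0.trans k1.symm)).elim
  refine ⟨⟨fun t => n (cond t j i), fun t => w (cond t j i), fun t => g (cond t j i)⟩, x, y, hxy,
    fun t => (h1 _).1, ea, eb, ex, ey, dj i j hij⟩

end SG

end Pool.Agent.Work.MP_8c679b_co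
end

-- merged part: Pool.Agent.Work.MP_8c679b_co.Key.IHb
section
/-!
The frame that arises from a side by deleting a terminal, with a closable member.
-/

set_option autoImplicit false

namespace Pool.Agent.Work.MP_8c679b_co

open Finset

namespace SG

variable {V E : Type} [Fintype V] [DecidableEq V] [DecidableEq E] {G : SG V E}
  {T S : Finset V} {a b c d : E} {Bs : Finset (Finset V)} {n : ℕ} {w : ℕ → Finset V} {g : ℕ → E}

/-- a path through a third terminal that contains a box or has a prescribed sign -/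
theorem IHb_path (hc : G.Cub) (hT : G.HT T) (hS : S ⊆ T) (hu : G.US S) (hq : G.Q4 S a b c d)
    (hN : G.NC S a b) (hB : G.Bx G.AU S {a, b} Bs) (σ : ZMod 2) :
    ∃ x y n w g, ((x = c ∧ y = d) ∨ (x = d ∧ y = c)) ∧ (G.quo S Bs).Pth (G.quo S Bs).A n w g ∧
      w 0 = nd Bs (G.ie S a) ∧ w n = nd Bs (G.ie S b) ∧ {G.ie S x} ∈ pv n w ∧
      ((∃ j ≤ n, w j ∈ Bs) ∨ ∑ i ∈ range n, G.n (g i) = σ) := by
  have h2 : 2 < S.card := by
    have := hT.us_card hc hS hu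
    omega
  rcases Bs.eq_empty_or_nonempty with rfl | hne
  · obtain ⟨n, v, g, hp, h0, hn, hm, hs⟩ := cpm hc hT hS hu hq hN σ
    have nd0 : ∀ x : V, nd ∅ x = {x} := fun x => nd_of_not fun N k => (notMem_empty N k).elim
    have hp' : (G.quo S ∅).Pth (G.quo S ∅).A n (fun i => {v i}) g := by
      refine ⟨fun i hi j hj e => hp.inj i hi j hj (singleton_inj.1 e), fun i hi => ?_,
        fun i hi => ?_⟩
      · refine mem_quo.2 ⟨hp.mem i hi, ?_⟩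
        rw [nd0, nd0, Ne, singleton_inj]
        intro e
        have k : v i = v (i + 1) := by
          rcases hp.jn i hi with ⟨k1, k2⟩ | ⟨k1, k2⟩
          · rw [← k1, ← k2, e]
          · rw [← k1, ← k2, e]
        have := hp.inj i hi.le (i + 1) hi k
        omega
      · have := quo_je (Ns := ∅) (hp.mem i hi) (hp.jn i hi)
        rwa [nd0, nd0] at this
    have hm' : ∀ x, x ∈ pv n v → {x} ∈ pv n fun i => ({v i} : Finset V) := fun x k => by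
      obtain ⟨i, k1, k2⟩ := mem_pv.1 k
      exact mem_pv.2 ⟨i, k1, by rw [k2]⟩
    rw [hp.par] at hs
    rcases hm with hm | hm
    · exact ⟨c, d, n, _, g, Or.inl ⟨rfl, rfl⟩, hp', by rw [nd0, h0], by rw [nd0, hn], hm' _ hm,
        Or.inr hs⟩
    · exact ⟨d, c, n, _, g, Or.inr ⟨rfl, rfl⟩, hp', by rw [nd0, h0], by rw [nd0, hn], hm' _ hm,
        Or.inr hs⟩
  · obtain ⟨n, w, g, hp, h0, hn, hm, hs⟩ := o3 hc hT hS hq h2 hN hB hne
    exact ⟨c, d, n, w, g, Or.inl ⟨rfl, rfl⟩, hp, h0, hn, hm, Or.inl hs⟩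

omit [Fintype V] in
/-- a path of the quotient that avoids the node of `t` -/
theorem IHb_pth {t : V} (hp : (G.quo S Bs).Pth (G.quo S Bs).A n w g)
    (hw : ∀ i ≤ n, w i ≠ nd Bs t) : (G.quo (S \ {t}) Bs).Pth (G.quo (S \ {t}) Bs).A n w g := by
  refine ⟨hp.inj, fun i hi => ?_, hp.jn⟩
  obtain ⟨k1, k2⟩ := mem_filter.1 (hp.mem i hi)
  obtain ⟨k3, k4, k5⟩ := mem_ins.1 k1
  have k6 := hw i hi.le
  have k7 := hw (i + 1) hi
  refine mem_filter.2 ⟨mem_ins.2 ⟨k3, mem_sdiff.2 ⟨k4, fun k => ?_⟩, mem_sdiff.2 ⟨k5, fun k => ?_⟩⟩,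
    k2⟩
  · rw [← mem_singleton.1 k] at k6 k7
    rcases hp.jn i hi with ⟨j, -⟩ | ⟨j, -⟩
    exacts [k6 j.symm, k7 j.symm]
  · rw [← mem_singleton.1 k] at k6 k7
    rcases hp.jn i hi with ⟨-, j⟩ | ⟨-, j⟩
    exacts [k7 j.symm, k6 j.symm]

omit [Fintype V] [DecidableEq E] in
/-- a box on a track adjusts the total sign -/
theorem IHb_sign {F : Kf V E} {M : MP_8c679b_co.Mb V E} (hM : F.IsM G M) (δ : ZMod 2)
    (h : (∃ i, ∃ k ≤ M.n i, M.w i k ∈ F.Bs) ∨ Kf.sl G M false + Kf.sl G M true = δ) :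
    ∃ σ, F.ts G M σ false + F.ts G M σ true = δ := by
  rcases h with ⟨i, k, hk, hb⟩ | h
  · obtain ⟨η, hη⟩ : ∃ η, η = δ + Kf.sl G M false + Kf.sl G M true := ⟨_, rfl⟩
    have e1 : F.ts G M (fun N => if N = M.w i k then η else 0) i = Kf.sl G M i + η := by
      rw [Kf.ts, Kf.tz, sum_eq_single k, if_pos ⟨hb, notMem_empty _⟩, if_pos rfl]
      · intro l hl hlk
        have : M.w i l ≠ M.w i k := fun e =>
          hlk ((hM.pth i).inj l (Nat.lt_succ_iff.1 (mem_range.1 hl)) k hk e)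
        simp [this]
      · exact fun k' => (k' (mem_range.2 (Nat.lt_succ_iff.2 hk))).elim
    have e2 : F.ts G M (fun N => if N = M.w i k then η else 0) (!i) = Kf.sl G M (!i) := by
      rw [Kf.ts, Kf.tz, sum_eq_zero, add_zero]
      intro l hl
      have hl' := Nat.lt_succ_iff.1 (mem_range.1 hl)
      have : M.w (!i) l ≠ M.w i k := by
        cases i
        · exact (hM.dj k hk l hl').symm
        · exact hM.dj l hl' k hk
      simp [this]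
    refine ⟨fun N => if N = M.w i k then η else 0, ?_⟩
    cases i
    · rw [e1]
      erw [e2]
      rw [hη]
      change _ + Kf.sl G M true = _
      linear_combination z2_add_self (Kf.sl G M false) + z2_add_self (Kf.sl G M true)
    · rw [e1]
      erw [e2]
      rw [hη]
      change Kf.sl G M false + _ = _
      linear_combination z2_add_self (Kf.sl G M false) + z2_add_self (Kf.sl G M true)
  · refine ⟨fun _ => 0, ?_⟩
    simpa [Kf.ts, Kf.tz] using h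

/-- the two tracks of a path through the terminal of `c` -/
theorem IHb_split (hc : G.Cub) (hT : G.HT T) (hS : S ⊆ T) (hq : G.Q4 S a b c d) (h2 : 2 < S.card)
    (hN : G.NC S a b) (hB : G.Bx G.AU S {a, b} Bs) (hp : (G.quo S Bs).Pth (G.quo S Bs).A n w g)
    (h0 : w 0 = nd Bs (G.ie S a)) (hn : w n = nd Bs (G.ie S b)) (hm : {G.ie S c} ∈ pv n w) :
    ∃ (M : MP_8c679b_co.Mb V E) (x y : E), G.Q3 {G.ie S c} x y c ∧ x ∈ G.ins S ∧ y ∈ G.ins S ∧
      (∀ i, (G.quo (S \ {G.ie S c}) Bs).Pth (G.quo (S \ {G.ie S c}) Bs).A (M.n i) (M.w i) (M.g i)) ∧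
      M.w false 0 = nd Bs (G.ie S a) ∧ M.w true 0 = nd Bs (G.ie S b) ∧
      M.w false (M.n false) = nd Bs (G.ie (S \ {G.ie S c}) x) ∧
      M.w true (M.n true) = nd Bs (G.ie (S \ {G.ie S c}) y) ∧
      (∀ k ≤ M.n false, ∀ l ≤ M.n true, M.w false k ≠ M.w true l) ∧
      ((∃ j ≤ n, w j ∈ Bs) → ∃ i, ∃ k ≤ M.n i, M.w i k ∈ Bs) ∧
      ∑ i ∈ range n, G.n (g i) = Kf.sl G M false + Kf.sl G M true + (G.n x + G.n y) := by
  obtain ⟨-, t2, -, t3, t4⟩ := nd_term hc hT hS hq h2 hN hB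
  obtain ⟨k, k1, k2⟩ := mem_pv.1 hm
  obtain ⟨l, rfl⟩ : ∃ l, k = l + 1 := by
    rcases k with _ | l
    · exact (t3 (h0.symm.trans k2)).elim
    · exact ⟨l, rfl⟩
  have k3 : l + 1 < n := lt_of_le_of_ne k1 fun k => t4 (by rw [← hn, ← k, k2])
  obtain ⟨r, rfl⟩ : ∃ r, n = l + 2 + r := ⟨n - (l + 2), by omega⟩
  have ne : ∀ i ≤ l + 2 + r, i ≠ l + 1 → w i ≠ nd Bs (G.ie S c) := fun i hi hne e =>
    hne (hp.inj i hi (l + 1) k1 (by rw [e, t2, k2]))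
  have m1 := hp.mem l (by omega)
  have m2 := hp.mem (l + 1) k3
  obtain ⟨-, q1, q2, -, q3, -, q4⟩ := quo_je_inv hB.2.1 m1 (hp.jn l (by omega))
  obtain ⟨p1, -, -, p2, -, p3, p4⟩ := quo_je_inv hB.2.1 m2 (hp.jn (l + 1) k3)
  rw [k2] at q1 p1
  have q5 : g l ≠ g (l + 1) := fun k => by
    have := hp.einj (by omega) k3 k
    omega
  obtain ⟨z, hz⟩ := hT.third hc (hS (Spl_ie hq.mem.2.2.1)) q1 p1 q5
  obtain rfl : c = z := by
    have k : c ∈ G.cut {G.ie S c} := (mem_inter.1 (Cut_ie hq.mem.2.2.1 rfl)).1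
    rw [hz.1, mem_insert, mem_insert, mem_singleton] at k
    rcases k with k | k | k
    · exact (GO3_ni hq.mem.2.2.1 (k ▸ (mem_quo.1 m1).1)).elim
    · exact (GO3_ni hq.mem.2.2.1 (k ▸ (mem_quo.1 m2).1)).elim
    · exact k
  have key : ∀ f ∈ G.cut {G.ie S c}, f ∈ G.ins S → ∀ u ∈ S, G.At f u → nd Bs u ≠ nd Bs (G.ie S c) →
      u = G.ie (S \ {G.ie S c}) f := fun f f1 f2 u u1 u2 u3 =>
    eq_ie ((Spl_sd (singleton_subset_iff.2 (Spl_ie hq.mem.2.2.1)) f).2 fun k =>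
      GO3_ni (k.2 f1) f2) (mem_sdiff.2 ⟨u1, fun k => u3 (by rw [mem_singleton.1 k])⟩) u2
  refine ⟨⟨fun t => cond t r l, fun t => cond t (fun i => w (l + 2 + r - i)) w,
    fun t => cond t (fun i => g (l + 2 + r - 1 - i)) g⟩, g l, g (l + 1), hz, (mem_quo.1 m1).1,
    (mem_quo.1 m2).1, fun t => ?_, h0, hn, ?_, ?_, fun i hi j hj e => ?_, ?_, ?_⟩
  · cases t
    · exact IHb_pth (Pth_init hp (by simp; omega)) fun i hi => ne i (by simp at hi; omega)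
        (by simp at hi; omega)
    · exact IHb_pth (Pth_init hp.rev (by simp)) fun i hi => ne _ (Nat.sub_le _ _)
        (by simp at hi; omega)
  · change w l = _
    rw [← key _ q1 (mem_quo.1 m1).1 _ q2 ie_at (by rw [q3]; exact ne l (by omega) (by omega)), q3]
  · change w (l + 2 + r - r) = _
    rw [← key _ p1 (mem_quo.1 m2).1 _ p2 ie_at
      (by rw [p3]; exact ne (l + 1 + 1) (by omega) (by omega)), p3, Nat.add_sub_cancel]
  · change i ≤ l at hi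
    change j ≤ r at hj
    have := hp.inj i (by omega) (l + 2 + r - j) (Nat.sub_le _ _) e
    omega
  · rintro ⟨j, j1, j2⟩
    rcases lt_trichotomy j (l + 1) with k | k | k
    · exact ⟨false, j, Nat.lt_succ_iff.1 k, j2⟩
    · rw [k, k2] at j2
      have := hT.us_card hc ((hB.1 _ j2).2.1.trans hS) (hB.1 _ j2).1
      simp at this
    · refine ⟨true, l + 2 + r - j, show _ ≤ r by omega, ?_⟩
      change w (l + 2 + r - (l + 2 + r - j)) ∈ Bs
      rwa [Nat.sub_sub_self j1]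
  · change _ = ∑ k ∈ range l, G.n (g k) + ∑ k ∈ range r, G.n (g (l + 2 + r - 1 - k)) + _
    have e1 : ∑ k ∈ range r, G.n (g (l + 2 + r - 1 - k)) = ∑ k ∈ range r, G.n (g (l + 2 + k)) := by
      rw [← sum_range_reflect fun k => G.n (g (l + 2 + k))]
      refine sum_congr rfl fun k hk => ?_
      have := mem_range.1 hk
      congr 2
      omega
    rw [e1, sum_range_add, sum_range_succ, sum_range_succ]
    ring

end SG

end Pool.Agent.Work.MP_8c679b_co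
end

-- merged part: Pool.Agent.Work.MP_8c679b_co.Key.Ch
section
/-!
Double passes of a chain (`dp_chain`).
-/

set_option autoImplicit false

namespace Pool.Agent.Work.MP_8c679b_co

open Finset

namespace SG

variable {V E : Type} [Fintype V] [DecidableEq V] [DecidableEq E] {G : SG V E}
  {T S H H' M : Finset V} {a b c d u w u' w' : E} {l t : ZMod 2}

/-- the middle part between an initial part and a final part -/
theorem Ch_mid (hc : G.Cub) (hT : G.HT T) (hS : S ⊆ T) (hq : G.Q4 S a b c d)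
    (h1 : G.Sp S a b H) (h2 : G.Sp S c d H') (hd : Disjoint H H') (hu : G.Q4 H a b u w)
    (hu' : G.Q4 H' c d u' w') : S \ (H ∪ H') = (S \ H) \ H' ∧ G.Q4 (S \ H) c d u w ∧
      (H' = S \ H ∨ (G.Sp (S \ H) c d H' ∧ G.Q4 (S \ (H ∪ H')) u' w' u w ∧
        G.Dv (S \ (H ∪ H')) u w)) := by
  have e : S \ (H ∪ H') = (S \ H) \ H' := by
    ext v
    simp only [mem_sdiff, mem_union]
    tauto
  have k1 := (Spl_q4 hq h1 hu).flip
  refine ⟨e, k1, ?_⟩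
  rcases (subset_sdiff.2 ⟨h2.1, hd.symm⟩).eq_or_ssubset with k | k
  · exact Or.inl k
  · have k2 := (h1.compl hq).of_sub h2 k hT hS hq.2.2.2.2.2.2
    rw [e]
    exact Or.inr ⟨k2, Spl_q4 k1 k2 hu',
      (k2.str hc hT (sdiff_subset.trans hS) k1).2.2.2.2.2.2.2.1⟩

/-- the sides that avoid the tolerance vertex -/
theorem Ch_cov (hc : G.Cub) (hT : G.HT T) (hS : S ⊆ T) (hq : G.Q4 S a b c d)
    (h1 : G.Sp S a b H) (h2 : G.Sp S c d H') (hd : Disjoint H H') (hu : G.Q4 H a b u w)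
    (hu' : G.Q4 H' c d u' w') {v : V}
    (hv : ∀ Z ⊆ H, (G.cut Z).card = 4 → u ∈ G.cut Z → w ∈ G.cut Z → v ∈ Z) :
    ∀ s ∈ G.Kv S v, (∃ s' ∈ G.Kv H v ∪ G.Kus H' ∪
        (G.Kus (S \ (H ∪ H')) ∪ G.Lk (S \ (H ∪ H')) u' w'), s' ⊆ s) ∨
      ∃ e ∈ s, e ∈ G.ins S ∧ e ∉ G.ins H ∧ e ∉ G.ins H' ∧ e ∉ G.ins (S \ (H ∪ H')) := by
  rintro _ ⟨Z, z1, z2, z3, rfl⟩
  obtain ⟨e, k1, k2⟩ := Ch_mid hc hT hS hq h1 h2 hd hu hu'
  by_cases r1 : Z ⊆ H
  · exact Or.inl ⟨_, Or.inl (Or.inl ⟨Z, r1, z2, z3, rfl⟩), Subset.rfl⟩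
  by_cases r2 : Z ⊆ S \ H
  swap
  · obtain ⟨-, -, r3, r4, r5⟩ := ch_link hc hT hS hq h1 hu z1 z2 r1 r2
    exact absurd (mem_inter.1 (hv _ inter_subset_right r3 r4 r5)).1 z3
  rcases k2 with k2 | ⟨k2, -⟩
  · exact Or.inl ⟨_, Or.inl (Or.inr ⟨Z, k2 ▸ r2, z2, rfl⟩), Subset.rfl⟩
  have hS' : S \ H ⊆ T := sdiff_subset.trans hS
  rcases k2.f6 hc hT hS' k1 r2 z2 with k | k | k | ⟨X', k3, k4, k5⟩
  · exact Or.inl ⟨_, Or.inl (Or.inr ⟨Z, k, z2, rfl⟩), Subset.rfl⟩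
  · exact Or.inl ⟨_, Or.inr (Or.inl ⟨Z, e ▸ k, z2, rfl⟩), Subset.rfl⟩
  · have m := k1.mem.2.2.1
    exact Or.inr ⟨u, k.1, (h1.link hc hT hS hq hu).2.1, not_ins_of_cut hu.mem.2.2.1,
      fun r => not_ins_of_cut m (ins_mono k2.1 r),
      fun r => not_ins_of_cut m (ins_mono (e.le.trans sdiff_subset) r)⟩
  · obtain ⟨k6, k7⟩ := k2.sub hc hT hS' k1 hu' k3 k4
    exact Or.inl ⟨_, Or.inr (Or.inr ⟨_, e ▸ k6, rfl⟩), k7 ▸ k5⟩

variable (G) in
/-- the middle part is absorbed with parity zero and all its links are hit -/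
def ChM (M : Finset V) (u w : E) : Prop :=
  ∃ O, G.par O = 0 ∧ G.Abs0 M O (G.cut M) (G.Kus M ∪ G.Lk M u w)

theorem Ch_one (hc : G.Cub) (hT : G.HT T) (hS : S ⊆ T) (hq : G.Q4 S a b c d)
    (h1 : G.Sp S a b H) (h2 : G.Sp S c d H') (hd : Disjoint H H') (hu : G.Q4 H a b u w)
    (hu' : G.Q4 H' c d u' w') (hM : G.ChM (S \ (H ∪ H')) u' w') {v : V} (v1 : v ∈ H)
    (hv : ∀ Z ⊆ H, (G.cut Z).card = 4 → u ∈ G.cut Z → w ∈ G.cut Z → v ∈ Z) {O1 O2 : Finset E}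
    {C1 C2 : Rl → Prop} (p1 : G.Pas0 H O1 a b ∅ (G.Kv H v) C1)
    (p2 : G.Pas0 H' O2 c d ∅ (G.Kus H') C2)
    (hC : ∀ R1 R2, C1 R1 → C2 R2 → (Rf.pr R1 R2).L2 l t) :
    G.Win S a c b d l t (G.par (O1 ∩ G.ins H) + G.par (O2 ∩ G.ins H')) := by
  obtain ⟨O, o1, o2⟩ := hM
  have k := ch_core hq h1.1 h2.1 hd p1 p2 o2 (Or.inl ⟨rfl, rfl⟩) hC
    (Ch_cov hc hT hS hq h1 h2 hd hu hu' hv)
  rw [o1, add_zero] at k
  exact ⟨v, h1.1 v1, k⟩

theorem Ch_end (hu : G.Q4 H a b u w) : G.ie H u ∈ H ∧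
    ∀ Z ⊆ H, (G.cut Z).card = 4 → u ∈ G.cut Z → w ∈ G.cut Z → G.ie H u ∈ Z :=
  ⟨Spl_ie hu.mem.2.2.1, fun _ hZ _ zu _ =>
    (cut_of_sub hZ hu.mem.2.2.1 (cut_sub_tch zu)).2 ▸ Spl_ie zu⟩

theorem Ch_kv {O : Finset E} {C : Rl → Prop} (v : V) (h : G.Pas0 H O a b ∅ (G.Kus H) C) :
    G.Pas0 H O a b ∅ (G.Kv H v) C :=
  h.cov fun _ ⟨Z, z1, z2, _, z4⟩ => Or.inl ⟨_, ⟨Z, z1, z2, z4⟩, Subset.rfl⟩

theorem Ch_z1 : ∀ l s t : ZMod 2, s + t = 1 + l + (1 + l + s + t) := by decide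

theorem Ch_z2 : ∀ x y : ZMod 2, x + y + y = x := by decide

theorem Ch_z3 : ∀ l p : ZMod 2, 1 + l + (1 + l + p) = p := by decide

theorem Ch_any {v : V} {π : ZMod 2} (hv : v ∈ S) (h : ∀ l t, G.Wk S a b c d l t π (G.Kv S v)) :
    G.DP S a b c d := fun l => ⟨1 + l + π, v, hv, by rw [Ch_z3]; exact h _ _⟩

theorem Ch_half (hc : G.Cub) (hT : G.HT T) (hS : S ⊆ T) (hq : G.Q4 S a b c d)
    (h1 : G.Sp S a b H) (h2 : G.Sp S c d H') (hd : Disjoint H H') (hu : G.Q4 H a b u w)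
    (hu' : G.Q4 H' c d u' w') (hM : G.ChM (S \ (H ∪ H')) u' w') (p1 : G.ChP H a b u w)
    (p2 : G.ChP H' c d u' w')
    (h : (∃ s, G.Rc H a b s) → ∃ s, G.Rc H' c d s) : G.DP S a c b d := by
  intro l
  rcases p1.1 with k | ⟨m, k⟩
  · obtain ⟨s', O2, r3, r4⟩ := h k
    obtain ⟨s, O1, r1, r2⟩ := k
    have r := Ch_one hc hT hS hq h1 h2 hd hu hu' hM (Ch_end hu).1 (Ch_end hu).2 (Ch_kv _ r2) r4
      fun _ _ => l2_pp l
    rw [r1, r3, Ch_z1 l s s'] at r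
    exact ⟨_, r⟩
  · obtain ⟨O2, σ, r4⟩ := p2.2
    obtain ⟨O1, v, v1, v2, r1, r2⟩ := k (1 + l + (m + l + σ) + G.par (O2 ∩ G.ins H'))
    have r := Ch_one hc hT hS hq h1 h2 hd hu hu' hM v1 v2 r2 r4 fun _ _ => l2_mt l
    rw [r1, Ch_z2] at r
    exact ⟨_, r⟩

theorem Ch_pair (hc : G.Cub) (hT : G.HT T) (hS : S ⊆ T) (hq : G.Q4 S a b c d)
    (h1 : G.Sp S a b H) (h2 : G.Sp S c d H') (hd : Disjoint H H') (hu : G.Q4 H a b u w)
    (hu' : G.Q4 H' c d u' w') (hM : G.ChM (S \ (H ∪ H')) u' w') (hM' : G.ChM (S \ (H ∪ H')) u w)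
    (p1 : G.ChP H a b u w) (p2 : G.ChP H' c d u' w') : G.DP S a c b d := by
  by_cases k : ∃ s, G.Rc H' c d s
  · exact Ch_half hc hT hS hq h1 h2 hd hu hu' hM p1 p2 fun _ => k
  · exact ChA_dp1 (ChA_dp2 (Ch_half hc hT hS hq.flip h2 h1 hd.symm hu' hu
      (union_comm H H' ▸ hM') p2 p1 fun r => absurd r k))

theorem Ch_m0 : G.ChM ∅ u w := by
  refine ⟨∅, rfl, (abs0_empty (L := G.cut ∅)).cov ?_⟩
  rintro _ (⟨Z, z1, z2, -⟩ | ⟨Z, z1, -⟩)
  · exact absurd (Spl_nonempty z2.1) (by rw [subset_empty.1 z1]; simp)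
  · exact absurd (Spl_nonempty z1.2.1) (by rw [subset_empty.1 z1.1]; simp)

theorem Ch_mb (hc : G.Cub) (hT : G.HT T) (hM : M ⊆ T) (hq : G.Q4 M u' w' u w) (hv : G.Dv M u w)
    (hB : G.Bal (G.ins M)) : G.ChM M u' w' := by
  obtain ⟨X, O, r1, r2⟩ := swp hc hT hM (fun S' hS' =>
    let k := kb hc hT S' (hS'.trans hM); ⟨k.2.2.2.1, k.2.2.2.2.1, k.1⟩) u' w' u w hq hv
  obtain ⟨O', -, o2⟩ := hT.abs_bal (W := M \ X) (sdiff_subset.trans hM)
    (hB.mono (ins_mono sdiff_subset))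
  obtain ⟨k, -⟩ := fina (K0 := G.Kus M ∪ G.Lk M u' w') (r2.monoL (L' := G.cut M) fun e _ he => by
      rcases mem_insert.1 he with rfl | he
      exacts [hq.mem.1, mem_singleton.1 he ▸ hq.mem.2.1]) r1.sub Subset.rfl o2 u
    (fun e he _ => Or.inl he) fun s hs => Or.inl ⟨s, Or.inl (Or.inr (by
      rwa [kus_bal hB, Set.empty_union] at hs)), Subset.rfl⟩
  exact ⟨_, k.1.par_bal hB, k⟩

theorem Ch_mf (hc : G.Cub) (hT : G.HT T) (hM : M ⊆ T) (hn : G.NC M u w) (hF : G.FH M) :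
    G.ChM M u w := by
  obtain ⟨O, o1, o2⟩ := (par_all hc hT M hM).1 ∅ vd_empty 0 (Or.inl hF)
  rw [tg_empty] at o2
  refine ⟨O, o1, o2.cov ?_⟩
  rintro s (k | ⟨Z, z1, -⟩)
  · exact Or.inl ⟨s, k, Subset.rfl⟩
  · exact absurd z1 (hn Z)

/-- a balanced middle part -/
theorem Ch_bal (hc : G.Cub) (hT : G.HT T) (hS : S ⊆ T) (hq : G.Q4 S a b c d)
    (h1 : G.Sp S a b H) (h2 : G.Sp S c d H') (hd : Disjoint H H')
    (hB : G.Bal (G.ins (S \ (H ∪ H')))) (p1 : ∀ u w, G.Q4 H a b u w → G.ChP H a b u w)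
    (p2 : ∀ u w, G.Q4 H' c d u w → G.ChP H' c d u w) : G.DP S a c b d := by
  obtain ⟨-, -, -, -, -, -, -, -, -, -, -, -, u, w, hu, -⟩ := h1.str hc hT hS hq
  obtain ⟨-, -, -, -, -, -, -, -, -, -, -, -, u', w', hu', -⟩ := h2.str hc hT hS hq.flip
  have hM : S \ (H ∪ H') ⊆ T := sdiff_subset.trans hS
  obtain ⟨e, -, k | ⟨-, k1, k2⟩⟩ := Ch_mid hc hT hS hq h1 h2 hd hu hu'
  · have e' : S \ (H ∪ H') = ∅ := by rw [e, ← k, sdiff_self, bot_eq_empty]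
    exact Ch_pair hc hT hS hq h1 h2 hd hu hu' (e' ▸ Ch_m0) (e' ▸ Ch_m0) (p1 u w hu) (p2 u' w' hu')
  · exact Ch_pair hc hT hS hq h1 h2 hd hu hu' (Ch_mb hc hT hM k1 k2 hB)
      (Ch_mb hc hT hM k1.flip (hT.dv_flip hc hM k1 k2) hB) (p1 u w hu) (p2 u' w' hu')

/-- two unbalanced halves with good passes -/
theorem Ch_gg (hc : G.Cub) (hT : G.HT T) (hS : S ⊆ T) (hq : G.Q4 S a b c d) (h1 : G.Sp S a b H)
    (u1 : ¬ G.Bal (G.ins H)) (u2 : ¬ G.Bal (G.ins (S \ H))) (q1 : ¬ G.Qd H a b)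
    (q2 : ¬ G.Qd (S \ H) c d) : G.DP S a c b d := by
  obtain ⟨-, -, -, -, -, -, -, -, -, -, -, -, u, w, hu, hu'⟩ := h1.str hc hT hS hq
  have hH : H ⊆ T := h1.1.trans hS
  have hH' : S \ H ⊆ T := sdiff_subset.trans hS
  have s1 : G.US H := ⟨hu.card, u1⟩
  have s2 : G.US (S \ H) := ⟨hu'.card, u2⟩
  obtain ⟨X, O1, r1, p1⟩ := rpa hc hT H hH s1 a b u w hu q1
  obtain ⟨X', O2, r2, p2⟩ := rpa hc hT _ hH' s2 c d u w hu'.flip q2
  obtain ⟨-, ui, wi, -⟩ := h1.link hc hT hS hq hu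
  have d0 : Disjoint H (S \ H) := disjoint_sdiff
  have e1 : H ∩ (X ∪ X') = X := by
    rw [inter_union_distrib_left, inter_eq_right.2 r1.sub,
      disjoint_iff_inter_eq_empty.1 (d0.mono_right r2.sub), union_empty]
  have e2 : (S \ H) ∩ (X ∪ X') = X' := by
    rw [inter_union_distrib_left, inter_eq_right.2 r2.sub,
      disjoint_iff_inter_eq_empty.1 (d0.symm.mono_right r1.sub), empty_union]
  have hX : X ⊆ S := r1.sub.trans h1.1
  have hX' : X' ⊆ S := r2.sub.trans sdiff_subset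
  have hcut : ∀ B ∈ ({H, S \ H} : Finset (Finset V)), ∀ e ∈ G.cut B,
      e ∈ G.ins S ∨ (e ∈ G.cut S ∧ e ∈ G.tch (X ∪ X')) := by
    have k1 := fun e (he : e ∈ G.cut X) => tch_mono (subset_union_left (s₂ := X')) (cut_sub_tch he)
    have k2 := fun e (he : e ∈ G.cut X') => tch_mono (subset_union_right (s₁ := X)) (cut_sub_tch he)
    simp only [mem_insert, mem_singleton, forall_eq_or_imp, forall_eq, Spl_mem hu, Spl_mem hu']
    exact ⟨⟨Or.inr ⟨hq.mem.1, k1 _ p1.cut.1⟩, Or.inr ⟨hq.mem.2.1, k1 _ p1.cut.2.1⟩, Or.inl ui,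
      Or.inl wi⟩, Or.inl ui, Or.inl wi, Or.inr ⟨hq.mem.2.2.1, k2 _ p2.cut.1⟩,
      Or.inr ⟨hq.mem.2.2.2, k2 _ p2.cut.2.1⟩⟩
  have hB : ∀ B ∈ ({H, S \ H} : Finset (Finset V)), B ⊆ S := by
    simp only [mem_insert, mem_singleton, forall_eq_or_imp, forall_eq]
    exact ⟨h1.1, sdiff_subset⟩
  obtain ⟨Ds, hDs⟩ := finc (Fm := {Z | G.US Z ∧ (Z ⊆ H ∨ Z ⊆ S \ H)}) (J := G.cut S)
    (Bs := {H, S \ H}) (Ds := ∅) (X := X ∪ X') (K := G.Kp H X u w ∪ G.Kp (S \ H) X' u w)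
    hc hT hS (fun _ k => k.1)
    ⟨fun B hb => ⟨by
        rcases mem_insert.1 hb with rfl | hb
        · exact ⟨s1, Or.inl Subset.rfl⟩
        · rw [mem_singleton.1 hb]
          exact ⟨s2, Or.inr Subset.rfl⟩, hB B hb,
        fun e he => mem_union.2 ((hcut B hb e he).imp_right And.left)⟩,
      by
        simp only [PD, mem_insert, mem_singleton, forall_eq_or_imp, forall_eq]
        exact ⟨⟨fun k => absurd rfl k, fun _ => d0⟩, fun _ => d0.symm, fun k => absurd rfl k⟩,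
      fun Z hZ _ _ => hZ.2.elim (fun k => ⟨_, mem_insert_self _ _, k⟩)
        fun k => ⟨_, mem_insert_of_mem (mem_singleton_self _), k⟩⟩ vd_empty
    ⟨union_subset hX hX', by
        simp only [mem_insert, mem_singleton, forall_eq_or_imp, forall_eq, e1, e2]
        exact ⟨Or.inr ⟨a, b, u, w, hu, r1, Set.subset_union_left⟩,
          Or.inr ⟨c, d, u, w, hu'.flip, r2, Set.subset_union_right⟩⟩,
      fun _ k => absurd k (notMem_empty _)⟩
    fun B hb e he => (hcut B hb e he).imp_right And.right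
  obtain ⟨ε, O, -, o2⟩ := (kill hc hT (S \ (X ∪ X')) (sdiff_subset.trans hS)).1 Ds
    (hDs.1.monoJ fun e _ k => absurd k (notMem_empty e))
  refine Ch_any (h1.1 (Ch_end hu).1) fun l t => ch_core hq hX hX'
    (d0.mono r1.sub r2.sub) p1 p2 o2 (Or.inl ⟨rfl, rfl⟩) (fun _ _ => l2_gg _ _) ?_
  rintro _ ⟨Z, z1, z2, z3, rfl⟩
  have z4 : Z ⊆ H ∨ Z ⊆ S \ H := by
    by_contra k
    obtain ⟨-, -, r3, r4, r5⟩ := ch_link hc hT hS hq h1 hu z1 z2 (fun r => k (Or.inl r))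
      fun r => k (Or.inr r)
    exact z3 (mem_inter.1 ((Ch_end hu).2 _ inter_subset_right r3 r4 r5)).1
  rcases hDs.cover hB (union_subset hX hX') Subset.rfl _ (Or.inl ⟨Z, ⟨z2, z4⟩, z1, rfl⟩) with
    ⟨s, k1, k2⟩ | ⟨e, k1, k2, k3, k4, k5⟩
  · refine Or.inl ⟨s, k1.imp_right ?_, k2⟩
    rintro (⟨Y, y1, y2⟩ | k)
    exacts [Or.inl ⟨Y, y1.1, y2⟩, Or.inr k]
  · exact Or.inr ⟨e, k1, (mem_tch_iff.1 k2).resolve_right k5,
      fun r => k3 (ins_mono subset_union_left r), fun r => k3 (ins_mono subset_union_right r), k4⟩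

theorem Ch_touch (hc : G.Cub) (hT : G.HT T) (hH : H ⊆ T) (hu : G.US H) (hq : G.Q4 H a b u w)
    (hd : G.Qd H a b) : ∃ O σ, G.Pas0 H O a b {u} (G.Kus H) (Rl.U σ) := by
  obtain ⟨O, σ, κ, k1, k2, k3⟩ := q_pc hc hT hH hu hq hd
  have m := hq.mem.2.2.1
  have n : u ∉ ({a, b} : Finset E) := by simp [hq.2.2.1.symm, hq.2.2.2.2.1.symm]
  refine ⟨O, σ, hq.2.1, k2, k3.free (g := u) (fun e he => ?_) fr_sub_tch
    (ChA_fr.2 (Or.inr ⟨m, by simp⟩)) (fun k => ?_) (fun k => ?_) fun ψ ψ' _ r1 r2 r3 => ?_⟩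
  · refine ChA_fr.2 ((ChA_fr.1 he).imp_right fun k => ⟨k.1, ?_⟩)
    have := k.2
    simp only [mem_insert, mem_singleton] at this ⊢
    tauto
  · exact (ChA_fr.1 k).elim (not_ins_of_cut m) fun k => n k.2
  · exact n (k2.2.2 ▸ mem_inter.2 ⟨k, m⟩)
  · rw [r2] at r3
    exact RPn_z3 1 κ _ one_ne_zero k1 r1 (by rw [r3])

/-- two diagonal four-cycles around one piece -/
theorem Ch_qq (hc : G.Cub) (hT : G.HT T) (hS : S ⊆ T) (hq : G.Q4 S a b c d)
    (h1 : G.Sp S a b H) (h2 : G.Sp S c d H') (hd : Disjoint H H') (hu : G.Q4 H a b u w)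
    (hu' : G.Q4 H' c d u' w') (s1 : G.US H) (s2 : G.US H') (q1 : G.Qd H a b) (q2 : G.Qd H' c d)
    (hb : ¬ G.Bal (G.ins (S \ (H ∪ H')))) (hn : G.NC (S \ (H ∪ H')) u w)
    (p1 : G.ChP H a b u w) (p2 : G.ChP H' c d u' w') : G.DP S a c b d := by
  have hM : S \ (H ∪ H') ⊆ T := sdiff_subset.trans hS
  obtain ⟨e, -, k | ⟨-, k1, -⟩⟩ := Ch_mid hc hT hS hq h1 h2 hd hu hu'
  · refine absurd ⟨0, fun f hf => ?_⟩ hb
    rw [e, ← k, sdiff_self] at hf
    exact absurd (mem_ins.1 hf).2.1 (notMem_empty _)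
  have hn' : G.NC (S \ (H ∪ H')) u' w' := fun X hX => hn _ (hX.compl k1)
  by_cases hF : G.FH (S \ (H ∪ H'))
  · exact Ch_pair hc hT hS hq h1 h2 hd hu hu' (Ch_mf hc hT hM hn' hF) (Ch_mf hc hT hM hn hF) p1 p2
  obtain ⟨i1, i2, i3, i4, -⟩ := us_iso hc hT hM hF Subset.rfl ⟨k1.card, hb⟩
  have o := (pure_odd (L := ∅) ins_sub_A i1 i2).2.2
  rw [i3] at o
  obtain ⟨O1, σ1, r1⟩ := Ch_touch hc hT (h1.1.trans hS) s1 hu q1
  obtain ⟨O2, σ2, r2⟩ := Ch_touch hc hT (h2.1.trans hS) s2 hu' q2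
  have d1 : Disjoint H (S \ (H ∪ H')) := disjoint_sdiff.mono_left subset_union_left
  have d2 : Disjoint H' (S \ (H ∪ H')) := disjoint_sdiff.mono_left subset_union_right
  have mu := k1.mem.2.2.1
  refine Ch_any (h1.1 (Ch_end hu).1) fun l t => ch_core hq h1.1 h2.1 hd r1 r2 o
    (Or.inr ⟨rfl, fun f hf => ?_, fun f hf => ?_⟩) (fun _ _ => l2_uu _ _) fun s hs => ?_
  · rw [mem_singleton.1 hf]
    exact Run_three d1 hd d2.symm (cut_sub_tch hu.mem.2.2.1) (cut_sub_tch mu)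
  · rw [mem_singleton.1 hf]
    exact Run_three d2 hd.symm d1.symm (cut_sub_tch hu'.mem.2.2.1) (cut_sub_tch k1.mem.1)
  · rcases Ch_cov hc hT hS hq h1 h2 hd hu hu' (Ch_end hu).2 s hs with
      ⟨s', (⟨Z, z1, z2, -, z4⟩ | k) | k | ⟨Z, z1, -⟩, k'⟩ | k
    · exact Or.inl ⟨s', Or.inl (Or.inl ⟨Z, z1, z2, z4⟩), k'⟩
    · exact Or.inl ⟨s', Or.inl (Or.inr k), k'⟩
    · refine Or.inr ⟨u, k' (hT.kus4 hc hM i4 s' k ▸ mu), (h1.link hc hT hS hq hu).2.1,
        not_ins_of_cut hu.mem.2.2.1, fun r => ?_, not_ins_of_cut mu⟩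
      exact not_ins_of_cut (Ab_link hd (cut_sub_tch hu.mem.2.2.1) (ins_sub_tch r)).2 r
    · exact absurd z1 (hn' Z)
    · exact Or.inr k

theorem Ch_left (hc : G.Cub) (hT : G.HT T) (hS : S ⊆ T) (hq : G.Q4 S a b c d)
    (h1 : G.Sp S a b H) (hB : G.Bal (G.ins (S \ H)))
    (p1 : ∀ u w, G.Q4 H a b u w → G.ChP H a b u w) : G.DP S a c b d := by
  have h2 := h1.compl hq
  refine Ch_bal hc hT hS hq h1 h2 disjoint_sdiff
    (hB.mono (ins_mono (sdiff_subset_sdiff Subset.rfl subset_union_left))) p1 fun u w hu => ?_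
  obtain ⟨s, k⟩ := chp_bal hc hT (h2.1.trans hS) hu (h2.str hc hT hS hq.flip).2.2.2.2.2.2.1 hB
  exact ChB_rc k

theorem Ch_main (hc : G.Cub) (hT : G.HT T) (hS : S ⊆ T) (hq : G.Q4 S a b c d)
    (hn : ¬ G.NC S a b) (hI : ∀ N ⊂ S, G.IHd N) : G.DP S a c b d := by
  obtain ⟨X1, m1, k1⟩ := ch_head hc hT hS hq hI
  obtain ⟨X2, m2, k2⟩ := ch_head hc hT hS hq.flip hI
  have ss : ∀ {X : Finset V}, X ⊆ S → S \ (S \ X) = X := fun h => Finset.sdiff_sdiff_eq_self h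
  by_cases hx : ∃ X, G.Sp S a b X ∧ ¬ G.Bal (G.ins X) ∧ ¬ G.Bal (G.ins (S \ X))
  swap
  · rcases k1 with rfl | ⟨k1, k3, k4⟩
    swap
    · exact Ch_left hc hT hS hq k1 (by_contra fun k => hx ⟨X1, k1, k3.2, k⟩) k4
    rcases k2 with rfl | ⟨k2, k3, k4⟩
    swap
    · exact ChA_dp1 (ChA_dp2 (Ch_left hc hT hS hq.flip k2 (by_contra fun k =>
        Spl_ne (k2.compl hq.flip) (Subset.antisymm sdiff_subset (m1 _ (k2.compl hq.flip) k))) k4))
    obtain ⟨X, hX⟩ : ∃ X, G.Sp X2 a b X := by_contra fun k => hn fun X r => k ⟨X, r⟩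
    refine Ch_left hc hT hS hq hX (by_contra fun k =>
      Spl_ne (hX.compl hq) (Subset.antisymm sdiff_subset (m2 _ (hX.compl hq) k))) fun u w hu => ?_
    obtain ⟨s, k⟩ := chp_bal hc hT (hX.1.trans hS) hu (hX.str hc hT hS hq).2.2.2.2.2.2.1
      (by_contra fun k => Spl_ne hX (Subset.antisymm hX.1 (m1 _ hX k)))
    exact ChB_rc k
  obtain ⟨X, x1, x2, x3⟩ := hx
  have l1 := m1 X x1 x2
  have l2 := m2 _ (x1.compl hq) x3
  obtain ⟨a1, a2, a3⟩ := k1.resolve_left fun k => Spl_ne x1 (Subset.antisymm x1.1 (k ▸ l1))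
  obtain ⟨b1, b2, b3⟩ := k2.resolve_left fun k =>
    Spl_ne (x1.compl hq) (Subset.antisymm sdiff_subset (k ▸ l2))
  have hd : Disjoint X1 X2 := disjoint_sdiff.mono l1 l2
  by_cases hB : G.Bal (G.ins (S \ (X1 ∪ X2)))
  · exact Ch_bal hc hT hS hq a1 b1 hd hB a3 b3
  have c1 := hT.us_card hc (a1.1.trans hS) a2
  have c2 := hT.us_card hc (b1.1.trans hS) b2
  have gg : ∀ H, G.Sp S a b H → X1 ⊆ H → X2 ⊆ S \ H → (X1 = H → ¬ G.Qd X1 a b) →
      (X2 = S \ H → ¬ G.Qd X2 c d) → G.DP S a c b d := fun H r1 r2 r3 r4 r5 =>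
    Ch_gg hc hT hS hq r1 (fun k => a2.2 (k.mono (ins_mono r2))) (fun k => b2.2 (k.mono (ins_mono r3)))
      (fun k => by
        have e := eq_of_subset_of_card_le r2 (k.1.le.trans c1)
        exact r4 e (e ▸ k))
      fun k => by
        have e := eq_of_subset_of_card_le r3 (k.1.le.trans c2)
        exact r5 e (e ▸ k)
  obtain ⟨-, -, -, -, -, -, -, -, -, -, -, -, u, w, hu, hu1⟩ := a1.str hc hT hS hq
  obtain ⟨-, -, -, -, -, -, -, -, -, -, -, -, u', w', hu', -⟩ := b1.str hc hT hS hq.flip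
  obtain ⟨e, f1, f2⟩ := Ch_mid hc hT hS hq a1 b1 hd hu hu'
  have ne : X2 ≠ S \ X1 := fun k => hB ⟨0, fun f hf => by
    rw [e, ← k, sdiff_self] at hf
    exact absurd (mem_ins.1 hf).2.1 (notMem_empty _)⟩
  obtain ⟨f3, f4, -⟩ := f2.resolve_left ne
  by_cases q1 : G.Qd X1 a b
  swap
  · exact gg X1 a1 Subset.rfl f3.1 (fun _ => q1) fun k => absurd k ne
  by_cases q2 : G.Qd X2 c d
  swap
  · exact gg _ (b1.compl hq.flip) (subset_sdiff.2 ⟨a1.1, hd⟩) (ss b1.1).ge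
      (fun k => absurd (by rw [k, ss b1.1]) ne) fun _ => q2
  by_cases q3 : G.NC (S \ (X1 ∪ X2)) u w
  · exact Ch_qq hc hT hS hq a1 b1 hd hu hu' a2 b2 q1 q2 hB q3 (a3 u w hu) (b3 u' w' hu')
  obtain ⟨Z, hZ⟩ : ∃ Z, G.Sp (S \ (X1 ∪ X2)) u w Z := by_contra fun k => q3 fun X r => k ⟨X, r⟩
  have g1 := (a1.add hq hu ((e ▸ f3.compl f1).trans hZ)).1
  obtain ⟨v, hv⟩ := Spl_nonempty hZ.2.1
  obtain ⟨v', v1, v2⟩ := exists_of_ssubset (Spl_ss hZ)
  have z := fun x (hx : x ∈ Z) => hZ.1 hx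
  simp only [mem_sdiff, mem_union, not_or] at z v1
  refine gg _ g1 subset_union_left (subset_sdiff.2 ⟨b1.1, disjoint_union_right.2
    ⟨hd.symm, disjoint_right.2 fun x hx => (z x hx).2.2⟩⟩) (fun k => ?_) fun k => ?_
  · exact absurd (k.ge (mem_union_right _ hv)) (z v hv).2.1
  · exact absurd (k.ge (mem_sdiff.2 ⟨v1.1, fun r => (mem_union.1 r).elim v1.2.1 v2⟩)) v1.2.2

/-- double passes of a side that is a chain for a crosswise pair -/
theorem dp_chain (hc : G.Cub) (hT : G.HT T) (hS : S ⊆ T) (hq : G.Q4 S a b c d)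
    (hn : ¬ G.NC S a c ∨ ¬ G.NC S a d) (hI : ∀ N ⊂ S, G.IHd N) : G.DP S a b c d := by
  rcases hn with h | h
  · exact Ch_main hc hT hS hq.mid h hI
  · exact ChA_dp2 (Ch_main hc hT hS hq.swap2.mid h hI)

end SG

end Pool.Agent.Work.MP_8c679b_co
end
end

-- merged part: Pool.Agent.Work.MP_8c679b_co.Key.IH
section
-- merged part: Pool.Agent.Work.MP_8c679b_co.A3.DDefs
section
/-!
The bridge between a three-side, its quotient by a system of boxes, and the frames of the two-line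
theorem.
-/

set_option autoImplicit false

namespace Pool.Agent.Work.MP_8c679b_co

open Finset

variable {V E : Type} [Fintype V] [DecidableEq V] [DecidableEq E]

/-- the terminals of the quotient -/
def SG.tq (G : SG V E) (T : Finset V) : Finset (Finset V) := (G.cut T).image fun e => {G.ie T e}

/-- the sets `xf` carry the packages of all unbalanced sides inside `T` -/
def SG.PkA (G : SG V E) (T : Finset V) (xf : Finset V → E → E → ZMod 2 → Finset V) : Prop :=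
  ∀ N ⊆ T, G.US N → ∀ a b c d, G.Q4 N a b c d → G.Pk N a b c d (xf N a b)

/-- the frame that arises from the three-side `T` by deleting the ends of `e1` and `e2` -/
structure Kf.Top (F : Kf V E) (G : SG V E) (T : Finset V) (e1 e2 : E) : Prop where
  q3 : G.Q3 T e1 e2 F.z
  hY : F.Y = (T.erase (G.ie T e1)).erase (G.ie T e2)
  hf : F.f = false
  one : F.ty = true → G.Q3 {G.ie T e1} (F.p false) (F.p true) e1 ∧
    G.Q3 {G.ie T e2} (F.q false) (F.q true) e2 ∧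
    F.lam false = G.n (F.p false) + G.n (F.p true) ∧ F.lam true = G.n (F.q false) + G.n (F.q true)
  two : F.ty = false → G.Q3 {G.ie T e1} (F.p false) (F.q false) e1 ∧
    G.Q3 {G.ie T e2} (F.p true) (F.q true) e2 ∧ ∀ i, F.lam i = G.n (F.p i) + G.n (F.q i)

/-- the track `i` runs through the nodes `X i` along the edges `R i` (ends included) -/
def Kf.On (F : Kf V E) (M : MP_8c679b_co.Mb V E) (X : Bool → Finset (Finset V)) (R : Bool → Finset E) : Prop :=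
  ∀ i, pv (M.n i) (M.w i) = X i ∧ pv (M.n i + 1) (F.e M i) = R i

/-- the statement of the two-line theorem for all frames inside `T` -/
def SG.ThM (G : SG V E) (T : Finset V) : Prop :=
  ∀ (F : Kf V E) (M : MP_8c679b_co.Mb V E), F.Ok G T → F.IsM G M → F.Cb G M →
    F.WinN G F.nat ∧ (¬ G.Bal (G.ins (F.rest M)) → ∀ g, F.WinN G g)

end Pool.Agent.Work.MP_8c679b_co
end

-- merged part: Pool.Agent.Work.MP_8c679b_co.Key.TY4
section
/-!
Packages.  Let `X0, X1` be the head (`exists_head`), `Y0 = X1 \ X0`.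

`pk_dp`: the tail `N \ X1` is balanced.  `hd_dp`, then `wk_tail` through the tail (or nothing if
`X1 = N`); a side `S` that avoids `v ∈ Y0` lies in `Y0` by `hd_cov`.
`pk_dpn`: `X` is a split (`Rg.sp`).  If it is unbalanced, `X1 ⊆ X`: `hd_dp` and `wk_tail` through
`X \ X1` (`Sp.sub`).  If it is balanced: `bdp` on `X`, `PP.l2`, `v = G.ie X x` lies in every side
(`cross_link`; the rung contains no side, `HT.us_card`).
`lw2_head`: if the tail is a four-cycle use `hd_dp` with `l = s + 1`, `q_real` on the tail and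
`wk_close`; `Rg.add`; targets by `hd_cov`.
`lw2_short`: `BP X0`; if the tail is a four-cycle use `bdp`, `q_real`, `Dq.close`, `PP.cl_p`,
`P.mt` with `v = G.ie X0 x` (`cross_link`).
`pk_sign`: with `Hs`: `hd_real`; tolerance gives `Lw1` by `tl2`; a real pass gives `Lw2` if the
tail is unbalanced and `Gud` on the set of `tl2` otherwise.
`pk_short`: two potentials of the connected set `X0` (`HT.cn4`) differ by a constant;
without `Hs`: `lw2_short`, or `tl2` from `X0` (`kus_bal`).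
`tp_qd`: `dp_plus` on `X1` closed by `BP` of the tail; every side contains `v ∈ X1`
(`hd_cov`, `HT.us_card`).
`pk_ex`: for a four-cycle take `q_real`, `pk_dp`, `pk_dpn` (the tail has at most two vertices).
Else fix the set `Xs` of `tl2` for `X1`; for a sign with `Gud` take its set, for a sign with a local
win take the set of `PS` (`kb`).  For `both`: without local wins some sign has `Hs`, its set is
`Xs`, and `hd_gd` with `tl2`, or `tp_qd`, applies.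
-/

set_option autoImplicit false

namespace Pool.Agent.Work.MP_8c679b_co

open Finset

namespace SG

variable {V E : Type} [Fintype V] [DecidableEq V] [DecidableEq E] {G : SG V E}
  {T N S X X0 X1 : Finset V} {a b c d x y : E} {s : ZMod 2}

theorem pk_sign (hc : G.Cub) (hT : G.HT T) (hN : N ⊆ T) (hq : G.Q4 N a b c d) (hI : G.IHd N)
    (h : G.Hd N a b X0 X1) : ∃ Xs, G.Rg N Xs c d ∧
      ((X0 = ∅ → ¬ G.Qd X1 a b) → ∃ O, G.Pas0 Xs O a b ∅ (G.Kp N Xs c d) Rl.Gd) ∧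
      ∀ s, G.Hs a b X0 X1 s → (G.Gud N a b c d Xs s ∧ G.Bal (G.ins (N \ X1))) ∨
        G.Lw1 N a b c d s ∨ G.Lw2 N a b c d s := by
  obtain ⟨Xs, δ, hr, -, hδ, t1, t2⟩ := tl2 hc hT hN hq h.sp
  refine ⟨Xs, hr, fun hd => ?_, fun s hs => ?_⟩
  · obtain ⟨O, hO⟩ := hd_gd hc hT hN hq h hd
    obtain ⟨O', h1, -⟩ := t1 O _ hO
    exact ⟨O', h1⟩
  rcases hd_real hc hT hN hq hI h hs with hR | hR
  · by_cases hB : G.Bal (G.ins (N \ X1))
    · obtain ⟨O, hp, hO⟩ := hR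
      obtain ⟨O', h1, h2⟩ := t1 O _ hO
      rw [hp, hδ hB, add_zero] at h2
      exact Or.inl ⟨⟨⟨O', h2, h1⟩, pk_dp hc hT hN hq hI h hB,
        fun hX x y hx => pk_dpn hc hT hN hq hI h hB hr hX hx⟩, hB⟩
    · exact Or.inr (Or.inr (lw2_head hc hT hN hq hI h hB hR))
  · refine Or.inr (Or.inl ⟨Xs, hr, fun ε => ?_⟩)
    obtain ⟨O, v, hv, hp, hO⟩ := hR (ε + δ)
    obtain ⟨O', h1, h2⟩ := t2 O _ v hO
    rw [hp, add_assoc, z2_add_self, add_zero] at h2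
    exact ⟨O', v, (h.str hc hT hN hq).2.1 hv, h2, h1⟩

omit [Fintype V] in
theorem TY4_const {H : Finset E} {p q : V → ZMod 2} (hp : ∀ e ∈ H, G.sw p e = 0)
    (hq : ∀ e ∈ H, G.sw q e = 0) {u w : V} (h : G.Rch H u w) : p u + q u = p w + q w := by
  refine Rch.closed (P := fun z => p u + q u = p z + q z) h (fun e he => ?_) rfl
  have h1 := hp e he
  have h2 := hq e he
  unfold sw at h1 h2
  have key : ∀ a b c d n : ZMod 2, n + a + b = 0 → n + c + d = 0 → a + c = b + d := by decide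
  rw [key _ _ _ _ _ h1 h2]

theorem pk_short (hc : G.Cub) (hT : G.HT T) (hN : N ⊆ T) (hq : G.Q4 N a b c d) (hI : G.IHd N)
    (h : G.Hd N a b X0 X1) (hs : ¬ G.Hs a b X0 X1 s) :
    G.Hs a b X0 X1 (s + 1) ∧
      ((∃ X, G.Rg N X c d ∧ G.Gud N a b c d X s) ∨ G.Lw2 N a b c d s) := by
  obtain ⟨hR, hsp, hL⟩ := lw2_short hc hT hN hq h hs
  constructor
  · intro h0 hB q hq'
    by_contra hne
    refine hs fun _ _ p hp => ?_
    have hcn := hT.cn4 hc (hsp.1.trans hN) hsp.2.1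
    have hab := Spl_ab hsp
    have h1 := TY4_const hp hq' (hcn _ (Spl_ie hab.1.1) _ (Spl_ie hab.2.1))
    have key : ∀ s x y u w : ZMod 2, x + u = y + w → ¬ s + 1 = u + w + 1 → s = x + y + 1 := by
      decide
    exact key _ _ _ _ _ h1 hne
  by_cases hB : G.Bal (G.ins (N \ X0))
  · obtain ⟨X, δ, hr, -, hδ, t1, -⟩ := tl2 hc hT hN hq (Or.inr hsp)
    obtain ⟨O, hp, hO⟩ := hR
    obtain ⟨O', h1, h2⟩ := t1 O _ hO
    rw [hp, hδ hB, add_zero] at h2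
    have hB' : G.Bal (G.ins (N \ X1)) :=
      hB.mono (ins_mono (sdiff_subset_sdiff Subset.rfl (h.str hc hT hN hq).1.subset))
    exact Or.inl ⟨X, hr, ⟨O', h2, h1⟩, pk_dp hc hT hN hq hI h hB',
      fun hX x y hx => pk_dpn hc hT hN hq hI h hB' hr hX hx⟩
  · exact Or.inr (hL hB)

theorem tp_qd (hc : G.Cub) (hT : G.HT T) (hN : N ⊆ T) (hq : G.Q4 N a b c d)
    (h : G.Hd N a b ∅ X1) (hd : G.Qd X1 a b) (hX : X1 ≠ N) (hB : G.Bal (G.ins (N \ X1)))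
    (s : ZMod 2) : G.Tp N N a b c d s s := by
  obtain ⟨h01, h1N, u, w, hu, -, -, h2⟩ := h.str hc hT hN hq
  obtain ⟨hq2, hv2⟩ := h2 hX
  have hsp : G.Sp N a b X1 := h.sp.resolve_left hX
  obtain ⟨-, -, -, -, -, -, -, -, ha, hb, -⟩ := hsp.str hc hT hN hq
  obtain ⟨p, hp⟩ := hB
  obtain ⟨O2, p2, P2⟩ := (kb hc hT (N \ X1) (sdiff_subset.trans hN)).1 u w c d hq2 hv2 p hp
  obtain ⟨O1, p1, P1⟩ := dp_plus hc hT (h1N.trans hN) h.us hu hd
    (s + (p (G.ie (N \ X1) u) + p (G.ie (N \ X1) w)) + (G.n u + G.n w))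
  have key : ∀ s x y z : ZMod 2, x + (s + x + (y + z)) + y + z = s ∧
      s + x + (y + z) + x + (y + z) = s := by decide
  obtain ⟨P3, p3⟩ := Dq.close (L := ∅) (D' := Rl.Mt (s + 1)) P1 P2 disjoint_sdiff ha hb
    (fun e he => absurd he (notMem_empty _)) (fun e he => absurd he (notMem_empty _))
    (fun R1 R2 k1 k2 => by
      have := Rf.PP.cl_p (τ := G.n u) (τ' := G.n w) k1 k2
      rw [(key _ _ _ _).1] at this
      exact this.mt)
  rw [union_sdiff_of_subset h1N] at P3 p3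
  rw [p1, p2, (key _ _ _ _).2] at p3
  obtain ⟨v, hv, -⟩ := exists_of_ssubset h01
  refine ⟨_, v, h1N hv, p3, P3.cov ?_⟩
  rintro t ⟨⟨S, hS, hSu, hvS, rfl⟩, -⟩
  exfalso
  rcases hd_cov hc hT hN hq h hS hSu with k | k | k
  · rw [sdiff_empty] at k
    have h4 := hT.us_card hc (hS.trans hN) hSu
    rw [eq_of_subset_of_card_le k (by rw [hd.1]; exact h4)] at hvS
    exact hvS hv
  · rw [sdiff_empty] at k
    exact hvS (k hv)
  · exact hSu.2 (Bal.mono ⟨p, hp⟩ (ins_mono (subset_sdiff.2 ⟨hS, k⟩)))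

theorem pk_ex (hc : G.Cub) (hT : G.HT T) (hN : N ⊆ T) (hu : G.US N) (hq : G.Q4 N a b c d)
    (hI : G.IHd N) : ∃ X, G.Pk N a b c d X := by
  obtain ⟨X0, X1, h⟩ := exists_head hc hT hN hu hq
  have h1N := (h.str hc hT hN hq).2.1
  by_cases h4 : N.card = 4
  · obtain ⟨X, hX, s0, hs0⟩ := q_real hc hT hN hu hq h4
    have h5 : X1 = N :=
      eq_of_subset_of_card_le h1N (by rw [h4]; exact hT.us_card hc (h1N.trans hN) h.us)
    have hB : G.Bal (G.ins (N \ X1)) := ⟨fun _ => 0, fun e he => by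
      rw [h5, sdiff_self, mem_ins] at he
      exact absurd he.2.1 (notMem_empty _)⟩
    refine ⟨X, fun s => (hX s).1, fun s => ⟨s, (hX s).2⟩, fun _ => ⟨fun s => (hX s).2, s0, hs0⟩,
      fun s => Or.inl ⟨(hX s).2, pk_dp hc hT hN hq hI h hB,
        fun k x y hx => pk_dpn hc hT hN hq hI h hB (hX s).1 k hx⟩, fun k1 k2 => ?_⟩
    rcases z2 s0 with rfl | rfl
    · exact absurd hs0 k2
    · exact absurd (k1.trans hs0) k2
  obtain ⟨Xs, hr, hg, hs⟩ := pk_sign hc hT hN hq hI h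
  have key : ∀ s, ∃ X, G.Rg N X c d ∧ (∃ π, G.Qr N X a b c d s π) ∧
      (G.Gud N a b c d X s ∨ G.Lw1 N a b c d s ∨ G.Lw2 N a b c d s) ∧
      (G.Hs a b X0 X1 s → (X = Xs ∧ G.Bal (G.ins (N \ X1))) ∨
        G.Lw1 N a b c d s ∨ G.Lw2 N a b c d s) := by
    intro s
    by_cases hw : G.Lw1 N a b c d s ∨ G.Lw2 N a b c d s
    · obtain ⟨X, O, k1, k2⟩ := (kb hc hT N hN).2.2.2.2.2.2.2 hu a b c d hq s
      exact ⟨X, k1, ⟨_, O, rfl, k2⟩, Or.inr hw, fun _ => Or.inr hw⟩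
    by_cases hH : G.Hs a b X0 X1 s
    · obtain ⟨k1, k2⟩ := (hs s hH).resolve_right hw
      exact ⟨Xs, hr, ⟨s, k1.1⟩, Or.inl k1, fun _ => Or.inl ⟨rfl, k2⟩⟩
    · obtain ⟨X, k1, k2⟩ := (pk_short hc hT hN hq hI h hH).2.resolve_right fun k => hw (Or.inr k)
      exact ⟨X, k1, ⟨s, k2.1⟩, Or.inl k2, fun k => absurd k hH⟩
  choose X k1 k2 k3 k4 using key
  refine ⟨X, k1, k2, fun k => absurd k h4, k3, fun e _ => ?_⟩
  by_cases hw : ∃ s, G.Lw1 N a b c d s ∨ G.Lw2 N a b c d s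
  · exact Or.inr (Or.inr hw)
  obtain ⟨s, hH⟩ : ∃ s, G.Hs a b X0 X1 s := by
    by_cases hH : G.Hs a b X0 X1 0
    · exact ⟨0, hH⟩
    · exact ⟨_, (pk_short hc hT hN hq hI h hH).1⟩
  obtain ⟨e1, hB⟩ := (k4 s hH).resolve_right fun k => hw ⟨s, k⟩
  have e2 : X 0 = Xs := by
    rcases z2 s with rfl | rfl
    · exact e1
    · exact e.trans e1
  by_cases hd : X0 = ∅ → ¬ G.Qd X1 a b
  · rw [e2]
    exact Or.inl (hg hd)
  · rw [Classical.not_imp, not_not] at hd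
    obtain ⟨rfl, hd⟩ := hd
    exact Or.inr (Or.inl (tp_qd hc hT hN hq h hd (fun k => h4 (k ▸ hd.1)) hB))

theorem TY4_qr {π : ZMod 2} (h : G.Qr N X a b c d s π) : G.Qr N X a b d c s π := by
  obtain ⟨O, h1, h2⟩ := h
  rw [(kp_swap (v := G.s a)).1] at h2
  exact ⟨O, h1, h2⟩

theorem TY4_tp {π : ZMod 2} (h : G.Tp N X a b c d s π) : G.Tp N X a b d c s π := by
  obtain ⟨O, v, hv, h1, h2⟩ := h
  rw [kp_swap.2] at h2
  exact ⟨O, v, hv, h1, h2⟩

theorem TY4_lw (h : G.Lw1 N a b c d s ∨ G.Lw2 N a b c d s) :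
    G.Lw1 N a b d c s ∨ G.Lw2 N a b d c s := by
  rcases h with ⟨X, h1, h2⟩ | ⟨X, h1, h2, h3, h4⟩
  · exact Or.inl ⟨X, h1.swap, fun ε => TY4_tp (h2 ε)⟩
  · refine Or.inr ⟨X, h1, h2, h3, fun k => ?_⟩
    obtain ⟨X', k1, k2, k3⟩ := h4 k
    exact ⟨X', k1.swap, k2, TY4_tp k3⟩

theorem Pk.swap {X : ZMod 2 → Finset V} (h : G.Pk N a b c d X) : G.Pk N a b d c X := by
  refine ⟨fun s => (h.rg s).swap, fun s => (h.qr s).imp fun _ => TY4_qr,
    fun k => ⟨fun s => TY4_qr ((h.four k).1 s), (h.four k).2⟩,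
    fun s => (h.alt s).imp (fun k => ⟨TY4_qr k.1, k.2.1.swap2, k.2.2⟩) TY4_lw, fun k1 k2 => ?_⟩
  rcases h.both k1 k2 with ⟨O, k⟩ | k | ⟨s, k⟩
  · rw [(kp_swap (v := G.s a)).1] at k
    exact Or.inl ⟨O, k⟩
  · exact Or.inr (Or.inl fun s => TY4_tp (k s))
  · exact Or.inr (Or.inr ⟨s, TY4_lw k⟩)

theorem xf_ex (hc : G.Cub) (hT : G.HT T) : ∃ xf : Finset V → E → E → ZMod 2 → Finset V,
    ∀ N ⊆ T, G.US N → G.IHd N → ∀ a b c d, G.Q4 N a b c d → G.Pk N a b c d (xf N a b) := by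
  have key : ∀ (N : Finset V) (a b : E), ∃ X, N ⊆ T → G.US N → G.IHd N →
      ∀ c d, G.Q4 N a b c d → G.Pk N a b c d X := by
    intro N a b
    by_cases h : ∃ c d, N ⊆ T ∧ G.US N ∧ G.IHd N ∧ G.Q4 N a b c d
    · obtain ⟨c, d, hN, hu, hI, hq⟩ := h
      obtain ⟨X, hX⟩ := pk_ex hc hT hN hu hq hI
      refine ⟨X, fun _ _ _ c' d' hq' => ?_⟩
      rcases hq.uniq hq' with ⟨rfl, rfl⟩ | ⟨rfl, rfl⟩
      · exact hX
      · exact hX.swap
    · exact ⟨fun _ => N, fun hN hu hI c d hq => absurd ⟨c, d, hN, hu, hI, hq⟩ h⟩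
  choose xf hxf using key
  exact ⟨xf, fun N hN hu hI a b c d hq => hxf N a b hN hu hI c d hq⟩

end SG

end Pool.Agent.Work.MP_8c679b_co
end

-- merged part: Pool.Agent.Work.MP_8c679b_co.A3.B1
section
/-!
The types of a box: complete passes of both signs, two balanced halves, or a local win.
-/

set_option autoImplicit false

namespace Pool.Agent.Work.MP_8c679b_co

open Finset

namespace SG

variable {V E : Type} [Fintype V] [DecidableEq V] [DecidableEq E] (G : SG V E)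

/-- complete passes of both signs; for each sign a real one or both parities -/
def BNu (B : Finset V) (a b : E) : Prop :=
  (∀ s, ∃ O, G.Pas0 B O a b ∅ (G.Kus B) (Rl.P s)) ∧ G.ER B a b

/-- an odd absorption with four dead edges and a complete real pass -/
def BTh (B : Finset V) (a b : E) : Prop :=
  (∃ O, G.par O = 1 ∧ G.Abs0 B O ∅ (G.Kus B)) ∧ ∃ s, G.Rc B a b s

/-- the weak form: some complete pass; some real one or both parities for all signs -/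
def BCt (B : Finset V) (a b : E) : Prop :=
  (∃ s O, G.Pas0 B O a b ∅ (G.Kus B) (Rl.P s)) ∧ ((∃ s, G.Rc B a b s) ∨ ∀ s ε, ∃ O, ∃ v ∈ B,
    G.par (O ∩ G.ins B) = ε ∧ G.Pas0 B O a b ∅ (G.Kv B v) (Rl.Mt (s + 1)))

/-- an adjuster: permutations of both parities on one set -/
def BAj (B : Finset V) (a b c d : E) : Prop :=
  ∃ X, G.Rg B X c d ∧ ∀ ε, ∃ σ, G.Qr B X a b c d σ ε

variable {G} {T B Y Z : Finset V} {a b c d x y : E} {s : ZMod 2}

theorem BNu.ct (h : G.BNu B a b) : G.BCt B a b := by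
  refine ⟨⟨0, h.1 0⟩, ?_⟩
  by_cases k : ∃ s, G.Rc B a b s
  · exact Or.inl k
  · exact Or.inr fun s => (h.2 s).resolve_left fun r => k ⟨s, r⟩

theorem BTh.ct (h : G.BTh B a b) : G.BCt B a b :=
  ⟨h.2.imp fun _ k => k.imp fun _ r => r.2, Or.inl h.2⟩

/-- a pair for which the box is not a chain -/
theorem bx_nc (hc : G.Cub) (hT : G.HT T) (hB : B ⊆ T) (hu : G.US B) (hq : G.Q4 B a b c d)
    (hI : G.IHd B) (hn : G.NC B a b) : G.BNu B a b :=
  ⟨(kb hc hT B hB).2.2.2.2.1 hu a b c d hq hn, (hI B Subset.rfl hu a b c d hq hn).1⟩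

theorem bx_flip (hq : G.Q4 B a b c d) (hn : G.NC B a b) : G.NC B c d :=
  fun _ k => hn _ (k.compl hq.flip)

theorem bx_hd {p : V → ZMod 2} {Om : Finset E} {K : Set (Finset E)} (hc : G.Cub) (hT : G.HT T)
    (hB : B ⊆ T) (hq : G.Q4 B a b c d) (hs : G.Sp B a b Y) (hx : G.Q4 Y a b x y)
    (hp : ∀ e ∈ G.ins Y, G.sw p e = 0) (hm : G.Pas0 (B \ Y) Om x y ∅ K (Rl.Mt s)) :
    ∃ O, G.par (O ∩ G.ins B) = p (G.ie Y a) + p (G.ie Y b) + (p (G.ie Y x) + p (G.ie Y y)) +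
      (G.n x + G.n y) + G.par (Om ∩ G.ins (B \ Y)) ∧ G.Pas0 B O a b ∅ K (Rl.Mt (p (G.ie Y a) +
        p (G.ie Y b) + (p (G.ie Y x) + p (G.ie Y y)) + (G.n x + G.n y) + s)) := by
  obtain ⟨hss, -, -, -, -, -, hv, -⟩ := hs.str hc hT hB hq
  obtain ⟨U1, U2, P1, P2, x', y', g, hxy, u1, u2, dj, p1, p2, -⟩ :=
    link_chord hc hT (hss.subset.trans hB) hx hv
  rcases hxy with ⟨rfl, rfl⟩ | ⟨rfl, rfl⟩
  · exact ChB_hd hc hT hB hq hs hx hp hm u1 u2 dj p1 p2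
  · rw [add_comm (p (G.ie Y y')), add_comm (G.n y')]
    exact ChB_hd hc hT hB hq hs hx.swap2 hp (hm.symm fun _ h => ChB_swap h) u1 u2 dj p1 p2

/-- the sides of a box whose last piece is `B \ Y` -/
theorem bx_side (hc : G.Cub) (hT : G.HT T) (hB : B ⊆ T) (hq : G.Q4 B a b c d) (hs : G.Sp B a b Y)
    (hx : G.Q4 Y a b x y) (hn : G.NC (B \ Y) x y) (hZ : Z ⊆ B) (hu : G.US Z) :
    Z ⊆ Y ∨ Z ⊆ B \ Y ∨ (c ∈ G.cut Z ∧ d ∈ G.cut Z ∧ B \ Y ⊆ Z) := by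
  rcases hs.f6 hc hT hB hq hZ hu with k | k | k | ⟨X', k5, k6, -⟩
  · exact Or.inl k
  · exact Or.inr (Or.inl k)
  · exact Or.inr (Or.inr ⟨k.1, k.2, ch_last hT hB sdiff_subset (hs.link hc hT hB hq hx).1 hn
      hq.mem.2.2.1 hq.mem.2.2.2 hZ hu.1 k.1 k.2⟩)
  · exact absurd (hs.sub hc hT hB hq hx k5 k6).1 (hn _)

/-- a balanced part followed by one unbalanced piece -/
theorem bx_nu (hc : G.Cub) (hT : G.HT T) (hB : B ⊆ T) (hq : G.Q4 B a b c d) (hs : G.Sp B a b Y)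
    (hx : G.Q4 Y a b x y) (hb : G.Bal (G.ins Y)) (hn : G.NC (B \ Y) x y)
    (h : G.BNu (B \ Y) x y) : G.BNu B a b := by
  obtain ⟨p, hp⟩ := id hb
  have hd := hdp hc hT hB hq.card a b Y x y hs hx p hp
  have hκ := fun s O K => bx_hd (s := s) (Om := O) (K := K) hc hT hB hq hs hx hp
  generalize p (G.ie Y a) + p (G.ie Y b) + (p (G.ie Y x) + p (G.ie Y y)) + (G.n x + G.n y) = μ
    at hd hκ
  have z : ∀ m s : ZMod 2, m + (m + s) = s := by decide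
  refine ⟨fun s => ?_, fun s => ?_⟩
  · obtain ⟨O, k⟩ := h.1 (μ + s)
    obtain ⟨O', -, k2, -⟩ := hd O _ _ k
    exact ⟨O', z μ s ▸ PFp_cov1 hc hT hB hq hs hx hb hn (k2 _ fun _ k => k)⟩
  rcases h.2 (μ + s) with ⟨O, h1, h2⟩ | r
  · obtain ⟨O', k1, k2, -⟩ := hd O _ _ h2
    exact Or.inl ⟨O', by rw [k1, h1, z],
      z μ s ▸ PFp_cov1 hc hT hB hq hs hx hb hn (k2 _ fun _ k => k)⟩
  refine Or.inr fun ε => ?_
  obtain ⟨O, v, v1, k1, k2⟩ := r (μ + ε)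
  obtain ⟨O', k3, k4⟩ := hκ _ O _ k2
  rw [add_assoc, z] at k4
  refine ⟨O', v, (mem_sdiff.1 v1).1, by rw [k3, k1, z], PFp_cov hq k4 ?_⟩
  rintro _ ⟨Z, z1, z2, z3, rfl⟩
  rcases bx_side hc hT hB hq hs hx hn z1 z2 with k | k | k
  · exact absurd (hb.mono (ins_mono k)) z2.2
  · exact Or.inl ⟨_, ⟨Z, k, z2, z3, rfl⟩, Subset.rfl⟩
  · exact Or.inr k.1

/-- two balanced parts -/
theorem bx_th (hc : G.Cub) (hT : G.HT T) (hB : B ⊆ T) (hu : G.US B) (hq : G.Q4 B a b c d)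
    (hs : G.Sp B a b Y) (hx : G.Q4 Y a b x y) (hb : G.Bal (G.ins Y)) (hn : G.NC (B \ Y) x y)
    (hb' : G.Bal (G.ins (B \ Y))) : G.BTh B a b := by
  obtain ⟨p, hp⟩ := id hb
  obtain ⟨q, hq'⟩ := id hb'
  obtain ⟨hz, -, -, v1, v2, -, hxy⟩ := hs.link hc hT hB hq hx
  obtain ⟨O2, k3, k4⟩ := bp hc hT (sdiff_subset.trans hB) x y c d hz v2 q hq'
  constructor
  · obtain ⟨O1, k1, k2⟩ := bp hc hT (hs.1.trans hB) x y a b hx.flip v1 p hp
    have k5 := sgn hs.1 hxy hu.2 hp hq'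
    obtain ⟨r1, r2⟩ := close_two (Y := B) k2 (k4.symm fun _ k => k.swap) disjoint_sdiff
      (empty_subset _) hs.1 sdiff_subset fun R1 R2 h1 h2 => by
        have := Rl.cl_odd (τ := fun i => if i = 0 then G.n x else G.n y) (n := 1)
          (Rs := fun i => if i = 0 then R1 else R2) (s := fun i => if i = 0 then _ else _)
          (fun i _ => by split_ifs; exacts [h1, h2]) (by
            simp only [sum_range_succ, range_zero, sum_empty, if_true, one_ne_zero, if_false]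
            linear_combination k5)
        obtain ⟨u, w, ⟨r, r1, r2⟩, r3⟩ := this
        exact ⟨u, r, w, r1, r2, r3⟩
    rw [union_sdiff_of_subset hs.1] at r1
    refine ⟨_, by rw [r2, k1, k3]; linear_combination k5, r1.cov ?_⟩
    rintro _ ⟨Z, z1, z2, rfl⟩
    rcases bx_side hc hT hB hq hs hx hn z1 z2 with k | k | k
    · exact absurd (hb.mono (ins_mono k)) z2.2
    · exact absurd (hb'.mono (ins_mono k)) z2.2
    · exact Or.inr ⟨c, k.1, cut_sub_tch hq.mem.2.2.1, r1.not_mem (not_ins_of_cut hq.mem.2.2.1)⟩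
  · obtain ⟨O', r1, r2, -⟩ := hdp hc hT hB hq.card a b Y x y hs hx p hp O2 _ _ k4
    exact ⟨_, O', k3 ▸ r1, PFp_cov1 hc hT hB hq hs hx hb hn
      ((kus_bal hb').symm ▸ r2 _ fun _ k => k)⟩

/-- a real pass of the first piece with an unbalanced tail -/
theorem bx_lw2 (hc : G.Cub) (hT : G.HT T) (hB : B ⊆ T) (hq : G.Q4 B a b c d) (hs : G.Sp B a b Z)
    (hn : G.NC Z a b) (hb : ¬ G.Bal (G.ins (B \ Z))) (hr : G.Rc Z a b s)
    (hD : ∀ x y, G.Q4 Z a b x y → G.DP Z a b x y) : G.Lw2 B a b c d s := by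
  refine ⟨Z, hs, hb, hr, fun h4 => ?_⟩
  obtain ⟨-, -, -, -, -, -, -, -, ha, hb', -, -, x, y, hx, hy⟩ := hs.str hc hT hB hq
  have hY : B \ Z ⊆ T := sdiff_subset.trans hB
  obtain ⟨t, v, v1, hw⟩ := hD x y hx (s + 1)
  obtain ⟨X, hX, -⟩ := q_real hc hT hY ⟨hy.card, hb⟩ hy h4
  obtain ⟨r1, O2, r2, r3⟩ := hX (t + G.n x + G.n y)
  generalize X (t + G.n x + G.n y) = X' at r1 r2 r3
  have dj : Disjoint Z X' := disjoint_sdiff.mono_right r1.sub
  obtain ⟨O, k1, k2⟩ := wk_close hw r3 r2 dj (fun k => ha (tch_mono r1.sub k))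
    fun k => hb' (tch_mono r1.sub k)
  have m := ie_mem (cut_sub_tch r3.cut.1)
  refine ⟨Z ∪ X', Rg.add hc hT hB hq hs r1, ⟨subset_union_left, fun k =>
    disjoint_left.1 dj (k (mem_union_right _ m)) m⟩, O, v, hs.1 v1, k1, k2.cov ?_⟩
  rintro _ ⟨⟨S, s1, s2, s3, rfl⟩, s4⟩
  have e : B \ (B \ Z) = Z := Finset.sdiff_sdiff_eq_self hs.1
  have hs' := hs.compl hq
  rcases bx_side hc hT hB hq.flip hs' hy.flip (e.symm ▸ bx_flip hx hn) s1 s2 with k | k | k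
  · refine Or.inl ⟨_, Or.inr ⟨⟨S, k, s2, rfl⟩, s4.imp_left fun r => ?_⟩, Subset.rfl⟩
    rw [← r, union_sdiff_cancel_left dj]
  · exact Or.inl ⟨_, Or.inl ⟨S, e ▸ k, s2, s3, rfl⟩, Subset.rfl⟩
  · exact absurd (k.2.2 (e.symm ▸ v1)) s3

theorem bx_dp (hc : G.Cub) (hT : G.HT T) (hZ : Z ⊆ T) (hq : G.Q4 Z a b x y) (hv : G.Dv Z a b)
    (hb : G.Bal (G.ins Z)) : G.DP Z a b x y := fun l => by
  obtain ⟨p, hp⟩ := id hb
  obtain ⟨O, k1, k2⟩ := bdp hc hT hZ hq hv hp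
  have z : ∀ l m : ZMod 2, m = 1 + l + (1 + l + m) := by decide
  refine ⟨1 + l + _, _, ie_mem (cut_sub_tch hq.mem.1), O, k1.trans (z l _),
    (k2.imp fun _ k => k.l2 (z l _)).cov fun t ht => ?_⟩
  exact absurd (kus_bal hb ▸ kv_sub ht : t ∈ (∅ : Set (Finset E))) id

/-- both signs from an unbalanced first piece -/
theorem bx_aj (hc : G.Cub) (hT : G.HT T) (hB : B ⊆ T) (hq : G.Q4 B a b c d)
    (hZ : Z = B ∨ G.Sp B a b Z) (hE : G.ER Z a b) :
    ((∀ s, G.Rc Z a b s) ∧ G.BAj B a b c d) ∨ ∃ s, G.Lw1 B a b c d s := by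
  obtain ⟨X, δ, r1, -, -, r2, r3⟩ := tl2 hc hT hB hq hZ
  have z : ∀ e d : ZMod 2, e + d + d = e := by decide
  by_cases k : ∀ s, G.Rc Z a b s
  · refine Or.inl ⟨k, X, r1, fun ε => ⟨ε + δ, ?_⟩⟩
    obtain ⟨O, k1, k2⟩ := k (ε + δ)
    obtain ⟨O', k3, k4⟩ := r2 O _ k2
    exact ⟨O', by rw [k4, k1, z], k3⟩
  · obtain ⟨s, k⟩ := not_forall.1 k
    refine Or.inr ⟨s, X, r1, fun ε => ?_⟩
    obtain ⟨O, v, v1, k1, k2⟩ := (hE s).resolve_left k (ε + δ)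
    obtain ⟨O', k3, k4⟩ := r3 O _ v k2
    exact ⟨O', v, hZ.elim (fun r => r ▸ v1) fun r => r.1 v1, by rw [k4, k1, z], k3⟩

/-- the types of a box, seen from the pair `c, d` -/
theorem box_loc (hc : G.Cub) (hT : G.HT T) (hB : B ⊆ T) (hu : G.US B) (hq : G.Q4 B a b c d)
    (hI : G.IHd B) : (G.BNu B a b ∧ G.BAj B c d a b) ∨ G.BTh B a b ∨
      ∃ s, G.Lw1 B c d a b s ∨ G.Lw2 B c d a b s := by
  obtain ⟨Z, hZ, hn, -⟩ := exists_piece hc hT hB hq.flip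
  have lw : (∃ s, G.Lw1 B c d a b s) → ∃ s, G.Lw1 B c d a b s ∨ G.Lw2 B c d a b s :=
    fun k => k.imp fun _ => Or.inl
  rcases id hZ with rfl | hs
  · exact (bx_aj hc hT hB hq.flip hZ (hI Z Subset.rfl hu c d a b hq.flip hn).1).imp
      (fun k => ⟨bx_nc hc hT hB hu hq hI (bx_flip hq.flip hn), k.2⟩) fun k => Or.inr (lw k)
  obtain ⟨-, -, -, -, -, -, hv, -, -, -, -, -, x, y, hx, hy⟩ := hs.str hc hT hB hq.flip
  have hZT : Z ⊆ T := hs.1.trans hB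
  have e : B \ (B \ Z) = Z := Finset.sdiff_sdiff_eq_self hs.1
  have hs' := hs.compl hq.flip
  have hn' : G.NC (B \ (B \ Z)) x y := e.symm ▸ bx_flip hx hn
  by_cases b1 : G.Bal (G.ins Z)
  · by_cases b2 : G.Bal (G.ins (B \ Z))
    · exact Or.inr (Or.inl (bx_th hc hT hB hu hq hs' hy.flip b2 hn' (e.symm ▸ b1)))
    · obtain ⟨s, k⟩ := chp_bal hc hT hZT hx hv b1
      exact Or.inr (Or.inr ⟨s, Or.inr (bx_lw2 hc hT hB hq.flip hs hn b2 k fun x y k =>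
        bx_dp hc hT hZT k hv b1)⟩)
  have u1 : G.US Z := ⟨hx.card, b1⟩
  rcases bx_aj hc hT hB hq.flip hZ (hI Z hs.1 u1 c d x y hx hn).1 with k | k
  · by_cases b2 : G.Bal (G.ins (B \ Z))
    · refine Or.inl ⟨bx_nu hc hT hB hq hs' hy.flip b2 hn' ?_, k.2⟩
      rw [e]
      exact bx_nc hc hT hZT u1 hx.flip (fun S k => hI S (k.trans hs.1)) (bx_flip hx hn)
    · exact Or.inr (Or.inr ⟨0, Or.inr (bx_lw2 hc hT hB hq.flip hs hn b2 (k.1 0) fun x y k =>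
        (hI Z hs.1 u1 c d x y k hn).2)⟩)
  · exact Or.inr (Or.inr (lw k))

/-- a four-cycle with a diagonal pair is an adjuster -/
theorem bx_qd (hc : G.Cub) (hT : G.HT T) (hB : B ⊆ T) (hu : G.US B) (hq : G.Q4 B a b c d)
    (hd : G.Qd B a b) : (∀ s, G.Rc B a b s) ∧ G.BAj B a b c d := by
  obtain ⟨X, hX, -⟩ := q_real hc hT hB hu hq hd.1
  have k : ∀ s, G.Qr B B a b c d s s := fun s =>
    (hX s).1.eq_of_nc hc hT hB hu hq (hd.nc hc hT hB hq) ▸ (hX s).2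
  exact ⟨fun s => (k s).imp fun _ r => ⟨r.1, r.2.cov fun t ht =>
    Or.inl ⟨t, ⟨ht, Or.inl rfl⟩, Subset.rfl⟩⟩, B, Or.inl rfl, fun ε => ⟨ε, k ε⟩⟩

/-- every pair of a four-cycle has a complete real pass -/
theorem bx_four (hc : G.Cub) (hT : G.HT T) (hB : B ⊆ T) (hu : G.US B) (hq : G.Q4 B a b c d)
    (h4 : B.card = 4) : (∃ s, G.Rc B a b s) ∧ G.BCt B a b := by
  obtain ⟨X, hX, s, hs⟩ := q_real hc hT hB hu hq h4
  obtain ⟨O, k1, k2⟩ : G.Qr B B a b c d s s := hs ▸ (hX s).2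
  have k : G.Rc B a b s := ⟨O, k1, k2.cov fun t ht => Or.inl ⟨t, ⟨ht, Or.inl rfl⟩, Subset.rfl⟩⟩
  exact ⟨⟨s, k⟩, ⟨s, k.imp fun _ r => r.2⟩, Or.inl ⟨s, k⟩⟩

end SG

end Pool.Agent.Work.MP_8c679b_co
end

-- merged part: Pool.Agent.Work.MP_8c679b_co.A3.EDefs
section
/-!
Definitions for the closing layer of the even case.  A region `Y` of the three-side `T` is solved
with its edges inside `T` live; the part of `T` outside `Y` is solved afterwards.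
-/

set_option autoImplicit false

namespace Pool.Agent.Work.MP_8c679b_co

open Finset

namespace SG

variable {V E : Type} [Fintype V] [DecidableEq V] [DecidableEq E] (G : SG V E)

/-- the standing hypotheses -/
structure Eh (T : Finset V) (Bs : Finset (Finset V)) (v0 : V) : Prop where
  hc : G.Cub
  hT : G.T3 T
  hy : G.Sy T Bs v0

/-- regions that do not cut a box -/
def Rgn (T : Finset V) (Bs : Finset (Finset V)) (Y : Finset V) : Prop :=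
  Y ⊆ T ∧ ∀ B ∈ Bs, B ⊆ Y ∨ Disjoint B Y

/-- the cuts of the unbalanced sides that lie in a box inside `Y` and avoid `v` -/
def Kb (Bs : Finset (Finset V)) (Y : Finset V) (v : V) : Set (Finset E) :=
  {t | ∃ B ∈ Bs, B ⊆ Y ∧ t ∈ G.Kv B v}

/-- the cuts of the unbalanced sides that lie in a box inside `Y` -/
def Kz (Bs : Finset (Finset V)) (Y : Finset V) : Set (Finset E) :=
  {t | ∃ B ∈ Bs, B ⊆ Y ∧ t ∈ G.Kus B}

/-- `Y` is absorbed with live edges `L`, parity `ε` and tolerance one vertex -/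
def Ea1 (Bs : Finset (Finset V)) (Y : Finset V) (L : Finset E) (ε : ZMod 2) : Prop :=
  ∃ O v, G.par O = ε ∧ G.Abs0 Y O L (G.Kb Bs Y v)

/-- the same without tolerance -/
def Ea0 (Bs : Finset (Finset V)) (Y : Finset V) (L : Finset E) (ε : ZMod 2) : Prop :=
  ∃ O, G.par O = ε ∧ G.Abs0 Y O L (G.Kz Bs Y)

/-- parity one with tolerance, and some parity without tolerance -/
def Eb (Bs : Finset (Finset V)) (Y : Finset V) (L : Finset E) : Prop :=
  G.Ea1 Bs Y L 1 ∧ ∃ ε, G.Ea0 Bs Y L ε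

/-! ### local packages; `fr` says that a part of the node may be left over -/

/-- a pass of sign `s` without tolerance -/
def Lz (N : Finset V) (a b c d : E) (s : ZMod 2) (fr : Prop) : Prop :=
  ∃ X π, G.Rg N X c d ∧ (fr ∨ X = N) ∧ G.Qr N X a b c d s π

/-- a real pass, with double passes if a rung is left over -/
def Lre (N : Finset V) (a b c d : E) (s : ZMod 2) (fr : Prop) : Prop :=
  ∃ X, G.Rg N X c d ∧ (fr ∨ X = N) ∧ G.Qr N X a b c d s s ∧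
    (X ≠ N → ∀ x y, G.Q4 X a b x y → G.DPn N X a b x y)

/-- a local win -/
def Lwn (N : Finset V) (a b c d : E) (s : ZMod 2) (fr : Prop) : Prop :=
  (∃ X, G.Rg N X c d ∧ (fr ∨ X = N) ∧ ∀ ε, G.Tp N X a b c d s ε) ∨ (fr ∧ G.Lw2 N a b c d s)

/-- the package of a node for the sign `s` -/
def Lp (N : Finset V) (a b c d : E) (s : ZMod 2) (fr : Prop) : Prop :=
  G.Lz N a b c d s fr ∧ (G.Lre N a b c d s fr ∨ G.Lwn N a b c d s fr)

/-- the statement of the box lemma -/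
def BoxH (T : Finset V) (Bs : Finset (Finset V)) : Prop :=
  ∀ B ∈ Bs, ∀ a b c d, G.Q4 B a b c d → (G.quo T Bs).Mb Bs (G.tq T) B c d →
    (G.BNu B a b ∧ G.BAj B c d a b) ∨ G.BTh B a b

/-- a context for the box `N` in the region `Y`: the set `X` is passed from `a` to `b` without
tolerance -/
structure Ecx (T : Finset V) (Bs : Finset (Finset V)) (Y N : Finset V) (a b c d : E)
    (X : Finset V) (O : Finset E) (K : Set (Finset E)) (C : Rl → Prop) : Prop where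
  rg : Rgn T Bs Y
  mem : N ∈ Bs
  sub : N ⊆ Y
  q4 : G.Q4 N a b c d
  hX : X ⊆ Y
  dj : Disjoint X N
  pas : G.Pas0 X O a b ∅ K C
  bk : ∀ B ∈ Bs, B ≠ N → ∀ v, G.BK1 B X K v

/-- the terminals off `H` are not joined off `M` and off the edges `F` -/
def Gof (Tm H M : Finset V) (F : Finset E) : Prop :=
  ∀ t ∈ Tm, ∀ t' ∈ Tm, t ∉ H → t' ∉ H → G.Rch (G.avo (G.A \ F) M) t t' → t = t'

end SG

end Pool.Agent.Work.MP_8c679b_co
end

-- merged part: Pool.Agent.Work.MP_8c679b_co.A3.ZD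
section
/-!
The statement about one box that is used for the isolated box seeds.
-/

set_option autoImplicit false

namespace Pool.Agent.Work.MP_8c679b_co

open Finset

namespace SG

variable {V E : Type} [Fintype V] [DecidableEq V] [DecidableEq E] (G : SG V E)

/-- a complete pass from `x` to `y` of sign `s` and of the other parity, tolerance one vertex -/
def Pw0 (B : Finset V) (x y : E) (s : ZMod 2) : Prop := ∃ c d, G.Tp B B x y c d s (s + 1)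

/-- no such pass and no local win for the pair `x, y` -/
def NoP (B : Finset V) (x y : E) : Prop :=
  ∀ s, ¬ G.Pw0 B x y s ∧ ∀ c d, G.Q4 B x y c d → ¬ (G.Lw1 B x y c d s ∨ G.Lw2 B x y c d s)

/-- a box without such passes for the three pairs of a triangle is a seed -/
def CoreH (_T : Finset V) (Bs : Finset (Finset V)) : Prop :=
  ∀ B ∈ Bs, ∀ a b c d, G.Q4 B a b c d → G.NoP B a b → G.NoP B a c → G.NoP B b c → G.Eb Bs B ∅

variable {G}

theorem Pw0.tp {B : Finset V} {x y : E} {s : ZMod 2} (h : G.Pw0 B x y s) (c d : E) :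
    G.Tp B B x y c d s (s + 1) := by
  obtain ⟨c', d', O, v, h1, h2, h3⟩ := h
  refine ⟨O, v, h1, h2, ?_⟩
  have k : G.Kpv B B c d v = G.Kpv B B c' d' v := by
    ext t
    simp [Kpv]
  rwa [k]

end SG

end Pool.Agent.Work.MP_8c679b_co
end

-- merged part: Pool.Agent.Work.MP_8c679b_co.Key.IH
section
/-!
The induction: the two-line theorem gives complete passes and double passes of all unbalanced
sides that are not chains.
-/

set_option autoImplicit false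

namespace Pool.Agent.Work.MP_8c679b_co

open Finset

namespace SG

variable {V E : Type} [Fintype V] [DecidableEq V] [DecidableEq E] {G : SG V E}
  {T S : Finset V} {a b c d : E} {Bs : Finset (Finset V)} {n : ℕ} {w : ℕ → Finset V} {g : ℕ → E}
  {xf : Finset V → E → E → ZMod 2 → Finset V}

/-- double passes of a side without any split -/
theorem IH_dp (hc : G.Cub) (hT : G.HT T) (hM : G.ThM T) (hS : S ⊆ T) (hu : G.US S)
    (hq : G.Q4 S a b c d) (h1 : G.NC S a b) (h2 : G.NC S a c) (h3 : G.NC S a d)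
    (hx : ∀ N ⊂ S, G.US N → ∀ a b c d, G.Q4 N a b c d → G.Pk N a b c d (xf N a b)) :
    G.DP S a b c d := by
  intro l
  have c4 := hT.us_card hc hS hu
  have hN := IHa_ns hq h1 h2 h3
  obtain ⟨Bs, hB⟩ := IHa_box hc hT hS hq.card hN
  obtain ⟨M, x, y, hxy, m1, m2, m3, m4, m5, m6⟩ := IHa_link hc hT hS hq (by omega) hN hB
  have hq' : G.Q4 S a b x y := by
    rcases hxy with ⟨rfl, rfl⟩ | ⟨rfl, rfl⟩
    exacts [hq, hq.swap2]
  obtain ⟨ma, mb, mx, my⟩ := hq'.mem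
  let F : Kf V E := ⟨S, Bs, fun i => cond i b a, fun i => cond i y x, a, G.ie S a, true, true,
    fun i => cond i 0 l, xf⟩
  have hJ : F.J = G.cut S := by
    rw [hq'.1]
    change ({a, x, b, y} : Finset E) = _
    rw [insert_comm x b]
  have hO : F.Ok G T := by
    refine ⟨hc, hT, hS, ⟨hB.2.1, fun B k => ⟨(hB.1 B k).2.1, ?_⟩, fun i => ?_, fun i => ?_,
      fun i j => ?_, hq'.2.1, hq'.2.2.2.2.2.2⟩, fun e he => Or.inl (hJ ▸ he),
      fun B k => ⟨(hB.1 B k).1.1, hJ ▸ (hB.1 B k).2.2⟩, Spl_ie ma, fun N k1 k2 => ?_,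
      fun B k B' k' ne => IHa_r2' hc hT hS hq.card hN hB k k' ne,
      fun N k => hx N (Finset.ssubset_iff_subset_ne.2 ⟨(hB.1 N k).2.1, (hB.1 N k).1.2⟩)
        (hB.1 N k).1.1, fun _ => rfl⟩
    · exact Spl_nonempty (hB.1 B k).1.1.1
    · cases i
      exacts [ma, mb]
    · cases i
      exacts [mx, my]
    · cases i <;> cases j
      exacts [hq'.2.2.1, hq'.2.2.2.1, hq'.2.2.2.2.1, hq'.2.2.2.2.2.1]
    · by_cases k : N = S
      · exact Or.inr (Or.inl ⟨k ▸ Spl_ie ma, fun B k' => k ▸ (hB.1 B k').2.1⟩)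
      · refine Or.inl (hB.2.2 N ⟨k2, k⟩ k1 fun e he => mem_union.2 ?_)
        exact mem_tch_iff.1 (tch_mono k1 (cut_sub_tch he))
  have hI : F.IsM G M := ⟨m1, fun i => by cases i; exacts [m2, m3],
    fun i => by cases i; exacts [m4, m5], m6⟩
  obtain ⟨t, -, v, hv, hw⟩ := (hM F M hO hI ⟨fun _ => 0, Or.inl rfl⟩).1
  have hw' : G.Wk S a b x y l t (1 + l + t) (G.Kv S v) := hw
  rcases hxy with ⟨rfl, rfl⟩ | ⟨rfl, rfl⟩
  · exact ⟨t, v, hv, hw'⟩
  · exact ⟨t, v, hv, hw'.swap2⟩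

/-- the pass of the natural parity with tolerance -/
theorem IH_tol (hc : G.Cub) (hT : G.HT T) (hM : G.ThM T) (hS : S ⊆ T) (hu : G.US S)
    (hq : G.Q4 S a b c d) (hN : G.NC S a b) (hB : G.Bx G.AU S {a, b} Bs)
    (hx : ∀ N ⊂ S, G.US N → ∀ a b c d, G.Q4 N a b c d → G.Pk N a b c d (xf N a b))
    (hp : (G.quo S Bs).Pth (G.quo S Bs).A n w g) (h0 : w 0 = nd Bs (G.ie S a))
    (hn : w n = nd Bs (G.ie S b)) (hm : {G.ie S c} ∈ pv n w) {s : ZMod 2}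
    (hs : (∃ j ≤ n, w j ∈ Bs) ∨ ∑ i ∈ range n, G.n (g i) = s) :
    ∃ O, ∃ v ∈ S, G.par (O ∩ G.ins S) = s ∧ G.Pas0 S O a b ∅ (G.Kv S v) (Rl.Mt (s + 1)) := by
  have c4 := hT.us_card hc hS hu
  have c2 : 2 < S.card := by omega
  obtain ⟨M, x, y, hz, ix, iy, m1, m2, m3, m4, m5, m6, m7, m8⟩ :=
    IHb_split hc hT hS hq c2 hN hB hp h0 hn hm
  obtain ⟨ma, mb, mc, md⟩ := hq.mem
  obtain ⟨nab, nac, nad, nbc, nbd, ncd⟩ := hq.2
  have tc := Spl_ie mc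
  have sub : {G.ie S c} ⊆ S := singleton_subset_iff.2 tc
  have nt : ∀ e ∈ G.cut S, e ≠ c → G.ie S e ∈ S \ {G.ie S c} := fun e he ne =>
    mem_sdiff.2 ⟨Spl_ie he, fun k => hT.f2 hc hS hq.card c2 he mc ne (mem_singleton.1 k)⟩
  have ct := fun e he ne => Spl_cut_of (G := G) (e := e) sdiff_subset he (nt e he ne)
  have cz : ∀ e, e ∈ G.cut {G.ie S c} ↔ e = x ∨ e = y ∨ e = c := fun e => by
    rw [hz.1, mem_insert, mem_insert, mem_singleton]
  have cx : ∀ e ∈ G.ins S, e ∈ G.cut {G.ie S c} → e ∈ G.cut (S \ {G.ie S c}) := fun e k1 k2 =>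
    (Spl_sd sub e).2 fun k => GO3_ni (k.2 k2) k1
  have ni : ∀ e ∈ G.cut S, ∀ f ∈ G.ins S, e ≠ f := fun e k1 f k2 k => GO3_ni k1 (k ▸ k2)
  have nc : c ∉ ({a, b} : Finset E) := by simp [nac.symm, nbc.symm]
  let F : Kf V E := ⟨S \ {G.ie S c}, Bs, fun i => cond i b a, fun i => cond i y x, d, G.ie S a,
    true, false, fun i => cond i (G.n x + G.n y) (s + 1), xf⟩
  have hJ : ∀ e, e ∈ F.J ↔ e = a ∨ e = x ∨ e = b ∨ e = y := fun e => by
    change e ∈ ({a, x, b, y} : Finset E) ↔ _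
    simp only [mem_insert, mem_singleton]
  have bs : ∀ B ∈ Bs, B ⊆ S \ {G.ie S c} := fun B k u hu' => mem_sdiff.2 ⟨(hB.1 B k).2.1 hu',
    fun k' => hB.not_mem k mc nc ie_at (mem_singleton.1 k' ▸ hu')⟩
  have hO : F.Ok G T := by
    refine ⟨hc, hT, sdiff_subset.trans hS, ⟨hB.2.1, fun B k => ⟨bs B k, ?_⟩, fun i => ?_,
      fun i => ?_, fun i j => ?_, nab, hz.2.1⟩, fun e he => ?_,
      fun B k => ⟨(hB.1 B k).1, fun e he => ?_⟩, nt a ma nac, fun N k1 k2 => ?_,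
      fun B k B' k' ne => IHa_r2 hc hT hS hB (fun _ k => k) k k' ne fun k => k,
      fun N k => hx N (hB.ssub k mc nc) (hB.1 N k).1, fun k => Bool.noConfusion k⟩
    · exact Spl_nonempty (hB.1 B k).1.1
    · cases i
      exacts [(ct a ma nac).1, (ct b mb nbc).1]
    · cases i
      exacts [cx x ix ((cz x).2 (Or.inl rfl)), cx y iy ((cz y).2 (Or.inr (Or.inl rfl)))]
    · cases i <;> cases j
      exacts [ni a ma x ix, ni a ma y iy, ni b mb x ix, ni b mb y iy]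
    · have k := (Spl_sd sub e).1 he
      rw [Spl_mem hq, cz] at k
      rw [hJ]
      change _ ∨ e = d
      clear * - k
      tauto
    · have k := mem_tch_iff.1 (tch_mono (bs B k) (cut_sub_tch he))
      refine mem_union.2 (k.imp_right fun k => ?_)
      have k1 := (Spl_sd sub e).1 k
      rw [hJ]
      rcases mem_union.1 ((hB.1 B ‹_›).2.2 he) with k2 | k2
      · have k3 : e ∈ G.cut {G.ie S c} := by
          by_contra k3
          exact k1 (iff_of_false (fun k => GO3_ni k k2) k3)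
        rcases (cz e).1 k3 with k4 | k4 | k4
        · exact Or.inr (Or.inl k4)
        · exact Or.inr (Or.inr (Or.inr k4))
        · exact (ni c mc e k2 k4.symm).elim
      · rw [mem_insert, mem_singleton] at k2
        exact k2.imp_right fun k => Or.inr (Or.inl k)
    · have k3 : N ⊆ S := k1.trans sdiff_subset
      by_cases k : d ∈ G.cut N
      · refine Or.inr (Or.inr ⟨d, k, (ct d md ncd.symm).1, fun k' => ?_⟩)
        rcases (hJ d).1 k' with k4 | k4 | k4 | k4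
        exacts [nad k4.symm, ni d md x ix k4, nbd k4.symm, ni d md y iy k4]
      · refine Or.inl (hB.2.2 N k2 k3 fun e he => mem_union.2 ?_)
        refine (mem_tch_iff.1 (tch_mono k3 (cut_sub_tch he))).imp_right fun k4 => ?_
        rcases (Spl_mem hq e).1 k4 with k5 | k5 | k5 | k5
        · exact k5 ▸ mem_insert_self _ _
        · exact k5 ▸ mem_insert_of_mem (mem_singleton_self _)
        · exact ((mem_sdiff.1 (k1 ((IHa_cut k3 k4).1 he))).2 (k5 ▸ mem_singleton_self _)).elim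
        · exact (k (k5 ▸ he)).elim
  have hI : F.IsM G M := ⟨m1, fun i => by
      cases i
      · exact m2.trans (congrArg _ (ct a ma nac).2.symm)
      · exact m3.trans (congrArg _ (ct b mb nbc).2.symm),
    fun i => by cases i; exacts [m4, m5], m6⟩
  have hC : F.Cb G M := by
    obtain ⟨σ, hσ⟩ := IHb_sign hI (1 + (s + 1) + (G.n x + G.n y)) (hs.imp m7 fun k => by
      rw [m8] at k
      rw [← k]
      linear_combination -z2_add_self (G.n x + G.n y) - z2_add_self 1)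
    exact ⟨σ, Or.inr hσ⟩
  obtain ⟨t, ht, v, hv, hw⟩ := (hM F M hO hI hC).1
  obtain rfl : t = G.n x + G.n y := ht.resolve_left fun k => Bool.noConfusion k
  have hw' : G.Wk (S \ {G.ie S c}) a b x y (s + 1) (G.n x + G.n y)
      (1 + (s + 1) + (G.n x + G.n y)) (G.Kv (S \ {G.ie S c}) v) := hw
  have v3 := hT.vtx hc (hS tc)
  have e0 : G.n x + G.n y + G.n x + G.n y = 0 := by
    linear_combination z2_add_self (G.n x + G.n y)
  have na : ∀ e ∈ G.cut S, e ≠ c → e ∉ G.tch {G.ie S c} := fun e he ne k => by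
    rw [v3.2.2, cz] at k
    rcases k with k | k | k
    exacts [ni e he x ix k, ni e he y iy k, ne k]
  obtain ⟨O, o1, o2⟩ := wk_close hw' (O2 := {x, y}) (K' := ∅)
    ((vtx_p (L := ∅) v3.2.1 hz).imp fun R k => e0.symm ▸ k.1)
    (by rw [v3.2.1, inter_empty, e0]; exact sum_empty) sdiff_disjoint (na a ma nac) (na b mb nbc)
  rw [sdiff_union_of_subset sub] at o1 o2
  refine ⟨O, v, (mem_sdiff.1 hv).1, o1, o2.cov ?_⟩
  rintro _ ⟨N, k1, k2, k3, rfl⟩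
  by_cases k : G.ie S c ∈ N
  · refine Or.inr ⟨c, (IHa_cut k1 mc).2 k, cut_sub_tch mc, fun k' => ?_⟩
    exact (o2.cut.2.2.2.2 c mc k').elim nac.symm nbc.symm
  · exact Or.inl ⟨_, Or.inl ⟨N, subset_sdiff.2 ⟨k1, disjoint_singleton_right.2 k⟩, k2, k3, rfl⟩,
      Subset.rfl⟩

theorem IH_er (hc : G.Cub) (hT : G.HT T) (hM : G.ThM T) (hS : S ⊆ T) (hu : G.US S)
    (hq : G.Q4 S a b c d) (hN : G.NC S a b)
    (hx : ∀ N ⊂ S, G.US N → ∀ a b c d, G.Q4 N a b c d → G.Pk N a b c d (xf N a b)) :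
    G.ER S a b := by
  intro s
  obtain ⟨O, hO⟩ := (kb hc hT S hS).2.2.2.2.1 hu a b c d hq hN s
  by_cases k : G.par (O ∩ G.ins S) = s
  · exact Or.inl ⟨O, k, hO⟩
  refine Or.inr fun ε => ?_
  by_cases k' : ε = s
  · subst k'
    obtain ⟨Bs, hB⟩ := hT.boxes hc hS (J := {a, b}) card_le_two
    obtain ⟨x, y, n, w, g, hxy, h1, h2, h3, h4, h5⟩ := IHb_path hc hT hS hu hq hN hB ε
    rcases hxy with ⟨rfl, rfl⟩ | ⟨rfl, rfl⟩
    · exact IH_tol hc hT hM hS hu hq hN hB hx h1 h2 h3 h4 h5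
    · exact IH_tol hc hT hM hS hu hq.swap2 hN hB hx h1 h2 h3 h4 h5
  · refine ⟨O, _, Spl_ie hq.mem.1, ?_,
      (hO.imp fun R k => k.mt).cov fun t ht => Or.inl ⟨t, kv_sub ht, Subset.rfl⟩⟩
    generalize G.par (O ∩ G.ins S) = π at k
    clear hO
    revert π ε s
    decide

/-- The two statements proved by induction follow from the two-line theorem. -/
theorem ihd_of_thm (hc : G.Cub) (hT : G.HT T) (hM : G.ThM T) : G.IHd T := by
  obtain ⟨xf, hx⟩ := xf_ex hc hT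
  intro S
  induction S using Finset.strongInduction with
  | H S ih =>
    intro hS hu a b c d hq hN
    have hI : ∀ N ⊂ S, G.IHd N := fun N k S' k' =>
      ih S' (lt_of_le_of_lt k' k) ((k'.trans k.1).trans hS)
    have hx' : ∀ N ⊂ S, G.US N → ∀ a b c d, G.Q4 N a b c d → G.Pk N a b c d (xf N a b) :=
      fun N k k' => hx N (k.1.trans hS) k' (hI N k)
    refine ⟨IH_er hc hT hM hS hu hq hN hx', ?_⟩
    by_cases k : ¬ G.NC S a c ∨ ¬ G.NC S a d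
    · exact dp_chain hc hT hS hq k hI
    · rw [not_or, not_not, not_not] at k
      exact IH_dp hc hT hM hS hu hq hN k.1 k.2 hx'

end SG

end Pool.Agent.Work.MP_8c679b_co
end
end
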