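import Pool.Agent.Work.MP_8c679b_co.Key.MB4

/-!
Signs of tracks and closing.

Hints.  Unfold `tz`, `ts`, `Cls`, `Oc`, `Sg`, `fl`; a node occurs at one position only (`IsM.inj`);
split on `F.ty`, on the tracks and on the values in `ZMod 2`.  `mn_ex`: `Nat.find` or
`exists_min_image` on the values of `lc`.
-/

set_option autoImplicit false
set_option linter.unusedSectionVars false

namespace Pool.Agent.Work.MP_8c679b_co

open Finset

variable {V E : Type} [Fintype V] [DecidableEq V] [DecidableEq E] {G : SG V E}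
  {T U Z X B N N' : Finset V} {F : Kf V E} {M M' : Mb V E} {i j : Bool} {k l x y m : ℕ}
  {σ σ' π : Finset V → ZMod 2} {u : ℕ → Finset V} {h : ℕ → E} {a b c d e f : E} {v : V}
  {Zs : Finset (Finset V)} {g s : ZMod 2}
  {Zs' : Finset (Finset V)}

/-- the closing condition on the signs `t` of the two tracks -/
def MB5_C (ty f : Bool) (lam t : Bool → ZMod 2) : Prop :=
  if ty then f = true ∨ t false + t true = 1 + lam false + lam true else ∀ i, t i = lam i + 1

instance MB5_dec (ty f : Bool) (lam t : Bool → ZMod 2) : Decidable (MB5_C ty f lam t) := by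
  unfold MB5_C
  infer_instance

theorem MB5_tog : ∀ (ty f i j : Bool) (lam t t' : Bool → ZMod 2),
    (ty = false → t (!i) = lam (!i) + 1) → (ty = true ∨ i = j) → t' j = t j + 1 →
    t' (!j) = t (!j) → MB5_C ty f lam t ∨ MB5_C ty f lam t' := by
  decide +kernel

theorem MB5_eq : ∀ (i : Bool) (t t' : Bool → ZMod 2), t' i = t i + 1 → t' (!i) = t (!i) →
    t' = Function.update t i (t i + 1) := by
  decide +kernel

theorem MB5_two0 : ∀ (ty f i j : Bool) (lam t : Bool → ZMod 2), MB5_C ty f lam t →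
    (ty = true ∨ i = j) → MB5_C ty f lam (Function.update (Function.update t i (t i + 1)) j
      (Function.update t i (t i + 1) j + 1)) := by
  decide +kernel

theorem MB5_two (ty f i j : Bool) (lam t t' t'' : Bool → ZMod 2) (h : MB5_C ty f lam t)
    (hs : ty = true ∨ i = j) (h1 : t' i = t i + 1) (h2 : t' (!i) = t (!i))
    (h3 : t'' j = t' j + 1) (h4 : t'' (!j) = t' (!j)) : MB5_C ty f lam t'' := by
  rw [MB5_eq j t' t'' h3 h4, MB5_eq i t t' h1 h2]
  exact MB5_two0 ty f i j lam t h hs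

theorem MB5_need : ∀ (ty f i : Bool) (lam t : Bool → ZMod 2), ∃ s, ∀ t' : Bool → ZMod 2,
    (ty = false → t (!i) = lam (!i) + 1) → t' i = s → t' (!i) = t (!i) → MB5_C ty f lam t' := by
  decide +kernel

namespace Kf

theorem fl_tz (hM : F.IsM G M) (hk : F.Nd M i k) :
    F.tz G M (fl σ (M.w i k)) i Zs = F.tz G M σ i Zs + (if M.w i k ∈ Zs then 0 else 1) ∧
      F.tz G M (fl σ (M.w i k)) (!i) Zs = F.tz G M σ (!i) Zs := by
  have hr : k ∈ range (M.n i + 1) := mem_range.2 (Nat.lt_succ_of_le hk.1)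
  constructor
  · unfold tz
    rw [add_assoc, ← add_sum_erase _ _ hr, ← add_sum_erase _ _ hr, add_right_comm]
    congr 2
    · by_cases h : M.w i k ∈ Zs <;> simp [fl, h, hk.2]
    · refine sum_congr rfl fun l hl => ?_
      rw [mem_erase, mem_range] at hl
      rw [fl, Function.update_of_ne fun h =>
        hl.1 (hM.inj hk.1 (Nat.le_of_lt_succ hl.2) h.symm).2]
  · unfold tz
    congr 1
    refine sum_congr rfl fun l hl => ?_
    rw [fl, Function.update_of_ne fun h =>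
      Bool.not_ne_self i (hM.inj hk.1 (Nat.le_of_lt_succ (mem_range.1 hl)) h.symm).1]

theorem tz_congr (hs : ∀ k, F.Nd M i k → M.w i k ∉ Zs → σ' (M.w i k) = σ (M.w i k)) :
    F.tz G M σ' i Zs = F.tz G M σ i Zs ∧ F.xo M σ' i Zs = F.xo M σ i Zs := by
  constructor
  · unfold tz
    congr 1
    refine sum_congr rfl fun k hk => ?_
    split_ifs with h
    · exact hs k ⟨Nat.le_of_lt_succ (mem_range.1 hk), h.1⟩ h.2
    · rfl
  · unfold xo
    refine biUnion_congr rfl fun k hk => ?_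
    rw [mem_filter, mem_range] at hk
    unfold xs
    split_ifs with h
    · rw [hs k ⟨Nat.le_of_lt_succ hk.1, h⟩ hk.2]
    · rfl

theorem xs_congr (hs : ∀ k, F.Nd M i k → σ' (M.w i k) = σ (M.w i k)) :
    (∀ k ≤ M.n i, F.xs M σ' i k = F.xs M σ i k) ∧ F.xt M σ' i = F.xt M σ i ∧
      F.ts G M σ' i = F.ts G M σ i := by
  have h1 : ∀ k ≤ M.n i, F.xs M σ' i k = F.xs M σ i k := by
    intro k hk
    unfold xs
    split_ifs with h
    · rw [hs k ⟨hk, h⟩]
    · rfl
  exact ⟨h1, biUnion_congr rfl fun k hk => h1 k (Nat.le_of_lt_succ (mem_range.1 hk)),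
    (tz_congr fun k hk _ => hs k hk).1⟩

theorem tz_ins (hM : F.IsM G M) (hk : F.Nd M i k) (hZ : M.w i k ∉ Zs) :
    F.tz G M σ i Zs = F.tz G M σ i (insert (M.w i k) Zs) + σ (M.w i k) := by
  have hr : k ∈ range (M.n i + 1) := mem_range.2 (Nat.lt_succ_of_le hk.1)
  unfold tz
  rw [add_assoc, ← add_sum_erase _ _ hr, ← add_sum_erase _ _ hr, if_pos ⟨hk.2, hZ⟩,
    if_neg fun h => h.2 (mem_insert_self _ _), zero_add, add_comm (σ _)]
  congr 2
  refine sum_congr rfl fun l hl => ?_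
  rw [mem_erase, mem_range] at hl
  have h : M.w i l ≠ M.w i k := fun h => hl.1 (hM.inj hk.1 (Nat.le_of_lt_succ hl.2) h.symm).2
  simp only [mem_insert, h, false_or]

theorem tz_off (hZ : ∀ k, F.Nd M i k → (M.w i k ∈ Zs ↔ M.w i k ∈ Zs')) :
    F.tz G M σ i Zs = F.tz G M σ i Zs' := by
  unfold tz
  congr 1
  refine sum_congr rfl fun k hk => if_congr (and_congr_right fun h => not_congr ?_) rfl rfl
  exact hZ k ⟨Nat.le_of_lt_succ (mem_range.1 hk), h⟩

theorem xo_off (hZ : ∀ k ≤ M.n i, M.w i k ∉ Zs) : F.xo M σ i Zs = F.xt M σ i := by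
  unfold xo
  rw [filter_true_of_mem fun k hk => hZ k (Nat.le_of_lt_succ (mem_range.1 hk))]
  rfl

theorem tz_sl (hZ : ∀ k, F.Nd M i k → M.w i k ∈ Zs) : F.tz G M σ i Zs = Kf.sl G M i := by
  unfold tz
  rw [sum_eq_zero fun k hk =>
    if_neg fun h => h.2 (hZ k ⟨Nat.le_of_lt_succ (mem_range.1 hk), h.1⟩), add_zero]

theorem Sg.symm (hs : F.Sg i j) : F.Sg j i := by
  exact Or.imp_right Eq.symm hs

theorem Sg.trans {l : Bool} (h1 : F.Sg i j) (h2 : F.Sg j l) : F.Sg i l := by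
  exact h1.elim Or.inl fun h => h ▸ h2

theorem Cls.oc (hc : F.Cls G M σ) (i : Bool) : F.Oc G M σ i := by
  intro h
  unfold Cls at hc
  rw [if_neg (by simp [h])] at hc
  exact hc _

theorem MB5_fl (hM : F.IsM G M) (hk : F.Nd M i k) :
    F.ts G M (fl σ (M.w i k)) i = F.ts G M σ i + 1 ∧
      F.ts G M (fl σ (M.w i k)) (!i) = F.ts G M σ (!i) := by
  have h := fl_tz (σ := σ) (Zs := ∅) hM hk
  rwa [if_neg (notMem_empty _)] at h

theorem cls_fl2 (hM : F.IsM G M) (hc : F.Cls G M σ) (hk : F.Nd M i k) (hl : F.Nd M j l)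
    (hs : F.Sg i j) (hne : ¬ (j = i ∧ l = k)) : F.Cls G M (fl (fl σ (M.w i k)) (M.w j l)) := by
  have _ := hne
  exact MB5_two _ _ i j _ _ _ _ hc hs (MB5_fl hM hk).1 (MB5_fl hM hk).2 (MB5_fl hM hl).1
    (MB5_fl hM hl).2

theorem cls_or (hM : F.IsM G M) (ho : F.Oc G M σ i) (hl : F.Nd M j l) (hs : F.Sg i j) :
    F.Cls G M σ ∨ F.Cls G M (fl σ (M.w j l)) := by
  exact MB5_tog _ _ i j _ _ _ ho hs (MB5_fl hM hl).1 (MB5_fl hM hl).2

theorem cls_of_ts (hc : F.Cls G M σ) (ht : ∀ j, F.ts G M' σ' j = F.ts G M σ j) : F.Cls G M' σ' := by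
  unfold Cls at hc ⊢
  simpa only [ht] using hc

theorem cls_tog (ho : F.Oc G M σ i) (hs : F.Sg i j) (h1 : F.ts G M' σ' j = F.ts G M σ j + 1)
    (h2 : F.ts G M' σ' (!j) = F.ts G M σ (!j)) : F.Cls G M σ ∨ F.Cls G M' σ' := by
  exact MB5_tog _ _ i j _ _ _ ho hs h1 h2

/-- a closed member whose sign on one track is changed twice -/
theorem cls_tog2 (hc : F.Cls G M σ) (hs : F.Sg i j) (hM' : F.IsM G M') (hl : F.Nd M' j l)
    (h1 : F.ts G M' σ i = F.ts G M σ i + 1) (h2 : F.ts G M' σ (!i) = F.ts G M σ (!i)) :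
    F.Cls G M' (fl σ (M'.w j l)) := by
  exact MB5_two _ _ i j _ _ _ _ hc hs h1 h2 (MB5_fl hM' hl).1 (MB5_fl hM' hl).2

/-- the sign that track `i` needs -/
theorem cls_need (F : Kf V E) (M : Mb V E) (σ : Finset V → ZMod 2) (i : Bool) :
    ∃ s, ∀ (M' : Mb V E) (σ' : Finset V → ZMod 2), F.Oc G M σ i → F.ts G M' σ' i = s →
      F.ts G M' σ' (!i) = F.ts G M σ (!i) → F.Cls G M' σ' := by
  obtain ⟨s, hs⟩ := MB5_need F.ty F.f i F.lam (F.ts G M σ)
  exact ⟨s, fun M' σ' => hs (F.ts G M' σ')⟩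

theorem mn_ex (hc : F.Cb G M) : ∃ σ, F.Mn G M σ := by
  obtain ⟨σ, h1, h2⟩ := (measure (F.lc M)).wf.has_min {σ | F.Cls G M σ} hc
  exact ⟨σ, h1, fun σ' h => not_lt.1 (h2 σ' h)⟩

theorem QS.mono (hq : F.QS G M σ π i Zs) (hZ : Zs ⊆ Zs') : F.QS G M σ π i Zs' := by
  exact fun k h1 h2 => hq k h1 fun h => h2 (hZ h)

end Kf

end Pool.Agent.Work.MP_8c679b_co
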