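import Pool.Agent.Work.MP_8c679b_co.Key.MB4
import Pool.Agent.Work.MP_8c679b_co.Key.MB5

-- merged part: Pool.Agent.Work.MP_8c679b_co.Key.OC
section
/-!
Odd circuits of a region.

Hints.  `mem_oc`, `nu_eq`, `iso_disj`, `nu_remove`.  `nu_card`: `G.oc W` is the disjoint union of
the odd circuits (`iso_disj`, `disjoint_of_vs`), each has parity one.  `add_none`: at most one odd
circuit passes `v`.  `oddlen`: induction on `W.card`.  If `W = G.vs D` solve directly with `O = ∅`: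
along the circuit (`Cc.cyc`) the three outflows at each vertex are equal and nonzero; this closes
up because the length and the sign are both odd; every target has an edge off `O` (`abs0_of_sl`).
Else split off a component `X` of `W \ G.vs D`: at most one edge joins it to the circuit
(`iso_branch`), `csp_split`, `par_all` on `X`, `fh_split`.
-/

set_option autoImplicit false

namespace Pool.Agent.Work.MP_8c679b_co

open Finset

variable {V E : Type} [Fintype V] [DecidableEq V] [DecidableEq E] {G : SG V E}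
  {T W W' X S B Z : Finset V} {D D' Q C : Finset E} {q q' q0 a v : V} {e f : E}
  {Ds : Finset (Finset V)} {g : ZMod 2}

namespace SG

theorem mem_ocs : D ∈ G.ocs W ↔ D ⊆ G.ins W ∧ G.Cc D ∧ G.par D = 1 := by
  classical
  unfold ocs
  rw [mem_filter, mem_powerset]

theorem ocs_mono (h : W' ⊆ W) : G.ocs W' ⊆ G.ocs W := by
  intro D hD
  rw [mem_ocs] at hD ⊢
  exact ⟨hD.1.trans (ins_mono h), hD.2⟩

theorem ocs_vs (h : D ∈ G.ocs W) : G.vs D ⊆ W ∧ (G.vs D).Nonempty ∧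
    ∀ W', G.vs D ⊆ W' → D ∈ G.ocs W' := by
  rw [mem_ocs] at h
  obtain ⟨h1, h2⟩ := sub_ins_iff.1 h.1
  exact ⟨h2, Sol_vs_nonempty h.2.1, fun W' h3 => mem_ocs.2 ⟨sub_ins_iff.2 ⟨h1, h3⟩, h.2⟩⟩

theorem ocs_empty : G.ocs W = ∅ ↔ G.Bal (G.ins W) := by
  constructor
  · intro h
    by_contra k
    obtain ⟨C, h1⟩ := exists_odd_cc k
    exact notMem_empty C (h ▸ mem_ocs.2 h1)
  · intro h
    refine eq_empty_of_forall_notMem fun C hC => ?_
    obtain ⟨h1, h2, h3⟩ := mem_ocs.1 hC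
    exact h2.not_bal h3 h1 h

theorem nu_congr (h : G.ocs W = G.ocs W') : G.nu W = G.nu W' := by
  refine congrArg G.par (Finset.ext fun e => ?_)
  rw [mem_oc, mem_oc]
  constructor
  · rintro ⟨C, h1, h2, h3, h4⟩
    have k := mem_ocs.1 (h ▸ mem_ocs.2 ⟨h1, h2, h3⟩ : C ∈ G.ocs W')
    exact ⟨C, k.1, h2, h3, h4⟩
  · rintro ⟨C, h1, h2, h3, h4⟩
    have k := mem_ocs.1 (h ▸ mem_ocs.2 ⟨h1, h2, h3⟩ : C ∈ G.ocs W)
    exact ⟨C, k.1, h2, h3, h4⟩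

theorem ocs_iso (h : ¬ G.FH W) (hD : D ∈ G.ocs W) : G.Iso W D := by
  obtain ⟨h1, h2, h3⟩ := mem_ocs.1 hD
  exact Nu_of h h1 h2 h3

theorem ocs_disj (hc : G.Cub) (h : ¬ G.FH W) (hD : D ∈ G.ocs W) (hD' : D' ∈ G.ocs W)
    (hne : D' ≠ D) : Disjoint (G.vs D') (G.vs D) := by
  obtain ⟨h1, h2, h3⟩ := mem_ocs.1 hD
  obtain ⟨h4, h5, -⟩ := mem_ocs.1 hD'
  exact (iso_disj hc h h1 h2 h3 h4 h5).resolve_left hne

theorem nu_card (hc : G.Cub) (h : ¬ G.FH W) : G.nu W = ((G.ocs W).card : ZMod 2) := by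
  have h1 : G.oc W = (G.ocs W).biUnion id := by
    ext e
    simp only [mem_oc, mem_biUnion, mem_ocs, id]
    exact ⟨fun ⟨C, k1, k2, k3, k4⟩ => ⟨C, ⟨k1, k2, k3⟩, k4⟩,
      fun ⟨C, ⟨k1, k2, k3⟩, k4⟩ => ⟨C, k1, k2, k3, k4⟩⟩
  unfold nu par
  rw [h1, sum_biUnion, card_eq_sum_ones, Nat.cast_sum]
  · refine sum_congr rfl fun C hC => ?_
    rw [Nat.cast_one]
    exact (mem_ocs.1 hC).2.2
  · intro C hC C' hC' hne
    refine disjoint_left.2 fun e k1 k2 => ?_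
    exact disjoint_left.1 (ocs_disj hc h hC' hC hne) (s_mem_vs k1) (s_mem_vs k2)

theorem nu_drop (hc : G.Cub) (h : ¬ G.FH W) (hD : D ∈ G.ocs W) (hW : W' ⊆ W)
    (h1 : ¬ G.vs D ⊆ W') (h2 : ∀ D' ∈ G.ocs W, D' ≠ D → G.vs D' ⊆ W') : G.nu W' = G.nu W + 1 := by
  have h3 : G.ocs W' = (G.ocs W).erase D := by
    ext C
    rw [mem_erase]
    exact ⟨fun k => ⟨fun k1 => h1 (k1 ▸ (ocs_vs k).1), ocs_mono hW k⟩,
      fun k => (ocs_vs k.2).2.2 W' (h2 C k.2 k.1)⟩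
  rw [nu_card hc h, nu_card hc fun k => h (k.mono hW), h3, ← card_erase_add_one hD]
  push_cast
  rw [add_assoc, z2_add_self, add_zero]

theorem new_cc (hW : W' ⊆ W) (h : G.nu W' ≠ G.nu W) : ∃ D ∈ G.ocs W, ¬ G.vs D ⊆ W' := by
  by_contra k
  push Not at k
  exact h (nu_congr (Subset.antisymm (ocs_mono hW) fun D hD => (ocs_vs hD).2.2 W' (k D hD)))

theorem add_none (hc : G.Cub) (h : ¬ G.FH W) (hW : W' ⊆ W) (hn : G.nu W' = G.nu W)
    (hv : ∀ D ∈ G.ocs W, G.vs D ⊆ W' ∨ v ∈ G.vs D) : G.ocs W = G.ocs W' := by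
  refine Subset.antisymm (fun D hD => (ocs_vs hD).2.2 W' (by_contra fun k => ?_)) (ocs_mono hW)
  have h1 := nu_drop hc h hD hW k fun D' hD' hne => (hv D' hD').resolve_right fun k1 =>
    disjoint_left.1 (ocs_disj hc h hD hD' hne) k1 ((hv D hD).resolve_left k)
  rw [hn] at h1
  exact one_ne_zero (left_eq_add.1 h1)

/-- an odd circuit that meets an unbalanced side of a region without flexible part -/
theorem ocs_box (hc : G.Cub) (hT : G.HT T) (hW : W ⊆ T) (h : ¬ G.FH W) (hD : D ∈ G.ocs W)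
    (hS : S ⊆ W) (hu : G.US S) :
    G.ins S ∈ G.ocs S ∧ S.card = 4 ∧ (G.vs D = S ∨ Disjoint S (G.vs D)) := by
  obtain ⟨h1, h2, h3, h4, -⟩ := us_iso hc hT hW h hS hu
  have h5 : G.ins S ∈ G.ocs S := mem_ocs.2 ⟨Subset.rfl, h1, h2⟩
  refine ⟨h5, h4, ?_⟩
  by_cases k : G.ins S = D
  · exact Or.inl (k ▸ h3)
  · exact Or.inr (h3 ▸ ocs_disj hc h hD (ocs_mono hS h5) k)

/-- a circuit has as many edges as vertices -/
theorem OC_card (hc : G.Cub) (hA : D ⊆ G.A) (hE : G.Ev D) : D.card = (G.vs D).card := by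
  have h1 : ∑ v ∈ G.vs D, G.deg D v = 2 * (G.vs D).card := by
    rw [sum_congr rfl fun v hv => deg2_of_dg hc hA hv (hE v), sum_const, smul_eq_mul, mul_comm]
  have h2 : ∑ v ∈ G.vs D, G.deg D v = 2 * D.card := by
    simp only [deg, inc]
    rw [sum_comm, card_eq_sum_ones, mul_sum]
    refine sum_congr rfl fun e he => ?_
    rw [sum_add_distrib]
    simp [iv, s_mem_vs he, t_mem_vs he]
  omega

/-- a circuit of odd length and odd sign has a nowhere zero solution -/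
theorem OC_pure (hc : G.Cub) (hD : G.ins W = D) (cD : G.Cc D) (oD : G.par D = 1)
    (ho : Odd (G.vs D).card) : G.Abs0 W ∅ (G.cut W) ∅ := by
  have hA : D ⊆ G.A := hD ▸ ins_sub_A
  have k5 : (⟨G.A, G.s, G.t, fun e => G.n e + 1⟩ : SG V E).Bal D := by
    by_contra k
    obtain ⟨C, d1, d2, d3⟩ := exists_odd_cc k
    rw [cD.min hc hA d1 d2.2.1 d2.1, par, sum_add_distrib, sum_const, OC_card hc hA cD.2.1,
      show ∑ e ∈ D, G.n e = 1 from oD, nsmul_one, ZMod.natCast_eq_one_iff_odd.2 ho] at d3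
    exact absurd d3 (by decide)
  obtain ⟨p, hp⟩ := k5
  obtain ⟨φ, f1, f2⟩ := PAll_flow (T := W) (p := p) hc fun e he => hp e (hD ▸ he)
  exact abs0_of_sl ⟨empty_subset _, fun _ _ => sum_empty, empty_inter _⟩
    ⟨f2, fun e _ _ => f1 e, fun _ k => k.elim⟩

theorem oddlen (hc : G.Cub) (hT : G.HT T) (hW : W ⊆ T) (h : ¬ G.FH W) (hD : D ∈ G.ocs W)
    (ho : Odd (G.vs D).card) (hV : G.VD W ∅ Ds) : G.CSp W Ds (G.nu W + 1) := by
  replace hD := mem_ocs.1 hD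
  obtain ⟨hD, cD, oD⟩ := hD
  induction W using Finset.strongInduction generalizing Ds with
  | H W ih =>
    by_cases h2 : G.Two W (G.ins W)
    · obtain ⟨d1, -⟩ := iso_two h2 hD cD (Nu_of h hD cD oD)
      rw [(nu_circuit hc d1 cD oD).1, z2_add_self]
      exact csp_of_free hc hT hW hV (fun S hS hu q => h (fh_of_box hc hT hW h2 hS hu q))
        (OC_pure hc d1 cD oD ho)
    simp only [Two, not_forall, not_le] at h2
    obtain ⟨X, hX, hXn, hXW, h1⟩ := h2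
    have h1' : (G.crs (G.ins W) X).card ≤ 1 := by omega
    obtain ⟨D1, D2, k1, k2, k3⟩ := csp_split hc hT hW hX h1' hV
    have w2 : W \ X ⊆ T := sdiff_subset.trans hW
    rw [(fh_split hX h1').2]
    rcases cc_split hX h1' hD cD with q | q
    · rw [add_right_comm]
      exact k3 _ _ (ih X (ssubset_of_subset_of_ne hX hXW) (hX.trans hW)
        (fun k => h (k.mono hX)) k1 q) ((par_all hc hT _ w2).1 D2 k2 _ (Or.inr rfl))
    · rw [add_assoc]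
      exact k3 _ _ ((par_all hc hT _ (hX.trans hW)).1 D1 k1 _ (Or.inr rfl))
        (ih (W \ X) (sdiff_ssubset hX hXn) w2 (fun k => h (k.mono sdiff_subset)) k2 q)

end SG

end Pool.Agent.Work.MP_8c679b_co
end

-- merged part: Pool.Agent.Work.MP_8c679b_co.Key.ST1
section
/-!
Passes of whole tracks.

Hints.  All four track lemmas are `run_pas` for the sequence of sets given at the special positions
and `F.xs` (or the single vertex) elsewhere, inside `Y' =` the union of these sets, with the live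
set `L ∩ G.cut Y'` (`Pas0.monoL`); `IsM.trk`, `IsM.q3`, `vtx_p`, `IsM.q4`, `xs_sub`.  Targets:
`Pas0.cov`.  Classes: `ch_p`, `ch_mt`, `ch_gd`, `ch_gg`; `Rl.sg` of the chain is `F.tz` plus the
signs at the special positions (`e_succ`).
-/

set_option autoImplicit false

namespace Pool.Agent.Work.MP_8c679b_co

open Finset

variable {V E : Type} [Fintype V] [DecidableEq V] [DecidableEq E] {G : SG V E}
  {T U Z X B N N' : Finset V} {F : Kf V E} {M M' : Mb V E} {i j : Bool} {k l x y m : ℕ}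
  {σ σ' π : Finset V → ZMod 2} {u : ℕ → Finset V} {h : ℕ → E} {a b c d e f : E} {v : V}
  {Zs : Finset (Finset V)} {g s : ZMod 2}
  {X' X1 X2 XQ : Finset V} {O O' O1 O2 OQ L L1 L2 : Finset E} {K K' K1 K2 KQ : Set (Finset E)}
  {t : ZMod 2}

namespace Kf

theorem std_pass (h : F.Ok G T) (hM : F.IsM G M) (hq : F.QS G M σ π i Zs) (hk : k ≤ M.n i)
    (hZ : M.w i k ∉ Zs) :
    ∃ O K, G.Pas0 (F.xs M σ i k) O (F.e M i k) (F.e M i (k + 1)) ∅ K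
        (Rl.P (if M.w i k ∈ F.Bs then σ (M.w i k) else 0)) ∧
      G.par (O ∩ G.ins (F.xs M σ i k)) = (if M.w i k ∈ F.Bs then π (M.w i k) else 0) ∧
      ∀ c d, M.w i k ∈ F.Bs → G.Q4 (M.w i k) (F.e M i k) (F.e M i (k + 1)) c d →
        G.Kp (M.w i k) (F.xs M σ i k) c d ⊆ K := by
  by_cases hB : M.w i k ∈ F.Bs
  · obtain ⟨c, d, h1⟩ := hM.q4 h ⟨hk, hB⟩
    obtain ⟨O, h2, h3⟩ := hq k ⟨hk, hB⟩ hZ c d h1
    rw [if_pos hB, if_pos hB]
    refine ⟨O, _, h3, h2, fun c' d' _ h4 => ?_⟩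
    rcases h1.uniq h4 with ⟨rfl, rfl⟩ | ⟨rfl, rfl⟩
    · exact Set.Subset.rfl
    · exact (SG.kp_swap (v := F.v0)).1.subset
  · obtain ⟨v, g, h1, h2, h3⟩ := hM.q3 h hk hB
    rw [if_neg hB, if_neg hB, MB4_vtx hB, h1, h3]
    exact ⟨_, ∅, (SG.vtx_p h3 h2).imp fun R r => r.1, by rw [inter_empty]; rfl,
      fun c d r => absurd (h1 ▸ r) hB⟩

theorem ST1_cut {n : ℕ} {W : ℕ → Finset V} (hk : k ≤ n) (he : e ∈ G.cut (W k))
    (h : ∀ l ≤ n, l ≠ k → e ∉ G.tch (W l)) : e ∈ G.cut (bu n W) := by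
  refine (SG.mem_tch_iff.1 (SG.tch_mono (SG.Run_sub hk) (SG.cut_sub_tch he))).resolve_left
    fun r => ?_
  have h1 := SG.oe_at (G := G) (X := W k) (e := e)
  obtain ⟨l, hl, h2⟩ := mem_bu.1 (SG.TY1_at r h1)
  by_cases h3 : l = k
  · exact SG.oe_not_mem he (h3 ▸ h2)
  · exact h l hl h3 (SG.Cut_tch (SG.mem_cut.1 he).1 h1 h2)

/-- a pass is given for every box of the track; only the weak conditions on the frame are used -/
theorem trk_all {Xs : ℕ → Finset V} {Os : ℕ → Finset E} {Ks : ℕ → Set (Finset E)}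
    {Cs : ℕ → Rl → Prop} {C0 : Rl → Prop} (hc : G.Cub) (hT : G.HT T) (hY : F.Y ⊆ T) (hw : F.Wf G)
    (hM : F.IsM G M) (hX : ∀ k, F.Nd M i k → Xs k ⊆ M.w i k ∧
      G.Pas0 (Xs k) (Os k) (F.e M i k) (F.e M i (k + 1)) L (Ks k) (Cs k))
    (hL : ∀ k, F.Nd M i k → ∀ e ∈ L, e ∈ G.cut (Xs k) → ∀ l ≤ M.n i, l ≠ k → e ∉ G.tch (M.w i l))
    (hC : ∀ Rs : ℕ → Rl, (∀ k ≤ M.n i, (M.w i k ∈ F.Bs → Cs k (Rs k)) ∧
      (M.w i k ∉ F.Bs → (Rs k).P 0)) → C0 (Rl.chain (fun k => G.n (F.e M i k)) Rs (M.n i))) :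
    ∃ O, G.Pas0 (bu (M.n i) fun k => if M.w i k ∈ F.Bs then Xs k else M.w i k) O (F.p i) (F.q i) L
        {u | ∃ k, F.Nd M i k ∧ u ∈ Ks k} C0 ∧
      G.par (O ∩ G.ins (bu (M.n i) fun k => if M.w i k ∈ F.Bs then Xs k else M.w i k)) =
        Kf.sl G M i + ∑ k ∈ range (M.n i + 1),
          if M.w i k ∈ F.Bs then G.par (Os k ∩ G.ins (Xs k)) else 0 := by
  obtain ⟨⟨t1, t2, t3⟩, t4, t5⟩ := hM.trk hw i
  set W : ℕ → Finset V := fun k => if M.w i k ∈ F.Bs then Xs k else M.w i k with hW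
  have w1 : ∀ k ≤ M.n i, W k ⊆ M.w i k := fun k hk => by
    by_cases hB : M.w i k ∈ F.Bs
    · exact (if_pos hB).trans_subset (hX k ⟨hk, hB⟩).1
    · exact (if_neg hB).subset
  have w2 : ∀ k ≤ M.n i, G.Pas0 (W k)
      (if M.w i k ∈ F.Bs then Os k else {F.e M i k, F.e M i (k + 1)}) (F.e M i k) (F.e M i (k + 1))
      (L ∩ G.cut (bu (M.n i) W)) (if M.w i k ∈ F.Bs then Ks k else ∅)
      (fun R => (M.w i k ∈ F.Bs → Cs k R) ∧ (M.w i k ∉ F.Bs → R.P 0)) ∧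
      (M.w i k ∉ F.Bs → G.ins (W k) = ∅) := fun k hk => by
    by_cases hB : M.w i k ∈ F.Bs
    · have e1 : W k = Xs k := if_pos hB
      rw [if_pos hB, if_pos hB]
      refine ⟨e1 ▸ ((hX k ⟨hk, hB⟩).2.monoL fun e h1 h2 => mem_inter.2 ⟨h2, ST1_cut hk (e1 ▸ h1)
        fun l hl h3 r => hL k ⟨hk, hB⟩ e h2 h1 l hl h3 (SG.tch_mono (w1 l hl) r)⟩).imp
          fun R r => ⟨fun _ => r, fun r' => absurd hB r'⟩, fun r => absurd hB r⟩
    · obtain ⟨v, hv, h0, -⟩ := (hM.node hw hk).2.2.2.resolve_left hB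
      obtain ⟨h1, h2, h3⟩ := t3 k hk
      rw [h0] at h1 h2
      obtain ⟨g, h4⟩ := hT.third hc (hY hv) h1 h2 h3
      have h5 := (hT.vtx hc (hY hv)).2.1
      rw [if_neg hB, if_neg hB, show W k = {v} from (if_neg hB).trans h0]
      exact ⟨(SG.vtx_p h5 h4).imp fun R r => ⟨fun r' => absurd r' hB, fun _ => r.1⟩, fun _ => h5⟩
  have w3 : bu (M.n i) W ⊆ F.Y := fun v hv => by
    obtain ⟨k, hk, h1⟩ := mem_bu.1 hv
    exact t1 k hk (w1 k hk h1)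
  obtain ⟨r1, r2⟩ := SG.run_pas (C0 := C0) (fun k hk => SG.Run_sub hk)
    (fun k hk l hl h => (t2 k hk l hl h).mono (w1 k hk) (w1 l hl)) inter_subset_right
    (fun k hk => (w2 k hk).1)
    (SG.cut_of_sub w3 (t4 ▸ hw.pc i) (SG.tch_mono (SG.Run_sub (Nat.zero_le _))
      (SG.cut_sub_tch (w2 0 (Nat.zero_le _)).1.cut.1))).1
    (SG.cut_of_sub w3 (t5 ▸ hw.qc i) (SG.tch_mono (SG.Run_sub le_rfl)
      (SG.cut_sub_tch (w2 _ le_rfl).1.cut.2.1))).1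
    (by rw [t4, t5]; exact hw.pq i i) hC
  rw [t4, t5] at r1
  refine ⟨_, (r1.monoL fun e _ r => (mem_inter.1 r).1).cov ?_, r2.trans ?_⟩
  · rintro t ⟨k, hk, h1⟩
    exact Or.inl ⟨t, ⟨k, hk.1, by simpa only [if_pos hk.2] using h1⟩, Subset.rfl⟩
  · rw [add_comm]
    refine congrArg₂ _ (sum_congr rfl fun k hk => by rw [e_succ (mem_range.1 hk)])
      (sum_congr rfl fun k hk => ?_)
    by_cases hB : M.w i k ∈ F.Bs
    · rw [if_pos hB, if_pos hB, show W k = Xs k from if_pos hB]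
    · rw [if_neg hB, if_neg hB, (w2 k (Nat.le_of_lt_succ (mem_range.1 hk))).2 hB, inter_empty]
      rfl

theorem ST1_sum (σ : Finset V → ZMod 2) (s a : ℕ → ZMod 2)
    (ha : ∀ r ≤ M.n i,
      a r = if M.w i r ∈ Zs then s r else if M.w i r ∈ F.Bs then σ (M.w i r) else 0) :
    ∑ r ∈ range (M.n i + 1), a r + ∑ r ∈ range (M.n i), G.n (F.e M i (r + 1)) =
      F.tz G M σ i Zs + ∑ r ∈ range (M.n i + 1), if M.w i r ∈ Zs then s r else 0 := by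
  rw [tz, sl, add_assoc, ← sum_add_distrib, add_comm]
  congr 1
  · exact sum_congr rfl fun r hr => by rw [e_succ (mem_range.1 hr)]
  · refine sum_congr rfl fun r hr => ?_
    rw [ha r (Nat.lt_succ_iff.1 (mem_range.1 hr))]
    by_cases h1 : M.w i r ∈ Zs <;> by_cases h2 : M.w i r ∈ F.Bs <;> simp [h1, h2]

/-- the track with given passes at the positions whose node is in `Zs` -/
theorem ST1_gen {Xs : ℕ → Finset V} {Os : ℕ → Finset E} {Ks : ℕ → Set (Finset E)}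
    {Cs : ℕ → Rl → Prop} {W : Finset V} (h : F.Ok G T) (hM : F.IsM G M) (hq : F.QS G M σ π i Zs)
    (hP : ∀ r ≤ M.n i, M.w i r ∈ Zs →
      G.Pas0 (Xs r) (Os r) (F.e M i r) (F.e M i (r + 1)) L (Ks r) (Cs r) ∧ Xs r ⊆ F.Y ∧
      Disjoint (F.xo M σ i Zs) (Xs r) ∧ ∀ e ∈ L, e ∈ G.cut (Xs r) → e ∉ G.tch (F.xo M σ i Zs))
    (hd : ∀ r ≤ M.n i, ∀ r' ≤ M.n i, r ≠ r' → M.w i r ∈ Zs → M.w i r' ∈ Zs →
      Disjoint (Xs r) (Xs r') ∧ ∀ e ∈ L, e ∈ G.cut (Xs r) → e ∉ G.tch (Xs r'))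
    (hW : ∀ v, v ∈ W ↔ v ∈ F.xo M σ i Zs ∨ ∃ r ≤ M.n i, M.w i r ∈ Zs ∧ v ∈ Xs r)
    (hK : ∀ t ∈ K, t ∈ F.ko G M σ i Zs ∨ ∃ r ≤ M.n i, M.w i r ∈ Zs ∧ t ∈ Ks r) :
    ∃ O, G.par (O ∩ G.ins W) = F.tz G M π i Zs +
        ∑ r ∈ range (M.n i + 1), (if M.w i r ∈ Zs then G.par (Os r ∩ G.ins (Xs r)) else 0) ∧
      ∀ C0 : Rl → Prop, (∀ Rs : ℕ → Rl, (∀ r ≤ M.n i, (M.w i r ∈ Zs → Cs r (Rs r)) ∧
        (M.w i r ∉ Zs → (Rs r).P (if M.w i r ∈ F.Bs then σ (M.w i r) else 0))) →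
        C0 (Rl.chain (fun r => G.n (F.e M i r)) Rs (M.n i))) →
      G.Pas0 W O (F.p i) (F.q i) L K C0 := by
  have h0 : ∀ r, ∃ O K, r ≤ M.n i → M.w i r ∉ Zs →
      G.Pas0 (F.xs M σ i r) O (F.e M i r) (F.e M i (r + 1)) ∅ K
        (Rl.P (if M.w i r ∈ F.Bs then σ (M.w i r) else 0)) ∧
      G.par (O ∩ G.ins (F.xs M σ i r)) = (if M.w i r ∈ F.Bs then π (M.w i r) else 0) ∧
      ∀ c d, M.w i r ∈ F.Bs → G.Q4 (M.w i r) (F.e M i r) (F.e M i (r + 1)) c d →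
        G.Kp (M.w i r) (F.xs M σ i r) c d ⊆ K := fun r => by
    by_cases hr : r ≤ M.n i ∧ M.w i r ∉ Zs
    · obtain ⟨O, K, hO⟩ := std_pass h hM hq hr.1 hr.2
      exact ⟨O, K, fun _ _ => hO⟩
    · exact ⟨∅, ∅, fun h1 h2 => absurd ⟨h1, h2⟩ hr⟩
  choose O0 K0 h0 using h0
  obtain ⟨X, hX⟩ : ∃ X : ℕ → Finset V, ∀ r, X r = if M.w i r ∈ Zs then Xs r else F.xs M σ i r :=
    ⟨_, fun _ => rfl⟩
  have hxo : ∀ r ≤ M.n i, M.w i r ∉ Zs → F.xs M σ i r ⊆ F.xo M σ i Zs := fun r hr hz v hv =>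
    mem_xo.2 ⟨r, hr, hz, hv⟩
  have e1 : bu (M.n i) X = W := by
    ext v
    rw [Run_mem_bu, hW, mem_xo]
    constructor
    · rintro ⟨r, hr, hv⟩
      rw [hX] at hv
      split_ifs at hv with hz
      exacts [Or.inr ⟨r, hr, hz, hv⟩, Or.inl ⟨r, hr, hz, hv⟩]
    · rintro (⟨r, hr, hz, hv⟩ | ⟨r, hr, hz, hv⟩)
      · exact ⟨r, hr, by rwa [hX, if_neg hz]⟩
      · exact ⟨r, hr, by rwa [hX, if_pos hz]⟩
  have k1 : ∀ r ≤ M.n i, X r ⊆ W := fun r hr => e1 ▸ SG.Run_sub hr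
  have k2 : W ⊆ F.Y := fun v hv => by
    rcases (hW v).1 hv with hv | ⟨r, hr, hz, hv⟩
    · obtain ⟨r, hr, -, hv⟩ := mem_xo.1 hv
      exact (hM.node h.wf hr).2.2.1 ((xs_sub h hM hr).1 hv)
    · exact (hP r hr hz).2.1 hv
  have k3 : ∀ r ≤ M.n i, ∀ r' ≤ M.n i, r ≠ r' → Disjoint (X r) (X r') := by
    intro r hr r' hr' hne
    rw [hX, hX]
    split_ifs with h1 h2 h2
    · exact (hd r hr r' hr' hne h1 h2).1
    · exact ((hP r hr h1).2.2.1.mono_left (hxo r' hr' h2)).symm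
    · exact (hP r' hr' h2).2.2.1.mono_left (hxo r hr h1)
    · exact (hM.disj h.wf hr hr' fun k => hne k.2.symm).mono (xs_sub h hM hr).1 (xs_sub h hM hr').1
  have k4 : ∀ r ≤ M.n i, G.Pas0 (X r) (if M.w i r ∈ Zs then Os r else O0 r) (F.e M i r)
      (F.e M i (r + 1)) (L ∩ G.cut W) (if M.w i r ∈ Zs then Ks r else K0 r)
      (if M.w i r ∈ Zs then Cs r else Rl.P (if M.w i r ∈ F.Bs then σ (M.w i r) else 0)) := by
    intro r hr
    have k := k1 r hr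
    rw [hX] at k ⊢
    by_cases hz : M.w i r ∈ Zs
    · simp only [if_pos hz] at k ⊢
      refine (hP r hr hz).1.monoL fun e he hL => mem_inter.2 ⟨hL, ?_⟩
      refine (SG.mem_tch_iff.1 (SG.tch_mono k (SG.cut_sub_tch he))).resolve_left fun hi => ?_
      obtain ⟨a1, a2⟩ := SG.mem_ins.1 hi
      have a3 : G.oe (Xs r) e ∈ W := by
        rcases SG.oe_at (G := G) (X := Xs r) (e := e) with a | a
        exacts [a ▸ a2.1, a ▸ a2.2]
      rcases (hW _).1 a3 with a | ⟨r', hr', hz', a⟩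
      · exact (hP r hr hz).2.2.2 e hL he (SG.Cut_tch a1 SG.oe_at a)
      · refine (hd r hr r' hr' ?_ hz hz').2 e hL he (SG.Cut_tch a1 SG.oe_at a)
        rintro rfl
        exact SG.oe_not_mem he a
    · simp only [if_neg hz]
      exact (h0 r hr hz).1.monoL fun e _ hL => absurd hL (notMem_empty e)
  obtain ⟨-, t0, t1⟩ := hM.trk h.wf i
  have k5 : F.e M i 0 ∈ G.cut W :=
    (SG.cut_of_sub k2 (t0 ▸ h.wf.pc i) (SG.tch_mono (k1 0 (Nat.zero_le _)) (SG.cut_sub_tch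
      (SG.Run_J (k4 0 (Nat.zero_le _)).2.1 (mem_insert_self _ _)).2))).1
  have k6 : F.e M i (M.n i + 1) ∈ G.cut W :=
    (SG.cut_of_sub k2 (t1 ▸ h.wf.qc i) (SG.tch_mono (k1 _ le_rfl) (SG.cut_sub_tch
      (SG.Run_J (k4 _ le_rfl).2.1 (mem_insert_of_mem (mem_singleton_self _))).2))).1
  have key := fun (C0 : Rl → Prop) hC => SG.run_pas (C0 := C0) k1 k3 inter_subset_right k4 k5 k6
    (by rw [t0, t1]; exact h.wf.pq i i) hC
  rw [e1, t0, t1] at key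
  refine ⟨_, (key (fun _ => True) fun _ _ => trivial).2.trans (ST1_sum π _ _ fun r hr => ?_),
    fun C0 hC => (((key C0 fun Rs hR => hC Rs fun r hr => ⟨fun hz => ?_, fun hz => ?_⟩).1.monoL
      fun e _ he => (mem_inter.1 he).1).cov fun t ht => Or.inl ⟨t, ?_, Subset.rfl⟩)⟩
  · rw [hX]
    by_cases hz : M.w i r ∈ Zs
    · simp only [if_pos hz]
    · simp only [if_neg hz]
      exact (h0 r hr hz).2.1
  · have := hR r hr
    rwa [if_pos hz] at this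
  · have := hR r hr
    rwa [if_neg hz] at this
  · rcases hK t ht with ⟨r, hr, hz, c, d, q, k⟩ | ⟨r, hr, hz, k⟩
    · exact ⟨r, hr.1, by simp only [if_neg hz]; exact (h0 r hr.1 hz).2.2 c d hr.2 q k⟩
    · exact ⟨r, hr, by simp only [if_pos hz]; exact k⟩

theorem ST1_one (hk : k ≤ M.n i) (hZ : ∀ l ≤ M.n i, M.w i l ∈ Zs ↔ l = k) (s : ZMod 2) :
    ∑ r ∈ range (M.n i + 1), (if M.w i r ∈ Zs then s else 0) = s := by
  rw [sum_eq_single_of_mem k (mem_range.2 (Nat.lt_succ_of_le hk)), if_pos ((hZ k hk).2 rfl)]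
  exact fun r hr hne => if_neg fun hz => hne ((hZ r (Nat.lt_succ_iff.1 (mem_range.1 hr))).1 hz)

theorem trk0 (h : F.Ok G T) (hM : F.IsM G M) (hq : F.QS G M σ π i Zs)
    (hZ : ∀ k ≤ M.n i, M.w i k ∉ Zs) :
    ∃ O, G.par (O ∩ G.ins (F.xo M σ i Zs)) = F.tz G M π i Zs ∧
      G.Pas0 (F.xo M σ i Zs) O (F.p i) (F.q i) ∅ (F.ko G M σ i Zs) (Rl.P (F.tz G M σ i Zs)) := by
  obtain ⟨O, h1, h2⟩ := ST1_gen (Xs := fun _ => ∅) (Os := fun _ => ∅) (Ks := fun _ => ∅)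
    (Cs := fun _ _ => True) (W := F.xo M σ i Zs) (L := ∅) (K := F.ko G M σ i Zs) h hM hq
    (fun r hr hz => absurd hz (hZ r hr)) (fun r hr _ _ _ hz => absurd hz (hZ r hr))
    (fun v => by simp) fun t ht => Or.inl ht
  have e : ∀ s : ZMod 2, ∑ r ∈ range (M.n i + 1), (if M.w i r ∈ Zs then s else 0) = 0 := fun s =>
    sum_eq_zero fun r hr => if_neg (hZ r (Nat.lt_succ_iff.1 (mem_range.1 hr)))
  refine ⟨O, by rw [h1, e, add_zero], h2 _ fun Rs hR => ?_⟩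
  have k := Rl.ch_p (τ := fun r => G.n (F.e M i r)) fun r hr => (hR r hr).2 (hZ r hr)
  rwa [Rl.sg, ST1_sum (Zs := Zs) σ (fun _ => 0) _ fun r hr => (if_neg (hZ r hr)).symm, e,
    add_zero] at k

theorem trk1 {C : Rl → Prop} (h : F.Ok G T) (hM : F.IsM G M) (hq : F.QS G M σ π i Zs)
    (hk : k ≤ M.n i) (hZ : ∀ l ≤ M.n i, M.w i l ∈ Zs ↔ l = k)
    (hp : G.Pas0 X' O' (F.e M i k) (F.e M i (k + 1)) L K' C) (hX : X' ⊆ F.Y)
    (hd : Disjoint (F.xo M σ i Zs) X')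
    (hL : ∀ e ∈ L, e ∈ G.cut X' → e ∉ G.tch (F.xo M σ i Zs)) :
    ∃ O, G.par (O ∩ G.ins (F.xo M σ i Zs ∪ X')) = F.tz G M π i Zs + G.par (O' ∩ G.ins X') ∧
      (∀ s, (∀ R, C R → R.Mt (s + 1)) → G.Pas0 (F.xo M σ i Zs ∪ X') O (F.p i) (F.q i) L
        (F.ko G M σ i Zs ∪ K') (Rl.Mt (F.tz G M σ i Zs + s + 1))) ∧
      ((∀ R, C R → R.Gd) → G.Pas0 (F.xo M σ i Zs ∪ X') O (F.p i) (F.q i) L
        (F.ko G M σ i Zs ∪ K') Rl.Gd) := by
  obtain ⟨O, h1, h2⟩ := ST1_gen (Xs := fun _ => X') (Os := fun _ => O') (Ks := fun _ => K')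
    (Cs := fun _ => C) (W := F.xo M σ i Zs ∪ X') (L := L) (K := F.ko G M σ i Zs ∪ K') h hM hq
    (fun r hr hz => ⟨(hZ r hr).1 hz ▸ hp, hX, hd, hL⟩)
    (fun r hr r' hr' hne hz hz' => absurd (((hZ r hr).1 hz).trans ((hZ r' hr').1 hz').symm) hne)
    (fun v => mem_union.trans (or_congr_right
      ⟨fun hv => ⟨k, hk, (hZ k hk).2 rfl, hv⟩, fun ⟨_, _, _, hv⟩ => hv⟩))
    fun t ht => ht.imp_right fun ht => ⟨k, hk, (hZ k hk).2 rfl, ht⟩
  have hn : ∀ r ≤ M.n i, r ≠ k → M.w i r ∉ Zs := fun r hr hne hz => hne ((hZ r hr).1 hz)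
  refine ⟨O, by rw [h1, ST1_one hk hZ], fun s hs => h2 _ fun Rs hR => ?_,
    fun hs => h2 _ fun Rs hR => Rl.ch_gd hk (fun r hr hne => ⟨_, (hR r hr).2 (hn r hr hne)⟩)
      (hs _ ((hR k hk).1 ((hZ k hk).2 rfl)))⟩
  have k1 := Rl.ch_mt (τ := fun r => G.n (F.e M i r)) (Rs := Rs)
    (s := fun r => if M.w i r ∈ Zs then s else if M.w i r ∈ F.Bs then σ (M.w i r) else 0) hk
    (fun r hr hne => by rw [if_neg (hn r hr hne)]; exact (hR r hr).2 (hn r hr hne))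
    (by rw [if_pos ((hZ k hk).2 rfl)]; exact hs _ ((hR k hk).1 ((hZ k hk).2 rfl)))
  rwa [Rl.sg, ST1_sum σ (fun _ => s) _ fun r hr => rfl, ST1_one hk hZ] at k1

theorem trk2 (h : F.Ok G T) (hM : F.IsM G M) (hq : F.QS G M σ π i Zs) (hk : k ≤ M.n i)
    (hl : l ≤ M.n i) (hkl : k ≠ l) (hZ : ∀ r ≤ M.n i, M.w i r ∈ Zs ↔ r = k ∨ r = l)
    (h1 : G.Pas0 X1 O1 (F.e M i k) (F.e M i (k + 1)) L K1 Rl.Gd)
    (h2 : G.Pas0 X2 O2 (F.e M i l) (F.e M i (l + 1)) L K2 Rl.Gd) (s1 : X1 ⊆ F.Y) (s2 : X2 ⊆ F.Y)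
    (d1 : Disjoint (F.xo M σ i Zs) X1) (d2 : Disjoint (F.xo M σ i Zs) X2) (d3 : Disjoint X1 X2)
    (l1 : ∀ e ∈ L, e ∈ G.cut X1 → e ∉ G.tch (F.xo M σ i Zs) ∧ e ∉ G.tch X2)
    (l2 : ∀ e ∈ L, e ∈ G.cut X2 → e ∉ G.tch (F.xo M σ i Zs) ∧ e ∉ G.tch X1) :
    ∃ O, G.par (O ∩ G.ins (F.xo M σ i Zs ∪ X1 ∪ X2)) =
        F.tz G M π i Zs + G.par (O1 ∩ G.ins X1) + G.par (O2 ∩ G.ins X2) ∧
      G.Pas0 (F.xo M σ i Zs ∪ X1 ∪ X2) O (F.p i) (F.q i) L (F.ko G M σ i Zs ∪ K1 ∪ K2)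
        fun R => ∀ s, R.Mt s := by
  have zk := (hZ k hk).2 (Or.inl rfl)
  have zl := (hZ l hl).2 (Or.inr rfl)
  obtain ⟨O, a1, a2⟩ := ST1_gen (Xs := fun r => if r = k then X1 else X2)
    (Os := fun r => if r = k then O1 else O2) (Ks := fun r => if r = k then K1 else K2)
    (Cs := fun _ => Rl.Gd) (W := F.xo M σ i Zs ∪ X1 ∪ X2) (L := L)
    (K := F.ko G M σ i Zs ∪ K1 ∪ K2) h hM hq
    (fun r hr hz => by
      rcases (hZ r hr).1 hz with rfl | rfl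
      · simp only [if_pos]
        exact ⟨h1, s1, d1, fun e he hc => (l1 e he hc).1⟩
      · simp only [if_neg hkl.symm]
        exact ⟨h2, s2, d2, fun e he hc => (l2 e he hc).1⟩)
    (fun r hr r' hr' hne hz hz' => by
      rcases (hZ r hr).1 hz with rfl | rfl <;> rcases (hZ r' hr').1 hz' with rfl | rfl
      · exact absurd rfl hne
      · simp only [if_pos, if_neg hkl.symm]
        exact ⟨d3, fun e he hc => (l1 e he hc).2⟩
      · simp only [if_pos, if_neg hkl.symm]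
        exact ⟨d3.symm, fun e he hc => (l2 e he hc).2⟩
      · exact absurd rfl hne)
    (fun v => by
      rw [union_assoc, mem_union, mem_union]
      refine or_congr_right ⟨?_, ?_⟩
      · rintro (hv | hv)
        · exact ⟨k, hk, zk, by rwa [if_pos rfl]⟩
        · exact ⟨l, hl, zl, by rwa [if_neg hkl.symm]⟩
      · rintro ⟨r, -, -, hv⟩
        split_ifs at hv
        exacts [Or.inl hv, Or.inr hv])
    fun t ht => by
      rcases ht with (ht | ht) | ht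
      · exact Or.inl ht
      · exact Or.inr ⟨k, hk, zk, by rwa [if_pos rfl]⟩
      · exact Or.inr ⟨l, hl, zl, by rwa [if_neg hkl.symm]⟩
  have hn : ∀ r ≤ M.n i, r ≠ k → r ≠ l → M.w i r ∉ Zs := fun r hr n1 n2 hz =>
    ((hZ r hr).1 hz).elim n1 n2
  refine ⟨O, ?_, a2 _ fun Rs hR s => Rl.ch_gg hk hl hkl
    (fun r hr n1 n2 => ⟨_, (hR r hr).2 (hn r hr n1 n2)⟩) ((hR k hk).1 zk) ((hR l hl).1 zl) s⟩
  rw [a1, sum_eq_add_of_mem k l (mem_range.2 (Nat.lt_succ_of_le hk))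
    (mem_range.2 (Nat.lt_succ_of_le hl)) hkl
    fun r hr hne => if_neg (hn r (Nat.lt_succ_iff.1 (mem_range.1 hr)) hne.1 hne.2), add_assoc]
  simp only [if_pos zk, if_pos zl, if_pos, if_neg hkl.symm]

theorem bk_std (h : F.Ok G T) (hM : F.IsM G M) (hk : F.Nd M i k) (hZ : M.w i k ∉ Zs)
    (hK : F.ko G M σ i Zs ⊆ K) (hX : M.w i k ∩ X = F.xs M σ i k) : G.BK1 (M.w i k) X K v := by
  obtain ⟨c, d, h1⟩ := hM.q4 h hk
  refine Or.inr (Or.inl ⟨_, _, c, d, h1, hX ▸ xs_rg h hk h1, fun t ht => ⟨t, hK ?_, Subset.rfl⟩⟩)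
  exact ⟨k, hk, hZ, c, d, h1, hX ▸ SG.kpv_sub ht⟩

end Kf

end Pool.Agent.Work.MP_8c679b_co
end

-- merged part: Pool.Agent.Work.MP_8c679b_co.Key.ST2
section
/-!
Structures: both tracks, then the rest.

Hints.  Use `trk0, trk1, trk2` for the tracks, `two_trk` (with `XQ = ∅`, `abs0_empty`, if nothing
is absorbed last), `kfin` or `kfin'`.  The second slope is
`t = if F.f then F.ts false + F.ts true + 1 + F.lam false else F.lam true` in `st_plain`, `st_one`;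
closing by `Rl.P.mt`, `cl_pm`, `cl_g2`; `tz_ins`, `tz_off` relate `F.ts` and `F.tz`.  Bookkeeping:
`IsM.box`, `bk_std`, `BK1.congr`.  The absorbed set is the complement of the set in the last
hypothesis (`mem_W0`, `mem_xo`).  In `uc_two` use the live set
`(L1 ∩ G.cut X1) ∪ (L2 ∩ G.cut X2)`; for two rings `F.f = false` by `F.Ok.fr`.
-/

set_option autoImplicit false

namespace Pool.Agent.Work.MP_8c679b_co

open Finset

variable {V E : Type} [Fintype V] [DecidableEq V] [DecidableEq E] {G : SG V E}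
  {T U Z X B N N' : Finset V} {F : Kf V E} {M M' : Mb V E} {i j : Bool} {k l x y m : ℕ}
  {σ σ' π : Finset V → ZMod 2} {u : ℕ → Finset V} {h : ℕ → E} {a b c d e f : E} {v : V}
  {Zs : Finset (Finset V)} {g s : ZMod 2}
  {X' X1 X2 XQ : Finset V} {O O' O1 O2 OQ L L1 L2 : Finset E} {K K' K1 K2 KQ : Set (Finset E)}
  {t : ZMod 2}

namespace Kf

theorem ST2_mem (h : F.Ok G T) (hM : F.IsM G M) (hv : v ∈ F.xo M σ j Zs) :
    ∃ l ≤ M.n j, M.w j l ∉ Zs ∧ v ∈ F.xs M σ j l ∧ v ∈ M.w j l := by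
  obtain ⟨l, h1, h2, h3⟩ := mem_xo.1 hv
  exact ⟨l, h1, h2, h3, (xs_sub h hM h1).1 h3⟩

theorem ST2_sub (h : F.Ok G T) (hM : F.IsM G M) : F.xo M σ j Zs ⊆ F.Y := fun _ hv => by
  obtain ⟨l, h1, -, -, h3⟩ := ST2_mem h hM hv
  exact (hM.node h.wf h1).2.2.1 h3

theorem ST2_rest (h : F.Ok G T) (hM : F.IsM G M) (hv : v ∈ F.rest M) : v ∉ F.xo M σ j Zs :=
  fun k => by
    obtain ⟨l, h1, -, -, h3⟩ := ST2_mem h hM k
    exact (mem_rest.1 hv).2 j l h1 h3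

theorem ST2_node (h : F.Ok G T) (hM : F.IsM G M) (hk : k ≤ M.n i) (hv : v ∈ M.w i k)
    (hx : v ∈ F.xo M σ j Zs) : j = i ∧ M.w i k ∉ Zs ∧ v ∈ F.xs M σ i k := by
  obtain ⟨l, h1, h2, h3, h4⟩ := ST2_mem h hM hx
  by_cases e : j = i ∧ l = k
  · obtain ⟨rfl, rfl⟩ := e
    exact ⟨rfl, h2, h3⟩
  · exact absurd h4 (disjoint_left.1 (hM.disj h.wf hk h1 e) hv)

theorem ST2_dis (h : F.Ok G T) (hM : F.IsM G M) :
    Disjoint (F.xo M σ i Zs) (F.xo M σ (!i) Zs) := disjoint_left.2 fun _ hv k => by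
  obtain ⟨l, h1, -, -, h3⟩ := ST2_mem h hM hv
  simpa using (ST2_node h hM h1 h3 k).1

theorem ST2_bk (h : F.Ok G T) (hM : F.IsM G M) (hk : F.Nd M j l) (hZ : M.w j l ∉ Zs)
    (hd : Disjoint (M.w j l) X') :
    G.BK1 (M.w j l) (F.xo M σ i Zs ∪ X' ∪ F.xo M σ (!i) Zs)
      (F.ko G M σ i Zs ∪ K' ∪ F.ko G M σ (!i) Zs) v := by
  have e : j = i ∨ j = !i := by cases i <;> cases j <;> simp
  refine bk_std (σ := σ) h hM hk hZ ?_ ?_
  · rcases e with rfl | rfl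
    exacts [Set.subset_union_left.trans Set.subset_union_left, Set.subset_union_right]
  · ext x
    simp only [mem_inter, mem_union]
    constructor
    · rintro ⟨h1, (h2 | h2) | h2⟩
      exacts [(ST2_node h hM hk.1 h1 h2).2.2, absurd h2 (disjoint_left.1 hd h1),
        (ST2_node h hM hk.1 h1 h2).2.2]
    · intro h1
      have h2 : x ∈ F.xo M σ j Zs := mem_xo.2 ⟨l, hk.1, hZ, h1⟩
      refine ⟨(xs_sub h hM hk.1).1 h1, ?_⟩
      rcases e with rfl | rfl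
      exacts [Or.inl (Or.inl h2), Or.inr h2]

theorem ST2_two {r : ZMod 2} (hw : F.Wf G) (i : Bool)
    (h1 : G.Pas0 X1 O1 (F.p i) (F.q i) ∅ K1 (Rl.Mt r))
    (h2 : G.Pas0 X2 O2 (F.p (!i)) (F.q (!i)) ∅ K2 (Rl.P s)) (s1 : X1 ⊆ F.Y) (s2 : X2 ⊆ F.Y)
    (hd : Disjoint X1 X2)
    (hs : if F.ty then r = s + F.lam false + t else
      r = (if i then t else F.lam false) ∧ s + 1 = if i then F.lam false else t) :
    F.WkF G (X1 ∪ X2) t (G.par (O1 ∩ G.ins X1) + G.par (O2 ∩ G.ins X2)) (K1 ∪ K2) := by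
  cases i
  · have := two_trk (t := t) hw (X := fun j => cond j X2 X1) (O := fun j => cond j O2 O1)
      (L := fun _ => ∅) (K := fun j => cond j K2 K1) (C := fun j => cond j (Rl.P s) (Rl.Mt r))
      false (fun j => by cases j; exacts [h1, h2]) (fun j => by cases j; exacts [s1, s2]) hd
      SG.abs0_empty (empty_subset _) (fun _ => disjoint_empty_right _) (by simp)
      fun R hR => cl_pm (i := false) (hR false) (hR true) hs
    simpa [SG.par] using this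
  · have := two_trk (t := t) hw (X := fun j => cond j X1 X2) (O := fun j => cond j O1 O2)
      (L := fun _ => ∅) (K := fun j => cond j K1 K2) (C := fun j => cond j (Rl.Mt r) (Rl.P s))
      false (fun j => by cases j; exacts [h2, h1]) (fun j => by cases j; exacts [s2, s1]) hd.symm
      SG.abs0_empty (empty_subset _) (fun _ => disjoint_empty_right _) (by simp)
      fun R hR => cl_pm (i := true) (hR true) (hR false) hs
    rw [union_comm, Set.union_comm, add_comm]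
    simpa [SG.par] using this

theorem ST2_ar : ∀ (ty f i : Bool) (lam τ : Bool → ZMod 2), (f = true → ty = true) →
    MB5_C ty f lam τ → ∃ t, (f = true ∨ t = lam true) ∧
      τ i + τ (!i) = (if ty then 1 else 0) + lam false + t ∧
      if ty then τ i + 1 = τ (!i) + lam false + t else
        τ i + 1 = (if i then t else lam false) ∧ τ (!i) + 1 = if i then lam false else t := by
  decide

omit [Fintype V] in
theorem ST2_t (h : F.Ok G T) (hc : F.Cls G M σ) (i : Bool) : ∃ t, (F.f = true ∨ t = F.lam true) ∧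
    F.ts G M σ i + F.ts G M σ (!i) = F.nat + F.lam false + t ∧
    if F.ty then F.ts G M σ i + 1 = F.ts G M σ (!i) + F.lam false + t else
      F.ts G M σ i + 1 = (if i then t else F.lam false) ∧
        F.ts G M σ (!i) + 1 = if i then F.lam false else t :=
  ST2_ar F.ty F.f i F.lam (F.ts G M σ) h.fr hc

theorem st_plain (h : F.Ok G T) (hM : F.IsM G M) (hc : F.Cls G M σ)
    (hq : ∀ j, F.QS G M σ σ j ∅) :
    ∃ Ds, G.VD (F.W0 M σ) ∅ Ds ∧ ∀ ε, G.CSp (F.W0 M σ) Ds ε → F.WinN G (F.nat + ε) := by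
  obtain ⟨t, t1, t2, t3⟩ := ST2_t h hc false
  obtain ⟨O1, p1, h1⟩ := trk0 h hM (hq false) fun _ _ => notMem_empty _
  obtain ⟨O2, p2, h2⟩ := trk0 h hM (hq true) fun _ _ => notMem_empty _
  have hw := ST2_two h.wf false (h1.imp fun _ k => k.mt) h2 (ST2_sub h hM) (ST2_sub h hM)
    (ST2_dis h hM) t3
  obtain ⟨Ds, d1, d2⟩ := kfin h (union_subset (ST2_sub h hM) (ST2_sub h hM)) hw (Or.inl rfl)
    fun B hB => by
      rcases hM.box h.wf hB with k | ⟨j, l, k, rfl⟩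
      · exact Or.inl (disjoint_left.2 fun x hx k' =>
          (mem_union.1 k').elim (ST2_rest h hM (k hx)) (ST2_rest h hM (k hx)))
      · simpa using ST2_bk (σ := σ) (i := false) (K' := ∅) (v := F.v0) h hM k (notMem_empty _)
          (disjoint_empty_right _)
  rw [xo_off fun _ _ => notMem_empty _, xo_off fun _ _ => notMem_empty _] at d1 d2
  refine ⟨Ds, d1, fun ε hε => ⟨t, t1, F.v0, h.v0, ?_⟩⟩
  have e : F.nat + ε + F.lam false + t = F.tz G M σ false ∅ + F.tz G M σ true ∅ + ε := by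
    change F.tz G M σ false ∅ + F.tz G M σ true ∅ = _ at t2
    rw [t2]
    ring
  rw [e, ← p1, ← p2]
  simpa only [xo_off fun _ _ => notMem_empty _] using d2 ε hε

theorem st_one (h : F.Ok G T) (hM : F.IsM G M) (hc : F.Cls G M σ) (hk : F.Nd M i k)
    (hq : ∀ j, F.QS G M σ π j {M.w i k})
    (hp : G.Pas0 X' O' (F.e M i k) (F.e M i (k + 1)) ∅ K' (Rl.Mt (σ (M.w i k) + 1)))
    (hX : X' ⊆ M.w i k ∪ F.rest M) (hv : v = F.v0 ∨ ∃ B ∈ F.Bs, v ∈ B)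
    (hb : ∀ B ∈ F.Bs, (B = M.w i k ∨ B ⊆ F.rest M) → G.BK1 B X' K' v)
    (hg : G.FH ((F.W0 M σ ∪ M.w i k) \ X') ∨
      g = F.nat + (F.tz G M σ false {M.w i k} + F.tz G M π false {M.w i k}) +
        (F.tz G M σ true {M.w i k} + F.tz G M π true {M.w i k}) +
        (σ (M.w i k) + G.par (O' ∩ G.ins X')) + G.nu ((F.W0 M σ ∪ M.w i k) \ X')) :
    F.WinN G g := by
  obtain ⟨t, t1, t2, t3⟩ := ST2_t h hc i
  have hN := (hM.node h.wf hk.1).2.2.1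
  have hY : X' ⊆ F.Y := hX.trans (union_subset hN sdiff_subset)
  have hno : ∀ j x, x ∈ M.w i k ∪ F.rest M → x ∉ F.xo M σ j {M.w i k} := fun j x hx k' =>
    (mem_union.1 hx).elim (fun a => (ST2_node h hM hk.1 a k').2.1 (mem_singleton_self _))
      fun a => ST2_rest h hM a k'
  have hZ : ∀ l ≤ M.n (!i), M.w (!i) l ∉ ({M.w i k} : Finset (Finset V)) := fun l hl k' => by
    simpa using (hM.inj hk.1 hl (mem_singleton.1 k').symm).1
  obtain ⟨O1, p1, h1, -⟩ := trk1 h hM (hq i) hk.1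
    (fun l hl => ⟨fun k' => (hM.inj hk.1 hl (mem_singleton.1 k').symm).2,
      fun k' => k' ▸ mem_singleton_self _⟩) hp hY
    (disjoint_right.2 fun x hx => hno i x (hX hx)) (by simp)
  obtain ⟨O2, p2, h2⟩ := trk0 h hM (hq (!i)) hZ
  have e1 : F.ts G M σ i = F.tz G M σ i {M.w i k} + σ (M.w i k) :=
    tz_ins hM hk (notMem_empty _)
  have e2 : F.ts G M σ (!i) = F.tz G M σ (!i) {M.w i k} :=
    tz_off fun l hl => iff_of_false (notMem_empty _) (hZ l hl.1)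
  rw [e1, e2] at t2 t3
  have s1 := union_subset (ST2_sub (σ := σ) (j := i) (Zs := {M.w i k}) h hM) hY
  have hw := ST2_two h.wf i (h1 _ fun _ k' => k') h2 s1 (ST2_sub h hM)
    (disjoint_union_left.2 ⟨ST2_dis h hM, disjoint_left.2 fun x hx => hno _ x (hX hx)⟩) t3
  have eW : F.Y \ (F.xo M σ i {M.w i k} ∪ X' ∪ F.xo M σ (!i) {M.w i k}) =
      (F.W0 M σ ∪ M.w i k) \ X' := by
    ext x
    simp only [mem_sdiff, mem_union, not_or, MB4_W0]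
    constructor
    · rintro ⟨a1, ⟨a2, a3⟩, a4⟩
      refine ⟨or_iff_not_imp_right.2 fun b => ⟨a1, fun j l hl k' => ?_⟩, a3⟩
      have b1 : x ∈ F.xo M σ j {M.w i k} := mem_xo.2 ⟨l, hl, fun k2 =>
        b (mem_singleton.1 k2 ▸ (xs_sub h hM hl).1 k'), k'⟩
      have e : j = i ∨ j = !i := by cases i <;> cases j <;> simp
      rcases e with rfl | rfl
      exacts [a2 b1, a4 b1]
    · rintro ⟨a1 | a1, a2⟩
      · have b : ∀ j, x ∉ F.xo M σ j {M.w i k} := fun j k' => by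
          obtain ⟨l, b1, -, b2⟩ := mem_xo.1 k'
          exact a1.2 j l b1 b2
        exact ⟨a1.1, ⟨b _, a2⟩, b _⟩
      · exact ⟨hN a1, ⟨hno _ x (mem_union_left _ a1), a2⟩, hno _ x (mem_union_left _ a1)⟩
  refine kfin' h (union_subset s1 (ST2_sub h hM)) hw hv (fun B hB => ?_) t1 ?_
  · by_cases e : B = M.w i k ∨ B ⊆ F.rest M
    · refine (hb B hB e).congr ?_ (Set.subset_union_right.trans Set.subset_union_left)
      have b : ∀ x ∈ B, x ∈ M.w i k ∪ F.rest M := fun x hx =>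
        mem_union.2 (e.imp (fun k' : B = M.w i k => k' ▸ hx) fun k' => k' hx)
      ext x
      simp only [mem_inter, mem_union]
      exact and_congr_right fun hx => ⟨fun k' => (k'.resolve_right (hno _ x (b x hx))).resolve_left
        (hno _ x (b x hx)), fun k' => Or.inl (Or.inr k')⟩
    · obtain ⟨j, l, k', rfl⟩ := (hM.box h.wf hB).resolve_left fun k' => e (Or.inr k')
      have b : M.w j l ≠ M.w i k := fun k2 => e (Or.inl k2)
      refine ST2_bk h hM k' (fun k2 => b (mem_singleton.1 k2)) (Disjoint.mono_right hX ?_)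
      refine disjoint_union_right.2 ⟨hM.disj h.wf k'.1 hk.1 ?_, rest_disj k'.1⟩
      rintro ⟨rfl, rfl⟩
      exact b rfl
  · rw [eW, p1, p2]
    refine hg.imp id fun k' => ?_
    rw [k']
    have z := z2_add_self (F.nat + F.lam false + t)
    cases i
    · simp only [Bool.not_false] at t2 ⊢
      linear_combination t2 + z
    · simp only [Bool.not_true] at t2 ⊢
      linear_combination t2 + z

theorem ST2_uo (h : F.Ok G T) (hM : F.IsM G M) (hv : v ∈ F.xo M σ i Zs) :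
    v ∈ F.Y ∧ v ∉ F.rest M ∧ ∃ k ≤ M.n i, M.w i k ∉ Zs ∧ v ∈ F.xs M σ i k ∧
      ∀ j, ∀ l ≤ M.n j, v ∈ M.w j l → j = i ∧ l = k := by
  obtain ⟨k, hk, h1, h2⟩ := mem_xo.1 hv
  have h3 := (xs_sub (σ := σ) h hM hk).1 h2
  refine ⟨(hM.node h.wf hk).2.2.1 h3, disjoint_left.1 (rest_disj hk) h3, k, hk, h1, h2,
    fun j l hl h4 => ?_⟩
  by_contra h5
  exact disjoint_left.1 (hM.disj h.wf hk hl h5) h3 h4

theorem ST2_ud (h : F.Ok G T) (hM : F.IsM G M) (hk : k ≤ M.n j) (hZ : M.w j k ∈ Zs ∨ j = !i)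
    (hX : X ⊆ M.w j k ∪ F.rest M) : Disjoint (F.xo M σ i Zs) X := by
  refine disjoint_left.2 fun v hv h1 => ?_
  obtain ⟨-, h2, l, -, h3, -, h4⟩ := ST2_uo h hM hv
  rcases mem_union.1 (hX h1) with h5 | h5
  · obtain ⟨rfl, rfl⟩ := h4 j k hk h5
    exact hZ.elim h3 (by simp)
  · exact h2 h5

theorem ST2_ue (h : F.Ok G T) (hM : F.IsM G M) {Zs' : Finset (Finset V)} :
    Disjoint (F.xo M σ i Zs) (F.xo M σ (!i) Zs') := by
  refine disjoint_left.2 fun v hv h1 => ?_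
  obtain ⟨k, hk, -, h2⟩ := mem_xo.1 h1
  exact disjoint_left.1 (ST2_ud h hM hk (Or.inr rfl) subset_union_left) hv
    ((xs_sub (σ := σ) h hM hk).1 h2)

theorem ST2_u2 (hw : F.Wf G) {C1 C2 : Rl → Prop} (h1 : G.Pas0 X1 O1 (F.p i) (F.q i) L1 K1 C1)
    (h2 : G.Pas0 X2 O2 (F.p (!i)) (F.q (!i)) L2 K2 C2) (hQ : G.Abs0 XQ OQ ∅ KQ) (s1 : X1 ⊆ F.Y)
    (s2 : X2 ⊆ F.Y) (sQ : XQ ⊆ F.Y) (d1 : Disjoint X1 X2) (d2 : Disjoint X1 XQ)
    (d3 : Disjoint X2 XQ)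
    (l1 : ∀ e ∈ L1, e ∈ G.cut X1 → e ∈ G.tch XQ ∨ (F.ty = false ∧ e ∈ G.tch X2))
    (l2 : ∀ e ∈ L2, e ∈ G.cut X2 → e ∈ G.tch XQ)
    (hC : ∀ R : Bool → Rl, C1 (R i) → C2 (R (!i)) → CL F.ty (F.lam false) t R) :
    F.WkF G (X1 ∪ X2 ∪ XQ) t (G.par (O1 ∩ G.ins X1) + G.par (O2 ∩ G.ins X2) + G.par OQ)
      (K1 ∪ K2 ∪ KQ) := by
  cases i
  · exact two_trk hw (X := fun r => bif r then X2 else X1) (O := fun r => bif r then O2 else O1)
      (L := fun r => bif r then L2 else L1) (K := fun r => bif r then K2 else K1)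
      (C := fun r => bif r then C2 else C1) false (Bool.forall_bool.2 ⟨h1, h2⟩)
      (Bool.forall_bool.2 ⟨s1, s2⟩) d1 hQ sQ (Bool.forall_bool.2 ⟨d2, d3⟩)
      (Bool.forall_bool.2 ⟨fun e k1 k2 => (l1 e k1 k2).imp_right fun k => ⟨k.1, rfl, k.2⟩,
        fun e k1 k2 => Or.inl (l2 e k1 k2)⟩) fun R k => hC R (k false) (k true)
  · rw [union_comm X1, add_comm (G.par (O1 ∩ G.ins X1)), Set.union_comm K1]
    exact two_trk hw (X := fun r => bif r then X1 else X2) (O := fun r => bif r then O1 else O2)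
      (L := fun r => bif r then L1 else L2) (K := fun r => bif r then K1 else K2)
      (C := fun r => bif r then C1 else C2) true (Bool.forall_bool.2 ⟨h2, h1⟩)
      (Bool.forall_bool.2 ⟨s2, s1⟩) d1.symm hQ sQ (Bool.forall_bool.2 ⟨d3, d2⟩)
      (Bool.forall_bool.2 ⟨fun e k1 k2 => Or.inl (l2 e k1 k2),
        fun e k1 k2 => (l1 e k1 k2).imp_right fun k => ⟨k.1, rfl, k.2⟩⟩)
      fun R k => hC R (k true) (k false)

theorem ST2_uf {r : Bool} (h : F.Ok G T) (hM : F.IsM G M) (hk : k ≤ M.n i) (hl : l ≤ M.n j)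
    (hZ : Zs = {M.w i k, M.w j l}) (hX : X ⊆ M.w i k ∪ M.w j l ∪ F.rest M)
    (hX' : X' = F.xo M σ r Zs ∪ F.xo M σ (!r) Zs ∪ X)
    (hK' : K' = F.ko G M σ r Zs ∪ F.ko G M σ (!r) Zs ∪ K) (hw : F.WkF G X' t s K')
    (hb : ∀ B ∈ F.Bs, (B = M.w i k ∨ B = M.w j l ∨ B ⊆ F.rest M) → G.BK1 B X K F.v0)
    (ht : F.f = true ∨ t = F.lam true)
    (hg : G.FH ((F.W0 M σ ∪ M.w i k ∪ M.w j l) \ X) ∨
      g + F.lam false + t = s + G.nu ((F.W0 M σ ∪ M.w i k ∪ M.w j l) \ X)) : F.WinN G g := by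
  have m1 : ∀ v, v ∈ X' ↔ (∃ r', v ∈ F.xo M σ r' Zs) ∨ v ∈ X := fun v => by
    rw [hX', mem_union, mem_union]
    cases r <;> simp [or_comm]
  have m2 : ∀ r', F.ko G M σ r' Zs ⊆ K' := fun r' => by
    rw [hK']
    by_cases hr : r' = r
    · exact hr ▸ Set.subset_union_left.trans Set.subset_union_left
    · exact (Bool.eq_not_iff.2 hr) ▸ Set.subset_union_right.trans Set.subset_union_left
  have z1 : M.w i k ∈ Zs := by simp [hZ]
  have z2 : M.w j l ∈ Zs := by simp [hZ]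
  have y1 := (hM.node h.wf hk).2.2.1
  have y2 := (hM.node h.wf hl).2.2.1
  have y3 : F.rest M ⊆ F.Y := sdiff_subset
  have n1 : ∀ r' v, v ∈ F.xo M σ r' Zs → v ∉ M.w i k ∧ v ∉ M.w j l ∧ v ∉ F.rest M :=
    fun r' v hv => ⟨disjoint_left.1 (ST2_ud h hM hk (Or.inl z1) subset_union_left) hv,
      disjoint_left.1 (ST2_ud h hM hl (Or.inl z2) subset_union_left) hv, (ST2_uo h hM hv).2.1⟩
  have e1 : F.Y \ X' = (F.W0 M σ ∪ M.w i k ∪ M.w j l) \ X := by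
    ext v
    simp only [mem_sdiff, m1, mem_union, MB4_W0, not_or, not_exists]
    constructor
    · rintro ⟨a1, a2, a3⟩
      refine ⟨?_, a3⟩
      by_contra a4
      simp only [not_or] at a4
      refine a4.1.1 ⟨a1, fun r' k' b1 b2 => a2 r' (mem_xo.2 ⟨k', b1, fun b3 => ?_, b2⟩)⟩
      have b4 := (xs_sub (σ := σ) h hM b1).1 b2
      rw [hZ, mem_insert, mem_singleton] at b3
      rcases b3 with b3 | b3
      exacts [a4.1.2 (b3 ▸ b4), a4.2 (b3 ▸ b4)]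
    · rintro ⟨(a1 | a1) | a1, a2⟩
      · refine ⟨a1.1, fun r' b1 => ?_, a2⟩
        obtain ⟨k', b2, -, b3⟩ := mem_xo.1 b1
        exact a1.2 r' k' b2 b3
      · exact ⟨y1 a1, fun r' b1 => (n1 r' v b1).1 a1, a2⟩
      · exact ⟨y2 a1, fun r' b1 => (n1 r' v b1).2.1 a1, a2⟩
  refine kfin' h (fun v hv => ?_) hw (Or.inl rfl) (fun B hB => ?_) ht (e1 ▸ hg)
  · rcases (m1 v).1 hv with ⟨r', a1⟩ | a1
    exacts [(ST2_uo h hM a1).1, (hX.trans (union_subset (union_subset y1 y2) y3)) a1]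
  · by_cases hc : B = M.w i k ∨ B = M.w j l ∨ B ⊆ F.rest M
    · refine (hb B hB hc).congr ?_ (hK' ▸ Set.subset_union_right)
      ext v
      simp only [mem_inter, m1, and_congr_right_iff, or_iff_right_iff_imp]
      rintro a1 ⟨r', a2⟩
      obtain ⟨b1, b2, b3⟩ := n1 r' v a2
      rcases hc with rfl | rfl | hc
      exacts [absurd a1 b1, absurd a1 b2, absurd (hc a1) b3]
    · simp only [not_or] at hc
      obtain ⟨r', k', a1, rfl⟩ := (hM.box h.wf hB).resolve_left hc.2.2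
      have a2 : M.w r' k' ∉ Zs := by simp [hZ, hc.1, hc.2.1]
      refine bk_std h hM a1 a2 (m2 r') ?_
      ext v
      rw [mem_inter, m1]
      constructor
      · rintro ⟨b1, ⟨r'', b2⟩ | b2⟩
        · obtain ⟨-, -, k'', -, -, b3, b4⟩ := ST2_uo h hM b2
          obtain ⟨rfl, rfl⟩ := b4 r' k' a1.1 b1
          exact b3
        · exfalso
          rcases mem_union.1 (hX b2) with b3 | b3
          · rcases mem_union.1 b3 with b3 | b3
            · exact disjoint_left.1 (hM.disj h.wf a1.1 hk fun ⟨c1, c2⟩ => hc.1 (by rw [c1, c2]))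
                b1 b3
            · exact disjoint_left.1 (hM.disj h.wf a1.1 hl fun ⟨c1, c2⟩ => hc.2.1 (by rw [c1, c2]))
                b1 b3
          · exact disjoint_left.1 (rest_disj a1.1) b1 b3
      · exact fun b1 => ⟨(xs_sub (σ := σ) h hM a1.1).1 b1,
          Or.inl ⟨r', mem_xo.2 ⟨k', a1.1, a2, b1⟩⟩⟩

theorem uc_two (h : F.Ok G T) (hM : F.IsM G M) (ho : F.Oc G M σ i) (hs : F.Sg i j)
    (p1 : F.Ps M i N a b) (p2 : F.Ps M j N' c d) (hne : N ≠ N')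
    (hq : ∀ j', F.QS G M σ π j' {N, N'}) (h1 : G.Pas0 X1 O1 a b L1 K1 Rl.Gd)
    (h2 : G.Pas0 X2 O2 c d L2 K2 Rl.Gd) (hQ : G.Abs0 XQ OQ ∅ KQ) (s1 : X1 ⊆ N ∪ F.rest M)
    (s2 : X2 ⊆ N' ∪ F.rest M) (sQ : XQ ⊆ F.rest M) (d1 : Disjoint X1 X2) (d2 : Disjoint X1 XQ)
    (d3 : Disjoint X2 XQ)
    (l1 : ∀ e ∈ L1, e ∈ G.cut X1 → e ∈ G.tch XQ ∨ (F.ty = false ∧ e ∈ G.tch (F.xt M σ (!i))))
    (l2 : ∀ e ∈ L2, e ∈ G.cut X2 → e ∈ G.tch XQ ∨ (F.ty = false ∧ e ∈ G.tch (F.xt M σ (!i))))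
    (hb : ∀ B ∈ F.Bs, (B = N ∨ B = N' ∨ B ⊆ F.rest M) →
      G.BK1 B (X1 ∪ X2 ∪ XQ) (K1 ∪ K2 ∪ KQ) F.v0)
    (ht : F.f = true ∨ t = F.lam true)
    (hg : G.FH ((F.W0 M σ ∪ N ∪ N') \ (X1 ∪ X2 ∪ XQ)) ∨
      g + F.lam false + t = F.tz G M π false {N, N'} + F.tz G M π true {N, N'} +
        (G.par (O1 ∩ G.ins X1) + G.par (O2 ∩ G.ins X2) + G.par OQ) +
        G.nu ((F.W0 M σ ∪ N ∪ N') \ (X1 ∪ X2 ∪ XQ))) : F.WinN G g := by
  obtain ⟨k, hk, rfl, rfl, rfl⟩ := p1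
  obtain ⟨l, hl, rfl, rfl, rfl⟩ := p2
  generalize hZ : ({M.w i k, M.w j l} : Finset (Finset V)) = Zs at hq hg
  have z1 : M.w i k ∈ Zs := by simp [← hZ]
  have z2 : M.w j l ∈ Zs := by simp [← hZ]
  have z3 : ∀ r, ∀ x ≤ M.n r, M.w r x ∈ Zs ↔ (i = r ∧ k = x) ∨ (j = r ∧ l = x) := fun r x hx => by
    rw [← hZ, mem_insert, mem_singleton]
    refine or_congr ⟨hM.inj hx hk, ?_⟩ ⟨hM.inj hx hl, ?_⟩ <;> rintro ⟨rfl, rfl⟩ <;> rfl
  have y3 : F.rest M ⊆ F.Y := sdiff_subset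
  have y1 := s1.trans (union_subset (hM.node h.wf hk).2.2.1 y3)
  have y2 := s2.trans (union_subset (hM.node h.wf hl).2.2.1 y3)
  have y0 : ∀ r, F.xo M σ r Zs ⊆ F.Y := fun r v hv => (ST2_uo h hM hv).1
  have o1 : ∀ r, Disjoint (F.xo M σ r Zs) X1 := fun r => ST2_ud h hM hk (Or.inl z1) s1
  have o2 : ∀ r, Disjoint (F.xo M σ r Zs) X2 := fun r => ST2_ud h hM hl (Or.inl z2) s2
  have oQ : ∀ r, Disjoint (F.xo M σ r Zs) XQ := fun r =>
    ST2_ud h hM hk (Or.inl z1) (sQ.trans subset_union_right)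
  have oo : Disjoint (F.xo M σ i Zs) (F.xo M σ (!i) Zs) := ST2_ue h hM
  have hX : X1 ∪ X2 ∪ XQ ⊆ M.w i k ∪ M.w j l ∪ F.rest M :=
    union_subset (union_subset (s1.trans (union_subset_union_left subset_union_left))
      (s2.trans (union_subset_union_left subset_union_right))) (sQ.trans subset_union_right)
  have hπ : F.tz G M π false Zs + F.tz G M π true Zs = F.tz G M π i Zs + F.tz G M π (!i) Zs := by
    cases i
    exacts [rfl, add_comm _ _]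
  rw [hπ] at hg
  by_cases hji : j = i
  · subst hji
    have z4 : ∀ x ≤ M.n (!j), M.w (!j) x ∉ Zs := fun x hx => by simp [z3 _ x hx]
    rw [← xo_off z4] at l1 l2
    obtain ⟨L, hL⟩ : ∃ L : Finset E, ∀ e, e ∈ L ↔
        e ∈ G.tch XQ ∨ (F.ty = false ∧ e ∈ G.tch (F.xo M σ (!j) Zs)) :=
      ⟨G.tch XQ ∪ (G.tch (F.xo M σ (!j) Zs)).filter fun _ => F.ty = false, fun e => by
        rw [mem_union, mem_filter, and_comm]⟩
    have lv : ∀ {A B : Finset V}, Disjoint A B → Disjoint A XQ → Disjoint B XQ →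
        Disjoint (F.xo M σ (!j) Zs) A → Disjoint (F.xo M σ (!j) Zs) B →
        ∀ e ∈ L, e ∈ G.cut A → e ∉ G.tch B := fun a1 a2 a3 a4 a5 e a6 a7 =>
      ((hL e).1 a6).elim (SG.FIN_three a1 a2 a3 (SG.cut_sub_tch a7))
        fun a8 => SG.FIN_three a1 a4.symm a5.symm (SG.cut_sub_tch a7) a8.2
    obtain ⟨Oa, a1, a2⟩ := trk2 (L := L) h hM (hq j) hk hl (fun e => hne (by rw [e]))
      (fun x hx => by simp [z3 _ x hx, eq_comm])
      (h1.monoL fun e b1 b2 => (hL e).2 (l1 e b2 b1))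
      (h2.monoL fun e b1 b2 => (hL e).2 (l2 e b2 b1)) y1 y2 (o1 j) (o2 j) d1
      (fun e b1 b2 => ⟨lv (o1 j).symm d2 (oQ j) (o1 _) oo.symm e b1 b2,
        lv d1 d2 d3 (o1 _) (o2 _) e b1 b2⟩)
      (fun e b1 b2 => ⟨lv (o2 j).symm d3 (oQ j) (o2 _) oo.symm e b1 b2,
        lv d1.symm d3 d2 (o2 _) (o1 _) e b1 b2⟩)
    obtain ⟨Ob, b1, b2⟩ := trk0 h hM (hq (!j)) z4
    have hw := ST2_u2 (t := t) h.wf a2 b2 hQ (union_subset (union_subset (y0 j) y1) y2) (y0 _)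
      (sQ.trans y3) (by simp only [disjoint_union_left]; exact ⟨⟨oo, (o1 _).symm⟩, (o2 _).symm⟩)
      (by simp only [disjoint_union_left]; exact ⟨⟨oQ j, d2⟩, d3⟩) (oQ _)
      (fun e c1 _ => (hL e).1 c1) (fun e c1 => absurd c1 (notMem_empty e)) fun R c1 c2 => by
        by_cases hty : F.ty = true
        · refine cl_pm (c1 (F.tz G M σ (!j) Zs + F.lam false + t)) c2 ?_
          rw [if_pos hty]
        · refine cl_pm (c1 (if j then t else F.lam false)) c2 ?_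
          rw [if_neg hty]
          have c3 : t = F.lam true := ht.resolve_left fun c => hty (h.fr c)
          have c4 := ho (by simpa using hty)
          have c5 : F.tz G M σ (!j) Zs = F.ts G M σ (!j) :=
            tz_off fun x hx => by simp [z4 x hx.1]
          refine ⟨rfl, ?_⟩
          rw [c5, c4, c3, add_assoc, CharTwo.add_self_eq_zero, add_zero]
          cases j <;> rfl
    refine ST2_uf (r := j) h hM hk hl hZ.symm hX (by ac_rfl) (by ac_rfl) hw hb ht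
      (hg.imp_right fun c => ?_)
    rw [c, a1, b1]
    ring
  · obtain rfl : j = !i := Bool.eq_not_iff.2 hji
    have hty : F.ty = true := hs.resolve_right fun c => hji c.symm
    have l3 : ∀ e ∈ G.cut X1, e ∈ L1 → e ∈ G.tch XQ := fun e b1 b2 =>
      (l1 e b2 b1).resolve_right fun c => by simp [hty] at c
    have l4 : ∀ e ∈ G.cut X2, e ∈ L2 → e ∈ G.tch XQ := fun e b1 b2 =>
      (l2 e b2 b1).resolve_right fun c => by simp [hty] at c
    obtain ⟨Oa, a1, -, a2⟩ := trk1 h hM (hq i) hk (fun x hx => by simp [z3 _ x hx, eq_comm])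
      (h1.monoL l3) y1 (o1 i) fun e b1 b2 =>
        SG.FIN_three (o1 i).symm d2 (oQ i) (SG.cut_sub_tch b2) b1
    obtain ⟨Ob, b1, -, b2⟩ := trk1 h hM (hq (!i)) hl (fun x hx => by simp [z3 _ x hx, eq_comm])
      (h2.monoL l4) y2 (o2 _) fun e b1 b2 =>
        SG.FIN_three (o2 _).symm d3 (oQ _) (SG.cut_sub_tch b2) b1
    have hw := ST2_u2 (t := t) h.wf (a2 fun _ => id) (b2 fun _ => id) hQ (union_subset (y0 i) y1)
      (union_subset (y0 _) y2) (sQ.trans y3)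
      (by
        simp only [disjoint_union_left, disjoint_union_right]
        exact ⟨⟨oo, (o1 _).symm⟩, o2 i, d1⟩)
      (disjoint_union_left.2 ⟨oQ i, d2⟩) (disjoint_union_left.2 ⟨oQ _, d3⟩)
      (fun e c1 _ => Or.inl c1) (fun e c1 _ => c1) fun R c1 c2 => by
        rw [hty]
        refine cl_g2 fun r => ?_
        by_cases hr : r = i
        exacts [hr ▸ c1, (Bool.eq_not_iff.2 hr) ▸ c2]
    refine ST2_uf (r := i) h hM hk hl hZ.symm hX (by ac_rfl) (by ac_rfl) hw hb ht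
      (hg.imp_right fun c => ?_)
    rw [c, a1, b1]
    ring

end Kf

end Pool.Agent.Work.MP_8c679b_co
end

-- merged part: Pool.Agent.Work.MP_8c679b_co.Key.C1
section
/-!
Local wins, real passes, the parity rule.

Hints.  `qs_def`: `Pk.qr` at every box position; a box has one position (`IsM.inj`); the order of
`c, d` does not matter (`Q4.uniq`, `kp_swap`).
`lw1_win`: `st_one` with `π` from `qs_def` and the pass whose parity makes the equation true;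
`BK1`: second case for the node, first case for boxes in the rest.
`lw2_win`: first `st_one` with `X' = X`, `v = G.ie X x` for a link `x` (third case of `BK1` by
`cross_link`), `P.mt`.  If `W1 = (W0 ∪ N) \ X` is not `FH`, the tail `N \ X` (cut four by `Sp.link`)
is an isolated four-cycle (`ocs_box` or `us_iso`); the second pass on `X'` has the same parity and
`nu_drop` shows that the rest has the other value of `nu`; one of the two equations holds.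
`pkg`: `Pk.alt`.  `par0`: `st_plain`, `par_all`.
`qs_flip`: for the changed node apply `pkg` to `fl (fl σ _) _` (`cls_fl2`, `fl_xs`); for the other
nodes apply it to `σ`.
`rg_tp`: `st_one` with `X' = N`, `π = σ`, `nu_drop` (`ocs_disj`, `rung_on`, `par0`).
`rg_one`: `pkg` gives `DPn N X a b x y` for `X = F.xs`; with `l = σ N + 1` get `t, v`.  The two
paths from the end of `x` to the end of `y` in the rung, the edge `r` and `D.erase r`, have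
different signs (`Cc.compl`, `Jn`); `pure_p` and `wk_close` for the one of sign
`t + G.n x + G.n y`; `st_one`, `nu_drop`.  Boxes in the rest are disjoint from `D` (`ocs_box`).
-/

set_option autoImplicit false

namespace Pool.Agent.Work.MP_8c679b_co

open Finset

variable {V E : Type} [Fintype V] [DecidableEq V] [DecidableEq E] {G : SG V E}
  {T U Z X B N N' : Finset V} {F : Kf V E} {M M' : Mb V E} {i j : Bool} {k l x y m : ℕ}
  {σ σ' π : Finset V → ZMod 2} {u : ℕ → Finset V} {h : ℕ → E} {a b c d e f : E} {v : V}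
  {Zs : Finset (Finset V)} {g s : ZMod 2}
  {D : Finset E} {π' : ZMod 2}

namespace Kf

theorem qs_def (h : F.Ok G T) (hM : F.IsM G M) (σ : Finset V → ZMod 2) :
    ∃ π, ∀ j, F.QS G M σ π j ∅ := by
  have k : ∀ N : Finset V, ∃ p, ∀ j k, F.Nd M j k → M.w j k = N → ∀ c d,
      G.Q4 (M.w j k) (F.e M j k) (F.e M j (k + 1)) c d →
      G.Qr (M.w j k) (F.xs M σ j k) (F.e M j k) (F.e M j (k + 1)) c d (σ (M.w j k)) p := by
    intro N
    by_cases c1 : ∃ j k, F.Nd M j k ∧ M.w j k = N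
    · obtain ⟨j, k, h1, rfl⟩ := c1
      obtain ⟨c, d, hq⟩ := hM.q4 h h1
      obtain ⟨p, hp⟩ := (h.pk _ h1.2 _ _ _ _ hq).qr (σ (M.w j k))
      rw [← MB4_box h1.2] at hp
      refine ⟨p, fun j' k' h2 h3 c' d' hq' => ?_⟩
      obtain ⟨rfl, rfl⟩ := hM.inj h2.1 h1.1 h3
      rcases hq.uniq hq' with ⟨rfl, rfl⟩ | ⟨rfl, rfl⟩
      · exact hp
      · obtain ⟨O, k1, k2⟩ := hp
        exact ⟨O, k1, (SG.kp_swap (v := F.v0)).1 ▸ k2⟩
    · exact ⟨0, fun j k h1 h2 => absurd ⟨j, k, h1, h2⟩ c1⟩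
  choose p hp using k
  exact ⟨p, fun j k h1 _ => hp _ j k h1 rfl⟩

theorem C1_tp {ε : ZMod 2} (h : F.Ok G T) (hM : F.IsM G M) (hc : F.Cls G M σ) (hk : F.Nd M i k)
    (hq : G.Q4 (M.w i k) (F.e M i k) (F.e M i (k + 1)) c d) (hπ : ∀ j, F.QS G M σ π j ∅)
    (hr : G.Rg (M.w i k) X c d)
    (hp : G.Tp (M.w i k) X (F.e M i k) (F.e M i (k + 1)) c d (σ (M.w i k)) ε)
    (hg : g = F.nat + (F.tz G M σ false {M.w i k} + F.tz G M π false {M.w i k}) +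
      (F.tz G M σ true {M.w i k} + F.tz G M π true {M.w i k}) + (σ (M.w i k) + ε) +
      G.nu ((F.W0 M σ ∪ M.w i k) \ X)) : F.WinN G g := by
  obtain ⟨O, v, hv, rfl, h1⟩ := hp
  refine st_one h hM hc hk (fun j => (hπ j).mono (empty_subset _)) h1
    (hr.sub.trans subset_union_left) (Or.inr ⟨_, hk.2, hv⟩) (fun B _ k1 => ?_) (Or.inr hg)
  rcases k1 with rfl | k1
  · refine Or.inr (Or.inl ⟨_, _, c, d, hq, ?_⟩)
    rw [inter_eq_right.2 hr.sub]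
    exact ⟨hr, fun t ht => ⟨t, ht, Subset.rfl⟩⟩
  · exact Or.inl ((rest_disj hk.1).symm.mono k1 hr.sub)

theorem lw1_win (h : F.Ok G T) (hM : F.IsM G M) (hc : F.Cls G M σ) (hk : F.Nd M i k)
    (hq : G.Q4 (M.w i k) (F.e M i k) (F.e M i (k + 1)) c d)
    (hl : G.Lw1 (M.w i k) (F.e M i k) (F.e M i (k + 1)) c d (σ (M.w i k))) : F.WinN G g := by
  obtain ⟨π, hπ⟩ := qs_def h hM σ
  obtain ⟨X, hr, hp⟩ := hl
  have e : ∀ g a s n : ZMod 2, g = a + (s + (g + a + s + n)) + n := by decide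
  exact C1_tp h hM hc hk hq hπ hr (hp _) (e _ _ _ _)

theorem lw2_win (h : F.Ok G T) (hM : F.IsM G M) (hc : F.Cls G M σ) (hk : F.Nd M i k)
    (hq : G.Q4 (M.w i k) (F.e M i k) (F.e M i (k + 1)) c d)
    (hl : G.Lw2 (M.w i k) (F.e M i k) (F.e M i (k + 1)) c d (σ (M.w i k))) : F.WinN G g := by
  obtain ⟨π, hπ⟩ := qs_def h hM σ
  obtain ⟨X, hs, hu, ⟨O, p1, p2⟩, h4⟩ := hl
  have hN := (MB4_nd h hk).1
  obtain ⟨x, y, q1, q2⟩ := (hs.str h.hc h.hT hN hq).2.2.2.2.2.2.2.2.2.2.2.2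
  by_cases c1 : G.FH ((F.W0 M σ ∪ M.w i k) \ X) ∨
      g = F.nat + (F.tz G M σ false {M.w i k} + F.tz G M π false {M.w i k}) +
        (F.tz G M σ true {M.w i k} + F.tz G M π true {M.w i k}) +
        (σ (M.w i k) + G.par (O ∩ G.ins X)) + G.nu ((F.W0 M σ ∪ M.w i k) \ X)
  · refine st_one (v := G.ie X x) h hM hc hk (fun j => (hπ j).mono (empty_subset _))
      (p2.imp fun _ k1 => k1.mt) (hs.1.trans subset_union_left)
      (Or.inr ⟨_, hk.2, hs.1 (SG.Spl_ie q1.mem.2.2.1)⟩) (fun B _ k1 => ?_) c1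
    rcases k1 with rfl | k1
    · refine Or.inr (Or.inr fun S k1 k2 k3 => ?_)
      by_cases k4 : S ⊆ X
      · exact Or.inr ⟨_, ⟨S, k4, k2, rfl⟩, Subset.rfl⟩
      · by_contra k5
        exact k3 (SG.cross_link h.hc h.hT hN hq hs q1 k1 k2 k4 fun k6 => k5 (Or.inl k6)).2.2
    · exact Or.inl ((rest_disj hk.1).symm.mono k1 hs.1)
  rw [not_or, p1] at c1
  have hS : M.w i k \ X ⊆ (F.W0 M σ ∪ M.w i k) \ X := sdiff_subset_sdiff subset_union_right le_rfl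
  obtain ⟨u1, u2, u3, u4, -⟩ := SG.us_iso h.hc h.hT
    (sdiff_subset.trans (union_subset ((W0_sub h hM).2.trans h.hY) hN)) c1.1 hS ⟨q2.card, hu⟩
  obtain ⟨X', hr, hX, hp⟩ := h4 u4
  have hD : G.ins (M.w i k \ X) ∈ G.ocs ((F.W0 M σ ∪ M.w i k) \ X) :=
    SG.mem_ocs.2 ⟨SG.ins_mono hS, u1, u2⟩
  have hn : G.nu ((F.W0 M σ ∪ M.w i k) \ X') = G.nu ((F.W0 M σ ∪ M.w i k) \ X) + 1 := by
    refine SG.nu_drop h.hc c1.1 hD (sdiff_subset_sdiff le_rfl hX.subset) (fun k1 => ?_)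
      fun D' k1 k2 v hv => ?_
    · obtain ⟨v, k2, k3⟩ := exists_of_ssubset hX
      rw [u3] at k1
      exact (mem_sdiff.1 (k1 (mem_sdiff.2 ⟨hr.sub k2, k3⟩))).2 k2
    · have k3 := SG.ocs_disj h.hc c1.1 hD k1 k2
      have k4 := mem_sdiff.1 ((SG.ocs_vs k1).1 hv)
      rw [u3] at k3
      exact mem_sdiff.2 ⟨k4.1, fun k5 =>
        disjoint_left.1 k3 hv (mem_sdiff.2 ⟨hr.sub k5, k4.2⟩)⟩
  have e : ∀ g a n : ZMod 2, ¬ g = a + n → g = a + (n + 1) := by decide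
  exact C1_tp h hM hc hk hq hπ hr hp (hn ▸ e _ _ _ c1.2)

theorem pkg (h : F.Ok G T) (hH : ¬ F.WinN G g) (hM : F.IsM G M) (hc : F.Cls G M σ)
    (hk : F.Nd M i k) (hq : G.Q4 (M.w i k) (F.e M i k) (F.e M i (k + 1)) c d) :
    G.Gud (M.w i k) (F.e M i k) (F.e M i (k + 1)) c d (F.xs M σ i k) (σ (M.w i k)) := by
  rcases (h.pk _ hk.2 _ _ _ _ hq).alt (σ (M.w i k)) with k1 | k1 | k1
  · rwa [MB4_box hk.2]
  · exact absurd (lw1_win h hM hc hk hq k1) hH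
  · exact absurd (lw2_win h hM hc hk hq k1) hH

theorem qs_real (h : F.Ok G T) (hH : ¬ F.WinN G g) (hM : F.IsM G M) (hc : F.Cls G M σ)
    (j : Bool) : F.QS G M σ σ j ∅ :=
  fun _ hk _ _ _ hq => (pkg h hH hM hc hk hq).1

theorem par0 (h : F.Ok G T) (hH : ¬ F.WinN G g) (hM : F.IsM G M) (hc : F.Cls G M σ) :
    ¬ G.FH (F.W0 M σ) ∧ G.nu (F.W0 M σ) = g + F.nat + 1 := by
  obtain ⟨Ds, h1, h2⟩ := st_plain h hM hc (qs_real h hH hM hc)
  have e : ∀ g n : ZMod 2, n + (g + n) = g := by decide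
  have e' : ∀ a b : ZMod 2, ¬ a = b → b = a + 1 := by decide
  have k : ¬ (G.FH (F.W0 M σ) ∨ g + F.nat = G.nu (F.W0 M σ)) := fun k => hH (e g F.nat ▸ h2 _
    ((SG.par_all h.hc h.hT _ ((W0_sub h hM).2.trans h.hY)).1 Ds h1 _ k))
  exact ⟨fun k1 => k (Or.inl k1), e' _ _ fun k1 => k (Or.inr k1)⟩

theorem C1_fl (hM : F.IsM G M) (hk : k ≤ M.n i) (hl : l ≤ M.n j) (hne : ¬ (j = i ∧ l = k)) :
    fl σ (M.w i k) (M.w j l) = σ (M.w j l) :=
  Function.update_of_ne (fun e => hne (hM.inj hk hl e.symm)) _ _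

/-- real passes after changing the sign of one node -/
theorem qs_flip (h : F.Ok G T) (hH : ¬ F.WinN G g) (hM : F.IsM G M) (hc : F.Cls G M σ)
    (hk : F.Nd M i k) (ho : (M.w i k).card = 4 ∨
      ∃ j l, F.Sg i j ∧ F.Nd M j l ∧ ¬ (j = i ∧ l = k)) (j' : Bool) :
    F.QS G M (fl σ (M.w i k)) (fl σ (M.w i k)) j' ∅ := by
  intro l' hl _ c d hq
  by_cases c1 : j' = i ∧ l' = k
  · obtain ⟨rfl, rfl⟩ := c1
    rcases ho with ho | ⟨j, l, k1, k2, k3⟩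
    · rw [MB4_box hk.2]
      exact ((h.pk _ hk.2 _ _ _ _ hq).four ho).1 _
    · have k4 := qs_real h hH hM (cls_fl2 hM hc hk k2 k1 k3) j' l' hl (notMem_empty _) c d hq
      have k5 : ¬ (j' = j ∧ l' = l) := fun k5 => k3 ⟨k5.1.symm, k5.2.symm⟩
      rwa [fl_xs hM k2.1 hk.1 k5, C1_fl hM k2.1 hk.1 k5] at k4
  · rw [fl_xs hM hk.1 hl.1 c1, C1_fl hM hk.1 hl.1 c1]
    exact qs_real h hH hM hc j' l' hl (notMem_empty _) c d hq

theorem C1_dW (hk : k ≤ M.n i) : Disjoint (F.W0 M σ) (F.xs M σ i k) :=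
  disjoint_left.2 fun _ hv => (MB4_W0.1 hv).2 i k hk

/-- a pass of the right parity that absorbs the node and otherwise only vertices of `D` wins -/
theorem C1_fin {O : Finset E} {K : Set (Finset E)} (h : F.Ok G T) (hH : ¬ F.WinN G g)
    (hM : F.IsM G M) (hc : F.Cls G M σ) (hk : F.Nd M i k) (hD : D ∈ G.ocs (F.W0 M σ))
    (hp : G.Pas0 X O (F.e M i k) (F.e M i (k + 1)) ∅ K (Rl.Mt (σ (M.w i k) + 1)))
    (hπ : G.par (O ∩ G.ins X) = σ (M.w i k)) (h1 : M.w i k ⊆ X) (h2 : X ⊆ M.w i k ∪ F.rest M)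
    (h3 : X ⊆ M.w i k ∪ G.vs D) (hv : v ∈ M.w i k) (hb : G.BK1 (M.w i k) X K v) :
    Disjoint (M.w i k) (G.vs D) := by
  by_contra hm
  obtain ⟨p1, p2⟩ := par0 h hH hM hc
  have on : ∀ D ∈ G.ocs (F.W0 M σ), ¬ Disjoint (M.w i k) (G.vs D) →
      F.Lf M σ i k ∧ M.w i k \ F.xs M σ i k ⊆ G.vs D := fun D hD hm =>
    (rung_on h hM hk.1 (C1_dW hk.1) (SG.mem_ocs.1 hD).1 (SG.mem_ocs.1 hD).2.1.2.1 hm).imp_right
      fun r => r.1
  obtain ⟨o1, o2⟩ := on D hD hm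
  obtain ⟨z, hz⟩ : (M.w i k \ F.xs M σ i k).Nonempty :=
    sdiff_nonempty.2 fun r => o1.2 ((xs_sub h hM hk.1).1.antisymm r)
  refine hH (st_one (π := σ) h hM hc hk (fun j => (qs_real h hH hM hc j).mono (empty_subset _)) hp
    h2 (Or.inr ⟨_, hk.2, hv⟩) (fun B hB r => ?_) (Or.inr ?_))
  · rcases r with rfl | r
    · exact hb
    have d1 := (rest_disj hk.1).symm.mono_left r
    refine Or.inl ((disjoint_union_right.2 ⟨d1, ?_⟩).mono_right h3)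
    exact (SG.ocs_box h.hc h.hT ((W0_sub h hM).2.trans h.hY) p1 hD (r.trans (W0_sub h hM).1)
      (h.bx B hB).1).2.2.resolve_left fun e => hm (e ▸ d1.symm)
  · rw [SG.nu_drop h.hc p1 hD (fun x hx => (mem_union.1 (mem_sdiff.1 hx).1).resolve_right
      fun r => (mem_sdiff.1 hx).2 (h1 r))
      (fun r => (mem_sdiff.1 (r (o2 hz))).2 (h1 (mem_sdiff.1 hz).1)) fun D' hD' hne x hx => ?_,
      p2, hπ, z2_add_self, z2_add_self, z2_add_self]
    · linear_combination -z2_add_self (F.nat + 1)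
    have d := SG.ocs_disj h.hc p1 hD hD' hne
    refine mem_sdiff.2 ⟨mem_union_left _ ((SG.ocs_vs hD').1 hx), fun r => ?_⟩
    rcases mem_union.1 (h3 r) with r | r
    · exact disjoint_left.1 d ((on D' hD' (not_disjoint_iff.2 ⟨x, r, hx⟩)).2 hz) (o2 hz)
    · exact disjoint_left.1 d hx r

theorem rg_tp (h : F.Ok G T) (hH : ¬ F.WinN G g) (hM : F.IsM G M) (hc : F.Cls G M σ)
    (hk : F.Nd M i k) (hq : G.Q4 (M.w i k) (F.e M i k) (F.e M i (k + 1)) c d)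
    (hp : G.Tp (M.w i k) (M.w i k) (F.e M i k) (F.e M i (k + 1)) c d (σ (M.w i k)) (σ (M.w i k)))
    (hD : D ∈ G.ocs (F.W0 M σ)) : Disjoint (M.w i k) (G.vs D) := by
  obtain ⟨O, v, hv, h1, h2⟩ := hp
  refine C1_fin h hH hM hc hk hD h2 h1 Subset.rfl subset_union_left subset_union_left hv
    (Or.inr (Or.inl ⟨_, _, c, d, hq, Or.inl (inter_self _), fun t ht => ⟨t, ?_, Subset.rfl⟩⟩))
  rwa [inter_self] at ht

/-- an odd circuit has arcs of both signs -/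
theorem C1_arc {p q : V} (hc : G.Cub) (hA : D ⊆ G.A) (hD : G.Cc D) (ho : G.par D = 1)
    (hp : p ∈ G.vs D) (hq : q ∈ G.vs D) (hne : p ≠ q) (ε : ZMod 2) :
    ∃ P ⊆ D, G.Jn P p q ∧ G.par P = ε ∧ G.Bal P := by
  obtain ⟨P, h1, h2, h3⟩ : ∃ P ⊆ D, G.Jn P p q ∧ G.par P = ε := by
    obtain ⟨P, h1, h2⟩ := hD.arc hp hq hne
    by_cases e : G.par P = ε
    · exact ⟨P, h1, h2, e⟩
    · refine ⟨D \ P, sdiff_subset, hD.compl hc hA h1 h2, ?_⟩
      rw [SG.par_sdiff h1, ho]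
      revert e
      generalize G.par P = δ
      revert δ ε
      decide
  refine ⟨P, h1, h2, h3, by_contra fun r => ?_⟩
  obtain ⟨C, c1, c2, -⟩ := SG.exists_odd_cc r
  have e := hD.min hc hA (c1.trans h1) c2.2.1 c2.1
  have e' : P = D := h1.antisymm (e ▸ c1)
  exact zero_ne_one ((hD.2.1 p).symm.trans (e' ▸ h2.2.1.left hne))

theorem rg_one (h : F.Ok G T) (hH : ¬ F.WinN G g) (hM : F.IsM G M) (hc : F.Cls G M σ)
    (hk : k ≤ M.n i) (hD : D ∈ G.ocs (F.W0 M σ)) (hs : G.vs D ⊆ M.w i k ∪ F.rest M) :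
    Disjoint (M.w i k) (G.vs D) := by
  by_contra hm
  obtain ⟨d1, d2, d3⟩ := SG.mem_ocs.1 hD
  obtain ⟨r1, r2, -⟩ := rung_on h hM hk (C1_dW hk) d1 d2.2.1 hm
  obtain ⟨hn, r3⟩ := lf_str h hM r1
  obtain ⟨c, d, hq⟩ := hM.q4 h hn
  obtain ⟨sp, e1, -, x, y, -, q1, q2, -⟩ := r3 c d hq
  obtain ⟨t, v, hv, v1, wk⟩ := (pkg h hH hM hc hn hq).2.2 r1.2 x y q1 (σ (M.w i k) + 1)
  have hT := (MB4_nd h hn).1
  have dv := (sp.link h.hc h.hT hT hq q1).2.2.2.2.1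
  obtain ⟨-, -, -, -, -, -, -, -, ta, tb, -⟩ := sp.str h.hc h.hT hT hq
  have tx := SG.cut_sub_tch q2.mem.1
  have ty := SG.cut_sub_tch q2.mem.2.1
  obtain ⟨P, p1, p2, p3, p, p4⟩ := C1_arc h.hc (d1.trans SG.ins_sub_A) d2 d3 (r2 (SG.ie_mem tx))
    (r2 (SG.ie_mem ty)) dv (t + G.n x + G.n y)
  have u1 : G.vs P ⊆ G.vs D := SG.vs_mono p1
  have u2 : Disjoint (F.xs M σ i k) (G.vs P) :=
    (C1_dW hk).symm.mono_right (u1.trans (SG.ocs_vs hD).1)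
  have u3 : M.w i k \ F.xs M σ i k ⊆ G.vs P := by
    rw [← eq_of_subset_of_card_le (insert_subset (SG.ie_mem tx)
      (singleton_subset_iff.2 (SG.ie_mem ty))) (by rw [card_pair dv, e1]; exact card_le_two)]
    exact insert_subset p2.left_mem (singleton_subset_iff.2 p2.right_mem)
  have u4 : G.vs P ⊆ (M.w i k \ F.xs M σ i k) ∪ F.rest M := fun z hz =>
    mem_union.2 ((mem_union.1 (hs (u1 hz))).imp_left
      fun r => mem_sdiff.2 ⟨r, disjoint_right.1 u2 hz⟩)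
  have cx := (SG.Ab_link u2 (SG.cut_sub_tch q1.mem.2.2.1) (SG.tch_mono u3 tx)).2
  have cy := (SG.Ab_link u2 (SG.cut_sub_tch q1.mem.2.2.2) (SG.tch_mono u3 ty)).2
  rw [(SG.cut_of_sub u3 cx tx).2, (SG.cut_of_sub u3 cy ty).2] at p2
  have pp : G.Pp (G.vs P) P (G.ie (G.vs P) x) (G.ie (G.vs P) y) :=
    ⟨SG.sub_ins_iff.2 ⟨p1.trans (d1.trans SG.ins_sub_A), Subset.rfl⟩, p2.2.2, p2.2.1, p2.left_mem,
      p2.right_mem⟩
  have hxy := q2.2.1
  have off : ∀ l ≤ M.n i + 1, F.e M i l ∉ G.tch (M.w i k \ F.xs M σ i k) →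
      F.e M i l ∉ G.tch (G.vs P) := fun l hl a r =>
    (mem_union.1 (SG.tch_union.subset (SG.tch_mono u4 r))).elim a (hM.e_rest h.wf hl)
  obtain ⟨O1, o1, o2⟩ := wk
  obtain ⟨k1, k2⟩ := o2.close (L := ∅) (D' := Rl.Mt (σ (M.w i k) + 1))
    (SG.pure_p (L := ∅) pp cx cy hxy p4) u2 (off _ (by omega) ta) (off _ (by omega) tb)
    (fun _ r => absurd r (notMem_empty _)) (fun _ r => absurd r (notMem_empty _))
    fun R1 R2 a1 a2 => a1.cl_p a2 (by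
      rw [← pp.par p4, p3]
      linear_combination -z2_add_self (G.n x + G.n y))
  have xN := (xs_sub (σ := σ) h hM hk).1
  refine hm (C1_fin h hH hM hc hn hD k1 ?_ (fun z hz => ?_)
    (union_subset (xN.trans subset_union_left) (u1.trans hs)) (union_subset_union xN u1) (xN hv)
    (Or.inr (Or.inr fun S s1 s2 s3 => Or.inr ⟨_, Or.inl ⟨S, v1 S s1 s2 s3, s2, s3, rfl⟩,
      Subset.rfl⟩)))
  · rw [k2, o1, (pp.st cx cy hxy).2, p3]
    linear_combination z2_add_self (1 + t + G.n x + G.n y)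
  · exact mem_union.2 (or_iff_not_imp_left.2 fun r => u3 (mem_sdiff.2 ⟨hz, r⟩))

end Kf

end Pool.Agent.Work.MP_8c679b_co
end

-- merged part: Pool.Agent.Work.MP_8c679b_co.Key.LB
section
/-!
Labels: the parts that hang at the vertices of an isolated circuit.

Hints.  `G.lb W Q q` is the set reached from `q` without edges of `Q`; `Rch.closed`, `Iso.eq_of_od`
(with `Rch.od`) shows that two vertices of `Q` are not joined off `Q`.  Every vertex of `Q` has one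
third edge (`third_exists`, `third_unique`), `iso_ins`.  `lb_four`: the cut of `G.vs Q` consists of
the third edges, one for each vertex.  `clu_cut`: an edge inside `W` that leaves the cluster is the
third edge of the root.  `clu_ocs`: an odd circuit other than `Q` is connected and disjoint from
`Q`, so it lies in one label or outside all labels.  `lb_move`: induction along `Rch`.
`reroot`: a label of `Q'` that misses `q` is reached from `q` without edges of `Q` and contains no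
vertex of `Q`.
-/

set_option autoImplicit false

namespace Pool.Agent.Work.MP_8c679b_co

open Finset

variable {V E : Type} [Fintype V] [DecidableEq V] [DecidableEq E] {G : SG V E}
  {T W W' X S B Z : Finset V} {D D' Q C : Finset E} {q q' q0 a v : V} {e f : E}
  {Ds : Finset (Finset V)} {g : ZMod 2}

namespace SG

theorem mem_lb : v ∈ G.lb W Q q ↔ v ∈ W ∧ G.Rch (G.ins W \ Q) q v := by
  simp only [lb, mem_filter]

theorem mem_clu : v ∈ G.clu W Q q0 ↔ v = q0 ∨ ∃ q ∈ G.vs Q, q ≠ q0 ∧ v ∈ G.lb W Q q := by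
  simp only [clu, mem_insert, mem_biUnion, mem_erase]
  exact or_congr_right (exists_congr fun q => by tauto)

theorem lb_self (hQ : Q ∈ G.ocs W) (hq : q ∈ G.vs Q) : q ∈ G.lb W Q q ∧ G.lb W Q q ⊆ W := by
  exact ⟨mem_lb.2 ⟨(ocs_vs hQ).1 hq, Rch.refl _ _⟩, fun v hv => (mem_lb.1 hv).1⟩

theorem LB_eq (h : ¬ G.FH W) (hQ : Q ∈ G.ocs W) (hq : q ∈ G.vs Q) (hq' : q' ∈ G.vs Q)
    (hr : G.Rch (G.ins W \ Q) q q') : q = q' := by
  obtain ⟨P, h1, h2⟩ := hr.od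
  exact (ocs_iso h hQ).eq_of_od (mem_ocs.1 hQ).1 (mem_ocs.1 hQ).2.1 hq hq'
    (h1.trans sdiff_subset) (disjoint_of_subset_left h1 sdiff_disjoint) h2

theorem lb_disj (h : ¬ G.FH W) (hQ : Q ∈ G.ocs W) (hq : q ∈ G.vs Q) (hq' : q' ∈ G.vs Q)
    (hne : q ≠ q') : Disjoint (G.lb W Q q) (G.lb W Q q') ∧ q' ∉ G.lb W Q q := by
  exact ⟨disjoint_left.2 fun v h1 h2 =>
    hne (LB_eq h hQ hq hq' ((mem_lb.1 h1).2.trans (mem_lb.1 h2).2.symm)),
    fun h1 => hne (LB_eq h hQ hq hq' (mem_lb.1 h1).2)⟩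

omit [Fintype V] in
theorem LB_cut : e ∈ G.cut X ↔ e ∈ G.A ∧ ∃ x y, G.Je e x y ∧ x ∈ X ∧ y ∉ X := by
  rw [mem_cut]
  refine and_congr_right fun _ => ⟨fun h => ?_, ?_⟩
  · by_cases h1 : G.s e ∈ X
    · exact ⟨_, _, Or.inl ⟨rfl, rfl⟩, h1, fun h2 => h ⟨fun _ => h2, fun _ => h1⟩⟩
    · exact ⟨_, _, Or.inr ⟨rfl, rfl⟩, by_contra fun h2 => h ⟨fun k => (h1 k).elim,
        fun k => (h2 k).elim⟩, h1⟩
  · rintro ⟨x, y, ⟨rfl, rfl⟩ | ⟨rfl, rfl⟩, h1, h2⟩ h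
    exacts [h2 (h.1 h1), h2 (h.2 h1)]

omit [Fintype V] in
theorem LB_ins {x y : V} (he : e ∈ G.ins X) (hj : G.Je e x y) : e ∈ G.A ∧ x ∈ X ∧ y ∈ X := by
  obtain ⟨h1, h2, h3⟩ := mem_ins.1 he
  rcases hj with ⟨rfl, rfl⟩ | ⟨rfl, rfl⟩
  exacts [⟨h1, h2, h3⟩, ⟨h1, h3, h2⟩]

theorem lb_cut (he : e ∈ G.cut (G.lb W Q q)) : e ∈ Q ∨ e ∈ G.cut W := by
  obtain ⟨h1, x, y, h2, h3, h4⟩ := LB_cut.1 he
  by_contra k
  rw [not_or] at k
  have hy : y ∈ W := by_contra fun hy => k.2 (LB_cut.2 ⟨h1, x, y, h2, (mem_lb.1 h3).1, hy⟩)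
  exact h4 (mem_lb.2 ⟨hy, (mem_lb.1 h3).2.tail
    ⟨e, mem_sdiff.2 ⟨Cut_je_ins h1 h2 (mem_lb.1 h3).1 hy, k.1⟩, h2⟩⟩)

theorem lb_cn (hq : q ∈ W) : G.Cn (G.lb W Q q) (G.ins (G.lb W Q q)) := by
  refine cn_of_base (a := q) fun v hv => ?_
  have h := (mem_lb.1 hv).2
  clear hv
  induction h with
  | refl => exact Rch.refl _ _
  | tail h1 h2 ih =>
    obtain ⟨f, h3, h4⟩ := h2
    obtain ⟨k1, k2, k3⟩ := LB_ins (mem_sdiff.1 h3).1 h4
    exact ih.tail ⟨f, Cut_je_ins k1 h4 (mem_lb.2 ⟨k2, h1⟩)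
      (mem_lb.2 ⟨k3, Relation.ReflTransGen.tail h1 ⟨f, h3, h4⟩⟩), h4⟩

/-- the third edge `e` of `q` and the branch behind it -/
theorem lb_br (hc : G.Cub) (hT : G.HT T) (hW : W ⊆ T) (h : ¬ G.FH W) (hQ : Q ∈ G.ocs W)
    (hq : q ∈ G.vs Q) : ∃ e ∈ G.cut {q}, e ∉ Q ∧ e ∈ G.cut (G.vs Q) ∧
      (∀ f ∈ G.cut {q}, f ∈ Q ∨ f = e) ∧
      G.Cn ((G.lb W Q q).erase q) (G.ins ((G.lb W Q q).erase q)) ∧
      Disjoint ((G.lb W Q q).erase q) (G.vs Q) ∧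
      (∀ f ∈ G.cut ((G.lb W Q q).erase q), f = e ∨ (f ∈ G.cut W ∧ f ∈ G.cut (G.lb W Q q))) ∧
      ((e ∈ G.cut W ∧ G.lb W Q q = {q}) ∨
        (e ∈ G.cut ((G.lb W Q q).erase q) ∧ ∀ f ∈ G.cut (G.lb W Q q), f ∈ G.cut W →
          f ∈ G.cut ((G.lb W Q q).erase q))) := by
  obtain ⟨q1, q2, -⟩ := mem_ocs.1 hQ
  have hA : Q ⊆ G.A := q1.trans ins_sub_A
  have qW : q ∈ W := (ocs_vs hQ).1 hq
  obtain ⟨e, e1, e2, e3⟩ := third_exists hc hA hq (q2.2.1 q)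
  have e4 := third_ne hc hA hq (q2.2.1 q) e1 e2 e3
  have u : ∀ f ∈ G.A, ∀ y, G.Je f q y → f ∈ Q ∨ f = e := fun f hf y hy =>
    or_iff_not_imp_left.2 fun k =>
      third_unique hc hA hq (q2.2.1 q) e1 hf e2 k e3 (hy.at_iff.2 (Or.inl rfl))
  obtain ⟨w, j, wq⟩ : ∃ w, G.Je e q w ∧ w ≠ q := by
    rcases e3 with rfl | rfl
    exacts [⟨_, Or.inl ⟨rfl, rfl⟩, e4.symm⟩, ⟨_, Or.inr ⟨rfl, rfl⟩, e4⟩]
  have wQ : w ∉ G.vs Q := fun k =>
    e2 (iso_ins q1 q2 (ocs_iso h hQ) ▸ Cut_je_ins e1 j hq k)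
  have dj : Disjoint ((G.lb W Q q).erase q) (G.vs Q) := disjoint_left.2 fun v h1 h2 =>
    (mem_erase.1 h1).1 (LB_eq h hQ hq h2 (mem_lb.1 (mem_erase.1 h1).2).2).symm
  refine ⟨e, LB_cut.2 ⟨e1, q, w, j, mem_singleton_self q, fun k => wq (mem_singleton.1 k)⟩, e2,
    LB_cut.2 ⟨e1, q, w, j, hq, wQ⟩, fun f hf => ?_, cn_of_base (a := w) fun v hv => ?_, dj,
    fun f hf => ?_, ?_⟩
  · obtain ⟨h1, x, y, h2, h3, -⟩ := LB_cut.1 hf
    exact u f h1 y (mem_singleton.1 h3 ▸ h2)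
  · obtain ⟨h1, h2⟩ := mem_erase.1 hv
    have h3 := (mem_lb.1 h2).2
    clear hv h2
    induction h3 with
    | refl => exact absurd rfl h1
    | @tail b c h4 h5 ih =>
      obtain ⟨f, h6, h7⟩ := h5
      obtain ⟨k1, k2, k3⟩ := LB_ins (mem_sdiff.1 h6).1 h7
      by_cases hb : b = q
      · subst hb
        obtain rfl := (u f k1 c h7).resolve_left (mem_sdiff.1 h6).2
        obtain rfl := (j.at_iff.1 (Je.at_iff h7 |>.2 (Or.inr rfl))).resolve_left h1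
        exact Rch.refl _ _
      · exact (ih hb).tail ⟨f, Cut_je_ins k1 h7 (mem_erase.2 ⟨hb, mem_lb.2 ⟨k2, h4⟩⟩)
          (mem_erase.2 ⟨h1, mem_lb.2 ⟨k3, Relation.ReflTransGen.tail h4 ⟨f, h6, h7⟩⟩⟩), h7⟩
  · obtain ⟨h1, x, y, h2, h3, h4⟩ := LB_cut.1 hf
    have h5 : f ∉ Q := fun k =>
      disjoint_left.1 dj h3 (mem_vs.2 ⟨f, k, h2.at_iff.2 (Or.inl rfl)⟩)
    by_cases hy : y = q
    · exact Or.inl ((u f h1 x (hy ▸ h2.symm)).resolve_left h5)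
    · have h6 := LB_cut.2 ⟨h1, x, y, h2, (mem_erase.1 h3).2, fun k => h4 (mem_erase.2 ⟨hy, k⟩)⟩
      exact Or.inr ⟨(lb_cut h6).resolve_left h5, h6⟩
  by_cases hw : w ∈ W
  · have e5 := Cut_je_ins e1 j qW hw
    refine Or.inr ⟨LB_cut.2 ⟨e1, w, q, j.symm, mem_erase.2 ⟨wq, mem_lb.2 ⟨hw,
      Relation.ReflTransGen.single ⟨e, mem_sdiff.2 ⟨e5, e2⟩, j⟩⟩⟩, notMem_erase _ _⟩,
      fun f hf hf' => ?_⟩
    obtain ⟨h1, x, y, h2, h3, h4⟩ := LB_cut.1 hf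
    refine LB_cut.2 ⟨h1, x, y, h2, mem_erase.2 ⟨fun k => ?_, h3⟩, fun k => h4 (mem_erase.1 k).2⟩
    have h5 : f ∈ G.ins W := (u f h1 y (k ▸ h2)).elim (fun k => q1 k) fun k => k ▸ e5
    exact (mem_cut.1 hf').2 (iff_of_true (mem_ins.1 h5).2.1 (mem_ins.1 h5).2.2)
  · refine Or.inl ⟨LB_cut.2 ⟨e1, q, w, j, qW, hw⟩, eq_singleton_iff_unique_mem.2
      ⟨(lb_self hQ hq).1, fun v hv => by_contra fun k => ?_⟩⟩
    rcases Relation.ReflTransGen.cases_head (mem_lb.1 hv).2 with h1 | ⟨c, ⟨f, h1, h2⟩, -⟩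
    · exact k h1.symm
    · obtain ⟨h3, h4⟩ := mem_sdiff.1 h1
      obtain rfl := (u f (ins_sub_A h3) c h2).resolve_left h4
      exact hw (LB_ins h3 j).2.2

theorem lb_out (hc : G.Cub) (hT : G.HT T) (hW : W ⊆ T) (h : ¬ G.FH W) (hQ : Q ∈ G.ocs W)
    (hq : q ∈ G.vs Q) : ∃ e ∈ G.cut (G.lb W Q q), e ∈ G.cut W := by
  obtain ⟨e, e1, -, -, -, -, -, h1, ⟨h2, h3⟩ | ⟨h2, -⟩⟩ := lb_br hc hT hW h hQ hq
  · exact ⟨e, h3 ▸ e1, h2⟩
  obtain ⟨-, x, -, -, h3, -⟩ := LB_cut.1 h2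
  have h4 := hT.mono3 (((erase_subset _ _).trans (lb_self hQ hq).2).trans hW) ⟨x, h3⟩
  obtain ⟨f, h5, h6⟩ := exists_mem_ne (lt_of_lt_of_le (by norm_num) h4) e
  obtain ⟨h7, h8⟩ := (h1 f h5).resolve_left h6
  exact ⟨f, h8, h7⟩

theorem lb_four (hc : G.Cub) (hT : G.HT T) (hW : W ⊂ T) (h : ¬ G.FH W) (hQ : Q ∈ G.ocs W) :
    4 ≤ (G.vs Q).card := by
  obtain ⟨q1, q2, -⟩ := mem_ocs.1 hQ
  have hA : Q ⊆ G.A := q1.trans ins_sub_A
  obtain ⟨e, he⟩ := q2.1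
  refine (hT.four Subset.rfl (Finset.ssubset_of_subset_of_ssubset (ocs_vs hQ).1 hW)
    (one_lt_card.2 ⟨_, s_mem_vs he, _, t_mem_vs he,
      hT.noloop hc (ins_sub_tch (ins_mono hW.subset (q1 he)))⟩)).trans ?_
  have k : ∀ f ∈ G.cut (G.vs Q), f ∈ G.A ∧ f ∉ Q ∧ G.ie (G.vs Q) f ∈ G.vs Q ∧
      G.At f (G.ie (G.vs Q) f) := fun f hf => by
    obtain ⟨h1, h2⟩ := mem_cut.1 hf
    refine ⟨h1, fun k => h2 (iff_of_true (s_mem_vs k) (t_mem_vs k)), ?_⟩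
    unfold ie
    split_ifs with h3
    · exact ⟨h3, Or.inl rfl⟩
    · exact ⟨by_contra fun h4 => h2 (iff_of_false h3 h4), Or.inr rfl⟩
  refine card_le_card_of_injOn (G.ie (G.vs Q)) (fun f hf => (k f hf).2.2.1) fun f hf f' hf' h1 => ?_
  obtain ⟨a1, a2, a3, a4⟩ := k f hf
  obtain ⟨b1, b2, b3, b4⟩ := k f' hf'
  exact third_unique hc hA b3 (q2.2.1 _) b1 a1 b2 a2 b4 (h1 ▸ a4)

theorem lb_conn (hX : X ⊆ W) (hn : G.Cn X (G.ins X)) (hd : Disjoint X (G.vs Q)) :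
    X ⊆ G.lb W Q q ∨ Disjoint X (G.lb W Q q) := by
  refine or_iff_not_imp_right.2 fun k y hy => ?_
  obtain ⟨x, h1, h2⟩ := not_disjoint_iff.1 k
  exact mem_lb.2 ⟨hX hy, (mem_lb.1 h2).2.trans ((hn x h1 y hy).mono fun e he => mem_sdiff.2
    ⟨ins_mono hX he, fun h3 => disjoint_left.1 hd (mem_ins.1 he).2.1 (s_mem_vs h3)⟩)⟩

theorem clu_sub (hQ : Q ∈ G.ocs W) (h0 : q0 ∈ G.vs Q) :
    G.vs Q ⊆ G.clu W Q q0 ∧ G.clu W Q q0 ⊆ W := by
  refine ⟨fun v hv => mem_clu.2 (or_iff_not_imp_left.2 fun k => ⟨v, hv, k, (lb_self hQ hv).1⟩),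
    fun v hv => ?_⟩
  rcases mem_clu.1 hv with rfl | ⟨q, -, -, h1⟩
  exacts [(ocs_vs hQ).1 h0, (mem_lb.1 h1).1]

theorem clu_cut (hc : G.Cub) (h : ¬ G.FH W) (hQ : Q ∈ G.ocs W) (h0 : q0 ∈ G.vs Q) :
    ∀ e ∈ G.ins W, ∀ f ∈ G.ins W, e ∈ G.cut (G.clu W Q q0) → f ∈ G.cut (G.clu W Q q0) →
      e = f ∧ G.At e q0 := by
  have k : ∀ e ∈ G.ins W, e ∈ G.cut (G.clu W Q q0) → e ∉ Q ∧ G.At e q0 := fun e he h1 => by
    obtain ⟨-, x, y, h2, h3, h4⟩ := LB_cut.1 h1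
    have h5 : e ∉ Q := fun k =>
      h4 ((clu_sub hQ h0).1 (mem_vs.2 ⟨e, k, h2.at_iff.2 (Or.inr rfl)⟩))
    refine ⟨h5, ?_⟩
    rcases mem_clu.1 h3 with rfl | ⟨q, h6, h7, h8⟩
    · exact h2.at_iff.2 (Or.inl rfl)
    · exact (h4 (mem_clu.2 (Or.inr ⟨q, h6, h7, mem_lb.2 ⟨(LB_ins he h2).2.2,
        (mem_lb.1 h8).2.tail ⟨e, mem_sdiff.2 ⟨he, h5⟩, h2⟩⟩⟩))).elim
  obtain ⟨q1, q2, -⟩ := mem_ocs.1 hQ
  intro e he f hf h1 h2
  obtain ⟨a1, a2⟩ := k e he h1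
  obtain ⟨b1, b2⟩ := k f hf h2
  exact ⟨third_unique hc (q1.trans ins_sub_A) h0 (q2.2.1 _) (ins_sub_A hf) (ins_sub_A he) b1 a1
    b2 a2, a2⟩

theorem clu_ocs (hc : G.Cub) (h : ¬ G.FH W) (hQ : Q ∈ G.ocs W) (h0 : q0 ∈ G.vs Q)
    (hB : ∀ q ∈ G.vs Q, q ≠ q0 → G.Bal (G.ins (G.lb W Q q))) :
    G.ocs W = insert Q (G.ocs (W \ G.clu W Q q0)) ∧ Q ∉ G.ocs (W \ G.clu W Q q0) ∧
      G.ocs (G.clu W Q q0) = {Q} := by
  have k : G.ocs W = insert Q (G.ocs (W \ G.clu W Q q0)) := by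
    refine Subset.antisymm (fun D hD => mem_insert.2 (or_iff_not_imp_left.2 fun hne => ?_))
      (insert_subset hQ (ocs_mono sdiff_subset))
    have d := ocs_disj hc h hQ hD hne
    obtain ⟨d1, d2, -⟩ := mem_ocs.1 hD
    refine (ocs_vs hD).2.2 _ fun v hv => mem_sdiff.2 ⟨(ocs_vs hD).1 hv, fun h1 => ?_⟩
    rcases mem_clu.1 h1 with rfl | ⟨q, h2, h3, h4⟩
    · exact disjoint_left.1 d hv h0
    · rcases lb_conn (q := q) (ocs_vs hD).1 (fun a ha b hb =>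
        (d2.2.2 a ha b hb).mono (sub_ins_vs (d1.trans ins_sub_A))) d with h5 | h5
      · exact notMem_empty D (ocs_empty.2 (hB q h2 h3) ▸ (ocs_vs hD).2.2 _ h5)
      · exact disjoint_left.1 h5 hv h4
  refine ⟨k, fun h1 => (mem_sdiff.1 ((ocs_vs h1).1 h0)).2 (mem_clu.2 (Or.inl rfl)),
    eq_singleton_iff_unique_mem.2 ⟨(ocs_vs hQ).2.2 _ (clu_sub hQ h0).1, fun D hD => ?_⟩⟩
  have h1 := ocs_mono (clu_sub hQ h0).2 hD
  rw [k] at h1
  refine (mem_insert.1 h1).resolve_right fun h2 => ?_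
  obtain ⟨v, hv⟩ := (ocs_vs hD).2.1
  exact (mem_sdiff.1 ((ocs_vs h2).1 hv)).2 ((ocs_vs hD).1 hv)

theorem lb_move (hW : W' ⊆ W ∪ Z) (hZ : ∀ e ∈ G.cut (G.lb W Q q), e ∈ Q ∨ e ∉ G.tch Z)
    (hq : q ∈ W) : G.lb W' Q q ⊆ G.lb W Q q := by
  intro v hv
  have h := (mem_lb.1 hv).2
  clear hv
  induction h with
  | refl => exact mem_lb.2 ⟨hq, Rch.refl _ _⟩
  | @tail b c h1 h2 ih =>
    obtain ⟨f, h3, h4⟩ := h2
    obtain ⟨h5, h6⟩ := mem_sdiff.1 h3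
    obtain ⟨k1, -, k3⟩ := LB_ins h5 h4
    by_contra k
    have h7 := (hZ f (LB_cut.2 ⟨k1, b, c, h4, ih, k⟩)).resolve_left h6
    have h8 : c ∈ W := (mem_union.1 (hW k3)).resolve_right fun h8 => h7 (mem_tch.2 ⟨k1, by
      rcases h4 with ⟨-, rfl⟩ | ⟨rfl, -⟩
      exacts [Or.inr h8, Or.inl h8]⟩)
    exact k (mem_lb.2 ⟨h8, (mem_lb.1 ih).2.tail
      ⟨f, mem_sdiff.2 ⟨Cut_je_ins k1 h4 (mem_lb.1 ih).1 h8, h6⟩, h4⟩⟩)

theorem root_ex (h : ¬ G.FH W) (hQ : Q ∈ G.ocs W) {z : E} (hz : z ∉ G.ins W) :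
    ∃ q0 ∈ G.vs Q, ∀ q ∈ G.vs Q, q ≠ q0 → z ∉ G.tch (G.lb W Q q) := by
  by_cases k : ∃ q0 ∈ G.vs Q, z ∈ G.tch (G.lb W Q q0)
  · obtain ⟨q0, h0, h1⟩ := k
    refine ⟨q0, h0, fun q hq hne h2 => hz ?_⟩
    have d := disjoint_left.1 (lb_disj h hQ hq h0 hne).1
    obtain ⟨h3, h4⟩ := mem_tch.1 h1
    obtain ⟨-, h5⟩ := mem_tch.1 h2
    rcases h4 with h4 | h4 <;> rcases h5 with h5 | h5
    exacts [(d h5 h4).elim, mem_ins.2 ⟨h3, (mem_lb.1 h4).1, (mem_lb.1 h5).1⟩,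
      mem_ins.2 ⟨h3, (mem_lb.1 h5).1, (mem_lb.1 h4).1⟩, (d h5 h4).elim]
  · obtain ⟨q0, h0⟩ := (ocs_vs hQ).2.1
    exact ⟨q0, h0, fun q hq _ h1 => k ⟨q, hq, h1⟩⟩

theorem reroot (hc : G.Cub) (hT : G.HT T) (hW : W ⊆ T) (h : ¬ G.FH W) (hQ : Q ∈ G.ocs W)
    (hq : q ∈ G.vs Q) (hD : D ∈ G.ocs (G.lb W Q q)) :
    ∃ q1 ∈ G.vs D, G.clu W D q1 ⊆ (G.lb W Q q).erase q := by
  have hD' : D ∈ G.ocs W := ocs_mono (lb_self hQ hq).2 hD
  have u : ∀ v ∈ G.lb W Q q, v ∈ G.vs Q → q = v := fun v h1 h2 =>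
    LB_eq h hQ hq h2 (mem_lb.1 h1).2
  have hne : D ≠ Q := by
    rintro rfl
    obtain ⟨q1, ⟨⟨e, he⟩, -⟩, -⟩ := mem_ocs.1 hQ
    exact hT.noloop hc (ins_sub_tch (ins_mono hW (q1 he)))
      ((u _ ((ocs_vs hD).1 (s_mem_vs he)) (s_mem_vs he)).symm.trans
        (u _ ((ocs_vs hD).1 (t_mem_vs he)) (t_mem_vs he)))
  have d := disjoint_left.1 (ocs_disj hc h hQ hD' hne)
  obtain ⟨q1, h1, h2⟩ : ∃ q1 ∈ G.vs D, ∀ a ∈ G.vs D, a ≠ q1 → q ∉ G.lb W D a := by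
    by_cases k : ∃ q1 ∈ G.vs D, q ∈ G.lb W D q1
    · obtain ⟨q1, h1, h2⟩ := k
      exact ⟨q1, h1, fun a ha h3 h4 => disjoint_left.1 (lb_disj h hD' ha h1 h3).1 h4 h2⟩
    · obtain ⟨q1, h1⟩ := (ocs_vs hD).2.1
      exact ⟨q1, h1, fun a ha _ h2 => k ⟨a, ha, h2⟩⟩
  refine ⟨q1, h1, fun v hv => ?_⟩
  rcases mem_clu.1 hv with rfl | ⟨a, ha, h3, h4⟩
  · exact mem_erase.2 ⟨fun k => d h1 (k ▸ hq), (ocs_vs hD).1 h1⟩
  refine mem_erase.2 ⟨fun k => h2 a ha h3 (k ▸ h4), ?_⟩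
  have h5 := (mem_lb.1 h4).2
  clear h4 hv
  induction h5 with
  | refl => exact (ocs_vs hD).1 ha
  | @tail b c h5 h6 ih =>
    obtain ⟨f, h6, h7⟩ := h6
    obtain ⟨-, k2, k3⟩ := LB_ins (mem_sdiff.1 h6).1 h7
    refine mem_lb.2 ⟨k3, (mem_lb.1 ih).2.tail
      ⟨f, mem_sdiff.2 ⟨(mem_sdiff.1 h6).1, fun k => ?_⟩, h7⟩⟩
    exact h2 a ha h3
      (u b ih (mem_vs.2 ⟨f, k, (Je.at_iff h7).2 (Or.inl rfl)⟩) ▸ mem_lb.2 ⟨k2, h5⟩)

end SG

end Pool.Agent.Work.MP_8c679b_co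
end
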