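import Pool.Agent.Work.MP_8c679b_co.Six.GNorm
import Pool.Agent.Work.MP_8c679b_co.Six.Z3

/-!
Algebra of relations on three residues.

Hints.  A relation of class `P σ` contains the graph of `y = chi σ * (c - x)`.  All statements are
monotone in the relations.  For chains use induction on `n` as in `Six/Z3.lean` (`ch_gd`, `ch_px`),
splitting on whether the last index is a special one.  Finite facts about `ZMod 3` and `ZMod 2`:
case split on the signs with `z2`, then `decide` or `fin_cases`.  For `gd_meet` encode a relation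
as a function `ZMod 3 → ZMod 3 → Bool`; if `R` and `R'` were disjoint, one of them has at most four
pairs; a good relation with at most four pairs is a cross without centre, which meets the other.
-/

set_option autoImplicit false

namespace Pool.Agent.Work.MP_8c679b_co

open Finset

namespace Rl

variable {R R' : Rl} {σ l t m : ZMod 2} {n j k : ℕ} {s τ : ℕ → ZMod 2} {Rs : ℕ → Rl}

theorem P.mt (h : R.P σ) : R.Mt (σ + 1) := by
  obtain ⟨c, h⟩ := h
  have k : ∀ (σ : ZMod 2) (c k : ZMod 3), ∃ x y : ZMod 3,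
      x + chi σ * y = c ∧ x + chi (σ + 1) * y = k := by decide +kernel
  intro d
  obtain ⟨x, y, h1, h2⟩ := k σ c d
  exact ⟨x, y, h x y h1, h2⟩

theorem Cs.mt (h : R.Cs) (l : ZMod 2) : R.Mt l := by
  obtain ⟨x0, y0, h⟩ := h
  exact fun d => ⟨d - chi l * y0, y0, h _ _ (Or.inr rfl), by ring⟩

theorem Mt.swap (h : R.Mt l) : Rl.Mt l fun x y => R y x := by
  intro d
  obtain ⟨x, y, h1, h2⟩ := h (chi l * d)
  refine ⟨y, x, h1, ?_⟩
  linear_combination chi l * h2 + (d - y) * chi_mul_self (R := ZMod 3) l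

theorem Mt.mono (h : R.Mt l) (hR : ∀ x y, R x y → R' x y) : R'.Mt l := by
  intro d
  obtain ⟨x, y, h1, h2⟩ := h d
  exact ⟨x, y, hR x y h1, h2⟩

theorem Cs.swap (h : R.Cs) : Rl.Cs fun x y => R y x := by
  obtain ⟨x0, y0, h⟩ := h
  exact ⟨y0, x0, fun x y hxy => h y x hxy.symm⟩

/-- a table of nine values -/
def Z1_tb (a b c d e f g h i : Bool) (x y : ZMod 3) : Bool :=
  if x = 0 then (if y = 0 then a else if y = 1 then b else c)
  else if x = 1 then (if y = 0 then d else if y = 1 then e else f)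
  else (if y = 0 then g else if y = 1 then h else i)

/-- the entries equal to `v` form a good relation -/
def Z1_gb (F : ZMod 3 → ZMod 3 → Bool) (v : Bool) : Prop :=
  ((∀ x, ∃ y, F x y = v) ∧ ∀ y, ∃ x, F x y = v) ∧ ∀ α β, ∃ x y, F x y = v ∧ (x = α ↔ y ≠ β)

instance Z1_dec (F : ZMod 3 → ZMod 3 → Bool) (v : Bool) : Decidable (Z1_gb F v) := by
  unfold Z1_gb
  infer_instance

theorem Z1_fin : ∀ a b c d e f g h i : Bool,
    ¬ (Z1_gb (Z1_tb a b c d e f g h i) true ∧ Z1_gb (Z1_tb a b c d e f g h i) false) := by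
  have al : ∀ p : ZMod 3 → Prop, (∀ x, p x) ↔ p 0 ∧ p 1 ∧ p 2 := fun p =>
    ⟨fun h => ⟨h _, h _, h _⟩, fun h x => by
      rcases Z3_cases x with rfl | rfl | rfl
      exacts [h.1, h.2.1, h.2.2]⟩
  have ex : ∀ p : ZMod 3 → Prop, (∃ x, p x) ↔ p 0 ∨ p 1 ∨ p 2 := fun p =>
    ⟨fun ⟨x, h⟩ => by
      rcases Z3_cases x with rfl | rfl | rfl
      exacts [Or.inl h, Or.inr (Or.inl h), Or.inr (Or.inr h)],
    fun h => h.elim (fun k => ⟨_, k⟩) fun k => k.elim (fun k => ⟨_, k⟩) fun k => ⟨_, k⟩⟩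
  have n1 : ((1 : ZMod 3) = 0) = False := by decide
  have n2 : ((2 : ZMod 3) = 0) = False := by decide
  have n3 : ((2 : ZMod 3) = 1) = False := by decide
  have n4 : ((0 : ZMod 3) = 1) = False := by decide
  have n5 : ((0 : ZMod 3) = 2) = False := by decide
  have n6 : ((1 : ZMod 3) = 2) = False := by decide
  intro a b c d e f g h i
  simp only [Z1_gb, al, ex, Z1_tb, n1, n2, n3, n4, n5, n6, if_true, if_false, ne_eq,
    not_true_eq_false, not_false_eq_true, iff_true, iff_false, and_true,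
    and_false, or_false, false_or, ← Bool.not_eq_true', ← Bool.or_eq_true, ← Bool.and_eq_true]
  revert a b c d e f g h i
  decide +kernel

/-- two good relations have a common pair -/
theorem gd_meet (h : R.Gd) (h' : R'.Gd) : ∃ x y, R x y ∧ R' x y := by
  classical
  by_contra k
  have e : ∀ x y, Z1_tb (R 0 0) (R 0 1) (R 0 2) (R 1 0) (R 1 1) (R 1 2) (R 2 0) (R 2 1) (R 2 2)
      x y = decide (R x y) := by
    intro x y
    rcases Z3_cases x with rfl | rfl | rfl <;> rcases Z3_cases y with rfl | rfl | rfl <;> rfl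
  refine Z1_fin (R 0 0) (R 0 1) (R 0 2) (R 1 0) (R 1 1) (R 1 2) (R 2 0) (R 2 1) (R 2 2) ⟨?_, ?_⟩
  · exact h.mono (R' := fun x y => _ = true) fun x y hxy => by rw [e]; exact decide_eq_true hxy
  · exact h'.mono (R' := fun x y => _ = false) fun x y hxy => by
      rw [e]; exact decide_eq_false fun h1 => k ⟨x, y, h1, hxy⟩

/-- a good relation is not contained in one line -/
theorem gd_two (h : R.Gd) (σ : ZMod 2) (c : ZMod 3) : ∃ x y, R x y ∧ x + chi σ * y ≠ c := by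
  have k : ∀ (σ : ZMod 2) (c x y : ZMod 3), (x = c ↔ y ≠ 0) → x + chi σ * y ≠ c := by
    decide +kernel
  obtain ⟨x, y, h1, h2⟩ := h.2 c 0
  exact ⟨x, y, h1, k σ c x y h2⟩

theorem Z1_mp {σ' : ZMod 2} (t : ZMod 2) (hA : R.Mt l) (hB : R'.P σ') :
    (Z3cp t R R').Mt (l + t + σ') := by
  have k : ∀ (l t σ' : ZMod 2) (c d x y : ZMod 3), x + chi l * y = d - chi (l + t) * c →
      ∃ z : ZMod 3, -(chi t) * y + chi σ' * z = c ∧ x + chi (l + t + σ') * z = d := by
    decide +kernel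
  obtain ⟨c, hB⟩ := hB
  intro d
  obtain ⟨x, y, h1, h2⟩ := hA (d - chi (l + t) * c)
  obtain ⟨z, h3, h4⟩ := k l t σ' c d x y h2
  exact ⟨x, z, ⟨y, h1, hB _ _ h3⟩, h4⟩

theorem Z1_pm (t : ZMod 2) (hA : R.P σ) (hB : R'.Mt l) : (Z3cp t R R').Mt (σ + t + l) := by
  have k : ∀ (σ t l : ZMod 2) (c d u z : ZMod 3), u + chi l * z = chi (σ + t) * (d - c) →
      ∃ x : ZMod 3, x + chi σ * (-(chi t) * u) = c ∧ x + chi (σ + t + l) * z = d := by
    decide +kernel
  obtain ⟨c, hA⟩ := hA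
  intro d
  obtain ⟨u, z, h1, h2⟩ := hB (chi (σ + t) * (d - c))
  obtain ⟨x, h3, h4⟩ := k σ t l c d u z h2
  exact ⟨x, z, ⟨_, hA _ _ h3, by rw [Z3_link]; exact h1⟩, h4⟩

theorem Z1_bij {f g : ZMod 3 → ZMod 3} (h : R.Gd) (hf : Function.Bijective f)
    (hg : Function.Bijective g) : Rl.Gd fun x y => R (f x) (g y) := by
  refine ⟨⟨fun x => ?_, fun y => ?_⟩, fun α β => ?_⟩
  · obtain ⟨z, hz⟩ := h.1.1 (f x)
    obtain ⟨y, rfl⟩ := hg.2 z
    exact ⟨y, hz⟩
  · obtain ⟨u, hu⟩ := h.1.2 (g y)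
    obtain ⟨x, rfl⟩ := hf.2 u
    exact ⟨x, hu⟩
  · obtain ⟨u, z, h1, h2⟩ := h.2 (f α) (g β)
    obtain ⟨x, rfl⟩ := hf.2 u
    obtain ⟨y, rfl⟩ := hg.2 z
    exact ⟨x, y, h1, by rwa [hf.1.eq_iff, hg.1.ne_iff] at h2⟩

theorem Z1_gg (t : ZMod 2) (hA : R.Gd) (hB : R'.Gd) (l : ZMod 2) : (Z3cp t R R').Mt l := by
  intro d
  have k1 : ∀ t : ZMod 2, Function.Bijective fun y : ZMod 3 => -(chi t) * y := by decide +kernel
  have k2 : ∀ (l : ZMod 2) (d : ZMod 3),
      Function.Bijective fun x : ZMod 3 => chi l * (d - x) := by decide +kernel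
  obtain ⟨x, y, h1, h2⟩ := gd_meet hA (Z1_bij hB (k1 t) (k2 l d)).swap
  refine ⟨x, _, ⟨y, h1, h2⟩, ?_⟩
  linear_combination (d - x) * chi_mul_self (R := ZMod 3) l

theorem Z1_cs (hj : j ≤ n) (h : ∀ i ≤ n, i ≠ j → (Rs i).Tt) (hx : (Rs j).Cs) :
    (chain τ Rs n).Cs := by
  induction n with
  | zero =>
    obtain rfl : j = 0 := by omega
    exact hx
  | succ n ih =>
    by_cases hjn : j ≤ n
    · exact Z3_csl (ih hjn fun i hi => h i (by omega)) (h (n + 1) le_rfl (by omega))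
    · obtain rfl : j = n + 1 := by omega
      exact Z3_csr (ch_tt fun i hi => h i (by omega) (by omega)) hx

theorem Z1_lt (hk : k ≤ n) (hjk : j < k)
    (h : ∀ i ≤ n, i ≠ j → i ≠ k → ∃ σ, (Rs i).P σ) (hx : (Rs j).Gd) (hy : (Rs k).Gd)
    (l : ZMod 2) : (chain τ Rs n).Mt l := by
  induction n generalizing l with
  | zero => omega
  | succ n ih =>
    by_cases hkn : k ≤ n
    · obtain ⟨σ, hσ⟩ := h (n + 1) le_rfl (by omega) (by omega)
      have h1 := Z1_mp (τ (n + 1)) (ih hkn (fun i hi => h i (by omega)) (l + τ (n + 1) + σ)) hσ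
      have e : ∀ a b c : ZMod 2, a + b + c + b + c = a := by decide
      rw [e] at h1
      exact h1
    · obtain rfl : k = n + 1 := by omega
      exact Z1_gg (τ (n + 1))
        (ch_gd (j := j) (by omega) (fun i hi hij => h i (by omega) hij (by omega)) hx) hy l

theorem Z1_cl (h : (chain τ Rs n).Mt (τ 0)) : Cl τ Rs n := by
  obtain ⟨x, y, h1, h2⟩ := h 0
  exact ⟨x, y, h1, by linear_combination h2⟩

theorem ch_mt (hj : j ≤ n) (h : ∀ i ≤ n, i ≠ j → (Rs i).P (s i)) (hx : (Rs j).Mt (s j + 1)) :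
    (chain τ Rs n).Mt (sg s τ n + 1) := by
  induction n with
  | zero =>
    obtain rfl : j = 0 := by omega
    simpa [sg, chain] using hx
  | succ n ih =>
    rw [Z3_sg]
    by_cases hjn : j ≤ n
    · have h1 := Z1_mp (τ (n + 1)) (ih hjn fun i hi => h i (by omega))
        (h (n + 1) le_rfl (by omega))
      rw [show sg s τ n + 1 + τ (n + 1) + s (n + 1) = sg s τ n + τ (n + 1) + s (n + 1) + 1 by
        ring] at h1
      exact h1
    · obtain rfl : j = n + 1 := by omega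
      have h1 := Z1_pm (τ (n + 1)) (ch_p (τ := τ) (n := n) fun i hi => h i (by omega) (by omega)) hx
      rw [← add_assoc] at h1
      exact h1

theorem ch_cs (hj : j ≤ n) (h : ∀ i ≤ n, i ≠ j → ∃ σ, (Rs i).P σ) (hx : (Rs j).Cs) :
    (chain τ Rs n).Cs :=
  Z1_cs hj (fun i hi hij => (h i hi hij).elim fun _ hσ => hσ.tt) hx

/-- two good relations with permutations around them meet every line -/
theorem ch_gg (hj : j ≤ n) (hk : k ≤ n) (hjk : j ≠ k)
    (h : ∀ i ≤ n, i ≠ j → i ≠ k → ∃ σ, (Rs i).P σ) (hx : (Rs j).Gd) (hy : (Rs k).Gd)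
    (l : ZMod 2) : (chain τ Rs n).Mt l := by
  rcases lt_or_gt_of_ne hjk with h1 | h1
  · exact Z1_lt hk h1 h hx hy l
  · exact Z1_lt hj h1 (fun i hi h2 h3 => h i hi h3 h2) hy hx l

/-- a cross and a total relation with permutations around them meet every line -/
theorem ch_ct (hj : j ≤ n) (hk : k ≤ n) (hjk : j ≠ k)
    (h : ∀ i ≤ n, i ≠ j → i ≠ k → ∃ σ, (Rs i).P σ) (hx : (Rs j).Cs) (hy : (Rs k).Tt)
    (l : ZMod 2) : (chain τ Rs n).Mt l := by
  have _ := hk
  have _ := hjk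
  refine (Z1_cs hj (fun i hi hij => ?_) hx).mt l
  by_cases hik : i = k
  · exact hik ▸ hy
  · exact (h i hi hij hik).elim fun _ hσ => hσ.tt

theorem cl_mt (hj : j ≤ n) (h : ∀ i ≤ n, i ≠ j → (Rs i).P (s i)) (hx : (Rs j).Mt (s j + 1))
    (ho : ∑ i ∈ range (n + 1), (s i + τ i) = 1) : Cl τ Rs n := by
  have e : sg s τ n + τ 0 = 1 := by
    rw [← ho, sum_add_distrib, sum_range_succ' τ n, sg]
    ring
  have e' : ∀ a b : ZMod 2, a + b = 1 → a + 1 = b := by decide
  exact Z1_cl (e' _ _ e ▸ ch_mt hj h hx)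

theorem cl_gg (hj : j ≤ n) (hk : k ≤ n) (hjk : j ≠ k)
    (h : ∀ i ≤ n, i ≠ j → i ≠ k → ∃ σ, (Rs i).P σ) (hx : (Rs j).Gd) (hy : (Rs k).Gd) :
    Cl τ Rs n :=
  Z1_cl (ch_gg hj hk hjk h hx hy _)

end Rl

end Pool.Agent.Work.MP_8c679b_co
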