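import Pool.Agent.Work.MP_8c679b_co.Key.LB

/-!
A branch with two edges to one track acts as a unit.

Hints.  `joint_dq`: let `ψ+`, `ψ-` be the given values overwritten by `φ` and `-φ` on `G.tch Br`
(`Sl.neg`; put `1` on free edges where needed).  `pure_pc` gives for each of them a permutation on
`U1` and one on `U2` with explicit constants; the constants for `ψ+` and `ψ-` differ only in the
terms of `gx`, `gy` (`kap_sign`, `out_link`).  Take for `R` all realised quadruples.  By `hs` the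
two combined constants differ, so the pairs `(u, w)` that work fill two parallel lines.
`uc_joint`: `U1` is the union of the positions up to `x1`, `U2` of those from `x3` on (`seg_path`);
the middle positions give a pass of class `Gd` from `F.e M i (x1 + 1)` to `F.e M i x3` by `run_pas`
(shifted sequence, `std_pass`, `ch_gd`); `Dq.close` with `jt_cl` gives a pass of track `i` of class
`Mt (F.lam i)`; then as in `uc_two`: `trk0` for the other track, `two_trk`, `kfin'`.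
-/

set_option autoImplicit false

namespace Pool.Agent.Work.MP_8c679b_co

open Finset

variable {V E : Type} [Fintype V] [DecidableEq V] [DecidableEq E] {G : SG V E}
  {T U Z X B N N' : Finset V} {F : Kf V E} {M M' : Mb V E} {i j : Bool} {k l x y m : ℕ}
  {σ σ' π : Finset V → ZMod 2} {u : ℕ → Finset V} {h : ℕ → E} {a b c d e f : E} {v : V}
  {Zs : Finset (Finset V)} {g s : ZMod 2}
  {X' X1 X2 XQ : Finset V} {O O' O1 O2 OQ L L1 L2 : Finset E} {K K' K1 K2 KQ : Set (Finset E)}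
  {t : ZMod 2}
  {U1 U2 Br N1 N3 : Finset V} {P1 P2 OB : Finset E} {p1 p2 : V → ZMod 2} {φ : E → ZMod 3}
  {r r' gx gy : E}

namespace Kf

theorem ST3_z3 : ∀ (τ τ' σ : ZMod 2) (c x y : ZMod 3), (x = 0 ↔ y ≠ -(chi σ * chi τ') * c) →
    -chi τ * x + chi σ * (-chi τ' * y) ≠ c := by decide

theorem ST3_neg : ∀ (τ : ZMod 2) (x : ZMod 3), -chi τ * (-chi τ * x) = x := by decide

theorem jt_cl {R : Rf} {Q : Rl} {l τ τ' : ZMod 2}
    (h1 : ∀ k, ∃ σ c, ∀ u w, u + chi σ * w ≠ c → ∃ x y, R x y u w ∧ x + chi l * y = k)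
    (h2 : Q.Gd) : (Rf.cl τ τ' R Q).Mt l := by
  intro k
  obtain ⟨σ, c, h3⟩ := h1 k
  obtain ⟨u, w, h4, h5⟩ := h2.2 0 (-(chi σ * chi τ') * c)
  obtain ⟨x, y, h6, h7⟩ := h3 _ _ (ST3_z3 τ τ' σ c u w h5)
  exact ⟨x, y, ⟨_, _, h6, by rwa [ST3_neg, ST3_neg]⟩, h7⟩

/-- solving along a path with a prescribed value at the exit -/
theorem ST3_step {P : Finset E} {p ψ} (h : G.Pp U P (G.ie U a) (G.ie U b)) (ha : a ∈ G.cut U)
    (hb : b ∈ G.cut U) (hab : a ≠ b) (hp : ∀ e ∈ P, G.sw p e = 0)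
    (hO : insert a (insert b P) ⊆ O) (nz : ∀ e ∈ G.tch U, e ∉ O → ψ e ≠ 0) (y : ZMod 3) :
    ∃ χ, G.Re U O (insert a (insert b P)) ∅ ψ χ ∧ G.out U χ a = -chi (p (G.ie U a)) *
      (chi (p (G.ie U b)) * y + ∑ e ∈ (G.A.erase a).erase b, G.kap p U e * ψ e) ∧
      G.out U χ b = y := by
  obtain ⟨χ, h1, h2, h3⟩ := SG.Pure_core h ha hb hab hp ψ (-chi (p (G.ie U a)) *
    (chi (p (G.ie U b)) * y + ∑ e ∈ (G.A.erase a).erase b, G.kap p U e * ψ e)) y (by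
      linear_combination -(chi (p (G.ie U b)) * y + ∑ e ∈ (G.A.erase a).erase b,
        G.kap p U e * ψ e) * chi_mul_self (R := ZMod 3) (p (G.ie U a)))
  exact ⟨χ, ⟨h1, h2, fun e he k => by rw [h1 e fun k1 => k (hO k1)]; exact nz e he k,
    fun t ht => absurd ht (Set.notMem_empty t)⟩, h3⟩

/-- the twisted sum sees the branch only through its link -/
theorem ST3_sum {S : Finset E} {p : V → ZMod 2} {ψ χ : E → ZMod 3} {ε : ZMod 3}
    (hd : Disjoint Br U) (h1 : gx ∈ G.cut Br) (h2 : gx ∈ G.cut U) (hS : S ⊆ G.A) (hg : gx ∈ S)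
    (h3 : χ gx = ε * φ gx) (h4 : ∀ e ∈ G.tch U, e ≠ gx → χ e = ψ e) :
    ∑ e ∈ S, G.kap p U e * χ e = ∑ e ∈ S.erase gx, G.kap p U e * ψ e -
      ε * (chi (p (G.ie U gx)) * chi (G.n gx) * G.out Br φ gx) := by
  have k := SG.out_link φ hd h1 h2
  rw [SG.out] at k
  rw [← add_sum_erase _ _ hg, h3, (SG.kap_sign p h2).1,
    sum_congr rfl (g := fun e => G.kap p U e * ψ e) fun e he => by
      by_cases k1 : e ∈ G.tch U
      · rw [h4 e k1 (ne_of_mem_erase he)]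
      · rw [SG.Pure_kap0 (hS (mem_of_mem_erase he)) k1, zero_mul, zero_mul]]
  linear_combination ε * chi (p (G.ie U gx)) * k

theorem ST3_eps : ∀ D z : ZMod 3, D ≠ 0 → z ≠ 0 → ∃ ε : ZMod 3, (ε = 1 ∨ ε = -1) ∧
    2 * ε * D = z := by decide

theorem ST3_off {P : Finset E} (hd : Disjoint U X) (hP : P ⊆ G.ins U) (ha : a ∉ G.tch X)
    (hb : b ∉ G.tch X) : ∀ e ∈ insert a (insert b P), e ∉ G.tch X := by
  intro e he
  rcases mem_insert.1 he with rfl | he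
  · exact ha
  rcases mem_insert.1 he with rfl | he
  · exact hb
  exact SG.PQ_ins hd (hP he)

theorem joint_dq {l : ZMod 2} (h1 : G.Pp U1 P1 (G.ie U1 a) (G.ie U1 r))
    (h2 : G.Pp U2 P2 (G.ie U2 b) (G.ie U2 r')) (ha : a ∈ G.cut U1 ∧ a ∉ G.tch U2 ∧ a ∉ G.tch Br)
    (hr : r ∈ G.cut U1 ∧ r ∉ G.tch U2 ∧ r ∉ G.tch Br)
    (hb : b ∈ G.cut U2 ∧ b ∉ G.tch U1 ∧ b ∉ G.tch Br)
    (hr' : r' ∈ G.cut U2 ∧ r' ∉ G.tch U1 ∧ r' ∉ G.tch Br) (har : a ≠ r) (hbr : b ≠ r')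
    (d1 : Disjoint U1 U2) (d2 : Disjoint Br U1) (d3 : Disjoint Br U2)
    (hp1 : ∀ e ∈ P1, G.sw p1 e = 0) (hp2 : ∀ e ∈ P2, G.sw p2 e = 0) (hS : G.St Br OB ∅)
    (hφ : G.Sl Br OB ∅ φ) (hx : gx ∈ G.cut Br ∧ gx ∈ G.cut U1)
    (hy : gy ∈ G.cut Br ∧ gy ∈ G.cut U2)
    (hL : ∀ e ∈ G.cut Br, e = gx ∨ e = gy ∨ (e ∈ L ∧ e ∉ G.tch U1 ∧ e ∉ G.tch U2))
    (hs : chi (p1 (G.ie U1 a) + p1 (G.ie U1 gx) + G.n gx) * G.out Br φ gx =
      chi (l + p2 (G.ie U2 b) + p2 (G.ie U2 gy) + G.n gy) * G.out Br φ gy) :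
    ∃ O, G.par (O ∩ G.ins (Br ∪ U1 ∪ U2)) = G.par OB + G.par P1 + G.par P2 ∧
      G.Dq (Br ∪ U1 ∪ U2) O L ∅ a b r r' fun R => ∀ k, ∃ σ c, ∀ u w, u + chi σ * w ≠ c →
        ∃ x y, R x y u w ∧ x + chi l * y = k := by
  obtain ⟨s1, i1⟩ := h1.st ha.1 hr.1 har
  obtain ⟨s2, i2⟩ := h2.st hb.1 hr'.1 hbr
  have d4 : Disjoint (Br ∪ U1) U2 := disjoint_union_left.2 ⟨d3, d1⟩
  have n1B := ST3_off d2.symm h1.1 ha.2.2 hr.2.2
  have n12 := ST3_off d1 h1.1 ha.2.1 hr.2.1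
  have n2B := ST3_off d3.symm h2.1 hb.2.2 hr'.2.2
  have n21 := ST3_off d1.symm h2.1 hb.2.1 hr'.2.1
  have tu : ∀ e, e ∉ G.tch Br → e ∉ G.tch U1 → e ∉ G.tch (Br ∪ U1) := fun e k1 k2 k => by
    rw [SG.tch_union] at k
    exact (mem_union.1 k).elim k1 k2
  obtain ⟨t1, q1, -⟩ := SG.PQ2_core (L := ∅) (L1 := ∅) (L2 := ∅) (K1 := ∅) (K2 := ∅) hS s1 d2
    (by simp) (by simp [ha.2.2, hr.2.2]) (by simp) (by simp)
  obtain ⟨t2, q2, -⟩ := SG.PQ2_core (L := ∅) (L1 := ∅) (L2 := ∅) (K1 := ∅) (K2 := ∅) t1 s2 d4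
    (by simp [ha.2.1, hr.2.1]) (by simp [tu _ hb.2.2 hb.2.1, tu _ hr'.2.2 hr'.2.1]) (by simp)
    (by simp)
  have e1 : (∅ ∪ {a, r} ∪ {b, r'} : Finset E) = {a, b, r, r'} := by
    ext e
    simp only [mem_insert, mem_union, mem_singleton, notMem_empty]
    (clear * - ha hb hr hr' hx hy; grind)
  rw [e1] at t2
  have cJ : ∀ e ∈ ({a, b, r, r'} : Finset E), e ∈ G.cut (Br ∪ U1 ∪ U2) := fun e => SG.PQ2_cut t2
  have sub1 : U1 ⊆ Br ∪ U1 ∪ U2 := subset_union_right.trans subset_union_left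
  refine ⟨_, by rw [q2, q1, i1, i2, inter_eq_left.2 hS.sub_ins],
    ⟨fun k => ha.2.1 (k ▸ SG.cut_sub_tch hb.1), har, fun k => ha.2.1 (k ▸ SG.cut_sub_tch hr'.1),
      fun k => hr.2.1 (k ▸ SG.cut_sub_tch hb.1), hbr, fun k => hr.2.1 (k ▸ SG.cut_sub_tch hr'.1)⟩,
    t2, SG.fr_sub_tch, fun ψ hψ => ?_⟩
  set O := OB ∪ insert a (insert r P1) ∪ insert b (insert r' P2) with hO
  set Fr := G.fr (Br ∪ U1 ∪ U2) ({a, b, r, r'} ∪ L) with hFr
  have oB : ∀ e ∈ G.tch Br, e ∈ O ↔ e ∈ OB := fun e he =>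
    ⟨fun k => (mem_union.1 k).elim (fun k => (mem_union.1 k).resolve_right fun k => n1B e k he)
      fun k => absurd he (n2B e k), fun k => mem_union_left _ (mem_union_left _ k)⟩
  have fI : G.ins (Br ∪ U1 ∪ U2) ⊆ Fr := subset_union_left
  have fJ : ∀ e ∈ ({a, b, r, r'} : Finset E), e ∈ Fr := fun e he =>
    mem_union_right _ (mem_inter.2 ⟨cJ e he, mem_union_left _ he⟩)
  have hF : G.tch Br ∪ insert a (insert r P1) ∪ insert b (insert r' P2) ⊆ Fr := by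
    refine union_subset (union_subset (fun e he => ?_) (insert_subset (fJ _ (by simp))
      (insert_subset (fJ _ (by simp)) (h1.1.trans ((SG.ins_mono sub1).trans fI)))))
      (insert_subset (fJ _ (by simp)) (insert_subset (fJ _ (by simp))
        (h2.1.trans ((SG.ins_mono subset_union_right).trans fI))))
    rcases SG.mem_tch_iff.1 he with k | k
    · exact fI (SG.ins_mono (subset_union_left.trans subset_union_left) k)
    rcases hL e k with rfl | rfl | ⟨k1, k2, k3⟩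
    · exact fI (SG.ins_mono subset_union_left (SG.ie_link d2 hx.1 hx.2).2)
    · exact fI (SG.ins_mono (union_subset_union_left subset_union_left) (SG.ie_link d3 hy.1 hy.2).2)
    · exact mem_union_right _ (mem_inter.2 ⟨SG.Pure_cu (SG.Pure_cu k k2) k3, mem_union_right _ k1⟩)
  set ψ0 : E → ZMod 3 := fun e => if e ∈ Fr then 1 else ψ e with hψ0
  have z0 : ∀ e ∈ G.tch (Br ∪ U1 ∪ U2), e ∉ O → ψ0 e ≠ 0 := fun e he k =>
    SG.Ab_over (Fr := ∅) hψ (χ := fun _ => 1) (fun _ => one_ne_zero) e he (notMem_empty e) k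
  have l1 : ∀ e ∈ G.tch Br, e ∈ G.tch U1 → e = gx := fun e k1 k2 => by
    rcases hL e (SG.Ab_link d2 k1 k2).1 with k | rfl | k
    exacts [k, (SG.Quo_three d2 d3 d1 k1 k2 (SG.cut_sub_tch hy.2)).elim, absurd k2 k.2.1]
  have l2 : ∀ e ∈ G.tch Br, e ∈ G.tch U2 → e = gy := fun e k1 k2 => by
    rcases hL e (SG.Ab_link d3 k1 k2).1 with rfl | k | k
    exacts [(SG.Quo_three d2 d3 d1 k1 (SG.cut_sub_tch hx.2) k2).elim, k, absurd k2 k.2.2]
  have xB := SG.cut_sub_tch hx.1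
  have yB := SG.cut_sub_tch hy.1
  have xS : gx ∈ (G.A.erase a).erase r := mem_erase.2 ⟨fun k => hr.2.2 (k ▸ xB),
    mem_erase.2 ⟨fun k => ha.2.2 (k ▸ xB), SG.Pure_cutA hx.1⟩⟩
  have yS : gy ∈ (G.A.erase b).erase r' := mem_erase.2 ⟨fun k => hr'.2.2 (k ▸ yB),
    mem_erase.2 ⟨fun k => hb.2.2 (k ▸ yB), SG.Pure_cutA hy.1⟩⟩
  have hD : chi (p1 (G.ie U1 a) + p1 (G.ie U1 gx) + G.n gx) * G.out Br φ gx ≠ 0 :=
    mul_ne_zero (SG.sol1_chi_ne _) ((SG.out_ne hx.1).2 (hφ.2.1 gx xB fun k =>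
      SG.not_ins_of_cut hx.1 (hS.sub_ins k)))
  set T1 : ZMod 3 := ∑ e ∈ ((G.A.erase a).erase r).erase gx, G.kap p1 U1 e * ψ0 e with hT1
  set T2 : ZMod 3 := ∑ e ∈ ((G.A.erase b).erase r').erase gy, G.kap p2 U2 e * ψ0 e with hT2
  refine ⟨fun x y u w => ∃ χ, G.Re (Br ∪ U1 ∪ U2) O Fr ∅ ψ χ ∧ G.out (Br ∪ U1 ∪ U2) χ a = x ∧
    G.out (Br ∪ U1 ∪ U2) χ b = y ∧ G.out (Br ∪ U1 ∪ U2) χ r = u ∧ G.out (Br ∪ U1 ∪ U2) χ r' = w,
    fun k => ⟨p1 (G.ie U1 a) + p1 (G.ie U1 r) + (l + p2 (G.ie U2 b) + p2 (G.ie U2 r')),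
      -chi (p1 (G.ie U1 a) + p1 (G.ie U1 r)) *
        (k + chi (p1 (G.ie U1 a)) * T1 + chi (l + p2 (G.ie U2 b)) * T2), fun u w huw => ?_⟩,
    fun _ _ _ _ k => k⟩
  obtain ⟨ε, hε, eε⟩ := ST3_eps _ (chi (p1 (G.ie U1 a) + p1 (G.ie U1 r)) * u +
    chi (l + p2 (G.ie U2 b) + p2 (G.ie U2 r')) * w +
      (k + chi (p1 (G.ie U1 a)) * T1 + chi (l + p2 (G.ie U2 b)) * T2)) hD fun k0 => huw (by
    rw [chi_add (p1 (G.ie U1 a) + p1 (G.ie U1 r))]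
    linear_combination chi (p1 (G.ie U1 a) + p1 (G.ie U1 r)) * k0 -
      u * chi_mul_self (R := ZMod 3) (p1 (G.ie U1 a) + p1 (G.ie U1 r)))
  set χ0 : E → ZMod 3 := fun e => if e ∈ G.tch Br then ε * φ e else ψ0 e with hχ0
  have r0 : G.Re Br O (G.tch Br) ∅ ψ0 χ0 := by
    refine ⟨fun e he => if_neg he, ?_⟩
    rcases hε with rfl | rfl
    · exact hφ.congr (fun e he => (if_pos he).trans (one_mul _)) oB
    · exact hφ.neg.congr (fun e he => (if_pos he).trans (neg_one_mul _)) oB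
  have z1 : ∀ e ∈ G.tch (Br ∪ U1 ∪ U2), e ∉ O → χ0 e ≠ 0 := fun e he k => by
    by_cases k1 : e ∈ G.tch Br
    · exact r0.2.2.1 e k1 k
    · rw [r0.1 e k1]
      exact z0 e he k
  obtain ⟨χ1, r1, a1, a2⟩ := ST3_step h1 ha.1 hr.1 har hp1
    (subset_union_right.trans subset_union_left : _ ⊆ O)
    (fun e he => z1 e (SG.tch_mono sub1 he)) u
  obtain ⟨χ2, r2, b1, b2⟩ := ST3_step h2 hb.1 hr'.1 hbr hp2 (subset_union_right : _ ⊆ O)
    (ψ := χ1) (fun e he k => by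
      rw [r1.1 e fun k1 => n12 e k1 he]
      exact z1 e (SG.tch_mono subset_union_right he) k) w
  rw [ST3_sum (φ := φ) (ψ := ψ0) (χ := χ0) (ε := ε) d2 hx.1 hx.2
    ((erase_subset _ _).trans (erase_subset _ _)) xS (if_pos xB)
    fun e he k => if_neg fun k1 => k (l1 e k1 he)] at a1
  rw [ST3_sum (φ := φ) (ψ := ψ0) (χ := χ1) (ε := ε) d3 hy.1 hy.2
    ((erase_subset _ _).trans (erase_subset _ _)) yS
    ((r1.1 gy fun k => n1B gy k yB).trans (if_pos yB)) fun e he k =>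
      (r1.1 e fun k1 => n12 e k1 he).trans (if_neg fun k1 => k (l2 e k1 he))] at b1
  have r3 := SG.Ab_re (SG.Ab_then (SG.Ab_then r0 r1 (disjoint_left.2 n1B)) r2
    (disjoint_left.2 fun e he => tu e (n2B e he) (n21 e he))) hF
  rw [Set.union_empty, Set.union_empty] at r3
  have o1 : ∀ e ∈ ({a, b, r, r'} : Finset E), e ∈ G.cut U1 →
      G.out (Br ∪ U1 ∪ U2) χ2 e = G.out U1 χ1 e := fun e he k => by
    rw [← SG.out_sub χ2 sub1 (cJ e he) (SG.cut_sub_tch k), SG.out, SG.out,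
      r2.1 e fun k1 => n21 e k1 (SG.cut_sub_tch k)]
  have o2 : ∀ e ∈ ({a, b, r, r'} : Finset E), e ∈ G.cut U2 →
      G.out (Br ∪ U1 ∪ U2) χ2 e = G.out U2 χ2 e := fun e he k =>
    (SG.out_sub χ2 subset_union_right (cJ e he) (SG.cut_sub_tch k)).symm
  refine ⟨_, _, ⟨χ2, r3, rfl, rfl, (o1 r (by simp) hr.1).trans a2,
    (o2 r' (by simp) hr'.1).trans b2⟩, ?_⟩
  rw [o1 a (by simp) ha.1, o2 b (by simp) hb.1, a1, b1]
  simp only [chi_add] at hs eε ⊢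
  linear_combination eε - ε * hs

theorem ST3_cut {I : Finset ℕ} {w : ℕ → Finset V} (hk : k ∈ I) (he : e ∈ G.cut (w k))
    (ho : ∀ l ∈ I, l ≠ k → e ∉ G.tch (w l)) :
    e ∈ G.cut (I.biUnion w) ∧ G.ie (I.biUnion w) e = G.ie (w k) e := by
  have key : ∀ v, G.At e v → (v ∈ I.biUnion w ↔ v ∈ w k) := fun v hv => by
    refine ⟨fun h => ?_, fun h => mem_biUnion.2 ⟨k, hk, h⟩⟩
    obtain ⟨l, h1, h2⟩ := mem_biUnion.1 h
    by_cases h3 : l = k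
    · exact h3 ▸ h2
    · exact absurd (SG.Cut_tch (SG.Pure_cutA he) hv h2) (ho l h1 h3)
  have k1 : e ∈ G.cut (I.biUnion w) := SG.mem_cut.2 ⟨SG.Pure_cutA he, by
    rw [key _ (Or.inl rfl), key _ (Or.inr rfl)]
    exact (SG.mem_cut.1 he).2⟩
  exact ⟨k1, (SG.cut_of_sub (subset_biUnion_of_mem w hk) k1 (SG.cut_sub_tch he)).2.symm⟩

theorem seg_path (h : F.Ok G T) (hM : F.IsM G M) (hx : x ≤ y) (hy : y ≤ M.n i)
    (hr : ∀ k, x ≤ k → k ≤ y → M.w i k ∉ F.Bs) (hU : U = (Icc x y).biUnion (M.w i)) :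
    ∃ P p, G.Pp U P (G.ie U (F.e M i x)) (G.ie U (F.e M i (y + 1))) ∧ (∀ e ∈ P, G.sw p e = 0) ∧
      G.par P = ∑ k ∈ Ico x y, G.n (M.g i k) ∧ F.e M i x ∈ G.cut U ∧ F.e M i (y + 1) ∈ G.cut U ∧
      M.w i x = {G.ie U (F.e M i x)} ∧ M.w i y = {G.ie U (F.e M i (y + 1))} := by
  obtain ⟨m, rfl⟩ := Nat.exists_eq_add_of_le hx
  have hv : ∀ k, ∃ v, k ≤ m → M.w i (x + k) = {v} := fun k => by
    by_cases hk : k ≤ m
    · obtain ⟨v, -, h0, -⟩ := (hM.node h.wf (by omega : x + k ≤ M.n i)).2.2.2.resolve_left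
        (hr _ (by omega) (by omega))
      exact ⟨v, fun _ => h0⟩
    · exact ⟨F.v0, fun k => absurd k hk⟩
  choose v hv using hv
  have one : ∀ k ≤ m, ∀ e ∈ G.cut (M.w i (x + k)), G.ie (M.w i (x + k)) e = v k :=
    fun k hk e he => by
      have k1 := SG.ie_mem (SG.cut_sub_tch he)
      generalize G.ie (M.w i (x + k)) e = z at k1
      rwa [hv k hk, mem_singleton] at k1
  have lk := fun k (hk : k < m) => SG.quo_je_inv h.wf.pd ((hM.pth i).mem (x + k) (by omega))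
    ((hM.pth i).jn (x + k) (by omega))
  have hp : G.Pth G.A m v fun k => M.g i (x + k) := by
    refine ⟨fun k hk l hl e => ?_, fun k hk => SG.Pure_cutA (lk k hk).1, fun k hk => ?_⟩
    · have := (hM.pth i).inj (x + k) (by omega) (x + l) (by omega) (by rw [hv k hk, hv l hl, e])
      omega
    · rw [← one k hk.le _ (lk k hk).1, ← one (k + 1) hk _ (lk k hk).2.1]
      exact (lk k hk).2.2.2.2.2.2
  have eU : U = pv m v := by
    ext z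
    rw [hU, mem_biUnion, mem_pv]
    constructor
    · rintro ⟨k, h1, h2⟩
      obtain ⟨k, rfl⟩ := Nat.exists_eq_add_of_le (mem_Icc.1 h1).1
      have h3 : k ≤ m := by have := (mem_Icc.1 h1).2; omega
      rw [hv k h3, mem_singleton] at h2
      exact ⟨k, h3, h2.symm⟩
    · rintro ⟨k, h1, rfl⟩
      exact ⟨x + k, mem_Icc.2 ⟨by omega, by omega⟩, by rw [hv k h1]; exact mem_singleton_self _⟩
  have c1 := ((hM.trk h.wf i).1.2.2 x (by omega)).1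
  have c2 := ((hM.trk h.wf i).1.2.2 (x + m) hy).2.1
  obtain ⟨a1, a2⟩ := ST3_cut (I := Icc x (x + m)) (mem_Icc.2 ⟨le_rfl, hx⟩) c1 fun l h1 h2 h3 => by
    have := mem_Icc.1 h1
    have := ((hM.e_tch h.wf (by omega) (by omega : l ≤ M.n i)).1 h3).2
    omega
  obtain ⟨b1, b2⟩ := ST3_cut (I := Icc x (x + m)) (mem_Icc.2 ⟨hx, le_rfl⟩) c2 fun l h1 h2 h3 => by
    have := mem_Icc.1 h1
    have := ((hM.e_tch h.wf (by omega) (by omega : l ≤ M.n i)).1 h3).2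
    omega
  rw [← hU] at a1 a2 b1 b2
  rw [a2.trans (one 0 (Nat.zero_le _) _ c1), b2.trans (one m le_rfl _ c2)]
  obtain ⟨p, h1, -⟩ := hp.pot
  refine ⟨_, p, eU ▸ hp.pp Subset.rfl, h1, ?_, a1, b1, hv 0 (Nat.zero_le _), hv m le_rfl⟩
  rw [hp.par, sum_Ico_eq_sum_range, Nat.add_sub_cancel_left]

omit [Fintype V] in
theorem ST3_u_cut {n : ℕ} {Xs : ℕ → Finset V} (hk : k ≤ n) (h1 : e ∈ G.cut (Xs k))
    (h2 : ∀ l ≤ n, l ≠ k → e ∉ G.tch (Xs l)) : e ∈ G.cut (bu n Xs) := by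
  have hA := (SG.mem_cut.1 h1).1
  have k1 : ∀ v, (G.s e = v ∨ G.t e = v) → (v ∈ bu n Xs ↔ v ∈ Xs k) := fun v hv =>
    ⟨fun k2 => by
      obtain ⟨l, l1, l2⟩ := mem_bu.1 k2
      by_contra l3
      exact h2 l l1 (fun l4 => l3 (l4 ▸ l2))
        (SG.mem_tch.2 ⟨hA, by rcases hv with rfl | rfl <;> simp [l2]⟩),
    fun k2 => mem_bu.2 ⟨_, hk, k2⟩⟩
  refine SG.mem_cut.2 ⟨hA, ?_⟩
  rw [k1 _ (Or.inl rfl), k1 _ (Or.inr rfl)]
  exact (SG.mem_cut.1 h1).2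

theorem ST3_u_uq (hw : F.Wf G) (hM : F.IsM G M) (hk : k ≤ M.n i) (hl : l ≤ M.n j)
    (h1 : v ∈ M.w i k) (h2 : v ∈ M.w j l) : j = i ∧ l = k := by
  by_contra k1
  exact disjoint_left.1 (hM.disj hw hk hl k1) h1 h2

theorem ST3_u_nt (hw : F.Wf G) (hM : F.IsM G M) (hk : k ≤ M.n i + 1)
    (hU : ∀ v ∈ U, v ∈ F.rest M ∨ ∃ l ≤ M.n i, l ≠ k ∧ l + 1 ≠ k ∧ v ∈ M.w i l) :
    F.e M i k ∉ G.tch U := by
  have k1 : ∀ x ≤ M.n i, (x = k ∨ x + 1 = k) → Disjoint U (M.w i x) := fun x hx h1 =>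
    disjoint_left.2 fun v a1 a2 => (hU v a1).elim (disjoint_left.1 (rest_disj hx) a2)
      fun ⟨l, b1, b2, b3, b4⟩ => by
        have := (ST3_u_uq hw hM hx b1 a2 b4).2
        omega
  refine MB1_not hw hM hk (fun v a1 => (hU v a1).elim (fun k => (mem_rest.1 k).1)
    fun ⟨l, b1, _, _, b4⟩ => (hM.node hw b1).2.2.1 b4) (fun k2 => k1 k k2 (Or.inl rfl))
    fun x hx => k1 x (by omega) (Or.inr hx)

/-- the positions `y, …, y + m` with a good pass at `y + l` -/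
theorem ST3_u_mid (h : F.Ok G T) (hM : F.IsM G M) (hq : F.QS G M σ π i {N}) (hl : l ≤ m)
    (hm : y + m ≤ M.n i) (hN : M.w i (y + l) = N)
    (h2 : G.Pas0 X O (F.e M i (y + l)) (F.e M i (y + l + 1)) L K Rl.Gd)
    (s1 : X ⊆ N ∪ F.rest M) (hL : ∀ e ∈ L, e ∈ G.cut X → e ∈ G.tch Z) (z1 : Disjoint X Z)
    (z2 : ∀ k ≤ M.n i, Disjoint (M.w i k) Z) :
    ∃ X' O' K', G.Pas0 X' O' (F.e M i y) (F.e M i (y + (m + 1))) (G.tch Z) K' Rl.Gd ∧
      G.par (O' ∩ G.ins X') = G.par (O ∩ G.ins X) +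
        (∑ k ∈ range (m + 1), if M.w i (y + k) ∈ F.Bs ∧ M.w i (y + k) ∉ ({N} : Finset (Finset V))
          then π (M.w i (y + k)) else 0) + ∑ k ∈ range m, G.n (M.g i (y + k)) ∧
      (∀ v, v ∈ X' ↔ v ∈ X ∨ ∃ k ≤ m, k ≠ l ∧ v ∈ F.xs M σ i (y + k)) ∧ K ⊆ K' ∧
      ∀ k ≤ m, k ≠ l → ∀ c d, M.w i (y + k) ∈ F.Bs →
        G.Q4 (M.w i (y + k)) (F.e M i (y + k)) (F.e M i (y + k + 1)) c d →
        G.Kp (M.w i (y + k)) (F.xs M σ i (y + k)) c d ⊆ K' := by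
  have hw := h.wf
  obtain ⟨Xs, x1, x2⟩ : ∃ Xs : ℕ → Finset V, Xs l = X ∧ ∀ k, k ≠ l → Xs k = F.xs M σ i (y + k) :=
    ⟨fun k => if k = l then X else F.xs M σ i (y + k), if_pos rfl, fun k hk => if_neg hk⟩
  have w1 : ∀ k ≤ m, k ≠ l → Xs k ⊆ M.w i (y + k) := fun k a1 a2 =>
    x2 k a2 ▸ (xs_sub h hM (by omega)).1
  have w2 : ∀ k ≤ m, Xs k ⊆ M.w i (y + k) ∪ F.rest M := fun k a1 => by
    by_cases a2 : k = l
    · rw [a2, x1, hN]
      exact s1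
    · exact (w1 k a1 a2).trans subset_union_left
  have w3 : ∀ k ≤ m, ∀ k' ≤ m, k ≠ k' → k ≠ l → Disjoint (Xs k) (Xs k') := fun k a1 k' a2 a3 a4 =>
    (disjoint_union_right.2 ⟨hM.disj hw (by omega) (by omega) (by omega),
      rest_disj (by omega)⟩).mono (w1 k a1 a4) (w2 k' a2)
  have w4 : Disjoint (bu m Xs) Z := disjoint_left.2 fun v a1 => by
    obtain ⟨k, a2, a3⟩ := mem_bu.1 a1
    by_cases a4 : k = l
    · exact disjoint_left.1 z1 (x1 ▸ a4 ▸ a3)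
    · exact disjoint_left.1 (z2 _ (by omega)) (w1 k a2 a4 a3)
  have w5 : ∀ k ≤ m, ∀ r ≤ M.n i + 1, y + k ≠ r → y + k + 1 ≠ r → F.e M i r ∉ G.tch (Xs k) :=
    fun k a1 r a2 a3 a4 => ST3_u_nt hw hM a2 fun v a5 =>
      (mem_union.1 (w2 k a1 a5)).symm.imp_right fun a6 => ⟨_, by omega, a3, a4, a6⟩
  have ex : ∀ k ≤ m, ∃ O' K', G.Pas0 (Xs k) O' (F.e M i (y + k)) (F.e M i (y + (k + 1)))
      (G.tch Z ∩ G.cut (bu m Xs)) K' (fun R => (k = l → R.Gd) ∧ (k ≠ l → ∃ s, R.P s)) ∧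
      G.par (O' ∩ G.ins (Xs k)) = (if k = l then G.par (O ∩ G.ins X) else 0) +
        (if M.w i (y + k) ∈ F.Bs ∧ M.w i (y + k) ∉ ({N} : Finset (Finset V))
          then π (M.w i (y + k)) else 0) ∧ (k = l → K ⊆ K') ∧
      (k ≠ l → ∀ c d, M.w i (y + k) ∈ F.Bs →
        G.Q4 (M.w i (y + k)) (F.e M i (y + k)) (F.e M i (y + k + 1)) c d →
        G.Kp (M.w i (y + k)) (F.xs M σ i (y + k)) c d ⊆ K') := fun k a1 => by
    by_cases a2 : k = l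
    · subst a2
      rw [x1, if_pos rfl, if_neg fun a3 => a3.2 (mem_singleton.2 hN), add_zero]
      refine ⟨O, K, (h2.monoL fun e b1 b2 => mem_inter.2 ⟨hL e b2 b1, (SG.Ab_link w4 ?_
        (hL e b2 b1)).1⟩).imp fun R b => ⟨fun _ => b, fun b => absurd rfl b⟩, rfl,
        fun _ => Set.Subset.rfl, fun b => absurd rfl b⟩
      exact SG.tch_mono (SG.Run_sub a1) (x1 ▸ SG.cut_sub_tch b1)
    · have a3 : M.w i (y + k) ∉ ({N} : Finset (Finset V)) := fun a3 => by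
        have := (hM.inj (by omega) (by omega) ((mem_singleton.1 a3).trans hN.symm)).2
        omega
      obtain ⟨O', K', b1, b2, b3⟩ := std_pass h hM hq (k := y + k) (by omega) a3
      rw [x2 k a2, if_neg a2, zero_add]
      refine ⟨O', K', (b1.monoL fun e _ b => absurd b (notMem_empty e)).imp
        fun R b => ⟨fun b => absurd b a2, fun _ => ⟨_, b⟩⟩, ?_, fun b => absurd b a2, fun _ => b3⟩
      simp only [b2, a3, not_false_eq_true, and_true]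
  choose! Os Ks p1 p2 p3 p4 using ex
  obtain ⟨q1, q2⟩ := SG.run_pas (e := fun k => F.e M i (y + k)) (C0 := Rl.Gd)
    (fun k a => SG.Run_sub a)
    (fun k a1 k' a2 a3 => if a4 : k = l then (w3 k' a2 k a1 a3.symm (a4 ▸ a3.symm)).symm
      else w3 k a1 k' a2 a3 a4) inter_subset_right p1
    (ST3_u_cut (Nat.zero_le m) (p1 0 (Nat.zero_le m)).cut.1 fun k a1 a2 =>
      w5 k a1 _ (by omega) (by omega) (by omega))
    (ST3_u_cut le_rfl (p1 m le_rfl).cut.2.1 fun k a1 a2 =>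
      w5 k a1 _ (by omega) (by omega) (by omega))
    (fun a => by
      have := (hM.e_inj hw (by omega) (by omega) a).2
      omega)
    fun Rs a => Rl.ch_gd hl (fun k a1 a2 => (a k a1).2 a2) ((a l hl).1 rfl)
  refine ⟨_, _, _, q1.monoL fun e _ a => (mem_inter.1 a).1, ?_, fun v => ?_,
    fun t a => ⟨l, hl, p3 l hl rfl a⟩,
    fun k a1 a2 c d a3 a4 t a5 => ⟨k, a1, p4 k a1 a2 c d a3 a4 a5⟩⟩
  · rw [q2, sum_congr rfl fun k a => p2 k (Nat.le_of_lt_succ (mem_range.1 a)), sum_add_distrib,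
      sum_ite_eq', if_pos (mem_range.2 (Nat.lt_succ_of_le hl))]
    congr 1
    exact sum_congr rfl fun k a => congrArg G.n
      (e_succ (k := y + k) (by have := mem_range.1 a; omega))
  · rw [mem_bu]
    constructor
    · rintro ⟨k, a1, a2⟩
      by_cases a3 : k = l
      · exact Or.inl (x1 ▸ a3 ▸ a2)
      · exact Or.inr ⟨k, a1, a3, x2 k a3 ▸ a2⟩
    · rintro (a | ⟨k, a1, a2, a3⟩)
      · exact ⟨l, hl, x1 ▸ a⟩
      · exact ⟨k, a1, x2 k a2 ▸ a3⟩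

/-- the two tracks of two rings, track `i` first -/
theorem ST3_u_two (hw : F.Wf G) (hty : F.ty = false)
    (h1 : G.Pas0 X1 O1 (F.p i) (F.q i) (G.tch (XQ ∪ X2)) K1 (Rl.Mt (F.lam i)))
    (h2 : G.Pas0 X2 O2 (F.p (!i)) (F.q (!i)) ∅ K2 (Rl.Mt (F.lam (!i))))
    (hQ : G.Abs0 XQ OQ ∅ KQ) (s1 : X1 ⊆ F.Y) (s2 : X2 ⊆ F.Y) (sQ : XQ ⊆ F.Y)
    (d1 : Disjoint X1 X2) (d2 : Disjoint X1 XQ) (d3 : Disjoint X2 XQ) :
    F.WkF G (X1 ∪ X2 ∪ XQ) (F.lam true) (G.par (O1 ∩ G.ins X1) + G.par (O2 ∩ G.ins X2) + G.par OQ)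
      (K1 ∪ K2 ∪ KQ) := by
  have hC : ∀ R : Bool → Rl, (∀ j, (R j).Mt (F.lam j)) → CL F.ty (F.lam false) (F.lam true) R :=
    fun R a => by
      rw [CL, hty, if_neg Bool.false_ne_true]
      exact ⟨a false, a true⟩
  have hL : ∀ e ∈ G.tch (XQ ∪ X2), e ∈ G.tch XQ ∨ e ∈ G.tch X2 := fun e a =>
    mem_union.1 (SG.tch_union (G := G) ▸ a)
  cases i
  · exact two_trk hw (X := fun j => cond j X2 X1) (O := fun j => cond j O2 O1)
      (L := fun j => cond j ∅ (G.tch (XQ ∪ X2))) (K := fun j => cond j K2 K1)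
      (C := fun j => Rl.Mt (F.lam j)) false (fun j => by cases j <;> assumption)
      (fun j => by cases j <;> assumption) d1 hQ sQ (fun j => by cases j <;> assumption)
      (fun j e a _ => by
        cases j
        · exact (hL e a).imp_right fun b => ⟨hty, rfl, b⟩
        · exact absurd a (notMem_empty e)) hC
  · rw [union_comm X1, Set.union_comm K1, add_comm (G.par (O1 ∩ _))]
    exact two_trk hw (X := fun j => cond j X1 X2) (O := fun j => cond j O1 O2)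
      (L := fun j => cond j (G.tch (XQ ∪ X2)) ∅) (K := fun j => cond j K1 K2)
      (C := fun j => Rl.Mt (F.lam j)) true (fun j => by cases j <;> assumption)
      (fun j => by cases j <;> assumption) d1.symm hQ sQ (fun j => by cases j <;> assumption)
      (fun j e a _ => by
        cases j
        · exact absurd a (notMem_empty e)
        · exact (hL e a).imp_right fun b => ⟨hty, rfl, b⟩) hC

/-- finishing when one node is treated specially -/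
theorem ST3_u_fin {ε : ZMod 2} (h : F.Ok G T) (hM : F.IsM G M) (hx : x ≤ M.n i) (hN : M.w i x = N)
    (s1 : X ⊆ N ∪ F.rest M) (hX : ∀ v, v ∈ X' ↔ (∃ j, v ∈ F.xo M σ j {N}) ∨ v ∈ X)
    (hW : F.WkF G X' t ε K') (k1 : ∀ j, F.ko G M σ j {N} ⊆ K') (k2 : K ⊆ K')
    (hb : ∀ B ∈ F.Bs, (B = N ∨ B ⊆ F.rest M) → G.BK1 B X K F.v0)
    (ht : F.f = true ∨ t = F.lam true)
    (hg : G.FH ((F.W0 M σ ∪ N) \ X) ∨ g + F.lam false + t = ε + G.nu ((F.W0 M σ ∪ N) \ X)) :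
    F.WinN G g := by
  have hw := h.wf
  have hNY : N ⊆ F.Y := hN ▸ (hM.node hw hx).2.2.1
  have o1 : ∀ v j, v ∈ F.xo M σ j {N} → v ∈ F.Y ∧ v ∉ N ∧ v ∉ F.rest M := fun v j a => by
    obtain ⟨k, a1, a2, a3⟩ := mem_xo.1 a
    have a4 := (xs_sub h hM a1).1 a3
    refine ⟨(hM.node hw a1).2.2.1 a4, fun a5 => a2 ?_, disjoint_left.1 (rest_disj a1) a4⟩
    obtain ⟨rfl, rfl⟩ := ST3_u_uq hw hM a1 hx a4 (hN ▸ a5)
    exact mem_singleton.2 hN
  have hY : F.Y \ X' = (F.W0 M σ ∪ N) \ X := by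
    ext v
    rw [mem_sdiff, mem_sdiff, hX, not_or, ← and_assoc, mem_union, MB4_W0]
    refine and_congr_left' ⟨fun ⟨a1, a2⟩ => or_iff_not_imp_right.2 fun a3 =>
      ⟨a1, fun j k a4 a5 => a2 ⟨j, mem_xo.2 ⟨k, a4, fun a6 => a3 ?_, a5⟩⟩⟩, ?_⟩
    · exact mem_singleton.1 a6 ▸ (xs_sub h hM a4).1 a5
    · rintro (⟨a1, a2⟩ | a1)
      · refine ⟨a1, fun ⟨j, a3⟩ => ?_⟩
        obtain ⟨k, a4, -, a5⟩ := mem_xo.1 a3
        exact a2 j k a4 a5
      · exact ⟨hNY a1, fun ⟨j, a3⟩ => (o1 v j a3).2.1 a1⟩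
  refine kfin' h (fun v a => ((hX v).1 a).elim (fun ⟨j, b⟩ => (o1 v j b).1) fun b =>
    (mem_union.1 (s1 b)).elim (@hNY v) fun b => (mem_rest.1 b).1) hW (Or.inl rfl)
    (fun B a1 => ?_) ht (hY ▸ hg)
  by_cases a2 : B = N ∨ B ⊆ F.rest M
  · refine (hb B a1 a2).congr (ext fun v => ?_) k2
    rw [mem_inter, mem_inter, hX]
    exact and_congr_right fun a3 => or_iff_right fun ⟨j, b⟩ =>
      a2.elim (fun c => (o1 v j b).2.1 (c ▸ a3)) fun c => (o1 v j b).2.2 (c a3)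
  · obtain ⟨j, k, a3, rfl⟩ := (hM.box hw a1).resolve_left fun a3 => a2 (Or.inr a3)
    have a4 : M.w j k ∉ ({N} : Finset (Finset V)) := fun a4 => a2 (Or.inl (mem_singleton.1 a4))
    refine bk_std h hM a3 a4 (k1 j) (ext fun v => ?_)
    rw [mem_inter, hX]
    constructor
    · rintro ⟨b1, ⟨j', b2⟩ | b2⟩
      · obtain ⟨k', b3, -, b4⟩ := mem_xo.1 b2
        obtain ⟨rfl, rfl⟩ := ST3_u_uq hw hM a3.1 b3 b1 ((xs_sub h hM b3).1 b4)
        exact b4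
      · rcases mem_union.1 (s1 b2) with b3 | b3
        · obtain ⟨rfl, rfl⟩ := ST3_u_uq hw hM a3.1 hx b1 (hN ▸ b3)
          exact absurd (mem_singleton.2 hN) a4
        · exact absurd b3 (disjoint_left.1 (rest_disj a3.1) b1)
    · exact fun b => ⟨(xs_sub h hM a3.1).1 b, Or.inl ⟨j, mem_xo.2 ⟨k, a3.1, a4, b⟩⟩⟩

theorem ST3_u_sum (f : ℕ → ZMod 2) {x m n : ℕ} (h : x + 1 + (m + 1) ≤ n) :
    ∑ k ∈ range n, f k = ∑ k ∈ Ico 0 x, f k + ∑ k ∈ Ico (x + 1 + (m + 1)) n, f k +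
      ∑ k ∈ range m, f (x + 1 + k) + (f x + f (x + 1 + m)) := by
  rw [← sum_range_add_sum_Ico f h, sum_range_add, sum_range_succ, sum_range_succ, range_eq_Ico x]
  ring

theorem ST3_u_sum2 (f : ℕ → ZMod 2) {y m n : ℕ} (h : y + m ≤ n)
    (h0 : ∀ k < n, (k < y ∨ y + m ≤ k) → f k = 0) :
    ∑ k ∈ range n, f k = ∑ k ∈ range m, f (y + k) := by
  rw [← sum_range_add_sum_Ico f h, sum_range_add, sum_eq_zero fun k a => h0 k
    (by have := mem_range.1 a; omega) (Or.inl (mem_range.1 a)), sum_eq_zero (s := Ico _ _)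
    fun k a => h0 k (mem_Ico.1 a).2 (Or.inr (mem_Ico.1 a).1), zero_add, add_zero]

theorem ST3_u_or {a b c d e f g : Prop} :
    ((((a ∨ b) ∨ c) ∨ d ∨ e) ∨ f) ∨ g ↔ ((b ∨ c ∨ e) ∨ f) ∨ (d ∨ a) ∨ g := by
  tauto

theorem ST3_u_sg : ∀ (a b l c d : ZMod 2) (x y : ZMod 3), chi (a + b + l + c + d) * x = y →
    chi (a + c) * x = chi (l + b + d) * y := by
  decide

theorem uc_joint (h : F.Ok G T) (hM : F.IsM G M) (hty : F.ty = false) (ho : F.Oc G M σ i)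
    (hj : F.Jt G M i N1 N N3 a b s) (hq : ∀ j, F.QS G M σ π j {N})
    (h2 : G.Pas0 X O a b L K Rl.Gd) (hQ : G.Abs0 XQ OQ ∅ KQ) (hS : G.St Br OB ∅)
    (hφ : G.Sl Br OB ∅ φ) (hx : gx ∈ G.cut Br ∧ gx ∈ G.cut N1)
    (hy : gy ∈ G.cut Br ∧ gy ∈ G.cut N3)
    (hBr : ∀ e ∈ G.cut Br, e = gx ∨ e = gy ∨ e ∈ G.tch XQ ∨ e ∈ G.tch (F.xt M σ (!i)))
    (hsg : chi (s + F.lam i + G.n gx + G.n gy) * G.out Br φ gx = G.out Br φ gy)
    (s1 : X ⊆ N ∪ F.rest M) (s2 : Br ⊆ F.rest M) (sQ : XQ ⊆ F.rest M) (d1 : Disjoint X Br)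
    (d2 : Disjoint X XQ) (d3 : Disjoint Br XQ)
    (hL : ∀ e ∈ L, e ∈ G.cut X → e ∈ G.tch XQ ∨ e ∈ G.tch (F.xt M σ (!i)))
    (hb : ∀ B ∈ F.Bs, (B = N ∨ B ⊆ F.rest M) → G.BK1 B (X ∪ Br ∪ XQ) (K ∪ KQ) F.v0)
    (hg : G.FH ((F.W0 M σ ∪ N) \ (X ∪ Br ∪ XQ)) ∨
      g + F.lam false + F.lam true = F.tz G M π false {N} + F.tz G M π true {N} +
        (G.par (O ∩ G.ins X) + G.par OB + G.par OQ) + G.nu ((F.W0 M σ ∪ N) \ (X ∪ Br ∪ XQ))) :
    F.WinN G g := by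
  have hw := h.wf
  obtain ⟨x1, x, x3, l1, l2, l3, rfl, hN, rfl, rfl, rfl, hr, rfl⟩ := hj
  obtain ⟨l, rfl⟩ : ∃ l, x = x1 + 1 + l := ⟨x - (x1 + 1), by omega⟩
  obtain ⟨m, rfl⟩ : ∃ m, x3 = x1 + 1 + (m + 1) := ⟨x3 - (x1 + 2), by omega⟩
  obtain ⟨U1, u1⟩ : ∃ U1, U1 = (Icc 0 x1).biUnion (M.w i) := ⟨_, rfl⟩
  obtain ⟨U2, u2⟩ : ∃ U2, U2 = (Icc (x1 + 1 + (m + 1)) (M.n i)).biUnion (M.w i) := ⟨_, rfl⟩
  obtain ⟨P1, p1, a1, a2, a3, a4, a5, -, a6⟩ := seg_path h hM (Nat.zero_le x1) (by omega)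
    (fun k _ a => hr k (by omega) (Or.inl a)) u1
  obtain ⟨P2, p2, b1, b2, b3, b4, b5, b6, -⟩ := seg_path h hM l3 le_rfl
    (fun k a a' => hr k a' (Or.inr a)) u2
  have m1 : ∀ v, v ∈ U1 ↔ ∃ k ≤ x1, v ∈ M.w i k := fun v => by simp [u1]
  have m2 : ∀ v, v ∈ U2 ↔ ∃ k, x1 + 1 + (m + 1) ≤ k ∧ k ≤ M.n i ∧ v ∈ M.w i k := fun v => by
    simp [u2, and_assoc]
  have hB : ∀ k ≤ M.n (!i), M.w (!i) k ∉ ({N} : Finset (Finset V)) := fun k a b =>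
    Bool.not_ne_self i (hM.inj a (by omega) ((mem_singleton.1 b).trans hN.symm)).1.symm
  have uq := fun {v k l} => ST3_u_uq (v := v) (k := k) (l := l) (i := i) (j := i) hw hM
  have nr : ∀ {v j k}, k ≤ M.n j → v ∈ M.w j k → v ∉ F.rest M := fun a b =>
    disjoint_left.1 (rest_disj a) b
  have z0 : ∀ v ∈ F.xt M σ (!i), v ∈ F.Y ∧ v ∉ F.rest M ∧ ∀ k ≤ M.n i, v ∉ M.w i k := fun v a => by
    obtain ⟨k, c1, c2⟩ := mem_xt.1 a
    have c3 := (xs_sub h hM c1).1 c2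
    exact ⟨(hM.node hw c1).2.2.1 c3, nr c1 c3, fun k' c4 c5 =>
      Bool.not_ne_self i (ST3_u_uq hw hM c4 c1 c5 c3).1⟩
  obtain ⟨Z, hZ⟩ : ∃ Z, Z = XQ ∪ F.xt M σ (!i) := ⟨_, rfl⟩
  have tZ : ∀ e, (e ∈ G.tch XQ ∨ e ∈ G.tch (F.xt M σ (!i))) → e ∈ G.tch Z := fun e a => by
    rw [hZ, SG.tch_union]
    exact mem_union.2 a
  have z1 : ∀ k ≤ M.n i, Disjoint (M.w i k) Z := fun k a => hZ ▸ disjoint_union_right.2
    ⟨(rest_disj a).mono_right sQ, disjoint_right.2 fun v c => (z0 v c).2.2 k a⟩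
  have z2 : Disjoint X Z := hZ ▸ disjoint_union_right.2 ⟨d2, disjoint_left.2 fun v c c' =>
    (mem_union.1 (s1 c)).elim (fun c => (z0 v c').2.2 _ (by omega) (hN ▸ c)) (z0 v c').2.1⟩
  have z3 : Disjoint Br Z := hZ ▸ disjoint_union_right.2
    ⟨d3, disjoint_left.2 fun v c c' => (z0 v c').2.1 (s2 c)⟩
  have z4 : Disjoint U1 Z := disjoint_left.2 fun v c => by
    obtain ⟨k, c1, c2⟩ := (m1 v).1 c
    exact disjoint_left.1 (z1 k (by omega)) c2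
  have z5 : Disjoint U2 Z := disjoint_left.2 fun v c => by
    obtain ⟨k, -, c1, c2⟩ := (m2 v).1 c
    exact disjoint_left.1 (z1 k c1) c2
  have e1 : Disjoint Br U1 := disjoint_right.2 fun v c c' => by
    obtain ⟨k, c1, c2⟩ := (m1 v).1 c
    exact nr (by omega) c2 (s2 c')
  have e2 : Disjoint Br U2 := disjoint_right.2 fun v c c' => by
    obtain ⟨k, -, c1, c2⟩ := (m2 v).1 c
    exact nr c1 c2 (s2 c')
  have e3 : Disjoint U1 U2 := disjoint_left.2 fun v c c' => by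
    obtain ⟨k, c1, c2⟩ := (m1 v).1 c
    obtain ⟨k', c3, c4, c5⟩ := (m2 v).1 c'
    have := (uq (by omega) c4 c2 c5).2
    omega
  have tB : ∀ k ≤ M.n i + 1, F.e M i k ∉ G.tch Br := fun k a c =>
    hM.e_rest hw a (SG.tch_mono s2 c)
  have t1 : ∀ k ≤ M.n i + 1, x1 + 1 < k → F.e M i k ∉ G.tch U1 := fun k a a' =>
    ST3_u_nt hw hM a fun v c => Or.inr <| ((m1 v).1 c).imp fun k' c' =>
      ⟨by omega, by omega, by omega, c'.2⟩
  have t2 : ∀ k ≤ x1 + 1, F.e M i k ∉ G.tch U2 := fun k a =>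
    ST3_u_nt hw hM (by omega) fun v c => Or.inr <| ((m2 v).1 c).imp fun k' c' =>
      ⟨by omega, by omega, by omega, c'.2.2⟩
  have ne : ∀ k ≤ M.n i + 1, ∀ k' ≤ M.n i + 1, k ≠ k' → F.e M i k ≠ F.e M i k' :=
    fun k c1 k' c2 c3 c4 => c3 (hM.e_inj hw c1 c2 c4).2.symm
  have g0 : ∀ {U : Finset V} {v : V} {e : E}, Disjoint Br U → v ∈ U → e ∈ G.cut Br →
      e ∈ G.cut {v} → e ∈ G.cut U ∧ G.ie U e = v := fun {U v e} c1 c2 c3 c4 => by
    have c5 := (SG.Ab_link c1 (SG.cut_sub_tch c3)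
      (SG.tch_mono (singleton_subset_iff.2 c2) (SG.cut_sub_tch c4))).2
    refine ⟨c5, (SG.eq_ie c5 c2 ?_).symm⟩
    exact mem_singleton.1 (SG.ie_mem (SG.cut_sub_tch c4)) ▸ SG.ie_at
  obtain ⟨g1, g2⟩ := g0 e1 (SG.ie_mem (SG.cut_sub_tch a5)) hx.1 (a6 ▸ hx.2)
  obtain ⟨g3, g4⟩ := g0 e2 (SG.ie_mem (SG.cut_sub_tch b4)) hy.1 (b6 ▸ hy.2)
  obtain ⟨O1, c1, c2⟩ := joint_dq (l := F.lam i) (L := G.tch Z) a1 b1.symm
    ⟨a4, t2 _ (by omega), tB _ (by omega)⟩ ⟨a5, t2 _ le_rfl, tB _ (by omega)⟩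
    ⟨b5, t1 _ le_rfl (by omega), tB _ le_rfl⟩ ⟨b4, t1 _ (by omega) (by omega), tB _ (by omega)⟩
    (ne _ (by omega) _ (by omega) (by omega)) (ne _ (by omega) _ (by omega) (by omega)) e3 e1 e2
    a2 b2 hS hφ ⟨hx.1, g1⟩ ⟨hy.1, g3⟩
    (fun e c => (hBr e c).imp_right (Or.imp_right fun c' => ⟨tZ e c',
      SG.Run_three z3 e1 z4.symm (SG.cut_sub_tch c) (tZ e c'),
      SG.Run_three z3 e2 z5.symm (SG.cut_sub_tch c) (tZ e c')⟩))
    (by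
      rw [g2, g4, add_assoc (F.lam i), ← a1.par a2, ← b1.symm.par b2, a3, b3, ← range_eq_Ico]
      exact ST3_u_sg _ _ _ _ _ _ _ hsg)
  obtain ⟨Xm, Om, Km, q1, q2, q3, q4, q5⟩ := ST3_u_mid (m := m) h hM (hq i) (by omega) (by omega) hN
    h2 s1 (fun e c c' => tZ e (hL e c c')) z2 z1
  have m3 : ∀ v ∈ Xm, v ∈ X ∨ ∃ k, x1 < k ∧ k < x1 + 1 + (m + 1) ∧ v ∈ M.w i k := fun v c =>
    ((q3 v).1 c).imp_right fun ⟨k, c1, _, c2⟩ =>
      ⟨_, by omega, by omega, (xs_sub h hM (by omega)).1 c2⟩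
  have m4 : ∀ v ∈ Xm, v ∈ F.rest M ∨ ∃ k, x1 < k ∧ k < x1 + 1 + (m + 1) ∧ v ∈ M.w i k :=
    fun v c => (m3 v c).elim (fun c => (mem_union.1 (s1 c)).symm.imp_right
      fun c => ⟨_, l1, l2, hN ▸ c⟩) Or.inr
  have z6 : Disjoint Xm Z := disjoint_left.2 fun v c => (m3 v c).elim (disjoint_left.1 z2 ·)
    fun ⟨k, _, _, c⟩ => disjoint_left.1 (z1 k (by omega)) c
  have z7 : Disjoint (Br ∪ U1 ∪ U2) Z := disjoint_union_left.2 ⟨disjoint_union_left.2 ⟨z3, z4⟩, z5⟩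
  have e4 : ∀ k ≤ M.n i, (k ≤ x1 ∨ x1 + 1 + (m + 1) ≤ k) → ∀ v ∈ M.w i k, v ∉ Xm :=
    fun k c1 c2 v c3 c4 => (m4 v c4).elim (nr c1 c3) fun ⟨k', c5, c6, c7⟩ => by
      have := (uq c1 (by omega) c3 c7).2
      omega
  have e5 : Disjoint (Br ∪ U1 ∪ U2) Xm := disjoint_left.2 fun v c => by
    simp only [mem_union, m1, m2] at c
    rcases c with (c | ⟨k, c1, c2⟩) | ⟨k, c1, c2, c3⟩
    · exact fun c' => (m3 v c').elim (fun c1 => disjoint_left.1 d1 c1 c)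
        fun ⟨k, _, _, c1⟩ => nr (by omega) c1 (s2 c)
    · exact e4 k (by omega) (Or.inl c1) v c2
    · exact e4 k c2 (Or.inr c1) v c3
  have t3 : ∀ k ≤ M.n i + 1, (k = 0 ∨ k = M.n i + 1) → F.e M i k ∉ G.tch Xm := fun k c1 c2 =>
    ST3_u_nt hw hM c1 fun v c => (m4 v c).imp_right fun ⟨k', c3, c4, c5⟩ =>
      ⟨k', by omega, by omega, by omega, c5⟩
  obtain ⟨r1, r2⟩ := c2.close (L := G.tch Z) (D' := Rl.Mt (F.lam i)) q1 e5
    (t3 _ (by omega) (Or.inl rfl)) (t3 _ le_rfl (Or.inr rfl))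
    (fun e c c' => ⟨SG.Run_three z7 e5 z6.symm (SG.cut_sub_tch c') c, c⟩)
    (fun e c c' => ⟨SG.Run_three z6 e5.symm z7.symm (SG.cut_sub_tch c') c, c⟩)
    fun R1 R2 c c' => jt_cl c c'
  obtain ⟨O2, v1, v2⟩ := trk0 h hM (hq (!i)) hB
  have v3 : F.tz G M σ (!i) {N} = F.lam (!i) + 1 :=
    (tz_off fun k c => iff_of_false (hB k c.1) (notMem_empty _)).trans (ho hty)
  rw [(hM.trk hw i).2.1, (hM.trk hw i).2.2, hZ, ← xo_off hB] at r1
  have z8 := disjoint_union_left.2 ⟨z7, z6⟩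
  rw [hZ, ← xo_off hB, disjoint_union_right] at z8
  have sY : F.rest M ⊆ F.Y := fun v c => (mem_rest.1 c).1
  have hW := ST3_u_two hw hty r1 (v2.imp fun R c => by
      have := (v3 ▸ c).mt
      rwa [add_assoc, z2_add_self, add_zero] at this) hQ
    (fun v c => by
      simp only [mem_union, m1, m2] at c
      rcases c with ((c | ⟨k, c1, c2⟩) | ⟨k, -, c1, c2⟩) | c
      · exact sY (s2 c)
      · exact (hM.node hw (by omega)).2.2.1 c2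
      · exact (hM.node hw c1).2.2.1 c2
      · exact (m4 v c).elim (@sY v) fun ⟨k, _, _, c⟩ => (hM.node hw (by omega)).2.2.1 c)
    (fun v c => (z0 v (xo_off hB ▸ c)).1) (sQ.trans sY) z8.2 z8.1
    (disjoint_left.2 fun v c c' => (z0 v (xo_off hB ▸ c)).2.1 (sQ c'))
  have nx : ∀ k ≤ M.n i, M.w i k ∉ ({N} : Finset (Finset V)) ↔ k ≠ x1 + 1 + l := fun k c => by
    rw [mem_singleton, ← hN]
    exact not_congr ⟨fun c' => (hM.inj c (by omega) c').2.symm, fun c' => c' ▸ rfl⟩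
  have bo : ∀ P : Bool → Prop, (∃ j, P j) ↔ P i ∨ P (!i) := fun P => by
    cases i <;> simp [or_comm]
  have xo : ∀ v, v ∈ F.xo M σ i {N} ↔ v ∈ U1 ∨ v ∈ U2 ∨
      ∃ k ≤ m, k ≠ l ∧ v ∈ F.xs M σ i (x1 + 1 + k) := fun v => by
    rw [mem_xo, m1, m2]
    constructor
    · rintro ⟨k, c1, c2, c3⟩
      by_cases c4 : k ≤ x1
      · exact Or.inl ⟨k, c4, (xs_sub h hM c1).1 c3⟩
      by_cases c5 : x1 + 1 + (m + 1) ≤ k
      · exact Or.inr (Or.inl ⟨k, c5, c1, (xs_sub h hM c1).1 c3⟩)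
      obtain ⟨k, rfl⟩ : ∃ k', k = x1 + 1 + k' := ⟨k - (x1 + 1), by omega⟩
      exact Or.inr (Or.inr ⟨k, by omega, fun c6 => (nx _ c1).1 c2 (c6 ▸ rfl), c3⟩)
    · rintro (⟨k, c1, c2⟩ | ⟨k, c1, c2, c3⟩ | ⟨k, c1, c2, c3⟩)
      · exact ⟨k, by omega, (nx k (by omega)).2 (by omega),
          MB4_vtx (σ := σ) (hr k (by omega) (Or.inl c1)) ▸ c2⟩
      · exact ⟨k, c2, (nx k c2).2 (by omega), MB4_vtx (σ := σ) (hr k c2 (Or.inr c1)) ▸ c3⟩
      · exact ⟨_, by omega, (nx _ (by omega)).2 (by omega), c3⟩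
  refine ST3_u_fin h hM (by omega) hN (union_subset (union_subset s1 (s2.trans subset_union_right))
    (sQ.trans subset_union_right)) (fun v => ?_) hW (fun j => ?_) ?_ hb (Or.inr rfl)
    (hg.imp_right fun c => c.trans (congrArg (· + _) ?_))
  · simp only [bo, xo, mem_union, q3]
    exact ST3_u_or
  · by_cases c : j = i
    · rintro t ⟨k, c1, c2, c', d', c3, c4⟩
      subst c
      have c5 : ¬ (k ≤ x1 ∨ x1 + 1 + (m + 1) ≤ k) := fun c5 => hr k c1.1 c5 c1.2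
      obtain ⟨k, rfl⟩ : ∃ k', k = x1 + 1 + k' := ⟨k - (x1 + 1), by omega⟩
      exact Or.inl (Or.inl (Or.inr (q5 k (by omega) (fun c6 => (nx _ c1.1).1 c2 (c6 ▸ rfl))
        c' d' c1.2 c3 c4)))
    · rw [Bool.eq_not_iff.2 c]
      exact fun t c => Or.inl (Or.inr c)
  · exact Set.union_subset_union_left _ fun t c => Or.inl (Or.inr (q4 c))
  · have f1 : F.tz G M π false {N} + F.tz G M π true {N} =
        F.tz G M π i {N} + F.tz G M π (!i) {N} := by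
      cases i
      exacts [rfl, add_comm _ _]
    rw [f1, r2, c1, q2, v1, a3, b3, e_succ (k := x1) (by omega),
      show F.e M i (x1 + 1 + (m + 1)) = M.g i (x1 + 1 + m) from
        e_succ (k := x1 + 1 + m) (by omega), tz, sl,
      ST3_u_sum _ l3, ST3_u_sum2 _ (Nat.le_succ_of_le l3) fun k c1 c2 =>
        if_neg fun c3 => hr k (by omega) (by omega) c3.1]
    ring

end Kf

end Pool.Agent.Work.MP_8c679b_co
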