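import Pool.Agent.Work.MP_8c679b_co.Key.U2
import Pool.Agent.Work.MP_8c679b_co.Key.ST3

/-!
Two units and a switch win.

Hints.  `q_last`: `pure_odd`, `Abs0.cov` (a third edge is off `Q`), `HT.kus4`, `box_clu`.
`f5_two`: `unit_pass` twice; the positions differ (`dbl`) and are not inside the gap.  Apply `uc_two`
with `XQ = G.vs Q`, `π = σ` (`qs_real`, `QS.mono`).  If `F.f = true` choose `t`.  Else `state1` and
`nu_congr` give the value of `nu`; if the equation fails use `sw2` and the second state: `fl σ _`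
(`state_node`, `fl_tz`, `xs_congr` for the other ring) or the member with the bead swapped
(`state_bead`, `Bd.swap`, `Bd.ps`, `Bd.qs`, `rr_oc`, `rr_xt`, `Ear.rest`); there the sum of the two
`F.tz` has the other value.
`jt_of`: the ear of `earF` starts with `gx` and ends with `gy` (the positions are single vertices by
`nn2`, `IsM.q3`).  By `jump` the rerouted member is not closable: no box at or outside `x1, x3`
(`cls_or`), and its sign is `F.lam i` (`Ear.tz`, `ear_par`).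
`f5_joint`: as `f5_two` with `uc_joint`, the gap `x1, x` and `Zs = {M.w i x}`; `Bd.jt`.
-/

set_option autoImplicit false

namespace Pool.Agent.Work.MP_8c679b_co

open Finset

variable {V E : Type} [Fintype V] [DecidableEq V] [DecidableEq E] {G : SG V E}
  {T U Z X B N N' XU Br : Finset V} {F : Kf V E} {M M' : Mb V E} {i j j' : Bool}
  {k l x y m : ℕ} {σ σ' π : Finset V → ZMod 2} {u : ℕ → Finset V} {h : ℕ → E} {c d e f gx gy : E}
  {a b a' v q0 : V} {Zs : Finset (Finset V)} {g s : ZMod 2} {Q D O OB : Finset E}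
  {α β x1 x2 x3 y1 y2 y3 : ℕ} {p : V → ZMod 2} {φ : E → ZMod 3}

namespace Kf

theorem q_last (hF : F.Ok G T) (hH : ¬ F.WinN G g) (hm : F.MC G M σ Q q0) :
    G.Abs0 (G.vs Q) Q ∅ {G.cut (G.vs Q)} ∧ G.par Q = 1 ∧
      ∀ B ∈ F.Bs, B ⊆ F.rest M → ∀ X K v, G.vs Q ⊆ X → Disjoint X (F.y0 G M Q q0) →
        G.cut (G.vs Q) ∈ K → G.BK1 B X K v := by
  obtain ⟨f1, -, f3⟩ := mc_fh hF hH hm
  obtain ⟨q1, q2, q3⟩ := SG.mem_ocs.1 hm.cf.odd
  refine ⟨?_, q3, fun B hB hr X K v h1 h2 h3 => ?_⟩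
  · obtain ⟨e, -, e1, e2, -⟩ := SG.lb_br hF.hc hF.hT f3.subset f1 hm.cf.odd hm.cf.root
    refine (SG.pure_odd (q1.trans SG.ins_sub_A) q2 q3).2.2.cov fun t ht => Or.inr ?_
    rw [Set.mem_singleton_iff.1 ht]
    exact ⟨e, e2, SG.cut_sub_tch e2, e1⟩
  · rcases box_clu hF hH hm hB with r | r
    · have h4 := (SG.ocs_box hF.hc hF.hT f3.subset f1 hm.cf.odd hr (hF.bx B hB).1).2.1
      refine Or.inr (Or.inr fun S hS hu _ => Or.inr ⟨_, h3, ?_⟩)
      rw [hF.hT.kus4 hF.hc (hr.trans f3.subset) h4 (G.cut S) ⟨S, hS, hu, rfl⟩, r]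
    · refine Or.inl (h2.symm.mono_left fun w hw => ?_)
      exact mem_sdiff.2 ⟨hr hw, disjoint_left.1 r hw⟩

theorem U3_z (a b : ZMod 2) : a = b ∨ a = b + 1 := by
  revert a b
  decide

theorem U3_tog {τ τ' : Bool → ZMod 2} (h1 : τ' i = τ i + 1) (h2 : τ' (!i) = τ (!i)) :
    τ' false + τ' true = τ false + τ true + 1 := by
  cases i
  · rw [h1, show τ' true = τ true from h2]
    ring
  · rw [h1, show τ' false = τ false from h2]
    ring

theorem U3_un {L : Finset E} {K : Set (Finset E)}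
    (u1 : F.Gu G M σ Q q0 j x1 a) (n1 : F.Un G M σ Q j x1 a X O L K) :
    X ⊆ M.w j x1 ∪ G.clu (F.rest M) Q q0 :=
  n1.hi.trans (union_subset_union_right ((erase_subset _ _).trans (G4_clu u1.1.1 u1.1.2.1)))

/-- one state wins if the parity fits -/
theorem U3_win {X1 X2 : Finset V} {O1 O2 L1 L2 : Finset E} {K1 K2 : Set (Finset E)}
    (hF : F.Ok G T) (hH : ¬ F.WinN G g) (hm : F.MC G M σ Q q0) (hs : F.Sg j j')
    (u1 : F.Gu G M σ Q q0 j x1 a) (u2 : F.Gu G M σ Q q0 j' x2 b) (hab : a ≠ b)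
    (n1 : F.Un G M σ Q j x1 a X1 O1 L1 K1) (n2 : F.Un G M σ Q j' x2 b X2 O2 L2 K2)
    (hM' : F.IsM G M') (ho : F.Oc G M' σ' j)
    (p1 : F.Ps M' j (M.w j x1) (F.e M j x1) (F.e M j (x1 + 1)))
    (p2 : F.Ps M' j' (M.w j' x2) (F.e M j' x2) (F.e M j' (x2 + 1)))
    (hq : ∀ r, F.QS G M' σ' σ' r ∅) (hc : G.clu (F.rest M) Q q0 ⊆ F.rest M')
    (hx : F.ty = false → F.xt M' σ' (!j) = F.xt M σ (!j))
    (hB : ∀ B ∈ F.Bs, B ⊆ F.rest M' → B ⊆ F.rest M)
    (hO : G.ocs ((F.W0 M' σ' ∪ (M.w j x1 ∪ M.w j' x2)) \ (X1 ∪ X2 ∪ G.vs Q)) =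
      G.ocs (F.y0 G M Q q0)) :
    g + F.lam false + F.lam true ≠ F.tz G M' σ' false {M.w j x1, M.w j' x2} +
      F.tz G M' σ' true {M.w j x1, M.w j' x2} +
      (G.par (O1 ∩ G.ins X1) + G.par (O2 ∩ G.ins X2) + G.par Q + G.nu (F.y0 G M Q q0)) := by
  intro he
  have hM := hm.cf.isM
  have hne : ¬ (j' = j ∧ x2 = x1) := by
    rintro ⟨rfl, rfl⟩
    exact hab (dbl hF hH hm u1.1 u2.1)
  have hd := hM.disj hF.wf n1.le n2.le hne
  obtain ⟨v1, v2⟩ := G4_vq hm
  obtain ⟨a1, a2⟩ := G4_br hF hH hm u1.1.1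
  obtain ⟨b1, -⟩ := G4_br hF hH hm u2.1.1
  have c1 : (G.lb (F.rest M) Q a).erase a ⊆ F.rest M :=
    (erase_subset _ _).trans ((G4_clu u1.1.1 u1.1.2.1).trans v2)
  have c2 : (G.lb (F.rest M) Q b).erase b ⊆ F.rest M :=
    (erase_subset _ _).trans ((G4_clu u2.1.1 u2.1.2.1).trans v2)
  have r1 : Disjoint (M.w j x1) (F.rest M) := rest_disj n1.le
  have r2 : Disjoint (M.w j' x2) (F.rest M) := rest_disj n2.le
  obtain ⟨q1, -, q3⟩ := q_last hF hH hm
  have e1 : Disjoint (M.w j x1) X2 :=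
    (disjoint_union_right.2 ⟨hd, r1.mono_right c2⟩).mono_right n2.hi
  have e2 : Disjoint (M.w j' x2) X1 :=
    (disjoint_union_right.2 ⟨hd.symm, r2.mono_right c1⟩).mono_right n1.hi
  have e3 : Disjoint (M.w j x1) (G.vs Q) := r1.mono_right (v1.trans v2)
  have e4 : Disjoint (M.w j' x2) (G.vs Q) := r2.mono_right (v1.trans v2)
  refine hH (uc_two (π := σ') (t := F.lam true) hF hM' ho hs p1 p2
    (fun r => hne (hM.inj n1.le n2.le r)) (fun r => (hq r).mono (empty_subset _)) n1.pas n2.pas q1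
    ((U3_un u1 n1).trans (union_subset_union_right hc))
    ((U3_un u2 n2).trans (union_subset_union_right hc)) (v1.trans hc) ?_ ?_ ?_ ?_ ?_ ?_
    (Or.inr rfl) (Or.inr ?_))
  · refine (disjoint_union_left.2 ⟨e1, ?_⟩).mono_left n1.hi
    refine (disjoint_union_right.2 ⟨(r2.mono_right c1).symm, ?_⟩).mono_right n2.hi
    exact (a2 b u2.1.1 hab.symm).mono_right (erase_subset _ _)
  · exact (disjoint_union_left.2 ⟨e3, a1⟩).mono_left n1.hi
  · exact (disjoint_union_left.2 ⟨e4, b1⟩).mono_left n2.hi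
  · refine fun e h1 h2 => (n1.lv e h1 h2).imp_right fun r => ⟨r.1, ?_⟩
    exact hx r.1 ▸ r.2
  · refine fun e h1 h2 => (n2.lv e h1 h2).imp_right fun r => ⟨r.1, ?_⟩
    obtain rfl : j = j' := hs.resolve_left (by simp [r.1])
    exact hx r.1 ▸ r.2
  · rintro B hB' (rfl | rfl | r)
    · refine (n1.bk hB' F.v0).congr ?_ (Set.subset_union_left.trans Set.subset_union_left)
      rw [inter_union_distrib_left, inter_union_distrib_left, disjoint_iff_inter_eq_empty.1 e1,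
        disjoint_iff_inter_eq_empty.1 e3, union_empty, union_empty]
    · refine (n2.bk hB' F.v0).congr ?_ (Set.subset_union_right.trans Set.subset_union_left)
      rw [inter_union_distrib_left, inter_union_distrib_left, disjoint_iff_inter_eq_empty.1 e2,
        disjoint_iff_inter_eq_empty.1 e4, union_empty, empty_union]
    · have y1 : Disjoint (G.clu (F.rest M) Q q0) (F.y0 G M Q q0) := disjoint_sdiff
      have y2 : F.y0 G M Q q0 ⊆ F.rest M := sdiff_subset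
      refine q3 B hB' (hB B hB' r) _ _ _ subset_union_right ?_ (Or.inr rfl)
      refine disjoint_union_left.2 ⟨disjoint_union_left.2 ⟨?_, ?_⟩, y1.mono_left v1⟩
      · exact (disjoint_union_left.2 ⟨r1.mono_right y2, y1⟩).mono_left (U3_un u1 n1)
      · exact (disjoint_union_left.2 ⟨r2.mono_right y2, y1⟩).mono_left (U3_un u2 n2)
  · rw [union_assoc (F.W0 M' σ'), SG.nu_congr hO, he]
    ring

theorem f5_two (hF : F.Ok G T) (hH : ¬ F.WinN G g) (hm : F.MC G M σ Q q0)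
    (s1 : F.Sg i j) (s2 : F.Sg i j') (u1 : F.Gu G M σ Q q0 j x1 a) (u2 : F.Gu G M σ Q q0 j' x2 b)
    (hab : a ≠ b) (hg : F.Gp G M Q q0 i x y) : False := by
  have hM := hm.cf.isM
  have hC := hm.cf.cls
  obtain ⟨X1, O1, L1, K1, n1⟩ := unit_pass hF hH hm u1
  obtain ⟨X2, O2, L2, K2, n2⟩ := unit_pass hF hH hm u2
  have hs := s1.symm.trans s2
  have out : ∀ {r z c}, F.At G M Q q0 r z c → r ≠ i ∨ z ≤ x ∨ y ≤ z := fun {r z c} hA => by
    by_contra k
    simp only [not_or, not_not, not_le] at k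
    obtain ⟨rfl, k1, k2⟩ := k
    exact hg.1.2 z k1 k2 c hA
  have hU : ∀ v, v ∈ M.w j x1 ∪ M.w j' x2 ↔
      ∃ N ∈ ({M.w j x1, M.w j' x2} : Finset (Finset V)), v ∈ N := fun v => by simp
  have i1 : X1 ⊆ X1 ∪ X2 ∪ G.vs Q := subset_union_left.trans subset_union_left
  have i2 : X2 ⊆ X1 ∪ X2 ∪ G.vs Q := subset_union_right.trans subset_union_left
  have hZ : ∀ N ∈ ({M.w j x1, M.w j' x2} : Finset (Finset V)), ∃ r, ∃ k ≤ M.n r, F.Sg i r ∧
      M.w r k = N ∧ (r ≠ i ∨ k ≤ x ∨ y ≤ k) ∧ F.xs M σ r k ⊆ X1 ∪ X2 ∪ G.vs Q ∧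
      (N ⊆ X1 ∪ X2 ∪ G.vs Q ∨ F.Aj M r k) := fun N hN => by
    rcases mem_insert.1 hN with rfl | hN
    · exact ⟨j, x1, n1.le, s1, rfl, out u1.1, n1.lo.trans i1, n1.full.imp_left fun r => r.trans i1⟩
    · obtain rfl := mem_singleton.1 hN
      exact ⟨j', x2, n2.le, s2, rfl, out u2.1, n2.lo.trans i2, n2.full.imp_left fun r => r.trans i2⟩
  obtain ⟨v1, v2⟩ := G4_vq hm
  have h2 : X1 ∪ X2 ∪ G.vs Q ⊆ M.w j x1 ∪ M.w j' x2 ∪ G.clu (F.rest M) Q q0 :=
    union_subset (union_subset ((U3_un u1 n1).trans (union_subset_union_left subset_union_left))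
      ((U3_un u2 n2).trans (union_subset_union_left subset_union_right)))
      (v1.trans subset_union_right)
  have w1 := U3_win hF hH hm hs u1 u2 hab n1 n2 hM (hC.oc j) ⟨x1, n1.le, rfl, rfl, rfl⟩
    ⟨x2, n2.le, rfl, rfl, rfl⟩ (qs_real hF hH hM hC) v2 (fun _ => rfl) (fun _ _ r => r)
    (state1 hF hH hm hU hZ subset_union_right h2)
  have w2 := (U3_z _ _).resolve_left w1
  have ji : F.ty = false → j = i := fun r => (s1.resolve_left (by simp [r])).symm
  rcases sw2 hF hH hm hg with ⟨k, k1, k2, k3, k4⟩ | ⟨α, β, m, u, h, hb⟩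
  · obtain ⟨r, l, t1, t2, t3, t4, t5⟩ :=
      state_node hF hH hm hg k1 k2 k3 k4 hU hZ subset_union_right h2
    have jr : F.ty = false → r = j := fun z => (t1.resolve_left (by simp [z])).symm.trans (ji z).symm
    refine U3_win hF hH hm hs u1 u2 hab n1 n2 hM (fun z => ?_) ⟨x1, n1.le, rfl, rfl, rfl⟩
      ⟨x2, n2.le, rfl, rfl, rfl⟩ t4 v2 (fun z => ?_) (fun _ _ r => r) t5 ?_
    · obtain rfl := jr z
      rw [(MB5_fl hM t2).2]
      exact hC.oc r z
    · obtain rfl := jr z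
      refine (xs_congr (G := G) fun k hk => Function.update_of_ne (fun e => ?_) _ _).2.1
      have := (hM.inj hk.1 t2.1 e).1
      simp at this
    · have := fl_tz (G := G) (σ := σ) (Zs := {M.w j x1, M.w j' x2}) hM t2
      rw [if_neg t3] at this
      rw [w2, U3_tog (τ := fun r => F.tz G M σ r {M.w j x1, M.w j' x2})
        (τ' := fun r' => F.tz G M (fl σ (M.w r l)) r' {M.w j x1, M.w j' x2}) this.1 this.2]
      ring
  · have hr := hb.ear.rest hF.wf hM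
    refine U3_win hF hH hm hs u1 u2 hab n1 n2 (hb.ear.isM hF.wf hM) (fun z => ?_)
      (hb.ps hM n1.le ((out u1.1).imp_right (Or.imp_right Or.inl)))
      (hb.ps hM n2.le ((out u2.1).imp_right (Or.imp_right Or.inl)))
      (fun r => hb.qs hM (qs_real hF hH hM hC r)) (fun w hw => ?_) (fun z => ?_)
      (fun B hB r => ?_) (state_bead hF hH hm hg hb hU hZ subset_union_right h2) ?_
    · obtain rfl := ji z
      exact rr_oc (hC.oc j) z
    · rw [hr]
      exact mem_union_left _ (mem_sdiff.2 ⟨v2 hw, fun k => (mem_sdiff.1 (hb.sub k)).2 hw⟩)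
    · obtain rfl := ji z
      exact (rr_xt (G := G)).1
    · refine (hM.box hF.wf hB).resolve_right ?_
      rintro ⟨r', k, k1, rfl⟩
      obtain ⟨w, hw⟩ := (hF.wf.sub _ hB).2
      have := r hw
      rw [hr] at this
      rcases mem_union.1 this with z | z
      · exact disjoint_left.1 (rest_disj k1.1) hw (mem_sdiff.1 z).1
      · obtain ⟨k', z1, z2, z3⟩ := mem_gap.1 z
        have z4 : k' ≤ M.n i := z2.le.trans hb.ear.le
        by_cases z5 : i = r' ∧ k' = k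
        · obtain ⟨rfl, rfl⟩ := z5
          exact hb.r1 k' z1.le z2.le hB
        · exact disjoint_left.1 (hM.disj hF.wf k1.1 z4 z5) hw z3
    · have := hb.swap (σ := σ) (Zs := {M.w j x1, M.w j' x2}) hF hM
      rw [w2, U3_tog (τ := fun r => F.tz G M σ r {M.w j x1, M.w j' x2})
        (τ' := fun r' => F.tz G (M.rr i α β m u h) σ r' {M.w j x1, M.w j' x2}) this.2.2.1
        this.2.2.2.1]
      ring

theorem U3_third (hF : F.Ok G T) (hM : F.IsM G M) (hk : k ≤ M.n i) (hn : M.w i k ∉ F.Bs)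
    (hX : X ⊆ F.rest M) (h1 : e ∈ G.cut X) (h2 : e ∈ G.cut (M.w i k)) (h3 : f ∈ G.cut X)
    (h4 : f ∈ G.cut (M.w i k)) : e = f := by
  obtain ⟨w, r, e1, hq, -⟩ := hM.q3 hF hk hn
  have key : ∀ z ∈ G.cut X, z ∈ G.cut (M.w i k) → z = r := fun z z1 z2 => by
    have z3 : z ∈ G.tch (F.rest M) := SG.tch_mono hX (SG.cut_sub_tch z1)
    rw [e1, hq.1] at z2
    simp only [mem_insert, mem_singleton] at z2
    rcases z2 with rfl | rfl | rfl
    · exact absurd z3 (hM.e_rest hF.wf (by omega))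
    · exact absurd z3 (hM.e_rest hF.wf (by omega))
    · rfl
  rw [key e h1 h2, key f h3 h4]

omit [Fintype V] in
theorem U3_cut (hX : X ⊆ U) (hd : Disjoint N U) (h1 : e ∈ G.cut X) (h2 : e ∈ G.cut N) :
    e ∈ G.cut U := by
  have a1 := @hX
  have a2 := @disjoint_left.1 hd
  rw [SG.mem_cut] at h1 h2 ⊢
  refine ⟨h1.1, fun k => ?_⟩
  by_cases b : G.s e ∈ X
  · exact h2.2 (iff_of_false (fun k' => a2 k' (a1 b)) fun k' => a2 k' (k.1 (a1 b)))
  · have b' : G.t e ∈ X := by_contra fun b' => h1.2 (iff_of_false b b')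
    exact h2.2 (iff_of_false (fun k' => a2 k' (k.2 (a1 b'))) fun k' => a2 k' (a1 b'))

theorem U3_sum {n : ℕ} (r w : ℕ → ZMod 2) (h1 : x ≤ y) (h2 : y ≤ n)
    (hw : ∀ k ≤ n, (k ≤ x ∨ y ≤ k) → w k = 0) :
    ∑ k ∈ range n, r k + ∑ k ∈ range (n + 1), w k + ∑ k ∈ Ico x y, r k + ∑ k ∈ Ioo x y, w k =
      ∑ k ∈ range x, r k + ∑ k ∈ Ico y n, r k := by
  have e1 : ∑ k ∈ Ioo x y, w k = ∑ k ∈ range (n + 1), w k :=
    sum_subset (fun k hk => by rw [mem_Ioo] at hk; rw [mem_range]; omega) fun k hk hk' => by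
      rw [mem_range] at hk
      rw [mem_Ioo] at hk'
      exact hw k (by omega) (by omega)
  rw [e1, ← sum_range_add_sum_Ico r h2, ← sum_range_add_sum_Ico r h1]
  linear_combination z2_add_self (∑ k ∈ range (n + 1), w k) + z2_add_self (∑ k ∈ Ico x y, r k)

theorem jt_of (hF : F.Ok G T) (hH : ¬ F.WinN G g) (hm : F.MC G M σ Q q0)
    (hA : AAb (F.At G M Q q0) i x1 x x3 a' a) (hB : Br = (G.lb (F.rest M) Q a').erase a')
    (hp : ∀ e ∈ G.ins Br, G.sw p e = 0) (hty : F.ty = false) :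
    ∃ gx gy s, (gx ∈ G.cut Br ∧ gx ∈ G.cut (M.w i x1)) ∧ (gy ∈ G.cut Br ∧ gy ∈ G.cut (M.w i x3)) ∧
      gx ≠ gy ∧ (∀ e ∈ G.cut Br, ∀ k ≤ M.n i, e ∈ G.cut (M.w i k) → e = gx ∨ e = gy) ∧
      F.Jt G M i (M.w i x1) (M.w i x) (M.w i x3) (F.e M i x) (F.e M i (x + 1)) s ∧
      s + F.lam i + G.n gx + G.n gy = p (G.ie Br gx) + p (G.ie Br gy) := by
  obtain ⟨g1, g2, h1, h3, -, h5⟩ := hA
  have hM := hm.cf.isM
  have l1 : x1 < x := g1.1.1
  have l2 : x < x3 := g2.1.1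
  have l3 : x3 ≤ M.n i := h3.2.2.1
  obtain ⟨m, u, h, hE, hi, hm2, hr, hx, hy1, hy2⟩ := earF hF hH hm h1 h3 (by omega)
  rw [← hB] at hi hx hy1
  have s1 : Br ⊆ G.lb (F.rest M) Q a' := hB ▸ erase_subset _ _
  have s2 := G4_clu (X := F.rest M) h1.1 h1.2.1
  have s3 := s2.trans (G4_vq hm).2
  have s4 := s1.trans s3
  have hj := jump hF hH hm g1 g2 hE (hi.trans (s1.trans s2))
  have nb : ∀ k ≤ M.n i, (k ≤ x1 ∨ x3 ≤ k) → M.w i k ∉ F.Bs := fun k hk ho hb =>
    hj (G4_node hF hM hm.cf.cls hE (Or.inr rfl) ⟨hk, hb⟩ (Or.inr ho))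
  have dj : ∀ k ≤ M.n i, Disjoint (M.w i k) Br := fun k hk => (rest_disj hk).mono_right s4
  refine ⟨h 0, h (m - 1), _, hx, ⟨hy1, hy2⟩, fun k => ?_, fun e he k hk he' => ?_,
    ⟨x1, x, x3, l1, l2, l3, rfl, rfl, rfl, rfl, rfl, nb, rfl⟩, ?_⟩
  · exact SG.FIN_three (dj x1 (by omega)) (hM.disj hF.wf (by omega) l3 (by omega)) (dj x3 l3).symm
      (SG.cut_sub_tch hx.2) (k ▸ SG.cut_sub_tch hy2) (SG.cut_sub_tch hx.1)
  · rcases h5 k ⟨h1.1, h1.2.1, hk, e, U3_cut s1 ((rest_disj hk).mono_right s3) he he', he'⟩ with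
      rfl | rfl
    · exact Or.inl (U3_third hF hM hk (nb k hk (Or.inl le_rfl)) s4 he he' hx.1 hx.2)
    · exact Or.inr (U3_third hF hM hk (nb k hk (Or.inr le_rfl)) s4 he he' hy1 hy2)
  · have c0 : ∀ j, F.ts G M σ j = F.lam j + 1 := by simpa [Cls, hty] using hm.cf.cls
    obtain ⟨t1, t2⟩ := hE.tz (σ := σ) (Zs := ∅) hM
    have c1 : F.tz G (M.rr i x1 x3 m u h) σ i ∅ ≠ F.lam i + 1 := fun k => hj ⟨σ, by
      simp only [Cls, hty, Bool.false_eq_true, if_false]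
      intro j
      have e : j = i ∨ j = !i := by cases i <;> cases j <;> simp
      rcases e with rfl | rfl
      · exact k
      · exact t2.trans (c0 _)⟩
    have c2 : F.tz G (M.rr i x1 x3 m u h) σ i ∅ = F.lam i := by
      revert c1
      generalize F.tz G (M.rr i x1 x3 m u h) σ i ∅ = z
      generalize F.lam i = z'
      revert z z'
      decide
    have c3 := ear_par hF.wf hE.pth hm2 hi hr (hE.fst ▸ dj x1 (by omega)) (hE.lst ▸ dj x3 l3) hp
    have c4 : ∑ k ∈ Ioo 0 m, (if u k ∈ F.Bs ∧ u k ∉ (∅ : Finset (Finset V)) then σ (u k) else 0) =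
        0 := sum_eq_zero fun k hk => if_neg fun k' => hr k (mem_Ioo.1 hk).1 (mem_Ioo.1 hk).2 k'.1
    have c5 := U3_sum (x := x1) (y := x3) (fun k => G.n (M.g i k))
      (fun k => if M.w i k ∈ F.Bs ∧ M.w i k ∉ (∅ : Finset (Finset V)) then σ (M.w i k) else 0)
      (by omega) l3 fun k hk ho => if_neg fun k' => nb k hk ho k'.1
    rw [c2, c4, c3, tz, Kf.sl, c5] at t1
    rw [t1]
    linear_combination z2_add_self (∑ k ∈ range x1, G.n (M.g i k)) +
      z2_add_self (∑ k ∈ Ico x3 (M.n i), G.n (M.g i k)) + z2_add_self (G.n (h 0)) +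
      z2_add_self (G.n (h (m - 1)))

theorem U3_z2 : ∀ (i : Bool) (A C : ZMod 2) (t t' : Bool → ZMod 2), t' i = t i + 1 →
    t' (!i) = t (!i) → A = t false + t true + C ∨ A = t' false + t' true + C := by
  decide +kernel

theorem f5_joint (hF : F.Ok G T) (hH : ¬ F.WinN G g) (hm : F.MC G M σ Q q0)
    (hty : F.ty = false) (hA : AAb (F.At G M Q q0) i x1 x x3 a' a) (hu : F.Gu G M σ Q q0 i x a)
    (hB : Br = (G.lb (F.rest M) Q a').erase a') (hS : G.St Br OB ∅) (hφ : G.Sl Br OB ∅ φ)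
    (hx : gx ∈ G.cut Br ∧ gx ∈ G.cut (M.w i x1)) (hy : gy ∈ G.cut Br ∧ gy ∈ G.cut (M.w i x3))
    (hBr : ∀ e ∈ G.cut Br, e = gx ∨ e = gy ∨ e ∈ G.tch (G.vs Q) ∨ e ∈ G.tch (F.xt M σ (!i)))
    (hj : F.Jt G M i (M.w i x1) (M.w i x) (M.w i x3) (F.e M i x) (F.e M i (x + 1)) s)
    (hsg : chi (s + F.lam i + G.n gx + G.n gy) * G.out Br φ gx = G.out Br φ gy) : False := by
  obtain ⟨g1, g2, t1, t3, t2, -⟩ := hA
  have hM := hm.cf.isM
  have hc := hm.cf.cls
  have hQ := hm.cf.odd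
  have hne : a' ≠ a := by
    obtain ⟨a1, b1, k1, k2, k3⟩ := g1.2
    rwa [dbl hF hH hm t1 k2, dbl hF hH hm t2.1 k3]
  obtain ⟨X, O, L, K, un⟩ := unit_pass hF hH hm hu
  obtain ⟨q1, -, q3⟩ := q_last hF hH hm
  have nF := (mc_fh hF hH hm).1
  obtain ⟨c1, c2⟩ := SG.clu_sub hQ hm.cf.root
  have lc : ∀ {j y b}, F.At G M Q q0 j y b → (G.lb (F.rest M) Q b).erase b ⊆
      G.clu (F.rest M) Q q0 ∧ Disjoint ((G.lb (F.rest M) Q b).erase b) (G.vs Q) := fun k =>
    ⟨fun v hv => SG.mem_clu.2 (Or.inr ⟨_, k.1, k.2.1, mem_of_mem_erase hv⟩),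
      disjoint_left.2 fun v hv k' =>
        (SG.lb_disj nF hQ k.1 k' (ne_of_mem_erase hv).symm).2 (mem_of_mem_erase hv)⟩
  have dN : Disjoint (M.w i x) (F.rest M) := rest_disj un.le
  have sX : X ⊆ M.w i x ∪ G.clu (F.rest M) Q q0 :=
    un.hi.trans (union_subset_union_right (lc t2.1).1)
  have sB : Br ⊆ G.clu (F.rest M) Q q0 := hB ▸ (lc t1).1
  have h2 : X ∪ Br ∪ G.vs Q ⊆ M.w i x ∪ G.clu (F.rest M) Q q0 :=
    union_subset (union_subset sX (sB.trans subset_union_right)) (c1.trans subset_union_right)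
  have key : ∀ M' σ', F.IsM G M' → F.Oc G M' σ' i →
      F.Jt G M' i (M.w i x1) (M.w i x) (M.w i x3) (F.e M i x) (F.e M i (x + 1)) s →
      (∀ j, F.QS G M' σ' σ' j ∅) → F.xt M' σ' (!i) = F.xt M σ (!i) →
      G.clu (F.rest M) Q q0 ⊆ F.rest M' → (∀ B ∈ F.Bs, B ⊆ F.rest M' → B ⊆ F.rest M) →
      G.ocs ((F.W0 M' σ' ∪ M.w i x) \ (X ∪ Br ∪ G.vs Q)) = G.ocs (F.y0 G M Q q0) →
      ¬ g + F.lam false + F.lam true = F.tz G M' σ' false {M.w i x} +
        F.tz G M' σ' true {M.w i x} +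
        (G.par (O ∩ G.ins X) + G.par OB + G.par Q + G.nu (F.y0 G M Q q0)) := by
    intro M' σ' k1 k2 k3 k4 k5 k6 k7 k8 k9
    refine hH (uc_joint hF k1 hty k2 k3 (fun j => (k4 j).mono (empty_subset _)) un.pas q1 hS hφ hx
      hy (k5 ▸ hBr) hsg (sX.trans (union_subset_union_right k6)) (sB.trans k6) (c1.trans k6)
      (Disjoint.mono_left un.hi (disjoint_union_left.2 ⟨dN.mono_right (sB.trans c2), hB ▸
        (SG.lb_disj nF hQ t2.1.1 t1.1 hne.symm).1.mono (erase_subset _ _) (erase_subset _ _)⟩))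
      (Disjoint.mono_left un.hi (disjoint_union_left.2 ⟨dN.mono_right (c1.trans c2), (lc t2.1).2⟩))
      (hB ▸ (lc t1).2) (fun e e1 e2 => k5 ▸ (un.lv e e1 e2).imp_right And.right)
      (fun B b1 b2 => ?_) (Or.inr ?_))
    · rcases b2 with rfl | b2
      · refine (un.bk b1 _).congr ?_ Set.subset_union_left
        rw [inter_union_distrib_left, inter_union_distrib_left,
          disjoint_iff_inter_eq_empty.1 (dN.mono_right (sB.trans c2)),
          disjoint_iff_inter_eq_empty.1 (dN.mono_right (c1.trans c2)), union_empty, union_empty]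
      · exact q3 B b1 (k7 B b1 b2) _ _ _ subset_union_right (Disjoint.mono_left h2
          (disjoint_union_left.2 ⟨dN.mono_right sdiff_subset, disjoint_sdiff⟩)) (Or.inr rfl)
    · rw [k9, SG.nu_congr k8]
      ring
  have hU : ∀ v, v ∈ M.w i x ↔ ∃ N ∈ ({M.w i x} : Finset (Finset V)), v ∈ N := by simp
  have hZ : ∀ N ∈ ({M.w i x} : Finset (Finset V)), ∃ j, ∃ k ≤ M.n j, F.Sg i j ∧ M.w j k = N ∧
      (j ≠ i ∨ k ≤ x1 ∨ x ≤ k) ∧ F.xs M σ j k ⊆ X ∪ Br ∪ G.vs Q ∧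
      (N ⊆ X ∪ Br ∪ G.vs Q ∨ F.Aj M j k) := fun N hN => by
    rw [mem_singleton.1 hN]
    exact ⟨i, x, un.le, Or.inr rfl, rfl, Or.inr (Or.inr le_rfl),
      un.lo.trans (subset_union_left.trans subset_union_left),
      un.full.imp_left fun k => k.trans (subset_union_left.trans subset_union_left)⟩
  have e1 := key M σ hM (hc.oc i) hj (qs_real hF hH hM hc) rfl c2 (fun _ _ k => k)
    (state1 hF hH hm hU hZ subset_union_right h2)
  rcases sw2 hF hH hm g1 with ⟨k, k1, k2, k3, k4⟩ | ⟨α, β, m, u, h, hb⟩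
  · obtain ⟨j, l, l1, l2, l3, l4, l5⟩ :=
      state_node hF hH hm g1 k1 k2 k3 k4 hU hZ subset_union_right h2
    obtain rfl : i = j := l1.resolve_left (by simp [hty])
    have f1 := fl_tz (σ := σ) (Zs := {M.w i x}) hM l2
    rw [if_neg l3] at f1
    refine (U3_z2 i _ _ (fun j => F.tz G M σ j {M.w i x})
      (fun j => F.tz G M (fl σ (M.w i l)) j {M.w i x}) f1.1 f1.2).elim e1
      (key M _ hM (fun k => (MB5_fl hM l2).2.trans (hc.oc i k)) hj l4
        (xs_congr (G := G) fun k hk => Function.update_of_ne (fun e => ?_) _ _).2.1 c2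
        (fun _ _ k => k) l5)
    simpa using (hM.inj hk.1 l2.1 e).1
  · obtain ⟨-, -, f1, f2, -⟩ := hb.swap (σ := σ) (Zs := {M.w i x}) hF hM
    have eR := hb.ear.rest hF.wf hM
    refine (U3_z2 i _ _ (fun j => F.tz G M σ j {M.w i x})
      (fun j => F.tz G (M.rr i α β m u h) σ j {M.w i x}) f1 f2).elim e1
      (key _ σ (hb.ear.isM hF.wf hM) (rr_oc (hc.oc i))
        (hb.jt hM hj le_rfl g2.1.1.le t3.2.2.1 un.le (Or.inr le_rfl))
        (fun j => hb.qs hM (qs_real hF hH hM hc j)) (rr_xt (G := G)).1 (fun v hv => ?_)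
        (fun B b1 b2 => ?_) (state_bead hF hH hm g1 hb hU hZ subset_union_right h2))
    · rw [eR]
      exact mem_union_left _ (mem_sdiff.2 ⟨c2 hv, fun k => (mem_sdiff.1 (hb.sub k)).2 hv⟩)
    · refine (hM.box hF.wf b1).resolve_right ?_
      rintro ⟨j, k, k1, rfl⟩
      obtain ⟨v, hv⟩ := (hF.wf.sub _ b1).2
      have k2 := b2 hv
      rw [eR] at k2
      rcases mem_union.1 k2 with k2 | k2
      · exact disjoint_left.1 (rest_disj k1.1) hv (mem_sdiff.1 k2).1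
      · obtain ⟨l, l1, l2, l3⟩ := mem_gap.1 k2
        by_cases e : i = j ∧ l = k
        · obtain ⟨rfl, rfl⟩ := e
          exact hb.r1 l l1.le l2.le b1
        · exact disjoint_left.1 (hM.disj hF.wf k1.1 (l2.le.trans hb.ear.le) e) hv l3

end Kf

end Pool.Agent.Work.MP_8c679b_co
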