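import Pool.Agent.Work.MP_8c679b_co.Six.GNorm
import Pool.Agent.Work.MP_8c679b_co.Six.AGad
import Pool.Agent.Work.MP_8c679b_co.Six.Cut
import Pool.Agent.Work.MP_8c679b_co.Six.Z3

/-!
Double passes of a chain: gluing two passes and a middle part.
-/

set_option autoImplicit false

namespace Pool.Agent.Work.MP_8c679b_co

open Finset

/-- the product of two relations -/
def Rf.pr (R1 R2 : Rl) : Rf := fun x y u w => R1 x u ∧ R2 y w

theorem ChA_chi : ∀ (s : ZMod 2) (a b k : ZMod 3), a + chi s * b = chi s * k →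
    b + chi s * a = k := by decide

theorem ChA_pp : ∀ (l s1 s2 : ZMod 2) (c1 c2 k k' : ZMod 3), ∃ x y u w : ZMod 3,
    (x + chi s1 * u = c1 ∧ y + chi s2 * w = c2) ∧ x + chi l * y = k ∧
      u + chi (1 + l + s1 + s2) * w = k' := by
  have h : ∀ (l s1 s2 : ZMod 2) (c1 c2 k k' : ZMod 3), ∃ x : ZMod 3,
      (x + chi s1 * (chi s1 * (c1 - x)) = c1 ∧
        chi l * (k - x) + chi s2 * (chi s2 * (c2 - chi l * (k - x))) = c2) ∧
      x + chi l * (chi l * (k - x)) = k ∧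
      chi s1 * (c1 - x) + chi (1 + l + s1 + s2) * (chi s2 * (c2 - chi l * (k - x))) = k' := by
    decide +kernel
  intro l s1 s2 c1 c2 k k'
  obtain ⟨x, hx⟩ := h l s1 s2 c1 c2 k k'
  exact ⟨x, _, _, _, hx⟩

theorem ChA_mt : ∀ (l m s : ZMod 2) (c k k' : ZMod 3), ∃ j : ZMod 3, ∀ x u : ZMod 3,
    x + chi m * u = j → ∃ y w : ZMod 3, y + chi s * w = c ∧ x + chi l * y = k ∧
      u + chi (m + l + s) * w = k' := by
  have h : ∀ (l m s : ZMod 2) (c k k' : ZMod 3), ∃ j : ZMod 3, ∀ x u : ZMod 3,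
      x + chi m * u = j → chi l * (k - x) + chi s * (chi s * (c - chi l * (k - x))) = c ∧
        x + chi l * (chi l * (k - x)) = k ∧
        u + chi (m + l + s) * (chi s * (c - chi l * (k - x))) = k' := by decide +kernel
  intro l m s c k k'
  obtain ⟨j, hj⟩ := h l m s c k k'
  exact ⟨j, fun x u q => ⟨_, _, hj x u q⟩⟩

theorem ChA_uu : ∀ (l t s1 s2 : ZMod 2) (c1 c2 k k' : ZMod 3), ∃ x y u w : ZMod 3,
    (x + chi s1 * u ≠ c1 ∧ y + chi s2 * w ≠ c2) ∧ x + chi l * y = k ∧ u + chi t * w = k' := by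
  have h : ∀ (l t s1 s2 : ZMod 2) (c1 c2 k k' : ZMod 3), ∃ x u : ZMod 3,
      x + chi s1 * u ≠ c1 ∧ chi l * (k - x) + chi s2 * (chi t * (k' - u)) ≠ c2 := by
    decide +kernel
  have h2 : ∀ (l : ZMod 2) (k x : ZMod 3), x + chi l * (chi l * (k - x)) = k := by decide +kernel
  intro l t s1 s2 c1 c2 k k'
  obtain ⟨x, u, hx⟩ := h l t s1 s2 c1 c2 k k'
  exact ⟨x, _, u, _, hx, h2 l k x, h2 t k' u⟩

theorem l2_pp {R1 R2 : Rl} {s1 s2 : ZMod 2} (l : ZMod 2) (h1 : R1.P s1) (h2 : R2.P s2) :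
    (Rf.pr R1 R2).L2 l (1 + l + s1 + s2) := by
  obtain ⟨c1, h1⟩ := h1
  obtain ⟨c2, h2⟩ := h2
  intro k k'
  obtain ⟨x, y, u, w, k1, k2⟩ := ChA_pp l s1 s2 c1 c2 k k'
  exact ⟨x, y, u, w, ⟨h1 _ _ k1.1, h2 _ _ k1.2⟩, k2⟩

theorem l2_mt {R1 R2 : Rl} {m s : ZMod 2} (l : ZMod 2) (h1 : R1.Mt m) (h2 : R2.P s) :
    (Rf.pr R1 R2).L2 l (m + l + s) := by
  obtain ⟨c, h2⟩ := h2
  intro k k'
  obtain ⟨j, hj⟩ := ChA_mt l m s c k k'
  obtain ⟨x, u, k1, k2⟩ := h1 j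
  obtain ⟨y, w, k3, k4⟩ := hj x u k2
  exact ⟨x, y, u, w, ⟨k1, h2 _ _ k3⟩, k4⟩

theorem l2_uu {R1 R2 : Rl} {s1 s2 : ZMod 2} (l t : ZMod 2) (h1 : R1.U s1) (h2 : R2.U s2) :
    (Rf.pr R1 R2).L2 l t := by
  obtain ⟨c1, h1⟩ := h1
  obtain ⟨c2, h2⟩ := h2
  intro k k'
  obtain ⟨x, y, u, w, k1, k2⟩ := ChA_uu l t s1 s2 c1 c2 k k'
  exact ⟨x, y, u, w, ⟨h1 _ _ k1.1, h2 _ _ k1.2⟩, k2⟩

theorem ChA_inv : ∀ (l : ZMod 2) (k : ZMod 3), ∃ f g : ZMod 3 → ZMod 3,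
    (∀ x, x + chi l * f x = k) ∧ (∀ x, g (f x) = x) ∧ ∀ y, f (g y) = y := fun l k =>
  ⟨fun x => chi l * (k - x), fun y => k - chi l * y, by revert l k; decide, by revert l k; decide,
    by revert l k; decide⟩

/-- a relation as a table -/
def ChA_t (a b c d e f g h i : Bool) (x y : ZMod 3) : Bool :=
  if x = 0 then (if y = 0 then a else if y = 1 then b else c)
  else if x = 1 then (if y = 0 then d else if y = 1 then e else f)
  else if y = 0 then g else if y = 1 then h else i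

/-- good tables -/
def ChA_g (f : ZMod 3 → ZMod 3 → Bool) : Prop :=
  ((∀ x, ∃ y, f x y = true) ∧ ∀ y, ∃ x, f x y = true) ∧
    ∀ α β, ∃ x y, f x y = true ∧ (x = α ↔ y ≠ β)

instance (f : ZMod 3 → ZMod 3 → Bool) : Decidable (ChA_g f) := by
  unfold ChA_g
  infer_instance

theorem ChA_tab : ∀ a b c d e f g h i : Bool, ChA_g (ChA_t a b c d e f g h i) →
    ¬ ChA_g fun x y => !ChA_t a b c d e f g h i x y := by
  have z : ∀ x : ZMod 3, x = 0 ∨ x = 1 ∨ x = 2 := by decide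
  have al : ∀ p : ZMod 3 → Prop, (∀ x, p x) ↔ p 0 ∧ p 1 ∧ p 2 := fun p =>
    ⟨fun h => ⟨h _, h _, h _⟩, fun h x => by
      rcases z x with rfl | rfl | rfl
      exacts [h.1, h.2.1, h.2.2]⟩
  have ex : ∀ p : ZMod 3 → Prop, (∃ x, p x) ↔ p 0 ∨ p 1 ∨ p 2 := fun p =>
    ⟨fun ⟨x, h⟩ => by
      rcases z x with rfl | rfl | rfl
      exacts [Or.inl h, Or.inr (Or.inl h), Or.inr (Or.inr h)],
    fun h => h.elim (fun k => ⟨_, k⟩) fun k => k.elim (fun k => ⟨_, k⟩) fun k => ⟨_, k⟩⟩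
  have n1 : ((1 : ZMod 3) = 0) = False := by decide
  have n2 : ((2 : ZMod 3) = 0) = False := by decide
  have n3 : ((2 : ZMod 3) = 1) = False := by decide
  have n4 : ((0 : ZMod 3) = 1) = False := by decide
  have n5 : ((0 : ZMod 3) = 2) = False := by decide
  have n6 : ((1 : ZMod 3) = 2) = False := by decide
  intro a b c d e f g h i
  simp only [ChA_g, al, ex, ChA_t, n1, n2, n3, n4, n5, n6, if_true, if_false, ne_eq,
    not_true_eq_false, not_false_eq_true, iff_true, iff_false, and_true,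
    and_false, or_false, false_or, ← Bool.or_eq_true, ← Bool.and_eq_true]
  revert a b c d e f g h i
  decide +kernel

theorem ChA_z3 : ∀ x : ZMod 3, x = 0 ∨ x = 1 ∨ x = 2 := by decide

/-- two good relations have a common point -/
theorem ChA_meet {A B : Rl} (hA : A.Gd) (hB : B.Gd) : ∃ x u, A x u ∧ B x u := by
  classical
  by_contra hn
  have e : ∀ x y, ChA_t (A 0 0) (A 0 1) (A 0 2) (A 1 0) (A 1 1) (A 1 2) (A 2 0) (A 2 1) (A 2 2) x y =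
      decide (A x y) := by
    have n1 : (1 : ZMod 3) ≠ 0 := by decide
    have n2 : (2 : ZMod 3) ≠ 0 := by decide
    have n3 : (2 : ZMod 3) ≠ 1 := by decide
    intro x y
    rcases ChA_z3 x with rfl | rfl | rfl <;> rcases ChA_z3 y with rfl | rfl | rfl <;>
      simp [ChA_t, n1, n2, n3]
  refine ChA_tab (A 0 0) (A 0 1) (A 0 2) (A 1 0) (A 1 1) (A 1 2) (A 2 0) (A 2 1) (A 2 2) ?_ ?_
  · exact hA.mono (R' := fun x y => _ = true) fun x y h => by rw [e]; exact decide_eq_true h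
  · exact hB.mono (R' := fun x y => (!_) = true) fun x y h => by
      rw [e, Bool.not_eq_true', decide_eq_false_iff_not]
      exact fun k => hn ⟨x, y, k, h⟩

theorem l2_gg {R1 R2 : Rl} (l t : ZMod 2) (h1 : R1.Gd) (h2 : R2.Gd) : (Rf.pr R1 R2).L2 l t := by
  intro k k'
  obtain ⟨f, g, f1, f2, f3⟩ := ChA_inv l k
  obtain ⟨f', g', f1', f2', f3'⟩ := ChA_inv t k'
  have h3 : Rl.Gd fun x u => R2 (f x) (f' u) := by
    refine ⟨⟨fun x => ?_, fun u => ?_⟩, fun α β => ?_⟩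
    · obtain ⟨w, hw⟩ := h2.1.1 (f x)
      exact ⟨g' w, by simpa only [f3'] using hw⟩
    · obtain ⟨y, hy⟩ := h2.1.2 (f' u)
      exact ⟨g y, by simpa only [f3] using hy⟩
    · obtain ⟨y, w, k1, k2⟩ := h2.2 (f α) (f' β)
      refine ⟨g y, g' w, by simpa only [f3, f3'] using k1, ?_⟩
      have e1 : g y = α ↔ y = f α := ⟨fun h => by rw [← h, f3], fun h => by rw [h, f2]⟩
      have e2 : g' w = β ↔ w = f' β := ⟨fun h => by rw [← h, f3'], fun h => by rw [h, f2']⟩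
      rw [e1, ne_eq, e2]
      exact k2
  obtain ⟨x, u, k1, k2⟩ := ChA_meet h1 h3
  exact ⟨x, f x, u, f' u, ⟨k1, k2⟩, f1 x, f1' u⟩

namespace SG

variable {V E : Type} [Fintype V] [DecidableEq V] [DecidableEq E] {G : SG V E}
  {S X X1 X2 H H' : Finset V} {O O' O1 O2 O3 Fr Fr' Fr1 Fr2 L L1 L2 : Finset E}
  {K K' K0 K1 K2 K3 : Set (Finset E)} {a b c d : E} {C : Rf → Prop} {C1 C2 : Rl → Prop}
  {l t ε : ZMod 2}

theorem ChA_congr (h : G.Pq X O Fr K a b c d C) (hO : ∀ e ∈ G.tch X, e ∈ O' ↔ e ∈ O) :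
    G.Pq X O' Fr K a b c d C := by
  refine ⟨h.1, fun ψ h1 => ?_⟩
  obtain ⟨R, h2, h3⟩ := h.2 ψ fun e he k1 k2 => h1 e he k1 fun k => k2 ((hO e he).1 k)
  refine ⟨R, h2, fun x y u w hxy => ?_⟩
  obtain ⟨φ, h4, h5⟩ := h3 x y u w hxy
  exact ⟨φ, ⟨h4.1, h4.2.congr (fun _ _ => rfl) hO⟩, h5⟩

theorem ChA_cov (h : G.Pq X O Fr K' a b c d C) (hK : G.Cvr X O K' K) :
    G.Pq X O Fr K a b c d C := by
  refine ⟨h.1, fun ψ h1 => ?_⟩
  obtain ⟨R, h2, h3⟩ := h.2 ψ h1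
  refine ⟨R, h2, fun x y u w hxy => ?_⟩
  obtain ⟨φ, h4, h5⟩ := h3 x y u w hxy
  exact ⟨φ, ⟨h4.1, h4.2.cov hK⟩, h5⟩

theorem ChA_mono (h : G.Pq X O Fr K a b c d C) (h1 : Fr ⊆ Fr') (h2 : Fr' ⊆ G.tch X) :
    G.Pq X O Fr' K a b c d C := by
  refine ⟨h2, fun ψ h3 => ?_⟩
  obtain ⟨R, h4, h5⟩ := h.2 _ (Ab_over h3 (χ := fun _ => 1) fun _ => one_ne_zero)
  refine ⟨R, h4, fun x y u w hxy => ?_⟩
  obtain ⟨φ, h6, h7⟩ := h5 x y u w hxy
  exact ⟨φ, Ab_re h6 h1, h7⟩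

theorem ChA_two (h1 : G.Pa X1 O Fr1 K1 a b fun _ => C1) (h2 : G.Pa X2 O Fr2 K2 c d fun _ => C2)
    (f1 : Disjoint Fr1 (G.tch X2)) (f2 : Disjoint Fr2 (G.tch X1))
    (ha : a ∈ G.cut X1 ∧ a ∉ G.tch X2) (hb : b ∈ G.cut X1 ∧ b ∉ G.tch X2)
    (hc : c ∈ G.cut X2 ∧ c ∉ G.tch X1) (hd : d ∈ G.cut X2 ∧ d ∉ G.tch X1)
    (hC : ∀ R1 R2, C1 R1 → C2 R2 → C (Rf.pr R1 R2)) :
    G.Pq (X1 ∪ X2) O (Fr1 ∪ Fr2) (K1 ∪ K2) a c b d C := by
  refine ⟨Ab_sub h1.1 h2.1, fun ψ h3 => ?_⟩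
  obtain ⟨R1, c1, r1⟩ := h1.2 ψ (Ab_pre1 h3 fun e k1 k2 => absurd k2 (disjoint_left.1 f2 k1))
  obtain ⟨R2, c2, r2⟩ := h2.2 ψ (Ab_pre2 h3 fun e k1 k2 => absurd k2 (disjoint_left.1 f1 k1))
  refine ⟨_, hC R1 R2 c1 c2, ?_⟩
  rintro x y u w ⟨k1, k2⟩
  obtain ⟨φ1, p1, p2, p3⟩ := r1 x u k1
  obtain ⟨φ2, q1, q2, q3⟩ := r2 y w k2
  obtain ⟨χ, s1, s2, s3⟩ := Ab_glue p1 q1 fun e e1 e2 => by
    rw [p1.1 e fun k => disjoint_left.1 f1 k e2, q1.1 e fun k => disjoint_left.1 f2 k e1]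
  refine ⟨χ, s1, ?_, ?_, ?_, ?_⟩
  · rw [union_comm, out_union χ (mem_cut.1 ha.1).1 ha.2, ← p2, out, out, s2 a (cut_sub_tch ha.1)]
  · rw [out_union χ (mem_cut.1 hc.1).1 hc.2, ← q2, out, out, s3 c (cut_sub_tch hc.1)]
  · rw [union_comm, out_union χ (mem_cut.1 hb.1).1 hb.2, ← p3, out, out, s2 b (cut_sub_tch hb.1)]
  · rw [out_union χ (mem_cut.1 hd.1).1 hd.2, ← q3, out, out, s3 d (cut_sub_tch hd.1)]

theorem ChA_pre (h1 : G.Ab X1 O Fr1 K1 fun _ => True) (h2 : G.Pq X2 O Fr2 K2 a b c d C)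
    (hF : Disjoint Fr2 (G.tch X1)) (hJ : ∀ e ∈ ({a, b, c, d} : Finset E), e ∈ G.A ∧ e ∉ G.tch X1) :
    G.Pq (X1 ∪ X2) O (Fr1 ∪ Fr2) (K1 ∪ K2) a b c d C := by
  refine ⟨Ab_sub h1.1 h2.1, fun ψ h3 => ?_⟩
  obtain ⟨φ, h4⟩ := h1.2 ψ (Ab_pre1 h3 fun e k1 k2 => absurd k2 (disjoint_left.1 hF k1)) trivial
  obtain ⟨R, h5, h6⟩ := h2.2 φ (Ab_pre3 h3 h1.1 h4)
  refine ⟨R, h5, fun x y u w hxy => ?_⟩
  obtain ⟨χ, h7, h8, h9, h10, h11⟩ := h6 x y u w hxy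
  have k := fun e he => out_union (X2 := X2) χ (hJ e he).1 (hJ e he).2
  exact ⟨χ, Ab_then h4 h7 hF, (k a (by simp)).trans h8, (k b (by simp)).trans h9,
    (k c (by simp)).trans h10, (k d (by simp)).trans h11⟩

theorem ChA_post (h1 : G.Pq X1 O Fr1 K1 a b c d C) (h2 : G.Ab X2 O Fr2 K2 fun _ => True)
    (hF : Disjoint Fr2 (G.tch X1)) (hJ : ∀ e ∈ ({a, b, c, d} : Finset E), e ∈ G.A ∧ e ∉ G.tch X2) :
    G.Pq (X2 ∪ X1) O (Fr1 ∪ Fr2) (K2 ∪ K1) a b c d C := by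
  rw [union_comm X2, Set.union_comm K2]
  refine ⟨Ab_sub h1.1 h2.1, fun ψ h3 => ?_⟩
  obtain ⟨R, h5, h6⟩ := h1.2 ψ (Ab_pre1 h3 fun e k1 k2 => absurd k2 (disjoint_left.1 hF k1))
  refine ⟨R, h5, fun x y u w hxy => ?_⟩
  obtain ⟨φ, h7, h8, h9, h10, h11⟩ := h6 x y u w hxy
  obtain ⟨χ, h4⟩ := h2.2 φ (Ab_pre3 h3 h1.1 h7) trivial
  have k : ∀ e ∈ ({a, b, c, d} : Finset E), G.out (X1 ∪ X2) χ e = G.out X1 φ e := fun e he => by
    rw [union_comm, out_union χ (hJ e he).1 (hJ e he).2, out, out,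
      h4.1 e fun m => (hJ e he).2 (h2.1 m)]
  exact ⟨χ, Ab_then h7 h4 hF, (k a (by simp)).trans h8, (k b (by simp)).trans h9,
    (k c (by simp)).trans h10, (k d (by simp)).trans h11⟩

theorem ChA_fr {e : E} : e ∈ G.fr X L ↔ e ∈ G.ins X ∨ (e ∈ G.cut X ∧ e ∈ L) := by
  simp [fr]

theorem ChA_disj (hd : Disjoint X1 X2) (hF : ∀ e ∈ L2, e ∈ G.cut X2 → e ∉ G.tch X1) :
    Disjoint (G.fr X2 L2) (G.tch X1) := by
  rw [disjoint_left]
  intro e he h1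
  rcases ChA_fr.1 he with h | h
  · exact not_ins_of_cut (Ab_link hd h1 (ins_sub_tch h)).2 h
  · exact hF e h.2 h.1 h1

/-- an edge leaving `S` touches only one of two disjoint subsets -/
theorem ChA_out {e : E} (h1 : X1 ⊆ S) (h2 : X2 ⊆ S) (hd : Disjoint X1 X2) (he : e ∈ G.cut S)
    (h : e ∈ G.cut X1) : e ∉ G.tch X2 := fun k => by
  have k1 := (ie_link hd h (Ab_link hd (cut_sub_tch h) k).2).2
  exact not_ins_of_cut he (ins_mono (union_subset h1 h2) k1)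

/-- Two passes and a middle part.  Either the middle part is absorbed first (all its edges are
live) or last (the passes may have live edges into it). -/
theorem ch_core (hq : G.Q4 S a b c d) (hH : H ⊆ S) (hH' : H' ⊆ S) (hd : Disjoint H H')
    (h1 : G.Pas0 H O1 a b L1 K1 C1) (h2 : G.Pas0 H' O2 c d L2 K2 C2)
    (h3 : G.Abs0 (S \ (H ∪ H')) O3 L K3)
    (hL : (L1 = ∅ ∧ L2 = ∅) ∨ (L = ∅ ∧ (∀ e ∈ L1, e ∉ G.tch H') ∧ ∀ e ∈ L2, e ∉ G.tch H))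
    (hC : ∀ R1 R2, C1 R1 → C2 R2 → (Rf.pr R1 R2).L2 l t)
    (hK : ∀ s ∈ K0, (∃ s' ∈ K1 ∪ K2 ∪ K3, s' ⊆ s) ∨
      ∃ e ∈ s, e ∈ G.ins S ∧ e ∉ G.ins H ∧ e ∉ G.ins H' ∧ e ∉ G.ins (S \ (H ∪ H'))) :
    G.Wk S a c b d l t (G.par (O1 ∩ G.ins H) + G.par (O2 ∩ G.ins H') + G.par O3) K0 := by
  obtain ⟨qa, qb, qc, qd⟩ := hq.mem
  obtain ⟨a1, b1, -, -, o1⟩ := h1.cut
  obtain ⟨c1, d1, -, -, o2⟩ := h2.cut
  have na := ChA_out hH hH' hd qa a1
  have nb := ChA_out hH hH' hd qb b1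
  have nc := ChA_out hH' hH hd.symm qc c1
  have nd' := ChA_out hH' hH hd.symm qd d1
  have hU : H ∪ H' ⊆ S := union_subset hH hH'
  have hJ : ∀ e ∈ ({a, c, b, d} : Finset E), e ∈ G.cut S ∧ e ∉ G.tch (S \ (H ∪ H')) := by
    have k1 : Disjoint H (S \ (H ∪ H')) := disjoint_sdiff.mono_left subset_union_left
    have k2 : Disjoint H' (S \ (H ∪ H')) := disjoint_sdiff.mono_left subset_union_right
    simp only [mem_insert, mem_singleton, forall_eq_or_imp, forall_eq]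
    exact ⟨⟨qa, ChA_out hH sdiff_subset k1 qa a1⟩, ⟨qc, ChA_out hH' sdiff_subset k2 qc c1⟩,
      ⟨qb, ChA_out hH sdiff_subset k1 qb b1⟩, qd, ChA_out hH' sdiff_subset k2 qd d1⟩
  have hJ' : ∀ e ∈ ({a, c, b, d} : Finset E), e ∈ G.A ∧ e ∉ G.tch (S \ (H ∪ H')) :=
    fun e he => ⟨(mem_cut.1 (hJ e he).1).1, (hJ e he).2⟩
  obtain ⟨s1, s2, s3, s4⟩ := h1.2.1.union h2.2.1 hd fun e e1 e2 => by
    simp only [mem_insert, mem_singleton]
    constructor <;> rintro (rfl | rfl)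
    exacts [absurd e2 na, absurd e2 nb, absurd e1 nc, absurd e1 nd']
  have i0 : ({a, b} : Finset E) ∩ {c, d} = ∅ := by
    ext e
    simp only [mem_inter, mem_insert, mem_singleton, notMem_empty, iff_false, not_and, not_or]
    rintro (rfl | rfl)
    exacts [⟨hq.2.2.1, hq.2.2.2.1⟩, ⟨hq.2.2.2.2.1, hq.2.2.2.2.2.1⟩]
  have i1 : ({a, b} : Finset E) ∪ {c, d} = {a, c, b, d} := by
    ext e
    simp only [mem_union, mem_insert, mem_singleton]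
    (clear * - hL; tauto)
  rw [i0] at s1 s4
  rw [sdiff_empty, i1] at s1
  have l1 : ∀ e ∈ L1, e ∉ G.tch H' := hL.elim (fun k e he => absurd (k.1 ▸ he) (notMem_empty e))
    fun k => k.2.1
  have l2 : ∀ e ∈ L2, e ∉ G.tch H := hL.elim (fun k e he => absurd (k.2 ▸ he) (notMem_empty e))
    fun k => k.2.2
  have p := ChA_two (h1.2.2.congrO s2) (h2.2.2.congrO s3)
    (ChA_disj hd.symm fun e he _ => by
      rcases mem_insert.1 he with rfl | he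
      · exact na
      rcases mem_insert.1 he with rfl | he
      exacts [nb, l1 e he])
    (ChA_disj hd fun e he _ => by
      rcases mem_insert.1 he with rfl | he
      · exact nc
      rcases mem_insert.1 he with rfl | he
      exacts [nd', l2 e he]) ⟨a1, na⟩ ⟨b1, nb⟩ ⟨c1, nc⟩ ⟨d1, nd'⟩ hC
  obtain ⟨r1, r2, r3, r4⟩ := h3.1.union s1 sdiff_disjoint
    fun e he _ => ⟨fun k => absurd k (notMem_empty e), fun k => absurd he (hJ e k).2⟩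
  simp only [empty_union, empty_inter, sdiff_empty] at r1 r4
  have e0 : G.tch S = G.fr S ({a, c, b, d} ∪ ∅) := by
    rw [union_empty, ← hq.mid.1, fr_cut]
  have p' : G.Pq (S \ (H ∪ H') ∪ (H ∪ H')) (O3 ∪ (O1 ∪ O2)) (G.tch (S \ (H ∪ H') ∪ (H ∪ H')))
      (K3 ∪ (K1 ∪ K2)) a c b d (Rf.L2 l t) := by
    rcases hL with ⟨rfl, rfl⟩ | ⟨rfl, -⟩
    · have k := ChA_pre (h3.2.congrO r2) (ChA_congr p r3) (disjoint_union_left.2
        ⟨ChA_disj (sdiff_disjoint.mono_right subset_union_left) fun e he _ => (hJ e (by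
            simp only [mem_insert, mem_singleton, notMem_empty] at he ⊢
            (clear * - he; tauto))).2,
          ChA_disj (sdiff_disjoint.mono_right subset_union_right) fun e he _ => (hJ e (by
            simp only [mem_insert, mem_singleton, notMem_empty] at he ⊢
            (clear * - he; tauto))).2⟩) hJ'
      exact ChA_mono k k.1 Subset.rfl
    · have k := ChA_post (ChA_congr p r3) (h3.2.congrO r2)
        (ChA_disj disjoint_sdiff fun e he => absurd he (notMem_empty e)) hJ'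
      exact ChA_mono k k.1 Subset.rfl
  rw [sdiff_union_of_subset hU] at r1 r4 p'
  refine ⟨O3 ∪ (O1 ∪ O2), ?_, ⟨hq.2.2.1, hq.2.1, hq.2.2.2.1, hq.2.2.2.2.1.symm, hq.2.2.2.2.2.2,
    hq.2.2.2.2.2.1⟩, r1, e0 ▸ ChA_cov p' fun s hs => ?_⟩
  · rw [r4, s4, inter_eq_left.2 h3.1.sub_ins]
    simp only [par, sum_empty]
    ring
  · rcases hK s hs with ⟨s', k1, k2⟩ | ⟨e, k1, k2, k3, k4, k5⟩
    · exact Or.inl ⟨s', k1.symm, k2⟩
    · refine Or.inr ⟨e, k1, ins_sub_tch k2, fun k => ?_⟩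
      have k6 : ∀ f ∈ G.cut S, e ≠ f := fun f hf r => not_ins_of_cut hf (r ▸ k2)
      rcases mem_union.1 k with k | k
      · exact h3.not_mem k5 k
      rcases mem_union.1 k with k | k
      · exact (o1 e ((mem_tch_iff.1 (h1.2.1.1 k)).resolve_left k3) k).elim (k6 a qa) (k6 b qb)
      · exact (o2 e ((mem_tch_iff.1 (h2.2.1.1 k)).resolve_left k4) k).elim (k6 c qc) (k6 d qd)

theorem ChA_sw1 (h : G.Wk S a b c d l t ε K) : G.Wk S b a c d l t ε K := by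
  obtain ⟨O, h1, ⟨n1, n2, n3, n4, n5, n6⟩, h3, h4, h5⟩ := h
  have e : ({b, a, c, d} : Finset E) = {a, b, c, d} := insert_comm _ _ _
  refine ⟨O, h1, ⟨n1.symm, n4, n5, n2, n3, n6⟩, e ▸ h3, e ▸ ⟨h4, fun ψ hψ => ?_⟩⟩
  obtain ⟨R, k1, k2⟩ := h5 ψ hψ
  refine ⟨fun x y u w => R y x u w, fun k k' => ?_, fun x y u w r => ?_⟩
  · obtain ⟨x, y, u, w, r1, r2, r3⟩ := k1 (chi l * k) k'
    exact ⟨y, x, u, w, r1, ChA_chi _ _ _ _ r2, r3⟩
  · obtain ⟨φ, r1, r2, r3, r4⟩ := k2 y x u w r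
    exact ⟨φ, r1, r3, r2, r4⟩

theorem ChA_sw2 (h : G.Wk S a b c d l t ε K) : G.Wk S a b d c l t ε K := by
  obtain ⟨O, h1, ⟨n1, n2, n3, n4, n5, n6⟩, h3, h4, h5⟩ := h
  have e : ({a, b, d, c} : Finset E) = {a, b, c, d} := by rw [pair_comm d c]
  refine ⟨O, h1, ⟨n1, n3, n2, n5, n4, n6.symm⟩, e ▸ h3, e ▸ ⟨h4, fun ψ hψ => ?_⟩⟩
  obtain ⟨R, k1, k2⟩ := h5 ψ hψ
  refine ⟨fun x y u w => R x y w u, fun k k' => ?_, fun x y u w r => ?_⟩
  · obtain ⟨x, y, u, w, r1, r2, r3⟩ := k1 k (chi t * k')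
    exact ⟨x, y, w, u, r1, r2, ChA_chi _ _ _ _ r3⟩
  · obtain ⟨φ, r1, r2, r3, r4, r5⟩ := k2 x y w u r
    exact ⟨φ, r1, r2, r3, r5, r4⟩

theorem ChA_dp1 (h : G.DP S a b c d) : G.DP S b a c d := fun l =>
  (h l).imp fun _ k => k.imp fun _ k => ⟨k.1, ChA_sw1 k.2⟩

theorem ChA_dp2 (h : G.DP S a b c d) : G.DP S a b d c := fun l =>
  (h l).imp fun _ k => k.imp fun _ k => ⟨k.1, ChA_sw2 k.2⟩

end SG

end Pool.Agent.Work.MP_8c679b_co
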