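import Pool.Agent.Work.MP_8c679b_co.Key.MB4
import Pool.Agent.Work.MP_8c679b_co.Key.MB5
import Pool.Agent.Work.MP_8c679b_co.Key.LB
import Pool.Agent.Work.MP_8c679b_co.Key.IH
import Pool.Agent.Work.MP_8c679b_co.Six.GNorm

-- merged part: Pool.Agent.Work.MP_8c679b_co.Key.MB6
section
-- merged part: Pool.Agent.Work.MP_8c679b_co.Key.MB2
section
/-!
Rerouting a track along an ear.

Hints.  Unfold `Mb.rr`, `rrV`, `rrE`, `es`; `Pth.rr` gives the new path; the inner nodes of the ear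
are nonempty subsets of the rest, so they differ from all nodes of the tracks.  Sums: split
`range` at `x` and `x + m` (`Finset.sum_range_add`, `Finset.sum_Ico_consecutive`), `Pth.par`,
`z2_add_self`.
-/

set_option autoImplicit false

namespace Pool.Agent.Work.MP_8c679b_co

open Finset

variable {V E : Type} [Fintype V] [DecidableEq V] [DecidableEq E] {G : SG V E}
  {T U Z X B N N' : Finset V} {F : Kf V E} {M M' : Mb V E} {i j : Bool} {k l x y m : ℕ}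
  {σ σ' π : Finset V → ZMod 2} {u : ℕ → Finset V} {h : ℕ → E} {a b c d e f : E} {v : V}
  {Zs : Finset (Finset V)} {g s : ZMod 2}
  {x' y' m' : ℕ} {u' : ℕ → Finset V} {h' : ℕ → E}

namespace Kf

omit [Fintype V] [DecidableEq V] [DecidableEq E] in
theorem MB2_w : (M.rr i x y m u h).w i = rrV x y m (M.w i) u := Function.update_self ..

omit [Fintype V] [DecidableEq V] [DecidableEq E] in
theorem MB2_g : (M.rr i x y m u h).g i = rrE x y m (M.g i) h := Function.update_self ..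

omit [Fintype V] [DecidableEq V] [DecidableEq E] in
theorem MB2_ne (hj : j ≠ i) : (M.rr i x y m u h).n j = M.n j ∧ (M.rr i x y m u h).w j = M.w j ∧
    (M.rr i x y m u h).g j = M.g j ∧ F.e (M.rr i x y m u h) j = F.e M j := by
  have h1 : (M.rr i x y m u h).n j = M.n j := Function.update_of_ne hj ..
  have h2 : (M.rr i x y m u h).g j = M.g j := Function.update_of_ne hj ..
  refine ⟨h1, Function.update_of_ne hj .., h2, funext fun k => ?_⟩
  rw [Kf.e, Kf.e, h1, h2]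

theorem MB2_sum {α : Type} {n : ℕ} {g h : ℕ → α} (f : α → ZMod 2) (h1 : x ≤ y) (h2 : y ≤ n) :
    ∑ k ∈ range (x + m + (n - y)), f (rrE x y m g h k) =
      ∑ k ∈ range n, f (g k) + ∑ k ∈ Ico x y, f (g k) + ∑ k ∈ range m, f (h k) := by
  obtain ⟨r, rfl⟩ := Nat.exists_eq_add_of_le h2
  rw [Nat.add_sub_cancel_left, sum_range_add, sum_range_add, sum_range_add,
    ← sum_range_add_sum_Ico _ h1, sum_congr rfl fun k hk => congrArg f (Pth_re1 (mem_range.1 hk)),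
    sum_congr (s₁ := range m) rfl fun k hk => congrArg f ((Pth_re2 (Nat.le_add_right x k)
      (Nat.add_lt_add_left (mem_range.1 hk) x)).trans (by rw [Nat.add_sub_cancel_left])),
    sum_congr (s₁ := range r) rfl fun k _ => congrArg f ((Pth_re3 (Nat.le_add_right (x + m) k)).trans
      (by rw [Nat.add_sub_cancel_left, Nat.add_comm]))]
  linear_combination -z2_add_self (∑ k ∈ Ico x y, f (g k))

theorem rr_other : (M.rr i x y m u h).n (!i) = M.n (!i) ∧ (M.rr i x y m u h).w (!i) = M.w (!i) ∧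
    (M.rr i x y m u h).g (!i) = M.g (!i) ∧ F.e (M.rr i x y m u h) (!i) = F.e M (!i) :=
  MB2_ne (by cases i <;> decide)

theorem rr_n : (M.rr i x y m u h).n i = x + m + (M.n i - y) :=
  Function.update_self ..

theorem MB2_m (hM : F.IsM G M) (hE : F.Ear G M i x y m u h) : 1 ≤ m := by
  refine Nat.pos_of_ne_zero fun h0 => hE.lt.ne ?_
  subst h0
  exact (hM.pth i).inj x (hE.lt.le.trans hE.le) y hE.le (hE.fst.symm.trans hE.lst)

theorem MB2_hi (hE : F.Ear G M i x y m u h) (h1 : y ≤ k) :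
    (M.rr i x y m u h).w i (x + m + (k - y)) = M.w i k ∧
      (M.rr i x y m u h).g i (x + m + (k - y)) = M.g i k := by
  rw [MB2_w, MB2_g, Pth_rr3 hE.fst hE.lst (Nat.le_add_right ..), Pth_re3 (Nat.le_add_right ..),
    Nat.add_sub_cancel_left, Nat.sub_add_cancel h1]
  exact ⟨rfl, rfl⟩

theorem MB2_mid (hE : F.Ear G M i x y m u h) (hk : k ≤ m) :
    (M.rr i x y m u h).w i (x + k) = u k := by
  rw [MB2_w, Pth_rr2 hE.fst (Nat.le_add_right ..) (Nat.add_le_add_left hk x),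
    Nat.add_sub_cancel_left]

/-- the nodes of the new member -/
theorem MB2_old (hE : F.Ear G M i x y m u h) (hl : l ≤ (M.rr i x y m u h).n j) :
    (∃ k ≤ M.n j, (j ≠ i ∨ k ≤ x ∨ y ≤ k) ∧ (M.rr i x y m u h).w j l = M.w j k) ∨
      (j = i ∧ ∃ k, 0 < k ∧ k < m ∧ (M.rr i x y m u h).w j l = u k) := by
  have h1 := hE.lt
  have h2 := hE.le
  by_cases hj : j = i
  · subst hj
    rw [rr_n] at hl
    by_cases h3 : l ≤ x
    · exact Or.inl ⟨l, by omega, Or.inr (Or.inl h3), by rw [MB2_w, Pth_rr1 h3]⟩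
    by_cases h4 : x + m ≤ l
    · refine Or.inl ⟨l - (x + m) + y, by omega, Or.inr (Or.inr (by omega)), ?_⟩
      rw [MB2_w, Pth_rr3 hE.fst hE.lst h4]
    · refine Or.inr ⟨rfl, l - x, by omega, by omega, ?_⟩
      rw [MB2_w, Pth_rr2 hE.fst (by omega) (by omega)]
  · obtain ⟨e1, e2, -⟩ := MB2_ne (F := F) (M := M) (x := x) (y := y) (m := m) (u := u) (h := h) hj
    exact Or.inl ⟨l, e1 ▸ hl, Or.inl hj, by rw [e2]⟩

/-- the nodes that stay -/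
theorem MB2_new (hE : F.Ear G M i x y m u h) (hk : k ≤ M.n j) (ho : j ≠ i ∨ k ≤ x ∨ y ≤ k) :
    ∃ l ≤ (M.rr i x y m u h).n j, (M.rr i x y m u h).w j l = M.w j k := by
  by_cases hj : j = i
  · subst hj
    rw [rr_n]
    rcases ho with h3 | h3 | h3
    · exact absurd rfl h3
    · exact ⟨k, by omega, by rw [MB2_w, Pth_rr1 h3]⟩
    · exact ⟨x + m + (k - y), by omega, (MB2_hi hE h3).1⟩
  · obtain ⟨e1, e2, -⟩ := MB2_ne (F := F) (M := M) (x := x) (y := y) (m := m) (u := u) (h := h) hj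
    exact ⟨k, e1 ▸ hk, by rw [e2]⟩

theorem Ear.pos (hw : F.Wf G) (hM : F.IsM G M) (hE : F.Ear G M i x y m u h) :
    1 ≤ m ∧ ∀ k, 0 < k → k < m → u k ⊆ F.rest M ∧ (u k).Nonempty ∧ ∃ v ∈ F.Y, u k = nd F.Bs v := by
  refine ⟨MB2_m hM hE, fun k h1 h2 => ?_⟩
  obtain ⟨v, hv, e⟩ := (hM.node hw (hE.lt.le.trans hE.le)).1
  obtain ⟨w, hw, e'⟩ := SG.quo_pth_node hE.pth hv (hE.fst.trans e) k h2.le
  exact ⟨fun a ha => hE.sub (mem_inn.2 ⟨k, h1, h2, ha⟩), ⟨w, e' ▸ mem_nd_self⟩, w, hw, e'⟩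

theorem MB2_dif (hw : F.Wf G) (hM : F.IsM G M) (hE : F.Ear G M i x y m u h) (h1 : 0 < k)
    (h2 : k < m) (hl : l ≤ M.n j) : u k ≠ M.w j l := fun e => by
  obtain ⟨h3, ⟨v, hv⟩, -⟩ := (hE.pos hw hM).2 k h1 h2
  exact disjoint_left.1 (rest_disj hl) (e ▸ hv) (h3 hv)

theorem Ear.isM (hw : F.Wf G) (hM : F.IsM G M) (hE : F.Ear G M i x y m u h) :
    F.IsM G (M.rr i x y m u h) := by
  have ne := fun j hj =>
    MB2_ne (F := F) (M := M) (i := i) (j := j) (x := x) (y := y) (m := m) (u := u) (h := h) hj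
  refine ⟨fun j => ?_, fun j => ?_, fun j => ?_, fun k hk l hl e => ?_⟩
  · by_cases hj : j = i
    · subst hj
      rw [rr_n, MB2_w, MB2_g]
      exact (hM.pth j).rr hE.pth hE.lt hE.le hE.fst hE.lst fun k h1 h2 l hl _ =>
        MB2_dif hw hM hE h1 h2 hl
    · rw [(ne j hj).1, (ne j hj).2.1, (ne j hj).2.2.1]
      exact hM.pth j
  · by_cases hj : j = i
    · subst hj
      rw [MB2_w, Pth_rr1 (Nat.zero_le x), hM.fst]
    · rw [(ne j hj).2.1, hM.fst]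
  · by_cases hj : j = i
    · subst hj
      rw [rr_n, (MB2_hi hE hE.le).1, hM.lst]
    · rw [(ne j hj).1, (ne j hj).2.1, hM.lst]
  · rcases MB2_old hE hk with ⟨k1, a1, -, a2⟩ | ⟨a0, k1, a1, a2, a3⟩ <;>
      rcases MB2_old hE hl with ⟨l1, b1, -, b2⟩ | ⟨b0, l1, b1, b2, b3⟩
    · exact hM.dj k1 a1 l1 b1 (a2.symm.trans (e.trans b2))
    · exact MB2_dif hw hM hE b1 b2 a1 (b3.symm.trans (e.symm.trans a2))
    · exact MB2_dif hw hM hE a1 a2 b1 (a3.symm.trans (e.trans b2))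
    · exact Bool.false_ne_true (a0.trans b0.symm)

theorem Ear.rest (hw : F.Wf G) (hM : F.IsM G M) (hE : F.Ear G M i x y m u h) :
    F.rest (M.rr i x y m u h) = (F.rest M \ inn m u) ∪ M.gap i x y := by
  have h1 := hE.lt
  have h2 := hE.le
  ext v
  rw [mem_union, mem_sdiff, mem_rest, mem_gap]
  constructor
  · rintro ⟨hv, h3⟩
    refine or_iff_not_imp_right.2 fun h4 => ⟨mem_rest.2 ⟨hv, fun j k hk h5 => ?_⟩, fun h5 => ?_⟩
    · by_cases ho : j ≠ i ∨ k ≤ x ∨ y ≤ k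
      · obtain ⟨l, hl, e⟩ := MB2_new hE hk ho
        exact h3 j l hl (e ▸ h5)
      · push Not at ho
        obtain ⟨rfl, h6, h7⟩ := ho
        exact h4 ⟨k, h6, h7, h5⟩
    · obtain ⟨k, -, h6, h7⟩ := mem_inn.1 h5
      exact h3 i (x + k) (by rw [rr_n]; omega) (MB2_mid hE h6.le ▸ h7)
  · rintro (⟨h3, h4⟩ | ⟨k, h3, h4, h5⟩)
    · refine ⟨(mem_rest.1 h3).1, fun j l hl h5 => ?_⟩
      rcases MB2_old hE hl with ⟨k, a1, -, a2⟩ | ⟨-, k, a1, a2, a3⟩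
      · exact (mem_rest.1 h3).2 j k a1 (a2 ▸ h5)
      · exact h4 (mem_inn.2 ⟨k, a1, a2, a3 ▸ h5⟩)
    · have hk : k ≤ M.n i := by omega
      refine ⟨(hM.node hw hk).2.2.1 h5, fun j l hl h6 => ?_⟩
      rcases MB2_old hE hl with ⟨k1, a1, a2, a3⟩ | ⟨-, k1, a1, a2, a3⟩
      · refine disjoint_left.1 (hM.disj hw hk a1 ?_) h5 (a3 ▸ h6)
        rintro ⟨rfl, rfl⟩
        rcases a2 with a | a | a
        exacts [a rfl, h3.not_ge a, h4.not_ge a]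
      · exact disjoint_left.1 (rest_disj hk) h5 (hE.sub (mem_inn.2 ⟨k1, a1, a2, a3 ▸ h6⟩))

theorem Ear.lo (hE : F.Ear G M i x y m u h) (hk : k ≤ x) :
    (M.rr i x y m u h).w i k = M.w i k ∧ F.e (M.rr i x y m u h) i k = F.e M i k := by
  have h1 := hE.lt
  have h2 := hE.le
  refine ⟨by rw [MB2_w, Pth_rr1 hk], ?_⟩
  cases k with
  | zero => rfl
  | succ k => rw [e_succ (by rw [rr_n]; omega), e_succ (by omega), MB2_g, Pth_re1 (by omega)]

theorem Ear.hi (hM : F.IsM G M) (hE : F.Ear G M i x y m u h) (h1 : y ≤ k) (h2 : k ≤ M.n i) :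
    (M.rr i x y m u h).w i (x + m + (k - y)) = M.w i k ∧
      F.e (M.rr i x y m u h) i (x + m + (k - y) + 1) = F.e M i (k + 1) := by
  refine ⟨(MB2_hi hE h1).1, ?_⟩
  rcases h2.lt_or_eq with h3 | rfl
  · rw [e_succ (by rw [rr_n]; omega), e_succ h3, (MB2_hi hE h1).2]
  · rw [← rr_n (u := u) (h := h), Kf.e, Kf.e, SG.Quo_es_last, SG.Quo_es_last]

theorem Ear.mid (hE : F.Ear G M i x y m u h) :
    (∀ k ≤ m, (M.rr i x y m u h).w i (x + k) = u k) ∧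
      ∀ k < m, F.e (M.rr i x y m u h) i (x + k + 1) = h k := by
  refine ⟨fun k hk => MB2_mid hE hk, fun k hk => ?_⟩
  rw [e_succ (by rw [rr_n]; omega), MB2_g, Pth_re2 (Nat.le_add_right ..) (by omega),
    Nat.add_sub_cancel_left]

theorem MB2_far (hM : F.IsM G M) (hE : F.Ear G M i x y m u h) (h1 : y < k) (h2 : k ≤ M.n i) :
    (M.rr i x y m u h).w i (x + m + (k - y)) = M.w i k ∧
      F.e (M.rr i x y m u h) i (x + m + (k - y)) = F.e M i k ∧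
      F.e (M.rr i x y m u h) i (x + m + (k - y) + 1) = F.e M i (k + 1) := by
  refine ⟨(hE.hi hM h1.le h2).1, ?_, (hE.hi hM h1.le h2).2⟩
  obtain ⟨k, rfl⟩ : ∃ l, k = l + 1 := ⟨k - 1, by omega⟩
  rw [show x + m + (k + 1 - y) = x + m + (k - y) + 1 by omega]
  exact (hE.hi hM (by omega) (by omega)).2

theorem Ear.ps (hM : F.IsM G M) (hE : F.Ear G M i x y m u h) (hk : k ≤ M.n j)
    (ho : j ≠ i ∨ k < x ∨ y < k) :
    F.Ps (M.rr i x y m u h) j (M.w j k) (F.e M j k) (F.e M j (k + 1)) := by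
  by_cases hj : j = i
  · subst hj
    rcases ho with h3 | h3 | h3
    · exact absurd rfl h3
    · exact ⟨k, by rw [rr_n]; omega, (hE.lo h3.le).1, (hE.lo h3.le).2, (hE.lo h3).2⟩
    · exact ⟨x + m + (k - y), by rw [rr_n]; omega, MB2_far hM hE h3 hk⟩
  · obtain ⟨e1, e2, -, e3⟩ :=
      MB2_ne (F := F) (M := M) (x := x) (y := y) (m := m) (u := u) (h := h) hj
    exact ⟨k, e1 ▸ hk, by rw [e2], by rw [e3], by rw [e3]⟩

theorem Ear.ps_inv (hM : F.IsM G M) (hE : F.Ear G M i x y m u h)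
    (hl : l ≤ (M.rr i x y m u h).n j) :
    (∃ k ≤ M.n j, (j ≠ i ∨ k < x ∨ y < k) ∧ (M.rr i x y m u h).w j l = M.w j k ∧
      F.e (M.rr i x y m u h) j l = F.e M j k ∧
      F.e (M.rr i x y m u h) j (l + 1) = F.e M j (k + 1)) ∨ (j = i ∧ ∃ k ≤ m, l = x + k) := by
  have h1 := hE.lt
  have h2 := hE.le
  by_cases hj : j = i
  · subst hj
    rw [rr_n] at hl
    by_cases h3 : l < x
    · exact Or.inl ⟨l, by omega, Or.inr (Or.inl h3), (hE.lo h3.le).1, (hE.lo h3.le).2,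
        (hE.lo h3).2⟩
    by_cases h4 : x + m < l
    · obtain ⟨k, h5, rfl⟩ : ∃ k, y < k ∧ l = x + m + (k - y) := ⟨l - (x + m) + y, by omega, by omega⟩
      exact Or.inl ⟨k, by omega, Or.inr (Or.inr h5), MB2_far hM hE h5 (by omega)⟩
    · exact Or.inr ⟨rfl, l - x, by omega, by omega⟩
  · obtain ⟨e1, e2, -, e3⟩ :=
      MB2_ne (F := F) (M := M) (x := x) (y := y) (m := m) (u := u) (h := h) hj
    exact Or.inl ⟨l, e1 ▸ hl, Or.inl hj, by rw [e2], by rw [e3], by rw [e3]⟩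

theorem Ear.sl (hM : F.IsM G M) (hE : F.Ear G M i x y m u h) :
    Kf.sl G (M.rr i x y m u h) i = Kf.sl G M i + ∑ k ∈ Ico x y, G.n (M.g i k) + G.par (pe m h) ∧
      Kf.sl G (M.rr i x y m u h) (!i) = Kf.sl G M (!i) := by
  obtain ⟨e1, -, e2, -⟩ := rr_other (F := F) (M := M) (i := i) (x := x) (y := y) (m := m) (u := u)
    (h := h)
  refine ⟨?_, by rw [Kf.sl, Kf.sl, e1, e2]⟩
  rw [Kf.sl, rr_n, MB2_g, MB2_sum G.n hE.lt.le hE.le]
  exact congrArg _ hE.pth.par.symm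

theorem Ear.tz (hM : F.IsM G M) (hE : F.Ear G M i x y m u h) :
    F.tz G (M.rr i x y m u h) σ i Zs = F.tz G M σ i Zs + ∑ k ∈ Ico x y, G.n (M.g i k) +
        (∑ k ∈ Ioo x y, if M.w i k ∈ F.Bs ∧ M.w i k ∉ Zs then σ (M.w i k) else 0) +
        (G.par (pe m h) + ∑ k ∈ Ioo 0 m, if u k ∈ F.Bs ∧ u k ∉ Zs then σ (u k) else 0) ∧
      F.tz G (M.rr i x y m u h) σ (!i) Zs = F.tz G M σ (!i) Zs := by
  obtain ⟨e1, e2, -, -⟩ := rr_other (F := F) (M := M) (i := i) (x := x) (y := y) (m := m) (u := u)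
    (h := h)
  refine ⟨?_, by rw [Kf.tz, Kf.tz, (hE.sl hM).2, e1, e2]⟩
  have h1 := hE.lt
  have h2 := hE.le
  have h3 := MB2_m hM hE
  have h4 := MB2_sum (x := x + 1) (m := m - 1) (g := M.w i) (h := fun k => u (1 + k))
    (fun N => if N ∈ F.Bs ∧ N ∉ Zs then σ N else 0) h1 (Nat.le_succ_of_le h2)
  have h5 : rrE (x + 1) y (m - 1) (M.w i) (fun k => u (1 + k)) = (M.rr i x y m u h).w i := by
    funext k
    rw [MB2_w]
    by_cases a1 : k ≤ x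
    · rw [Pth_re1 (by omega), Pth_rr1 a1]
    by_cases a2 : x + m ≤ k
    · rw [Pth_re3 (by omega), Pth_rr3 hE.fst hE.lst a2]
      congr 1
      omega
    · rw [Pth_re2 (by omega) (by omega), Pth_rr2 hE.fst (by omega) (by omega)]
      congr 1
      omega
  rw [h5, show x + 1 + (m - 1) + ((M.n i).succ - y) = x + m + (M.n i - y) + 1 by omega,
    Ico_add_one_left_eq_Ioo, ← sum_Ico_eq_sum_range
      (fun k => if u k ∈ F.Bs ∧ u k ∉ Zs then σ (u k) else 0) 1 m] at h4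
  rw [Kf.tz, Kf.tz, (hE.sl hM).1, rr_n, h4, ← Ico_add_one_left_eq_Ioo 0 m, Nat.succ_eq_add_one,
    Nat.zero_add]
  abel

/-- a second ear survives the first rerouting -/
theorem Ear.keep (hw : F.Wf G) (hM : F.IsM G M) (hE : F.Ear G M i x y m u h)
    (hE' : F.Ear G M j x' y' m' u' h') (ho : j ≠ i ∨ y' ≤ x ∨ y ≤ x')
    (hd : Disjoint (inn m u) (inn m' u')) :
    ∃ x2 y2, F.Ear G (M.rr i x y m u h) j x2 y2 m' u' h' ∧ y2 + x' = y' + x2 ∧
      (M.rr i x y m u h).gap j x2 y2 = M.gap j x' y' ∧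
      (∀ k, x' + k ≤ y' → (M.rr i x y m u h).w j (x2 + k) = M.w j (x' + k)) ∧
      ∀ k, x' + k < y' → (M.rr i x y m u h).g j (x2 + k) = M.g j (x' + k) := by
  have h1 := hE'.lt
  have h2 := hE'.le
  have h3 := hE.lt
  have h4 := hE.le
  obtain ⟨x2, a1, a2, a3⟩ : ∃ x2, x2 + (y' - x') ≤ (M.rr i x y m u h).n j ∧
      (∀ k, x' + k ≤ y' → (M.rr i x y m u h).w j (x2 + k) = M.w j (x' + k)) ∧
      ∀ k, x' + k < y' → (M.rr i x y m u h).g j (x2 + k) = M.g j (x' + k) := by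
    by_cases hj : j = i
    · subst hj
      rw [rr_n]
      rcases ho with h5 | h5 | h5
      · exact absurd rfl h5
      · exact ⟨x', by omega, fun k hk => (hE.lo (by omega)).1,
          fun k hk => by rw [MB2_g, Pth_re1 (by omega)]⟩
      · have e : ∀ k, x + m + (x' - y) + k = x + m + (x' + k - y) := fun k => by omega
        exact ⟨x + m + (x' - y), by omega, fun k _ => e k ▸ (MB2_hi hE (by omega)).1,
          fun k _ => e k ▸ (MB2_hi hE (by omega)).2⟩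
    · obtain ⟨e1, e2, e3, -⟩ :=
        MB2_ne (F := F) (M := M) (x := x) (y := y) (m := m) (u := u) (h := h) hj
      exact ⟨x', by omega, fun k _ => by rw [e2], fun k _ => by rw [e3]⟩
  refine ⟨x2, x2 + (y' - x'), ⟨by omega, a1, hE'.pth, hE'.fst.trans (a2 0 h1.le).symm, ?_,
    fun v hv => ?_⟩, by omega, ?_, a2, a3⟩
  · rw [a2 _ (by omega), Nat.add_sub_cancel' h1.le, hE'.lst]
  · rw [hE.rest hw hM]
    exact mem_union_left _ (mem_sdiff.2 ⟨hE'.sub hv, disjoint_right.1 hd hv⟩)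
  · ext v
    rw [mem_gap, mem_gap]
    constructor
    · rintro ⟨k, b1, b2, b3⟩
      obtain ⟨k, rfl⟩ := Nat.exists_eq_add_of_le b1.le
      exact ⟨x' + k, by omega, by omega, a2 k (by omega) ▸ b3⟩
    · rintro ⟨k, b1, b2, b3⟩
      obtain ⟨k, rfl⟩ := Nat.exists_eq_add_of_le b1.le
      exact ⟨x2 + k, by omega, by omega, (a2 k b2.le).symm ▸ b3⟩

end Kf

end Pool.Agent.Work.MP_8c679b_co
end

-- merged part: Pool.Agent.Work.MP_8c679b_co.Key.MB6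
section
/-!
The rest and the signs after rerouting; swapping a bead.

Hints.  `F.xs` at a position depends only on the node, the two edges and the sign.  Use `Ear.ps`,
`Ear.ps_inv`, `Ear.rest`, `mem_W0`, `Ear.tz`, `Ear.sl`.  For a bead all positions from `α` to `β`
and all nodes of the ear are single vertices.
-/

set_option autoImplicit false

namespace Pool.Agent.Work.MP_8c679b_co

open Finset

variable {V E : Type} [Fintype V] [DecidableEq V] [DecidableEq E] {G : SG V E}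
  {T U Z X B N N' : Finset V} {F : Kf V E} {M M' : Mb V E} {i j : Bool} {k l x y m : ℕ}
  {σ σ' π : Finset V → ZMod 2} {u : ℕ → Finset V} {h : ℕ → E} {a b c d e f : E} {v : V}
  {Zs : Finset (Finset V)} {g s : ZMod 2}
  {α β : ℕ} {N1 N3 : Finset V}

namespace Kf

theorem MB6_ts : F.ts G (M.rr i x y m u h) σ (!i) = F.ts G M σ (!i) := by
  simp only [ts, tz, sl, (rr_other (F := F)).1, (rr_other (F := F)).2.1, (rr_other (F := F)).2.2.1]

omit [Fintype V] [DecidableEq E] in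
theorem MB6_xs (h1 : M'.w j l = M.w j k) (h2 : F.e M' j l = F.e M j k)
    (h3 : F.e M' j (l + 1) = F.e M j (k + 1)) : F.xs M' σ j l = F.xs M σ j k := by
  rw [xs, xs, h1, h2, h3]

omit [Fintype V] [DecidableEq E] in
theorem MB6_real (hn : M.w i k ∉ F.Bs) : F.xs M σ i k = M.w i k := if_neg hn

theorem MB6_lv (hF : F.Ok G T) (hM : F.IsM G M) : v ∈ F.W0 M σ \ F.rest M ↔
    ∃ j, ∃ k ≤ M.n j, v ∈ M.w j k \ F.xs M σ j k := by
  rw [mem_sdiff, mem_W0 hF hM]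
  exact ⟨fun k => k.1.resolve_left k.2, fun ⟨j, k, h1, h2⟩ =>
    ⟨Or.inr ⟨j, k, h1, h2⟩, disjoint_left.1 (rest_disj h1) (mem_sdiff.1 h2).1⟩⟩

/-- the vertices left over after a rerouting -/
theorem MB6_left (hF : F.Ok G T) (hM : F.IsM G M) (hE : F.Ear G M i x y m u h)
    (hr : ∀ k, 0 < k → k < m → u k ∉ F.Bs) (hx : ¬ F.Lf (M.rr i x y m u h) σ i x)
    (hy : ¬ F.Lf (M.rr i x y m u h) σ i (x + m)) :
    v ∈ F.W0 (M.rr i x y m u h) σ \ F.rest (M.rr i x y m u h) ↔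
      ∃ j, ∃ k ≤ M.n j, (j ≠ i ∨ k < x ∨ y < k) ∧ v ∈ M.w j k \ F.xs M σ j k := by
  rw [MB6_lv hF (hE.isM hF.wf hM)]
  constructor
  · rintro ⟨j, l, h1, h2⟩
    rcases hE.ps_inv hM h1 with ⟨k, k1, k2, k3, k4, k5⟩ | ⟨rfl, k, k1, rfl⟩
    · exact ⟨j, k, k1, k2, by rwa [MB6_xs k3 k4 k5, k3] at h2⟩
    · have h3 : F.Lf (M.rr j x y m u h) σ j (x + k) :=
        ⟨h1, fun e => by rw [e, sdiff_self] at h2; exact notMem_empty _ h2⟩
      rcases k.eq_zero_or_pos with rfl | k0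
      · exact absurd h3 hx
      rcases k1.eq_or_lt with rfl | k2
      · exact absurd h3 hy
      · exact absurd (MB6_real (hE.mid.1 k k1 ▸ hr k k0 k2)) h3.2
  · rintro ⟨j, k, k1, k2, k3⟩
    obtain ⟨l, l1, l2, l3, l4⟩ := hE.ps hM k1 k2
    exact ⟨j, l, l1, by rwa [MB6_xs l2 l3 l4, l2]⟩

theorem MB6_tz (hM : F.IsM G M) (hE : F.Ear G M i x y m u h)
    (h1 : ∀ k, x < k → k < y → M.w i k ∉ F.Bs) (h2 : ∀ k ≤ m, u k ∉ F.Bs)
    (h3 : G.par (pe m h) = ∑ k ∈ Ico x y, G.n (M.g i k) + 1) :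
    F.tz G (M.rr i x y m u h) σ i Zs = F.tz G M σ i Zs + 1 := by
  rw [(hE.tz hM).1, h3,
    sum_eq_zero (s := Ioo x y) fun k hk => if_neg fun e =>
      h1 k (mem_Ioo.1 hk).1 (mem_Ioo.1 hk).2 e.1,
    sum_eq_zero (s := Ioo 0 m) fun k hk => if_neg fun e => h2 k (mem_Ioo.1 hk).2.le e.1]
  linear_combination z2_add_self (∑ k ∈ Ico x y, G.n (M.g i k))

theorem rr_oc (ho : F.Oc G M σ i) : F.Oc G (M.rr i x y m u h) σ i := by
  exact fun k => MB6_ts.trans (ho k)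

theorem rr_xt : F.xt (M.rr i x y m u h) σ (!i) = F.xt M σ (!i) ∧
    F.lo (M.rr i x y m u h) σ i = F.lo M σ i ∧
    F.ts G (M.rr i x y m u h) σ (!i) = F.ts G M σ (!i) := by
  have h1 : F.xt (M.rr i x y m u h) σ (!i) = F.xt M σ (!i) := by
    rw [xt, xt, (rr_other (F := F)).1]
    exact congrArg _ (funext fun k => MB6_xs (congrFun (rr_other (F := F)).2.1 k)
      (congrFun rr_other.2.2.2 k) (congrFun rr_other.2.2.2 _))
  refine ⟨h1, ?_, MB6_ts⟩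
  rw [lo, lo, h1, Mb.vt, Mb.vt, (rr_other (F := F)).1, (rr_other (F := F)).2.1]

theorem Ear.W0 (hF : F.Ok G T) (hM : F.IsM G M) (hE : F.Ear G M i x y m u h)
    (hr : ∀ k, 0 < k → k < m → u k ∉ F.Bs) (hx : ¬ F.Lf (M.rr i x y m u h) σ i x)
    (hy : ¬ F.Lf (M.rr i x y m u h) σ i (x + m)) :
    F.W0 (M.rr i x y m u h) σ =
        (F.W0 M σ \ (inn m u ∪ M.w i x ∪ M.w i y)) ∪ M.gap i x y ∧
      F.lc (M.rr i x y m u h) σ ≤ F.lc M σ ∧
      ((F.Lf M σ i x ∨ F.Lf M σ i y) → F.lc (M.rr i x y m u h) σ < F.lc M σ) := by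
  have hL := fun v => MB6_left (σ := σ) (v := v) hF hM hE hr hx hy
  have xn : x ≤ M.n i := hE.lt.le.trans hE.le
  have hlt := hE.lt
  have dj : ∀ {j k v}, k ≤ M.n j → (j ≠ i ∨ k < x ∨ y < k) → v ∈ M.w j k →
      v ∉ M.w i x ∧ v ∉ M.w i y := fun k1 k2 k3 =>
    ⟨disjoint_left.1 (hM.disj hF.wf k1 xn (by rintro ⟨rfl, rfl⟩; simp at k2; omega)) k3,
      disjoint_left.1 (hM.disj hF.wf k1 hE.le (by rintro ⟨rfl, rfl⟩; simp at k2; omega)) k3⟩
  have sub : F.W0 (M.rr i x y m u h) σ \ F.rest (M.rr i x y m u h) ⊆ F.W0 M σ \ F.rest M :=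
    fun v hv => by
      obtain ⟨j, k, k1, -, k3⟩ := (hL v).1 hv
      exact (MB6_lv hF hM).2 ⟨j, k, k1, k3⟩
  refine ⟨?_, card_le_card sub, fun hl => card_lt_card ((ssubset_iff_of_subset sub).2 ?_)⟩
  · ext v
    rw [← sdiff_union_of_subset (W0_sub (σ := σ) hF (hE.isM hF.wf hM)).1, mem_union, hL,
      hE.rest hF.wf hM]
    simp only [mem_union, mem_sdiff (s := F.W0 M σ), mem_sdiff (s := F.rest M), not_or,
      mem_W0 hF hM]
    constructor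
    · rintro (⟨j, k, k1, k2, k3⟩ | ⟨k1, k2⟩ | k1)
      · have k4 := (mem_sdiff.1 k3).1
        exact Or.inl ⟨Or.inr ⟨j, k, k1, k3⟩,
          ⟨fun e => disjoint_left.1 (rest_disj k1) k4 (hE.sub e), (dj k1 k2 k4).1⟩, (dj k1 k2 k4).2⟩
      · exact Or.inl ⟨Or.inl k1, ⟨k2, disjoint_right.1 (rest_disj xn) k1⟩,
          disjoint_right.1 (rest_disj hE.le) k1⟩
      · exact Or.inr k1
    · rintro (⟨k1 | ⟨j, k, k1, k5⟩, ⟨k2, k3⟩, k4⟩ | k1)
      · exact Or.inr (Or.inl ⟨k1, k2⟩)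
      · by_cases e : j ≠ i ∨ k < x ∨ y < k
        · exact Or.inl ⟨j, k, k1, e, k5⟩
        have k6 := (mem_sdiff.1 k5).1
        simp only [not_or, not_not, not_lt] at e
        obtain ⟨rfl, e1, e2⟩ := e
        exact Or.inr (Or.inr (mem_gap.2 ⟨k, e1.lt_of_ne fun e => k3 (e ▸ k6),
          e2.lt_of_ne fun e => k4 (e ▸ k6), k6⟩))
      · exact Or.inr (Or.inr k1)
  · have ex : ∀ k, F.Lf M σ i k → ∃ v, v ∈ M.w i k \ F.xs M σ i k := fun k e =>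
      sdiff_nonempty.2 fun e' => e.2 (Subset.antisymm (xs_sub hF hM e.1).1 e')
    rcases hl with hl | hl <;> obtain ⟨v, hv⟩ := ex _ hl <;>
      refine ⟨v, (MB6_lv hF hM).2 ⟨i, _, hl.1, hv⟩, fun e => ?_⟩ <;>
      obtain ⟨j, k, k1, k2, k3⟩ := (hL v).1 e
    exacts [(dj k1 k2 (mem_sdiff.1 k3).1).1 (mem_sdiff.1 hv).1,
      (dj k1 k2 (mem_sdiff.1 k3).1).2 (mem_sdiff.1 hv).1]

theorem Bd.swap (hF : F.Ok G T) (hM : F.IsM G M) (hb : F.Bd G M i x y Z α β m u h) :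
    F.W0 (M.rr i α β m u h) σ = (F.W0 M σ \ inn m u) ∪ M.gap i α β ∧
      F.lc (M.rr i α β m u h) σ = F.lc M σ ∧
      F.tz G (M.rr i α β m u h) σ i Zs = F.tz G M σ i Zs + 1 ∧
      F.tz G (M.rr i α β m u h) σ (!i) Zs = F.tz G M σ (!i) Zs ∧
      F.gs G (M.rr i α β m u h) i = F.gs G M i + 1 := by
  have hE := hb.ear
  have hr : ∀ k, 0 < k → k < m → u k ∉ F.Bs := fun k _ e => hb.r2 k e.le
  have hx : ¬ F.Lf (M.rr i α β m u h) σ i α := fun e =>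
    e.2 (MB6_real ((hE.lo le_rfl).1 ▸ hb.r1 α le_rfl hE.lt.le))
  have hy : ¬ F.Lf (M.rr i α β m u h) σ i (α + m) := fun e =>
    e.2 (MB6_real (hE.mid.1 m le_rfl ▸ hb.r2 m le_rfl))
  have no : ∀ k, α ≤ k → k ≤ β → ∀ v, v ∉ M.w i k \ F.xs M σ i k := fun k k1 k2 v e => by
    rw [MB6_real (hb.r1 k k1 k2), sdiff_self] at e
    exact notMem_empty _ e
  have no' : ∀ k, α ≤ k → k ≤ β → ∀ v ∈ F.W0 M σ, v ∉ M.w i k := fun k k1 k2 v e e' =>
    no k k1 k2 v (W0_inter hF hM (k2.trans hE.le) ▸ mem_inter.2 ⟨e, e'⟩)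
  refine ⟨?_, congrArg card (Finset.ext fun v => ?_),
    MB6_tz hM hE (fun k k1 k2 => hb.r1 k k1.le k2.le) hb.r2 hb.sgn, (hE.tz hM).2, ?_⟩
  · rw [(hE.W0 hF hM hr hx hy).1]
    congr 1
    ext v
    simp only [mem_sdiff, mem_union, not_or]
    exact and_congr_right fun e => ⟨fun k => k.1.1,
      fun k => ⟨⟨k, no' α le_rfl hE.lt.le v e⟩, no' β hE.lt.le le_rfl v e⟩⟩
  · rw [MB6_left hF hM hE hr hx hy, MB6_lv hF hM]
    refine ⟨fun ⟨j, k, k1, _, k3⟩ => ⟨j, k, k1, k3⟩, fun ⟨j, k, k1, k3⟩ => ⟨j, k, k1, ?_, k3⟩⟩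
    by_contra e
    simp only [not_or, not_not, not_lt] at e
    obtain ⟨rfl, e1, e2⟩ := e
    exact no k e1 e2 v k3
  · obtain ⟨h1, h2⟩ := hE.sl hM
    rw [hb.sgn] at h1
    have h3 := z2_add_self (∑ k ∈ Ico α β, G.n (M.g i k))
    unfold gs
    split_ifs
    · cases i <;> simp only [Bool.not_false, Bool.not_true] at h2 <;>
        linear_combination h1 + h2 + h3
    · linear_combination h1 + h3

theorem Bd.ps (hM : F.IsM G M) (hb : F.Bd G M i x y Z α β m u h) (hk : k ≤ M.n j)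
    (ho : j ≠ i ∨ k ≤ x ∨ y ≤ k ∨ M.w j k ∈ F.Bs) :
    F.Ps (M.rr i α β m u h) j (M.w j k) (F.e M j k) (F.e M j (k + 1)) := by
  refine hb.ear.ps hM hk ?_
  by_contra e
  simp only [not_or, not_not, not_lt] at e
  obtain ⟨rfl, e1, e2⟩ := e
  have h1 := hb.lo
  have h2 := hb.hi
  rcases ho with k1 | k1 | k1 | k1
  exacts [k1 rfl, by omega, by omega, hb.r1 k e1 e2 k1]

theorem Bd.nd (hM : F.IsM G M) (hb : F.Bd G M i x y Z α β m u h)
    (hl : F.Nd (M.rr i α β m u h) j l) :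
    ∃ k, F.Nd M j k ∧ (M.rr i α β m u h).w j l = M.w j k ∧
      F.e (M.rr i α β m u h) j l = F.e M j k ∧ F.e (M.rr i α β m u h) j (l + 1) = F.e M j (k + 1) := by
  rcases hb.ear.ps_inv hM hl.1 with ⟨k, k1, -, k3, k4⟩ | ⟨rfl, k, k1, rfl⟩
  · exact ⟨k, ⟨k1, k3 ▸ hl.2⟩, k3, k4⟩
  · exact absurd (hb.ear.mid.1 k k1 ▸ hl.2) (hb.r2 k k1)

theorem Bd.qs (hM : F.IsM G M) (hb : F.Bd G M i x y Z α β m u h) (hq : F.QS G M σ π j Zs) :
    F.QS G (M.rr i α β m u h) σ π j Zs := by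
  intro l hl
  obtain ⟨k, k1, k2, k3, k4⟩ := hb.nd hM hl
  rw [MB6_xs k2 k3 k4, k2, k3, k4]
  exact hq k k1

theorem Bd.jt {x1 x2 x3 : ℕ} (hM : F.IsM G M) (hb : F.Bd G M i x y Z α β m u h)
    (hj : F.Jt G M i (M.w i x1) (M.w i x2) (M.w i x3) a b s) (h1 : x1 ≤ x) (h3 : y ≤ x3)
    (h4 : x3 ≤ M.n i) (h5 : x2 ≤ M.n i) (h2 : x2 ≤ x ∨ y ≤ x2) :
    F.Jt G (M.rr i α β m u h) i (M.w i x1) (M.w i x2) (M.w i x3) a b s := by
  have hE := hb.ear
  have a1 := hb.lo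
  have a2 := hb.hi
  have a3 := hE.lt
  obtain ⟨y1, y2, y3, b1, b2, b3, c1, c2, c3, d1, d2, d3, d4⟩ := hj
  obtain rfl := (hM.inj (by omega) (by omega) c1).2
  obtain rfl := (hM.inj (by omega) h5 c2).2
  obtain rfl := (hM.inj b3 h4 c3).2
  have eg : (M.rr i α β m u h).g i = rrE α β m (M.g i) h := Function.update_self _ _ _
  obtain ⟨z, z1, z2, z3, z4, z5⟩ : ∃ z, x1 < z ∧ z < α + m + (x3 - β) ∧
      (M.rr i α β m u h).w i z = M.w i x2 ∧ F.e (M.rr i α β m u h) i z = F.e M i x2 ∧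
      F.e (M.rr i α β m u h) i (z + 1) = F.e M i (x2 + 1) := by
    rcases h2 with h2 | h2
    · exact ⟨x2, b1, by omega, (hE.lo (by omega)).1, (hE.lo (by omega)).2, (hE.lo (by omega)).2⟩
    · refine ⟨α + m + (x2 - β), by omega, by omega, (hE.hi hM (by omega) h5).1, ?_,
        (hE.hi hM (by omega) h5).2⟩
      have k := (hE.hi hM (k := x2 - 1) (by omega) (by omega)).2
      rwa [show α + m + (x2 - 1 - β) + 1 = α + m + (x2 - β) by omega,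
        show x2 - 1 + 1 = x2 by omega] at k
  refine ⟨x1, z, α + m + (x3 - β), z1, z2, by rw [rr_n]; omega, (hE.lo (by omega)).1, z3,
    (hE.hi hM (by omega) h4).1, z4.trans d1, z5.trans d2, fun k k1 k2 => ?_, ?_⟩
  · rw [rr_n] at k1
    rcases k2 with k2 | k2
    · rw [(hE.lo (by omega)).1]
      exact d3 k (by omega) (Or.inl k2)
    · have k3 := (hE.hi hM (k := k - (α + m) + β) (by omega) (by omega)).1
      rw [show α + m + (k - (α + m) + β - β) = k by omega] at k3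
      rw [k3]
      exact d3 _ (by omega) (Or.inr (by omega))
  · rw [← d4, rr_n, eg, sum_Ico_eq_sum_range, sum_Ico_eq_sum_range,
      show α + m + (M.n i - β) - (α + m + (x3 - β)) = M.n i - x3 by omega]
    congr 1 <;> refine sum_congr rfl fun k hk => ?_
    · rw [Pth_re1 (by have := mem_range.1 hk; omega)]
    · rw [Pth_re3 (by omega), show α + m + (x3 - β) + k - (α + m) + β = x3 + k by omega]

/-- a bead survives a rerouting elsewhere -/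
theorem Bd.keep {x' y' m' : ℕ} {u' : ℕ → Finset V} {h' : ℕ → E} (hF : F.Ok G T) (hM : F.IsM G M)
    (hb : F.Bd G M j x y Z α β m u h) (hE : F.Ear G M i x' y' m' u' h')
    (ho : j ≠ i ∨ y ≤ x' ∨ y' ≤ x) (hd : Disjoint (inn m' u') (inn m u)) :
    ∃ α2 β2, F.Ear G (M.rr i x' y' m' u' h') j α2 β2 m u h ∧
      (M.rr i x' y' m' u' h').gap j α2 β2 = M.gap j α β ∧
      F.ts G ((M.rr i x' y' m' u' h').rr j α2 β2 m u h) σ j =
        F.ts G (M.rr i x' y' m' u' h') σ j + 1 := by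
  have a1 := hb.lo
  have a2 := hb.hi
  obtain ⟨α2, β2, h1, h2, h3, h4, h5⟩ := hE.keep hF.wf hM hb.ear
    (ho.imp_right (Or.imp (by omega) (by omega))) hd
  refine ⟨α2, β2, h1, h3, MB6_tz (hE.isM hF.wf hM) h1 (fun k k1 k2 => ?_) hb.r2 ?_⟩
  · have k3 := h4 (k - α2) (by omega)
    rw [show α2 + (k - α2) = k by omega] at k3
    rw [k3]
    exact hb.r1 _ (by omega) (by omega)
  · rw [hb.sgn, sum_Ico_eq_sum_range, sum_Ico_eq_sum_range, show β2 - α2 = β - α by omega]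
    congr 1
    exact sum_congr rfl fun k hk => by rw [h5 k (by have := mem_range.1 hk; omega)]

end Kf

end Pool.Agent.Work.MP_8c679b_co
end
end

-- merged part: Pool.Agent.Work.MP_8c679b_co.Key.C5
section
-- merged part: Pool.Agent.Work.MP_8c679b_co.Key.C2
section
/-!
Two nodes with good passes on one ring.

Hints.  `ggi`: `uc_two` with `XQ = ∅`, `π = σ` (`qs_real`), both nodes passed on their sets `F.xf`
(`= F.xs` for both signs); the rest is `F.W0 M σ`, `par0`.  If `F.f = true` choose `t` to win.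
Else compare with `Cls` (`tz_ins`, `tz_off`).
`gg3`: apply `ggi` to `σ` and to `fl (fl σ N) N3` (`cls_fl2`).
`ggs`: `cls_or` gives closing signs for `M'`; `ggi` for both members; `Cls` and `tz_sl`, `tz_ins`
express `F.gs` by `σ N + σ N'`.
`two_left`: if the first node is not `Aj`, changing both signs (`cls_fl2`) lowers `lc` (`fl_lf`,
`fl_le`).
`gn_of`: `Pk.both`; a local win for the sign `s` is used after changing both signs if necessary
(`lw1_win`, `lw2_win`, `cls_fl2`).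
`gn_nc`: `Rg.eq_of_nc`, `rpn_fpn`.
-/

set_option autoImplicit false

namespace Pool.Agent.Work.MP_8c679b_co

open Finset

variable {V E : Type} [Fintype V] [DecidableEq V] [DecidableEq E] {G : SG V E}
  {T U Z X B N N' : Finset V} {F : Kf V E} {M M' : Mb V E} {i j : Bool} {k l x y m : ℕ}
  {σ σ' π : Finset V → ZMod 2} {u : ℕ → Finset V} {h : ℕ → E} {a b c d e f : E} {v : V}
  {Zs : Finset (Finset V)} {g s : ZMod 2}
  {D : Finset E} {π' : ZMod 2}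
  {a' b' : E} {π1 π2 : ZMod 2}

namespace Kf

theorem C2_ins (hM : F.IsM G M) (hk : F.Nd M i k) (hZ : M.w i k ∉ Zs) :
    F.tz G M σ false Zs + F.tz G M σ true Zs = F.tz G M σ false (insert (M.w i k) Zs) +
      F.tz G M σ true (insert (M.w i k) Zs) + σ (M.w i k) := by
  have e1 := tz_ins (σ := σ) hM hk hZ
  have e2 : F.tz G M σ (!i) Zs = F.tz G M σ (!i) (insert (M.w i k) Zs) := tz_off fun l hl => by
    rw [mem_insert, or_iff_right fun r => Bool.not_ne_self i (hM.inj hk.1 hl.1 r.symm).1]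
  cases i
  · rw [e1, show F.tz G M σ true Zs = _ from e2]
    exact add_right_comm _ _ _
  · rw [e1, show F.tz G M σ false Zs = _ from e2]
    exact (add_assoc _ _ _).symm

theorem C2_ts (hM : F.IsM G M) (hk : F.Nd M i k) (hl : F.Nd M j l) (hne : M.w i k ≠ M.w j l) :
    F.ts G M σ false + F.ts G M σ true = F.tz G M σ false {M.w i k, M.w j l} +
      F.tz G M σ true {M.w i k, M.w j l} + (σ (M.w i k) + σ (M.w j l)) := by
  rw [ts, ts, C2_ins hM hl (notMem_empty _), insert_empty_eq,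
    C2_ins hM hk (notMem_singleton.2 hne), add_assoc]

omit [Fintype V] in
theorem C2_fl (hne : N' ≠ N) : fl (fl σ N) N' N = σ N + 1 := by
  rw [fl, Function.update_of_ne hne.symm, fl, Function.update_self]

theorem C2_win {t : ZMod 2} (h : F.Ok G T) (hH : ¬ F.WinN G g) (hM : F.IsM G M)
    (hc : F.Cls G M σ) (hs : F.Sg i j) (p1 : F.Ps M i N a b) (p2 : F.Ps M j N' a' b')
    (hne : N ≠ N') (g1 : F.GN G N a b π1) (g2 : F.GN G N' a' b' π2)
    (ht : F.f = true ∨ t = F.lam true) :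
    F.lam false + t = F.tz G M σ false {N, N'} + F.tz G M σ true {N, N'} + (π1 + π2) + F.nat := by
  obtain ⟨k, hk, rfl, rfl, rfl⟩ := id p1
  obtain ⟨l, hl, rfl, rfl, rfl⟩ := id p2
  obtain ⟨b1, j1, c, d, O1, q1, rfl, h1⟩ := g1
  obtain ⟨b2, j2, c', d', O2, q2, rfl, h2⟩ := g2
  have x1 : F.xf (M.w i k) (F.e M i k) (F.e M i (k + 1)) 0 = F.xs M σ i k :=
    (MB4_aj ⟨⟨hk, b1⟩, j1⟩ _ _).trans (MB4_box b1).symm
  have x2 : F.xf (M.w j l) (F.e M j l) (F.e M j (l + 1)) 0 = F.xs M σ j l :=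
    (MB4_aj ⟨⟨hl, b2⟩, j2⟩ _ _).trans (MB4_box b2).symm
  rw [x1] at h1
  rw [x2] at h2
  rw [x1, x2]
  have s1 := (xs_sub (σ := σ) h hM hk).1
  have s2 := (xs_sub (σ := σ) h hM hl).1
  have dj : Disjoint (M.w i k) (M.w j l) := hM.disj h.wf hk hl fun r => hne (by rw [r.1, r.2])
  have i1 : M.w i k ∩ (F.xs M σ i k ∪ F.xs M σ j l ∪ ∅) = F.xs M σ i k := by
    rw [union_empty, inter_union_distrib_left, inter_eq_right.2 s1,
      disjoint_iff_inter_eq_empty.1 (dj.mono_right s2), union_empty]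
  have i2 : M.w j l ∩ (F.xs M σ i k ∪ F.xs M σ j l ∪ ∅) = F.xs M σ j l := by
    rw [union_empty, inter_union_distrib_left, inter_eq_right.2 s2,
      disjoint_iff_inter_eq_empty.1 (dj.symm.mono_right s1), empty_union]
  have eW : (F.W0 M σ ∪ M.w i k ∪ M.w j l) \ (F.xs M σ i k ∪ F.xs M σ j l ∪ ∅) = F.W0 M σ := by
    ext x
    simp only [mem_sdiff, mem_union, notMem_empty, or_false, not_or]
    constructor
    · rintro ⟨(r | r) | r, r1, r2⟩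
      exacts [r, (mem_W0 h hM).2 (Or.inr ⟨i, k, hk, mem_sdiff.2 ⟨r, r1⟩⟩),
        (mem_W0 h hM).2 (Or.inr ⟨j, l, hl, mem_sdiff.2 ⟨r, r2⟩⟩)]
    · exact fun r => ⟨Or.inl (Or.inl r), (MB4_W0.1 r).2 i k hk, (MB4_W0.1 r).2 j l hl⟩
  by_contra hn
  refine hH (uc_two (π := σ) h hM (hc.oc i) hs p1 p2 hne
    (fun j' => (qs_real h hH hM hc j').mono (empty_subset _)) h1 h2 SG.abs0_empty
    (s1.trans subset_union_left) (s2.trans subset_union_left) (empty_subset _) (dj.mono s1 s2)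
    (disjoint_empty_right _) (disjoint_empty_right _) (fun e r => absurd r (notMem_empty e))
    (fun e r => absurd r (notMem_empty e)) ?_ ht (Or.inr ?_))
  · rintro B - (rfl | rfl | hB)
    · exact Or.inr (Or.inl ⟨_, _, c, d, q1, i1.symm ▸ xs_rg h ⟨hk, b1⟩ q1, fun t r =>
        ⟨t, Or.inl (Or.inl (i1 ▸ SG.kpv_sub r)), Subset.rfl⟩⟩)
    · exact Or.inr (Or.inl ⟨_, _, c', d', q2, i2.symm ▸ xs_rg h ⟨hl, b2⟩ q2, fun t r =>
        ⟨t, Or.inl (Or.inr (i2 ▸ SG.kpv_sub r)), Subset.rfl⟩⟩)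
    · refine Or.inl ?_
      rw [union_empty, disjoint_union_right]
      exact ⟨((rest_disj hk).mono s1 hB).symm, ((rest_disj hl).mono s2 hB).symm⟩
  · rw [eW, (par0 h hH hM hc).2, show G.par ∅ = 0 from rfl, add_zero]
    have k1 := (z2_ne _).1 (sub_ne_zero.2 hn)
    linear_combination k1

theorem ggi (h : F.Ok G T) (hH : ¬ F.WinN G g) (hM : F.IsM G M) (hc : F.Cls G M σ)
    (hs : F.Sg i j) (p1 : F.Ps M i N a b) (p2 : F.Ps M j N' a' b') (hne : N ≠ N')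
    (g1 : F.GN G N a b π1) (g2 : F.GN G N' a' b' π2) : F.f = false ∧ σ N + σ N' = π1 + π2 := by
  obtain ⟨t, t1, t2, -⟩ := ST2_t h hc false
  have k1 := C2_win h hH hM hc hs p1 p2 hne g1 g2 t1
  refine ⟨by_contra fun hf => ?_, ?_⟩
  · have k2 := C2_win (t := t + 1) h hH hM hc hs p1 p2 hne g1 g2 (Or.inl (by simpa using hf))
    exact one_ne_zero (α := ZMod 2) (by linear_combination k2 - k1)
  · obtain ⟨k, hk, rfl, -, -⟩ := p1
    obtain ⟨l, hl, rfl, -, -⟩ := p2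
    have k2 := C2_ts (σ := σ) hM ⟨hk, g1.1⟩ ⟨hl, g2.1⟩ hne
    rw [Bool.not_false] at t2
    linear_combination t2 - k2 + k1 + z2_add_self F.nat

/-- there is no third node on the ring -/
theorem gg3 (h : F.Ok G T) (hH : ¬ F.WinN G g) (hM : F.IsM G M) (hc : F.Cls G M σ)
    (hs : F.Sg i j) (p1 : F.Ps M i N a b) (p2 : F.Ps M j N' a' b') (hne : N ≠ N')
    (g1 : F.GN G N a b π1) (g2 : F.GN G N' a' b' π2) {j' : Bool} (hs' : F.Sg i j')
    (hl : F.Nd M j' l) : M.w j' l = N ∨ M.w j' l = N' := by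
  by_contra hn
  rw [not_or] at hn
  obtain ⟨k, hk, rfl, e1, e2⟩ := id p1
  have k1 := (ggi h hH hM hc hs p1 p2 hne g1 g2).2
  have k2 := (ggi h hH hM (cls_fl2 hM hc ⟨hk, g1.1⟩ hl hs' fun r => hn.1 (by rw [r.1, r.2])) hs
    p1 p2 hne g1 g2).2
  rw [C2_fl hn.1, fl, Function.update_of_ne (Ne.symm hn.2), fl,
    Function.update_of_ne hne.symm] at k2
  exact one_ne_zero (α := ZMod 2) (by linear_combination k2 - k1)

theorem C2_gs (h : F.Ok G T) (hH : ¬ F.WinN G g) (hM : F.IsM G M) (ho : F.Oc G M σ i)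
    (hs : F.Sg i j) (p1 : F.Ps M i N a b) (p2 : F.Ps M j N' a' b') (hne : N ≠ N')
    (g1 : F.GN G N a b π1) (g2 : F.GN G N' a' b' π2) :
    F.gs G M i + (π1 + π2) = if F.ty then 1 + F.lam false + F.lam true else F.lam i + 1 := by
  obtain ⟨k, hk, rfl, e1, e2⟩ := id p1
  obtain ⟨l, hl, rfl, e3, e4⟩ := id p2
  obtain ⟨τ, hc⟩ : F.Cb G M := (cls_or hM ho ⟨hl, g2.1⟩ hs).elim (fun r => ⟨_, r⟩) fun r => ⟨_, r⟩
  obtain ⟨k1, k2⟩ := ggi h hH hM hc hs p1 p2 hne g1 g2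
  have k3 : ∀ r, F.Sg i r → F.tz G M τ r {M.w i k, M.w j l} = Kf.sl G M r := fun r hr =>
    tz_sl fun x hx => by
      rw [mem_insert, mem_singleton]
      exact gg3 h hH hM hc hs p1 p2 hne g1 g2 hr hx
  rw [← k2, gs]
  unfold Cls at hc
  by_cases hty : F.ty = true
  · rw [if_pos hty] at hc ⊢
    rw [if_pos hty, ← k3 false (Or.inl hty), ← k3 true (Or.inl hty),
      ← C2_ts hM ⟨hk, g1.1⟩ ⟨hl, g2.1⟩ hne]
    exact hc.resolve_left (by simp [k1])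
  · rw [if_neg hty] at hc ⊢
    obtain rfl : i = j := hs.resolve_left hty
    rw [if_neg hty, ← k3 i (Or.inr rfl), ← hc i, ts, tz_ins hM ⟨hl, g2.1⟩ (notMem_empty _),
      insert_empty_eq, tz_ins hM ⟨hk, g1.1⟩ (notMem_singleton.2 hne), add_assoc]

/-- the sign of the links of the ring is determined -/
theorem ggs (h : F.Ok G T) (hH : ¬ F.WinN G g) (hM : F.IsM G M) (hM' : F.IsM G M')
    (ho : F.Oc G M σ i) (ho' : F.Oc G M' σ' i) (hs : F.Sg i j) (p1 : F.Ps M i N a b)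
    (p2 : F.Ps M j N' a' b') (q1 : F.Ps M' i N a b) (q2 : F.Ps M' j N' a' b') (hne : N ≠ N')
    (g1 : F.GN G N a b π1) (g2 : F.GN G N' a' b' π2) : F.gs G M' i = F.gs G M i := by
  exact add_right_cancel ((C2_gs h hH hM' ho' hs q1 q2 hne g1 g2).trans
    (C2_gs h hH hM ho hs p1 p2 hne g1 g2).symm)

theorem two_left (h : F.Ok G T) (hM : F.IsM G M) (hm : F.Mn G M σ) : F.Tl M σ := by
  intro i k j l hs h1 h2 hne
  by_contra ha
  have k1 := hm.2 _ (cls_fl2 hM hm.1 (MB4_lf_nd h1) (MB4_lf_nd h2) hs hne)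
  have k2 := (fl_lf h hM h1 ha).2.2
  have k3 := (fl_le (σ := fl σ (M.w i k)) h hM
    (Or.inl ⟨h2.1, (fl_xs hM h1.1 h2.1 hne).symm ▸ h2.2⟩)).2
  omega

theorem gn_of (h : F.Ok G T) (hH : ¬ F.WinN G g) (hM : F.IsM G M) (hc : F.Cls G M σ)
    (h1 : F.Lf M σ i k) (ha : F.Aj M i k) (hs : F.Sg i j) (hl : F.Nd M j l)
    (hne : ¬ (j = i ∧ l = k)) (hq : G.Q4 (M.w i k) (F.e M i k) (F.e M i (k + 1)) c d) :
    (∃ π1, F.GN G (M.w i k) (F.e M i k) (F.e M i (k + 1)) π1) ∨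
      G.Tp (M.w i k) (M.w i k) (F.e M i k) (F.e M i (k + 1)) c d (σ (M.w i k)) (σ (M.w i k)) := by
  rcases (h.pk _ ha.1.2 _ _ c d hq).both ha.2
    (fun r => h1.2 ((MB4_box ha.1.2).trans ((MB4_aj ha _ 0).trans r))) with
    ⟨O, hO⟩ | hp | ⟨s, hw⟩
  · exact Or.inl ⟨_, ha.1.2, ha.2, c, d, O, hq, rfl, hO⟩
  · exact Or.inr (hp _)
  · obtain ⟨τ, hτ, rfl⟩ : ∃ τ, F.Cls G M τ ∧ τ (M.w i k) = s := by
      by_cases e : σ (M.w i k) = s
      · exact ⟨σ, hc, e⟩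
      · refine ⟨_, cls_fl2 hM hc ha.1 hl hs hne, ?_⟩
        rw [C2_fl fun r => hne (hM.inj ha.1.1 hl.1 r.symm)]
        have k1 := (z2_ne _).1 (sub_ne_zero.2 e)
        linear_combination k1 + z2_add_self (1 : ZMod 2)
    exact absurd (hw.elim (lw1_win h hM hτ ha.1 hq) (lw2_win h hM hτ ha.1 hq)) hH

theorem gn_nc (h : F.Ok G T) (hN : N ∈ F.Bs) (hq : G.Q4 N a b c d) (hn : G.NC N a b)
    (h4 : N.card ≠ 4) : (∀ s, F.xf N a b s = N) ∧ ∃ π1, F.GN G N a b π1 := by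
  have hT : N ⊆ T := (h.wf.sub N hN).1.trans h.hY
  have hu := (h.bx N hN).1
  have k1 : ∀ s, F.xf N a b s = N := fun s =>
    ((h.pk N hN a b c d hq).rg s).eq_of_nc h.hc h.hT hT hu hq hn
  obtain ⟨O, hO⟩ := (SG.rpn_fpn h.hc h.hT hT).1 hu a b c d hq hn fun r => h4 r.1
  refine ⟨k1, _, hN, (k1 0).trans (k1 1).symm, c, d, O, hq, rfl, ?_⟩
  rw [k1 0]
  exact hO.cov fun t ht => Or.inl ⟨t, ht.1, Subset.rfl⟩

end Kf

end Pool.Agent.Work.MP_8c679b_co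
end

-- merged part: Pool.Agent.Work.MP_8c679b_co.Key.MB3
section
/-!
Paths in the quotient.

Hints.  `pth_of_cut`: `quo_je`, `ie_link`, `nd_disj`.  `qpath`: if `e = f` use `pth_one`; else
`quo_rch` for `G.ins U`, `Rch.pth`, then `Pth.cons`, `Pth.snoc`; the nodes of the inner path are
nodes of vertices of `U`.
`alt`: let `α` be the first and `β` the last index with `u k ⊆ G.vs D` (such nodes are single
vertices); `0 < α`, `β < m`.  The edge that enters `u α` is not in `D`, so the edge that leaves it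
is in `D` (`third_unique`), hence `α < β`.  `Cc.cyc`, `Cyc.arcs` give arcs of both parities;
`pth_quo`, `Pth.rr`, `Pth.par_rr`.  The boxes on the new path do not depend on the arc.
`ear_par`: the inner edges `h 1, …, h (m - 2)` lie in `G.ins B`; telescoping sum of the potential.
-/

set_option autoImplicit false

namespace Pool.Agent.Work.MP_8c679b_co

open Finset

variable {V E : Type} [Fintype V] [DecidableEq V] [DecidableEq E] {G : SG V E}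
  {T U Z X B N N' : Finset V} {F : Kf V E} {M M' : Mb V E} {i j : Bool} {k l x y m : ℕ}
  {σ σ' π : Finset V → ZMod 2} {u : ℕ → Finset V} {h : ℕ → E} {a b c d e f : E} {v : V}
  {Zs : Finset (Finset V)} {g s : ZMod 2}
  {Y : Finset V} {Ns : Finset (Finset V)} {D : Finset E}

namespace Kf

theorem MB3_je {a b : V} (he : e ∈ G.A) (hj : G.Je e a b) (ha : a ∈ Y) (hb : b ∈ Y)
    (hne : nd Ns a ≠ nd Ns b) :
    e ∈ (G.quo Y Ns).A ∧ (G.quo Y Ns).Je e (nd Ns a) (nd Ns b) := by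
  have h1 : e ∈ G.ins Y := SG.mem_ins.2 ⟨he, (SG.Pth_ends hj).2 ⟨ha, hb⟩⟩
  refine ⟨SG.mem_quo.2 ⟨h1, ?_⟩, SG.quo_je h1 hj⟩
  rcases hj with ⟨rfl, rfl⟩ | ⟨rfl, rfl⟩
  exacts [hne, hne.symm]

theorem MB3_link (hpd : PD Ns) (hY : ∀ N ∈ Ns, N ⊆ Y) (hN : ∃ v ∈ Y, N = nd Ns v)
    (hN' : ∃ v ∈ Y, N' = nd Ns v) (hne : N ≠ N') (h1 : e ∈ G.cut N) (h2 : e ∈ G.cut N') :
    e ∈ (G.quo Y Ns).A ∧ (G.quo Y Ns).Je e N N' := by
  obtain ⟨a, ha, rfl⟩ := hN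
  obtain ⟨b, hb, rfl⟩ := hN'
  have k1 := SG.ie_mem (SG.cut_sub_tch h1)
  have k2 := SG.ie_mem (SG.cut_sub_tch h2)
  have k3 := (SG.ie_link (nd_disj hpd hne) h1 h2).1
  have k4 := (nd_eq_iff hpd).2 k1
  have k5 := (nd_eq_iff hpd).2 k2
  have k6 : G.Je e (G.ie (nd Ns a) e) (G.ie (nd Ns b) e) := k3 ▸ SG.je_ie_oe
  have k7 := MB3_je (Ns := Ns) (SG.mem_cut.1 h1).1 k6 (nd_sub hY ha k1) (nd_sub hY hb k2)
    (by rw [k4, k5]; exact hne)
  rwa [k4, k5] at k7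

theorem pth_of_cut (hpd : PD Ns) (hY : ∀ N ∈ Ns, N ⊆ Y) (hu : ∀ k ≤ m, ∃ v ∈ Y, u k = nd Ns v)
    (hi : ∀ k ≤ m, ∀ l ≤ m, u k = u l → k = l)
    (hg : ∀ k < m, h k ∈ G.cut (u k) ∧ h k ∈ G.cut (u (k + 1))) :
    (G.quo Y Ns).Pth (G.quo Y Ns).A m u h := by
  have key : ∀ k < m, h k ∈ (G.quo Y Ns).A ∧ (G.quo Y Ns).Je (h k) (u k) (u (k + 1)) :=
    fun k hk => MB3_link hpd hY (hu k hk.le) (hu _ hk)
      (fun e => by have := hi k hk.le _ hk e; omega) (hg k hk).1 (hg k hk).2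
  exact ⟨hi, fun k hk => (key k hk).1, fun k hk => (key k hk).2⟩

theorem pth_quo {w : ℕ → V} (hp : G.Pth (G.ins Y) m w h) (hr : ∀ k ≤ m, ∀ N ∈ Ns, w k ∉ N) :
    (G.quo Y Ns).Pth (G.quo Y Ns).A m (fun k => {w k}) h := by
  have key : ∀ k < m, h k ∈ (G.quo Y Ns).A ∧ (G.quo Y Ns).Je (h k) {w k} {w (k + 1)} := by
    intro k hk
    have h1 := SG.mem_ins.1 (hp.mem k hk)
    have h2 := (SG.Pth_ends (hp.jn k hk)).1 h1.2
    have e1 := nd_of_not (hr k hk.le)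
    have e2 := nd_of_not (hr _ hk)
    have h3 := MB3_je (Ns := Ns) h1.1 (hp.jn k hk) h2.1 h2.2 (by
      rw [e1, e2]
      intro e
      have := hp.inj k hk.le _ hk (singleton_injective e)
      omega)
    rwa [e1, e2] at h3
  exact ⟨fun k hk l hl e => hp.inj k hk l hl (singleton_injective e), fun k hk => (key k hk).1,
    fun k hk => (key k hk).2⟩

theorem MB3_out (hw : F.Wf G) (hY : U ⊆ F.Y) (hN : ∃ v ∈ F.Y, N = nd F.Bs v)
    (d1 : Disjoint N U) (he : e ∈ G.cut N) (ho : G.oe N e ∈ U) :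
    e ∈ (F.Γ G).A ∧ (F.Γ G).Je e N (nd F.Bs (G.oe N e)) := by
  obtain ⟨a, ha, hN⟩ := hN
  have k1 := SG.ie_mem (SG.cut_sub_tch he)
  have k4 : nd F.Bs (G.ie N e) = N := by
    rw [hN] at k1 ⊢
    exact (nd_eq_iff hw.pd).2 k1
  have k5 : N ⊆ F.Y := hN ▸ nd_sub (fun B hB => (hw.sub B hB).1) ha
  have k7 := MB3_je (Ns := F.Bs) (SG.mem_cut.1 he).1 (SG.je_ie_oe (X := N)) (k5 k1) (hY ho) (by
    rw [k4]
    intro k
    have k6 : G.oe N e ∈ nd F.Bs (G.oe N e) := mem_nd_self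
    rw [← k] at k6
    exact disjoint_left.1 d1 k6 ho)
  rwa [k4] at k7

theorem qpath (hw : F.Wf G) (hU : F.Sa U) (hY : U ⊆ F.Y) (hl : G.Lkn U N e N' f)
    (hN : ∃ v ∈ F.Y, N = nd F.Bs v) (hN' : ∃ v ∈ F.Y, N' = nd F.Bs v) (hne : N ≠ N')
    (d1 : Disjoint N U) (d2 : Disjoint N' U) :
    ∃ m u h, (F.Γ G).Pth (F.Γ G).A m u h ∧ u 0 = N ∧ u m = N' ∧ inn m u ⊆ U ∧ 1 ≤ m ∧
      h 0 = e ∧ h (m - 1) = f := by
  obtain ⟨he, hf, hc, rfl | ⟨ho, ho'⟩⟩ := hl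
  · obtain ⟨k1, k2⟩ := MB3_link hw.pd (fun B hB => (hw.sub B hB).1) hN hN' hne he hf
    refine ⟨1, _, _, SG.pth_one k1 k2 hne, rfl, rfl, fun x hx => ?_, le_rfl, rfl, rfl⟩
    obtain ⟨k, h1, h2, -⟩ := mem_inn.1 hx
    omega
  · obtain ⟨n, w, g, hp, h0, hn⟩ :=
      (SG.quo_rch (Ns := F.Bs) (SG.ins_mono hY) (hc _ ho _ ho')).pth e
    have hw' : ∀ k ≤ n, ∃ x ∈ U, w k = nd F.Bs x := by
      rintro (_ | k) hk
      · exact ⟨_, ho, h0⟩
      · have h1 := SG.mem_ins.1 (mem_inter.1 (hp.mem k hk)).1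
        rcases hp.jn k hk with k1 | k1
        exacts [⟨_, h1.2.2, k1.2.symm⟩, ⟨_, h1.2.1, k1.1.symm⟩]
    have hne' : ∀ {X : Finset V}, Disjoint X U → X ∉ pv n w := by
      intro X hd hX
      obtain ⟨k, hk, rfl⟩ := mem_pv.1 hX
      obtain ⟨x, hx, e1⟩ := hw' k hk
      exact disjoint_left.1 hd (e1 ▸ mem_nd_self) hx
    have hp1 : (F.Γ G).Pth (F.Γ G).A n w g := hp.mono fun k hk => (mem_inter.1 (hp.mem k hk)).2
    obtain ⟨a1, a2⟩ := MB3_out hw hY hN d1 he ho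
    obtain ⟨b1, b2⟩ := MB3_out hw hY hN' d2 hf ho'
    have hp2 := hp1.snoc b1 (hn ▸ b2.symm) (hne' d2)
    have hp3 := hp2.cons (x := N) a1 (by simpa only [Nat.zero_le, if_true, h0] using a2) (by
      intro hX
      obtain ⟨k, hk, e1⟩ := mem_pv.1 hX
      by_cases k1 : k ≤ n
      · simp only [k1, if_true] at e1
        exact hne' d1 (mem_pv.2 ⟨k, k1, e1⟩)
      · simp only [k1, if_false] at e1
        exact hne e1.symm)
    refine ⟨_, _, _, hp3, rfl, by simp, fun x hx => ?_, by omega, rfl, by simp⟩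
    obtain ⟨k, h1, h2, h3⟩ := mem_inn.1 hx
    have h4 : k - 1 ≤ n := by omega
    simp only [h1.ne', h4, if_true, if_false] at h3
    obtain ⟨z, hz, e1⟩ := hw' _ h4
    exact hU z hz (e1 ▸ h3)

theorem ear_of_lkn (hw : F.Wf G) (hM : F.IsM G M) (hU : F.Sa U) (hR : U ⊆ F.rest M) (hx : x < y)
    (hy : y ≤ M.n i) (hl : G.Lkn U (M.w i x) e (M.w i y) f) :
    ∃ m u h, F.Ear G M i x y m u h ∧ inn m u ⊆ U ∧ 1 ≤ m ∧ h 0 = e ∧ h (m - 1) = f := by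
  have hx' : x ≤ M.n i := by omega
  obtain ⟨m, u, h, hp, h0, hm, hi, h1, h2, h3⟩ := qpath hw hU
    (fun v hv => (mem_rest.1 (hR hv)).1) hl (hM.node hw hx').1 (hM.node hw hy).1
    (fun k => by have := (hM.inj hx' hy k).2; omega)
    ((rest_disj hx').mono_right hR) ((rest_disj hy).mono_right hR)
  exact ⟨m, u, h, ⟨hx, hy, hp, h0, hm, hi.trans hR⟩, hi, h1, h2, h3⟩

theorem _root_.Pool.Agent.Work.MP_8c679b_co.SG.Lkn.symm (hl : G.Lkn U N e N' f) :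
    G.Lkn U N' f N e := by
  obtain ⟨h1, h2, h3, h4⟩ := hl
  exact ⟨h2, h1, h3, h4.imp Eq.symm And.symm⟩

theorem MB3_jf (hpd : PD Ns) (hp : (G.quo Y Ns).Pth (G.quo Y Ns).A m u h) (hk : k < m) :
    ∃ a ∈ u k, ∃ b ∈ u (k + 1), G.Je (h k) a b ∧ h k ∈ G.A := by
  obtain ⟨h1, -, -, -, h2, h3, h4⟩ := SG.quo_je_inv hpd (hp.mem k hk) (hp.jn k hk)
  have k : ∀ (v : V) (N : Finset V), nd Ns v = N → v ∈ N := fun v N e => e ▸ mem_nd_self
  exact ⟨_, k _ _ h2, _, k _ _ h3, h4, (SG.mem_cut.1 h1).1⟩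

theorem MB3_one (hpd : PD Ns) (hp : (G.quo Y Ns).Pth (G.quo Y Ns).A m u h) (hk : k < m)
    (hn : u k ∉ Ns) : u k = {G.ie (u k) (h k)} := by
  obtain ⟨-, -, -, -, h2, -⟩ := SG.quo_je_inv hpd (hp.mem k hk) (hp.jn k hk)
  rcases nd_cases hpd (G.ie (u k) (h k)) with h3 | h3
  · exact absurd (h2 ▸ h3) hn
  · exact h2.symm.trans h3.2

omit [Fintype V] in
theorem MB3_inn : v ∈ inn m u ↔ ∃ k, 0 < k ∧ k < m ∧ v ∈ u k := by
  simp only [inn, mem_biUnion, mem_Ioo, and_assoc]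

omit [Fintype V] [DecidableEq V] in
theorem MB3_sum {α β r : ℕ} {w : ℕ → Finset V} (φ : Finset V → ZMod 2) (hα : 0 < α)
    (h0 : w 0 = u α) (hr : w r = u β) (hz : ∀ k ≤ r, φ (w k) = 0) :
    ∑ k ∈ Ioo 0 (α + r + (m - β)), φ (rrV α β r u w k) =
      ∑ k ∈ Ico 1 α, φ (u k) + ∑ k ∈ range (m - β), φ (u (k + β)) := by
  rw [show Ioo 0 (α + r + (m - β)) = Ico 1 (α + r + (m - β)) from rfl,
    ← sum_Ico_consecutive _ (show 1 ≤ α from hα) (by omega : α ≤ α + r + (m - β)),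
    ← sum_Ico_consecutive _ (by omega : α ≤ α + r) (by omega : α + r ≤ α + r + (m - β)),
    sum_eq_zero (s := Ico α (α + r)), zero_add, sum_Ico_eq_sum_range _ (α + r),
    Nat.add_sub_cancel_left]
  · congr 1
    · exact sum_congr rfl fun k hk => by rw [Pth_rr1 (mem_Ico.1 hk).2.le]
    · exact sum_congr rfl fun k _ => by
        rw [Pth_rr3 h0 hr (by omega), Nat.add_sub_cancel_left]
  · intro k hk
    rw [mem_Ico] at hk
    rw [Pth_rr2 h0 hk.1 hk.2.le]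
    exact hz _ (by omega)

theorem alt (hF : F.Ok G T) (hp : (F.Γ G).Pth (F.Γ G).A m u h) (h0 : ∃ v ∈ F.Y, u 0 = nd F.Bs v)
    (hD : D ∈ G.ocs F.Y) (hr : ∀ B ∈ F.Bs, Disjoint B (G.vs D)) (d0 : Disjoint (u 0) (G.vs D))
    (dm : Disjoint (u m) (G.vs D)) (hm : ¬ Disjoint (inn m u) (G.vs D)) (s : ZMod 2) :
    ∃ m' u' h', (F.Γ G).Pth (F.Γ G).A m' u' h' ∧ u' 0 = u 0 ∧ u' m' = u m ∧ h' 0 = h 0 ∧
      h' (m' - 1) = h (m - 1) ∧ inn m' u' ⊆ inn m u ∪ G.vs D ∧ ¬ Disjoint (inn m' u') (G.vs D) ∧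
      (∀ k ≤ m', u' k ∈ F.Bs → ∃ l ≤ m, u l = u' k) ∧
      G.par (pe m' h') + (∑ k ∈ Ioo 0 m', if u' k ∈ F.Bs then σ (u' k) else 0) = s := by
  classical
  have _ := h0
  have hpd := hF.wf.pd
  obtain ⟨hD1, hC, hodd⟩ := mem_filter.1 hD
  rw [mem_powerset] at hD1
  have hDA : D ⊆ G.A := hD1.trans SG.ins_sub_A
  obtain ⟨x0, hx1, hx2⟩ := not_disjoint_iff.1 hm
  obtain ⟨k0, hk1, hk2, hk3⟩ := MB3_inn.1 hx1
  have hne : ((range (m + 1)).filter fun k => ¬ Disjoint (u k) (G.vs D)).Nonempty :=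
    ⟨k0, mem_filter.2 ⟨mem_range.2 (by omega), not_disjoint_iff.2 ⟨x0, hk3, hx2⟩⟩⟩
  have ha := mem_filter.1 (min'_mem _ hne)
  have hb := mem_filter.1 (max'_mem _ hne)
  have hlo : ∀ k ≤ m, ¬ Disjoint (u k) (G.vs D) → min' _ hne ≤ k := fun k hk hk' =>
    min'_le _ k (mem_filter.2 ⟨mem_range.2 (by omega), hk'⟩)
  have hhi : ∀ k ≤ m, ¬ Disjoint (u k) (G.vs D) → k ≤ max' _ hne := fun k hk hk' =>
    le_max' _ k (mem_filter.2 ⟨mem_range.2 (by omega), hk'⟩)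
  generalize min' _ hne = α at ha hlo
  generalize max' _ hne = β at hb hhi
  rw [mem_range] at ha hb
  have hα : 0 < α := Nat.pos_of_ne_zero fun e => ha.2 (e ▸ d0)
  have hβ : β < m := lt_of_le_of_ne (by omega) fun e => hb.2 (e ▸ dm)
  have hαβ : α ≤ β := hlo β (by omega) hb.2
  have one : ∀ k < m, ¬ Disjoint (u k) (G.vs D) → ∃ v ∈ G.vs D, u k = {v} := by
    intro k hk hk'
    have h1 := MB3_one hpd hp hk fun h2 => hk' (hr _ h2)
    refine ⟨_, ?_, h1⟩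
    rwa [h1, disjoint_singleton_left, not_not] at hk'
  obtain ⟨a, haD, hau⟩ := one α (by omega) ha.2
  obtain ⟨b, hbD, hbu⟩ := one β hβ hb.2
  have hlt : α < β := by
    refine lt_of_le_of_ne hαβ fun e => ?_
    subst e
    obtain ⟨γ, rfl⟩ : ∃ γ, α = γ + 1 := ⟨α - 1, by omega⟩
    obtain ⟨a1, p1, b1, p2, p3, p4⟩ := MB3_jf hpd hp (k := γ) (by omega)
    obtain ⟨a2, q1, b2, q2, q3, q4⟩ := MB3_jf hpd hp hβ
    rw [hau, mem_singleton] at p2 q1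
    subst p2
    subst q1
    have n1 : h γ ∉ D := fun k => by
      have := hlo γ (by omega)
        (not_disjoint_iff.2 ⟨a1, p1, SG.mem_vs.2 ⟨_, k, p3.at_iff.2 (Or.inl rfl)⟩⟩)
      omega
    have n2 : h (γ + 1) ∉ D := fun k => by
      have := hhi (γ + 1 + 1) (by omega)
        (not_disjoint_iff.2 ⟨b2, q2, SG.mem_vs.2 ⟨_, k, q3.at_iff.2 (Or.inr rfl)⟩⟩)
      omega
    have := hp.einj hβ (by omega) (SG.third_unique hF.hc hDA haD (hC.2.1 _) p4 q4 n1 n2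
      (p3.at_iff.2 (Or.inr rfl)) (q3.at_iff.2 (Or.inl rfl)))
    omega
  obtain ⟨e0, he0, he1⟩ := SG.mem_vs.1 haD
  obtain ⟨n, w0, g0, hcy, hw0, -, hpe⟩ := hC.cyc hF.hc hDA (fun f hf => hF.hT.noloop hF.hc (by
    have := SG.mem_ins.1 (hD1 hf)
    exact SG.mem_tch.2 ⟨this.1, Or.inl (hF.hY this.2.1)⟩)) he0 he1
  obtain ⟨-, c1, -, c2, -⟩ := hcy.cc
  rw [hpe] at c1 c2
  obtain ⟨j0, hj0, hjb⟩ := mem_pv.1 (c1 ▸ hbD)
  have hab : a ≠ b := fun e => by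
    have := hp.inj α (by omega) β (by omega) (by rw [hau, hbu, e])
    omega
  obtain ⟨r, w, g1, a1, a2, a3, a4, -, a5⟩ := hcy.arcs (Nat.zero_le n) hj0
    (fun e => hab (by rw [← hw0, ← hjb, e]))
    (s + (G.par (pe m h) + ∑ k ∈ Ico α β, G.n (h k)) +
      (∑ k ∈ Ico 1 α, (if u k ∈ F.Bs then σ (u k) else 0) +
        ∑ k ∈ range (m - β), if u (k + β) ∈ F.Bs then σ (u (k + β)) else 0)) (c2 ▸ hodd)
  have hwD : ∀ k ≤ r, w k ∈ G.vs D := fun k hk => c1 ▸ a4 (mem_pv.2 ⟨k, hk, rfl⟩)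
  have hq : (F.Γ G).Pth (F.Γ G).A r (fun k => {w k}) g1 :=
    pth_quo (a1.mono fun i hi => hD1 (a1.mem i hi)) fun k hk N hN hv =>
      disjoint_left.1 (hr N hN) hv (hwD k hk)
  have e0 : (fun k => ({w k} : Finset V)) 0 = u α := by rw [hau, ← hw0, ← a2]
  have e1 : (fun k => ({w k} : Finset V)) r = u β := by rw [hbu, ← hjb, ← a3]
  have nb : ∀ k ≤ r, ({w k} : Finset V) ∉ F.Bs := fun k hk hN =>
    disjoint_left.1 (hr _ hN) (mem_singleton_self _) (hwD k hk)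
  have hd : ∀ k, 0 < k → k < r → ∀ l ≤ m, (l ≤ α ∨ β ≤ l) →
      (fun k => ({w k} : Finset V)) k ≠ u l := by
    intro k k1 k2 l l1 l2 e
    have h1 : ¬ Disjoint (u l) (G.vs D) :=
      not_disjoint_iff.2 ⟨w k, e ▸ mem_singleton_self _, hwD k k2.le⟩
    have h2 := hlo l l1 h1
    have h3 := hhi l l1 h1
    rcases l2 with l2 | l2
    · obtain rfl : l = α := by omega
      have := hq.inj k k2.le 0 (Nat.zero_le r) (e.trans e0.symm)
      omega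
    · obtain rfl : l = β := by omega
      have := hq.inj k k2.le r le_rfl (e.trans e1.symm)
      omega
  refine ⟨_, _, _, hp.rr hq hlt hβ.le e0 e1 hd, Pth_rr1 (Nat.zero_le α), ?_, Pth_re1 hα, ?_,
    fun x hx => ?_, ?_, fun k hk hN => ?_, ?_⟩
  · rw [Pth_rr3 e0 e1 (by omega)]
    congr 1
    omega
  · rw [Pth_re3 (by omega)]
    congr 1
    omega
  · obtain ⟨k, k1, k2, k3⟩ := MB3_inn.1 hx
    rw [mem_union]
    by_cases c3 : k ≤ α
    · rw [Pth_rr1 c3] at k3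
      exact Or.inl (MB3_inn.2 ⟨k, k1, by omega, k3⟩)
    by_cases c4 : k ≤ α + r
    · rw [Pth_rr2 e0 (by omega) c4, mem_singleton] at k3
      exact Or.inr (k3 ▸ hwD _ (by omega))
    · rw [Pth_rr3 e0 e1 (by omega)] at k3
      exact Or.inl (MB3_inn.2 ⟨_, by omega, by omega, k3⟩)
  · refine not_disjoint_iff.2 ⟨a, MB3_inn.2 ⟨α, hα, by omega, ?_⟩, haD⟩
    rw [Pth_rr1 le_rfl, hau]
    exact mem_singleton_self a
  · by_cases c3 : k ≤ α
    · exact ⟨k, by omega, (Pth_rr1 c3).symm⟩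
    by_cases c4 : k ≤ α + r
    · rw [Pth_rr2 e0 (by omega) c4] at hN
      exact absurd hN (nb _ (by omega))
    · exact ⟨_, by omega, (Pth_rr3 e0 e1 (by omega)).symm⟩
  · have h1 : G.par (pe (α + r + (m - β)) (rrE α β r h g1)) =
        G.par (pe m h) + ∑ k ∈ Ico α β, G.n (h k) + G.par (pe r g1) :=
      hp.par_rr hq hlt hβ.le e0 e1 hd
    rw [h1, a5, MB3_sum (fun N => if N ∈ F.Bs then σ N else 0) hα e0 e1
      fun k hk => if_neg (nb k hk)]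
    have k : ∀ a b c : ZMod 2, a + (c + a + b) + b = c := by decide
    exact k _ _ _

theorem ear_par {p : V → ZMod 2} (hw : F.Wf G) (hp : (F.Γ G).Pth (F.Γ G).A m u h) (hm : 2 ≤ m)
    (hB : inn m u ⊆ B) (hr : ∀ k, 0 < k → k < m → u k ∉ F.Bs) (d0 : Disjoint (u 0) B)
    (dm : Disjoint (u m) B) (hpot : ∀ e ∈ G.ins B, G.sw p e = 0) :
    G.par (pe m h) =
      G.n (h 0) + G.n (h (m - 1)) + (p (G.ie B (h 0)) + p (G.ie B (h (m - 1)))) := by
  obtain ⟨r, rfl⟩ : ∃ r, m = r + 2 := ⟨m - 2, by omega⟩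
  have one : ∀ k ≤ r, u (k + 1) = {G.ie (u (k + 1)) (h (k + 1))} := fun k hk =>
    MB3_one hw.pd hp (by omega) (hr _ (by omega) (by omega))
  generalize hx : (fun k => G.ie (u (k + 1)) (h (k + 1))) = x
  replace one : ∀ k ≤ r, u (k + 1) = {x k} := hx ▸ one
  have xB : ∀ k ≤ r, x k ∈ B := fun k hk =>
    hB (MB3_inn.2 ⟨k + 1, by omega, by omega, one k hk ▸ mem_singleton_self _⟩)
  have ie : ∀ e a b, G.Je e a b → a ∉ B → b ∈ B → G.ie B e = b := by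
    rintro e a b (⟨rfl, rfl⟩ | ⟨rfl, rfl⟩) h1 h2
    exacts [if_neg h1, if_pos h2]
  have h1 : G.par (pe (r + 2) h) = ∑ i ∈ range (r + 2), G.n (h i) := hp.par
  have h2 : ∀ k ∈ range r, G.n (h (k + 1)) = p (x k) + p (x (k + 1)) := by
    intro k hk
    rw [mem_range] at hk
    obtain ⟨a, p1, b, p2, p3, p4⟩ := MB3_jf hw.pd hp (k := k + 1) (by omega)
    rw [one k hk.le, mem_singleton] at p1
    rw [one (k + 1) hk, mem_singleton] at p2
    subst p1 p2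
    have h3 := hpot _ (SG.Cut_je_ins p4 p3 (xB k hk.le) (xB (k + 1) hk))
    rw [SG.Cut_sw p3, add_assoc] at h3
    exact z2_eq_of_add h3
  obtain ⟨a, p1, b, p2, p3, -⟩ := MB3_jf hw.pd hp (k := 0) (by omega)
  obtain ⟨a', q1, b', q2, q3, -⟩ := MB3_jf hw.pd hp (k := r + 1) (by omega)
  rw [one 0 (Nat.zero_le r), mem_singleton] at p2
  rw [one r le_rfl, mem_singleton] at q1
  subst p2 q1
  rw [h1, sum_range_succ, sum_range_succ', sum_congr rfl h2, Pth_tele (fun k => p (x k)),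
    show r + 2 - 1 = r + 1 from rfl, ie _ _ _ p3 (disjoint_left.1 d0 p1) (xB 0 (Nat.zero_le r)),
    ie _ _ _ q3.symm (disjoint_left.1 dm q2) (xB r le_rfl)]
  ring

end Kf

end Pool.Agent.Work.MP_8c679b_co
end

-- merged part: Pool.Agent.Work.MP_8c679b_co.Key.C3
section
/-!
Odd circuits through rungs and gaps: graph structure.

Hints.  `bead_of`: let `α` be the first and `β` the last position in the gap that lies on `D`.
Every edge `M.g i k` with `α ≤ k < β` is in `D` (else a maximal segment off `D` joins two vertices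
of `D`, `Iso.eq_of_od`), and `α < β` because the vertex at `α` has two edges of `D`.  The
complementary arc (`Cc.compl`) contains a path (`Rch.pth`), which is the whole arc (`Cc.min`);
`pth_quo`.
`nbr`: `rung_on`, `lf_str`; `Cc.cyc` from the end of `c` along `c`; the last vertex is the end of
`d`.  Take the first and the last inner index whose vertex is not in the rest (`mem_W0`).
`pbr`: `G.vs D` consists of the two rungs and `U ∪ U'`.  Odd size: `oddlen`, `st_plain`,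
`qs_real`, `par0` win.  `U ∪ U' = ∅`: `c' = c`, `d' = d`, against `F.Ok.r2`.  So there are two
vertices; the labels `G.lb (F.W0 M σ) D p` are disjoint and only `F.z` can leave `F.Y` there.  Let
`e` be the third edge of `p` (`lb_br`).  If its other end `o` is not in the rest take `U3 = ∅`.
Else `U3 = G.cmp (F.rest M \ G.vs D) o`; it has three cut edges and only `e` leads to `D`.
`path_cs`: `Cc.cyc` from the end of `y` along `r` and `Cyc.rot`; the path `D.erase r` splits into a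
path, the rung (`Rdy.on_even`, `rung_cs`) and a path; `pure_p`, `run_pas`, `ch_cs`.
-/

set_option autoImplicit false

namespace Pool.Agent.Work.MP_8c679b_co

open Finset

variable {V E : Type} [Fintype V] [DecidableEq V] [DecidableEq E] {G : SG V E}
  {T U Z X B N N' : Finset V} {F : Kf V E} {M M' : Mb V E} {i j : Bool} {k l x y m : ℕ}
  {σ σ' π : Finset V → ZMod 2} {u : ℕ → Finset V} {h : ℕ → E} {a b c d e f : E} {v : V}
  {Zs : Finset (Finset V)} {g s : ZMod 2}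
  {D L : Finset E} {U' W ρ : Finset V} {c' d' r : E} {π1 π2 : ZMod 2}

namespace Kf

theorem C3_bd_vs {S : Finset E} {n : ℕ} {w : ℕ → V} {q : ℕ → E} (hp : G.Pth S n w q) (hn : 0 < n) :
    v ∈ G.vs (pe n q) ↔ v ∈ pv n w := by
  rw [SG.mem_vs, mem_pv]
  constructor
  · rintro ⟨e, he, hv⟩
    obtain ⟨k, hk, rfl⟩ := mem_pe.1 he
    rcases (hp.jn k hk).at_iff.1 hv with rfl | rfl
    exacts [⟨k, hk.le, rfl⟩, ⟨k + 1, hk, rfl⟩]
  · rintro ⟨k, hk, rfl⟩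
    rcases k with _ | k
    · exact ⟨_, mem_pe.2 ⟨0, hn, rfl⟩, (hp.jn 0 hn).at_iff.2 (Or.inl rfl)⟩
    · exact ⟨_, mem_pe.2 ⟨k, hk, rfl⟩, (hp.jn k hk).at_iff.2 (Or.inr rfl)⟩

/-- a path between two vertices of an isolated circuit lies on it -/
theorem C3_bd_seg {n : ℕ} {w : ℕ → V} {q : ℕ → E} (hI : G.Iso W D) (hD : D ⊆ G.ins W) (cD : G.Cc D)
    (hp : G.Pth (G.ins W) n w q) (hn : 0 < n) (h0 : w 0 ∈ G.vs D) (h1 : w n ∈ G.vs D) :
    pe n q ⊆ D := by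
  obtain ⟨B, b1, b2⟩ := cD.arc h0 h1 fun e => by
    have := hp.inj 0 (Nat.zero_le _) n le_rfl e
    omega
  have key : ∀ k < n, w k ∈ G.vs D → q k ∈ D := fun k hk hv => by
    by_cases c : q k ∈ B
    · exact b1 c
    · refine hI _ (fun e he => ?_) (SG.od_self.1 (hp.od.symmDiff b2.2.1.symm)) (q k)
        (mem_symmDiff.2 (Or.inl ⟨mem_pe.2 ⟨k, hk, rfl⟩, c⟩)) _ hv
        ((hp.jn k hk).at_iff.2 (Or.inl rfl))
      rcases mem_symmDiff.1 he with r | r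
      exacts [hp.pe_sub r.1, hD (b1 r.1)]
  have ind : ∀ k < n, q k ∈ D := fun k => by
    induction k with
    | zero => exact fun hk => key 0 hk h0
    | succ k ih =>
      exact fun hk => key _ hk (SG.mem_vs.2 ⟨_, ih (by omega),
        (hp.jn k (by omega)).at_iff.2 (Or.inr rfl)⟩)
  intro e he
  obtain ⟨k, hk, rfl⟩ := mem_pe.1 he
  exact ind k hk

/-- the complementary arc of a path on a circuit -/
theorem C3_bd_arc {S : Finset E} {n : ℕ} {w : ℕ → V} {q : ℕ → E} (hc : G.Cub) (hA : D ⊆ G.A)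
    (cD : G.Cc D) (hp : G.Pth S n w q) (hn : 0 < n) (hs : pe n q ⊆ D) :
    ∃ m, ∃ z : ℕ → V, ∃ t : ℕ → E, G.Pth D m z t ∧ z 0 = w 0 ∧ z m = w n ∧
      (∀ k, 0 < k → k < m → z k ∉ pv n w) ∧ G.par D = G.par (pe n q) + G.par (pe m t) ∧
      ∀ v, v ∈ G.vs D ↔ v ∈ pv n w ∨ v ∈ pv m z := by
  have ne : w 0 ≠ w n := fun e => by
    have := hp.inj 0 (Nat.zero_le _) n le_rfl e
    omega
  obtain ⟨m, z, t, p1, p2, p3⟩ := (cD.2.1.sdiff hp.od hs).rch.pth (q 0)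
  have hm : 0 < m := Nat.pos_of_ne_zero fun e => ne (by rw [← p2, ← p3, e])
  have d : Disjoint (pe n q) (pe m t) := disjoint_sdiff.mono_right p1.pe_sub
  have od : G.Od (pe m t) (w n) (w 0) := p2 ▸ p3 ▸ p1.od.symm
  have e : pe n q ∪ pe m t = D := cD.min hc hA (union_subset hs (p1.pe_sub.trans sdiff_subset))
    (SG.od_self.1 (hp.od.union od d)) ⟨q 0, mem_union_left _ (mem_pe.2 ⟨0, hn, rfl⟩)⟩
  refine ⟨m, z, t, p1.mono fun k hk => (mem_sdiff.1 (p1.mem k hk)).1, p2, p3,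
    fun k k1 k2 k3 => ?_, by rw [← SG.par_union d, e], fun v => ?_⟩
  · rcases cD.ends hc hA hs hp.od ((C3_bd_vs hp hn).2 k3)
      (SG.vs_mono p1.pe_sub ((C3_bd_vs p1 hm).2 (mem_pv.2 ⟨k, k2.le, rfl⟩))) with r | r
    · have := p1.inj k k2.le 0 (Nat.zero_le _) (r.trans p2.symm)
      omega
    · have := p1.inj k k2.le m le_rfl (r.trans p3.symm)
      omega
  · rw [← C3_bd_vs hp hn, ← C3_bd_vs p1 hm, ← mem_union, ← SG.vs_union, e]

/-- a plain vertex of a track is not the only vertex of a circuit outside the rest -/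
theorem C3_bd_lone {p : V} (h : F.Ok G T) (hM : F.IsM G M) (hk : k ≤ M.n i) (hn : M.w i k ∉ F.Bs)
    (hp : M.w i k = {p}) (hD : D ⊆ G.ins F.Y) (cD : G.Cc D) (hm : p ∈ G.vs D)
    (hs : ∀ v ∈ G.vs D, v ∈ F.rest M ∨ v = p) : False := by
  have hA := hD.trans SG.ins_sub_A
  have hl : ∀ f ∈ D, G.s f ≠ G.t f := fun f hf =>
    h.hT.noloop h.hc (SG.tch_mono h.hY (SG.ins_sub_tch (hD hf)))
  obtain ⟨p', e3, h1, h2, -⟩ := hM.q3 h hk hn
  obtain rfl : p' = p := singleton_injective (h1.symm.trans hp)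
  have key : ∀ f ∈ D, G.At f p' → f = e3 := fun f hf ha => by
    have h3 : f ∈ G.tch (F.rest M) := SG.mem_tch.2 ⟨hA hf, by
      rcases hs _ (SG.s_mem_vs hf) with a | a
      · exact Or.inl a
      · exact Or.inr ((hs _ (SG.t_mem_vs hf)).resolve_right fun b => hl f hf (a.trans b.symm))⟩
    have h4 := (SG.mem_cut_single (hl f hf)).2 ⟨hA hf, ha⟩
    rw [h2.1] at h4
    simp only [mem_insert, mem_singleton] at h4
    rcases h4 with rfl | rfl | rfl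
    exacts [absurd h3 (hM.e_rest h.wf (by omega)), absurd h3 (hM.e_rest h.wf (by omega)), rfl]
  obtain ⟨e, he, ha⟩ := SG.mem_vs.1 hm
  obtain ⟨n, z, t, cy, c1, c2, -⟩ := cD.cyc h.hc hA hl he ha
  exact cy.cn ((key _ cy.cm (cy.cj.at_iff.2 (Or.inr c1.symm))).trans (c2 ▸ key e he ha).symm)

theorem bead_of (h : F.Ok G T) (hM : F.IsM G M) (hy : y ≤ M.n i) (hZ : Z ⊆ F.rest M)
    (hF : ¬ G.FH (Z ∪ M.gap i x y)) (hD : D ∈ G.ocs (Z ∪ M.gap i x y)) (hm : ¬ G.vs D ⊆ Z)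
    (hr : ∀ B ∈ F.Bs, Disjoint B (G.vs D)) (hg : ∀ k, x < k → k < y → M.w i k ∉ F.Bs) :
    ∃ α β m u h, F.Bd G M i x y Z α β m u h := by
  obtain ⟨d1, d2, d3⟩ := SG.mem_ocs.1 hD
  obtain ⟨s1, ⟨v0, -⟩, -⟩ := SG.ocs_vs hD
  have hW : Z ∪ M.gap i x y ⊆ F.Y := union_subset (hZ.trans sdiff_subset) fun v hv => by
    obtain ⟨k, -, k2, k3⟩ := mem_gap.1 hv
    exact (hM.node h.wf (k2.le.trans hy)).2.2.1 k3
  have : ∀ k, ∃ p : V, x < k → k < y → M.w i k = {p} := fun k => by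
    by_cases c : x < k ∧ k < y
    · obtain ⟨p, -, a, -⟩ := hM.q3 h (c.2.le.trans hy) (hg k c.1 c.2)
      exact ⟨p, fun _ _ => a⟩
    · exact ⟨v0, fun a b => absurd ⟨a, b⟩ c⟩
  choose w hw using this
  have s2 : ∀ v ∈ G.vs D, v ∈ Z ∨ ∃ k ∈ (Ioo x y).filter fun k => w k ∈ G.vs D, v = w k :=
    fun v hv => (mem_union.1 (s1 hv)).imp_right fun c => by
      obtain ⟨k, k1, k2, k3⟩ := mem_gap.1 c
      rw [hw k k1 k2, mem_singleton] at k3
      exact ⟨k, mem_filter.2 ⟨mem_Ioo.2 ⟨k1, k2⟩, k3 ▸ hv⟩, k3⟩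
  have hA : ((Ioo x y).filter fun k => w k ∈ G.vs D).Nonempty := by
    obtain ⟨v, v1, v2⟩ := not_subset.1 hm
    obtain ⟨k, k1, -⟩ := (s2 v v1).resolve_left v2
    exact ⟨k, k1⟩
  obtain ⟨α, a0, a1⟩ := exists_min_image _ id hA
  obtain ⟨β, b0, b1⟩ := exists_max_image _ id hA
  simp only [id] at a1 b1
  obtain ⟨a2, a3⟩ := mem_filter.1 a0
  obtain ⟨b2, b3⟩ := mem_filter.1 b0
  rw [mem_Ioo] at a2 b2
  have lt : α < β := by
    by_contra c
    refine C3_bd_lone h hM (a2.2.le.trans hy) (hg α a2.1 a2.2) (hw α a2.1 a2.2)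
      (d1.trans (SG.ins_mono hW)) d2 a3 fun v hv => (s2 v hv).imp (fun a => hZ a) ?_
    rintro ⟨k, k1, rfl⟩
    have := a1 k k1
    have := b1 k k1
    congr 1
    omega
  obtain ⟨n, rfl⟩ := Nat.exists_eq_add_of_lt lt
  have wk : ∀ k ≤ n + 1, M.w i (α + k) = {w (α + k)} := fun k hk => hw _ (by omega) (by omega)
  have mk : ∀ k ≤ n + 1, w (α + k) ∈ Z ∪ M.gap i x y := fun k hk => mem_union_right _
    (mem_gap.2 ⟨α + k, by omega, by omega, wk k hk ▸ mem_singleton_self _⟩)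
  have je : ∀ k < n + 1, M.g i (α + k) ∈ G.A ∧
      G.Je (M.g i (α + k)) (w (α + k)) (w (α + (k + 1))) := fun k hk => by
    have k0 : α + k < M.n i := by omega
    obtain ⟨c1, c2, -, -, -, -, c3⟩ :=
      SG.quo_je_inv h.wf.pd ((hM.pth i).mem _ k0) ((hM.pth i).jn _ k0)
    have c4 := SG.ie_mem (SG.cut_sub_tch c1)
    have c5 := SG.ie_mem (SG.cut_sub_tch c2)
    have e1 := mem_singleton.1 ((wk k hk.le).le c4)
    have e2 := mem_singleton.1 ((wk (k + 1) hk).le c5)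
    exact ⟨(SG.mem_cut.1 c1).1, e1 ▸ e2 ▸ c3⟩
  have hp : G.Pth (G.ins (Z ∪ M.gap i x y)) (n + 1) (fun k => w (α + k))
      fun k => M.g i (α + k) := by
    refine ⟨fun k hk l hl e => ?_, fun k hk => SG.Cut_je_ins (je k hk).1 (je k hk).2 (mk k hk.le)
      (mk _ hk), fun k hk => (je k hk).2⟩
    have := (hM.inj (i := i) (j := i) (k := α + k) (l := α + l) (by omega) (by omega)
      (by rw [wk k hk, wk l hl]; exact congrArg _ e)).2
    omega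
  have hs := C3_bd_seg (SG.ocs_iso hF hD) d1 d2 hp n.succ_pos a3 b3
  obtain ⟨m, z, t, p1, p2, p3, p4, p5, p6⟩ :=
    C3_bd_arc h.hc (d1.trans SG.ins_sub_A) d2 hp n.succ_pos hs
  have zD : ∀ k ≤ m, z k ∈ G.vs D := fun k hk => (p6 _).2 (Or.inr (mem_pv.2 ⟨k, hk, rfl⟩))
  have hi : inn m (fun k => ({z k} : Finset V)) ⊆ Z := fun v hv => by
    obtain ⟨k, k1, k2, k3⟩ := mem_inn.1 hv
    obtain rfl := mem_singleton.1 k3
    refine (s2 _ (zD k k2.le)).resolve_right fun ⟨l, l1, l2⟩ => p4 k k1 k2 ?_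
    have := a1 l l1
    have := b1 l l1
    exact mem_pv.2 ⟨l - α, by omega, by rw [l2]; congr 1; omega⟩
  have w0 : M.w i α = {z 0} := p2 ▸ wk 0 (Nat.zero_le _)
  have w1 : M.w i (α + n + 1) = {z m} := p3 ▸ wk (n + 1) le_rfl
  refine ⟨α, α + n + 1, m, fun k => {z k}, t, a2.1, b2.2, ⟨lt, by omega,
    pth_quo (p1.mono fun k hk => SG.ins_mono hW (d1 (p1.mem k hk))) fun k hk N hN c =>
      disjoint_left.1 (hr N hN) c (zD k hk), w0.symm, w1.symm, hi.trans hZ⟩, hi,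
    fun k k1 k2 => hg k (by omega) (by omega), fun k hk c =>
      disjoint_left.1 (hr _ c) (mem_singleton_self _) (zD k hk), ?_, D, hD, ?_⟩
  · rw [d3, hp.par] at p5
    rw [sum_Ico_eq_sum_range, show α + n + 1 - α = n + 1 by omega]
    exact (show ∀ a b : ZMod 2, 1 = a + b → b = a + 1 by decide) _ _ p5
  · ext v
    rw [p6, mem_pv, mem_pv, mem_union, mem_union, mem_union, mem_inn, mem_gap, w0, w1]
    simp only [mem_singleton]
    constructor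
    · rintro (⟨k, hk, rfl⟩ | ⟨k, hk, rfl⟩)
      · rcases Nat.eq_zero_or_pos k with rfl | c
        · exact Or.inr (Or.inl p2.symm)
        rcases hk.eq_or_lt with rfl | c'
        · exact Or.inr (Or.inr p3.symm)
        · exact Or.inl (Or.inr ⟨α + k, by omega, by omega, wk k hk ▸ mem_singleton_self _⟩)
      · rcases Nat.eq_zero_or_pos k with rfl | c
        · exact Or.inr (Or.inl rfl)
        rcases hk.eq_or_lt with rfl | c'
        · exact Or.inr (Or.inr rfl)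
        · exact Or.inl (Or.inl ⟨k, c, c', rfl⟩)
    · rintro ((⟨k, -, k2, rfl⟩ | ⟨k, k1, k2, k3⟩) | rfl | rfl)
      · exact Or.inr ⟨k, k2.le, rfl⟩
      · obtain ⟨l, rfl⟩ := Nat.exists_eq_add_of_le k1.le
        exact Or.inl ⟨l, by omega, (mem_singleton.1 ((wk l (by omega)).le k3)).symm⟩
      · exact Or.inr ⟨0, Nat.zero_le _, rfl⟩
      · exact Or.inr ⟨m, le_rfl, rfl⟩

theorem C3_nb_ins {p q : V} (he : e ∈ G.A) (hj : G.Je e p q) (hp : p ∈ U) (hq : q ∈ U) :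
    e ∈ G.ins U :=
  SG.mem_ins.2 ⟨he, (SG.Pth_ends hj).2 ⟨hp, hq⟩⟩

theorem C3_nb_cut {p q : V} (he : e ∈ G.A) (hj : G.Je e p q) (hp : p ∈ U) (hq : q ∉ U) :
    e ∈ G.cut U ∧ G.oe U e = q := by
  have hc : e ∈ G.cut U := by
    refine SG.mem_cut.2 ⟨he, ?_⟩
    rcases hj with ⟨h1, h2⟩ | ⟨h1, h2⟩ <;> rw [h1, h2] <;> tauto
  exact ⟨hc, (SG.eq_oe hc hq (hj.at_iff.2 (Or.inr rfl))).symm⟩

theorem C3_nb_cn {n α β : ℕ} {w : ℕ → V} {t : ℕ → E} (hp : G.Pth D n w t) (hA : D ⊆ G.A)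
    (hb : β ≤ n + 1) : G.Cn ((Ico α β).image w) (G.ins ((Ico α β).image w)) := by
  refine SG.cn_of_base (a := w α) ?_
  intro v hv
  obtain ⟨τ, ht, rfl⟩ := mem_image.1 hv
  clear hv
  obtain ⟨h1, h2⟩ := mem_Ico.1 ht
  clear ht
  induction τ, h1 using Nat.le_induction with
  | base => exact SG.Rch.refl _ _
  | succ τ h1 ih =>
    have hj := hp.jn τ (by omega)
    exact (ih (by omega)).trans (SG.rch_at (C3_nb_ins (hA (hp.mem τ (by omega))) hj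
      (mem_image_of_mem _ (mem_Ico.2 ⟨h1, by omega⟩))
      (mem_image_of_mem _ (mem_Ico.2 ⟨by omega, h2⟩))) (hj.at_iff.2 (Or.inl rfl))
      (hj.at_iff.2 (Or.inr rfl)))

theorem C3_nb_lk {n α : ℕ} {w : ℕ → V} {t : ℕ → E} (hp : G.Pth D n w t) (hA : D ⊆ G.A)
    (h1 : 1 ≤ α) (hn : α ≤ n) (m0 : w 0 ∈ N) (m1 : w 1 ∉ N) (ma : w α ∈ N')
    (mb : w (α - 1) ∉ N') : G.Lkn ((Ico 1 α).image w) N (t 0) N' (t (α - 1)) := by
  have c1 := C3_nb_cut (hA (hp.mem 0 (by omega))) (hp.jn 0 (by omega)) m0 m1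
  have j2 := hp.jn (α - 1) (by omega)
  rw [show α - 1 + 1 = α by omega] at j2
  have c2 := C3_nb_cut (hA (hp.mem (α - 1) (by omega))) j2.symm ma mb
  refine ⟨c1.1, c2.1, C3_nb_cn hp hA (by omega), ?_⟩
  rcases Nat.eq_or_lt_of_le h1 with rfl | h2
  · exact Or.inl rfl
  · right
    rw [c1.2, c2.2]
    exact ⟨mem_image_of_mem _ (mem_Ico.2 ⟨by omega, h2⟩),
      mem_image_of_mem _ (mem_Ico.2 ⟨by omega, by omega⟩)⟩

theorem C3_nb_rung (h : F.Ok G T) (hM : F.IsM G M) (hD : D ∈ G.ocs (F.W0 M σ)) (hk : k ≤ M.n i)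
    (hm : ¬ Disjoint (M.w i k) (G.vs D)) : F.Nd M i k ∧ ∀ c d,
      G.Q4 (M.w i k) (F.e M i k) (F.e M i (k + 1)) c d → c ∈ D ∧ d ∈ D ∧
      G.ie (M.w i k) c ≠ G.ie (M.w i k) d ∧
      (∀ v ∈ M.w i k, v ∈ G.vs D → v = G.ie (M.w i k) c ∨ v = G.ie (M.w i k) d) ∧
      ∃ r ∈ D, G.Je r (G.ie (M.w i k) c) (G.ie (M.w i k) d) := by
  obtain ⟨dI, dC, -⟩ := SG.mem_ocs.1 hD
  have hI := W0_inter (σ := σ) h hM hk
  have hd : Disjoint (F.W0 M σ) (F.xs M σ i k) := by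
    refine disjoint_left.2 fun v hv hv' => ?_
    have : v ∈ F.W0 M σ ∩ M.w i k := mem_inter.2 ⟨hv, (xs_sub h hM hk).1 hv'⟩
    rw [hI] at this
    exact (mem_sdiff.1 this).2 hv'
  obtain ⟨lf, -, r2, r3⟩ := rung_on h hM hk hd dI dC.2.1 hm
  obtain ⟨nd, st⟩ := lf_str h hM lf
  refine ⟨nd, fun c d hq => ?_⟩
  obtain ⟨-, e1, dv, x, y, r, -, -, e2, jr⟩ := st c d hq
  refine ⟨(r3 c d hq).1, (r3 c d hq).2, dv, fun v hv hv' => ?_, r, r2 ?_, jr⟩
  · have : v ∈ F.W0 M σ ∩ M.w i k := mem_inter.2 ⟨(SG.ocs_vs hD).1 hv', hv⟩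
    rw [hI, e1, mem_insert, mem_singleton] at this
    exact this
  · rw [e2]
    exact mem_singleton_self _

theorem nbr (h : F.Ok G T) (hM : F.IsM G M) (hD : D ∈ G.ocs (F.W0 M σ)) (hk : k ≤ M.n i)
    (hm : ¬ Disjoint (M.w i k) (G.vs D))
    (hq : G.Q4 (M.w i k) (F.e M i k) (F.e M i (k + 1)) c d)
    (ho : ¬ G.vs D ⊆ M.w i k ∪ F.rest M) :
    ∃ j l c' U j' l' d' U', l ≤ M.n j ∧ l' ≤ M.n j' ∧ ¬ (j = i ∧ l = k) ∧ ¬ (j' = i ∧ l' = k) ∧
      ¬ Disjoint (M.w j l) (G.vs D) ∧ ¬ Disjoint (M.w j' l') (G.vs D) ∧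
      G.Lkn U (M.w i k) c (M.w j l) c' ∧ G.Lkn U' (M.w i k) d (M.w j' l') d' ∧ c' ≠ d' ∧
      U ⊆ F.rest M ∩ G.vs D ∧ U' ⊆ F.rest M ∩ G.vs D ∧ Disjoint U U' ∧
      (c' = c → U = ∅) ∧ (d' = d → U' = ∅) ∧
      (j' = j ∧ l' = l → G.vs D ⊆ M.w i k ∪ M.w j l ∪ U ∪ U') := by
  obtain ⟨dI, dC, -⟩ := SG.mem_ocs.1 hD
  have hA : D ⊆ G.A := fun e he => (SG.mem_ins.1 (dI he)).1
  have vW : G.vs D ⊆ F.W0 M σ := (SG.ocs_vs hD).1
  have hl : ∀ f ∈ D, G.s f ≠ G.t f := fun f hf => h.hT.noloop h.hc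
    (SG.tch_mono (((W0_sub h hM).2).trans h.hY) (SG.ins_sub_tch (dI hf)))
  obtain ⟨cD, dD, hne, hin, r, rD, jr⟩ := (C3_nb_rung h hM hD hk hm).2 c d hq
  have cc : c ∈ G.cut (M.w i k) := by rw [hq.1]; simp
  have dc : d ∈ G.cut (M.w i k) := by rw [hq.1]; simp
  have ci := SG.ie_mem (SG.cut_sub_tch cc)
  have di := SG.ie_mem (SG.cut_sub_tch dc)
  have ri : r ∈ G.ins (M.w i k) := C3_nb_ins (hA rD) jr ci di
  obtain ⟨n, w, t, cy, w0, t0, eD⟩ := dC.cyc h.hc hA hl cD (SG.ie_at (X := M.w i k))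
  have hp := cy.pth
  have n1 := cy.pos
  have eV : G.vs D = pv n w := by rw [← eD]; exact cy.cc.2.1
  have mv : ∀ τ ≤ n, w τ ∈ G.vs D := fun τ hτ => eV ▸ mem_pv.2 ⟨τ, hτ, rfl⟩
  have idx : ∀ f ∈ D, ∃ τ ≤ n, t τ = f := by
    intro f hf
    rw [← eD] at hf
    obtain ⟨τ, h1, h2⟩ := mem_pe.1 hf
    exact ⟨τ, by omega, h2⟩
  have tr : t n = r := by
    obtain ⟨τ, h1, h2⟩ := idx r rD
    rcases Nat.eq_or_lt_of_le h1 with rfl | h3
    · exact h2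
    · have h4 : G.At (t τ) (w 0) := by rw [h2, w0]; exact jr.at_iff.2 (Or.inl rfl)
      have h5 : τ = 0 := by
        have := (hp.at_iff h3 (Nat.zero_le _)).1 h4
        omega
      rw [h5, t0] at h2
      exact absurd (h2 ▸ ri) (SG.not_ins_of_cut cc)
  have wn : w n = G.ie (M.w i k) d := by
    have h1 : G.At r (w n) := tr ▸ cy.cj.at_iff.2 (Or.inl rfl)
    rcases jr.at_iff.1 h1 with h2 | h2
    · have := hp.inj n le_rfl 0 (Nat.zero_le _) (h2.trans w0.symm)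
      omega
    · exact h2
  have td : t (n - 1) = d := by
    obtain ⟨τ, h1, h2⟩ := idx d dD
    rcases Nat.eq_or_lt_of_le h1 with rfl | h3
    · rw [tr] at h2
      exact absurd (h2 ▸ ri) (SG.not_ins_of_cut dc)
    · have h4 : G.At (t τ) (w n) := by rw [h2, wn]; exact SG.ie_at
      have h5 : τ = n - 1 := by
        have := (hp.at_iff h3 le_rfl).1 h4
        omega
      rw [← h5, h2]
  have m0 : w 0 ∈ M.w i k := w0 ▸ ci
  have mn : w n ∈ M.w i k := wn ▸ di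
  have inn : ∀ τ, 0 < τ → τ < n → w τ ∉ M.w i k := by
    intro τ h1 h2 h3
    rcases hin _ h3 (mv τ h2.le) with h4 | h4
    · have := hp.inj τ h2.le 0 (Nat.zero_le _) (h4.trans w0.symm)
      omega
    · have := hp.inj τ h2.le n le_rfl (h4.trans wn.symm)
      omega
  have pos : ∀ τ, 0 < τ → τ < n → w τ ∉ F.rest M →
      ∃ j, ∃ l ≤ M.n j, ¬ (j = i ∧ l = k) ∧ w τ ∈ M.w j l := by
    intro τ h1 h2 h3
    rcases (mem_W0 h hM).1 (vW (mv τ h2.le)) with h4 | ⟨j, l, h4, h5⟩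
    · exact absurd h4 h3
    · refine ⟨j, l, h4, ?_, (mem_sdiff.1 h5).1⟩
      rintro ⟨rfl, rfl⟩
      exact inn τ h1 h2 (mem_sdiff.1 h5).1
  have ex : ∃ τ, 0 < τ ∧ τ < n ∧ w τ ∉ F.rest M := by
    obtain ⟨v, h1, h2⟩ := not_subset.1 ho
    rw [eV] at h1
    obtain ⟨τ, h3, rfl⟩ := mem_pv.1 h1
    rw [mem_union, not_or] at h2
    refine ⟨τ, Nat.pos_of_ne_zero ?_, lt_of_le_of_ne h3 ?_, h2.2⟩
    · rintro rfl
      exact h2.1 m0
    · rintro rfl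
      exact h2.1 mn
  have ex' : ∃ τ, 0 < τ ∧ τ < n ∧ w (n - τ) ∉ F.rest M := by
    obtain ⟨τ, h1, h2, h3⟩ := ex
    exact ⟨n - τ, by omega, by omega, by rwa [show n - (n - τ) = τ by omega]⟩
  classical
  obtain ⟨α, ⟨a1, a2, a3⟩, am⟩ : ∃ α, (0 < α ∧ α < n ∧ w α ∉ F.rest M) ∧
      ∀ τ, 0 < τ → τ < α → w τ ∈ F.rest M := by
    refine ⟨Nat.find ex, Nat.find_spec ex, fun τ h1 h2 => ?_⟩
    by_contra h3
    exact Nat.find_min ex h2 ⟨h1, h2.trans (Nat.find_spec ex).2.1, h3⟩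
  obtain ⟨β, ⟨b1, b2, b3⟩, bm⟩ : ∃ β, (0 < β ∧ β < n ∧ w (n - β) ∉ F.rest M) ∧
      ∀ τ, 0 < τ → τ < β → w (n - τ) ∈ F.rest M := by
    refine ⟨Nat.find ex', Nat.find_spec ex', fun τ h1 h2 => ?_⟩
    by_contra h3
    exact Nat.find_min ex' h2 ⟨h1, h2.trans (Nat.find_spec ex').2.1, h3⟩
  have ab : α ≤ n - β := by
    by_contra h1
    exact b3 (am (n - β) (by omega) (by omega))
  obtain ⟨j, l, l1, l2, l3⟩ := pos α a1 a2 a3
  obtain ⟨j', l', k1, k2, k3⟩ := pos (n - β) (by omega) (by omega) b3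
  have L1 := C3_nb_lk (N := M.w i k) (N' := M.w j l) hp hA a1 a2.le m0 (inn 1 one_pos (by omega)) l3
    (by
      rcases Nat.eq_or_lt_of_le a1 with h1 | h1
      · rw [show α - 1 = 0 by omega]
        exact disjoint_left.1 (hM.disj h.wf hk l1 l2) m0
      · exact disjoint_right.1 (rest_disj l1) (am _ (by omega) (by omega)))
  have L2 := C3_nb_lk (N := M.w i k) (N' := M.w j' l') hp.rev hA b1 b2.le mn
    (inn (n - 1) (by omega) (by omega)) k3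
    (by
      rcases Nat.eq_or_lt_of_le b1 with h1 | h1
      · rw [show β - 1 = 0 by omega]
        exact disjoint_left.1 (hM.disj h.wf hk k1 k2) mn
      · exact disjoint_right.1 (rest_disj k1) (bm _ (by omega) (by omega)))
  simp only [Nat.sub_zero] at L2
  rw [t0] at L1
  rw [td] at L2
  refine ⟨j, l, _, _, j', l', _, _, l1, k1, l2, k2, not_disjoint_iff.2 ⟨_, l3, mv _ a2.le⟩,
    not_disjoint_iff.2 ⟨_, k3, mv _ (by omega)⟩, L1, L2, ?_, ?_, ?_, ?_, ?_, ?_, ?_⟩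
  · intro h1
    have := hp.einj (by omega) (by omega) h1
    omega
  · intro v hv
    obtain ⟨τ, h1, rfl⟩ := mem_image.1 hv
    rw [mem_Ico] at h1
    exact mem_inter.2 ⟨am τ (by omega) h1.2, mv τ (by omega)⟩
  · intro v hv
    obtain ⟨τ, h1, rfl⟩ := mem_image.1 hv
    rw [mem_Ico] at h1
    exact mem_inter.2 ⟨bm τ (by omega) h1.2, mv _ (by omega)⟩
  · refine disjoint_left.2 fun v hv hv' => ?_
    obtain ⟨τ, h1, rfl⟩ := mem_image.1 hv
    obtain ⟨τ', h2, h3⟩ := mem_image.1 hv'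
    rw [mem_Ico] at h1 h2
    have := hp.inj _ (by omega) _ (by omega) h3
    omega
  · intro h1
    have := hp.einj (by omega) (by omega) (h1.trans t0.symm)
    rw [show α = 1 by omega]
    simp
  · intro h1
    have := hp.einj (by omega) (by omega) (h1.trans td.symm)
    rw [show β = 1 by omega]
    simp
  · rintro ⟨rfl, rfl⟩ v hv
    have hb : n - β ≤ α + 1 := by
      by_contra h1
      obtain ⟨nd, st⟩ := C3_nb_rung h hM hD l1 (not_disjoint_iff.2 ⟨_, l3, mv _ a2.le⟩)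
      obtain ⟨c1, d1, q1⟩ := hM.q4 h nd
      obtain ⟨-, -, -, hin', r', rD', jr'⟩ := st c1 d1 q1
      have u1 : G.At r' (w α) := jr'.at_iff.2 (hin' _ l3 (mv _ a2.le))
      have u2 : G.At r' (w (n - β)) := jr'.at_iff.2 (hin' _ k3 (mv _ (by omega)))
      obtain ⟨τ, h2, rfl⟩ := idx r' rD'
      rcases Nat.eq_or_lt_of_le h2 with rfl | h3
      · rcases cy.cj.at_iff.1 u1 with h4 | h4
        · have := hp.inj _ a2.le _ le_rfl h4
          omega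
        · have := hp.inj _ a2.le _ (Nat.zero_le _) h4
          omega
      · have := (hp.at_iff h3 a2.le).1 u1
        have := (hp.at_iff h3 (by omega)).1 u2
        omega
    rw [eV] at hv
    obtain ⟨τ, h1, rfl⟩ := mem_pv.1 hv
    simp only [mem_union]
    by_cases h2 : τ = 0
    · exact Or.inl (Or.inl (Or.inl (h2 ▸ m0)))
    by_cases h3 : τ = n
    · exact Or.inl (Or.inl (Or.inl (h3 ▸ mn)))
    by_cases h4 : τ < α
    · exact Or.inl (Or.inr (mem_image_of_mem _ (mem_Ico.2 ⟨by omega, h4⟩)))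
    by_cases h5 : τ = α
    · exact Or.inl (Or.inl (Or.inr (h5 ▸ l3)))
    by_cases h6 : τ = n - β
    · exact Or.inl (Or.inl (Or.inr (h6 ▸ k3)))
    · exact Or.inr (mem_image.2 ⟨n - τ, mem_Ico.2 ⟨by omega, by omega⟩,
        by rw [show n - (n - τ) = τ by omega]⟩)

/-- two boxes are joined by at most one edge -/
theorem C3_two (h : F.Ok G T) (hN : N ∈ F.Bs) (hN' : N' ∈ F.Bs) (hne : N ≠ N') (hcd : c ≠ d)
    (c1 : c ∈ G.cut N) (c2 : c ∈ G.cut N') (d1 : d ∈ G.cut N) (d2 : d ∈ G.cut N') : False := by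
  have hd := h.wf.pd N hN N' hN' hne
  have h1 := SG.cut_add (G := G) (subset_union_left (s₁ := N) (s₂ := N'))
  rw [union_sdiff_cancel_left hd, (h.bx N hN).1.1, (h.bx N' hN').1.1] at h1
  have h3 := card_le_card (show ({c, d} : Finset E) ⊆ G.crs (G.ins (N ∪ N')) N from
    insert_subset (SG.mem_crs.2 ⟨(SG.ie_link hd c1 c2).2, (SG.mem_cut.1 c1).2⟩)
      (singleton_subset_iff.2 (SG.mem_crs.2 ⟨(SG.ie_link hd d1 d2).2, (SG.mem_cut.1 d1).2⟩)))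
  rw [card_pair hcd] at h3
  have h4 := h.hT.mono3 (union_subset ((h.wf.sub N hN).1.trans h.hY)
    ((h.wf.sub N' hN').1.trans h.hY)) ((h.wf.sub N hN).2.mono subset_union_left)
  have h5 := h.r2 N hN N' hN' hne
  omega

theorem C3_on (h : F.Ok G T) (hM : F.IsM G M) (hD : D ∈ G.ocs (F.W0 M σ)) (hk : k ≤ M.n i)
    (hm : ¬ Disjoint (M.w i k) (G.vs D)) : M.w i k ∈ F.Bs ∧ (G.vs D ∩ M.w i k).card = 2 ∧
      ∀ f ∈ G.cut (M.w i k), f ∈ G.tch (F.rest M) → f ∈ D := by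
  obtain ⟨d1, d2, -⟩ := SG.mem_ocs.1 hD
  obtain ⟨a1, a2, -, a4⟩ := rung_on (σ := σ) h hM hk
    (disjoint_left.2 fun v hv => (MB4_W0.1 hv).2 i k hk) d1 d2.2.1 hm
  obtain ⟨c, d, hq⟩ := hM.q4 h (MB4_lf_nd a1)
  refine ⟨(MB4_lf_nd a1).2, ?_, fun f hf hr => ?_⟩
  · rw [← MB4_two h hM a1]
    exact congrArg card (Subset.antisymm ((inter_subset_inter_right (SG.ocs_vs hD).1).trans
      (W0_inter h hM hk).le) (subset_inter a2 sdiff_subset))
  · rw [hq.1] at hf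
    simp only [mem_insert, mem_singleton] at hf
    rcases hf with rfl | rfl | rfl | rfl
    exacts [absurd hr (hM.e_rest h.wf (by omega)), absurd hr (hM.e_rest h.wf (by omega)),
      (a4 _ _ hq).1, (a4 _ _ hq).2]

theorem C3_even (h : F.Ok G T) (hH : ¬ F.WinN G g) (hM : F.IsM G M) (hc : F.Cls G M σ)
    (hD : D ∈ G.ocs (F.W0 M σ)) : Even (G.vs D).card := by
  by_contra ho
  obtain ⟨p1, p2⟩ := par0 h hH hM hc
  obtain ⟨Ds, a1, a2⟩ := st_plain h hM hc (qs_real h hH hM hc)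
  have := a2 _ (SG.oddlen h.hc h.hT ((W0_sub h hM).2.trans h.hY) p1 hD
    (Nat.not_even_iff_odd.1 ho) a1)
  rw [p2, (show ∀ a b : ZMod 2, a + (b + a + 1 + 1) = b by decide)] at this
  exact hH this

omit [Fintype V] in
theorem C3_tch {p q : V} (hf : f ∈ G.A) (hj : G.Je f p q) (hp : p ∈ X) : f ∈ G.tch X := by
  refine SG.mem_tch.2 ⟨hf, ?_⟩
  rcases hj with ⟨rfl, -⟩ | ⟨-, rfl⟩
  exacts [Or.inl hp, Or.inr hp]

/-- an edge from the rest to a track -/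
theorem C3_hit {p q : V} (h : F.Ok G T) (hM : F.IsM G M) (hf : f ∈ G.A) (hj : G.Je f p q)
    (hp : p ∈ F.rest M) (hq : q ∉ F.rest M) (hz : F.z ∈ G.cut F.Y → f ≠ F.z) :
    ∃ j0, ∃ y ≤ M.n j0, f ∈ G.cut (M.w j0 y) ∧ G.oe (M.w j0 y) f = p := by
  have hY : q ∈ F.Y := by_contra fun k => by
    have := SG.LB_cut.2 ⟨hf, _, _, hj, (mem_rest.1 hp).1, k⟩
    rcases h.ct f this with a | a
    exacts [hM.j_rest h.wf a (C3_tch hf hj hp), hz (a ▸ this) a]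
  obtain ⟨j0, y, hy, hm⟩ : ∃ j0, ∃ y ≤ M.n j0, q ∈ M.w j0 y := by
    by_contra k
    exact hq (mem_rest.2 ⟨hY, fun i k' hk hm => k ⟨i, k', hk, hm⟩⟩)
  have hx := (mem_rest.1 hp).2 j0 y hy
  have hc := SG.LB_cut.2 ⟨hf, _, _, hj.symm, hm, hx⟩
  exact ⟨j0, y, hy, hc, (SG.eq_oe hc hx (hj.at_iff.2 (Or.inl rfl))).symm⟩

/-- components of the rest off the circuit are saturated -/
theorem C3_sa (h : F.Ok G T) (hM : F.IsM G M) (hF : ¬ G.FH (F.W0 M σ))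
    (hD : D ∈ G.ocs (F.W0 M σ)) (hn : ¬ G.vs D ⊆ F.rest M) (hv : v ∈ F.rest M \ G.vs D) :
    F.Sa (G.cmp (F.rest M \ G.vs D) v) := by
  obtain ⟨-, c2, c3, -⟩ := SG.cmp_spec (G := G) hv
  obtain ⟨w1, w2⟩ := W0_sub (σ := σ) h hM
  refine (sa_iff h.wf).2 fun B hB => ?_
  rcases hM.box h.wf hB with hr | ⟨i', k', nd, rfl⟩
  swap
  · exact Or.inr ((rest_disj nd.1).mono_right (c2.trans sdiff_subset))
  obtain ⟨-, b4, b5⟩ := SG.ocs_box h.hc h.hT (w2.trans h.hY) hF hD (hr.trans w1) (h.bx B hB).1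
  have b6 := subset_sdiff.2 ⟨hr, b5.resolve_left fun k => hn (k.le.trans hr)⟩
  by_contra hn
  rw [not_or] at hn
  obtain ⟨e, he⟩ := card_pos.1 (lt_of_lt_of_le two_pos (h.hT.f3 ((hr.trans w1).trans
    (w2.trans h.hY)) (h.bx B hB).1.1 (by omega) _ inter_subset_left
      (not_disjoint_iff_nonempty_inter.1 hn.2) fun k => hn.1 (inter_eq_left.1 k)))
  obtain ⟨a1, a2⟩ := SG.mem_crs.1 he
  refine notMem_empty e (c3 ▸ SG.mem_crs.2 ⟨SG.ins_mono b6 a1, fun k => a2 ?_⟩)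
  rw [mem_inter, mem_inter, k, and_iff_right (SG.mem_ins.1 a1).2.1,
    and_iff_right (SG.mem_ins.1 a1).2.2]

theorem pbr (h : F.Ok G T) (hH : ¬ F.WinN G g) (hM : F.IsM G M) (hc : F.Cls G M σ)
    (hD : D ∈ G.ocs (F.W0 M σ)) (hk : k ≤ M.n i) (hl : l ≤ M.n j) (hne : ¬ (j = i ∧ l = k))
    (m1 : ¬ Disjoint (M.w i k) (G.vs D)) (m2 : ¬ Disjoint (M.w j l) (G.vs D))
    (hq : G.Q4 (M.w i k) (F.e M i k) (F.e M i (k + 1)) c d)
    (l1 : G.Lkn U (M.w i k) c (M.w j l) c') (l2 : G.Lkn U' (M.w i k) d (M.w j l) d')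
    (s1 : U ⊆ F.rest M ∩ G.vs D) (s2 : U' ⊆ F.rest M ∩ G.vs D)
    (hs : G.vs D ⊆ M.w i k ∪ M.w j l ∪ U ∪ U') :
    ∃ p ∈ U ∪ U', ∃ e f U3 j0 y, y ≤ M.n j0 ∧ ¬ (j0 = i ∧ y = k) ∧ ¬ (j0 = j ∧ y = l) ∧
      G.Lkn U3 {p} e (M.w j0 y) f ∧ U3 ⊆ F.rest M \ G.vs D ∧ F.Sa U3 ∧ (e = f → U3 = ∅) := by
  have hF := (par0 h hH hM hc).1
  obtain ⟨w1, w2⟩ := W0_sub (σ := σ) h hM
  obtain ⟨n1, n2, n3⟩ := C3_on h hM hD hk m1
  obtain ⟨n4, n5, n6⟩ := C3_on h hM hD hl m2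
  have s3 : U ∪ U' ⊆ F.rest M ∩ G.vs D := union_subset s1 s2
  have h1 : 1 < (U ∪ U').card := by
    have e : G.vs D = G.vs D ∩ M.w i k ∪ G.vs D ∩ M.w j l ∪ (U ∪ U') :=
      Subset.antisymm (fun v hv => by
        have := hs hv
        simp only [mem_union, mem_inter] at this ⊢
        (clear * - hne hv this; grind)) (union_subset (union_subset inter_subset_left inter_subset_left)
          (s3.trans inter_subset_right))
    have e1 := congrArg card e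
    rw [card_union_of_disjoint (disjoint_union_left.2
      ⟨(rest_disj hk).mono inter_subset_right (s3.trans inter_subset_left),
        (rest_disj hl).mono inter_subset_right (s3.trans inter_subset_left)⟩),
      card_union_of_disjoint ((hM.disj h.wf hk hl hne).mono inter_subset_right inter_subset_right),
      n2, n5] at e1
    have e2 : (U ∪ U').card ≠ 0 := fun e2 => by
      obtain ⟨rfl, rfl⟩ := union_eq_empty.1 (card_eq_zero.1 e2)
      obtain rfl := l1.2.2.2.resolve_right fun k => notMem_empty _ k.1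
      obtain rfl := l2.2.2.2.resolve_right fun k => notMem_empty _ k.1
      exact C3_two h n1 n4 (fun k => hne (hM.inj hk hl k)) hq.2.2.2.2.2.2 l1.1 l1.2.1 l2.1 l2.2.1
    obtain ⟨r, hr⟩ := C3_even h hH hM hc hD
    omega
  obtain ⟨q0, hq0⟩ : ∃ q0, ∀ q ∈ G.vs D, q ≠ q0 → F.z ∈ G.cut F.Y →
      F.z ∉ G.tch (G.lb (F.W0 M σ) D q) := by
    by_cases hz : F.z ∈ G.ins (F.W0 M σ)
    · exact ⟨F.v0, fun _ _ _ k => absurd (iff_of_true (w2 (SG.mem_ins.1 hz).2.1)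
        (w2 (SG.mem_ins.1 hz).2.2)) (SG.mem_cut.1 k).2⟩
    · obtain ⟨q0, -, a⟩ := SG.root_ex hF hD hz
      exact ⟨q0, fun q hq hn _ => a q hq hn⟩
  obtain ⟨p, hp, hp0⟩ := exists_mem_ne h1 q0
  obtain ⟨pr, pD⟩ := mem_inter.1 (s3 hp)
  obtain ⟨e, e1, e2, e3, e4, -⟩ := SG.lb_br h.hc h.hT (w2.trans h.hY) hF hD pD
  have eA := (SG.mem_cut.1 e1).1
  have je : G.Je e p (G.oe {p} e) := by
    have := SG.je_ie_oe (G := G) (X := {p}) (e := e)
    rwa [mem_singleton.1 (SG.ie_mem (SG.cut_sub_tch e1))] at this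
  have key : ∀ f ∈ G.A, f ∉ D → ∀ x' y', G.Je f x' y' → x' ∈ F.rest M →
      x' ∈ G.lb (F.W0 M σ) D p → y' ∉ F.rest M → ∃ j0 y, y ≤ M.n j0 ∧ ¬ (j0 = i ∧ y = k) ∧
        ¬ (j0 = j ∧ y = l) ∧ f ∈ G.cut (M.w j0 y) ∧ G.oe (M.w j0 y) f = x' := by
    intro f fA fD x' y' hj a1 a2 a3
    obtain ⟨j0, y, b1, b2, b3⟩ := C3_hit h hM fA hj a1 a3
      fun k k' => hq0 p pD hp0 k (k' ▸ C3_tch fA hj a2)
    refine ⟨j0, y, b1, ?_, ?_, b2, b3⟩ <;> rintro ⟨rfl, rfl⟩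
    exacts [fD (n3 f b2 (C3_tch fA hj a1)), fD (n6 f b2 (C3_tch fA hj a1))]
  by_cases ho : G.oe {p} e ∈ F.rest M
  swap
  · obtain ⟨j0, y, a1, a2, a3, a4, -⟩ := key e eA e2 _ _ je pr (SG.lb_self hD pD).1 ho
    exact ⟨p, hp, e, e, ∅, j0, y, a1, a2, a3, ⟨e1, a4, fun a ha => absurd ha (notMem_empty a),
      Or.inl rfl⟩, empty_subset _, fun a ha => absurd ha (notMem_empty a), fun _ => rfl⟩
  have oZ : G.oe {p} e ∈ F.rest M \ G.vs D := mem_sdiff.2 ⟨ho, fun k => by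
    obtain ⟨-, a1, a2⟩ := SG.mem_ins.1 (SG.Cut_je_ins eA je pD k)
    exact (SG.mem_cut.1 e3).2 (iff_of_true a1 a2)⟩
  obtain ⟨c1, c2, -, c4⟩ := SG.cmp_spec (G := G) oZ
  obtain ⟨f, f1, f2⟩ := exists_mem_ne (lt_of_lt_of_le (by norm_num) (h.hT.mono3
    (c2.trans (sdiff_subset.trans (w1.trans (w2.trans h.hY)))) ⟨_, c1⟩)) e
  obtain ⟨fA, x', y', hj, hx, hy⟩ := SG.LB_cut.1 f1
  obtain ⟨x1, x2⟩ := mem_sdiff.1 (c2 hx)
  have fD : f ∉ D := fun k => x2 (SG.mem_vs.2 ⟨f, k, hj.at_iff.2 (Or.inl rfl)⟩)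
  have x3 : G.Rch (G.ins (F.W0 M σ) \ D) p x' :=
    ((SG.mem_cmp.1 hx).2.mono fun a ha => mem_sdiff.2 ⟨SG.ins_mono (sdiff_subset.trans w1) ha,
      fun k => (mem_sdiff.1 (SG.mem_ins.1 ha).2.1).2 (SG.s_mem_vs k)⟩).head
      ⟨e, mem_sdiff.2 ⟨SG.Cut_je_ins eA je (w1 pr) (w1 ho), e2⟩, je⟩
  have y1 : y' ∉ F.rest M := fun k => by
    by_cases k' : y' ∈ G.vs D
    · obtain rfl := SG.LB_eq hF hD pD k'
        (x3.tail ⟨f, mem_sdiff.2 ⟨SG.Cut_je_ins fA hj (w1 x1) (w1 k), fD⟩, hj⟩)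
      exact (e4 f (SG.LB_cut.2 ⟨fA, _, _, hj.symm, mem_singleton_self _,
        fun a => x2 (mem_singleton.1 a ▸ pD)⟩)).elim fD f2
    · exact hy (SG.mem_cmp.2 ⟨mem_sdiff.2 ⟨k, k'⟩, (SG.mem_cmp.1 hx).2.tail
        ⟨f, SG.Cut_je_ins fA hj (c2 hx) (mem_sdiff.2 ⟨k, k'⟩), hj⟩⟩)
  obtain ⟨j0, y, a1, a2, a3, a4, a5⟩ := key f fA fD _ _ hj x1 (SG.mem_lb.2 ⟨w1 x1, x3⟩) y1
  exact ⟨p, hp, e, f, _, j0, y, a1, a2, a3, ⟨e1, a4, c4, Or.inr ⟨c1, a5 ▸ hx⟩⟩, c2,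
    C3_sa h hM hF hD (fun k => m1 ((rest_disj hk).mono_right k)) oZ, fun k => absurd k.symm f2⟩

/-- joining two links at a vertex of the connecting set -/
theorem lkn_cat {U3 N3 : Finset V} {p : V} (l1 : G.Lkn U N a N' b) (hab : a ≠ b) (hp : p ∈ U)
    (l2 : G.Lkn U3 {p} e N3 f) (hef : e = f → U3 = ∅) (hd : p ∉ N3) :
    G.Lkn (U ∪ U3) N a N3 f := by
  obtain ⟨a1, -, a3, a4⟩ := l1
  obtain ⟨b1, b2, b3, b4⟩ := l2
  have a5 := (a4.resolve_left hab).1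
  have pe : G.At e p := by
    have := SG.ie_mem (SG.cut_sub_tch b1)
    rw [mem_singleton] at this
    exact this ▸ SG.ie_at
  by_cases hh : e = f
  · rw [hef hh, union_empty]
    refine ⟨a1, b2, a3, Or.inr ⟨a5, ?_⟩⟩
    rw [← SG.eq_oe b2 hd (hh ▸ pe)]
    exact hp
  · obtain ⟨b5, b6⟩ := b4.resolve_left hh
    refine ⟨a1, b2, SG.cn_of_base (a := p) fun v hv => ?_,
      Or.inr ⟨mem_union_left _ a5, mem_union_right _ b6⟩⟩
    have mo : ∀ {X : Finset V}, X ⊆ U ∪ U3 → G.ins X ⊆ G.ins (U ∪ U3) := fun hX e he =>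
      SG.mem_ins.2 ⟨(SG.mem_ins.1 he).1, hX (SG.mem_ins.1 he).2.1, hX (SG.mem_ins.1 he).2.2⟩
    rcases mem_union.1 hv with hv | hv
    · exact (a3 p hp v hv).mono (mo subset_union_left)
    · have hj : G.Je e p (G.oe {p} e) := by
        have := SG.je_ie_oe (G := G) (X := {p}) (e := e)
        rwa [← SG.eq_ie b1 (mem_singleton_self _) pe] at this
      exact (SG.rch_at (C3_nb_ins (SG.mem_cut.1 b1).1 hj (mem_union_left _ hp)
        (mem_union_right _ b5)) pe SG.oe_at).trans ((b3 _ b5 v hv).mono (mo subset_union_right))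

/-- a circuit without one edge is a path -/
theorem C3_open {p q : V} (hc : G.Cub) (hA : D ⊆ G.A) (cD : G.Cc D)
    (hl : ∀ f ∈ D, G.s f ≠ G.t f) (hr : r ∈ D) (hj : G.Je r p q) :
    ∃ n w z, G.Pth D n w z ∧ w 0 = p ∧ w n = q ∧ pv n w = G.vs D ∧ pe n z = D.erase r := by
  obtain ⟨n, w, z, hp, h0, h1, -⟩ := cD.cyc hc hA hl hr (hj.at_iff.2 (Or.inr rfl))
  have hn := hp.pos
  have h2 : w 1 = p := by
    have k := hp.pth.jn 0 hn
    rw [h1] at k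
    rcases hj.at_iff.1 (k.at_iff.2 (Or.inr rfl)) with k1 | k1
    · exact k1
    · exact absurd (hp.pth.inj 1 hn 0 (Nat.zero_le _) (k1.trans h0.symm)) one_ne_zero
  have hq := hp.rot hn
  have e0 : (1 + 0) % (n + 1) = 1 := Nat.mod_eq_of_lt (by omega)
  have e1 : (1 + n) % (n + 1) = 0 := by rw [add_comm, Nat.mod_self]
  have e2 := cD.min hc hA hq.cc.2.2.1 hq.cc.1.2.1 hq.cc.1.1
  refine ⟨n, _, _, hq.pth, by simp only [e0, h2], by simp only [e1, h0], ?_, ?_⟩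
  · rw [← hq.cc.2.1, e2]
  · ext f
    rw [mem_erase, ← e2, mem_pe, mem_pe]
    constructor
    · rintro ⟨i, hi, rfl⟩
      refine ⟨fun k => ?_, i, by omega, rfl⟩
      have := hq.einj hi.le le_rfl (by simp only [e1, h1]; exact k)
      omega
    · rintro ⟨k, i, hi, rfl⟩
      refine ⟨i, lt_of_le_of_ne (by omega) ?_, rfl⟩
      rintro rfl
      exact k (by simp only [e1, h1])

/-- a path is passed by a permutation -/
theorem C3_seg {n : ℕ} {w : ℕ → V} {z : ℕ → E} (hp : G.Pth D n w z) (hA : D ⊆ G.A)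
    (ha : a ∈ G.cut (pv n w)) (hb : b ∈ G.cut (pv n w)) (h0 : G.At a (w 0)) (h1 : G.At b (w n))
    (hab : a ≠ b) :
    G.Pas0 (pv n w) (insert a (insert b (pe n z))) a b L ∅ fun R => ∃ τ, R.P τ := by
  obtain ⟨p, hp', -⟩ := hp.pot
  have k := hp.pp hA
  rw [SG.eq_ie ha (mem_pv.2 ⟨0, Nat.zero_le _, rfl⟩) h0,
    SG.eq_ie hb (mem_pv.2 ⟨n, le_rfl, rfl⟩) h1] at k
  exact (SG.pure_p k ha hb hab hp').imp fun _ h => ⟨_, h⟩

/-- two permutations around a cross -/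
theorem C3_three {Y X0 X1 X2 : Finset V} {O0 O1 O2 : Finset E} {K : Set (Finset E)}
    (s0 : X0 ⊆ Y) (s1 : X1 ⊆ Y) (s2 : X2 ⊆ Y) (d01 : Disjoint X0 X1) (d02 : Disjoint X0 X2)
    (d12 : Disjoint X1 X2) (hL : L ⊆ G.cut Y)
    (p0 : G.Pas0 X0 O0 a c L ∅ fun R => ∃ τ, R.P τ) (p1 : G.Pas0 X1 O1 c d L K Rl.Cs)
    (p2 : G.Pas0 X2 O2 d b L ∅ fun R => ∃ τ, R.P τ) (ha : a ∈ G.cut Y) (hb : b ∈ G.cut Y)
    (hab : a ≠ b) : G.Pas0 (X0 ∪ X1 ∪ X2) (O0 ∪ O1 ∪ O2) a b L K Rl.Cs := by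
  have run := (SG.run_pas (n := 2) (Y := Y) (L := L)
    (X := fun i => match i with | 0 => X0 | 1 => X1 | _ => X2)
    (O := fun i => match i with | 0 => O0 | 1 => O1 | _ => O2)
    (e := fun i => match i with | 0 => a | 1 => c | 2 => d | _ => b)
    (K := fun i => match i with | 1 => K | _ => ∅)
    (C := fun i => match i with | 1 => Rl.Cs | _ => fun R => ∃ τ, R.P τ) (C0 := Rl.Cs)
    (fun i hi => by interval_cases i <;> assumption)
    (fun i hi j hj hij => by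
      interval_cases i <;> interval_cases j <;>
        first | exact absurd rfl hij | assumption | (apply Disjoint.symm; assumption))
    hL (fun i hi => by interval_cases i <;> assumption) ha hb hab
    fun Rs h => Rl.ch_cs (j := 1) (by omega)
      (fun i hi h1 => by
        have := h i hi
        interval_cases i
        exacts [this, absurd rfl h1, this]) (h 1 (by omega))).1
  rw [Run_bu_succ, Run_bu_succ, Run_bu_zero, Run_bu_succ, Run_bu_succ,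
    Run_bu_zero] at run
  exact run.cov fun t ht => Or.inl ⟨t, ⟨1, by omega, ht⟩, Subset.rfl⟩

theorem path_cs (hc : G.Cub) (hT : G.HT T) (hW : W ⊆ T) (hD : D ⊆ G.ins W) (cD : G.Cc D)
    (hρ : G.Rdy W ∅ ρ) (hm : ¬ Disjoint ρ (G.vs D)) (hr : r ∈ D) (hr' : r ∉ G.tch ρ)
    (ha : a ∈ G.cut (G.vs D)) (hb : b ∈ G.cut (G.vs D))
    (hj : G.Je r (G.ie (G.vs D) a) (G.ie (G.vs D) b))
    (hL : L = G.cut ρ ∩ G.cut W) :
    G.Pas0 (G.vs D) (insert a (insert b (D.erase r))) a b L {G.tg W ρ} Rl.Cs := by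
  have hA : D ⊆ G.A := hD.trans SG.ins_sub_A
  have hV : G.vs D ⊆ W := (SG.sub_ins_iff.1 hD).2
  have hl : ∀ f ∈ D, G.s f ≠ G.t f := fun f hf =>
    hT.noloop hc (SG.tch_mono hW (SG.ins_sub_tch (hD hf)))
  obtain ⟨n, w, z, hp, h0, h1, ev, ee⟩ := C3_open hc hA cD hl hr hj
  obtain ⟨k1, k2, -⟩ := hρ.on_even hc hT hW hD cD.2.1 hm
  obtain ⟨p, q, μ, -, -, -, -, -, e1, e2, e3, -⟩ := hρ.str hc hT hW
  have m1 : μ ∈ G.ins ρ := e2 ▸ mem_singleton_self μ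
  obtain ⟨i, hi, rfl⟩ : ∃ i < n, z i = μ := mem_pe.1 (ee ▸ mem_erase.2
    ⟨fun k => hr' (k ▸ SG.ins_sub_tch m1), k2 m1⟩)
  have mρ : ∀ t, t ∈ ρ ↔ t = w i ∨ t = w (i + 1) := fun t => by
    rw [← (hp.jn i hi).at_iff, e3.at_iff, e1, mem_insert, mem_singleton]
  have n0 : w 0 ∉ ρ := fun k =>
    hr' (SG.Cut_tch (hA hr) (hj.at_iff.2 (Or.inl h0)) k)
  have n1 : w n ∉ ρ := fun k =>
    hr' (SG.Cut_tch (hA hr) (hj.at_iff.2 (Or.inr h1)) k)
  obtain ⟨j, rfl⟩ : ∃ j, i = j + 1 := by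
    rcases i with _ | j
    exacts [absurd ((mρ _).2 (Or.inl rfl)) n0, ⟨j, rfl⟩]
  obtain ⟨k, rfl⟩ : ∃ k, n = j + 3 + k := by
    refine ⟨n - (j + 3), ?_⟩
    have : j + 1 + 1 ≠ n := fun e => n1 ((mρ _).2 (Or.inr (by rw [e])))
    omega
  have q0 : G.Pth D j w z := SG.Pth_init hp (by omega)
  have q2 : G.Pth D k (fun l => w (j + 3 + l)) fun l => z (j + 3 + l) := hp.sub le_rfl
  have t0 : ∀ l ≤ j + 3 + k, w l ∈ pv j w ↔ l ≤ j := fun l hl => by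
    rw [mem_pv]
    exact ⟨fun ⟨l', a1, a2⟩ => hp.inj l' (by omega) l hl a2 ▸ a1, fun a1 => ⟨l, a1, rfl⟩⟩
  have t1 : ∀ l ≤ j + 3 + k, w l ∈ ρ ↔ l = j + 1 ∨ l = j + 2 := fun l hl => by
    rw [mρ]
    exact ⟨fun a1 => a1.imp (hp.inj l hl _ (by omega)) (hp.inj l hl _ (by omega)),
      fun a1 => a1.imp (congrArg w) (congrArg w)⟩
  have t2 : ∀ l ≤ j + 3 + k, w l ∈ pv k (fun l => w (j + 3 + l)) ↔ j + 3 ≤ l := fun l hl => by
    rw [mem_pv]
    refine ⟨fun ⟨l', a1, a2⟩ => ?_, fun a1 => ⟨l - (j + 3), by omega, congrArg w (by omega)⟩⟩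
    have := hp.inj _ (by omega) l hl a2
    omega
  have s0 : pv j w ⊆ G.vs D := fun t ht => by
    obtain ⟨l, a1, rfl⟩ := mem_pv.1 ht
    exact ev ▸ mem_pv.2 ⟨l, by omega, rfl⟩
  have s2 : pv k (fun l => w (j + 3 + l)) ⊆ G.vs D := fun t ht => by
    obtain ⟨l, a1, rfl⟩ := mem_pv.1 ht
    exact ev ▸ mem_pv.2 ⟨j + 3 + l, by omega, rfl⟩
  have idx : ∀ t ∈ G.vs D, ∃ l ≤ j + 3 + k, w l = t := fun t ht => mem_pv.1 (ev ▸ ht)
  have c1 := hp.mem j (by omega)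
  have c2 := hp.mem (j + 2) (by omega)
  have j1 := hp.jn j (by omega)
  have j2 := hp.jn (j + 2) (by omega)
  have nc : ∀ f ∈ G.cut (G.vs D), ∀ f' ∈ D, f ≠ f' := fun f a1 f' a2 e =>
    SG.not_ins_of_cut a1 (e ▸ SG.sub_ins_vs hA a2)
  have aa : G.At a (w 0) := h0 ▸ SG.ie_at
  have ab : G.At b (w (j + 3 + k)) := h1 ▸ SG.ie_at
  have hab : a ≠ b := by
    rintro rfl
    have := hp.inj 0 (by omega) _ le_rfl (h0.trans h1.symm)
    omega
  have p0 := C3_seg (L := L) q0 hA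
    (SG.cut_of_sub s0 ha (SG.Cut_tch (SG.mem_cut.1 ha).1 aa ((t0 0 (by omega)).2 (by omega)))).1
    (SG.Node_cut (hA c1) j1 ((t0 j (by omega)).2 le_rfl)
      fun e => absurd ((t0 _ (by omega)).1 e) (by omega)).1
    aa (j1.at_iff.2 (Or.inl rfl)) (nc a ha _ c1)
  have p1 := SG.rung_cs (L := L) hc hT hW hρ
    (mem_inter.2 ⟨(SG.Node_cut (hA c1) j1.symm ((t1 _ (by omega)).2 (Or.inl rfl))
      fun e => absurd ((t1 _ (by omega)).1 e) (by omega)).1, hD c1⟩)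
    (mem_inter.2 ⟨(SG.Node_cut (hA c2) j2 ((t1 _ (by omega)).2 (Or.inr rfl))
      fun e => absurd ((t1 _ (by omega)).1 e) (by omega)).1, hD c2⟩)
    (fun e => absurd (hp.einj (by omega) (by omega) e) (by omega))
    fun f a1 a2 => hL ▸ mem_inter.2 ⟨a1, a2⟩
  have p2 := C3_seg (L := L) q2 hA
    (SG.Node_cut (hA c2) j2.symm ((t2 _ (by omega)).2 le_rfl)
      fun e => absurd ((t2 _ (by omega)).1 e) (by omega)).1
    (SG.cut_of_sub s2 hb (SG.Cut_tch (SG.mem_cut.1 hb).1 ab ((t2 _ le_rfl).2 (by omega)))).1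
    (j2.at_iff.2 (Or.inr rfl)) ab (nc b hb _ c2).symm
  have run := C3_three s0 k1 s2
    (disjoint_left.2 fun t a1 a2 => by
      obtain ⟨l, hl, rfl⟩ := idx t (s0 a1)
      have := (t0 l hl).1 a1
      have := (t1 l hl).1 a2
      omega)
    (disjoint_left.2 fun t a1 a2 => by
      obtain ⟨l, hl, rfl⟩ := idx t (s0 a1)
      have := (t0 l hl).1 a1
      have := (t2 l hl).1 a2
      omega)
    (disjoint_left.2 fun t a1 a2 => by
      obtain ⟨l, hl, rfl⟩ := idx t (k1 a1)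
      have := (t1 l hl).1 a1
      have := (t2 l hl).1 a2
      omega)
    (fun f hf => by
      obtain ⟨a1, a2⟩ := mem_inter.1 (hL ▸ hf : f ∈ G.cut ρ ∩ G.cut W)
      exact (SG.cut_of_sub hV a2 (SG.tch_mono k1 (SG.cut_sub_tch a1))).1)
    p0 p1 p2 ha hb hab
  have f1 : pv j w ∪ ρ ∪ pv k (fun l => w (j + 3 + l)) = G.vs D := by
    refine (union_subset (union_subset s0 k1) s2).antisymm fun t ht => ?_
    obtain ⟨l, hl, rfl⟩ := idx t ht
    rw [mem_union, mem_union, t0 l hl, t1 l hl, t2 l hl]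
    omega
  have f2 : insert a (insert (z j) (pe j z)) ∪ insert (z j) (insert (z (j + 2)) (G.ins ρ)) ∪
      insert (z (j + 2)) (insert b (pe k fun l => z (j + 3 + l))) =
      insert a (insert b (D.erase r)) := by
    ext f
    simp only [← ee, e2, mem_union, mem_insert, mem_singleton, mem_pe]
    constructor
    · rintro (((e | e | ⟨l, hl, e⟩) | e | e | e) | e | e | ⟨l, hl, e⟩)
      · exact Or.inl e
      · exact Or.inr (Or.inr ⟨j, by omega, e.symm⟩)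
      · exact Or.inr (Or.inr ⟨l, by omega, e⟩)
      · exact Or.inr (Or.inr ⟨j, by omega, e.symm⟩)
      · exact Or.inr (Or.inr ⟨j + 2, by omega, e.symm⟩)
      · exact Or.inr (Or.inr ⟨j + 1, by omega, e.symm⟩)
      · exact Or.inr (Or.inr ⟨j + 2, by omega, e.symm⟩)
      · exact Or.inr (Or.inl e)
      · exact Or.inr (Or.inr ⟨j + 3 + l, by omega, e⟩)
    · rintro (e | e | ⟨l, hl, e⟩)
      · exact Or.inl (Or.inl (Or.inl e))
      · exact Or.inr (Or.inr (Or.inl e))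
      · obtain a1 | rfl | rfl | rfl | a1 :
            l < j ∨ l = j ∨ l = j + 1 ∨ l = j + 2 ∨ j + 3 ≤ l := by omega
        · exact Or.inl (Or.inl (Or.inr (Or.inr ⟨l, a1, e⟩)))
        · exact Or.inl (Or.inl (Or.inr (Or.inl e.symm)))
        · exact Or.inl (Or.inr (Or.inr (Or.inr e.symm)))
        · exact Or.inr (Or.inl e.symm)
        · exact Or.inr (Or.inr (Or.inr ⟨l - (j + 3), by omega,
            (congrArg z (by omega)).trans e⟩))
  rwa [f1, f2] at run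

end Kf

end Pool.Agent.Work.MP_8c679b_co
end

-- merged part: Pool.Agent.Work.MP_8c679b_co.Key.C4
section
/-!
An odd circuit through two rungs of one ring.

Hints.  `rg_gn`: `Tl`, `gn_of`, `rg_tp`, `lf_four`.  `rg_bead`: `Bd.swap`, `Bd.ps`, `rr_oc`, `ggs`.
`cross_lo`, `cross_hi`: the end edge of the ear is `c` or `d` (it touches the rest or a third
position, `IsM.e_rest`, `IsM.e_tch`); `lf_str`, `cross_nc`, `gn_nc`, `Ear.lo/mid/hi`.
`rg_ear`: let `M1` be the rerouted member (`ear_of_lkn`, `Lkn.symm` if `y < k`).  By `gg3` the ring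
of `M` has only the two nodes.  In `M1` both nodes have good passes (`cross_lo`, `cross_hi`,
`Ear.ps`); `cls_or` with the node at `(i, k)` gives closing signs `σ1` with the same `W0` as `σ`
(`fl_aj`); `gg3` for `M1`: the ear has no inner box.  If the ear meets an odd circuit `D2 ≠ D` of
`W0` (only in the first case; `D2` lies in the rest and avoids boxes), `alt` gives two ears of
different signs with the same end edges, against `ggs` (`Ear.sl`).  So `nu_drop` applies to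
`W0 \ (inn ∪ w x ∪ w y)`, and `Ear.W0`, `par0`, `new_cc` give an odd circuit `D'` that meets the
gap.  `Tl` holds for `M1, σ1`, `lc` is smaller, so `D'` lies in `(rest \ inn) ∪ gap`; `bead_of`
with `Z = rest \ inn`, `rg_bead`.
-/

set_option autoImplicit false

namespace Pool.Agent.Work.MP_8c679b_co

open Finset

variable {V E : Type} [Fintype V] [DecidableEq V] [DecidableEq E] {G : SG V E}
  {T U Z X B N N' : Finset V} {F : Kf V E} {M M' : Mb V E} {i j : Bool} {k l x y m : ℕ}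
  {σ σ' π : Finset V → ZMod 2} {u : ℕ → Finset V} {h : ℕ → E} {a b c d e f : E} {v : V}
  {Zs : Finset (Finset V)} {g s : ZMod 2}
  {D L : Finset E} {U' W ρ : Finset V} {c' d' r : E} {π1 π2 : ZMod 2}
  {a' b' : E} {α β : ℕ}

namespace Kf

theorem rg_gn (h : F.Ok G T) (hH : ¬ F.WinN G g) (hM : F.IsM G M) (hc : F.Cls G M σ)
    (ht : F.Tl M σ) (hs : F.Sg i j) (hk : k ≤ M.n i) (hl : l ≤ M.n j) (hne : ¬ (j = i ∧ l = k))
    (hD : D ∈ G.ocs (F.W0 M σ)) (m1 : ¬ Disjoint (M.w i k) (G.vs D))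
    (m2 : ¬ Disjoint (M.w j l) (G.vs D)) :
    F.Lf M σ i k ∧ F.Aj M i k ∧ (M.w i k).card ≠ 4 ∧
      ∃ π1, F.GN G (M.w i k) (F.e M i k) (F.e M i (k + 1)) π1 := by
  obtain ⟨d1, d2, -⟩ := SG.mem_ocs.1 hD
  have key : ∀ {i k}, k ≤ M.n i → ¬ Disjoint (M.w i k) (G.vs D) → F.Lf M σ i k := fun hk m =>
    (rung_on h hM hk (disjoint_left.2 fun _ r => (MB4_W0.1 r).2 _ _ hk) d1 d2.2.1 m).1
  have l1 := key hk m1
  have l2 := key hl m2
  have aj := ht i k j l hs l1 l2 hne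
  obtain ⟨c, d, hq⟩ := hM.q4 h (MB4_lf_nd l1)
  exact ⟨l1, aj, lf_four h hM l1 aj, (gn_of h hH hM hc l1 aj hs (MB4_lf_nd l2) hne hq).resolve_right
    fun r => m1 (rg_tp h hH hM hc (MB4_lf_nd l1) hq r hD)⟩

theorem rg_bead {j' : Bool} (hF : F.Ok G T) (hH : ¬ F.WinN G g) (hM : F.IsM G M)
    (ho : F.Oc G M σ i) (hs : F.Sg i j) (hs' : F.Sg i j') (hk : k ≤ M.n j) (hl : l ≤ M.n j')
    (hne : ¬ (j' = j ∧ l = k)) (g1 : F.GN G (M.w j k) (F.e M j k) (F.e M j (k + 1)) π1)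
    (g2 : F.GN G (M.w j' l) (F.e M j' l) (F.e M j' (l + 1)) π2)
    (hb : F.Bd G M i x y Z α β m u h) : False := by
  have oc : ∀ M' : Mb V E, F.Oc G M' σ i → F.Oc G M' σ j := fun M' r => by
    rcases hs with t | rfl
    exacts [fun t' => absurd (t.symm.trans t') (by decide), r]
  have gs : ∀ M' : Mb V E, F.gs G M' j = F.gs G M' i := fun M' => by
    rcases hs with t | rfl
    · simp only [Kf.gs, if_pos t]
    · rfl
  have k1 := ggs hF hH hM (hb.ear.isM hF.wf hM) (oc _ ho) (oc _ (rr_oc ho)) (hs.symm.trans hs')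
    ⟨k, hk, rfl, rfl, rfl⟩ ⟨l, hl, rfl, rfl, rfl⟩ (hb.ps hM hk (Or.inr (Or.inr (Or.inr g1.1))))
    (hb.ps hM hl (Or.inr (Or.inr (Or.inr g2.1)))) (fun r => hne (hM.inj hk hl r)) g1 g2
  rw [gs, gs, (hb.swap (σ := σ) (Zs := ∅) hF hM).2.2.2.2] at k1
  exact one_ne_zero (add_eq_left.1 k1)

theorem cross_lo (hF : F.Ok G T) (hM : F.IsM G M) (hE : F.Ear G M i x y m u h)
    (he : h 0 ≠ F.e M i (x + 1)) (h1 : F.Lf M σ i x) (h4 : (M.w i x).card ≠ 4) :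
    (M.rr i x y m u h).w i x = M.w i x ∧ F.e (M.rr i x y m u h) i x = F.e M i x ∧
      F.e (M.rr i x y m u h) i (x + 1) = h 0 ∧ (∀ s, F.xf (M.w i x) (F.e M i x) (h 0) s = M.w i x) ∧
      ∃ π1, F.GN G (M.w i x) (F.e M i x) (h 0) π1 := by
  obtain ⟨w1, w2⟩ := hE.lo (le_refl x)
  have w3 : F.e (M.rr i x y m u h) i (x + 1) = h 0 := hE.mid.2 0 (hE.pos hF.wf hM).1
  refine ⟨w1, w2, w3, ?_⟩
  obtain ⟨-, t1, t2⟩ := ((hE.isM hF.wf hM).trk hF.wf i).1.2.2 x (by rw [rr_n]; omega)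
  rw [w1, w3] at t1
  rw [w2, w3] at t2
  obtain ⟨nd, hl⟩ := lf_str hF hM h1
  obtain ⟨c, d, hq⟩ := hM.q4 hF nd
  obtain ⟨n1, n2, -⟩ := SG.cross_nc hF.hc hF.hT (MB4_nd hF nd).1 hq (hl c d hq).1 h4
  rw [hq.1] at t1
  simp only [mem_insert, mem_singleton] at t1
  rcases t1 with r | r | r | r
  · exact (t2 r.symm).elim
  · exact (he r).elim
  · rw [r]
    exact gn_nc hF nd.2 hq.mid n1 h4
  · rw [r]
    exact gn_nc hF nd.2 hq.swap2.mid n2 h4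

theorem cross_hi (hF : F.Ok G T) (hM : F.IsM G M) (hE : F.Ear G M i x y m u h)
    (he : h (m - 1) ≠ F.e M i y) (h1 : F.Lf M σ i y) (h4 : (M.w i y).card ≠ 4) :
    (M.rr i x y m u h).w i (x + m) = M.w i y ∧ F.e (M.rr i x y m u h) i (x + m) = h (m - 1) ∧
      F.e (M.rr i x y m u h) i (x + m + 1) = F.e M i (y + 1) ∧
      (∀ s, F.xf (M.w i y) (h (m - 1)) (F.e M i (y + 1)) s = M.w i y) ∧
      ∃ π1, F.GN G (M.w i y) (h (m - 1)) (F.e M i (y + 1)) π1 := by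
  obtain ⟨w1, w3⟩ := hE.hi hM (le_refl y) hE.le
  rw [Nat.sub_self, add_zero] at w1 w3
  have hm := (hE.pos hF.wf hM).1
  have w2 := hE.mid.2 (m - 1) (by omega)
  rw [show x + (m - 1) + 1 = x + m by omega] at w2
  refine ⟨w1, w2, w3, ?_⟩
  obtain ⟨t1, -, t2⟩ := ((hE.isM hF.wf hM).trk hF.wf i).1.2.2 (x + m) (by rw [rr_n]; omega)
  rw [w1, w2] at t1
  rw [w2, w3] at t2
  obtain ⟨nd, hl⟩ := lf_str hF hM h1
  obtain ⟨c, d, hq⟩ := hM.q4 hF nd
  obtain ⟨-, -, n1, n2⟩ := SG.cross_nc hF.hc hF.hT (MB4_nd hF nd).1 hq (hl c d hq).1 h4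
  rw [hq.1] at t1
  simp only [mem_insert, mem_singleton] at t1
  rcases t1 with r | r | r | r
  · exact (he r).elim
  · exact (t2 r).elim
  · rw [r]
    exact gn_nc hF nd.2 hq.flip.swap2.mid n1 h4
  · rw [r]
    exact gn_nc hF nd.2 hq.swap2.flip.swap2.mid n2 h4

/-- an end of the ear with a rung: a good pass that depends on the end edges only -/
theorem C4_end (hF : F.Ok G T) (hM : F.IsM G M) (hE : F.Ear G M i x y m u h)
    (e1 : h 0 ≠ F.e M i (x + 1)) (e2 : h (m - 1) ≠ F.e M i y) (hp : k = x ∨ k = y)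
    (h1 : F.Lf M σ i k) (h4 : (M.w i k).card ≠ 4) :
    ∃ a b π1, F.GN G (M.w i k) a b π1 ∧ ∀ m' u' h', F.Ear G M i x y m' u' h' → h' 0 = h 0 →
      h' (m' - 1) = h (m - 1) → F.Ps (M.rr i x y m' u' h') i (M.w i k) a b := by
  rcases hp with rfl | rfl
  · obtain ⟨-, -, -, -, π1, g1⟩ := cross_lo hF hM hE e1 h1 h4
    refine ⟨_, _, π1, g1, fun m' u' h' hE' a0 _ => ?_⟩
    obtain ⟨b1, b2, b3, -⟩ := cross_lo hF hM hE' (a0 ▸ e1) h1 h4
    exact ⟨k, by rw [rr_n]; omega, b1, b2, b3.trans a0⟩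
  · obtain ⟨-, -, -, -, π1, g1⟩ := cross_hi hF hM hE e2 h1 h4
    refine ⟨_, _, π1, g1, fun m' u' h' hE' _ a1 => ?_⟩
    obtain ⟨b1, b2, b3, -⟩ := cross_hi hF hM hE' (a1 ▸ e2) h1 h4
    exact ⟨x + m', by rw [rr_n]; omega, b1, b2.trans a1, b3⟩

theorem C4_aj (hM : F.IsM G M) (p1 : F.Ps M i N a b) (g1 : F.GN G N a b π1) (hl : l ≤ M.n j)
    (e : M.w j l = N) : F.Aj M j l := by
  obtain ⟨k, hk, rfl, rfl, rfl⟩ := p1
  obtain ⟨rfl, rfl⟩ := hM.inj hk hl e.symm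
  exact ⟨⟨hk, g1.1⟩, g1.2.1⟩

theorem C4_cls (hM : F.IsM G M) (ho : F.Oc G M σ i) (p1 : F.Ps M i N a b)
    (g1 : F.GN G N a b π1) : ∃ σ1, F.Cls G M σ1 ∧
      (∀ j, ∀ l ≤ M.n j, F.xs M σ1 j l = F.xs M σ j l) ∧ F.W0 M σ1 = F.W0 M σ ∧
      F.lc M σ1 = F.lc M σ := by
  obtain ⟨k, hk, e, -⟩ := id p1
  have ha := C4_aj hM p1 g1 hk e
  rcases cls_or hM ho ha.1 (Or.inr rfl) with c1 | c1
  · exact ⟨σ, c1, fun _ _ _ => rfl, rfl, rfl⟩
  · exact ⟨_, c1, fl_aj hM ha⟩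

/-- the ear has no inner box -/
theorem C4_inn (hF : F.Ok G T) (hH : ¬ F.WinN G g) (hM : F.IsM G M) (ho : F.Oc G M σ i)
    (hE : F.Ear G M i x y m u h) (hs : F.Sg i j) (hk : k ≤ M.n i) (hl : l ≤ M.n j)
    (p1 : F.Ps (M.rr i x y m u h) i (M.w i k) a b) (p2 : F.Ps (M.rr i x y m u h) j (M.w j l) a' b')
    (hne : M.w i k ≠ M.w j l) (g1 : F.GN G (M.w i k) a b π1) (g2 : F.GN G (M.w j l) a' b' π2) :
    ∀ t, 0 < t → t < m → u t ∉ F.Bs := by
  intro t t0 t1 hb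
  have hM1 := hE.isM hF.wf hM
  obtain ⟨σ1, c1, -⟩ := C4_cls hM1 (rr_oc ho) p1 g1
  have e := hE.mid.1 t t1.le
  have := gg3 hF hH hM1 c1 hs p1 p2 hne g1 g2 (l := x + t) (Or.inr rfl)
    ⟨by rw [rr_n]; omega, e ▸ hb⟩
  rw [e] at this
  exact this.elim (MB2_dif hF.wf hM hE t0 t1 hk) (MB2_dif hF.wf hM hE t0 t1 hl)

/-- a box that meets a position is the node of this position -/
theorem C4_box (hF : F.Ok G T) (hM : F.IsM G M) (hk : k ≤ M.n i) (hB : B ∈ F.Bs)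
    (h1 : v ∈ M.w i k) (h2 : v ∈ B) : M.w i k ∈ F.Bs := by
  refine (hM.node hF.wf hk).2.2.2.resolve_right ?_
  rintro ⟨z, -, e, hz⟩
  rw [e] at h1
  exact hz B hB (mem_singleton.1 h1 ▸ h2)

theorem C4_core (hF : F.Ok G T) (hH : ¬ F.WinN G g) (hM : F.IsM G M) (hc : F.Cls G M σ)
    (ht : F.Tl M σ)
    (hI : ∀ M' σ', F.IsM G M' → F.Cls G M' σ' → F.Tl M' σ' → F.lc M' σ' < F.lc M σ → F.Reg G M' σ')
    (hk : k ≤ M.n i) (hl : l ≤ M.n j) (hD : D ∈ G.ocs (F.W0 M σ))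
    (m1 : ¬ Disjoint (M.w i k) (G.vs D)) (m2 : ¬ Disjoint (M.w j l) (G.vs D))
    (hE : F.Ear G M i x y m u h) (e1 : h 0 ≠ F.e M i (x + 1)) (e2 : h (m - 1) ≠ F.e M i y)
    (hp : k = x ∨ k = y) (hcase : (F.ty = true ∧ j ≠ i) ∨
      (j = i ∧ (l = x ∨ l = y) ∧ l ≠ k ∧ inn m u ⊆ G.vs D)) : False := by
  have hs : F.Sg i j := hcase.elim (fun k => Or.inl k.1) fun k => Or.inr k.1.symm
  have hne : ¬ (j = i ∧ l = k) := fun k => hcase.elim (fun k' => k'.2 k.1) fun k' => k'.2.2.1 k.2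
  have nn : M.w i k ≠ M.w j l := fun e => hne (hM.inj hk hl e)
  have hx : x ≤ M.n i := hE.lt.le.trans hE.le
  obtain ⟨l1, -, f1, π1, g1⟩ := rg_gn hF hH hM hc ht hs hk hl hne hD m1 m2
  obtain ⟨l2, -, f2, π2, g2⟩ := rg_gn hF hH hM hc ht hs.symm hl hk
    (fun k => hne ⟨k.1.symm, k.2.symm⟩) hD m2 m1
  have two : ∀ j' l', F.Sg i j' → F.Nd M j' l' → (j' = i ∧ l' = k) ∨ (j' = j ∧ l' = l) :=
    fun j' l' s1 n1 => (gg3 hF hH hM hc hs ⟨k, hk, rfl, rfl, rfl⟩ ⟨l, hl, rfl, rfl, rfl⟩ nn g1 g2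
      s1 n1).imp (fun e => hM.inj hk n1.1 e.symm) fun e => hM.inj hl n1.1 e.symm
  have lf : ∀ t ≤ M.n i, M.w i t ∈ F.Bs → F.Lf M σ i t ∧ (M.w i t).card ≠ 4 := fun t t1 t2 => by
    rcases two i t (Or.inr rfl) ⟨t1, t2⟩ with ⟨-, rfl⟩ | ⟨rfl, rfl⟩
    · exact ⟨l1, f1⟩
    · exact ⟨l2, f2⟩
  have hg : ∀ t, x < t → t < y → M.w i t ∉ F.Bs := fun t t1 t2 t3 => by
    rcases two i t (Or.inr rfl) ⟨t2.le.trans hE.le, t3⟩ with ⟨-, rfl⟩ | ⟨rfl, rfl⟩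
    · omega
    · rcases hcase with k1 | k1
      · exact k1.2 rfl
      · omega
  obtain ⟨a, b, ρ1, G1, P1⟩ := C4_end hF hM hE e1 e2 hp l1 f1
  obtain ⟨a', b', ρ2, G2, P2⟩ : ∃ a b π1, F.GN G (M.w j l) a b π1 ∧ ∀ m' u' h',
      F.Ear G M i x y m' u' h' → h' 0 = h 0 → h' (m' - 1) = h (m - 1) →
        F.Ps (M.rr i x y m' u' h') j (M.w j l) a b := by
    rcases hcase with k1 | ⟨rfl, k1, -⟩
    · exact ⟨_, _, π2, g2, fun m' u' h' hE' _ _ => hE'.ps hM hl (Or.inl k1.2)⟩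
    · exact C4_end hF hM hE e1 e2 k1 l2 f2
  have p1 := P1 m u h hE rfl rfl
  have p2 := P2 m u h hE rfl rfl
  have hM1 := hE.isM hF.wf hM
  have hr := C4_inn hF hH hM (hc.oc i) hE hs hk hl p1 p2 nn G1 G2
  obtain ⟨σ1, c1, xs1, w1, lc1⟩ := C4_cls hM1 (rr_oc (hc.oc i)) p1 G1
  have nx : ¬ F.Lf (M.rr i x y m u h) σ i x := fun k1 => by
    have k2 := (MB4_lf_nd k1).2
    have k3 := (hE.lo le_rfl).1 ▸ k2
    obtain ⟨b1, b2, b3, b4, -⟩ := cross_lo hF hM hE e1 (lf x hx k3).1 (lf x hx k3).2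
    exact k1.2 (by rw [MB4_box k2, b1, b2, b3, b4])
  have ny : ¬ F.Lf (M.rr i x y m u h) σ i (x + m) := fun k1 => by
    have k2 := (MB4_lf_nd k1).2
    have k3 : M.w i y ∈ F.Bs := by
      rw [← hE.lst, ← hE.mid.1 m le_rfl]
      exact k2
    obtain ⟨b1, b2, b3, b4, -⟩ := cross_hi hF hM hE e2 (lf y hE.le k3).1 (lf y hE.le k3).2
    exact k1.2 (by rw [MB4_box k2, b1, b2, b3, b4])
  obtain ⟨w0, -, lc0⟩ := hE.W0 hF hM hr nx ny
  obtain ⟨fh, nu0⟩ := par0 hF hH hM hc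
  obtain ⟨fh1, nu1⟩ := par0 hF hH hM1 c1
  have on : ∀ D' ∈ G.ocs (F.W0 M σ), ∀ j', ∀ l' ≤ M.n j', ¬ Disjoint (M.w j' l') (G.vs D') →
      F.Lf M σ j' l' ∧ M.w j' l' \ F.xs M σ j' l' ⊆ G.vs D' := fun D' hD' j' l' k1 k2 => by
    have := rung_on hF hM k1 (W := F.W0 M σ) (σ := σ)
      (disjoint_left.2 fun v hv => (MB4_W0.1 hv).2 j' l' k1) (SG.mem_ocs.1 hD').1
      (SG.mem_ocs.1 hD').2.1.2.1 k2
    exact ⟨this.1, this.2.1⟩
  have off : ∀ D' ∈ G.ocs (F.W0 M σ), D' ≠ D → ∀ j', ∀ l' ≤ M.n j', F.Sg i j' →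
      Disjoint (M.w j' l') (G.vs D') := fun D' hD' ne j' l' k1 s1 => by
    by_contra k2
    obtain ⟨k3, k4⟩ := on D' hD' j' l' k1 k2
    have k5 : M.w j' l' \ F.xs M σ j' l' ⊆ G.vs D := by
      rcases two j' l' s1 (MB4_lf_nd k3) with ⟨rfl, rfl⟩ | ⟨rfl, rfl⟩
      · exact (on D hD _ _ k1 m1).2
      · exact (on D hD _ _ k1 m2).2
    obtain ⟨v, hv⟩ := card_pos.1 (MB4_two hF hM k3 ▸ two_pos)
    exact disjoint_left.1 (SG.ocs_disj hF.hc fh hD hD' ne) (k4 hv) (k5 hv)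
  have WT : F.W0 M σ ⊆ T := (W0_sub hF hM).2.trans hF.hY
  have offi : ∀ D' ∈ G.ocs (F.W0 M σ), D' ≠ D → Disjoint (inn m u) (G.vs D') := by
    intro D' hD' ne
    rcases hcase with ⟨ty, -⟩ | ⟨-, -, -, k1⟩
    swap
    · exact (SG.ocs_disj hF.hc fh hD hD' ne).symm.mono_left k1
    by_contra k1
    have all : ∀ j', ∀ l' ≤ M.n j', Disjoint (M.w j' l') (G.vs D') := fun j' l' k2 =>
      off D' hD' ne j' l' k2 (Or.inl ty)
    have sub : G.vs D' ⊆ F.rest M := fun v hv =>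
      ((mem_W0 hF hM).1 ((SG.ocs_vs hD').1 hv)).resolve_right fun ⟨j', l', k2, k3⟩ =>
        disjoint_left.1 (all j' l' k2) (mem_sdiff.1 k3).1 hv
    have bx : ∀ B ∈ F.Bs, Disjoint B (G.vs D') := fun B hB => by
      rcases hM.box hF.wf hB with k2 | ⟨j', l', k2, rfl⟩
      · refine (SG.ocs_box hF.hc hF.hT WT fh hD' (k2.trans (W0_sub hF hM).1)
          (hF.bx B hB).1).2.2.resolve_left fun e => k1 (disjoint_left.2 fun v hv hv' => ?_)
        obtain ⟨t, t0, t1, k3⟩ := mem_inn.1 hv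
        have e' := hE.mid.1 t t1.le
        exact hr t t0 t1 (e' ▸ C4_box hF hM1 (k := x + t) (by rw [rr_n]; omega) hB (e' ▸ k3)
          (e ▸ hv'))
      · exact all j' l' k2.1
    obtain ⟨m', u', h', q1, q2, q3, q4, q5, q6, -, -, q7⟩ := alt (σ := σ) hF hE.pth
      (hE.fst ▸ (hM.node hF.wf hx).1) (SG.ocs_mono (W0_sub hF hM).2 hD') bx (hE.fst ▸ all i x hx)
      (hE.lst ▸ all i y hE.le) k1 (G.par (pe m h) + 1)
    have hE' : F.Ear G M i x y m' u' h' :=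
      ⟨hE.lt, hE.le, q1, q2.trans hE.fst, q3.trans hE.lst, q6.trans (union_subset hE.sub sub)⟩
    have p1' := P1 m' u' h' hE' q4 q5
    have p2' := P2 m' u' h' hE' q4 q5
    have hr' := C4_inn hF hH hM (hc.oc i) hE' hs hk hl p1' p2' nn G1 G2
    rw [sum_eq_zero fun t ht => if_neg (hr' t (mem_Ioo.1 ht).1 (mem_Ioo.1 ht).2), add_zero] at q7
    have k2 := ggs hF hH hM1 (hE'.isM hF.wf hM) (rr_oc (hc.oc i)) (rr_oc (hc.oc i)) hs p1 p2 p1'
      p2' nn G1 G2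
    obtain ⟨s1, s2⟩ := hE.sl hM
    obtain ⟨s3, s4⟩ := hE'.sl hM
    rw [q7, ← add_assoc, ← s1] at s3
    rw [← s2] at s4
    simp only [Kf.gs, ty, if_true] at k2
    cases i
    · simp only [Bool.not_false] at s4
      rw [s3, s4, add_left_inj, add_eq_left] at k2
      exact one_ne_zero k2
    · simp only [Bool.not_true] at s4
      rw [s3, s4, add_right_inj, add_eq_left] at k2
      exact one_ne_zero k2
  have nu2 := SG.nu_drop (W' := F.W0 M σ \ (inn m u ∪ M.w i x ∪ M.w i y)) hF.hc fh hD sdiff_subset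
    (fun k1 => m1 (disjoint_left.2 fun v hv hv' => (mem_sdiff.1 (k1 hv')).2 (by
      rcases hp with rfl | rfl
      · exact mem_union_left _ (mem_union_right _ hv)
      · exact mem_union_right _ hv)))
    fun D' hD' ne => subset_sdiff.2 ⟨(SG.ocs_vs hD').1, (disjoint_union_left.2 ⟨disjoint_union_left.2
      ⟨offi D' hD' ne, off D' hD' ne i x hx (Or.inr rfl)⟩,
      off D' hD' ne i y hE.le (Or.inr rfl)⟩).symm⟩
  obtain ⟨D', hD', nD⟩ := SG.new_cc (G := G) (W := F.W0 (M.rr i x y m u h) σ1)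
    (W' := F.W0 M σ \ (inn m u ∪ M.w i x ∪ M.w i y)) (by rw [w1, w0]; exact subset_union_left)
    (by
      rw [nu2, nu1, nu0]
      intro e
      exact one_ne_zero (add_eq_left.1 e))
  have tl : F.Tl (M.rr i x y m u h) σ1 := by
    intro i0 k0 j0 l0 s0 a0 b0 n0
    by_cases s1 : F.Sg i i0
    · rcases gg3 hF hH hM1 c1 hs p1 p2 nn G1 G2 s1 (MB4_lf_nd a0) with e | e
      · exact C4_aj hM1 p1 G1 a0.1 e
      · exact C4_aj hM1 p2 G2 a0.1 e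
    · have i1 : i0 ≠ i := fun e => s1 (Or.inr e.symm)
      obtain rfl : i0 = j0 := s0.resolve_left fun e => s1 (Or.inl e)
      obtain ⟨r1, r2, -, r3⟩ := MB2_ne (F := F) (M := M) (x := x) (y := y) (m := m) (u := u)
        (h := h) i1
      have tr : ∀ t, F.Lf (M.rr i x y m u h) σ1 i0 t → F.Lf M σ i0 t := fun t k1 => by
        refine ⟨r1 ▸ k1.1, fun e => k1.2 ?_⟩
        rw [xs1 i0 t k1.1, MB6_xs (M := M) (k := t) (by rw [r2]) (by rw [r3]) (by rw [r3]), e, r2]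
      have := ht i0 k0 i0 l0 s0 (tr _ a0) (tr _ b0) n0
      unfold Kf.Aj Kf.Nd at this ⊢
      rw [r1, r2, r3]
      exact this
  have reg : G.ocs _ = G.ocs _ := hI _ σ1 hM1 c1 tl
    (lc1 ▸ lc0 (hp.elim (fun e => Or.inl (e ▸ l1)) fun e => Or.inr (e ▸ l1)))
  have rs := hE.rest hF.wf hM
  have fh2 : ¬ G.FH (F.rest (M.rr i x y m u h)) := fun k1 => fh1 (k1.mono (W0_sub hF hM1).1)
  rw [reg] at hD'
  have nZ : ¬ G.vs D' ⊆ F.rest M \ inn m u := fun k1 => nD fun v hv => by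
    obtain ⟨k2, k3⟩ := mem_sdiff.1 (k1 hv)
    refine mem_sdiff.2 ⟨(W0_sub hF hM).1 k2, fun k4 => ?_⟩
    rcases mem_union.1 k4 with k4 | k4
    · rcases mem_union.1 k4 with k4 | k4
      · exact k3 k4
      · exact disjoint_left.1 (rest_disj hx) k4 k2
    · exact disjoint_left.1 (rest_disj hE.le) k4 k2
  have bx : ∀ B ∈ F.Bs, Disjoint B (G.vs D') := fun B hB => by
    rcases hM1.box hF.wf hB with k2 | ⟨j', l', k2, rfl⟩
    · refine (SG.ocs_box hF.hc hF.hT (((W0_sub hF hM1 (σ := σ)).1.trans (W0_sub hF hM1).2).trans hF.hY)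
        fh2 hD' k2 (hF.bx B hB).1).2.2.resolve_left fun e => nZ fun v hv => ?_
      have k3 := (SG.ocs_vs hD').1 hv
      rw [rs] at k3
      refine (mem_union.1 k3).resolve_right fun k4 => ?_
      obtain ⟨t, t0, t1, k5⟩ := mem_gap.1 k4
      exact hg t t0 t1 (C4_box hF hM (t1.le.trans hE.le) hB k5 (e ▸ hv))
    · exact (rest_disj k2.1).mono_right (SG.ocs_vs hD').1
  obtain ⟨α, β, m', u', h', hb⟩ := bead_of hF hM hE.le (Z := F.rest M \ inn m u) sdiff_subset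
    (rs ▸ fh2) (rs ▸ hD') nZ bx hg
  exact rg_bead hF hH hM (hc.oc i) (Or.inr rfl) hs hk hl hne g1 g2 hb

theorem rg_ear (h : F.Ok G T) (hH : ¬ F.WinN G g) (hM : F.IsM G M) (hc : F.Cls G M σ)
    (ht : F.Tl M σ)
    (hI : ∀ M' σ', F.IsM G M' → F.Cls G M' σ' → F.Tl M' σ' → F.lc M' σ' < F.lc M σ → F.Reg G M' σ')
    (hk : k ≤ M.n i) (hl : l ≤ M.n j) (hD : D ∈ G.ocs (F.W0 M σ))
    (m1 : ¬ Disjoint (M.w i k) (G.vs D)) (m2 : ¬ Disjoint (M.w j l) (G.vs D)) (hy : y ≤ M.n i)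
    (hyk : y ≠ k) (hq : G.Q4 (M.w i k) (F.e M i k) (F.e M i (k + 1)) c d)
    (hL : G.Lkn U (M.w i k) c (M.w i y) f) (hU : U ⊆ F.rest M) (hS : F.Sa U)
    (hcase : (F.ty = true ∧ j ≠ i) ∨ (j = i ∧ l = y ∧ U ⊆ G.vs D)) : False := by
  have cut : c ∈ G.tch (M.w i k) := SG.cut_sub_tch hq.mem.2.2.1
  have nf : ∀ t ≤ M.n i + 1, f ≠ F.e M i t := by
    intro t t1 e
    rcases hL.2.2.2 with e1 | e1
    · rcases ((hM.e_tch h.wf t1 hk).1 (e ▸ e1 ▸ cut)).2 with rfl | rfl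
      · exact hq.2.2.1 (e1.trans e).symm
      · exact hq.2.2.2.2.1 (e1.trans e).symm
    · exact hM.e_rest h.wf t1 (e ▸ SG.Cut_tch (SG.mem_cut.1 hL.2.1).1 SG.oe_at (hU e1.2))
  rcases lt_or_gt_of_ne hyk with h1 | h1
  · obtain ⟨m, u, g', hE, s1, -, s2, s3⟩ := ear_of_lkn h.wf hM hS hU h1 hk hL.symm
    exact C4_core h hH hM hc ht hI hk hl hD m1 m2 hE (s2 ▸ nf _ (by omega))
      (s3 ▸ hq.2.2.1.symm) (Or.inr rfl)
      (hcase.imp_right fun ⟨k1, k2, k3⟩ => ⟨k1, Or.inl k2, k2 ▸ hyk, s1.trans k3⟩)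
  · obtain ⟨m, u, g', hE, s1, -, s2, s3⟩ := ear_of_lkn h.wf hM hS hU h1 hy hL
    exact C4_core h hH hM hc ht hI hk hl hD m1 m2 hE (s2 ▸ hq.2.2.2.2.1.symm)
      (s3 ▸ nf _ (by omega)) (Or.inl rfl)
      (hcase.imp_right fun ⟨k1, k2, k3⟩ => ⟨k1, Or.inr k2, k2 ▸ hyk, s1.trans k3⟩)

end Kf

end Pool.Agent.Work.MP_8c679b_co
end

-- merged part: Pool.Agent.Work.MP_8c679b_co.Key.C5
section
/-!
An odd circuit through rungs of two different rings.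

Write `B = M.w i k`, `X = F.xs M σ i k`, `ρ = B \ X`, and let `x, y` be the links of `X`.

Hints.  `route_mem`: use the frame `F' = {F with Bs := insert X (insert ρ (F.Bs.erase B))}`
(`Wf` holds) and the member `M0` that has `X` instead of `B` (`pth_of_cut`, `xs_sub`); its rest is
`F.rest M ∪ ρ`.  Two applications of `qpath` and `Pth.cat` (and `Pth.rev` if `y < l`) give an ear of
track `!i`; `Ear.isM`, `IsM.trk`, `IsM.node`, `Ear.lo/mid/hi`; `cross_nc` with `lf_str`.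
`route_win`: `run_pas` along the new track with the live set `{x, y}`: `vtx_p` at vertices,
`rung_cs` with `W = F.Y \ X` at `ρ`, `FPN` (`rpn_fpn`, parity `ε` free) at `M.w (!i) l`, `PS` (`kb`)
at other boxes; `ch_ct`.  `trk0` with `qs_real` for track `i`; `two_trk` with first track `!i`;
`kfin'` with `v = F.v0` and the value of `ε` that makes the equation true.  `BK1` for `B`: third
case, a side has its cut in `Kp B X c d` or contains `{c, d} = G.tg W ρ`.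
`st_xp`: here the roles are exchanged: the four-cycle is `N = M.w i k` with rung `r'` left over.
`bdp` on `F.xs M σ i k` (two vertices), `path_cs` on `G.vs D` with `W = F.W0 M σ` and the rung of
the other node, `Dq.close`, `PP.cl_cs`, `Cs.mt`.  The parity of this pass is `σ N` (the real pass on
two vertices uses their edge; the four-cycle and `D` are odd).  `trk1`, `trk0`, `two_trk` with first
track `i`, `kfin'` with `v ∈ N`, `nu_drop`.
-/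

set_option autoImplicit false

namespace Pool.Agent.Work.MP_8c679b_co

open Finset

variable {V E : Type} [Fintype V] [DecidableEq V] [DecidableEq E] {G : SG V E}
  {T U Z X B N N' : Finset V} {F : Kf V E} {M M' : Mb V E} {i j : Bool} {k l x y m : ℕ}
  {σ σ' π : Finset V → ZMod 2} {u : ℕ → Finset V} {h : ℕ → E} {a b c d e f : E} {v : V}
  {Zs : Finset (Finset V)} {g s : ZMod 2}
  {D L : Finset E} {U' W ρ : Finset V} {c' d' r : E} {π1 π2 : ZMod 2}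

namespace Kf

omit [Fintype V] in
theorem C5_nd {Ns : Finset (Finset V)} (hρ : ρ ⊆ B) (hv : v ∉ B) :
    nd (insert ρ (Ns.erase B)) v = nd Ns v := by
  ext w
  simp only [Quo_mem_nd, mem_insert, mem_erase]
  refine or_congr_right ⟨?_, fun ⟨S, h1, h2⟩ => ⟨S, Or.inr ⟨fun r => hv (r ▸ h2.1), h1⟩, h2⟩⟩
  rintro ⟨S, rfl | h1, h2⟩
  exacts [absurd (hρ h2.1) hv, ⟨S, h1.2, h2⟩]

omit [Fintype V] in
theorem C5_pd {Ns : Finset (Finset V)} (hp : PD Ns) (hB : B ∈ Ns) (hρ : ρ ⊆ B) :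
    PD (insert ρ (Ns.erase B)) := by
  intro S h1 S' h2 h3
  simp only [mem_insert, mem_erase] at h1 h2
  rcases h1 with rfl | h1 <;> rcases h2 with rfl | h2
  exacts [absurd rfl h3, (hp B hB S' h2.2 h2.1.symm).mono_left hρ,
    (hp S h1.2 B hB h1.1).mono_right hρ, hp S h1.2 S' h2.2 h3]

theorem C5_rr {Y : Finset V} {Ns : Finset (Finset V)} {n : ℕ} {w : ℕ → Finset V} {g : ℕ → E}
    (hpd : PD Ns) (hY : ∀ N ∈ Ns, N ⊆ Y) (hp : (G.quo Y Ns).Pth (G.quo Y Ns).A n w g)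
    (ha : a ∈ G.cut Y) (hb : b ∈ G.cut Y) (hab : a ≠ b) (h0 : w 0 = nd Ns (G.ie Y a))
    (hn : w n = nd Ns (G.ie Y b)) (he : (G.quo Y Ns).Pth (G.quo Y Ns).A m u h) (hx : x < y)
    (hy : y ≤ n) (u0 : u 0 = w x) (um : u m = w y) (hm : 0 < m)
    (hd : ∀ k, 0 < k → k < m → ∀ l ≤ n, u k ≠ w l) :
    ∃ n' w' e', G.Trk Y n' w' e' ∧ e' 0 = a ∧ e' (n' + 1) = b ∧
      (∀ r ≤ n', (∃ k ≤ n, w' r = w k) ∨ ∃ k, 0 < k ∧ k < m ∧ w' r = u k) ∧
      (∀ k, 0 < k → k < m → ∃ r ≤ n', w' r = u k ∧ e' r = h (k - 1) ∧ e' (r + 1) = h k) ∧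
      (∃ r ≤ n', w' r = w x ∧ e' r = es a b n g x ∧ e' (r + 1) = h 0) ∧
      ∃ r ≤ n', w' r = w y ∧ e' r = h (m - 1) ∧ e' (r + 1) = es a b n g (y + 1) := by
  obtain ⟨t1, t2, t3, -⟩ := SG.trk_of_pth hpd hY (hp.rr he hx hy u0 um fun k k1 k2 l l1 _ =>
    hd k k1 k2 l l1) ha hb hab ((Pth_rr1 (Nat.zero_le _)).trans h0)
    ((Pth_rr3 u0 um (by omega)).trans (by rw [← hn]; congr 1; omega))
  have k0 : ∀ k < m, es a b (x + m + (n - y)) (rrE x y m g h) (x + k + 1) = h k := fun k hk => by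
    rw [SG.Quo_es_succ (by omega), Pth_re2 (by omega) (by omega), Nat.add_sub_cancel_left]
  refine ⟨_, _, _, t1, t2, t3, fun r hr => ?_, fun k k1 k2 => ⟨x + k, by omega, ?_, ?_, k0 k k2⟩,
    ⟨x, by omega, Pth_rr1 le_rfl, ?_, k0 0 hm⟩, x + m, by omega, ?_, ?_, ?_⟩
  · by_cases r1 : r ≤ x
    · exact Or.inl ⟨r, by omega, Pth_rr1 r1⟩
    by_cases r2 : x + m ≤ r
    · exact Or.inl ⟨_, by omega, Pth_rr3 u0 um r2⟩
    · exact Or.inr ⟨r - x, by omega, by omega, Pth_rr2 u0 (by omega) (by omega)⟩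
  · rw [Pth_rr2 u0 (by omega) (by omega), Nat.add_sub_cancel_left]
  · rw [← k0 (k - 1) (by omega)]
    congr 1
    omega
  · rcases x with _ | x
    · rfl
    · rw [SG.Quo_es_succ (by omega), SG.Quo_es_succ (by omega), Pth_re1 (by omega)]
  · rw [Pth_rr3 u0 um le_rfl, Nat.sub_self, zero_add]
  · rw [← k0 (m - 1) (by omega)]
    congr 1
    omega
  · rcases hy.eq_or_lt with rfl | hy
    · rw [Nat.sub_self, add_zero, SG.Quo_es_last, SG.Quo_es_last]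
    · rw [SG.Quo_es_succ (by omega), SG.Quo_es_succ hy, Pth_re3 le_rfl, Nat.sub_self, zero_add]

theorem C5_rr2 {Y : Finset V} {Ns : Finset (Finset V)} {n : ℕ} {w : ℕ → Finset V} {g : ℕ → E}
    (hpd : PD Ns) (hY : ∀ N ∈ Ns, N ⊆ Y) (hp : (G.quo Y Ns).Pth (G.quo Y Ns).A n w g)
    (ha : a ∈ G.cut Y) (hb : b ∈ G.cut Y) (hab : a ≠ b) (h0 : w 0 = nd Ns (G.ie Y a))
    (hn : w n = nd Ns (G.ie Y b)) (he : (G.quo Y Ns).Pth (G.quo Y Ns).A m u h) (hxy : y ≠ x)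
    (hx : x ≤ n) (hy : y ≤ n) (u0 : u 0 = w x) (um : u m = w y) (hm : 0 < m)
    (hd : ∀ k, 0 < k → k < m → ∀ l ≤ n, u k ≠ w l) :
    ∃ n' w' e', G.Trk Y n' w' e' ∧ e' 0 = a ∧ e' (n' + 1) = b ∧
      (∀ r ≤ n', (∃ k ≤ n, w' r = w k) ∨ ∃ k, 0 < k ∧ k < m ∧ w' r = u k) ∧
      (∀ k, 0 < k → k < m → ∃ r ≤ n', w' r = u k ∧
        ((e' r = h (k - 1) ∧ e' (r + 1) = h k) ∨ (e' r = h k ∧ e' (r + 1) = h (k - 1)))) ∧
      ∃ r ≤ n', w' r = w x ∧ ((e' r = es a b n g x ∧ e' (r + 1) = h 0) ∨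
        (e' r = h 0 ∧ e' (r + 1) = es a b n g (x + 1))) := by
  rcases hxy.lt_or_gt with k | k
  · obtain ⟨n', w', e', t1, t2, t3, t4, t5, -, r, r1, r2, r3, r4⟩ := C5_rr hpd hY hp ha hb hab h0 hn
      he.rev k hx um (by simpa using u0) hm fun k k1 k2 => hd _ (by omega) (by omega)
    refine ⟨n', w', e', t1, t2, t3, fun r hr => (t4 r hr).imp_right fun ⟨k, k1, k2, k3⟩ =>
      ⟨m - k, by omega, by omega, k3⟩, fun k k1 k2 => ?_, r, r1, r2, Or.inr ⟨by simpa using r3, r4⟩⟩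
    obtain ⟨r, r1, r2, r3, r4⟩ := t5 (m - k) (by omega) (by omega)
    exact ⟨r, r1, r2.trans (congrArg u (by omega)),
      Or.inr ⟨r3.trans (congrArg h (by omega)), r4.trans (congrArg h (by omega))⟩⟩
  · obtain ⟨n', w', e', t1, t2, t3, t4, t5, ⟨r, r1, r2, r3⟩, -⟩ := C5_rr hpd hY hp ha hb hab h0 hn
      he k hy u0 um hm hd
    exact ⟨n', w', e', t1, t2, t3, t4, fun k k1 k2 => (t5 k k1 k2).imp fun r hr =>
      ⟨hr.1, hr.2.1, Or.inl hr.2.2⟩, r, r1, r2, Or.inl r3⟩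

/-- two links through a node give one path -/
theorem C5_cat (hw : F.Wf G) (l1 : G.Lkn U N a ρ c) (l2 : G.Lkn U' ρ d N' b) (a1 : F.Sa U)
    (a2 : F.Sa U') (s1 : U ⊆ W) (s2 : U' ⊆ W) (hW : W ⊆ F.Y) (hd : Disjoint U U')
    (n1 : ∃ v ∈ F.Y, N = nd F.Bs v) (n2 : ∃ v ∈ F.Y, ρ = nd F.Bs v)
    (n3 : ∃ v ∈ F.Y, N' = nd F.Bs v) (d1 : Disjoint N W) (d2 : Disjoint ρ W) (d3 : Disjoint N' W)
    (e1 : N ≠ ρ) (e2 : ρ ≠ N') (e3 : Disjoint N N') :
    ∃ m u h, (F.Γ G).Pth (F.Γ G).A m u h ∧ u 0 = N ∧ u m = N' ∧ h 0 = a ∧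
      (∀ k, 0 < k → k < m → u k ⊆ W ∪ ρ ∧ ∃ v ∈ F.Y, u k = nd F.Bs v) ∧
      ∃ k, 0 < k ∧ k < m ∧ u k = ρ ∧ h (k - 1) = c ∧ h k = d := by
  obtain ⟨m, u, h, p1, p2, p3, p4, p5, p6, p7⟩ := qpath hw a1 (s1.trans hW) l1 n1 n2 e1
    (d1.mono_right s1) (d2.mono_right s1)
  obtain ⟨m', u', h', q1, q2, q3, q4, q5, q6, -⟩ := qpath hw a2 (s2.trans hW) l2 n2 n3 e2
    (d2.mono_right s2) (d3.mono_right s2)
  have i1 : ∀ k, 0 < k → k < m → u k ⊆ U := fun k k1 k2 v hv => p4 (mem_inn.2 ⟨k, k1, k2, hv⟩)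
  have i2 : ∀ k, 0 < k → k < m' → u' k ⊆ U' := fun k k1 k2 v hv => q4 (mem_inn.2 ⟨k, k1, k2, hv⟩)
  obtain ⟨v, v1, v2⟩ := n1
  have he := p3.trans q2.symm
  have hp := p1.cat q1 he fun k k1 l l1 e => by
    by_contra l0
    rcases k1.eq_or_lt with rfl | k1
    · exact l0 (q1.inj _ l1 _ (Nat.zero_le _) (e.symm.trans he))
    obtain ⟨z, -, z2⟩ := SG.quo_pth_node p1 v1 (p2.trans v2) k k1.le
    have z3 : z ∈ u k := z2 ▸ mem_nd_self
    have z4 : z ∈ u' l := e ▸ z3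
    rcases Nat.eq_zero_or_pos k with rfl | k0 <;> rcases l1.eq_or_lt with rfl | l1
    exacts [disjoint_left.1 e3 (p2 ▸ z3) (q3 ▸ z4),
      disjoint_left.1 d1 (p2 ▸ z3) (s2 (i2 l (by omega) l1 z4)),
      disjoint_left.1 d3 (q3 ▸ z4) (s1 (i1 k k0 k1 z3)),
      disjoint_left.1 hd (i1 k k0 k1 z3) (i2 l (by omega) l1 z4)]
  have h0 : catV m u u' 0 = N := (Pth_catL (Nat.zero_le _)).trans p2
  refine ⟨_, _, _, hp, h0, ?_, (Pth_ceL p5).trans p6, fun k k1 k2 =>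
    ⟨?_, SG.quo_pth_node hp v1 (h0.trans v2) k k2.le⟩, m, p5, by omega,
    (Pth_catL le_rfl).trans p3, (Pth_ceL (by omega)).trans p7, ?_⟩
  · rw [Pth_catR he (by omega), Nat.add_sub_cancel_left, q3]
  · rcases lt_trichotomy k m with r | rfl | r
    · rw [Pth_catL r.le]
      exact ((i1 k k1 r).trans s1).trans subset_union_left
    · rw [Pth_catL le_rfl, p3]
      exact subset_union_right
    · rw [Pth_catR he r.le]
      exact ((i2 _ (by omega) (by omega)).trans s2).trans subset_union_left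
  · rw [Pth_ceR le_rfl, Nat.sub_self, q6]



theorem route_mem (h : F.Ok G T) (hM : F.IsM G M) (h1 : F.Lf M σ i k) (h2 : F.Lf M σ (!i) l)
    (h4 : (M.w (!i) l).card ≠ 4) (hq : G.Q4 (M.w i k) (F.e M i k) (F.e M i (k + 1)) c d)
    (hy : y ≤ M.n (!i)) (hyl : y ≠ l) (l1 : G.Lkn U (M.w (!i) l) c' (M.w i k) c)
    (l2 : G.Lkn U' (M.w i k) d (M.w (!i) y) f) (s1 : U ⊆ F.rest M) (s2 : U' ⊆ F.rest M)
    (a1 : F.Sa U) (a2 : F.Sa U') (hd : Disjoint U U') :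
    ∃ n' w' e', G.Trk F.Y n' w' e' ∧ e' 0 = F.p (!i) ∧ e' (n' + 1) = F.q (!i) ∧
      (∀ r ≤ n', (w' r ∈ F.Bs ∧ w' r ≠ M.w i k) ∨ w' r = M.w i k \ F.xs M σ i k ∨
        ∃ v, w' r = {v} ∧ ∀ B ∈ F.Bs, v ∉ B) ∧
      (∀ r ≤ n', ∀ k' ≤ M.n i, k' ≠ k → Disjoint (w' r) (M.w i k')) ∧
      (∃ r ≤ n', w' r = M.w i k \ F.xs M σ i k ∧
        ((e' r = c ∧ e' (r + 1) = d) ∨ (e' r = d ∧ e' (r + 1) = c))) ∧
      ∃ r ≤ n', w' r = M.w (!i) l ∧ G.NC (M.w (!i) l) (e' r) (e' (r + 1)) := by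
  have hw := h.wf
  obtain ⟨⟨hk, hB⟩, k1⟩ := lf_str h hM h1
  obtain ⟨-, k2, -, x1, y1, -, -, k3, -⟩ := k1 c d hq
  obtain ⟨hN, k4⟩ := lf_str h hM h2
  obtain ⟨ρ, hρ⟩ : ∃ ρ, M.w i k \ F.xs M σ i k = ρ := ⟨_, rfl⟩
  have hs : ρ ⊆ M.w i k := hρ ▸ sdiff_subset
  rw [hρ] at k2 k3 ⊢
  have hv : G.ie (M.w i k) c ∈ ρ := by simp [k2]
  have hpd := C5_pd hw.pd hB hs
  have hsub : ∀ S ∈ insert ρ (F.Bs.erase (M.w i k)), S ⊆ F.Y ∧ S.Nonempty := by
    simp only [mem_insert, mem_erase]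
    rintro S (rfl | r)
    exacts [⟨hs.trans (hw.sub _ hB).1, _, hv⟩, hw.sub S r.2]
  have hw' : Kf.Wf { F with Bs := insert ρ (F.Bs.erase (M.w i k)) } G :=
    ⟨hpd, hsub, hw.pc, hw.qc, hw.pq, hw.pp, hw.qq⟩
  have dj : ∀ r ≤ M.n (!i), ∀ k' ≤ M.n i, Disjoint (M.w (!i) r) (M.w i k') := fun r hr k' hk' =>
    hM.disj hw hr hk' (by simp)
  have nd' : ∀ r ≤ M.n (!i), ∀ v, M.w (!i) r = nd F.Bs v →
      M.w (!i) r = nd (insert ρ (F.Bs.erase (M.w i k))) v := fun r hr v e =>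
    e.trans (C5_nd hs (disjoint_left.1 (dj r hr k hk) (e ▸ mem_nd_self))).symm
  have nn : ∀ r ≤ M.n (!i), ∃ v ∈ F.Y, M.w (!i) r = nd (insert ρ (F.Bs.erase (M.w i k))) v :=
    fun r hr => (hM.node hw hr).1.imp fun v e => ⟨e.1, nd' r hr v e.2⟩
  have ne : ∀ r ≤ M.n (!i), M.w (!i) r ≠ ρ := fun r hr e =>
    disjoint_left.1 (dj r hr k hk) (e ▸ hv) (hs hv)
  have sa : ∀ Z ⊆ F.rest M, F.Sa Z → Kf.Sa { F with Bs := insert ρ (F.Bs.erase (M.w i k)) } Z :=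
    fun Z z1 z2 v hv => (C5_nd hs (disjoint_right.1 (rest_disj hk) (z1 hv))).subset.trans (z2 v hv)
  have oe' : ∀ e ∈ G.cut (M.w i k), e ∈ G.cut ρ → G.oe ρ e = G.oe (M.w i k) e := fun e e1 e2 =>
    (SG.eq_oe e2 (fun r => SG.oe_not_mem e1 (hs r)) SG.oe_at).symm
  obtain ⟨m, u, h', p1, p2, p3, p4, p5, z, z1, z2, z3, z4, z5⟩ := C5_cat hw' (ρ := ρ)
    ⟨l1.1, k3.mem.2.2.1, l1.2.2.1, oe' c l1.2.1 k3.mem.2.2.1 ▸ l1.2.2.2⟩
    ⟨k3.mem.2.2.2, l2.2.1, l2.2.2.1, oe' d l2.1 k3.mem.2.2.2 ▸ l2.2.2.2⟩ (sa U s1 a1) (sa U' s2 a2)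
    s1 s2 sdiff_subset hd (nn l hN.1)
    ⟨_, (hsub ρ (mem_insert_self _ _)).1 hv, (nd_of_mem hpd (mem_insert_self _ _) hv).symm⟩
    (nn y hy) (rest_disj hN.1) ((rest_disj hk).mono_left hs) (rest_disj hy) (ne l hN.1)
    (ne y hy).symm (hM.disj hw hN.1 hy fun r => hyl r.2)
  obtain ⟨⟨-, -, t0⟩, -⟩ := hM.trk hw (!i)
  obtain ⟨n', w', e', t1, t2, t3, t4, t5, r, r1, r2, r3⟩ := C5_rr2 hpd (fun S hS => (hsub S hS).1)
    (pth_of_cut (h := M.g (!i)) hpd (fun S hS => (hsub S hS).1) nn (hM.pth (!i)).inj fun r hr => by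
      rw [← e_succ (F := F) hr]
      exact ⟨(t0 r hr.le).2.1, (t0 (r + 1) hr).1⟩)
    (hw.pc _) (hw.qc _) (hw.pq _ _) (nd' 0 (Nat.zero_le _) _ (hM.fst _))
    (nd' _ le_rfl _ (hM.lst _)) p1 hyl hN.1 hy p2 p3 (by omega) fun a a1 a2 b b1 e => by
      obtain ⟨v, hv⟩ := (hM.node hw b1).2.1
      rcases mem_union.1 ((p5 a a1 a2).1 (e ▸ hv)) with r | r
      exacts [disjoint_left.1 (rest_disj b1) hv r, disjoint_left.1 (dj b b1 k hk) hv (hs r)]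
  refine ⟨n', w', e', t1, t2, t3, fun r hr => ?_, fun r hr k' k1 k2 => ?_, ?_, r, r1, r2, ?_⟩
  · rcases t4 r hr with ⟨a, a1, e⟩ | ⟨a, a1, a2, e⟩ <;> rw [e]
    · rcases (hM.node hw a1).2.2.2 with b | ⟨v, -, b⟩
      exacts [Or.inl ⟨b, fun b' => by simpa using (hM.inj a1 hk b').1⟩, Or.inr (Or.inr ⟨v, b⟩)]
    · obtain ⟨b1, v, -, b2⟩ := p5 a a1 a2
      rcases nd_cases hpd v with b | ⟨b, b'⟩
      · exact (mem_insert.1 (b2 ▸ b)).elim (fun b => Or.inr (Or.inl b))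
          fun b => Or.inl (mem_erase.1 b).symm
      · refine Or.inr (Or.inr ⟨v, b2.trans b', fun S hS hv => ?_⟩)
        by_cases b3 : S = M.w i k
        · exact (mem_union.1 (b1 (b2 ▸ mem_nd_self))).elim
            (disjoint_left.1 (rest_disj hk) (b3 ▸ hv)) (b ρ (mem_insert_self _ _))
        · exact b S (mem_insert_of_mem (mem_erase.2 ⟨b3, hS⟩)) hv
  · rcases t4 r hr with ⟨a, a1, e⟩ | ⟨a, a1, a2, e⟩ <;> rw [e]
    · exact dj a a1 k' k1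
    · exact (disjoint_union_left.2 ⟨(rest_disj k1).symm,
        (hM.disj hw hk k1 fun r => k2 r.2).mono_left hs⟩).mono_left (p5 a a1 a2).1
  · obtain ⟨r, r1, r2, r3⟩ := t5 z z1 z2
    exact ⟨r, r1, r2.trans z3, z4 ▸ z5 ▸ r3⟩
  · obtain ⟨c2, d2, q⟩ := hM.q4 h hN
    obtain ⟨n1, n2, n3, n4⟩ := SG.cross_nc h.hc h.hT (MB4_nd h hN).1 q (k4 c2 d2 q).1 h4
    have hc' : ∀ a ≤ M.n (!i) + 1, c' ≠ F.e M (!i) a := fun a a1 e => by
      rcases l1.2.2.2 with b | b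
      · simpa using ((hM.e_tch hw a1 hk).1 (e ▸ b ▸ SG.cut_sub_tch l1.2.1)).1
      · exact hM.e_rest hw a1 (e ▸ SG.Cut_tch (SG.mem_cut.1 l1.1).1 SG.oe_at (s1 b.1))
    have := l1.1
    rw [q.1] at this
    simp only [mem_insert, mem_singleton, hc' l (hN.1.trans (Nat.le_succ _)),
      hc' (l + 1) (Nat.succ_le_succ hN.1), false_or] at this
    rcases r3 with ⟨b1, b2⟩ | ⟨b1, b2⟩ <;> rw [b1, b2, p4] <;> rcases this with rfl | rfl
    exacts [n1, n2, n3, n4]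

/-- the rung left over is ready inside the region without the passed part -/
theorem C5_rung {Y : Finset V} {x' y' : E} (hc : G.Cub) (hT : G.HT T) (hY : Y ⊆ T) (hB : B ⊆ Y)
    (hq : G.Q4 B a b c d) (hs : G.Sp B a b X) (e1 : B \ X = {G.ie B c, G.ie B d})
    (hv : G.Dv B c d) (hx : G.Q4 X a b x' y') (hr : r ∈ G.A)
    (hj : G.Je r (G.ie B c) (G.ie B d)) (ci : c ∈ G.ins Y) (di : d ∈ G.ins Y) :
    G.Rdy (Y \ X) ∅ (B \ X) ∧ c ∈ G.tg (Y \ X) (B \ X) ∧ d ∈ G.tg (Y \ X) (B \ X) ∧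
      G.tg (Y \ X) (B \ X) ⊆ {c, d} ∧ {x', y'} ⊆ G.cut (Y \ X) ∧
      ∀ e ∈ G.cut (B \ X), e ∈ G.cut (Y \ X) → e ∈ ({x', y'} : Finset E) := by
  obtain ⟨q, xi, yi, -, dv, -⟩ := hs.link hc hT (hB.trans hY) hq hx
  obtain ⟨-, -, -, -, -, -, -, -, -, -, nc, nd', -⟩ := hs.str hc hT (hB.trans hY) hq
  have kc : ∀ e ∈ G.cut X, e ∈ G.ins B → e ∈ G.cut (Y \ X) := fun e h1 h2 => by
    have k1 := @hB (G.s e)
    have k2 := @hB (G.t e)
    simp only [SG.mem_cut, SG.mem_ins, mem_sdiff] at h1 h2 ⊢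
    (clear * - h1 h2 k1 k2; tauto)
  have ki : ∀ e ∈ G.ins Y, e ∉ G.tch X → e ∈ G.ins (Y \ X) := fun e h1 h2 => by
    simp only [SG.mem_tch, SG.mem_ins, mem_sdiff] at h1 h2 ⊢
    (clear * - h1 h2; tauto)
  have cx := kc _ hx.mem.2.2.1 xi
  have cy := kc _ hx.mem.2.2.2 yi
  have tc : c ∈ G.tg (Y \ X) (B \ X) := mem_inter.2 ⟨q.mem.2.2.1, ki c ci nc⟩
  have td : d ∈ G.tg (Y \ X) (B \ X) := mem_inter.2 ⟨q.mem.2.2.2, ki d di nd'⟩
  refine ⟨⟨sdiff_subset_sdiff hB Subset.rfl, ⟨_, _, hv, e1, r, hr, hj⟩, fun z hz => ⟨?_, ?_⟩⟩,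
    tc, td, fun e he => ?_, insert_subset cx (singleton_subset_iff.2 cy), fun e h1 h2 => ?_⟩
  · have m1 := SG.Spl_ie q.mem.1
    have m2 := SG.Spl_ie q.mem.2.1
    have key : z = G.ie (B \ X) x' ∨ z = G.ie (B \ X) y' := by
      unfold SG.Dv at dv
      generalize G.ie (B \ X) x' = p1 at m1 dv
      generalize G.ie (B \ X) y' = p2 at m2 dv
      simp only [e1, mem_insert, mem_singleton] at hz m1 m2
      grind
    rcases key with rfl | rfl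
    exacts [⟨x', cx, notMem_empty _, SG.ie_at⟩, ⟨y', cy, notMem_empty _, SG.ie_at⟩]
  · rw [e1, mem_insert, mem_singleton] at hz
    rcases hz with rfl | rfl
    exacts [⟨c, tc, SG.ie_at⟩, ⟨d, td, SG.ie_at⟩]
  · rcases (SG.Spl_mem q e).1 (mem_inter.1 he).1 with rfl | rfl | rfl | rfl
    · exact absurd (mem_inter.1 he).2 (SG.not_ins_of_cut cx)
    · exact absurd (mem_inter.1 he).2 (SG.not_ins_of_cut cy)
    · exact mem_insert_self _ _
    · exact mem_insert_of_mem (mem_singleton_self _)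
  · rcases (SG.Spl_mem q e).1 h1 with rfl | rfl | rfl | rfl
    · exact mem_insert_self _ _
    · exact mem_insert_of_mem (mem_singleton_self _)
    · exact absurd (mem_inter.1 tc).2 (SG.not_ins_of_cut h2)
    · exact absurd (mem_inter.1 td).2 (SG.not_ins_of_cut h2)

/-- a leaving edge of a box of a track, other than the edges of the track, is inside the region -/
theorem C5_ins (h : F.Ok G T) (hM : F.IsM G M) (hk : F.Nd M i k) (he : e ∈ G.cut (M.w i k))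
    (h1 : F.e M i k ≠ e) (h2 : F.e M i (k + 1) ≠ e) : e ∈ G.ins F.Y := by
  refine (mem_union.1 ((h.bx _ hk.2).2 he)).resolve_right fun hJ => ?_
  obtain ⟨j, l, hl, rfl⟩ : ∃ j, ∃ l ≤ M.n j + 1, e = F.e M j l := by
    simp only [J, mem_insert, mem_singleton] at hJ
    rcases hJ with rfl | rfl | rfl | rfl
    exacts [⟨_, 0, Nat.zero_le _, (hM.trk h.wf _).2.1.symm⟩, ⟨_, _, le_rfl, (hM.trk h.wf _).2.2.symm⟩,
      ⟨_, 0, Nat.zero_le _, (hM.trk h.wf _).2.1.symm⟩, ⟨_, _, le_rfl, (hM.trk h.wf _).2.2.symm⟩]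
  obtain ⟨rfl, rfl | rfl⟩ := (hM.e_tch h.wf hl hk.1).1 (SG.cut_sub_tch he)
  exacts [h1 rfl, h2 rfl]

/-- a run in which one position has both parities -/
theorem C5_run {Y : Finset V} {n r1 r2 : ℕ} {Xs : ℕ → Finset V} {Ks : ℕ → Set (Finset E)}
    {e' : ℕ → E} {π0 : ℕ → ZMod 2} (hY : ∀ r ≤ n, Xs r ⊆ Y)
    (hd : ∀ r ≤ n, ∀ r' ≤ n, r ≠ r' → Disjoint (Xs r) (Xs r')) (hL : L ⊆ G.cut Y)
    (hP : ∀ r ≤ n, ∀ ε, ∃ O, G.par (O ∩ G.ins (Xs r)) = (if r = r2 then ε else π0 r) ∧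
      G.Pas0 (Xs r) O (e' r) (e' (r + 1)) L (Ks r) fun R => R.Tt ∧ (r = r1 → R.Cs))
    (h0 : e' 0 ∈ G.cut Y) (h1 : e' (n + 1) ∈ G.cut Y) (h01 : e' 0 ≠ e' (n + 1)) (k1 : r1 ≤ n)
    (k2 : r2 ≤ n) (ε : ZMod 2) : ∃ O, G.par (O ∩ G.ins (bu n Xs)) = ε ∧
      G.Pas0 (bu n Xs) O (e' 0) (e' (n + 1)) L (ku n Ks) fun R => ∀ s, R.Mt s := by
  choose! O h2 h3 using hP
  set δ := ∑ r ∈ (range (n + 1)).erase r2, π0 r + ∑ r ∈ range n, G.n (e' (r + 1)) with hδ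
  obtain ⟨a1, a2⟩ := SG.run_pas (C0 := fun R => ∀ s, R.Mt s) hY hd hL
    (fun r hr => h3 r hr (ε + δ)) h0 h1 h01 fun Rs hR s =>
      (Rl.Z1_cs k1 (fun r hr _ => (hR r hr).1) ((hR r1 k1).2 rfl)).mt s
  refine ⟨_, ?_, a1⟩
  rw [a2, ← add_sum_erase _ _ (mem_range.2 (Nat.lt_succ_of_le k2)), h2 r2 k2, if_pos rfl,
    sum_congr rfl (g := π0) fun r hr => by
      rw [h2 r (Nat.le_of_lt_succ (mem_range.1 (mem_of_mem_erase hr))),
        if_neg (ne_of_mem_erase hr)]]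
  linear_combination z2_add_self δ - hδ

theorem route_win (h : F.Ok G T) (hH : ¬ F.WinN G g) (hM : F.IsM G M) (hc : F.Cls G M σ)
    (hty : F.ty = false) (h1 : F.Lf M σ i k) (h2 : F.Lf M σ (!i) l) (h4 : (M.w (!i) l).card ≠ 4)
    (hq : G.Q4 (M.w i k) (F.e M i k) (F.e M i (k + 1)) c d) (hy : y ≤ M.n (!i)) (hyl : y ≠ l)
    (l1 : G.Lkn U (M.w (!i) l) c' (M.w i k) c) (l2 : G.Lkn U' (M.w i k) d (M.w (!i) y) f)
    (s1 : U ⊆ F.rest M) (s2 : U' ⊆ F.rest M) (a1 : F.Sa U) (a2 : F.Sa U') (hd : Disjoint U U') :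
    False := by
  obtain ⟨n, w, e', ⟨t1, t2, t3⟩, t4, t5, cl, dj, ⟨r1, k1, w1, o1⟩, r2, k2, w2, nc⟩ :=
    route_mem h hM h1 h2 h4 hq hy hyl l1 l2 s1 s2 a1 a2 hd
  obtain ⟨hk, hs⟩ := lf_str h hM h1
  obtain ⟨sp, e1, dv, x', y', r, qx, -, ir, jr⟩ := hs c d hq
  have hl := MB4_lf_nd h2
  have hB := (h.wf.sub _ hk.2).1
  obtain ⟨g1, g2, g3, g4, g5, g6⟩ := C5_rung h.hc h.hT h.hY hB hq sp e1 dv qx
    (SG.ins_sub_A (ir ▸ mem_singleton_self r)) jr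
    (C5_ins h hM hk hq.mem.2.2.1 hq.2.2.1 hq.2.2.2.2.1)
    (C5_ins h hM hk hq.mem.2.2.2 hq.2.2.2.1 hq.2.2.2.2.2.1)
  have ne : (M.w i k \ F.xs M σ i k).Nonempty := e1 ▸ insert_nonempty _ _
  have nb : ∀ B ∈ F.Bs, B ≠ M.w i k → Disjoint B (M.w i k) := fun B a b => h.wf.pd B a _ hk.2 b
  have n1 : w r1 ∈ F.Bs → w r1 = M.w i k := fun a => by_contra fun b => by
    obtain ⟨z, hz⟩ := ne
    exact disjoint_left.1 (nb _ a b) (w1 ▸ hz) (mem_sdiff.1 hz).1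
  have n2 : M.w (!i) l ≠ M.w i k := fun a => by simpa using (hM.inj hl.1 hk.1 a).1
  have n3 : r1 ≠ r2 := fun a => n2 (by
    rw [← w2, ← a]
    exact n1 (by rw [a, w2]; exact hl.2))
  have dX : ∀ r ≤ n, Disjoint (w r) (F.xs M σ i k) := fun r hr => by
    rcases cl r hr with a | a | ⟨v, a, b⟩
    · exact (nb _ a.1 a.2).mono_right sp.1
    · exact a ▸ sdiff_disjoint
    · exact a ▸ disjoint_singleton_left.2 fun z => b _ hk.2 (sp.1 z)
  have hP : ∀ r, ∃ Xs K π0, r ≤ n → Xs ⊆ w r ∧ (∀ ε, ∃ O,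
      G.par (O ∩ G.ins Xs) = (if r = r2 then ε else π0) ∧
      G.Pas0 Xs O (e' r) (e' (r + 1)) {x', y'} K fun R => R.Tt ∧ (r = r1 → R.Cs)) ∧
      (w r ∈ F.Bs → w r ≠ M.w i k → G.BK1 (w r) Xs K F.v0) ∧
      (r = r1 → G.tg (F.Y \ F.xs M σ i k) (M.w i k \ F.xs M σ i k) ∈ K) := fun r => by
    by_cases hr : r ≤ n
    swap
    · exact ⟨∅, ∅, 0, fun a => absurd a hr⟩
    obtain ⟨c1, c2, c3⟩ := t3 r hr
    by_cases a1 : r = r1
    · subst a1
      have p := SG.rung_cs (a := e' r) (b := e' (r + 1)) h.hc h.hT (sdiff_subset.trans h.hY) g1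
        (by rcases o1 with a | a <;> rw [a.1] <;> assumption)
        (by rcases o1 with a | a <;> rw [a.2] <;> assumption) c3 g6
      exact ⟨_, _, _, fun _ => ⟨w1.ge, fun ε => ⟨_, (if_neg n3).symm,
        p.imp fun R a => ⟨a.tt, fun _ => a⟩⟩, fun a b => absurd (n1 a) b, fun _ => rfl⟩⟩
    have bx : ∀ {X c' d'}, G.Q4 (w r) (e' r) (e' (r + 1)) c' d' → G.Rg (w r) X c' d' →
        G.BK1 (w r) X (G.Kp (w r) X c' d') F.v0 := fun q a => Or.inr (Or.inl ⟨_, _, _, _, q, by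
      rw [inter_eq_right.2 a.sub]
      exact ⟨a, fun t ht => ⟨t, SG.kpv_sub ht, Subset.rfl⟩⟩⟩)
    by_cases a2 : r = r2
    · subst a2
      have hu := (h.bx _ (w2 ▸ hl.2 : w r ∈ F.Bs)).1
      obtain ⟨c', d', q⟩ := SG.exists_q4 hu.1 c1 c2 c3
      refine ⟨w r, G.Kp (w r) (w r) c' d', 0, fun _ => ⟨Subset.rfl, fun ε => ?_,
        fun _ _ => bx q (Or.inl rfl), fun a => absurd a a1⟩⟩
      obtain ⟨O, b1, b2⟩ := (SG.rpn_fpn h.hc h.hT ((t1 r hr).trans h.hY)).2 hu _ _ c' d' q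
        (w2 ▸ nc) ε
      exact ⟨O, by rw [if_pos rfl, b1], ((b2.monoL fun e _ a => absurd a (notMem_empty e)).cov
        fun t ht => Or.inl ⟨t, ht.1, Subset.rfl⟩).imp fun R a => ⟨a.tt, fun b => absurd b a1⟩⟩
    rcases cl r hr with a | a | ⟨v, a, b⟩
    · have hu := (h.bx _ a.1).1
      obtain ⟨c', d', q⟩ := SG.exists_q4 hu.1 c1 c2 c3
      obtain ⟨X, O, b1, b2⟩ := (SG.kb h.hc h.hT _ ((t1 r hr).trans h.hY)).2.2.2.2.2.2.2 hu
        _ _ c' d' q 0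
      exact ⟨X, _, _, fun _ => ⟨b1.sub, fun ε => ⟨O, (if_neg a2).symm,
        (b2.monoL fun e _ a => absurd a (notMem_empty e)).imp
          fun R a => ⟨a.tt, fun b => absurd b a1⟩⟩, fun _ _ => bx q b1, fun a => absurd a a1⟩⟩
    · obtain ⟨z, hz⟩ := ne
      exact absurd (w1 ▸ hz) (disjoint_left.1 (t2 r hr r1 k1 a1) (a ▸ hz))
    · have hv : v ∈ T := h.hY (t1 r hr (a ▸ mem_singleton_self v))
      rw [a] at c1 c2
      obtain ⟨g', q⟩ := h.hT.third h.hc hv c1 c2 c3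
      exact ⟨{v}, ∅, _, fun _ => ⟨a.ge, fun ε => ⟨_, (if_neg a2).symm,
        (SG.vtx_p (h.hT.vtx h.hc hv).2.1 q).imp fun R a => ⟨a.1.tt, fun b => absurd b a1⟩⟩,
        fun b' => absurd (mem_singleton_self v) (b _ (a ▸ b')), fun a => absurd a a1⟩⟩
  choose Xs Ks π0 hP using hP
  have sW : ∀ r ≤ n, w r ⊆ F.Y \ F.xs M σ i k := fun r hr =>
    subset_sdiff.2 ⟨t1 r hr, dX r hr⟩
  have m1 : ∀ v ∈ bu n Xs, ∃ r ≤ n, v ∈ Xs r ∧ v ∈ w r := fun v hv => by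
    obtain ⟨r, hr, a⟩ := mem_bu.1 hv
    exact ⟨r, hr, a, (hP r hr).1 a⟩
  have sY : bu n Xs ⊆ F.Y := fun v hv => by
    obtain ⟨r, hr, -, a⟩ := m1 v hv
    exact t1 r hr a
  have dW : ∀ r ≤ n, Disjoint (w r) (F.xo M σ i ∅) := fun r hr => disjoint_left.2 fun v a b => by
    obtain ⟨k', b1, -, b2, b3⟩ := ST2_mem h hM b
    by_cases b4 : k' = k
    · exact disjoint_left.1 (dX r hr) a (b4 ▸ b2)
    · exact disjoint_left.1 (dj r hr k' b1 b4) a b3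
  obtain ⟨O2, p2, q2⟩ := trk0 h hM (qs_real h hH hM hc i) fun _ _ => notMem_empty _
  obtain ⟨O1, p1, q1⟩ := C5_run (fun r hr => (hP r hr).1.trans (sW r hr))
    (fun r hr r' hr' a => (t2 r hr r' hr' a).mono (hP r hr).1 (hP r' hr').1) g5
    (fun r hr => (hP r hr).2.1)
    (SG.cut_of_sub sdiff_subset (t4 ▸ h.wf.pc _) (SG.tch_mono (sW 0 (Nat.zero_le _))
      (SG.cut_sub_tch (t3 0 (Nat.zero_le _)).1))).1
    (SG.cut_of_sub sdiff_subset (t5 ▸ h.wf.qc _) (SG.tch_mono (sW n le_rfl)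
      (SG.cut_sub_tch (t3 n le_rfl).2.1))).1 (by rw [t4, t5]; exact h.wf.pq _ _) k1 k2
    (g + F.lam false + F.lam true + F.tz G M σ i ∅ +
      G.nu (F.Y \ (bu n Xs ∪ F.xo M σ i ∅ ∪ ∅)))
  rw [t4, t5] at q1
  have xo1 : F.xs M σ i k ⊆ F.xo M σ i ∅ := fun v a => mem_xo.2 ⟨k, hk.1, notMem_empty _, a⟩
  have ts : F.tz G M σ i ∅ + 1 = F.lam i := by
    have := hc.oc (!i) hty
    rw [Bool.not_not] at this
    change F.tz G M σ i ∅ = _ at this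
    rw [this, add_assoc, z2_add_self, add_zero]
  have hw := ST2_u2 (i := !i) (t := F.lam true) (C2 := Rl.Mt (F.lam i)) h.wf q1
    (by rw [Bool.not_not]; exact q2.imp fun R a => ts ▸ a.mt) SG.abs0_empty sY (ST2_sub h hM)
    (empty_subset _) (disjoint_left.2 fun v a => by
      obtain ⟨r, hr, -, b⟩ := m1 v a
      exact disjoint_left.1 (dW r hr) b) (disjoint_empty_right _) (disjoint_empty_right _)
    (fun e a _ => Or.inr ⟨hty, SG.tch_mono xo1 (SG.cut_sub_tch (by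
      rcases mem_insert.1 a with rfl | a
      · exact qx.mem.2.2.1
      · exact mem_singleton.1 a ▸ qx.mem.2.2.2))⟩) (fun e a => absurd a (notMem_empty e))
    fun R a b => by
      rw [hty]
      cases i
      exacts [⟨b, a _⟩, ⟨a _, b⟩]
  refine hH (kfin' h (union_subset (union_subset sY (ST2_sub h hM)) (empty_subset _)) hw
    (Or.inl rfl) (fun B hB' => ?_) (Or.inr rfl) (Or.inr ?_))
  swap
  · rw [p1, p2, SG.par, sum_empty]
    linear_combination -z2_add_self (F.tz G M σ i ∅) -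
      z2_add_self (G.nu (F.Y \ (bu n Xs ∪ F.xo M σ i ∅ ∪ ∅)))
  have kK : F.ko G M σ i ∅ ⊆ ku n Ks ∪ F.ko G M σ i ∅ ∪ ∅ :=
    Set.subset_union_right.trans Set.subset_union_left
  have kS : ∀ r ≤ n, Ks r ⊆ ku n Ks ∪ F.ko G M σ i ∅ ∪ ∅ := fun r hr t a =>
    Or.inl (Or.inl ⟨r, hr, a⟩)
  by_cases b0 : B = M.w i k
  · subst b0
    refine Or.inr (Or.inr fun S hS hu _ => Or.inr ?_)
    by_cases b : c ∉ G.cut S ∨ d ∉ G.cut S
    · exact ⟨_, kK ⟨k, hk, notMem_empty _, c, d, hq, ⟨S, hS, hu, rfl⟩, Or.inr b⟩, Subset.rfl⟩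
    · push Not at b
      exact ⟨_, kS r1 k1 ((hP r1 k1).2.2.2 rfl),
        g4.trans (insert_subset b.1 (singleton_subset_iff.2 b.2))⟩
  by_cases b1 : ∃ k' ≤ M.n i, M.w i k' = B
  · obtain ⟨k', c1, rfl⟩ := b1
    refine bk_std h hM ⟨c1, hB'⟩ (notMem_empty _) kK ?_
    ext v
    simp only [union_empty, mem_inter, mem_union]
    constructor
    · rintro ⟨c2, c3 | c3⟩
      · obtain ⟨r, hr, -, c4⟩ := m1 v c3
        exact absurd c2 (disjoint_left.1 (dj r hr k' c1 fun a => b0 (a ▸ rfl)) c4)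
      · exact (ST2_node h hM c1 c2 c3).2.2
    · exact fun c2 => ⟨(xs_sub h hM c1).1 c2, Or.inr (mem_xo.2 ⟨k', c1, notMem_empty _, c2⟩)⟩
  by_cases b2 : ∃ r ≤ n, w r = B
  · obtain ⟨r, hr, rfl⟩ := b2
    refine ((hP r hr).2.2.1 hB' b0).congr ?_ (kS r hr)
    ext v
    simp only [union_empty, mem_inter, mem_union]
    refine and_congr_right fun c1 => ⟨?_, fun c2 => Or.inl (mem_bu.2 ⟨r, hr, c2⟩)⟩
    rintro (c2 | c2)
    · obtain ⟨r', hr', c3, c4⟩ := m1 v c2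
      by_cases c5 : r = r'
      · exact c5 ▸ c3
      · exact absurd c4 (disjoint_left.1 (t2 r hr r' hr' c5) c1)
    · exact absurd c2 (disjoint_left.1 (dW r hr) c1)
  push Not at b1 b2
  refine Or.inl (disjoint_left.2 fun v c1 c2 => ?_)
  rw [union_empty, mem_union] at c2
  rcases c2 with c2 | c2
  · obtain ⟨r, hr, -, c3⟩ := m1 v c2
    rcases cl r hr with a | a | ⟨z, a, b⟩
    · exact disjoint_left.1 (h.wf.pd _ a.1 B hB' (b2 r hr)) c3 c1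
    · exact disjoint_left.1 (nb B hB' b0) c1 (mem_sdiff.1 (a ▸ c3)).1
    · rw [a, mem_singleton] at c3
      exact b B hB' (c3 ▸ c1)
  · obtain ⟨k', c3, -, -, c4⟩ := ST2_mem h hM c2
    rcases (hM.node h.wf c3).2.2.2 with a | ⟨z, -, a, b⟩
    · exact disjoint_left.1 (h.wf.pd _ a B hB' (b1 k' c3)) c4 c1
    · rw [a, mem_singleton] at c4
      exact b B hB' (c4 ▸ c1)

theorem C5_par {O : Finset E} {p : V → ZMod 2} (hS : G.St X O {a, b}) (hab : a ≠ b)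
    (hp : ∀ e ∈ G.ins X, G.sw p e = 0) :
    G.par (O ∩ G.ins X) = p (G.ie X a) + p (G.ie X b) := by
  have k : G.Od (O ∩ G.ins X) (G.ie X a) (G.ie X b) := by
    obtain ⟨h1, h2, h3⟩ := hS
    have ha : a ∈ O ∩ G.cut X := h3 ▸ mem_insert_self _ _
    have hb : b ∈ O ∩ G.cut X := h3 ▸ mem_insert_of_mem (mem_singleton_self _)
    intro v
    by_cases hv : v ∈ X
    · have h4 : O = O ∩ G.ins X ∪ {a, b} := by
        rw [← h3, ← inter_union_distrib_left]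
        exact (inter_eq_left.2 fun g hg => mem_union.2 (SG.mem_tch_iff.1 (h1 hg))).symm
      have h5 : Disjoint (O ∩ G.ins X) {a, b} := by
        rw [← h3]
        exact disjoint_left.2 fun g g1 g2 =>
          SG.not_ins_of_cut (mem_inter.1 g2).2 (mem_inter.1 g1).2
      have h6 := h2 v hv
      rw [h4, SG.dg_union h5] at h6
      have h7 : G.dg {a, b} v = iv (v = G.ie X a) + iv (v = G.ie X b) := by
        rw [SG.dg, sum_pair hab, SG.Pure_dg (mem_inter.1 ha).2 hv, SG.Pure_dg (mem_inter.1 hb).2 hv]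
      rw [← h7]
      exact z2_eq_of_add h6
    · have h4 : v ≠ G.ie X a := fun k => hv (k ▸ SG.ie_mem (SG.cut_sub_tch (mem_inter.1 ha).2))
      have h5 : v ≠ G.ie X b := fun k => hv (k ▸ SG.ie_mem (SG.cut_sub_tch (mem_inter.1 hb).2))
      rw [SG.dg_of_not_mem fun k => hv ((SG.sub_ins_iff.1 inter_subset_right).2 k)]
      simp [iv, h4, h5]
  have k1 := k.par_eq p
  rw [sum_eq_zero fun e he => hp e (mem_inter.1 he).2, add_assoc] at k1
  exact z2_eq_of_add k1.symm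

omit [Fintype V] in
theorem C5_two {p q p' q' : V} (e : X = {p, q}) (h1 : p' ∈ X) (h2 : q' ∈ X) (h : p' ≠ q') :
    (p' = p ∧ q' = q) ∨ (p' = q ∧ q' = p) := by
  rw [e, mem_insert, mem_singleton] at h1 h2
  rcases h1 with rfl | rfl <;> rcases h2 with rfl | rfl
  exacts [absurd rfl h, Or.inl ⟨rfl, rfl⟩, Or.inr ⟨rfl, rfl⟩, absurd rfl h]

/-- the four-cycle is passed on its first rung and the path that closes the odd circuit -/
theorem C5_pass {x y : E} (hc : G.Cub) (hT : G.HT T) (hN : N ⊆ T) (hu : G.US N) (h4 : N.card = 4)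
    (hq : G.Q4 N a b c d) (sp : G.Sp N a b X) (e1 : N \ X = {G.ie N c, G.ie N d})
    (dv : G.Dv N c d) (qx : G.Q4 X a b x y) (ir : G.ins (N \ X) = {r})
    (jr : G.Je r (G.ie N c) (G.ie N d)) (hW : W ⊆ T) (hD : D ∈ G.ocs W) (dX : Disjoint X W)
    (s1 : N \ X ⊆ G.vs D) (i1 : G.ins (N \ X) ⊆ D) (hρ : G.Rdy W ∅ ρ)
    (hm : ¬ Disjoint ρ (G.vs D)) (dN : Disjoint N' N) (sρ : ρ ⊆ N')
    (hL : ∀ e ∈ G.cut ρ ∩ G.cut W, e ∈ G.ins N') (ha : a ∉ G.tch (G.vs D))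
    (hb : b ∉ G.tch (G.vs D)) (hr : G.Qr N X a b c d s s) :
    ∃ O, G.par (O ∩ G.ins (X ∪ G.vs D)) = s ∧
      G.Pas0 (X ∪ G.vs D) O a b (G.cut ρ ∩ G.cut W) {G.tg W ρ} Rl.Cs := by
  obtain ⟨dI, cD, oD⟩ := SG.mem_ocs.1 hD
  have dD : Disjoint X (G.vs D) := dX.mono_right (SG.ocs_vs hD).1
  have XT := sp.1.trans hN
  obtain ⟨qr, -, -, -, dv2, -, cr⟩ := sp.link hc hT hN hq qx
  have dv1 := (sp.str hc hT hN hq).2.2.2.2.2.2.1
  have c2 : X.card ≤ 2 := by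
    have k := card_sdiff_add_card_eq_card sp.1
    rw [e1, card_pair dv] at k
    omega
  obtain ⟨u, w, m, uw, -, im, jm⟩ := hT.rung hc XT qx.card c2
  have mi : m ∈ G.ins X := im ▸ mem_singleton_self m
  have ri : r ∈ G.ins (N \ X) := ir ▸ mem_singleton_self r
  obtain ⟨p, hp⟩ : G.Bal (G.ins X) :=
    im ▸ SG.Cut_bal1 (hT.noloop hc (SG.tch_mono XT (SG.ins_sub_tch mi)))
  obtain ⟨q, hq'⟩ : G.Bal (G.ins (N \ X)) :=
    ir ▸ SG.Cut_bal1 (hT.noloop hc (SG.tch_mono (sdiff_subset.trans hN) (SG.ins_sub_tch ri)))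
  have xc : x ∈ G.cut (G.vs D) := (SG.Ab_link dD (SG.cut_sub_tch qx.mem.2.2.1)
    (SG.tch_mono s1 (SG.cut_sub_tch qr.mem.1))).2
  have yc : y ∈ G.cut (G.vs D) := (SG.Ab_link dD (SG.cut_sub_tch qx.mem.2.2.2)
    (SG.tch_mono s1 (SG.cut_sub_tch qr.mem.2.1))).2
  have j1 : G.Je r (G.ie (N \ X) x) (G.ie (N \ X) y) := by
    rcases C5_two e1 (SG.ie_mem (SG.cut_sub_tch qr.mem.1))
      (SG.ie_mem (SG.cut_sub_tch qr.mem.2.1)) dv2 with ⟨k1, k2⟩ | ⟨k1, k2⟩ <;> rw [k1, k2]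
    exacts [jr, jr.symm]
  have j2 : G.Je r (G.ie (G.vs D) x) (G.ie (G.vs D) y) := by
    rwa [← (SG.cut_of_sub s1 xc (SG.cut_sub_tch qr.mem.1)).2,
      ← (SG.cut_of_sub s1 yc (SG.cut_sub_tch qr.mem.2.1)).2]
  have rD := i1 ri
  have h2 := path_cs hc hT hW dI cD hρ hm rD
    (SG.PQ_ins ((dN.symm.mono_left sdiff_subset).mono_right sρ) ri) xc yc j2 rfl
  obtain ⟨O1, p1, h1⟩ := SG.bdp hc hT XT qx dv1 hp
  obtain ⟨h3, p3⟩ := h1.close (L := G.cut ρ ∩ G.cut W) (D' := Rl.Cs) h2 dD ha hb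
    (fun e k => absurd k (notMem_empty e))
    (fun e k _ => ⟨SG.PQ_ins (dN.mono_right sp.1) (hL e k), k⟩) fun _ _ k1 k2 => k1.cl_cs k2
  rw [Set.empty_union] at h3
  refine ⟨_, ?_, h3⟩
  have e2 : insert x (insert y (D.erase r)) ∩ G.ins (G.vs D) = D.erase r := by
    rw [insert_inter_of_notMem (SG.not_ins_of_cut xc), insert_inter_of_notMem
      (SG.not_ins_of_cut yc), inter_eq_left]
    exact (erase_subset _ _).trans (SG.sub_ins_vs (dI.trans SG.ins_sub_A))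
  have e3 : G.n r + G.par (D.erase r) = 1 := oD ▸ add_sum_erase D G.n rD
  have e4 := SG.sgn sp.1 cr hu.2 hp hq'
  have e5 := hq' r ri
  rw [SG.Cut_sw j1] at e5
  obtain ⟨O, k1, k2⟩ := hr
  rw [p3, p1, e2, ← k1, C5_par k2.2.1 k2.1 hp]
  linear_combination e3 + e4 - e5 + z2_add_self 1

/-- a rung that is left over and lies on an odd circuit is ready -/
theorem C5_rdy (h : F.Ok G T) (hM : F.IsM G M) (hD : D ∈ G.ocs (F.W0 M σ)) (hl : l ≤ M.n j)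
    (hm : ¬ Disjoint (M.w j l) (G.vs D)) (hρ : ρ = M.w j l \ F.xs M σ j l) :
    F.Nd M j l ∧ G.Rdy (F.W0 M σ) ∅ ρ ∧ ¬ Disjoint ρ (G.vs D) ∧
      (∀ e ∈ G.cut ρ ∩ G.cut (F.W0 M σ), e ∈ G.ins (M.w j l) ∧ e ∈ G.tch (F.xs M σ j l)) ∧
      ∃ c d, G.Q4 (M.w j l) (F.e M j l) (F.e M j (l + 1)) c d ∧ G.tg (F.W0 M σ) ρ ⊆ {c, d} := by
  obtain ⟨dI, cD, -⟩ := SG.mem_ocs.1 hD
  have dW : Disjoint (F.W0 M σ) (F.xs M σ j l) :=
    disjoint_left.2 fun z hz => (MB4_W0.1 hz).2 j l hl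
  obtain ⟨f1, s1, -, cd⟩ := rung_on h hM hl dW dI cD.2.1 hm
  obtain ⟨n1, H⟩ := lf_str h hM f1
  obtain ⟨c, d, q1⟩ := hM.q4 h n1
  obtain ⟨sp, e1, dv, x, y, r, qx, qr, ir, jr⟩ := H c d q1
  obtain ⟨-, xi, yi, -, dv2, -, -⟩ := sp.link h.hc h.hT (MB4_nd h n1).1 q1 qx
  rw [← hρ] at s1 e1 qr ir dv2
  have sW := s1.trans (SG.ocs_vs hD).1
  have xt := SG.cut_sub_tch qx.mem.2.2.1
  have yt := SG.cut_sub_tch qx.mem.2.2.2
  have xc := (SG.Ab_link dW.symm xt (SG.tch_mono sW (SG.cut_sub_tch qr.mem.1))).2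
  have yc := (SG.Ab_link dW.symm yt (SG.tch_mono sW (SG.cut_sub_tch qr.mem.2.1))).2
  have ci := dI (cd c d q1).1
  have di := dI (cd c d q1).2
  have rA : r ∈ G.A := SG.ins_sub_A (ir ▸ mem_singleton_self r : r ∈ G.ins ρ)
  have cρ : ∀ e ∈ G.cut ρ, e = x ∨ e = y ∨ e = c ∨ e = d := fun e he => by
    simpa [qr.1] using he
  refine ⟨n1, ⟨sW, ⟨_, _, dv, e1, r, rA, jr⟩, fun z hz => ⟨?_, ?_⟩⟩, fun k => ?_, fun e he => ?_,
    c, d, q1, fun e he => ?_⟩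
  · have k := C5_two e1 (SG.ie_mem (SG.cut_sub_tch qr.mem.1))
      (SG.ie_mem (SG.cut_sub_tch qr.mem.2.1)) dv2
    have k' : z = G.ie ρ x ∨ z = G.ie ρ y := by
      rw [e1, mem_insert, mem_singleton] at hz
      rcases k with ⟨k1, k2⟩ | ⟨k1, k2⟩ <;> rw [k1, k2]
      exacts [hz, hz.symm]
    rcases k' with rfl | rfl
    exacts [⟨x, xc, notMem_empty _, SG.ie_at⟩, ⟨y, yc, notMem_empty _, SG.ie_at⟩]
  · rw [e1, mem_insert, mem_singleton] at hz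
    rcases hz with rfl | rfl
    exacts [⟨c, mem_inter.2 ⟨qr.mem.2.2.1, ci⟩, SG.ie_at⟩,
      ⟨d, mem_inter.2 ⟨qr.mem.2.2.2, di⟩, SG.ie_at⟩]
  · have k' := SG.ie_mem (SG.cut_sub_tch qr.mem.1)
    exact disjoint_left.1 k k' (s1 k')
  · rcases cρ e (mem_inter.1 he).1 with rfl | rfl | rfl | rfl
    exacts [⟨xi, xt⟩, ⟨yi, yt⟩, absurd ci (SG.not_ins_of_cut (mem_inter.1 he).2),
      absurd di (SG.not_ins_of_cut (mem_inter.1 he).2)]
  · rcases cρ e (mem_inter.1 he).1 with rfl | rfl | rfl | rfl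
    exacts [absurd (mem_inter.1 he).2 (SG.not_ins_of_cut xc),
      absurd (mem_inter.1 he).2 (SG.not_ins_of_cut yc), mem_insert_self _ _,
      mem_insert_of_mem (mem_singleton_self _)]

theorem st_xp (h : F.Ok G T) (hH : ¬ F.WinN G g) (hM : F.IsM G M) (hc : F.Cls G M σ)
    (hty : F.ty = false) (hD : D ∈ G.ocs (F.W0 M σ)) (hk : k ≤ M.n i) (hl : l ≤ M.n (!i))
    (m1 : ¬ Disjoint (M.w i k) (G.vs D)) (m2 : ¬ Disjoint (M.w (!i) l) (G.vs D))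
    (hs : G.vs D ⊆ M.w i k ∪ M.w (!i) l ∪ F.rest M) : (M.w i k).card ≠ 4 := by
  intro h4
  obtain ⟨nF, nu0⟩ := par0 h hH hM hc
  obtain ⟨dI, cD, oD⟩ := SG.mem_ocs.1 hD
  have sW := (SG.ocs_vs hD).1
  obtain ⟨rW, WY⟩ := W0_sub (σ := σ) h hM
  have WT := WY.trans h.hY
  have dW : ∀ j, ∀ r ≤ M.n j, Disjoint (F.W0 M σ) (F.xs M σ j r) := fun j r hr =>
    disjoint_left.2 fun z hz => (MB4_W0.1 hz).2 j r hr
  obtain ⟨f1, s1, i1, -⟩ := rung_on h hM hk (dW i k hk) dI cD.2.1 m1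
  obtain ⟨n1, H⟩ := lf_str h hM f1
  obtain ⟨c, d, q1⟩ := hM.q4 h n1
  obtain ⟨sp, e1, dv, x, y, r, qx, -, ir, jr⟩ := H c d q1
  obtain ⟨n2, ry, mρ, lv, c', d', q2, tg⟩ := C5_rdy h hM hD hl m2 rfl
  have NT := (MB4_nd h n1).1
  have dN : Disjoint (M.w (!i) l) (M.w i k) := hM.disj h.wf hl hk (by simp)
  have XN := sp.1
  have st := sp.str h.hc h.hT NT q1
  have sD : G.vs D ⊆ M.w i k \ F.xs M σ i k ∪ M.w (!i) l ∪ F.rest M := fun z hz => by
    have k1 := hs hz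
    have k2 := disjoint_left.1 (dW i k hk) (sW hz)
    simp only [mem_union, mem_sdiff] at k1 ⊢
    (clear * - k1 k2 st; grind)
  have nt : ∀ r ≤ M.n i + 1, F.e M i r ∉ G.tch (M.w i k \ F.xs M σ i k) →
      F.e M i r ∉ G.tch (G.vs D) := fun r hr k1 k2 => by
    have k3 := SG.tch_mono sD k2
    rw [SG.tch_union, SG.tch_union, mem_union, mem_union] at k3
    rcases k3 with (k3 | k3) | k3
    · exact k1 k3
    · simpa using ((hM.e_tch h.wf hr hl).1 k3).1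
    · exact hM.e_rest h.wf hr k3
  obtain ⟨O', p0, hp⟩ := C5_pass h.hc h.hT NT (h.bx _ n1.2).1 h4 q1 sp e1 dv qx ir jr WT hD
    (dW i k hk).symm s1 i1 ry mρ dN sdiff_subset (fun e he => (lv e he).1)
    (nt k (by omega) st.2.2.2.2.2.2.2.2.1) (nt (k + 1) (by omega) st.2.2.2.2.2.2.2.2.2.1)
    (pkg h hH hM hc n1 q1).1
  obtain ⟨t, t1, t2, t3⟩ := ST2_t h hc i
  generalize hZ : ({M.w i k} : Finset (Finset V)) = Zs
  have z1 : M.w i k ∈ Zs := hZ ▸ mem_singleton_self _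
  have z2 : ∀ j, ∀ r ≤ M.n j, M.w j r ∈ Zs ↔ j = i ∧ r = k := fun j r hr => by
    rw [← hZ, mem_singleton]
    refine ⟨fun k' => hM.inj hk hr k'.symm, ?_⟩
    rintro ⟨rfl, rfl⟩
    rfl
  have z3 : ∀ r ≤ M.n (!i), M.w (!i) r ∉ Zs := fun r hr => by simp [z2 _ r hr]
  have hq : ∀ j, F.QS G M σ σ j Zs := fun j => (qs_real h hH hM hc j).mono (empty_subset _)
  have oW : ∀ j, Disjoint (F.xo M σ j Zs) (F.W0 M σ) := fun j => disjoint_left.2 fun z hz k' => by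
    obtain ⟨r, k1, -, k2⟩ := mem_xo.1 hz
    exact (MB4_W0.1 k').2 j r k1 k2
  have oX : ∀ j, Disjoint (F.xo M σ j Zs) (F.xs M σ i k ∪ G.vs D) := fun j =>
    disjoint_union_right.2 ⟨ST2_ud h hM hk (Or.inl z1) (XN.trans subset_union_left),
      (oW j).mono_right sW⟩
  have hY : F.xs M σ i k ∪ G.vs D ⊆ F.Y :=
    union_subset (XN.trans (hM.node h.wf hk).2.2.1) (sW.trans WY)
  have x2 : F.xs M σ (!i) l ⊆ F.xo M σ (!i) Zs := fun z hz => mem_xo.2 ⟨l, hl, z3 l hl, hz⟩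
  obtain ⟨O1, p1, h1, -⟩ := trk1 h hM (hq i) hk (fun r hr => by simp [z2 _ r hr]) hp hY (oX i)
    fun e he _ => SG.PQ_ins (ST2_ud h hM hl (Or.inr rfl) subset_union_left).symm (lv e he).1
  obtain ⟨O2, p2, h2⟩ := trk0 h hM (hq (!i)) z3
  have e2 : F.ts G M σ i = F.tz G M σ i Zs + σ (M.w i k) := hZ ▸ tz_ins hM n1 (notMem_empty _)
  have e3 : F.ts G M σ (!i) = F.tz G M σ (!i) Zs :=
    tz_off fun r hr => iff_of_false (notMem_empty _) (z3 r hr.1)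
  rw [e2, e3] at t2 t3
  have y1 := union_subset (ST2_sub (σ := σ) (j := i) (Zs := Zs) h hM) hY
  have hw := ST2_u2 (t := t) h.wf (h1 (σ (M.w i k)) fun _ k' => k'.mt _) h2 SG.abs0_empty y1
    (ST2_sub h hM) (empty_subset _) (disjoint_union_left.2 ⟨ST2_dis h hM, (oX _).symm⟩)
    (disjoint_empty_right _) (disjoint_empty_right _)
    (fun e he _ => Or.inr ⟨hty, SG.tch_mono x2 (lv e he).2⟩)
    (fun e he => absurd he (notMem_empty e)) fun R k1 k2 => cl_pm k1 k2 t3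
  rw [union_empty, Set.union_empty] at hw
  obtain ⟨v, hv⟩ := (hM.node h.wf hk).2.1
  have eW : F.Y \ (F.xo M σ i Zs ∪ (F.xs M σ i k ∪ G.vs D) ∪ F.xo M σ (!i) Zs) =
      F.W0 M σ \ G.vs D := by
    ext z
    simp only [mem_sdiff, mem_union, not_or]
    constructor
    · rintro ⟨a1, ⟨a2, a3, a4⟩, a5⟩
      refine ⟨MB4_W0.2 ⟨a1, fun j r hr k' => ?_⟩, a4⟩
      by_cases b : M.w j r ∈ Zs
      · obtain ⟨rfl, rfl⟩ := (z2 j r hr).1 b
        exact a3 k'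
      · have b1 : z ∈ F.xo M σ j Zs := mem_xo.2 ⟨r, hr, b, k'⟩
        have e : j = i ∨ j = !i := by cases i <;> cases j <;> simp
        rcases e with rfl | rfl
        exacts [a2 b1, a5 b1]
    · rintro ⟨a1, a2⟩
      exact ⟨WY a1, ⟨disjoint_right.1 (oW _) a1, disjoint_left.1 (dW i k hk) a1, a2⟩,
        disjoint_right.1 (oW _) a1⟩
  refine hH (kfin' h (union_subset y1 (ST2_sub h hM)) hw (Or.inr ⟨_, n1.2, hv⟩)
    (fun B hB => ?_) t1 (Or.inr ?_))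
  · have BT := (h.wf.sub B hB).1.trans h.hY
    rcases hM.box h.wf hB with k1 | ⟨j, r, k1, rfl⟩
    · refine Or.inl (disjoint_union_right.2 ⟨disjoint_union_right.2 ⟨?_,
        disjoint_union_right.2 ⟨?_, ?_⟩⟩, ?_⟩)
      · exact (oW _).symm.mono_left (k1.trans rW)
      · exact (dW i k hk).mono_left (k1.trans rW)
      · refine (SG.ocs_box h.hc h.hT WT nF hD (k1.trans rW) (h.bx B hB).1).2.2.resolve_left
          fun k2 => m1 ?_
        rw [k2]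
        exact (rest_disj hk).mono_right k1
      · exact (oW _).symm.mono_left (k1.trans rW)
    · by_cases b1 : j = i ∧ r = k
      · obtain ⟨rfl, rfl⟩ := b1
        refine Or.inr (Or.inr fun S k2 k3 k4 => absurd ?_ k4)
        rw [eq_of_subset_of_card_le k2 (h4 ▸ h.hT.us_card h.hc (k2.trans BT) k3)]
        exact hv
      by_cases b2 : j = !i ∧ r = l
      · obtain ⟨rfl, rfl⟩ := b2
        refine Or.inr (Or.inr fun S k2 k3 _ => Or.inr ?_)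
        by_cases b3 : c' ∈ G.cut S ∧ d' ∈ G.cut S
        · exact ⟨_, Or.inl (Or.inr rfl), tg.trans (insert_subset b3.1 (singleton_subset_iff.2 b3.2))⟩
        · exact ⟨_, Or.inr ⟨r, k1, z3 r hl, c', d', q2, ⟨S, k2, k3, rfl⟩, Or.inr (not_and_or.1 b3)⟩,
            Subset.rfl⟩
      have d1 := hM.disj h.wf hk k1.1 b1
      have d2 := hM.disj h.wf hl k1.1 b2
      refine ST2_bk h hM k1 (fun k2 => b1 ((z2 j r k1.1).1 k2))
        (disjoint_union_right.2 ⟨d1.symm.mono_right XN, Disjoint.mono_right hs ?_⟩)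
      exact disjoint_union_right.2 ⟨disjoint_union_right.2 ⟨d1.symm, d2.symm⟩, rest_disj k1.1⟩
  · have e4 := SG.nu_remove h.hc nF dI cD oD
    have e5 : G.par ∅ = 0 := sum_empty
    rw [eW, p1, p2, p0, e5]
    linear_combination e4 - nu0 - t2 - z2_add_self F.nat

end Kf

end Pool.Agent.Work.MP_8c679b_co
end
end

-- merged part: Pool.Agent.Work.MP_8c679b_co.Key.U2
section
-- merged part: Pool.Agent.Work.MP_8c679b_co.Key.C6
section
/-!
No odd circuit passes a rung that is left over; the rest of a closable member.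

Hints.  `rg_two`: subsets of `F.rest M ∩ G.vs D` are saturated (`sa_real`, `ocs_box`, `par0`).
`pbr` gives `p, U3, j0, y`; `lkn_cat` joins the arc that contains `p` with `U3`.  One ring: `j0` is
`i` or `!i`; apply `rg_ear` at the node on track `j0` (for the node on `!i` use `Lkn.symm`; the
edges `c', d'` are its outer edges, `Q4.uniq`, `IsM.q4`).  Two rings: `st_xp` shows that both nodes
are not four-cycles; `route_win` from the node on track `j0` along the arc without `p`, through the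
rung of the other node, then along the arc with `p` and `U3`.
`reg`: strong induction on `lc`.  For `D` not in the rest take a position `(i, k)` met by `D`
(`mem_W0`); `rg_one`, else `nbr`.  A neighbour on the same track: `rg_ear`, second case.  Both
neighbours on `!i`: equal: `rg_two`; different: for one ring `rg_gn` and `gg3` give a contradiction,
for two rings `rg_gn` and `route_win`.
`canon`: `mn_ex`, `two_left`, `reg`, `par0`, `nu_congr`, `FH.mono`.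
-/

set_option autoImplicit false

namespace Pool.Agent.Work.MP_8c679b_co

open Finset

variable {V E : Type} [Fintype V] [DecidableEq V] [DecidableEq E] {G : SG V E}
  {T U Z X B N N' : Finset V} {F : Kf V E} {M M' : Mb V E} {i j : Bool} {k l x y m : ℕ}
  {σ σ' π : Finset V → ZMod 2} {u : ℕ → Finset V} {h : ℕ → E} {a b c d e f : E} {v : V}
  {Zs : Finset (Finset V)} {g s : ZMod 2}
  {D L : Finset E} {U' W ρ : Finset V} {c' d' r : E} {π1 π2 : ZMod 2}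

namespace Kf

omit [Fintype V] [DecidableEq E] in
/-- an edge that leaves `N` towards `U` touches `U` -/
theorem C6_tch (he : e ∈ G.cut N) (ho : G.oe N e ∈ U) : e ∈ G.tch U := by
  have hA : e ∈ G.A := (mem_filter.1 he).1
  refine mem_filter.2 ⟨hA, ?_⟩
  unfold SG.oe at ho
  split_ifs at ho with h1
  · exact Or.inr ho
  · exact Or.inl ho

/-- an odd circuit that meets a position passes its rung -/
theorem C6_lf (h : F.Ok G T) (hM : F.IsM G M) (hD : D ∈ G.ocs (F.W0 M σ)) (hk : k ≤ M.n i)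
    (m1 : ¬ Disjoint (M.w i k) (G.vs D)) : F.Lf M σ i k := by
  obtain ⟨h1, h2, -⟩ := SG.mem_ocs.1 hD
  refine (rung_on h hM hk (W := F.W0 M σ) ?_ h1 h2.2.1 m1).1
  rw [disjoint_left]
  intro v hv
  exact (MB4_W0.1 hv).2 i k hk

/-- parts of the rest on an odd circuit that meets a position are saturated -/
theorem C6_sa (h : F.Ok G T) (hH : ¬ F.WinN G g) (hM : F.IsM G M) (hc : F.Cls G M σ)
    (hD : D ∈ G.ocs (F.W0 M σ)) (hk : k ≤ M.n i) (m1 : ¬ Disjoint (M.w i k) (G.vs D))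
    (s1 : U ⊆ F.rest M ∩ G.vs D) : F.Sa U := by
  refine sa_real fun B hB => ?_
  rcases hM.box h.wf hB with hr | ⟨j, l, hl, rfl⟩
  · have hW := W0_sub (σ := σ) h hM
    obtain ⟨-, -, k1 | k1⟩ := SG.ocs_box h.hc h.hT (hW.2.trans h.hY) (par0 h hH hM hc).1 hD
      (hr.trans hW.1) (h.bx B hB).1
    · exact absurd ((rest_disj (F := F) hk).mono_right (k1 ▸ hr)) m1
    · exact k1.mono_right (s1.trans inter_subset_right)
  · exact (rest_disj (F := F) hl.1).mono_right (s1.trans inter_subset_left)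

/-- the end of a link from another track is not an edge of the track -/
theorem C6_out (h : F.Ok G T) (hM : F.IsM G M) (hk : k ≤ M.n i) (hj : i ≠ j)
    (l1 : G.Lkn U (M.w i k) c (M.w j l) c') (s1 : U ⊆ F.rest M) (hx : x ≤ M.n j + 1) :
    c' ≠ F.e M j x := by
  intro hc
  obtain ⟨k1, k2, -, k3 | ⟨-, k3⟩⟩ := l1
  · have : F.e M j x ∈ G.tch (M.w i k) := by
      rw [← hc, ← k3]
      exact SG.cut_sub_tch k1
    exact hj ((hM.e_tch h.wf hx hk).1 this).1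
  · have : F.e M j x ∈ G.tch (F.rest M) := by
      rw [← hc]
      exact C6_tch k2 (s1 k3)
    exact hM.e_rest h.wf hx this

/-- the ends of two links from another track are the outer edges of the node -/
theorem C6_q4 (h : F.Ok G T) (hM : F.IsM G M) (hk : k ≤ M.n i) (hl : F.Nd M j l) (hj : i ≠ j)
    (l1 : G.Lkn U (M.w i k) c (M.w j l) c') (l2 : G.Lkn U' (M.w i k) d (M.w j l) d')
    (hne : c' ≠ d') (s1 : U ⊆ F.rest M) (s2 : U' ⊆ F.rest M) :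
    G.Q4 (M.w j l) (F.e M j l) (F.e M j (l + 1)) c' d' := by
  obtain ⟨c2, d2, hq⟩ := hM.q4 h hl
  have hl1 : l ≤ M.n j + 1 := hl.1.trans (Nat.le_succ _)
  have hl2 : l + 1 ≤ M.n j + 1 := Nat.succ_le_succ hl.1
  have a1 := C6_out h hM hk hj l1 s1 hl1
  have a2 := C6_out h hM hk hj l1 s1 hl2
  have b1 := C6_out h hM hk hj l2 s2 hl1
  have b2 := C6_out h hM hk hj l2 s2 hl2
  have k1 := l1.2.1
  have k2 := l2.2.1
  rw [hq.1] at k1 k2
  simp only [mem_insert, mem_singleton, a1, a2, b1, b2, false_or] at k1 k2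
  rcases k1 with rfl | rfl <;> rcases k2 with rfl | rfl
  · exact absurd rfl hne
  · exact hq
  · exact hq.swap2
  · exact absurd rfl hne

theorem C6_xp (h : F.Ok G T) (hH : ¬ F.WinN G g) (hM : F.IsM G M) (hc : F.Cls G M σ)
    (hty : F.ty = false) (hD : D ∈ G.ocs (F.W0 M σ)) (hj : j = !i) (hk : k ≤ M.n i)
    (hl : l ≤ M.n j) (m1 : ¬ Disjoint (M.w i k) (G.vs D)) (m2 : ¬ Disjoint (M.w j l) (G.vs D))
    (hs : G.vs D ⊆ M.w i k ∪ M.w j l ∪ F.rest M) : (M.w i k).card ≠ 4 := by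
  subst hj
  exact st_xp h hH hM hc hty hD hk hl m1 m2 hs

/-- the case that the branch starts on the first arc and ends on the second track -/
theorem C6_core {U3 : Finset V} {p : V} (h : F.Ok G T) (hH : ¬ F.WinN G g) (hM : F.IsM G M)
    (hc : F.Cls G M σ) (ht : F.Tl M σ)
    (hI : ∀ M' σ', F.IsM G M' → F.Cls G M' σ' → F.Tl M' σ' → F.lc M' σ' < F.lc M σ → F.Reg G M' σ')
    (hD : D ∈ G.ocs (F.W0 M σ)) (hj : j = !i) (hk : k ≤ M.n i) (hl : l ≤ M.n j)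
    (m1 : ¬ Disjoint (M.w i k) (G.vs D)) (m2 : ¬ Disjoint (M.w j l) (G.vs D))
    (hq : G.Q4 (M.w i k) (F.e M i k) (F.e M i (k + 1)) c d)
    (hq' : G.Q4 (M.w j l) (F.e M j l) (F.e M j (l + 1)) c' d')
    (l1 : G.Lkn U (M.w i k) c (M.w j l) c') (l2 : G.Lkn U' (M.w i k) d (M.w j l) d')
    (s1 : U ⊆ F.rest M ∩ G.vs D) (s2 : U' ⊆ F.rest M ∩ G.vs D) (hd : Disjoint U U')
    (hs : G.vs D ⊆ M.w i k ∪ M.w j l ∪ F.rest M) (hp : p ∈ U) (hcc : c ≠ c')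
    (hy : y ≤ M.n j) (hyl : y ≠ l) (l3 : G.Lkn U3 {p} e (M.w j y) f)
    (s3 : U3 ⊆ F.rest M \ G.vs D) (a3 : F.Sa U3) (e3 : e = f → U3 = ∅) : False := by
  have hij : i ≠ j := by
    rw [hj]
    cases i <;> simp
  have hi : i = !j := by
    rw [hj]
    simp
  have r1 : U ⊆ F.rest M := s1.trans inter_subset_left
  have r2 : U' ⊆ F.rest M := s2.trans inter_subset_left
  have r3 : U ∪ U3 ⊆ F.rest M := union_subset r1 (s3.trans sdiff_subset)
  have a1 : F.Sa U := C6_sa h hH hM hc hD hk m1 s1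
  have a2 : F.Sa U' := C6_sa h hH hM hc hD hk m1 s2
  have hpn : p ∉ M.w j y := fun k1 => disjoint_left.1 (rest_disj (F := F) hy) k1 (r1 hp)
  cases hty : F.ty
  · have h4 : (M.w j l).card ≠ 4 := by
      refine C6_xp h hH hM hc hty hD hi hl hk m2 m1 ?_
      rwa [union_comm (M.w j l)]
    have L := lkn_cat l1 hcc hp l3 e3 hpn
    have f1 := C6_lf h hM hD hk m1
    have f2 := C6_lf h hM hD hl m2
    have dd : Disjoint U' (U ∪ U3) := by
      rw [disjoint_union_right]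
      refine ⟨hd.symm, ?_⟩
      rw [disjoint_left]
      intro v k1 k2
      exact (mem_sdiff.1 (s3 k2)).2 (mem_inter.1 (s2 k1)).2
    subst hj
    exact route_win h hH hM hc hty f1 f2 h4 hq.swap2 hy hyl l2.symm L r2 r3 a2 (a1.union a3) dd
  · have L := lkn_cat l1.symm hcc.symm hp l3 e3 hpn
    exact rg_ear h hH hM hc ht hI hl hk hD m2 m1 hy hyl hq' L r3 (a1.union a3)
      (Or.inl ⟨hty, hij⟩)

theorem rg_two (h : F.Ok G T) (hH : ¬ F.WinN G g) (hM : F.IsM G M) (hc : F.Cls G M σ)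
    (ht : F.Tl M σ)
    (hI : ∀ M' σ', F.IsM G M' → F.Cls G M' σ' → F.Tl M' σ' → F.lc M' σ' < F.lc M σ → F.Reg G M' σ')
    (hD : D ∈ G.ocs (F.W0 M σ)) (hk : k ≤ M.n i) (hl : l ≤ M.n (!i))
    (m1 : ¬ Disjoint (M.w i k) (G.vs D)) (m2 : ¬ Disjoint (M.w (!i) l) (G.vs D))
    (hq : G.Q4 (M.w i k) (F.e M i k) (F.e M i (k + 1)) c d)
    (l1 : G.Lkn U (M.w i k) c (M.w (!i) l) c') (l2 : G.Lkn U' (M.w i k) d (M.w (!i) l) d')
    (hne : c' ≠ d') (s1 : U ⊆ F.rest M ∩ G.vs D) (s2 : U' ⊆ F.rest M ∩ G.vs D)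
    (hd : Disjoint U U') (e1 : c' = c → U = ∅) (e2 : d' = d → U' = ∅)
    (hs : G.vs D ⊆ M.w i k ∪ M.w (!i) l ∪ U ∪ U') : False := by
  have hij : i ≠ !i := by cases i <;> simp
  have hi : i = !(!i) := by simp
  have r1 : U ⊆ F.rest M := s1.trans inter_subset_left
  have r2 : U' ⊆ F.rest M := s2.trans inter_subset_left
  have hq' := C6_q4 h hM hk (MB4_lf_nd (C6_lf h hM hD hl m2)) hij l1 l2 hne r1 r2
  have hs1 : G.vs D ⊆ M.w i k ∪ M.w (!i) l ∪ F.rest M :=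
    hs.trans (union_subset (union_subset subset_union_left (r1.trans subset_union_right))
      (r2.trans subset_union_right))
  have hs2 : G.vs D ⊆ M.w (!i) l ∪ M.w i k ∪ F.rest M := by rwa [union_comm (M.w (!i) l)]
  obtain ⟨p, hp, e, f, U3, j0, y, hy, n1, n2, l3, s3, a3, e3⟩ :=
    pbr h hH hM hc hD hk hl (fun k1 => hij k1.1.symm) m1 m2 hq l1 l2 s1 s2 hs
  have hj0 : j0 = i ∨ j0 = !i := by cases i <;> cases j0 <;> simp
  rcases mem_union.1 hp with hp | hp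
  · have hcc : c ≠ c' := fun k1 => by simp [e1 k1.symm] at hp
    rcases hj0 with rfl | rfl
    · exact C6_core h hH hM hc ht hI hD hi hl hk m2 m1 hq' hq l1.symm l2.symm s1 s2 hd hs2 hp
        hcc.symm hy (fun k1 => n1 ⟨rfl, k1⟩) l3 s3 a3 e3
    · exact C6_core h hH hM hc ht hI hD rfl hk hl m1 m2 hq hq' l1 l2 s1 s2 hd hs1 hp
        hcc hy (fun k1 => n2 ⟨rfl, k1⟩) l3 s3 a3 e3
  · have hcc : d ≠ d' := fun k1 => by simp [e2 k1.symm] at hp
    rcases hj0 with rfl | rfl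
    · exact C6_core h hH hM hc ht hI hD hi hl hk m2 m1 hq'.swap2 hq.swap2 l2.symm l1.symm s2 s1
        hd.symm hs2 hp hcc.symm hy (fun k1 => n1 ⟨rfl, k1⟩) l3 s3 a3 e3
    · exact C6_core h hH hM hc ht hI hD rfl hk hl m1 m2 hq.swap2 hq'.swap2 l2 l1 s2 s1 hd.symm
        hs1 hp hcc hy (fun k1 => n2 ⟨rfl, k1⟩) l3 s3 a3 e3

/-- the step of the induction -/
theorem C6_step (h : F.Ok G T) (hH : ¬ F.WinN G g) (hM : F.IsM G M) (hc : F.Cls G M σ)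
    (ht : F.Tl M σ)
    (hI : ∀ M' σ', F.IsM G M' → F.Cls G M' σ' → F.Tl M' σ' → F.lc M' σ' < F.lc M σ → F.Reg G M' σ')
    (hD : D ∈ G.ocs (F.W0 M σ)) (hk : k ≤ M.n i) (m1 : ¬ Disjoint (M.w i k) (G.vs D)) :
    False := by
  have f1 := C6_lf h hM hD hk m1
  obtain ⟨c, d, hq⟩ := hM.q4 h (MB4_lf_nd f1)
  by_cases ho : G.vs D ⊆ M.w i k ∪ F.rest M
  · exact m1 (rg_one h hH hM hc hk hD ho)
  obtain ⟨j, l, c', U, j', l', d', U', hl, hl', n1, n2, m2, m3, l1, l2, hne, s1, s2, hd, e1, e2,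
    hs⟩ := nbr h hM hD hk m1 hq ho
  have r1 : U ⊆ F.rest M := s1.trans inter_subset_left
  have r2 : U' ⊆ F.rest M := s2.trans inter_subset_left
  have a1 : F.Sa U := C6_sa h hH hM hc hD hk m1 s1
  have a2 : F.Sa U' := C6_sa h hH hM hc hD hk m1 s2
  by_cases hj : j = i
  · subst hj
    exact rg_ear h hH hM hc ht hI hk hl hD m1 m2 hl (fun k1 => n1 ⟨rfl, k1⟩) hq l1 r1 a1
      (Or.inr ⟨rfl, rfl, s1.trans inter_subset_right⟩)
  by_cases hj' : j' = i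
  · subst hj'
    exact rg_ear h hH hM hc ht hI hk hl' hD m1 m3 hl' (fun k1 => n2 ⟨rfl, k1⟩) hq.swap2 l2 r2 a2
      (Or.inr ⟨rfl, rfl, s2.trans inter_subset_right⟩)
  obtain rfl : j = !i := by cases i <;> cases j <;> (clear * - hj; simp_all)
  obtain rfl : j' = !i := by cases i <;> cases j' <;> simp_all
  by_cases hll : l' = l
  · subst hll
    exact rg_two h hH hM hc ht hI hD hk hl m1 m2 hq l1 l2 hne s1 s2 hd e1 e2 (hs ⟨rfl, rfl⟩)
  cases hty : F.ty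
  · obtain ⟨f2, -, h4, -⟩ := rg_gn h hH hM hc ht (Or.inr rfl) hl hl' (fun k1 => hll k1.2) hD m2 m3
    exact route_win h hH hM hc hty f1 f2 h4 hq hl' hll l1.symm l2 r1 r2 a1 a2 hd
  · obtain ⟨-, -, -, π1, g1⟩ := rg_gn h hH hM hc ht (Or.inl hty) hk hl n1 hD m1 m2
    obtain ⟨-, -, -, π2, g2⟩ := rg_gn h hH hM hc ht (Or.inl hty) hl hk
      (fun k1 => n1 ⟨k1.1.symm, k1.2.symm⟩) hD m2 m1
    rcases gg3 h hH hM hc (Or.inl hty) ⟨k, hk, rfl, rfl, rfl⟩ ⟨l, hl, rfl, rfl, rfl⟩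
      (fun k1 => n1 (hM.inj hk hl k1)) g1 g2 (Or.inl hty)
      (MB4_lf_nd (C6_lf h hM hD hl' m3)) with k1 | k1
    · exact n2 (hM.inj hk hl' k1.symm)
    · exact hll (hM.inj hl hl' k1.symm).2

theorem C6_reg (h : F.Ok G T) (hH : ¬ F.WinN G g) (n : ℕ) : ∀ M σ, F.IsM G M → F.Cls G M σ →
    F.Tl M σ → F.lc M σ = n → F.Reg G M σ := by
  induction n using Nat.strong_induction_on with
  | _ n ih =>
  intro M σ hM hc ht hn
  refine Subset.antisymm (fun D hD => ?_) (SG.ocs_mono (W0_sub h hM).1)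
  refine (SG.ocs_vs hD).2.2 _ fun v hv => ?_
  rcases (mem_W0 h hM).1 ((SG.ocs_vs hD).1 hv) with k1 | ⟨i, k, hk, k1⟩
  · exact k1
  · refine (C6_step h hH hM hc ht (fun M' σ' h1 h2 h3 h4 => ih _ (hn ▸ h4) M' σ' h1 h2 h3 rfl) hD hk
      (fun k2 => ?_)).elim
    exact disjoint_left.1 k2 (mem_sdiff.1 k1).1 hv

theorem reg (h : F.Ok G T) (hH : ¬ F.WinN G g) (hM : F.IsM G M) (hc : F.Cls G M σ)
    (ht : F.Tl M σ) : F.Reg G M σ :=
  C6_reg h hH _ M σ hM hc ht rfl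

theorem canon (h : F.Ok G T) (hH : ¬ F.WinN G g) (hM : F.IsM G M) (hc : F.Cb G M) :
    ¬ G.FH (F.rest M) ∧ G.nu (F.rest M) = g + F.nat + 1 := by
  obtain ⟨σ, hm⟩ := mn_ex hc
  have hr := reg h hH hM hm.1 (two_left h hM hm)
  obtain ⟨k1, k2⟩ := par0 h hH hM hm.1
  exact ⟨fun k3 => k1 (k3.mono (W0_sub h hM).1), (SG.nu_congr hr).symm.trans k2⟩

end Kf

end Pool.Agent.Work.MP_8c679b_co
end

-- merged part: Pool.Agent.Work.MP_8c679b_co.Key.G1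
section
/-!
Minimal configurations.

Hints.  `canon` gives that the rest is not `FH`.  `mc_ex`: the number of odd circuits of a rest is
at most that of `F.Y`; take a closable member with the largest number, an odd circuit, a root
(`root_ex` if `F.z ∉ G.ins (F.rest M)`, else any vertex; `IsM.j_rest`, `F.Ok.ct`), then minimise
twice (`Nat.find`).  `mc_bal`: `reroot` gives a configuration with the same member and a smaller
cluster; its labels lie in the label `a`.  `mc_ocs`: `clu_ocs`.  `box_clu`: `IsM.box`, `ocs_box`,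
`HT.cn4`, `lb_conn`.  `at_three`: `lb_four`, `lb_out`, `at_edge`.  `cfg_move`: `lb_move`, then `mx`,
`m1`, `m2`.
-/

set_option autoImplicit false

namespace Pool.Agent.Work.MP_8c679b_co

open Finset

variable {V E : Type} [Fintype V] [DecidableEq V] [DecidableEq E] {G : SG V E}
  {T U Z X B N N' : Finset V} {F : Kf V E} {M M' : Mb V E} {i j j' : Bool} {k l x y m : ℕ}
  {σ σ' π : Finset V → ZMod 2} {u : ℕ → Finset V} {h : ℕ → E} {c d e f : E} {a b v q0 : V}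
  {Zs : Finset (Finset V)} {g s : ZMod 2} {Q D : Finset E} {α β x1 x2 x3 y1 y2 : ℕ}

namespace Kf

theorem G1_min {γ : Type} {P : γ → Prop} (φ : γ → ℕ) (h : ∃ a, P a) :
    ∃ a, P a ∧ ∀ b, P b → φ a ≤ φ b := by
  obtain ⟨a, h1, h2⟩ := (measure φ).wf.has_min {a | P a} h
  exact ⟨a, h1, fun b hb => not_lt.1 (h2 b hb)⟩

theorem G1_root (hF : F.Ok G T) (hH : ¬ F.WinN G g) (hM : F.IsM G M) (hc : F.Cb G M)
    (hQ : Q ∈ G.ocs (F.rest M)) : ∃ q0, q0 ∈ G.vs Q ∧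
      ∀ q ∈ G.vs Q, q ≠ q0 → Disjoint (G.cut F.Y) (G.tch (G.lb (F.rest M) Q q)) := by
  have key : ∀ q ∈ G.vs Q, ∀ e ∈ G.cut F.Y, e ∈ G.tch (G.lb (F.rest M) Q q) → e = F.z :=
    fun q hq e he k => (hF.ct e he).resolve_left fun k1 =>
      hM.j_rest hF.wf k1 (SG.tch_mono (SG.lb_self hQ hq).2 k)
  by_cases hz : F.z ∈ G.ins (F.rest M)
  · obtain ⟨q0, h0⟩ := (SG.ocs_vs hQ).2.1
    refine ⟨q0, h0, fun q hq _ => disjoint_left.2 fun e he k => ?_⟩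
    rw [key q hq e he k] at he
    exact SG.not_ins_of_cut he (SG.ins_mono sdiff_subset hz)
  · obtain ⟨q0, h0, h1⟩ := SG.root_ex (canon hF hH hM hc).1 hQ hz
    exact ⟨q0, h0, fun q hq hne => disjoint_left.2 fun e he k => h1 q hq hne (key q hq e he k ▸ k)⟩

theorem mc_ex (hF : F.Ok G T) (hH : ¬ F.WinN G g) (hM : F.IsM G M) (hc : F.Cb G M)
    (hu : ¬ G.Bal (G.ins (F.rest M))) : ∃ M' σ Q q0, F.MC G M' σ Q q0 := by
  obtain ⟨M0, ⟨m1, m2⟩, m3⟩ := G1_min (P := fun M' : Mb V E => F.IsM G M' ∧ F.Cb G M')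
    (fun M' => (G.ocs F.Y).card - (G.ocs (F.rest M')).card) ⟨M, hM, hc⟩
  have hle : ∀ M' : Mb V E, (G.ocs (F.rest M')).card ≤ (G.ocs F.Y).card := fun M' =>
    card_le_card (SG.ocs_mono sdiff_subset)
  have mx : ∀ M', F.IsM G M' → F.Cb G M' →
      (G.ocs (F.rest M')).card ≤ (G.ocs (F.rest M0)).card := fun M' k1 k2 => by
    have k3 := m3 M' ⟨k1, k2⟩
    have k4 := hle M'
    have k5 := hle M0
    omega
  have hne : (G.ocs (F.rest M0)).Nonempty := by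
    have k1 : (G.ocs (F.rest M)).Nonempty :=
      nonempty_iff_ne_empty.2 fun k => hu (SG.ocs_empty.1 k)
    exact card_pos.1 ((card_pos.2 k1).trans_le (mx M hM hc))
  obtain ⟨Q0, hQ⟩ := hne
  obtain ⟨q1, r1⟩ := G1_root hF hH m1 m2 hQ
  obtain ⟨σ0, c0⟩ := m2
  obtain ⟨⟨M1, σ1, Q1, v1⟩, ⟨n1, n2⟩, n3⟩ := G1_min
    (P := fun p : Mb V E × (Finset V → ZMod 2) × Finset E × V =>
      F.Cf G p.1 p.2.1 p.2.2.1 p.2.2.2 ∧ (G.ocs (F.rest p.1)).card = (G.ocs (F.rest M0)).card)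
    (fun p => (G.clu (F.rest p.1) p.2.2.1 p.2.2.2).card)
    ⟨(M0, σ0, Q0, q1), ⟨m1, c0, hQ, r1.1, r1.2⟩, rfl⟩
  obtain ⟨⟨M2, σ2, Q2, v2⟩, ⟨o1, o2, o3⟩, o4⟩ := G1_min
    (P := fun p : Mb V E × (Finset V → ZMod 2) × Finset E × V =>
      F.Cf G p.1 p.2.1 p.2.2.1 p.2.2.2 ∧ (G.ocs (F.rest p.1)).card = (G.ocs (F.rest M0)).card ∧
        (G.clu (F.rest p.1) p.2.2.1 p.2.2.2).card = (G.clu (F.rest M1) Q1 v1).card)
    (fun p => F.lc p.1 p.2.1) ⟨(M1, σ1, Q1, v1), n1, n2, rfl⟩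
  dsimp only at n1 n2 n3 o1 o2 o3 o4
  refine ⟨M2, σ2, Q2, v2, o1, fun M' k1 k2 => (mx M' k1 k2).trans_eq o2.symm, fun M' σ' Q' q' k1 k2 => ?_,
    fun M' σ' Q' q' k1 k2 k3 => o4 (M', σ', Q', q') ⟨k1, k2.trans o2, k3.trans o3⟩⟩
  rw [o3]
  exact n3 (M', σ', Q', q') ⟨k1, k2.trans o2⟩

theorem mc_fh (hF : F.Ok G T) (hH : ¬ F.WinN G g) (hm : F.MC G M σ Q q0) :
    ¬ G.FH (F.rest M) ∧ G.nu (F.rest M) = g + F.nat + 1 ∧ F.rest M ⊂ T := by
  obtain ⟨h1, h2⟩ := canon hF hH hm.cf.isM ⟨σ, hm.cf.cls⟩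
  obtain ⟨-, ⟨v, hv⟩, h3, -⟩ := hm.cf.isM.node (i := false) hF.wf (Nat.zero_le _)
  exact ⟨h1, h2, (ssubset_iff_of_subset (sdiff_subset.trans hF.hY)).2
    ⟨v, hF.hY (h3 hv), disjoint_left.1 (rest_disj (Nat.zero_le _)) hv⟩⟩

theorem mc_sig (hm : F.MC G M σ Q q0) (hc : F.Cls G M σ') (hl : F.lc M σ' ≤ F.lc M σ) :
    F.MC G M σ' Q q0 := by
  exact ⟨⟨hm.cf.isM, hc, hm.cf.odd, hm.cf.root, hm.cf.dead⟩, hm.mx, hm.m1,
    fun M' σ2 Q' q' k1 k2 k3 => hl.trans (hm.m2 M' σ2 Q' q' k1 k2 k3)⟩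

theorem mc_reg (hF : F.Ok G T) (hH : ¬ F.WinN G g) (hm : F.MC G M σ Q q0) : F.Reg G M σ := by
  exact reg hF hH hm.cf.isM hm.cf.cls (two_left hF hm.cf.isM ⟨hm.cf.cls, fun σ' hc =>
    hm.m2 M σ' Q q0 ⟨hm.cf.isM, hc, hm.cf.odd, hm.cf.root, hm.cf.dead⟩ rfl rfl⟩)

theorem mc_bal (hF : F.Ok G T) (hH : ¬ F.WinN G g) (hm : F.MC G M σ Q q0)
    (ha : a ∈ G.vs Q) (h0 : a ≠ q0) : G.Bal (G.ins (G.lb (F.rest M) Q a)) := by
  by_contra k
  obtain ⟨D, hD⟩ := nonempty_iff_ne_empty.2 fun k1 => k (SG.ocs_empty.1 k1)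
  obtain ⟨h1, -, h2⟩ := mc_fh hF hH hm
  obtain ⟨h3, h4⟩ := SG.lb_self hm.cf.odd ha
  obtain ⟨q1, h5, h6⟩ := SG.reroot hF.hc hF.hT h2.subset h1 hm.cf.odd ha hD
  have h7 := hm.m1 M σ D q1 ⟨hm.cf.isM, hm.cf.cls, SG.ocs_mono h4 hD, h5, fun q hq hne =>
    (hm.cf.dead a ha h0).mono_right (SG.tch_mono fun v hv =>
      erase_subset _ _ (h6 (SG.mem_clu.2 (Or.inr ⟨q, hq, hne, hv⟩))))⟩ rfl
  have h8 : G.lb (F.rest M) Q a ⊆ G.clu (F.rest M) Q q0 := fun v hv =>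
    SG.mem_clu.2 (Or.inr ⟨a, ha, h0, hv⟩)
  have h9 := card_le_card h6
  have h10 := card_le_card h8
  have h11 := card_erase_lt_of_mem h3
  omega

theorem mc_ocs (hF : F.Ok G T) (hH : ¬ F.WinN G g) (hm : F.MC G M σ Q q0) :
    G.ocs (F.rest M) = insert Q (G.ocs (F.y0 G M Q q0)) ∧ Q ∉ G.ocs (F.y0 G M Q q0) ∧
      G.ocs (G.clu (F.rest M) Q q0) = {Q} ∧ G.nu (F.y0 G M Q q0) = g + F.nat := by
  obtain ⟨h1, h2, -⟩ := mc_fh hF hH hm
  obtain ⟨h3, h4, h5⟩ := SG.clu_ocs hF.hc h1 hm.cf.odd hm.cf.root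
    fun q hq hne => mc_bal hF hH hm hq hne
  refine ⟨h3, h4, h5, ?_⟩
  have h6 := SG.nu_drop (W' := F.y0 G M Q q0) hF.hc h1 hm.cf.odd sdiff_subset
    (fun k => h4 ((SG.ocs_vs hm.cf.odd).2.2 _ k)) fun D hD hne =>
      (SG.ocs_vs ((mem_insert.1 (h3 ▸ hD)).resolve_left hne)).1
  rw [h6, h2, add_assoc, z2_add_self, add_zero]

theorem box_clu (hF : F.Ok G T) (hH : ¬ F.WinN G g) (hm : F.MC G M σ Q q0)
    (hB : B ∈ F.Bs) : B = G.vs Q ∨ Disjoint B (G.clu (F.rest M) Q q0) := by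
  obtain ⟨h1, -, h2⟩ := mc_fh hF hH hm
  rcases hm.cf.isM.box hF.wf hB with h3 | ⟨i, k, h3, rfl⟩
  · have h4 := (hF.bx B hB).1
    refine (SG.ocs_box hF.hc hF.hT h2.subset h1 hm.cf.odd h3 h4).2.2.imp Eq.symm fun h5 =>
      disjoint_left.2 fun v h6 h7 => ?_
    rcases SG.mem_clu.1 h7 with rfl | ⟨a, h8, h9, h10⟩
    · exact disjoint_left.1 h5 h6 hm.cf.root
    · rcases SG.lb_conn (q := a) h3 (hF.hT.cn4 hF.hc (h3.trans h2.subset) h4.1) h5 with k | k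
      · exact h4.2 ((mc_bal hF hH hm h8 h9).mono (SG.ins_mono k))
      · exact disjoint_left.1 k h6 h10
  · exact Or.inr ((rest_disj h3.1).mono_right (SG.clu_sub hm.cf.odd hm.cf.root).2)

theorem at_edge (hF : F.Ok G T) (hH : ¬ F.WinN G g) (hm : F.MC G M σ Q q0)
    (ha : a ∈ G.vs Q) (h0 : a ≠ q0) (he : e ∈ G.cut (G.lb (F.rest M) Q a)) :
    e ∉ G.tch (F.y0 G M Q q0) ∧ (e ∈ Q ∨ ∃ i, ∃ x ≤ M.n i, e ∈ G.cut (M.w i x)) := by
  have h1 := (SG.lb_self hm.cf.odd ha).2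
  rcases SG.lb_cut he with h2 | h2
  · refine ⟨fun h3 => ?_, Or.inl h2⟩
    have h4 := (SG.clu_sub hm.cf.odd hm.cf.root).1
    rcases (SG.mem_tch.1 h3).2 with h5 | h5
    exacts [(mem_sdiff.1 h5).2 (h4 (SG.s_mem_vs h2)), (mem_sdiff.1 h5).2 (h4 (SG.t_mem_vs h2))]
  · refine ⟨SG.FIN_nt h2 h1 sdiff_subset (disjoint_left.2 fun v h3 h4 =>
      (mem_sdiff.1 h4).2 (SG.mem_clu.2 (Or.inr ⟨a, ha, h0, h3⟩))) (SG.cut_sub_tch he), Or.inr ?_⟩
    obtain ⟨h3, x, y, h4, h5, h6⟩ := SG.LB_cut.1 h2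
    have h7 : y ∈ F.Y := by_contra fun k => disjoint_left.1 (hm.cf.dead a ha h0)
      (SG.LB_cut.2 ⟨h3, x, y, h4, (mem_rest.1 h5).1, k⟩) (SG.cut_sub_tch he)
    simp only [mem_rest, h7, true_and, not_forall, not_not] at h6
    obtain ⟨i, k, h8, h9⟩ := h6
    exact ⟨i, k, h8, SG.LB_cut.2 ⟨h3, y, x, h4.symm, h9, (mem_rest.1 h5).2 i k h8⟩⟩

theorem at_three (hF : F.Ok G T) (hH : ¬ F.WinN G g) (hm : F.MC G M σ Q q0) :
    ∃ a b c, a ≠ b ∧ a ≠ c ∧ b ≠ c ∧ (∃ i x, F.At G M Q q0 i x a) ∧ (∃ i x, F.At G M Q q0 i x b) ∧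
      ∃ i x, F.At G M Q q0 i x c := by
  obtain ⟨h1, -, h2⟩ := mc_fh hF hH hm
  have h3 := SG.lb_four hF.hc hF.hT h2 h1 hm.cf.odd
  have h4 : ∀ a ∈ (G.vs Q).erase q0, ∃ i x, F.At G M Q q0 i x a := fun a ha => by
    obtain ⟨h5, h6⟩ := mem_erase.1 ha
    obtain ⟨e, h7, h8⟩ := SG.lb_out hF.hc hF.hT h2.subset h1 hm.cf.odd h6
    obtain ⟨i, x, h9, h10⟩ := (at_edge hF hH hm h6 h5 h7).2.resolve_left fun k =>
      SG.not_ins_of_cut h8 ((SG.mem_ocs.1 hm.cf.odd).1 k)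
    exact ⟨i, x, h6, h5, h9, e, h7, h10⟩
  obtain ⟨a, ha, b, hb, c, hc, h5, h6, h7⟩ := two_lt_card.1
    (show 2 < ((G.vs Q).erase q0).card by rw [card_erase_of_mem hm.cf.root]; omega)
  exact ⟨a, b, c, h5, h6, h7, h4 a ha, h4 b hb, h4 c hc⟩

theorem co_edge (hF : F.Ok G T) (hM : F.IsM G M) (hc : F.Co G M Q q0 i x y) (hy : y ≤ M.n i)
    (ha : a ∈ G.vs Q) (h0 : a ≠ q0) (he : e ∈ G.cut (G.lb (F.rest M) Q a)) :
    e ∉ G.tch (M.gap i x y) := by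
  intro h1
  obtain ⟨h2, h3⟩ := SG.mem_tch.1 h1
  obtain ⟨k, k1, k2, k3⟩ : ∃ k, x < k ∧ k < y ∧ (G.s e ∈ M.w i k ∨ G.t e ∈ M.w i k) := by
    rcases h3 with h3 | h3 <;> obtain ⟨k, k1, k2, k3⟩ := mem_gap.1 h3
    exacts [⟨k, k1, k2, Or.inl k3⟩, ⟨k, k1, k2, Or.inr k3⟩]
  have h4 : k ≤ M.n i := k2.le.trans hy
  refine hc.2 k k1 k2 a ⟨ha, h0, h4, e, he, SG.mem_cut.2 ⟨h2, fun h5 => ?_⟩⟩
  have h6 := @disjoint_left.1 (rest_disj (F := F) h4)
  rcases (SG.mem_tch.1 (SG.cut_sub_tch he)).2 with h7 | h7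
  exacts [h6 (k3.elim id h5.2) (SG.mem_lb.1 h7).1, h6 (k3.elim h5.1 id) (SG.mem_lb.1 h7).1]

theorem cfg_move (hF : F.Ok G T) (hH : ¬ F.WinN G g) (hm : F.MC G M σ Q q0)
    (hM' : F.IsM G M') (hc' : F.Cls G M' σ') (hZ : F.rest M' ⊆ F.rest M ∪ Z)
    (hz : ∀ a ∈ G.vs Q, a ≠ q0 → ∀ e ∈ G.cut (G.lb (F.rest M) Q a), e ∉ G.tch Z)
    (hQ : G.vs Q ⊆ F.rest M') (hy : ∀ D ∈ G.ocs (F.y0 G M Q q0), G.vs D ⊆ F.rest M') :
    G.clu (F.rest M) Q q0 ⊆ F.rest M' ∧ F.lc M σ ≤ F.lc M' σ' ∧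
      G.ocs (F.rest M') = insert Q (G.ocs (F.y0 G M Q q0)) := by
  have h1 := (mc_ocs hF hH hm).1
  have h2 : Q ∈ G.ocs (F.rest M') := (SG.ocs_vs hm.cf.odd).2.2 _ hQ
  have h3 : G.ocs (F.rest M) = G.ocs (F.rest M') :=
    eq_of_subset_of_card_le (h1 ▸ insert_subset h2 fun D hD => (SG.ocs_vs hD).2.2 _ (hy D hD))
      (hm.mx M' hM' ⟨σ', hc'⟩)
  have h4 : ∀ a ∈ G.vs Q, a ≠ q0 → G.lb (F.rest M') Q a ⊆ G.lb (F.rest M) Q a := fun a ha h0 =>
    SG.lb_move hZ (fun e he => Or.inr (hz a ha h0 e he)) ((SG.ocs_vs hm.cf.odd).1 ha)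
  have h5 : F.Cf G M' σ' Q q0 := ⟨hM', hc', h2, hm.cf.root, fun a ha h0 =>
    (hm.cf.dead a ha h0).mono_right (SG.tch_mono (h4 a ha h0))⟩
  have h6 : G.clu (F.rest M') Q q0 = G.clu (F.rest M) Q q0 :=
    eq_of_subset_of_card_le (fun v hv => SG.mem_clu.2 ((SG.mem_clu.1 hv).imp_right
      fun ⟨a, k1, k2, k3⟩ => ⟨a, k1, k2, h4 a k1 k2 k3⟩)) (hm.m1 M' σ' Q q0 h5 (by rw [h3]))
  exact ⟨h6 ▸ (SG.clu_sub h2 hm.cf.root).2, hm.m2 M' σ' Q q0 h5 (by rw [h3]) (by rw [h6]),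
    h3 ▸ h1⟩

theorem two_new {D' : Finset E} (hF : F.Ok G T) (hH : ¬ F.WinN G g) (hm : F.MC G M σ Q q0)
    (hM' : F.IsM G M') (hc' : F.Cb G M') (hy : F.y0 G M Q q0 ⊆ F.rest M')
    (h1 : D ∈ G.ocs (F.rest M')) (h2 : D' ∈ G.ocs (F.rest M')) (hne : D ≠ D')
    (n1 : ¬ G.vs D ⊆ F.y0 G M Q q0) (n2 : ¬ G.vs D' ⊆ F.y0 G M Q q0) : False := by
  obtain ⟨k1, k2, -⟩ := mc_ocs hF hH hm
  have k3 := hm.mx M' hM' hc'
  have k4 : D ∉ G.ocs (F.y0 G M Q q0) := fun k => n1 (SG.ocs_vs k).1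
  have k5 : D' ∉ G.ocs (F.y0 G M Q q0) := fun k => n2 (SG.ocs_vs k).1
  have k6 := card_le_card (insert_subset h1 (insert_subset h2 (SG.ocs_mono hy)))
  rw [card_insert_of_notMem (by simp [hne, k4]), card_insert_of_notMem k5] at k6
  rw [k1, card_insert_of_notMem k2] at k3
  omega

end Kf

end Pool.Agent.Work.MP_8c679b_co
end

-- merged part: Pool.Agent.Work.MP_8c679b_co.Key.G3
section
/-!
A position carries at most one label.

Hints.  `q_link`: paths inside the two labels from the ends of `c`, `d` to `a`, `b` (`lb_cn`,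
`Rch.pth`) and an arc of `Q` of the right sign (`Cc.cyc`, `Cyc.arcs`) form a path; `pure_p`.  Boxes
in the rest other than `G.vs Q` are disjoint from the cluster (`box_clu`).  If `G.vs Q` is a box:
when the arc has an inner vertex, its third edge is dead and off `O`, take `K = {G.cut (G.vs Q)}`
(`Pas0.cov`, third case of `BK1`, `HT.kus4`); else the second case holds with the rung formed by
the other two vertices, and `Kpv` is empty.
`dbl`: a single vertex has one edge besides the track edges (`IsM.q3`).  For a box the attaching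
edges are the outer edges `c, d`; `pkg` gives `DP`; take `l = σ N + 1`, `q_link` with the sign
`t + G.n c + G.n d`, `wk_close`, `st_one` with `π = σ`; `mc_reg`, `mc_ocs`, `nu_drop`, `par0`.
-/

set_option autoImplicit false

namespace Pool.Agent.Work.MP_8c679b_co

open Finset

variable {V E : Type} [Fintype V] [DecidableEq V] [DecidableEq E] {G : SG V E}
  {T U Z X B N N' : Finset V} {F : Kf V E} {M M' : Mb V E} {i j j' : Bool} {k l x y m : ℕ}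
  {σ σ' π : Finset V → ZMod 2} {u : ℕ → Finset V} {h : ℕ → E} {c d e f : E} {a b v q0 : V}
  {Zs : Finset (Finset V)} {g s : ZMod 2} {Q D : Finset E} {α β x1 x2 x3 y1 y2 : ℕ}

namespace Kf

/-- gluing two connected joins at a common end -/
theorem G3_glue {U1 U2 : Finset V} {P1 P2 : Finset E} {p q r : V} (h1 : G.Pp U1 P1 p q)
    (h2 : G.Pp U2 P2 q r) (hd : Disjoint P1 P2) : G.Pp (U1 ∪ U2) (P1 ∪ P2) p r := by
  obtain ⟨a1, a2, a3, a4, a5⟩ := h1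
  obtain ⟨b1, b2, b3, b4, b5⟩ := h2
  refine ⟨union_subset (a1.trans (SG.ins_mono subset_union_left))
    (b1.trans (SG.ins_mono subset_union_right)), SG.cn_of_base (a := q) fun w hw => ?_,
    a3.union b3 hd, mem_union_left _ a4, mem_union_right _ b5⟩
  rcases mem_union.1 hw with hw | hw
  · exact (a2 q a5 w hw).mono subset_union_left
  · exact (b2 q b4 w hw).mono subset_union_right

/-- a join inside a label from the end of a leaving edge to the vertex on the circuit -/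
theorem G3_in {W : Finset V} (hc : G.Cub) (hT : G.HT T) (hW : W ⊆ T) (hf : ¬ G.FH W)
    (hQ : Q ∈ G.ocs W) (ha : a ∈ G.vs Q) (he : c ∈ G.cut (G.lb W Q a)) (cQ : c ∉ Q) :
    c ∈ G.cut W ∧ G.ie W c ∈ G.lb W Q a ∧ (∀ r ∈ G.vs Q, r ∈ G.lb W Q a → r = a) ∧
      ∃ U P, G.Pp U P (G.ie W c) a ∧ U ⊆ G.lb W Q a ∧ Disjoint P Q := by
  obtain ⟨l1, l2⟩ := SG.lb_self hQ ha
  have c1 := (SG.lb_cut he).resolve_left cQ
  have c2 : G.ie W c ∈ G.lb W Q a :=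
    (SG.cut_of_sub l2 c1 (SG.cut_sub_tch he)).2 ▸ SG.ie_mem (SG.cut_sub_tch he)
  have c3 : ∀ r ∈ G.vs Q, r ∈ G.lb W Q a → r = a := fun r h1 h2 =>
    by_contra fun k => (SG.lb_disj hf hQ ha h1 (Ne.symm k)).2 h2
  obtain ⟨n, w, z, hp, h0, h1⟩ := (SG.lb_cn (l2 l1) _ c2 _ l1).pth c
  refine ⟨c1, c2, c3, _, _, h0 ▸ h1 ▸ hp.pp SG.ins_sub_A, hp.sub_of_ins (h0 ▸ c2),
    disjoint_left.2 fun r r1 r2 => ?_⟩
  obtain ⟨r3, r4, r5⟩ := SG.mem_ins.1 (hp.pe_sub r1)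
  exact hT.noloop hc (SG.mem_tch.2 ⟨r3, Or.inl (hW (l2 r4))⟩)
    ((c3 _ (SG.s_mem_vs r2) r4).trans (c3 _ (SG.t_mem_vs r2) r5).symm)

/-- an edge of a four-cycle leaves a rung over -/
theorem G3_rung {W : Finset V} {P : Finset E} (hc : G.Cub) (hT : G.HT T) (hW : W ⊆ T)
    (hf : ¬ G.FH W) (hQ : Q ∈ G.ocs W) (hu : G.US (G.vs Q)) (h4 : (G.vs Q).card = 4)
    (ha : a ∈ G.vs Q) (hb : b ∈ G.vs Q) (hP : P ⊆ Q) (hj : G.Jn P a b)
    (hi : ∀ r ∈ G.vs P, r = a ∨ r = b) :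
    ∃ a' b' c' d', G.Q4 (G.vs Q) a' b' c' d' ∧ G.Rg (G.vs Q) {a, b} c' d' := by
  have qW := (SG.ocs_vs hQ).1
  have qA := (SG.mem_ocs.1 hQ).1.trans SG.ins_sub_A
  have hs : ({a, b} : Finset V) ⊆ G.vs Q := insert_subset ha (singleton_subset_iff.2 hb)
  have nl : ∀ r ∈ G.tch (G.vs Q), G.s r ≠ G.t r := fun r k =>
    hT.noloop hc (SG.tch_mono (qW.trans hW) k)
  obtain ⟨a', a1, -, a2, a3, -⟩ := SG.lb_br hc hT hW hf hQ ha
  obtain ⟨b', b1, -, b2, b3, -⟩ := SG.lb_br hc hT hW hf hQ hb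
  have a4 := ((SG.mem_cut_single (nl _ (SG.cut_sub_tch a2))).1 a1).2
  have b4 := ((SG.mem_cut_single (nl _ (SG.cut_sub_tch b2))).1 b1).2
  have hne : a' ≠ b' := by
    rintro rfl
    exact hj.1 ((SG.eq_ie a2 ha a4).trans (SG.eq_ie a2 hb b4).symm)
  obtain ⟨c', d', hq⟩ := SG.exists_q4 hu.1 a2 b2 hne
  have adj : G.Adj G.A a b := by
    obtain ⟨r, hr⟩ := hj.nonempty
    have k := nl r (SG.ins_sub_tch (SG.sub_ins_vs qA (hP hr)))
    refine ⟨r, qA (hP hr), ?_⟩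
    rcases hi _ (SG.s_mem_vs hr) with k1 | k1 <;> rcases hi _ (SG.t_mem_vs hr) with k2 | k2
    exacts [absurd (k1.trans k2.symm) k, Or.inl ⟨k1, k2⟩, Or.inr ⟨k1, k2⟩,
      absurd (k1.trans k2.symm) k]
  refine ⟨a', b', c', d', hq, SG.Sp.rg hc hT (qW.trans hW) hq
    ⟨hs, (hT.rung' hc (hW (qW ha)) (hW (qW hb)) hj.1 adj).1, ?_⟩
    (by rw [card_sdiff_of_subset hs, h4, card_pair hj.1])⟩
  ext r
  rw [mem_inter, mem_insert, mem_singleton]
  constructor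
  · rintro ⟨r1, r2⟩
    have r3 : r ∉ Q := fun k => SG.not_ins_of_cut r2 (SG.sub_ins_vs qA k)
    have r4 := fun z => (SG.mem_cut_single (v := z) (nl _ (SG.cut_sub_tch r2))).2
    rcases mem_insert.1 (SG.ie_mem (SG.cut_sub_tch r1)) with k | k
    · exact Or.inl ((a3 r (r4 a ⟨(SG.mem_cut.1 r1).1, k ▸ SG.ie_at⟩)).resolve_left r3)
    · exact Or.inr ((b3 r (r4 b ⟨(SG.mem_cut.1 r1).1, mem_singleton.1 k ▸ SG.ie_at⟩)).resolve_left r3)
  · rintro (rfl | rfl)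
    · exact ⟨(SG.cut_of_sub hs a2 (SG.Cut_tch (SG.mem_cut.1 a2).1 a4 (mem_insert_self _ _))).1, a2⟩
    · exact ⟨(SG.cut_of_sub hs b2 (SG.Cut_tch (SG.mem_cut.1 b2).1 b4
        (mem_insert_of_mem (mem_singleton_self _)))).1, b2⟩

theorem q_link (hF : F.Ok G T) (hH : ¬ F.WinN G g) (hm : F.MC G M σ Q q0)
    (ha : a ∈ G.vs Q) (hb : b ∈ G.vs Q) (a0 : a ≠ q0) (b0 : b ≠ q0) (hab : a ≠ b)
    (hc : c ∈ G.cut (G.lb (F.rest M) Q a)) (hd : d ∈ G.cut (G.lb (F.rest M) Q b)) (cQ : c ∉ Q)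
    (dQ : d ∉ Q) (s : ZMod 2) :
    ∃ X O K, X ⊆ G.clu (F.rest M) Q q0 ∧ a ∈ X ∧ G.par (O ∩ G.ins X) = s ∧
      G.Pas0 X O c d ∅ K (Rl.P s) ∧ ∀ B ∈ F.Bs, B ⊆ F.rest M → ∀ v, G.BK1 B X K v := by
  obtain ⟨hf, -, hW⟩ := mc_fh hF hH hm
  have hQ := hm.cf.odd
  obtain ⟨q1, q2, q3⟩ := SG.mem_ocs.1 hQ
  have qA := q1.trans SG.ins_sub_A
  obtain ⟨s1, s2⟩ := SG.clu_sub hQ hm.cf.root
  obtain ⟨c1, c2, c3, U1, P1, p1, u1, n1⟩ := G3_in hF.hc hF.hT hW.subset hf hQ ha hc cQ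
  obtain ⟨d1, d2, d3, U3, P3, p3, u3, n3⟩ := G3_in hF.hc hF.hT hW.subset hf hQ hb hd dQ
  obtain ⟨P2, r1, r2, r3, -⟩ := C1_arc hF.hc qA q2 q3 ha hb hab (s + G.par P1 + G.par P3)
  have dl := (SG.lb_disj hf hQ ha hb hab).1
  have i1 : P1 ⊆ G.ins (G.lb (F.rest M) Q a) := p1.1.trans (SG.ins_mono u1)
  have i3 : P3 ⊆ G.ins (G.lb (F.rest M) Q b) := p3.1.trans (SG.ins_mono u3)
  have n12 : Disjoint P1 P2 := n1.mono_right r1
  have n123 : Disjoint (P1 ∪ P2) P3 := disjoint_union_left.2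
    ⟨disjoint_left.2 fun r k1 k2 =>
      disjoint_left.1 dl (SG.mem_ins.1 (i1 k1)).2.1 (SG.mem_ins.1 (i3 k2)).2.1,
      (n3.mono_right r1).symm⟩
  have pp := G3_glue (G3_glue p1
    ⟨SG.sub_ins_vs (r1.trans qA), r2.2.2, r2.2.1, r2.left_mem, r2.right_mem⟩ n12) p3.symm n123
  have sX : U1 ∪ G.vs P2 ∪ U3 ⊆ G.clu (F.rest M) Q q0 :=
    union_subset (union_subset (fun z hz => SG.mem_clu.2 (Or.inr ⟨a, ha, a0, u1 hz⟩))
      ((SG.vs_mono r1).trans s1)) fun z hz => SG.mem_clu.2 (Or.inr ⟨b, hb, b0, u3 hz⟩)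
  obtain ⟨c4, c5⟩ := SG.cut_of_sub (sX.trans s2) c1
    (SG.Cut_tch (SG.mem_cut.1 c1).1 SG.ie_at pp.2.2.2.1)
  obtain ⟨d4, d5⟩ := SG.cut_of_sub (sX.trans s2) d1
    (SG.Cut_tch (SG.mem_cut.1 d1).1 SG.ie_at pp.2.2.2.2)
  have hcd : c ≠ d := by
    rintro rfl
    exact disjoint_left.1 dl c2 d2
  rw [← c5, ← d5] at pp
  obtain ⟨p, hp⟩ : G.Bal (P1 ∪ P2 ∪ P3) := by
    by_contra r
    obtain ⟨C, k1, k2, k3⟩ := SG.exists_odd_cc r
    have k4 : C ∈ G.ocs (G.clu (F.rest M) Q q0) :=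
      SG.mem_ocs.2 ⟨k1.trans (pp.1.trans (SG.ins_mono sX)), k2, k3⟩
    rw [(mc_ocs hF hH hm).2.2.1, mem_singleton] at k4
    subst k4
    have e' : P2 = C := r1.antisymm fun z hz => by
      rcases mem_union.1 (k1 hz) with k | k
      · exact (mem_union.1 k).resolve_left fun k => disjoint_left.1 n1 k hz
      · exact absurd hz (disjoint_left.1 n3 k)
    exact zero_ne_one ((k2.2.1 a).symm.trans (e' ▸ r2.2.1.left hab))
  have par : G.par (P1 ∪ P2 ∪ P3) = s := by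
    rw [SG.par_union n123, SG.par_union n12, r3]
    linear_combination z2_add_self (G.par P1 + G.par P3)
  have pas := SG.pure_p (L := ∅) pp c4 d4 hcd hp
  rw [← pp.par hp, par] at pas
  refine ⟨_, _, {t | t = G.cut (G.vs Q) ∧ ∃ r ∈ G.vs P2, r ≠ a ∧ r ≠ b}, sX,
    mem_union_left _ (mem_union_right _ r2.left_mem), by rw [(pp.st c4 d4 hcd).2, par],
    pas.cov ?_, fun B hB hBW v => ?_⟩
  · rintro t ⟨rfl, r, k1, k2, k3⟩
    have k4 := SG.vs_mono r1 k1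
    obtain ⟨e, e1, e2, e3, -⟩ := SG.lb_br hF.hc hF.hT hW.subset hf hQ k4
    have e4 := ((SG.mem_cut_single (hF.hT.noloop hF.hc
      (SG.tch_mono ((s1.trans s2).trans hW.subset) (SG.cut_sub_tch e3)))).1 e1).2
    have na : r ∉ G.lb (F.rest M) Q a := fun k => k2 (c3 r k4 k)
    have nb : r ∉ G.lb (F.rest M) Q b := fun k => k3 (d3 r k4 k)
    refine Or.inr ⟨e, e3, SG.Cut_tch (SG.mem_cut.1 e3).1 e4
      (mem_union_left _ (mem_union_right _ k1)), fun k => ?_⟩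
    simp only [mem_insert, mem_union] at k
    rcases k with rfl | rfl | (k | k) | k
    · exact na (SG.eq_ie c1 (s2 (s1 k4)) e4 ▸ c2)
    · exact nb (SG.eq_ie d1 (s2 (s1 k4)) e4 ▸ d2)
    · exact na (SG.TY1_at (i1 k) e4)
    · exact e2 (r1 k)
    · exact nb (SG.TY1_at (i3 k) e4)
  rcases box_clu hF hH hm hB with rfl | k
  swap
  · exact Or.inl (k.mono_right sX)
  have hu := (hF.bx _ hB).1
  have h4 := (SG.ocs_box hF.hc hF.hT hW.subset hf hQ hBW hu).2.1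
  have ku := hF.hT.kus4 hF.hc (hBW.trans hW.subset) h4
  by_cases k : ∃ r ∈ G.vs P2, r ≠ a ∧ r ≠ b
  · exact Or.inr (Or.inr fun S k1 k2 _ => Or.inr ⟨_, ⟨rfl, k⟩, (ku _ ⟨S, k1, k2, rfl⟩).ge⟩)
  have hi : ∀ r ∈ G.vs P2, r = a ∨ r = b := fun r k1 =>
    by_contra fun k2 => k ⟨r, k1, not_or.1 k2⟩
  obtain ⟨a', b', c', d', hq, hr⟩ :=
    G3_rung hF.hc hF.hT hW.subset hf hQ hu h4 ha hb r1 r2 hi
  have e : G.vs Q ∩ (U1 ∪ G.vs P2 ∪ U3) = {a, b} := by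
    ext r
    rw [mem_inter, mem_union, mem_union, mem_insert, mem_singleton]
    constructor
    · rintro ⟨k1, (k2 | k2) | k2⟩
      exacts [Or.inl (c3 r k1 (u1 k2)), hi r k2, Or.inr (d3 r k1 (u3 k2))]
    · rintro (rfl | rfl)
      exacts [⟨ha, Or.inl (Or.inr r2.left_mem)⟩, ⟨hb, Or.inl (Or.inr r2.right_mem)⟩]
  refine Or.inr (Or.inl ⟨a', b', c', d', hq, e ▸ hr, ?_⟩)
  rw [e]
  rintro t ⟨k1, k2⟩
  rw [ku t (SG.kv_sub k1)] at k2
  rcases k2 with k2 | k2 | k2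
  · rw [← k2, card_pair hab] at h4
    omega
  · exact absurd hq.mem.2.2.1 k2
  · exact absurd hq.mem.2.2.2 k2

theorem dbl (hF : F.Ok G T) (hH : ¬ F.WinN G g) (hm : F.MC G M σ Q q0)
    (ha : F.At G M Q q0 i x a) (hb : F.At G M Q q0 i x b) : a = b := by
  by_contra hab
  obtain ⟨a1, a2, hx, c, c1, c2⟩ := ha
  obtain ⟨b1, b2, -, d, d1, d2⟩ := hb
  have hM := hm.cf.isM
  have hc := hm.cf.cls
  have hQ := hm.cf.odd
  have dN := rest_disj (F := F) hx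
  have nQ : ∀ r ∈ G.cut (M.w i x), r ∉ Q := fun r k1 k2 =>
    disjoint_left.1 dN (SG.ie_mem (SG.cut_sub_tch k1))
      (SG.TY1_at ((SG.mem_ocs.1 hQ).1 k2) SG.ie_at)
  have ne : ∀ q ∈ G.vs Q, ∀ r ∈ G.cut (G.lb (F.rest M) Q q), ∀ l ≤ M.n i + 1, r ≠ F.e M i l :=
    fun q hq r k1 l hl k2 => hM.e_rest hF.wf hl
      (k2 ▸ SG.tch_mono (SG.lb_self hQ hq).2 (SG.cut_sub_tch k1))
  have lk := q_link hF hH hm a1 b1 a2 b2 hab c1 d1 (nQ c c2) (nQ d d2)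
  have hcd : c ≠ d := by
    obtain ⟨_, _, _, -, -, -, k, -⟩ := lk 0
    exact k.1
  have c3 := ne a a1 c c1 x (by omega)
  have c4 := ne a a1 c c1 (x + 1) (by omega)
  have d3 := ne b b1 d d1 x (by omega)
  have d4 := ne b b1 d d1 (x + 1) (by omega)
  by_cases hN : M.w i x ∈ F.Bs
  swap
  · obtain ⟨v, r, e1, e2, -⟩ := hM.q3 hF hx hN
    rw [e1, e2.1] at c2 d2
    simp only [mem_insert, mem_singleton, c3, c4, d3, d4, false_or] at c2 d2
    exact hcd (c2.trans d2.symm)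
  have hk : F.Nd M i x := ⟨hx, hN⟩
  have hq : G.Q4 (M.w i x) (F.e M i x) (F.e M i (x + 1)) c d := by
    obtain ⟨c', d', hq⟩ := hM.q4 hF hk
    rw [hq.1] at c2 d2
    simp only [mem_insert, mem_singleton, c3, c4, d3, d4, false_or] at c2 d2
    rcases c2 with rfl | rfl <;> rcases d2 with rfl | rfl
    exacts [absurd rfl hcd, hq, hq.swap2, absurd rfl hcd]
  obtain ⟨t, v, hv, wk⟩ := (pkg hF hH hM hc hk hq).2.1 (σ (M.w i x) + 1)
  obtain ⟨X, O, K, s1, s2, s3, s4, s5⟩ := lk (t + G.n c + G.n d)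
  have sX : X ⊆ F.rest M := s1.trans (SG.clu_sub hQ hm.cf.root).2
  obtain ⟨O', o1, o2⟩ := SG.wk_close wk s4 s3 (dN.mono_right sX)
    (fun k => hM.e_rest hF.wf (by omega) (SG.tch_mono sX k))
    fun k => hM.e_rest hF.wf (by omega) (SG.tch_mono sX k)
  obtain ⟨p1, p2⟩ := par0 hF hH hM hc
  have w1 := (W0_sub (σ := σ) hF hM).1
  refine hH (st_one (π := σ) hF hM hc hk
    (fun j => (qs_real hF hH hM hc j).mono (empty_subset _)) o2
    (union_subset_union Subset.rfl sX) (Or.inr ⟨_, hN, hv⟩) (fun B hB r => ?_) (Or.inr ?_))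
  · rcases r with rfl | r
    · exact Or.inr (Or.inr fun S k1 k2 k3 =>
        Or.inr ⟨_, Or.inl ⟨S, k1, k2, k3, rfl⟩, Subset.rfl⟩)
    · refine (s5 B hB r v).congr ?_ Set.subset_union_right
      rw [inter_union_distrib_left, disjoint_iff_inter_eq_empty.1 (dN.symm.mono_left r),
        empty_union]
  · rw [SG.nu_drop hF.hc p1 (SG.ocs_mono w1 hQ)
      (fun z hz => (mem_union.1 (mem_sdiff.1 hz).1).resolve_right
        fun r => (mem_sdiff.1 hz).2 (mem_union_left _ r))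
      (fun r => (mem_sdiff.1 (r a1)).2 (mem_union_right _ s2)) fun D' hD' hne z hz => ?_,
      p2, o1, z2_add_self, z2_add_self, z2_add_self]
    · linear_combination -z2_add_self (F.nat + 1)
    rw [mc_reg hF hH hm, (mc_ocs hF hH hm).1] at hD'
    obtain ⟨z1, z2⟩ := mem_sdiff.1
      ((SG.ocs_vs ((mem_insert.1 hD').resolve_left hne)).1 hz)
    exact mem_sdiff.2 ⟨mem_union_left _ (w1 z1), fun r =>
      (mem_union.1 r).elim (fun r => disjoint_left.1 dN r z1) fun r => z2 (s1 r)⟩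

end Kf

end Pool.Agent.Work.MP_8c679b_co
end

-- merged part: Pool.Agent.Work.MP_8c679b_co.Key.U1
section
/-!
Units.

Hints.  `tw3`, `tw5`: `sum_bd` with the potential; inner edges contribute zero (`kap_ins`), the
leaving edges `chi (p _) * out` (`kap_sign`), all nonzero (`out_ne`); finite check in `ZMod 3`.
`br_live`: `lb_br`, `at_edge`; an edge to a position of the other ring that is not left over ends in
`F.xt`.
`unit_pass`: write `N = M.w i x`, `Br = (lb a).erase a`.  If a rung is left at `x`, the pair is not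
diagonal (`lf_str`, `Qd.nc`) and `rpa` gives a good pass on a set that contains `F.xs`
(`Rg.uniq`); in the tied case take it with `L = ∅`.  Untied case: let `g` be the attaching edge.
Vertex or diagonal four-cycle: `vtx_pc`, `q_pc` (exchange `c, d` so that `g` is the first); if the
label is `{a}` then `g` leads to `a`, make it live (`vtx_p`, `Pa.free`); else `HT.abs_bal` on `Br`
and `flip_u`; `U.gd`.  Other boxes: `rpa` gives `X'`.  If `X' = N` take `X = N`, `L = ∅`.  Else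
absorb `W = Br ∪ (N \ X')` first: `kill` gives `CSp W Ds` (`Ds` is the rung if both outer edges
lead into `Br`, else empty), at most one outer edge is dead (`Abs0.neg`), `Abs0.seqP`; a side with
`c, d` in its cut contains `G.tg W ρ` or a leaving edge off `O`; take `K = G.Kus N` (`Pas0.cov`).
-/

set_option autoImplicit false

namespace Pool.Agent.Work.MP_8c679b_co

open Finset

variable {V E : Type} [Fintype V] [DecidableEq V] [DecidableEq E] {G : SG V E}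
  {T U Z X B N N' XU Br : Finset V} {F : Kf V E} {M M' : Mb V E} {i j j' : Bool}
  {k l x y m : ℕ} {σ σ' π : Finset V → ZMod 2} {u : ℕ → Finset V} {h : ℕ → E} {c d e f gx gy : E}
  {a b a' v q0 : V} {Zs : Finset (Finset V)} {g s : ZMod 2} {Q D O OB : Finset E}
  {α β x1 x2 x3 y1 y2 y3 : ℕ} {p : V → ZMod 2} {φ : E → ZMod 3}

namespace Kf

theorem U1_sum (hp : ∀ e ∈ G.ins Br, G.sw p e = 0) (hS : G.St Br O ∅) (hφ : G.Sl Br O ∅ φ) :
    ∑ e ∈ G.cut Br, chi (p (G.ie Br e)) * G.out Br φ e = 0 ∧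
      ∀ e ∈ G.cut Br, chi (p (G.ie Br e)) * G.out Br φ e ≠ 0 := by
  refine ⟨?_, fun e he => mul_ne_zero (SG.Sol_chi_ne _) ((SG.out_ne he).2
    (hφ.2.1 e (SG.cut_sub_tch he) fun k => ?_))⟩
  · have h1 := G.sum_bd p Br φ
    rw [SG.red_sum_cut hp, sum_eq_zero fun v hv => by rw [hφ.1 v hv, mul_zero]] at h1
    refine Eq.trans (sum_congr rfl fun e he => ?_) h1.symm
    rw [(SG.kap_sign p he).1, SG.out, mul_assoc]
  · have h2 : e ∈ O ∩ G.cut Br := mem_inter.2 ⟨k, he⟩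
    rw [hS.2.2] at h2
    exact notMem_empty _ h2

theorem U1_z3 : ∀ r s t : ZMod 3, r ≠ 0 → s ≠ 0 → t ≠ 0 → r + (s + t) = 0 → r = s := by
  decide

theorem U1_z5 : ∀ r s t u w : ZMod 3, r ≠ 0 → s ≠ 0 → t ≠ 0 → u ≠ 0 → w ≠ 0 →
    w + (r + (s + (t + u))) = 0 → r = s ∨ t = u := by
  decide

theorem tw3 {e1 e2 e3 : E} (hp : ∀ e ∈ G.ins Br, G.sw p e = 0) (hq : G.Q3 Br e1 e2 e3)
    (hS : G.St Br O ∅) (hφ : G.Sl Br O ∅ φ) :
    chi (p (G.ie Br e1)) * G.out Br φ e1 = chi (p (G.ie Br e2)) * G.out Br φ e2 := by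
  obtain ⟨h1, h2⟩ := U1_sum hp hS hφ
  obtain ⟨k, k1, k2, k3⟩ := hq
  rw [k] at h1 h2
  rw [sum_insert (by simp [k1, k2]), sum_pair k3] at h1
  exact U1_z3 _ _ _ (h2 e1 (by simp)) (h2 e2 (by simp)) (h2 e3 (by simp)) h1

theorem tw5 {e1 e2 e3 e4 : E} (hp : ∀ e ∈ G.ins Br, G.sw p e = 0) (h5 : (G.cut Br).card = 5)
    (h1 : e1 ∈ G.cut Br) (h2 : e2 ∈ G.cut Br) (h3 : e3 ∈ G.cut Br) (h4 : e4 ∈ G.cut Br)
    (hd : e1 ≠ e2 ∧ e1 ≠ e3 ∧ e1 ≠ e4 ∧ e2 ≠ e3 ∧ e2 ≠ e4 ∧ e3 ≠ e4) (hS : G.St Br O ∅)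
    (hφ : G.Sl Br O ∅ φ) :
    chi (p (G.ie Br e1)) * G.out Br φ e1 = chi (p (G.ie Br e2)) * G.out Br φ e2 ∨
      chi (p (G.ie Br e3)) * G.out Br φ e3 = chi (p (G.ie Br e4)) * G.out Br φ e4 := by
  obtain ⟨k1, k2⟩ := U1_sum hp hS hφ
  obtain ⟨d1, d2, d3, d4, d5, d6⟩ := hd
  have hs : ({e1, e2, e3, e4} : Finset E) ⊆ G.cut Br := by
    intro e he
    simp only [mem_insert, mem_singleton] at he
    rcases he with rfl | rfl | rfl | rfl
    exacts [h1, h2, h3, h4]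
  have n1 : e1 ∉ ({e2, e3, e4} : Finset E) := by simp [d1, d2, d3]
  have n2 : e2 ∉ ({e3, e4} : Finset E) := by simp [d4, d5]
  have hc : (G.cut Br \ {e1, e2, e3, e4}).card = 1 := by
    rw [card_sdiff_of_subset hs, h5, card_insert_of_notMem n1, card_insert_of_notMem n2,
      card_pair d6]
  obtain ⟨e5, h6⟩ := card_eq_one.1 hc
  have h7 : e5 ∈ G.cut Br := (mem_sdiff.1 (h6 ▸ mem_singleton_self e5)).1
  rw [← sum_sdiff hs, h6, sum_singleton, sum_insert n1, sum_insert n2, sum_pair d6] at k1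
  exact U1_z5 _ _ _ _ _ (k2 e1 h1) (k2 e2 h2) (k2 e3 h3) (k2 e4 h4) (k2 e5 h7) k1

/-- the edges that leave a branch -/
theorem br_live (hF : F.Ok G T) (hH : ¬ F.WinN G g) (hm : F.MC G M σ Q q0)
    (ha : a ∈ G.vs Q) (h0 : a ≠ q0) : ∃ e0 ∈ G.tch (G.vs Q),
      ∀ e ∈ G.cut ((G.lb (F.rest M) Q a).erase a), e = e0 ∨ ∃ j, ∃ y ≤ M.n j,
        e ∈ G.cut (M.w j y) ∧ F.At G M Q q0 j y a ∧ (¬ F.Lf M σ j y → e ∈ G.tch (F.xt M σ j)) := by
  obtain ⟨k1, -, k2⟩ := mc_fh hF hH hm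
  obtain ⟨e0, -, -, h1, -, -, -, h2, -⟩ := SG.lb_br hF.hc hF.hT k2.subset k1 hm.cf.odd ha
  refine ⟨e0, SG.cut_sub_tch h1, fun e he => (h2 e he).imp id fun ⟨h3, h4⟩ => ?_⟩
  rcases (at_edge hF hH hm ha h0 h4).2 with k | ⟨j, y, hy, k⟩
  · exact absurd ((SG.mem_ocs.1 hm.cf.odd).1 k) (SG.not_ins_of_cut h3)
  · refine ⟨j, y, hy, k, ⟨ha, h0, hy, e, h4, k⟩, fun hl => SG.tch_mono (fun v hv => ?_)
      (SG.cut_sub_tch k)⟩
    have h5 : F.xs M σ j y = M.w j y := not_not.1 fun k5 => hl ⟨hy, k5⟩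
    exact mem_bu.2 ⟨y, hy, h5 ▸ hv⟩

/-- a pass whose constant depends on a leaving edge that is live or leads into a branch -/
theorem U1_pc {L : Finset E} {K : Set (Finset E)} {κ : ZMod 3} (hT : G.HT T) (hB : Br ⊆ T)
    (hd : Disjoint Br N) (he : e ∉ G.tch Br) (hf : f ∉ G.tch Br)
    (hL : ∀ r ∈ G.cut Br, r ∈ G.tch N ∨ r ∈ L) (hc : c ∈ G.cut N) (ce : c ≠ e) (cf : c ≠ f)
    (hg : c ∈ L ∨ c ∈ G.cut Br) (hS : G.St N O {e, f}) (hef : e ≠ f) (hκ : κ ≠ 0)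
    (hP : G.Pa N O (G.fr N {e, f}) K e f fun ψ R => R.PC s (κ * ψ c)) :
    ∃ X O', N ⊆ X ∧ X ⊆ N ∪ Br ∧ G.Pas0 X O' e f L K Rl.Gd := by
  rcases hg with hg | hg
  · refine ⟨N, O, Subset.refl _, subset_union_left, SG.Pas0.imp (C := Rl.U s) ⟨hef, hS, ?_⟩
      fun R hR => hR.gd⟩
    refine SG.Pa.free (g := c) hP (fun r hr => ?_) SG.fr_sub_tch ?_ ?_ ?_ ?_
    · rw [SG.PQ_fr] at hr ⊢
      refine hr.imp_right fun k => ⟨k.1, ?_⟩
      have := k.2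
      simp only [mem_insert, mem_singleton] at this ⊢
      (clear * - hr k this; tauto)
    · exact SG.PQ_fr.2 (Or.inr ⟨hc, by simp [hg]⟩)
    · rw [SG.PQ_fr]
      rintro (k | k)
      · exact SG.not_ins_of_cut hc k
      · have := k.2
        simp only [mem_insert, mem_singleton] at this
        tauto
    · intro k
      have : c ∈ ({e, f} : Finset E) := hS.2.2 ▸ mem_inter.2 ⟨k, hc⟩
      simp only [mem_insert, mem_singleton] at this
      tauto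
    · intro ψ ψ' _ h1 h2
      rw [h2]
      exact SG.PQ_z3 _ _ hκ h1
  · obtain ⟨O1, h1⟩ := hT.abs_free hB
    refine ⟨Br ∪ N, O1 ∪ O, subset_union_right, by rw [union_comm], ?_⟩
    have h2 := (SG.flip_u h1 hS hef hP hκ hd he hf hg hc hL).1
    rw [Set.empty_union] at h2
    exact h2.imp fun R hR => hR.gd

/-- the rung left over by a pass is ready when both outer edges lead into the branch -/
theorem U1_rdy (hc : G.Cub) (hT : G.HT T) (hN : N ⊆ T) (hd : Disjoint Br N)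
    (hq : G.Q4 N e f c d) (h2 : 2 < N.card) (hr : G.Rg N X c d) (hX : X ≠ N)
    (h1 : c ∈ G.ins (Br ∪ (N \ X))) (h3 : d ∈ G.ins (Br ∪ (N \ X))) :
    G.Rdy (Br ∪ (N \ X)) ∅ (N \ X) ∧ G.tg (Br ∪ (N \ X)) (N \ X) ⊆ {c, d} := by
  obtain ⟨hs, -⟩ := hr.sp hc hT hN hq h2 hX
  obtain ⟨-, -, -, -, -, -, -, -, -, -, -, -, r1, r2, q1, q2⟩ := hs.str hc hT hN hq
  obtain ⟨-, -, -, -, dv, -, -⟩ := hs.link hc hT hN hq q1
  obtain ⟨-, e1, e2, e3⟩ := hr.resolve_left hX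
  have dX : Disjoint X (Br ∪ (N \ X)) :=
    disjoint_union_right.2 ⟨(hd.mono_right hs.1).symm, disjoint_sdiff⟩
  have lk : ∀ r, r ∈ G.cut X → r ∈ G.cut (N \ X) → r ∈ G.cut (Br ∪ (N \ X)) := fun r k1 k2 =>
    (SG.Ab_link dX (SG.cut_sub_tch k1) (SG.tch_mono subset_union_right (SG.cut_sub_tch k2))).2
  have m1 := lk r1 q1.mem.2.2.1 q2.mem.1
  have m2 := lk r2 q1.mem.2.2.2 q2.mem.2.1
  refine ⟨⟨subset_union_right, ⟨_, _, e2, e1, e3⟩, fun z hz => ⟨?_, ?_⟩⟩, fun r hr => ?_⟩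
  · have a1 := SG.Spl_ie q2.mem.1
    have a2 := SG.Spl_ie q2.mem.2.1
    have a3 : z = G.ie (N \ X) r1 ∨ z = G.ie (N \ X) r2 := by
      have dv' : G.ie (N \ X) r1 ≠ G.ie (N \ X) r2 := dv
      generalize G.ie (N \ X) r1 = y1 at a1 dv' ⊢
      generalize G.ie (N \ X) r2 = y2 at a2 dv' ⊢
      rw [e1] at a1 a2 hz
      simp only [mem_insert, mem_singleton] at a1 a2 hz
      rcases a1 with rfl | rfl <;> rcases a2 with k | k <;> rcases hz with rfl | rfl <;>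
        first | exact Or.inl rfl | exact Or.inr k.symm | exact absurd k.symm dv'
    rcases a3 with rfl | rfl
    · exact ⟨r1, m1, notMem_empty _, SG.ie_at⟩
    · exact ⟨r2, m2, notMem_empty _, SG.ie_at⟩
  · rw [e1] at hz
    rcases mem_insert.1 hz with rfl | hz
    · exact ⟨c, mem_inter.2 ⟨q2.mem.2.2.1, h1⟩, SG.ie_at⟩
    · rw [mem_singleton.1 hz]
      exact ⟨d, mem_inter.2 ⟨q2.mem.2.2.2, h3⟩, SG.ie_at⟩
  · obtain ⟨k1, k2⟩ := mem_inter.1 hr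
    rcases (SG.Spl_mem q2 r).1 k1 with rfl | rfl | rfl | rfl
    · exact absurd k2 (SG.not_ins_of_cut m1)
    · exact absurd k2 (SG.not_ins_of_cut m2)
    · simp
    · simp

/-- a complete good pass of a box that absorbs the branch -/
theorem U1_box {L : Finset E} (hc : G.Cub) (hT : G.HT T) (hN : N ⊆ T) (hB : Br ⊆ T)
    (hd : Disjoint Br N) (hu : G.US N) (hq : G.Q4 N e f c d) (he : e ∉ G.tch Br)
    (hf : f ∉ G.tch Br) (hL : ∀ r ∈ G.cut Br, r ∈ G.tch N ∨ r ∈ L)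
    (hg : c ∈ L ∨ c ∈ G.cut Br) :
    ∃ X O, N ⊆ X ∧ X ⊆ N ∪ Br ∧ G.Pas0 X O e f L (G.Kus N) Rl.Gd := by
  by_cases hQ : G.Qd N e f
  · obtain ⟨O, s, κ, k1, k2, k3⟩ := SG.q_pc hc hT hN hu hq hQ
    exact U1_pc hT hB hd he hf hL hq.mem.2.2.1 hq.2.2.1.symm hq.2.2.2.2.1.symm hg k2 hq.2.1 k1 k3
  obtain ⟨X, O, hr, hp⟩ := SG.rpa hc hT N hN hu e f c d hq hQ
  by_cases hX : X = N
  · subst hX
    refine ⟨X, O, Subset.refl _, subset_union_left,
      (hp.monoL fun r _ k => absurd k (notMem_empty _)).cov fun t ht => ?_⟩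
    exact Or.inl ⟨t, ⟨ht, Or.inl rfl⟩, Subset.refl _⟩
  have h2 : 2 < N.card := lt_of_lt_of_le (by norm_num) (hT.us_card hc hN hu)
  obtain ⟨hs, -⟩ := hr.sp hc hT hN hq h2 hX
  obtain ⟨-, -, -, -, -, -, -, -, n1, n2, n3, n4, r1, r2, q1, q2⟩ := hs.str hc hT hN hq
  have hW : Br ∪ (N \ X) ⊆ T := union_subset hB (sdiff_subset.trans hN)
  have dX : Disjoint (Br ∪ (N \ X)) X :=
    disjoint_union_left.2 ⟨hd.mono_right hs.1, sdiff_disjoint⟩
  have hcs : ∃ O1 K1, G.Abs0 (Br ∪ (N \ X)) O1 (G.cut (Br ∪ (N \ X))) K1 ∧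
      (c ∈ G.ins (Br ∪ (N \ X)) → d ∈ G.ins (Br ∪ (N \ X)) → ∃ t ∈ K1, t ⊆ {c, d}) := by
    by_cases k : c ∈ G.ins (Br ∪ (N \ X)) ∧ d ∈ G.ins (Br ∪ (N \ X))
    · obtain ⟨a1, a2⟩ := U1_rdy hc hT hN hd hq h2 hr hX k.1 k.2
      obtain ⟨ε, O1, -, a3⟩ := (SG.kill hc hT _ hW).1 {N \ X}
        ⟨fun A hA A' hA' k => absurd ((mem_singleton.1 hA).trans (mem_singleton.1 hA').symm) k,
          fun ρ hρ => mem_singleton.1 hρ ▸ a1⟩
      exact ⟨O1, _, a3, fun _ _ => ⟨_, Or.inr ⟨_, mem_singleton_self _, rfl⟩, a2⟩⟩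
    · obtain ⟨O1, a1⟩ := hT.abs_free hW
      exact ⟨O1, _, a1, fun k1 k2 => absurd ⟨k1, k2⟩ k⟩
  obtain ⟨O1, K1, a1, a2⟩ := hcs
  have lv : ∀ r ∈ G.cut (Br ∪ (N \ X)), r ∈ G.tch X ∪ L ∨ r = d := fun r hr' => by
    by_cases k : r ∈ G.cut (N \ X)
    · rcases (SG.Spl_mem q2 r).1 k with rfl | rfl | rfl | rfl
      · exact Or.inl (mem_union_left _ (SG.cut_sub_tch q1.mem.2.2.1))
      · exact Or.inl (mem_union_left _ (SG.cut_sub_tch q1.mem.2.2.2))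
      · rcases hg with hg | hg
        · exact Or.inl (mem_union_right _ hg)
        · exact absurd (SG.ie_link (hd.mono_right sdiff_subset) hg k).2 (SG.not_ins_of_cut hr')
      · exact Or.inr rfl
    · have k1 : r ∈ G.cut Br := (mem_union.1 (SG.cut_union_sub hr')).resolve_right k
      rcases hL r k1 with k2 | k2
      · rw [← union_sdiff_of_subset hs.1, SG.tch_union] at k2
        rcases mem_union.1 k2 with k3 | k3
        · exact Or.inl (mem_union_left _ k3)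
        · exact absurd (SG.Ab_link (hd.mono_right sdiff_subset) (SG.cut_sub_tch k1) k3).2 k
      · exact Or.inl (mem_union_right _ k2)
  have ne : ∀ r, r ∉ G.tch Br → r ∉ G.tch (N \ X) → r ∉ G.tch (Br ∪ (N \ X)) := fun r k1 k2 => by
    rw [SG.tch_union, mem_union]
    (clear * - a2 hg k1 k2; tauto)
  have a3 := ((a1.neg d lv).seqP (L := L) hp dX (ne e he n1) (ne f hf n2)
    (fun r k => absurd k (notMem_empty _)) (fun r k _ => mem_union.1 k)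
    fun r k => absurd k (notMem_empty _)).1
  have eq : Br ∪ (N \ X) ∪ X = N ∪ Br := by
    rw [union_assoc, sdiff_union_of_subset hs.1, union_comm]
  refine ⟨_, _, eq ▸ subset_union_left, eq ▸ Subset.refl _, a3.cov fun t ht => ?_⟩
  have off : ∀ r ∈ t, r ∈ G.cut N → r ∉ G.tch X → r ∉ G.ins (Br ∪ (N \ X)) →
      ∃ r ∈ t, r ∈ G.tch (Br ∪ (N \ X) ∪ X) ∧ r ∉ O1 ∪ O := fun r k0 k1 k2 k3 => by
    refine ⟨r, k0, eq ▸ SG.tch_mono subset_union_left (SG.cut_sub_tch k1), fun k => ?_⟩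
    rcases mem_union.1 k with k | k
    · exact a1.not_mem k3 k
    · exact k2 (hp.2.1.1 k)
  by_cases kc : c ∈ t
  · by_cases kd : d ∈ t
    · by_cases ic : c ∈ G.ins (Br ∪ (N \ X))
      · by_cases id : d ∈ G.ins (Br ∪ (N \ X))
        · obtain ⟨t', k1, k2⟩ := a2 ic id
          exact Or.inl ⟨t', Or.inl k1, k2.trans (insert_subset kc (singleton_subset_iff.2 kd))⟩
        · exact Or.inr (off d kd hq.mem.2.2.2 n4 id)
      · exact Or.inr (off c kc hq.mem.2.2.1 n3 ic)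
    · exact Or.inl ⟨t, Or.inr ⟨ht, Or.inr (Or.inr kd)⟩, Subset.refl _⟩
  · exact Or.inl ⟨t, Or.inr ⟨ht, Or.inr (Or.inl kc)⟩, Subset.refl _⟩

theorem unit_pass (hF : F.Ok G T) (hH : ¬ F.WinN G g) (hm : F.MC G M σ Q q0)
    (hu : F.Gu G M σ Q q0 i x a) : ∃ X O L K, F.Un G M σ Q i x a X O L K := by
  obtain ⟨⟨ha, h0, hx, c, c1, c2⟩, uq, ht⟩ := hu
  have hM := hm.cf.isM
  have hN : M.w i x ⊆ T := (hM.node hF.wf hx).2.2.1.trans hF.hY
  rcases ht with ht | ⟨hl, hj⟩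
  swap
  · obtain ⟨nd, st⟩ := lf_str hF hM hl
    obtain ⟨c, d, hq⟩ := hM.q4 hF nd
    have us := (hF.bx _ nd.2).1
    obtain ⟨X, O, hr, hp⟩ := SG.rpa hF.hc hF.hT _ hN us _ _ c d hq
      fun k => k.nc hF.hc hF.hT hN hq _ (st c d hq).1
    refine ⟨X, O, ∅, _, hx, hp, ?_, hr.sub.trans subset_union_left,
      fun r k => absurd k (notMem_empty _), fun _ v => Or.inr (Or.inl ⟨_, _, c, d, hq, ?_, ?_⟩),
      Or.inr hj⟩
    · by_cases k : X = M.w i x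
      · exact k ▸ (xs_sub hF hM hx).1
      · rw [(xs_rg hF nd hq).uniq hr hl.2 k]
    · rwa [inter_eq_right.2 hr.sub]
    · rw [inter_eq_right.2 hr.sub]
      exact fun t k => ⟨t, SG.kpv_sub k, Subset.refl _⟩
  obtain ⟨s1, s2⟩ := SG.lb_self hm.cf.odd ha
  have hB : (G.lb (F.rest M) Q a).erase a ⊆ F.rest M := (erase_subset _ _).trans s2
  have hR : F.rest M ⊆ T := (mc_fh hF hH hm).2.2.subset
  have hd : Disjoint ((G.lb (F.rest M) Q a).erase a) (M.w i x) :=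
    ((rest_disj hx).mono_right hB).symm
  have he : F.e M i x ∉ G.tch (F.rest M) := hM.e_rest hF.wf (by omega)
  have hf : F.e M i (x + 1) ∉ G.tch (F.rest M) := hM.e_rest hF.wf (by omega)
  have cR : c ∈ G.tch (F.rest M) := SG.tch_mono s2 (SG.cut_sub_tch c1)
  have ce : c ≠ F.e M i x := fun k => he (k ▸ cR)
  have cf : c ≠ F.e M i (x + 1) := fun k => hf (k ▸ cR)
  obtain ⟨L, mL⟩ : ∃ L : Finset E, ∀ r, r ∈ L ↔
      r ∈ G.tch (G.vs Q) ∨ (F.ty = false ∧ r ∈ G.tch (F.xt M σ (!i))) := by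
    refine ⟨G.tch (G.vs Q) ∪ if F.ty = false then G.tch (F.xt M σ (!i)) else ∅, fun r => ?_⟩
    split_ifs with k <;> simp [k]
  have hL : ∀ r ∈ G.cut ((G.lb (F.rest M) Q a).erase a), r ∈ G.tch (M.w i x) ∨ r ∈ L := by
    obtain ⟨e0, b1, b2⟩ := br_live hF hH hm ha h0
    intro r hr
    rcases b2 r hr with rfl | ⟨j, y, k1, k2, k3, k4⟩
    · exact Or.inr ((mL _).2 (Or.inl b1))
    by_cases k : F.Sg i j
    · obtain ⟨rfl, rfl⟩ := uq j y k k3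
      exact Or.inl (SG.cut_sub_tch k2)
    · have k5 : F.ty = false := by
        cases k6 : F.ty
        · rfl
        · exact absurd (Or.inl k6) k
      have k6 : j = !i := by
        have : i ≠ j := fun k7 => k (Or.inr k7)
        cases i <;> cases j <;> (clear * - this; simp_all)
      subst k6
      exact Or.inr ((mL _).2 (Or.inr ⟨k5, k4 fun k7 => ht ⟨k5, y, k3, k7⟩⟩))
  have hg : c ∈ L ∨ c ∈ G.cut ((G.lb (F.rest M) Q a).erase a) := by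
    by_cases k : G.ie (G.lb (F.rest M) Q a) c = a
    · exact Or.inl ((mL _).2 (Or.inl (SG.Cut_tch (SG.mem_cut.1 c1).1 (k ▸ SG.ie_at) ha)))
    · exact Or.inr (SG.Spl_cut_of (erase_subset _ _) c1 (mem_erase.2 ⟨k, SG.Spl_ie c1⟩)).1
  have key : ∃ X O, M.w i x ⊆ X ∧ X ⊆ M.w i x ∪ (G.lb (F.rest M) Q a).erase a ∧
      G.Pas0 X O (F.e M i x) (F.e M i (x + 1)) L
        (if M.w i x ∈ F.Bs then G.Kus (M.w i x) else ∅) Rl.Gd := by
    have he' := fun k => he (SG.tch_mono hB k)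
    have hf' := fun k => hf (SG.tch_mono hB k)
    split_ifs with k
    · obtain ⟨c', d', hq⟩ := hM.q4 hF ⟨hx, k⟩
      have us := (hF.bx _ k).1
      rcases (SG.Spl_mem hq c).1 c2 with k1 | k1 | rfl | rfl
      · exact absurd k1 ce
      · exact absurd k1 cf
      · exact U1_box hF.hc hF.hT hN (hB.trans hR) hd us hq he' hf' hL hg
      · exact U1_box hF.hc hF.hT hN (hB.trans hR) hd us hq.swap2 he' hf' hL hg
    · obtain ⟨v, c', e1, hq, h0⟩ := hM.q3 hF hx k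
      rw [e1] at c2 hd hL ⊢
      have e2 : c = c' := by
        have := hq.1 ▸ c2
        simp only [mem_insert, mem_singleton] at this
        (clear * - ce cf hg this; tauto)
      subst e2
      obtain ⟨k1, k2⟩ := SG.vtx_pc h0 hq
      have e3 : G.fr {v} {F.e M i x, F.e M i (x + 1)} = {F.e M i x, F.e M i (x + 1)} := by
        rw [SG.fr, h0, empty_union, hq.1]
        exact inter_eq_right.2 (insert_subset_insert _ (by simp))
      refine U1_pc (s := 0) (κ := -G.kap (fun _ => 0) {v} c) hF.hT (hB.trans hR) hd he' hf' hL c2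
        ce cf hg k1 hq.2.1 (fun k3 => ?_) ?_
      · have k4 := (SG.kap_sign (R := ZMod 3) (fun _ => 0) c2).2
        rw [neg_eq_zero.1 k3, mul_zero] at k4
        exact zero_ne_one k4
      · rw [e3]
        simpa only [SG.out, neg_mul] using k2
  obtain ⟨X, O, k1, k2, k3⟩ := key
  refine ⟨X, O, L, _, hx, k3, (xs_sub hF hM hx).1.trans k1, k2, fun r k _ => (mL r).1 k,
    fun k v => Or.inr (Or.inr fun S hS us _ => Or.inr ⟨_, ?_, Subset.refl _⟩), Or.inl k1⟩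
  rw [if_pos k]
  exact ⟨S, hS, us, rfl⟩

end Kf

end Pool.Agent.Work.MP_8c679b_co
end

-- merged part: Pool.Agent.Work.MP_8c679b_co.Key.G2
section
/-!
Ears through labels, merges through the circuit, switches.

Hints.  `earF`: the attaching edges leave the branch `(lb a).erase a` (`lb_br`; if the label is
the single vertex `a` it has only one attaching edge), which is connected and free of boxes
(`box_clu`, `sa_real`); `ear_of_lkn`.
`earM`: `U = lb a ∪ lb b ∪ G.vs Q` is connected and saturated; the ear meets `G.vs Q` because no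
edge joins the two branches (`lb_disj`, `lb_cut`).  If `G.vs Q` is a box it is an inner node of the
ear, use `fl_tz` in the new member.  Else use `alt` and `Ear.tz`.
`sw`: merge with `earM`, `s = F.ts G M σ i`, `cls_of_ts` (`xs_congr`, `rr_xt`); `par0` for the new
member gives the first part (`mem_W0`, `mem_lo`).  In the new rest only the third edge of the root
joins `clu \ inn` to `y0 ∪ gap` (`at_edge`, `co_edge`), `cc_split`, `mc_ocs`, `canon`, `new_cc`.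
`sw2`: a box in the gap is a four-cycle (`ocs_box`); else `bead_of`.
-/

set_option autoImplicit false

namespace Pool.Agent.Work.MP_8c679b_co

open Finset

variable {V E : Type} [Fintype V] [DecidableEq V] [DecidableEq E] {G : SG V E}
  {T U Z X B N N' : Finset V} {F : Kf V E} {M M' : Mb V E} {i j j' : Bool} {k l x y m : ℕ}
  {σ σ' π : Finset V → ZMod 2} {u : ℕ → Finset V} {h : ℕ → E} {c d e f : E} {a b v q0 : V}
  {Zs : Finset (Finset V)} {g s : ZMod 2} {Q D : Finset E} {α β x1 x2 x3 y1 y2 : ℕ}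

namespace Kf

theorem G2_oe (hd : Disjoint N U) (h1 : e ∈ G.cut N) (h2 : e ∈ G.cut U) : G.oe N e ∈ U :=
  (SG.ie_link hd h1 h2).1 ▸ SG.ie_mem (SG.cut_sub_tch h2)

theorem G2_clu (ha : a ∈ G.vs Q) (h0 : a ≠ q0) : G.lb U Q a ⊆ G.clu U Q q0 :=
  fun _ hv => SG.mem_clu.2 (Or.inr ⟨a, ha, h0, hv⟩)

theorem earF (hF : F.Ok G T) (hH : ¬ F.WinN G g) (hm : F.MC G M σ Q q0)
    (hx : F.At G M Q q0 i x a) (hy : F.At G M Q q0 i y a) (hxy : x < y) :
    ∃ m u h, F.Ear G M i x y m u h ∧ inn m u ⊆ (G.lb (F.rest M) Q a).erase a ∧ 2 ≤ m ∧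
      (∀ k, 0 < k → k < m → u k ∉ F.Bs) ∧
      (h 0 ∈ G.cut ((G.lb (F.rest M) Q a).erase a) ∧ h 0 ∈ G.cut (M.w i x)) ∧
      h (m - 1) ∈ G.cut ((G.lb (F.rest M) Q a).erase a) ∧ h (m - 1) ∈ G.cut (M.w i y) := by
  obtain ⟨ha, h0, hx', e, e1, e2⟩ := hx
  obtain ⟨-, -, hy', f, f1, f2⟩ := hy
  have hM := hm.cf.isM
  obtain ⟨c1, -, c2⟩ := mc_fh hF hH hm
  have l1 := (SG.lb_self hm.cf.odd ha).2
  have cw : ∀ k ≤ M.n i, ∀ e ∈ G.cut (G.lb (F.rest M) Q a), e ∈ G.cut (M.w i k) →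
      e ∈ G.cut (F.rest M) := fun k hk e a1 a2 =>
    (SG.Ab_link (rest_disj hk) (SG.cut_sub_tch a2) (SG.tch_mono l1 (SG.cut_sub_tch a1))).2
  have e3 := cw x hx' e e1 e2
  have f3 := cw y hy' f f1 f2
  have hef : e ≠ f := fun r => SG.Quo_three (hM.disj hF.wf hx' hy' fun k => hxy.ne' k.2)
    (rest_disj hx') (rest_disj hy') (SG.cut_sub_tch e2) (SG.cut_sub_tch (r ▸ f2))
    (SG.cut_sub_tch e3)
  obtain ⟨z, -, -, -, b1, b2, b3, -, ⟨-, b4⟩ | ⟨-, b4⟩⟩ :=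
    SG.lb_br hF.hc hF.hT c2.subset c1 hm.cf.odd ha
  · have nq : ∀ e ∈ G.cut (G.lb (F.rest M) Q a), e ∈ G.cut (F.rest M) → e = z := fun e a1 a2 =>
      (b1 e (b4 ▸ a1)).resolve_left fun r => SG.not_ins_of_cut a2 ((SG.mem_ocs.1 hm.cf.odd).1 r)
    exact absurd ((nq e e1 e3).trans (nq f f1 f3).symm) hef
  have l2 := (erase_subset a _).trans l1
  have nb : ∀ B ∈ F.Bs, Disjoint B ((G.lb (F.rest M) Q a).erase a) := fun B hB =>
    (box_clu hF hH hm hB).elim (fun r => r ▸ b3.symm)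
      fun r => r.mono_right ((erase_subset a _).trans (G2_clu ha h0))
  obtain ⟨m, u, h, hE, s1, s2, rfl, rfl⟩ := ear_of_lkn hF.wf hM (sa_real nb) l2 hxy hy'
    ⟨e2, f2, b2, Or.inr ⟨G2_oe ((rest_disj hx').mono_right l2) e2 (b4 e e1 e3),
      G2_oe ((rest_disj hy').mono_right l2) f2 (b4 f f1 f3)⟩⟩
  refine ⟨m, u, h, hE, s1, ?_, fun k k1 k2 r => ?_, ⟨b4 _ e1 e3, e2⟩, b4 _ f1 f3, f2⟩
  · by_contra r
    obtain rfl : m = 1 := by omega
    exact hef rfl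
  · obtain ⟨v, hv⟩ := ((hE.pos hF.wf hM).2 k k1 k2).2.1
    exact disjoint_left.1 (nb _ r) hv (s1 (mem_inn.2 ⟨k, k1, k2, hv⟩))

/-- an ear from one label to another meets the circuit -/
theorem G2_meet (hF : F.Ok G T) (hH : ¬ F.WinN G g) (hm : F.MC G M σ Q q0) (ha : a ∈ G.vs Q)
    (hb : b ∈ G.vs Q) (hab : a ≠ b) (hE : F.Ear G M i x y m u h)
    (hs : inn m u ⊆ G.lb (F.rest M) Q a ∪ G.lb (F.rest M) Q b ∪ G.vs Q)
    (hc : inn m u ⊆ G.clu (F.rest M) Q q0) (h1 : h 0 ∈ G.cut (G.lb (F.rest M) Q a))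
    (h2 : h (m - 1) ∈ G.cut (G.lb (F.rest M) Q b)) (h3 : h (m - 1) ∈ G.cut (M.w i y)) :
    ¬ Disjoint (inn m u) (G.vs Q) := fun hd => by
  have hM := hm.cf.isM
  have la := (SG.lb_self hm.cf.odd ha).2
  have lb := (SG.lb_self hm.cf.odd hb).2
  have dab := (SG.lb_disj (mc_fh hF hH hm).1 hm.cf.odd ha hb hab).1
  obtain ⟨p1, p2⟩ := hE.pos hF.wf hM
  have key : ∀ k < m, h k ∈ G.tch (G.lb (F.rest M) Q a) := fun k => by
    induction k with
    | zero => exact fun _ => SG.cut_sub_tch h1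
    | succ k ih =>
      intro hk
      have s1 : ∀ v ∈ u (k + 1), v ∈ inn m u := fun v hv => mem_inn.2 ⟨k + 1, k.succ_pos, hk, hv⟩
      obtain ⟨-, ⟨w, hw⟩, v, -, e1⟩ := p2 (k + 1) k.succ_pos hk
      have e2 : u (k + 1) = {v} := by
        refine e1.trans ((nd_cases hF.wf.pd v).resolve_left fun r => ?_).2
        rcases box_clu hF hH hm (e1 ▸ r : u (k + 1) ∈ F.Bs) with r' | r'
        · exact disjoint_left.1 hd (s1 w hw) (r' ▸ hw)
        · exact disjoint_left.1 r' hw (hc (s1 w hw))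
      have hv := s1 v (e2 ▸ mem_singleton_self v)
      have t1 := (SG.quo_je_inv hF.wf.pd (hE.pth.mem k (by omega)) (hE.pth.jn k (by omega))).2.1
      have t2 := (SG.quo_je_inv hF.wf.pd (hE.pth.mem _ hk) (hE.pth.jn _ hk)).1
      rw [e2] at t1 t2
      rcases mem_union.1 ((mem_union.1 (hs hv)).resolve_right (disjoint_left.1 hd hv)) with r | r
      · exact SG.tch_mono (singleton_subset_iff.2 r) (SG.cut_sub_tch t2)
      have t3 := ih (by omega)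
      have t4 := SG.tch_mono (singleton_subset_iff.2 r) (SG.cut_sub_tch t1)
      rcases SG.lb_cut (SG.Ab_link dab t3 t4).1 with r' | r'
      · refine absurd (SG.mem_vs.2 ⟨_, r', ?_⟩) (disjoint_left.1 hd hv)
        exact mem_singleton.1 (SG.ie_mem (SG.cut_sub_tch t1)) ▸ SG.ie_at
      · exact absurd (SG.Quo_two la lb dab t3 t4) (SG.not_ins_of_cut r')
  exact SG.Quo_three dab ((rest_disj hE.le).symm.mono_left la) ((rest_disj hE.le).symm.mono_left lb)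
    (key (m - 1) (by omega)) (SG.cut_sub_tch h2) (SG.cut_sub_tch h3)

theorem earM (hF : F.Ok G T) (hH : ¬ F.WinN G g) (hm : F.MC G M σ Q q0)
    (hx : F.At G M Q q0 i x a) (hy : F.At G M Q q0 i y b) (hab : a ≠ b) (hxy : x < y)
    (s : ZMod 2) : ∃ m u h σ', F.Ear G M i x y m u h ∧
      inn m u ⊆ G.lb (F.rest M) Q a ∪ G.lb (F.rest M) Q b ∪ G.vs Q ∧
      ¬ Disjoint (inn m u) (G.vs Q) ∧ (∀ N, N ≠ G.vs Q → σ' N = σ N) ∧
      F.ts G (M.rr i x y m u h) σ' i = s := by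
  obtain ⟨ha, a0, hx', e, e1, e2⟩ := hx
  obtain ⟨hb, b0, hy', f, f1, f2⟩ := hy
  have hM := hm.cf.isM
  obtain ⟨q1, q2, -⟩ := SG.mem_ocs.1 hm.cf.odd
  obtain ⟨a1, a2⟩ := SG.lb_self hm.cf.odd ha
  obtain ⟨b1, b2⟩ := SG.lb_self hm.cf.odd hb
  obtain ⟨c1, c2⟩ := SG.clu_sub hm.cf.odd hm.cf.root
  have u1 := union_subset (union_subset (G2_clu (U := F.rest M) ha a0) (G2_clu hb b0)) c1
  have sa : G.lb (F.rest M) Q a ⊆ G.lb (F.rest M) Q a ∪ G.lb (F.rest M) Q b ∪ G.vs Q :=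
    subset_union_left.trans subset_union_left
  have sb : G.lb (F.rest M) Q b ⊆ G.lb (F.rest M) Q a ∪ G.lb (F.rest M) Q b ∪ G.vs Q :=
    subset_union_right.trans subset_union_left
  have sq : Q ⊆ G.ins (G.lb (F.rest M) Q a ∪ G.lb (F.rest M) Q b ∪ G.vs Q) :=
    SG.sub_ins_iff.2 ⟨q1.trans SG.ins_sub_A, subset_union_right⟩
  obtain ⟨m, u, h, hE, s1, -, rfl, rfl⟩ := ear_of_lkn hF.wf hM
    ((sa_iff hF.wf).2 fun B hB => (box_clu hF hH hm hB).imp (fun r => r ▸ subset_union_right)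
      fun r => r.mono_right u1) (u1.trans c2) hxy hy'
    ⟨e2, f2, SG.cn_of_base (a := a) fun v hv => by
      rcases mem_union.1 hv with r | r
      · rcases mem_union.1 r with r | r
        · exact (SG.lb_cn (a2 a1) a a1 v r).mono (SG.ins_mono sa)
        · exact ((q2.2.2 a ha b hb).mono sq).trans
            ((SG.lb_cn (b2 b1) b b1 v r).mono (SG.ins_mono sb))
      · exact (q2.2.2 a ha v r).mono sq,
      Or.inr ⟨sa (G2_oe ((rest_disj hx').mono_right a2) e2 e1),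
        sb (G2_oe ((rest_disj hy').mono_right b2) f2 f1)⟩⟩
  have mt := G2_meet hF hH hm ha hb hab hE s1 (s1.trans u1) e1 f1 f2
  by_cases hB : G.vs Q ∈ F.Bs
  · by_cases hs : F.ts G (M.rr i x y m u h) σ i = s
    · exact ⟨m, u, h, σ, hE, s1, mt, fun _ _ => rfl, hs⟩
    obtain ⟨z, z1, z2⟩ := not_disjoint_iff.1 mt
    obtain ⟨k, k1, k2, k3⟩ := mem_inn.1 z1
    obtain ⟨-, -, v, -, k4⟩ := (hE.pos hF.wf hM).2 k k1 k2
    have k5 : (M.rr i x y m u h).w i (x + k) = G.vs Q := by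
      rw [hE.mid.1 k k2.le, k4, ← (nd_eq_iff hF.wf.pd).2 (k4 ▸ k3), nd_of_mem hF.wf.pd hB z2]
    have k6 := (MB5_fl (σ := σ) (hE.isM hF.wf hM) ⟨by rw [rr_n]; omega, k5 ▸ hB⟩).1
    rw [k5] at k6
    refine ⟨m, u, h, fl σ (G.vs Q), hE, s1, mt, fun N hN => Function.update_of_ne hN .., ?_⟩
    rw [k6]
    revert hs
    generalize F.ts G (M.rr i x y m u h) σ i = t
    revert s t
    decide
  · have q3 := (SG.ocs_vs hm.cf.odd).1
    obtain ⟨m', u', h', r1, r2, r3, -, -, r4, r5, -, r6⟩ := alt (σ := σ) hF hE.pth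
      (hE.fst ▸ (hM.node hF.wf hx').1) (SG.ocs_mono sdiff_subset hm.cf.odd)
      (fun B hB' => ((box_clu hF hH hm hB').resolve_left fun r => hB (r ▸ hB')).mono_right c1)
      (hE.fst ▸ (rest_disj hx').mono_right q3) (hE.lst ▸ (rest_disj hy').mono_right q3) mt
      (s + (F.tz G M σ i ∅ + ∑ k ∈ Ico x y, G.n (M.g i k) + ∑ k ∈ Ioo x y,
        if M.w i k ∈ F.Bs ∧ M.w i k ∉ (∅ : Finset (Finset V)) then σ (M.w i k) else 0))
    have hE' : F.Ear G M i x y m' u' h' :=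
      ⟨hxy, hy', r1, r2.trans hE.fst, r3.trans hE.lst, r4.trans (union_subset hE.sub q3)⟩
    refine ⟨m', u', h', σ, hE', r4.trans (union_subset s1 subset_union_right), r5, fun _ _ => rfl, ?_⟩
    rw [Kf.ts, (hE'.tz hM).1]
    simp only [notMem_empty, not_false_eq_true, and_true] at r6 ⊢
    rw [r6, add_left_comm, z2_add_self, add_zero]

theorem sw (hF : F.Ok G T) (hH : ¬ F.WinN G g) (hm : F.MC G M σ Q q0)
    (hg : F.Gp G M Q q0 i x y) : ¬ G.FH (F.y0 G M Q q0 ∪ M.gap i x y ∪ F.lo M σ i) ∧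
      ∃ D ∈ G.ocs (F.y0 G M Q q0 ∪ M.gap i x y), ¬ G.vs D ⊆ F.y0 G M Q q0 := by
  obtain ⟨hc, a, b, hab, ha, hb⟩ := hg
  have hM := hm.cf.isM
  have hw := hF.wf
  obtain ⟨c1, c2⟩ := SG.clu_sub hm.cf.odd hm.cf.root
  obtain ⟨m, u, h, σ', hE, e1, e2, e3, e4⟩ := earM hF hH hm ha hb hab hc.1 (F.ts G M σ i)
  have hM' := hE.isM hw hM
  have s1 : inn m u ⊆ G.clu (F.rest M) Q q0 := e1.trans (union_subset (union_subset
    (fun v k => SG.mem_clu.2 (Or.inr ⟨a, ha.1, ha.2.1, k⟩))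
    fun v k => SG.mem_clu.2 (Or.inr ⟨b, hb.1, hb.2.1, k⟩)) c1)
  obtain ⟨-, x1, x2⟩ := xs_congr (F := F) (G := G) (M := M) (i := !i) (σ := σ) (σ' := σ')
    fun k hk => e3 _ fun r => disjoint_left.1 (rest_disj hk.1) (r ▸ hm.cf.root) (c2 (c1 hm.cf.root))
  have hc' : F.Cls G (M.rr i x y m u h) σ' := cls_of_ts hm.cf.cls fun j => by
    by_cases r : j = i
    · exact r ▸ e4
    · rw [Bool.eq_not_iff.2 r, (rr_xt (G := G)).2.2, x2]
  have hR := hE.rest hw hM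
  have s2 : F.y0 G M Q q0 ∪ M.gap i x y ⊆ F.rest (M.rr i x y m u h) := hR ▸ union_subset_union_left
    fun v k => mem_sdiff.2 ⟨(mem_sdiff.1 k).1, fun r => (mem_sdiff.1 k).2 (s1 r)⟩
  refine ⟨fun r => (par0 hF hH hM' hc').1 (r.mono (union_subset (s2.trans (W0_sub hF hM').1)
    fun v k => ?_)), ?_⟩
  · have r1 : F.lo M σ i = F.lo (M.rr i x y m u h) σ' i := by
      rw [(rr_xt (G := G)).2.1, lo, lo, x1]
    exact (mem_W0 hF hM').2 (Or.inr ⟨_, ((mem_lo hF hM').1 (r1 ▸ k)).2⟩)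
  obtain ⟨-, -, o3, o4⟩ := mc_ocs hF hH hm
  obtain ⟨D, d1, d2⟩ := SG.new_cc (G := G) (subset_union_left.trans s2) (by
    rw [o4, (canon hF hH hM' ⟨_, hc'⟩).2]
    exact fun r => one_ne_zero (left_eq_add.1 r))
  obtain ⟨d3, d4, d5⟩ := SG.mem_ocs.1 d1
  have g1 := @disjoint_left.1 (gap_disj (F := F) (x := x) hb.2.2.1)
  have s3 : F.rest (M.rr i x y m u h) \ (G.clu (F.rest M) Q q0 \ inn m u) ⊆
      F.y0 G M Q q0 ∪ M.gap i x y := fun v k => by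
    rw [hR] at k
    simp only [y0, mem_sdiff, mem_union] at k ⊢
    (clear * - k; grind)
  have k0 : ∀ e ∈ G.crs (G.ins (F.rest (M.rr i x y m u h))) (G.clu (F.rest M) Q q0 \ inn m u),
      e ∈ G.A ∧ e ∉ Q ∧ G.At e q0 := fun e he => by
    obtain ⟨r1, r2⟩ := SG.mem_crs.1 he
    obtain ⟨r3, p, q, r4, r5, r6⟩ := SG.LB_cut.1 (SG.mem_cut.2 ⟨SG.ins_sub_A r1, r2⟩)
    have r7 := s3 (mem_sdiff.2 ⟨(SG.LB_ins r1 r4).2.2, r6⟩)
    have r8 : q ∉ G.clu (F.rest M) Q q0 := fun r =>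
      (mem_union.1 r7).elim (fun k => (mem_sdiff.1 k).2 r) fun k => g1 k (c2 r)
    refine ⟨r3, fun r => r8 (c1 (SG.mem_vs.2 ⟨e, r, r4.at_iff.2 (Or.inr rfl)⟩)), ?_⟩
    rcases SG.mem_clu.1 (mem_sdiff.1 r5).1 with rfl | ⟨c, t1, t2, t3⟩
    · exact r4.at_iff.2 (Or.inl rfl)
    · have t4 : e ∈ G.cut (G.lb (F.rest M) Q c) := SG.LB_cut.2
        ⟨r3, p, q, r4, t3, fun r => r8 (SG.mem_clu.2 (Or.inr ⟨c, t1, t2, r⟩))⟩
      exact (mem_union.1 r7).elim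
        (fun k => absurd (C3_tch r3 r4.symm k) (at_edge hF hH hm t1 t2 t4).1)
        fun k => absurd (C3_tch r3 r4.symm k) (co_edge hF hM hc hb.2.2.1 t1 t2 t4)
  obtain ⟨q1, q2, -⟩ := SG.mem_ocs.1 hm.cf.odd
  rcases SG.cc_split (hR ▸ (sdiff_subset_sdiff c2 Subset.rfl).trans subset_union_left)
    (card_le_one.2 fun e he f hf => SG.third_unique hF.hc (q1.trans SG.ins_sub_A) hm.cf.root
      (q2.2.1 _) (k0 f hf).1 (k0 e he).1 (k0 f hf).2.1 (k0 e he).2.1 (k0 f hf).2.2 (k0 e he).2.2)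
    d3 d4 with r | r
  · obtain rfl : D = Q := mem_singleton.1
      (o3 ▸ SG.mem_ocs.2 ⟨r.trans (SG.ins_mono sdiff_subset), d4, d5⟩)
    exact absurd (disjoint_right.2 fun v k => (mem_sdiff.1 ((SG.sub_ins_iff.1 r).2 k)).2) e2
  · exact ⟨D, SG.mem_ocs.2 ⟨r.trans (SG.ins_mono s3), d4, d5⟩, d2⟩

theorem sw2 (hF : F.Ok G T) (hH : ¬ F.WinN G g) (hm : F.MC G M σ Q q0)
    (hg : F.Gp G M Q q0 i x y) : (∃ k, x < k ∧ k < y ∧ F.Nd M i k ∧ (M.w i k).card = 4) ∨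
      ∃ α β m u h, F.Bd G M i x y (F.y0 G M Q q0) α β m u h := by
  obtain ⟨f1, D, d1, d2⟩ := sw hF hH hm hg
  have f2 := mt (SG.FH.mono · subset_union_left) f1
  have hM := hm.cf.isM
  have hw := hF.wf
  obtain ⟨-, a, b, -, -, -, -, hy, -⟩ := hg
  have hT : F.y0 G M Q q0 ∪ M.gap i x y ⊆ T := (union_subset
    (fun v k => (mem_rest.1 (mem_sdiff.1 k).1).1) fun v k => by
      obtain ⟨k, -, r1, r2⟩ := mem_gap.1 k
      exact (hM.node hw (r1.le.trans hy)).2.2.1 r2).trans hF.hY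
  by_cases hk : ∃ k, x < k ∧ k < y ∧ M.w i k ∈ F.Bs
  · obtain ⟨k, k1, k2, k3⟩ := hk
    exact Or.inl ⟨k, k1, k2, ⟨k2.le.trans hy, k3⟩, (SG.ocs_box hF.hc hF.hT hT f2 d1
      (fun v r => mem_union_right _ (mem_gap.2 ⟨k, k1, k2, r⟩)) (hF.bx _ k3).1).2.1⟩
  refine Or.inr (bead_of hF hM hy sdiff_subset f2 d1 d2 (fun B hB => ?_)
    fun k k1 k2 k3 => hk ⟨k, k1, k2, k3⟩)
  obtain ⟨c1, c2⟩ := SG.clu_sub hm.cf.odd hm.cf.root
  rcases hM.box hw hB with r | ⟨j, k, r, rfl⟩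
  · rcases box_clu hF hH hm hB with rfl | r'
    · exact (disjoint_union_right.2 ⟨disjoint_sdiff.mono_left c1,
        (gap_disj hy).symm.mono_left r⟩).mono_right (SG.ocs_vs d1).1
    · have r1 : B ⊆ F.y0 G M Q q0 := subset_sdiff.2 ⟨r, r'⟩
      exact (SG.ocs_box hF.hc hF.hT hT f2 d1 (r1.trans subset_union_left)
        (hF.bx _ hB).1).2.2.resolve_left fun r2 => d2 (r2 ▸ r1)
  · refine (disjoint_union_right.2 ⟨(rest_disj r.1).mono_right sdiff_subset,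
      disjoint_right.2 fun v r1 r2 => ?_⟩).mono_right (SG.ocs_vs d1).1
    obtain ⟨l, l1, l2, l3⟩ := mem_gap.1 r1
    refine disjoint_left.1 (hM.disj hw (l2.le.trans hy) r.1 ?_) l3 r2
    rintro ⟨rfl, rfl⟩
    exact hk ⟨_, l1, l2, hB⟩

theorem bd_ocs (hF : F.Ok G T) (hH : ¬ F.WinN G g) (hm : F.MC G M σ Q q0)
    (hg : F.Gp G M Q q0 i x y) (hb : F.Bd G M i x y (F.y0 G M Q q0) α β m u h)
    (hD : D ∈ G.ocs (F.y0 G M Q q0)) : Disjoint (G.vs D) (inn m u) := by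
  obtain ⟨D', d1, d2⟩ := hb.cyc
  have hα := hb.ear.lt.le.trans hb.ear.le
  refine (SG.ocs_disj hF.hc (mt (SG.FH.mono · subset_union_left) (sw hF hH hm hg).1) d1
    (SG.ocs_mono subset_union_left hD) ?_).mono_right
    (d2 ▸ subset_union_left.trans subset_union_left)
  rintro rfl
  obtain ⟨v, hv⟩ := (hm.cf.isM.node hF.wf hα).2.1
  exact disjoint_left.1 (rest_disj hα) hv (mem_sdiff.1 ((SG.ocs_vs hD).1
    (d2 ▸ mem_union_right _ (mem_union_left _ hv)))).1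

/-- swapping a bead gives a configuration again -/
theorem bd_move (hF : F.Ok G T) (hH : ¬ F.WinN G g) (hm : F.MC G M σ Q q0)
    (hg : F.Gp G M Q q0 i x y) (hb : F.Bd G M i x y (F.y0 G M Q q0) α β m u h)
    (hc : F.Cls G (M.rr i α β m u h) σ') : F.lc M σ ≤ F.lc (M.rr i α β m u h) σ' ∧
      G.ocs (F.rest (M.rr i α β m u h)) = insert Q (G.ocs (F.y0 G M Q q0)) := by
  have hM := hm.cf.isM
  have hR := hb.ear.rest hF.wf hM
  obtain ⟨c1, c2⟩ := SG.clu_sub hm.cf.odd hm.cf.root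
  obtain ⟨-, b, -, -, -, -, hy, -⟩ := hg.2
  refine (cfg_move (Z := M.gap i α β) hF hH hm (hb.ear.isM hF.wf hM) hc
    (hR ▸ union_subset_union_left sdiff_subset) (fun a a1 a2 e a3 r =>
      co_edge hF hM hg.1 hy a1 a2 a3 (SG.tch_mono (fun v k => ?_) r)) ?_ fun D hD => ?_).2
  · obtain ⟨k, k1, k2, k3⟩ := mem_gap.1 k
    exact mem_gap.2 ⟨k, hb.lo.trans k1, k2.trans hb.hi, k3⟩
  · exact hR ▸ (subset_sdiff.2 ⟨c1.trans c2, (disjoint_sdiff.mono c1 hb.sub)⟩).trans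
      subset_union_left
  · exact hR ▸ (subset_sdiff.2 ⟨(SG.ocs_vs hD).1.trans sdiff_subset,
      bd_ocs hF hH hm hg hb hD⟩).trans subset_union_left

end Kf

end Pool.Agent.Work.MP_8c679b_co
end

-- merged part: Pool.Agent.Work.MP_8c679b_co.Key.GA
section
/-!
The word problem at the end of the machine.  `At i x a`: the label `a` sits at position `x` of
track `i`.

Hints.  After an attached position `x` with a later attached position there is a next attached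
position (`Nat.find`); such a pair is `ACo`, and it is `AGp` if the labels differ.  If `F1` holds
on a track (neighbours have different labels), `by2` leaves the words `A`, `AB`, `ABA`
(`a_word`).  `end_ring`: two of the three labels are on one track, so there is a gap.  If a track
reads `ABA`, the third label `C` is on the other track, which reads `C`, `CA`, `AC`, `ACA` (else
`jm`, for `CAC` with the roles exchanged).  `end_fam`: case distinction on the word of a track with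
a gap and on the tied label.
-/

set_option autoImplicit false

namespace Pool.Agent.Work.MP_8c679b_co

variable {α : Type} {At : Bool → ℕ → α → Prop} {Lf : Bool → ℕ → Prop} {i : Bool} {x y : ℕ}
  {a b c : α}

theorem GA_next (hb : At i y b) (hxy : x < y) : ∃ z d, ACo At i x z ∧ At i z d ∧ z ≤ y := by
  classical
  have ex : ∃ z, x < z ∧ ∃ d, At i z d := ⟨y, hxy, b, hb⟩
  obtain ⟨h1, d, h2⟩ := Nat.find_spec ex
  exact ⟨_, d, ⟨h1, fun k k1 k2 e k3 => Nat.find_min ex k2 ⟨k1, e, k3⟩⟩, h2,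
    Nat.find_min' ex ⟨hxy, b, hb⟩⟩

/-- two different labels on one track give a gap -/
theorem a_gap (one : ∀ i x a b, At i x a → At i x b → a = b) (ha : At i x a) (hb : At i y b)
    (hab : a ≠ b) : ∃ u w, AGp At i u w := by
  have key : ∀ {a b : α} {y : ℕ}, a ≠ b → At i y b → ∀ n x, y - x = n → x < y → At i x a →
      ∃ u w, AGp At i u w := fun {a b y} hab hb n => by
    induction n using Nat.strong_induction_on with | _ n ih => ?_
    intro x hn hxy ha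
    obtain ⟨z, d, h1, h2, h3⟩ := GA_next hb hxy
    by_cases k : a = d
    · subst k
      have h4 := h3.lt_of_ne fun e => hab (one i z a b h2 (e ▸ hb))
      exact ih _ (by have := h1.1; omega) z rfl h4 h2
    · exact ⟨x, z, h1, a, d, k, ha, h2⟩
  rcases lt_trichotomy x y with k | rfl | k
  exacts [key hab hb _ x rfl k ha, absurd (one i x a b ha hb) hab, key hab.symm ha _ y rfl k hb]

theorem GA_word (one : ∀ i x a b, At i x a → At i x b → a = b)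
    (f1 : ∀ x y a, ACo At i x y → At i x a → At i y a → False)
    (by2 : ∀ x y a b x1 y1 x2 y2, a ≠ b → At i x a → At i y b → AGp At i x1 y1 → AGp At i x2 y2 →
      x ≤ x1 → y1 ≤ x2 → y2 ≤ y → False) (hx : At i x a) :
    (∃ p l, ASi At i p l ∧ ∀ z d, At i z d → d = l) ∨
      (∃ p q l m, l ≠ m ∧ AGp At i p q ∧ ASi At i p l ∧ ASi At i q m ∧
        ∀ z d, At i z d → d = l ∨ d = m) ∨
      ∃ p q r l m, m ≠ l ∧ AAb At i p q r l m ∧ ∀ z d, At i z d → d = m ∨ d = l := by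
  classical
  have ex : ∃ z, ∃ d, At i z d := ⟨x, a, hx⟩
  obtain ⟨p, ⟨l, hl⟩, hp⟩ : ∃ p, (∃ l, At i p l) ∧ ∀ z d, At i z d → p ≤ z :=
    ⟨_, Nat.find_spec ex, fun z d h => Nat.find_min' ex ⟨d, h⟩⟩
  have nx : ∀ u e, At i u e →
      (∀ z d, At i z d → z ≤ u) ∨ ∃ w d, AGp At i u w ∧ At i w d ∧ e ≠ d := fun u e h => by
    refine or_iff_not_imp_left.2 fun k => ?_
    simp only [not_forall, not_le] at k
    obtain ⟨z, d, k1, k2⟩ := k
    obtain ⟨w, d', h1, h2, -⟩ := GA_next k1 k2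
    have h3 : e ≠ d' := fun q => f1 u w e h1 h (q ▸ h2)
    exact ⟨w, d', ⟨h1, e, d', h3, h, h2⟩, h2, h3⟩
  have bt : ∀ {u w z d}, AGp At i u w → At i z d → z ≤ u ∨ w ≤ z := fun g h =>
    by_contra fun k => g.1.2 _ (by omega) (by omega) _ h
  have sm : ∀ {u z d e}, At i u e → At i z d → z = u → d = e := fun h h' q =>
    one i _ _ _ (q ▸ h') h
  have df : ∀ {u z d e}, At i u e → At i z d → d ≠ e → z ≠ u := fun h h' k q =>
    k (one i _ _ _ (q ▸ h') h)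
  rcases nx p l hl with k | ⟨q, m, g1, hm, lm⟩
  · have e : ∀ z d, At i z d → z = p := fun z d h => le_antisymm (k z d h) (hp z d h)
    exact Or.inl ⟨p, l, ⟨hl, fun z => e z l⟩, fun z d h => one i p d l (e z d h ▸ h) hl⟩
  rcases nx q m hm with k | ⟨r, n, g2, hn, mn⟩
  · have e : ∀ z d, At i z d → z = p ∨ z = q := fun z d h => by
      have := k z d h; have := hp z d h; have := bt g1 h; omega
    exact Or.inr (Or.inl ⟨p, q, l, m, lm, g1, ⟨hl, fun z h => (e z l h).resolve_right (df hm h lm)⟩,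
      ⟨hm, fun z h => (e z m h).resolve_left (df hl h lm.symm)⟩, fun z d h => (e z d h).imp
        (sm hl h) (sm hm h)⟩)
  obtain rfl : l = n := by_contra fun k => by2 p r l n p q q r k hl hn g1 g2 le_rfl le_rfl le_rfl
  rcases nx r l hn with k | ⟨s, o, g3, ho, no⟩
  · have e : ∀ z d, At i z d → z = q ∨ z = p ∨ z = r := fun z d h => by
      have := k z d h; have := hp z d h; have := bt g1 h; have := bt g2 h; omega
    exact Or.inr (Or.inr ⟨p, q, r, l, m, mn, ⟨g1, g2, hl, hn, ⟨hm, fun z h => (e z m h).resolve_right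
      (not_or.2 ⟨df hl h mn, df hn h mn⟩)⟩, fun z h => (e z l h).resolve_left (df hm h lm)⟩,
      fun z d h => (e z d h).imp (sm hm h) fun e => e.elim (sm hl h) (sm hn h)⟩)
  · exact (by2 p s l o p q q r no hl ho g1 g2 le_rfl le_rfl g3.1.1.le).elim

theorem a_read (one : ∀ i x a b, At i x a → At i x b → a = b)
    (f1 : ∀ x y a, ACo At i x y → At i x a → At i y a → False)
    (by2 : ∀ x y a b x1 y1 x2 y2, a ≠ b → At i x a → At i y b → AGp At i x1 y1 → AGp At i x2 y2 →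
      x ≤ x1 → y1 ≤ x2 → y2 ≤ y → False)
    (hx : At i x a) (hy : At i y a) (hxy : x < y) : ∃ z b, AAb At i x z y a b := by
  have ns : ∀ p, ¬ ASi At i p a := fun p h => hxy.ne ((h.2 x hx).trans (h.2 y hy).symm)
  rcases GA_word one f1 by2 hx with ⟨p, l, h1, h2⟩ | ⟨p, q, l, m, -, -, h1, h2, h3⟩ |
    ⟨p, q, r, l, m, -, h1, h2⟩
  · exact absurd (h2 x a hx ▸ h1) (ns p)
  · rcases h3 x a hx with rfl | rfl
    exacts [absurd h1 (ns p), absurd h2 (ns q)]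
  · rcases h2 x a hx with rfl | rfl
    · exact absurd h1.2.2.2.2.1 (ns q)
    have k1 := h1.2.2.2.2.2 x hx
    have k2 := h1.2.2.2.2.2 y hy
    have k3 := h1.1.1.1.trans h1.2.1.1.1
    obtain rfl : x = p := by omega
    obtain rfl : y = r := by omega
    exact ⟨q, m, h1⟩

/-- the words `A`, `AB`, `ABA` -/
theorem a_word (one : ∀ i x a b, At i x a → At i x b → a = b)
    (f1 : ∀ x y a, ACo At i x y → At i x a → At i y a → False)
    (by2 : ∀ x y a b x1 y1 x2 y2, a ≠ b → At i x a → At i y b → AGp At i x1 y1 → AGp At i x2 y2 →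
      x ≤ x1 → y1 ≤ x2 → y2 ≤ y → False) (hx : At i x a) :
    (ASi At i x a ∧ ∀ y b, At i y b → b = a) ∨
      (∃ x y a b, a ≠ b ∧ AGp At i x y ∧ ASi At i x a ∧ ASi At i y b ∧
        ∀ z c, At i z c → c = a ∨ c = b) ∨
      ∃ x1 x x3 c a, a ≠ c ∧ AAb At i x1 x x3 c a ∧ ∀ z d, At i z d → d = a ∨ d = c := by
  refine (GA_word one f1 by2 hx).imp_left fun ⟨p, l, h1, h2⟩ => ?_
  obtain rfl := h2 x a hx
  exact ⟨h1.2 x hx ▸ h1, h2⟩

theorem GA_ns {x1 x3 : ℕ} (h : AAb At i x1 x x3 c a) : ¬ ASi At i y c := fun k =>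
  (h.1.1.1.trans h.2.1.1.1).ne ((k.2 _ h.2.2.1).trans (k.2 _ h.2.2.2.1).symm)

/-- the word of a track with a gap, seen from one label -/
theorem GA_rel (one : ∀ i x a b, At i x a → At i x b → a = b)
    (f1 : ∀ x y a, ACo At i x y → At i x a → At i y a → False)
    (by2 : ∀ x y a b x1 y1 x2 y2, a ≠ b → At i x a → At i y b → AGp At i x1 y1 → AGp At i x2 y2 →
      x ≤ x1 → y1 ≤ x2 → y2 ≤ y → False) (hg : ∃ u w, AGp At i u w) (hx : At i x a) :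
    ∃ s, s ≠ a ∧ (∀ z d, At i z d → d = a ∨ d = s) ∧ ((∃ y z, ASi At i y a ∧ ASi At i z s) ∨
      (∃ x1 x x3, AAb At i x1 x x3 s a) ∨ ∃ x1 x x3, AAb At i x1 x x3 a s) := by
  rcases GA_word one f1 by2 hx with ⟨p, l, -, h2⟩ | ⟨p, q, l, m, h0, -, h1, h2, h3⟩ |
    ⟨p, q, r, l, m, h0, h1, h2⟩
  · obtain ⟨u, w, -, b, c, k1, k2, k3⟩ := hg
    exact absurd ((h2 _ _ k2).trans (h2 _ _ k3).symm) k1
  · rcases h3 x a hx with rfl | rfl
    · exact ⟨m, h0.symm, h3, Or.inl ⟨p, q, h1, h2⟩⟩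
    · exact ⟨l, h0, fun z d h => (h3 z d h).symm, Or.inl ⟨q, p, h2, h1⟩⟩
  · rcases h2 x a hx with rfl | rfl
    · exact ⟨l, h0.symm, h2, Or.inr (Or.inl ⟨p, q, r, h1⟩)⟩
    · exact ⟨m, h0, fun z d h => (h2 z d h).symm, Or.inr (Or.inr ⟨p, q, r, h1⟩)⟩

/-- a track with a gap and the third label -/
theorem GA_set (one : ∀ i x a b, At i x a → At i x b → a = b) (hab : a ≠ b) (hac : a ≠ c)
    (hbc : b ≠ c) (ha : ∃ i x, At i x a) (hb : ∃ i x, At i x b) (hc : ∃ i x, At i x c)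
    (f1 : ∀ i x y a u w, ACo At i x y → At i x a → At i y a → AGp At i u w → False)
    (by2 : ∀ i x y a b x1 y1 x2 y2, a ≠ b → At i x a → At i y b → AGp At i x1 y1 →
      AGp At i x2 y2 → x ≤ x1 → y1 ≤ x2 → y2 ≤ y → False) :
    ∃ j p q r x y, (∃ u w, AGp At j u w) ∧ q ≠ p ∧ r ≠ p ∧ r ≠ q ∧ ASi At j x p ∧
      (∀ z d, At j z d → d = p ∨ d = q) ∧ ((∃ y, ASi At j y q) ∨ ∃ x1 x3, AAb At j x1 x x3 q p) ∧
      At (!j) y r ∧ ∀ z, ¬ At (!!j) z r := by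
  obtain ⟨j, u, w, hg⟩ : ∃ j u w, AGp At j u w := by
    obtain ⟨i1, x1, h1⟩ := ha
    obtain ⟨i2, x2, h2⟩ := hb
    obtain ⟨i3, x3, h3⟩ := hc
    cases i1 <;> cases i2 <;> cases i3 <;>
      first | exact ⟨_, a_gap one h1 h2 hab⟩ | exact ⟨_, a_gap one h1 h3 hac⟩ |
        exact ⟨_, a_gap one h2 h3 hbc⟩
  obtain ⟨p, q, x, h1, h2, h3, h4⟩ : ∃ p q x, q ≠ p ∧ ASi At j x p ∧
      (∀ z d, At j z d → d = p ∨ d = q) ∧
      ((∃ y, ASi At j y q) ∨ ∃ x1 x3, AAb At j x1 x x3 q p) := by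
    obtain ⟨e, -, -, he, -⟩ := hg.2
    obtain ⟨s, k1, k2, ⟨y, z, k3, k4⟩ | ⟨x1, x, x3, k3⟩ | ⟨x1, x, x3, k3⟩⟩ :=
      GA_rel one (fun x y a h1 h2 h3 => f1 j x y a u w h1 h2 h3 hg) (by2 j) ⟨u, w, hg⟩ he
    · exact ⟨e, s, y, k1, k3, k2, Or.inl ⟨z, k4⟩⟩
    · exact ⟨e, s, x, k1, k3.2.2.2.2.1, k2, Or.inr ⟨x1, x3, k3⟩⟩
    · exact ⟨s, e, x, k1.symm, k3.2.2.2.2.1, fun z d h => (k2 z d h).symm, Or.inr ⟨x1, x3, k3⟩⟩
  obtain ⟨r, ⟨r1, r2⟩, k, y, hy⟩ : ∃ r, (r ≠ p ∧ r ≠ q) ∧ ∃ i x, At i x r := by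
    by_cases k1 : a ≠ p ∧ a ≠ q
    · exact ⟨a, k1, ha⟩
    by_cases k2 : b ≠ p ∧ b ≠ q
    · exact ⟨b, k2, hb⟩
    refine ⟨c, ?_, hc⟩
    simp only [not_and_or, not_not] at k1 k2
    rcases k1 with rfl | rfl <;> rcases k2 with rfl | rfl
    exacts [absurd rfl hab, ⟨hac.symm, hbc.symm⟩, ⟨hbc.symm, hac.symm⟩, absurd rfl hab]
  have h5 : ∀ z, ¬ At j z r := fun z h => (h3 z r h).elim r1 r2
  obtain rfl : k = !j := Bool.eq_not.2 fun e => h5 y (e ▸ hy)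
  exact ⟨j, p, q, r, x, y, ⟨u, w, hg⟩, h1, r1, r2, h2, h3, h4, hy, by rwa [Bool.not_not]⟩

theorem GA_glob (h : ASi At i x a) (h' : ∀ z, ¬ At (!i) z a) (k : Bool) (z : ℕ) (e : At k z a) :
    k = i ∧ z = x := by
  obtain rfl : k = i := by_contra fun q => h' z (Bool.eq_not.2 q ▸ e)
  exact ⟨rfl, h.2 z e⟩

theorem end_ring (one : ∀ i x a b, At i x a → At i x b → a = b) (hab : a ≠ b) (hac : a ≠ c)
    (hbc : b ≠ c) (ha : ∃ i x, At i x a) (hb : ∃ i x, At i x b) (hc : ∃ i x, At i x c)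
    (f1 : ∀ i x y a j u w, ACo At i x y → At i x a → At i y a → AGp At j u w → False)
    (by2 : ∀ i x y a b x1 y1 x2 y2, a ≠ b → At i x a → At i y b → AGp At i x1 y1 →
      AGp At i x2 y2 → x ≤ x1 → y1 ≤ x2 → y2 ≤ y → False)
    (jm : ∀ i x1 x x3 a y1 y2 b c, AGp At i x1 x → AGp At i x x3 → At i x1 a → At i x3 a →
      AGp At (!i) y1 y2 → At (!i) y1 b → At (!i) y2 c → b ≠ a → c ≠ a → False) :
    (∃ j u w, AGp At j u w) ∧ ∃ i x a j y b, a ≠ b ∧ At i x a ∧ At j y b ∧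
      (∀ k z, At k z a → k = i ∧ z = x) ∧ ∀ k z, At k z b → k = j ∧ z = y := by
  obtain ⟨j, p, q, r, x, y, ⟨u, w, hg⟩, qp, rp, rq, h1, h2, h3, h4, h5⟩ :=
    GA_set one hab hac hbc ha hb hc (fun i x y a => f1 i x y a i) by2
  refine ⟨⟨j, u, w, hg⟩, ?_⟩
  have f2 := fun x y a h1 h2 h3 => f1 (!j) x y a j u w h1 h2 h3 hg
  have fin : ∀ d z z', r ≠ d → ASi At j z d → (∀ z, ¬ At (!j) z d) → ASi At (!j) z' r →
      ∃ i x a j y b, a ≠ b ∧ At i x a ∧ At j y b ∧ (∀ k z, At k z a → k = i ∧ z = x) ∧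
        ∀ k z, At k z b → k = j ∧ z = y := fun d z z' k1 k2 k3 k4 =>
    ⟨j, z, d, !j, z', r, k1.symm, k2.1, k4.1, GA_glob k2 k3, GA_glob k4 h5⟩
  by_cases g : ∃ u w, AGp At (!j) u w
  swap
  · rcases a_word one f2 (by2 _) h4 with k | ⟨_, _, _, _, -, k, -⟩ | ⟨_, _, _, _, _, -, k, -⟩
    exacts [fin p x y rp h1 (fun z e => rp (k.2 z p e).symm) k.1, absurd ⟨_, _, k⟩ g,
      absurd ⟨_, _, k.1⟩ g]
  obtain ⟨s, s1, s2, s3⟩ := GA_rel one f2 (by2 _) g h4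
  obtain ⟨z, hz⟩ : ∃ z, ASi At (!j) z r := by
    rcases s3 with ⟨z, -, k, -⟩ | ⟨_, z, _, k⟩ | ⟨y1, z, y3, k⟩
    · exact ⟨z, k⟩
    · exact ⟨z, k.2.2.2.2.1⟩
    · rw [← Bool.not_not j] at hg
      obtain ⟨d, e, -, k1, k2⟩ := hg.2
      exact (jm _ y1 z y3 r u w d e k.1 k.2.1 k.2.2.1 k.2.2.2.1 hg k1 k2
        (fun e => h5 u (e ▸ k1)) fun e => h5 w (e ▸ k2)).elim
  by_cases sp : p = s
  swap
  · exact fin p x z rp h1 (fun z e => (s2 z p e).elim rp.symm sp) hz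
  subst sp
  have nq : ∀ z, ¬ At (!j) z q := fun z e => (s2 z q e).elim rq.symm qp
  rcases h3 with ⟨x', k⟩ | ⟨x1, x3, k⟩
  · exact fin q x' z rq k nq hz
  · obtain ⟨y1, y2, g⟩ := g
    obtain ⟨d, e, -, k1, k2⟩ := g.2
    exact (jm j x1 x x3 q y1 y2 d e k.1 k.2.1 k.2.2.1 k.2.2.2.1 g k1 k2
      (fun e => nq y1 (e ▸ k1)) fun e => nq y2 (e ▸ k2)).elim

theorem end_fam (one : ∀ i x a b, At i x a → At i x b → a = b) (hab : a ≠ b) (hac : a ≠ c)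
    (hbc : b ≠ c) (ha : ∃ i x, At i x a) (hb : ∃ i x, At i x b) (hc : ∃ i x, At i x c)
    (f1 : ∀ i x y a u w, ACo At i x y → At i x a → At i y a → AGp At i u w → False)
    (by2 : ∀ i x y a b x1 y1 x2 y2, a ≠ b → At i x a → At i y b → AGp At i x1 y1 →
      AGp At i x2 y2 → x ≤ x1 → y1 ≤ x2 → y2 ≤ y → False)
    (nn : ∀ i x y a, At i x a → At i y a → Lf i x → y = x) :
    (∃ i x y a b, a ≠ b ∧ ASi At i x a ∧ ASi At i y b ∧ (∃ u w, AGp At i u w) ∧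
        (∀ z, At (!i) z a → ¬ Lf (!i) z) ∧ ∀ z, At (!i) z b → ¬ Lf (!i) z) ∨
      (∃ i x a, ASh At i x a ∧ ∀ z, At (!i) z a → ¬ Lf (!i) z) ∨
      (∃ i x y a, ASh At i x a ∧ ASh At (!i) y a ∧ Lf i x) ∨
      ∃ x1 x x3 y1 y y3 a b c, AAb At false x1 x x3 a b ∧ AAb At true y1 y y3 a c ∧
        (∀ z, ¬ At true z b) ∧ ∀ z, ¬ At false z c := by
  obtain ⟨j, p, q, r, x, y, hg, qp, rp, rq, h1, h2, h3, h4, h5⟩ :=
    GA_set one hab hac hbc ha hb hc f1 by2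
  refine Or.inr ?_
  have rel : ∀ d z, r ≠ d → At (!j) z d → (∀ z e, At (!j) z e → e = r ∨ e = d) ∧
      ((∃ z, ASh At (!j) z d) ∨ ∃ x1 x x3, AAb At (!j) x1 x x3 d r) := fun d z k1 k2 => by
    obtain ⟨u, w, g⟩ := a_gap one h4 k2 k1
    obtain ⟨s, s1, s2, s3⟩ := GA_rel one (fun x y a h1 h2 h3 => f1 _ x y a u w h1 h2 h3 g)
      (by2 _) ⟨u, w, g⟩ h4
    obtain rfl := (s2 z d k2).resolve_left k1.symm
    refine ⟨s2, ?_⟩
    rcases s3 with ⟨y1, y2, k3, k4⟩ | k3 | ⟨y1, y2, y3, k3⟩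
    · exact Or.inl ⟨y2, k4, ⟨u, w, g⟩, r, k1, h5, Or.inl ⟨y1, k3⟩⟩
    · exact Or.inr k3
    · exact Or.inl ⟨y2, k3.2.2.2.2.1, ⟨u, w, g⟩, r, k1, h5, Or.inr ⟨y1, y3, k3⟩⟩
  have fam : ∀ d z, r ≠ d → ASh At j z d →
      (∃ i x a, ASh At i x a ∧ ∀ z, At (!i) z a → ¬ Lf (!i) z) ∨
        ∃ i x y a, ASh At i x a ∧ ASh At (!i) y a ∧ Lf i x := fun d z k1 k2 => by
    by_cases k : ∀ z, At (!j) z d → ¬ Lf (!j) z
    · exact Or.inl ⟨j, z, d, k2, k⟩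
    simp only [not_forall, not_not] at k
    obtain ⟨z', k3, k4⟩ := k
    rcases (rel d z' k1 k3).2 with ⟨z2, k5⟩ | ⟨_, _, _, k5⟩
    · exact Or.inr ⟨!j, z2, z, d, k5, by rwa [Bool.not_not], k5.1.2 z' k3 ▸ k4⟩
    · exact absurd ⟨k3, fun y e => nn _ z' y d k3 e k4⟩ (GA_ns k5)
  by_cases nq : ∀ z, ¬ At (!j) z q
  · exact (fam p x rp ⟨h1, hg, q, qp, nq, h3⟩).imp_right Or.inl
  simp only [not_forall, not_not] at nq
  obtain ⟨z, hz⟩ := nq
  obtain ⟨s2, s3⟩ := rel q z rq hz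
  have np : ∀ z, ¬ At (!j) z p := fun z e => (s2 z p e).elim rp.symm qp.symm
  rcases h3 with ⟨x', k⟩ | ⟨x1, x3, k⟩
  · exact (fam q x' rq ⟨k, hg, p, qp.symm, np, Or.inl ⟨x, h1⟩⟩).imp_right Or.inl
  rcases s3 with ⟨z', k1⟩ | ⟨y1, y2, y3, k1⟩
  · refine Or.inl ⟨!j, z', q, k1, fun z e e' => ?_⟩
    rw [Bool.not_not] at e e'
    exact GA_ns k ⟨e, fun y e2 => nn _ z y q e e2 e'⟩
  · cases j
    · exact Or.inr (Or.inr ⟨_, _, _, _, _, _, q, p, r, k, k1, np, h5⟩)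
    · exact Or.inr (Or.inr ⟨_, _, _, _, _, _, q, r, p, k1, k, h5, np⟩)

end Pool.Agent.Work.MP_8c679b_co
end

-- merged part: Pool.Agent.Work.MP_8c679b_co.Key.G4
section
/-!
The moves of the machine.

Hints.  `f1`: take the ear of `earF`; if a rerouted member `M'` is closed, `cfg_move` (with
`Z =` the gap, `co_edge`) puts the cluster into the new rest, but the ear has an inner vertex in
the cluster.  A node that survives closes it (`cls_or`, `rr_oc`, `Ear.lo`, `Ear.hi`, `Ear.ps`).  With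
a gap use `sw2`; the gap and the interval `x, y` do not overlap (`dbl`); for a bead reroute twice
(`Bd.keep`, `cls_tog`, `bd_ocs`, `Z =` the union of the two gaps).
`by2`: `earM` from `x` to `y`, `sw` for both gaps, `two_new`.  `jump`: the same with the given ear.
`jm`: `earF` on track `i`, `earM` on track `!i` with the sign from `cls_need`, `Ear.keep`.
`nn2`: `a_read` with `f1` (the node survives every move) and `by2`, then `jump` and `cls_or`.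
-/

set_option autoImplicit false

namespace Pool.Agent.Work.MP_8c679b_co

open Finset

variable {V E : Type} [Fintype V] [DecidableEq V] [DecidableEq E] {G : SG V E}
  {T U Z X B N N' : Finset V} {F : Kf V E} {M M' : Mb V E} {i j j' : Bool} {k l x y m : ℕ}
  {σ σ' π : Finset V → ZMod 2} {u : ℕ → Finset V} {h : ℕ → E} {c d e f : E} {a b v q0 : V}
  {Zs : Finset (Finset V)} {g s : ZMod 2} {Q D : Finset E} {α β x1 x2 x3 y1 y2 : ℕ}

namespace Kf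

/-- a label other than the root lies in the cluster -/
theorem G4_clu (ha : a ∈ G.vs Q) (h0 : a ≠ q0) : G.lb X Q a ⊆ G.clu X Q q0 :=
  fun _ hv => SG.mem_clu.2 (Or.inr ⟨a, ha, h0, hv⟩)

theorem G4_vq (hm : F.MC G M σ Q q0) : G.vs Q ⊆ G.clu (F.rest M) Q q0 ∧
    G.clu (F.rest M) Q q0 ⊆ F.rest M :=
  SG.clu_sub hm.cf.odd hm.cf.root

/-- the branch of a label is disjoint from the circuit and from the other labels -/
theorem G4_br (hF : F.Ok G T) (hH : ¬ F.WinN G g) (hm : F.MC G M σ Q q0) (ha : a ∈ G.vs Q) :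
    Disjoint ((G.lb (F.rest M) Q a).erase a) (G.vs Q) ∧
      ∀ b ∈ G.vs Q, b ≠ a → Disjoint ((G.lb (F.rest M) Q a).erase a) (G.lb (F.rest M) Q b) := by
  have hf := (mc_fh hF hH hm).1
  refine ⟨disjoint_left.2 fun v h1 h2 => ?_, fun b hb hne => ?_⟩
  · exact (SG.lb_disj hf hm.cf.odd ha h2 (mem_erase.1 h1).1.symm).2 (mem_erase.1 h1).2
  · exact (SG.lb_disj hf hm.cf.odd ha hb hne.symm).1.mono_left (erase_subset _ _)

theorem G4_gap (h1 : x ≤ x1) (h2 : y1 ≤ y) : M.gap i x1 y1 ⊆ M.gap i x y := by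
  intro v hv
  obtain ⟨k, k1, k2, k3⟩ := mem_gap.1 hv
  exact mem_gap.2 ⟨k, by omega, by omega, k3⟩

omit [Fintype V] in
theorem G4_le (hg : F.Gp G M Q q0 i x y) : x < y ∧ y ≤ M.n i := by
  obtain ⟨k1, _, _, _, _, k2⟩ := hg
  exact ⟨k1.1, k2.2.2.1⟩

/-- two gaps whose contents lie in the rest of a closable member -/
theorem G4_two (hF : F.Ok G T) (hH : ¬ F.WinN G g) (hm : F.MC G M σ Q q0) (hM' : F.IsM G M')
    (hc' : F.Cb G M') (g1 : F.Gp G M Q q0 i x1 y1) (g2 : F.Gp G M Q q0 i x2 y2) (h2 : y1 ≤ x2)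
    (s0 : F.y0 G M Q q0 ⊆ F.rest M') (s1 : M.gap i x1 y1 ⊆ F.rest M')
    (s2 : M.gap i x2 y2 ⊆ F.rest M') : False := by
  obtain ⟨-, D, hD, n1⟩ := sw hF hH hm g1
  obtain ⟨-, D', hD', n2⟩ := sw hF hH hm g2
  refine two_new hF hH hm hM' hc' s0 (SG.ocs_mono (union_subset s0 s1) hD)
    (SG.ocs_mono (union_subset s0 s2) hD') ?_ n1 n2
  rintro rfl
  refine n1 fun v hv => ?_
  rcases mem_union.1 ((SG.ocs_vs hD).1 hv) with k1 | k1
  · exact k1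
  rcases mem_union.1 ((SG.ocs_vs hD').1 hv) with k2 | k2
  · exact k2
  obtain ⟨k, a1, a2, a3⟩ := mem_gap.1 k1
  obtain ⟨l, b1, b2, b3⟩ := mem_gap.1 k2
  have hy := (G4_le g2).2
  have := hm.cf.isM.disj hF.wf (i := i) (j := i) (k := k) (l := l) (by omega) (by omega)
    (fun k3 => by omega)
  exact (disjoint_left.1 this a3 b3).elim

/-- an ear through the cluster over two gaps -/
theorem G4_ear (hF : F.Ok G T) (hH : ¬ F.WinN G g) (hm : F.MC G M σ Q q0)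
    (g1 : F.Gp G M Q q0 i x1 y1) (g2 : F.Gp G M Q q0 i x2 y2) (h1 : x ≤ x1) (h2 : y1 ≤ x2)
    (h3 : y2 ≤ y) (hE : F.Ear G M i x y m u h) (hs : inn m u ⊆ G.clu (F.rest M) Q q0) :
    ¬ F.Cb G (M.rr i x y m u h) := by
  intro hc
  have a1 := (G4_le g1).1
  have a2 := (G4_le g2).1
  have hr := hE.rest hF.wf hm.cf.isM
  refine G4_two hF hH hm (hE.isM hF.wf hm.cf.isM) hc g1 g2 h2 ?_ ?_ ?_
  · rw [hr]
    exact (sdiff_subset_sdiff Subset.rfl hs).trans subset_union_left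
  · rw [hr]
    exact (G4_gap h1 (by omega)).trans subset_union_right
  · rw [hr]
    exact (G4_gap (by omega) h3).trans subset_union_right

/-- signs that differ only on a set in the rest -/
theorem G4_ts (hF : F.Ok G T) (hM : F.IsM G M) (hX : X ⊆ F.rest M)
    (hs : ∀ N, N ≠ X → σ' N = σ N) (j : Bool) : F.ts G M σ' j = F.ts G M σ j := by
  refine (xs_congr fun k hk => hs _ fun k1 => ?_).2.2
  obtain ⟨v, hv⟩ := (hM.node hF.wf hk.1).2.1
  exact disjoint_left.1 (rest_disj (F := F) hk.1) hv (hX (k1 ▸ hv))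

omit [Fintype V] [DecidableEq E] in
/-- the sign of a track depends only on this track -/
theorem G4_tr (h1 : M'.n j = M.n j) (h2 : M'.w j = M.w j) (h3 : M'.g j = M.g j) :
    F.ts G M' σ j = F.ts G M σ j := by
  simp only [ts, tz, sl, h1, h2, h3]

/-- a node that survives the rerouting closes the new member -/
theorem G4_node (hF : F.Ok G T) (hM : F.IsM G M) (hc : F.Cls G M σ) (hE : F.Ear G M i x y m u h)
    (hs : F.Sg i j) (hk : F.Nd M j k) (ho : j ≠ i ∨ k ≤ x ∨ y ≤ k) :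
    F.Cb G (M.rr i x y m u h) := by
  obtain ⟨l, hl, e1⟩ := MB2_new hE hk.1 ho
  have hn : F.Nd (M.rr i x y m u h) j l := ⟨hl, e1 ▸ hk.2⟩
  rcases cls_or (hE.isM hF.wf hM) (rr_oc (hc.oc i)) hn hs with k1 | k1
  · exact ⟨_, k1⟩
  · exact ⟨_, k1⟩

/-- a vertex of the cluster cannot leave the rest -/
theorem G4_move (hF : F.Ok G T) (hH : ¬ F.WinN G g) (hm : F.MC G M σ Q q0)
    (hM' : F.IsM G M') (hc' : F.Cls G M' σ') (hZ : F.rest M' ⊆ (F.rest M \ X) ∪ Z)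
    (hd : Disjoint Z (F.rest M))
    (hz : ∀ a ∈ G.vs Q, a ≠ q0 → ∀ e ∈ G.cut (G.lb (F.rest M) Q a), e ∉ G.tch Z)
    (hQ : G.vs Q ⊆ F.rest M') (hy : ∀ D ∈ G.ocs (F.y0 G M Q q0), G.vs D ⊆ F.rest M')
    (hv : v ∈ X) (hv' : v ∈ G.clu (F.rest M) Q q0) : False := by
  have k1 := (cfg_move hF hH hm hM' hc' (hZ.trans (union_subset_union sdiff_subset Subset.rfl))
    hz hQ hy).1 hv'
  rcases mem_union.1 (hZ k1) with k2 | k2
  · exact (mem_sdiff.1 k2).2 hv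
  · exact disjoint_left.1 hd k2 ((G4_vq hm).2 hv')

/-- a gap does not overlap an interval between two equal neighbouring labels -/
theorem G4_sep (hF : F.Ok G T) (hH : ¬ F.WinN G g) (hm : F.MC G M σ Q q0)
    (hc : F.Co G M Q q0 i x y) (hx : F.At G M Q q0 i x a) (hy : F.At G M Q q0 i y a)
    (hg : F.Gp G M Q q0 j x1 y1) : j ≠ i ∨ y1 ≤ x ∨ y ≤ x1 := by
  by_cases hj : j = i
  swap
  · exact Or.inl hj
  subst hj
  right
  obtain ⟨⟨k1, k2⟩, a', b', hab, ha', hb'⟩ := hg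
  obtain ⟨k3, k4⟩ := hc
  by_contra hn
  have n1 : ¬ (x < x1 ∧ x1 < y) := fun t => k4 _ t.1 t.2 _ ha'
  have n2 : ¬ (x < y1 ∧ y1 < y) := fun t => k4 _ t.1 t.2 _ hb'
  have n3 : ¬ (x1 < x ∧ x < y1) := fun t => k2 _ t.1 t.2 _ hx
  have n4 : ¬ (x1 < y ∧ y < y1) := fun t => k2 _ t.1 t.2 _ hy
  obtain rfl : x1 = x := by omega
  obtain rfl : y1 = y := by omega
  exact hab ((dbl hF hH hm ha' hx).trans (dbl hF hH hm hy hb'))

theorem f1 (hF : F.Ok G T) (hH : ¬ F.WinN G g) (hm : F.MC G M σ Q q0)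
    (hc : F.Co G M Q q0 i x y) (hx : F.At G M Q q0 i x a) (hy : F.At G M Q q0 i y a)
    (hs : (∃ j x' y', F.Sg i j ∧ F.Gp G M Q q0 j x' y') ∨ ∃ k, F.Nd M i k ∧ (k ≤ x ∨ y ≤ k)) :
    False := by
  have hM := hm.cf.isM
  obtain ⟨m, u, h, hE, hi, h2, -⟩ := earF hF hH hm hx hy hc.1
  have hM' := hE.isM hF.wf hM
  have hr := hE.rest hF.wf hM
  have hcl : inn m u ⊆ G.clu (F.rest M) Q q0 :=
    hi.trans ((erase_subset _ _).trans (G4_clu hx.1 hx.2.1))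
  obtain ⟨v, hv⟩ := ((hE.pos hF.wf hM).2 1 (by omega) (by omega)).2.1
  have hv1 : v ∈ inn m u := mem_inn.2 ⟨1, by omega, by omega, hv⟩
  have hQ : G.vs Q ⊆ F.rest (M.rr i x y m u h) := by
    rw [hr]
    refine Subset.trans (fun w hw => mem_sdiff.2 ⟨(G4_vq hm).2 ((G4_vq hm).1 hw), fun k1 => ?_⟩)
      subset_union_left
    exact disjoint_left.1 (G4_br hF hH hm hx.1).1 (hi k1) hw
  have hy0 : F.y0 G M Q q0 ⊆ F.rest (M.rr i x y m u h) := by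
    rw [hr]
    exact (sdiff_subset_sdiff Subset.rfl hcl).trans subset_union_left
  have z1 : ∀ a ∈ G.vs Q, a ≠ q0 → ∀ e ∈ G.cut (G.lb (F.rest M) Q a), e ∉ G.tch (M.gap i x y) :=
    fun a ha h0 e he => co_edge hF hM hc hE.le ha h0 he
  have hA : ¬ F.Cb G (M.rr i x y m u h) := by
    rintro ⟨σ', hc'⟩
    exact G4_move hF hH hm hM' hc' hr.subset (gap_disj hE.le) z1 hQ
      (fun D hD => (SG.ocs_vs hD).1.trans hy0) hv1 (hcl hv1)
  rcases hs with ⟨j, x', y', hs, hg⟩ | ⟨k, hk, ho⟩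
  swap
  · exact hA (G4_node hF hM hm.cf.cls hE (Or.inr rfl) hk (Or.inr ho))
  have ho := G4_sep hF hH hm hc hx hy hg
  rcases sw2 hF hH hm hg with ⟨k, k1, k2, hk, -⟩ | ⟨α, β, m', u', h', hb⟩
  · refine hA (G4_node hF hM hm.cf.cls hE hs hk ?_)
    rcases ho with ho | ho | ho
    · exact Or.inl ho
    · exact Or.inr (Or.inl (by omega))
    · exact Or.inr (Or.inr (by omega))
  have hd : Disjoint (inn m u) (inn m' u') :=
    disjoint_left.2 fun w k1 k2 => (mem_sdiff.1 (hb.sub k2)).2 (hcl k1)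
  obtain ⟨α2, β2, hE', e1, e2⟩ := hb.keep (σ := σ) hF hM hE ho hd
  rcases cls_tog (rr_oc (hm.cf.cls.oc i)) hs e2 MB6_ts with k1 | k1
  · exact hA ⟨_, k1⟩
  have hr' := hE'.rest hF.wf hM'
  rw [e1] at hr'
  refine G4_move (X := inn m u) (Z := M.gap i x y ∪ M.gap j α β) hF hH hm (hE'.isM hF.wf hM') k1
    ?_ ?_ ?_ ?_ ?_ hv1 (hcl hv1)
  · rw [hr', hr, ← union_assoc]
    exact union_subset_union sdiff_subset Subset.rfl
  · exact disjoint_union_left.2 ⟨gap_disj hE.le, gap_disj hb.ear.le⟩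
  · intro a ha h0 e he k2
    rw [SG.tch_union] at k2
    rcases mem_union.1 k2 with k2 | k2
    · exact z1 a ha h0 e he k2
    · exact co_edge hF hM hg.1 (G4_le hg).2 ha h0 he (SG.tch_mono (G4_gap hb.lo.le hb.hi.le) k2)
  · rw [hr']
    refine Subset.trans (fun w hw => mem_sdiff.2 ⟨hQ hw, fun k2 => ?_⟩) subset_union_left
    exact (mem_sdiff.1 (hb.sub k2)).2 ((G4_vq hm).1 hw)
  · intro D hD
    rw [hr']
    refine Subset.trans (fun w hw => mem_sdiff.2 ⟨hy0 ((SG.ocs_vs hD).1 hw), fun k2 => ?_⟩)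
      subset_union_left
    exact disjoint_left.1 (bd_ocs hF hH hm hg hb hD) hw k2

theorem by2 (hF : F.Ok G T) (hH : ¬ F.WinN G g) (hm : F.MC G M σ Q q0)
    (hab : a ≠ b) (hx : F.At G M Q q0 i x a) (hy : F.At G M Q q0 i y b)
    (g1 : F.Gp G M Q q0 i x1 y1) (g2 : F.Gp G M Q q0 i x2 y2) (h1 : x ≤ x1) (h2 : y1 ≤ x2)
    (h3 : y2 ≤ y) : False := by
  have a1 := (G4_le g1).1
  have a2 := (G4_le g2).1
  obtain ⟨m, u, h, σ', hE, hi, -, hs, ht⟩ := earM hF hH hm hx hy hab (by omega) (F.ts G M σ i)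
  refine G4_ear hF hH hm g1 g2 h1 h2 h3 hE (hi.trans (union_subset (union_subset
    (G4_clu hx.1 hx.2.1) (G4_clu hy.1 hy.2.1)) (G4_vq hm).1)) ⟨σ', cls_of_ts hm.cf.cls fun j => ?_⟩
  by_cases hj : j = i
  · rw [hj, ht]
  · obtain ⟨k1, k2, k3, -⟩ := MB2_ne (F := F) (M := M) (x := x) (y := y) (m := m) (u := u)
      (h := h) hj
    rw [G4_tr k1 k2 k3]
    exact G4_ts hF hm.cf.isM ((G4_vq hm).1.trans (G4_vq hm).2) hs j

theorem jump (hF : F.Ok G T) (hH : ¬ F.WinN G g) (hm : F.MC G M σ Q q0)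
    (g1 : F.Gp G M Q q0 i x1 x) (g2 : F.Gp G M Q q0 i x x3) (hE : F.Ear G M i x1 x3 m u h)
    (hs : inn m u ⊆ G.clu (F.rest M) Q q0) : ¬ F.Cb G (M.rr i x1 x3 m u h) :=
  G4_ear hF hH hm g1 g2 le_rfl le_rfl le_rfl hE hs

theorem jm {c' : V} (hF : F.Ok G T) (hH : ¬ F.WinN G g) (hm : F.MC G M σ Q q0)
    (hty : F.ty = true) (g1 : F.Gp G M Q q0 i x1 x) (g2 : F.Gp G M Q q0 i x x3)
    (h1 : F.At G M Q q0 i x1 a) (h3 : F.At G M Q q0 i x3 a) (g3 : F.Gp G M Q q0 (!i) y1 y2)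
    (h4 : F.At G M Q q0 (!i) y1 b) (h5 : F.At G M Q q0 (!i) y2 c') (hb : b ≠ a) (hc : c' ≠ a) :
    False := by
  have hM := hm.cf.isM
  have a1 := (G4_le g1).1
  have a2 := (G4_le g2).1
  have hbc : b ≠ c' := by
    obtain ⟨-, b', c2, k1, k2, k3⟩ := g3
    rwa [dbl hF hH hm h4 k2, dbl hF hH hm h5 k3]
  obtain ⟨m, u, h, hE, hi, -⟩ := earF hF hH hm h1 h3 (by omega)
  have hM1 := hE.isM hF.wf hM
  have hr := hE.rest hF.wf hM
  obtain ⟨s, hcn⟩ := cls_need (G := G) F (M.rr i x1 x3 m u h) σ (!i)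
  obtain ⟨m', u', h', σ', hE', hi', -, hs, ht⟩ := earM hF hH hm h4 h5 hbc (G4_le g3).1 s
  obtain ⟨b1, b2⟩ := G4_br hF hH hm h1.1
  have hd : Disjoint (inn m u) (inn m' u') :=
    (disjoint_union_right.2 ⟨disjoint_union_right.2 ⟨b2 _ h4.1 hb, b2 _ h5.1 hc⟩, b1⟩).mono hi hi'
  have hcl : inn m u ⊆ G.clu (F.rest M) Q q0 :=
    hi.trans ((erase_subset _ _).trans (G4_clu h1.1 h1.2.1))
  have hcl' : inn m' u' ⊆ G.clu (F.rest M) Q q0 := hi'.trans (union_subset (union_subset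
    (G4_clu h4.1 h4.2.1) (G4_clu h5.1 h5.2.1)) (G4_vq hm).1)
  obtain ⟨k1, k2, k3, -⟩ := rr_other (F := F) (M := M) (i := i) (x := x1) (y := x3) (m := m)
    (u := u) (h := h)
  have hE2 : F.Ear G (M.rr i x1 x3 m u h) (!i) y1 y2 m' u' h' := by
    refine ⟨hE'.lt, k1 ▸ hE'.le, hE'.pth, k2 ▸ hE'.fst, k2 ▸ hE'.lst, ?_⟩
    rw [hr]
    exact Subset.trans (fun w hw => mem_sdiff.2 ⟨hE'.sub hw, fun t => disjoint_left.1 hd t hw⟩)
      subset_union_left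
  have hr2 := hE2.rest hF.wf hM1
  have hQ : G.vs Q ⊆ F.rest (M.rr i x1 x3 m u h) := by
    rw [hr]
    refine Subset.trans (fun w hw => mem_sdiff.2 ⟨(G4_vq hm).2 ((G4_vq hm).1 hw), fun t => ?_⟩)
      subset_union_left
    exact disjoint_left.1 b1 (hi t) hw
  have hc2 : F.Cls G ((M.rr i x1 x3 m u h).rr (!i) y1 y2 m' u' h') σ' := by
    refine hcn _ σ' (fun t => by simp [hty] at t) ?_ ?_
    · rw [← ht]
      refine G4_tr ?_ ?_ ?_
      · rw [rr_n, rr_n, k1]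
      · rw [MB2_w, MB2_w, k2]
      · rw [MB2_g, MB2_g, k3]
    · rw [MB6_ts]
      exact G4_ts hF hM1 hQ hs _
  have hg : M.gap i x1 x3 ⊆ F.rest ((M.rr i x1 x3 m u h).rr (!i) y1 y2 m' u' h') := by
    rw [hr2, hr]
    refine Subset.trans (fun w hw => mem_sdiff.2 ⟨mem_union_right _ hw, fun t => ?_⟩)
      subset_union_left
    exact disjoint_left.1 (gap_disj (F := F) hE.le) hw (hE'.sub t)
  refine G4_two hF hH hm (hE2.isM hF.wf hM1) ⟨σ', hc2⟩ g1 g2 le_rfl ?_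
    ((G4_gap le_rfl a2.le).trans hg) ((G4_gap a1.le le_rfl).trans hg)
  rw [hr2, hr]
  refine Subset.trans (fun w hw => mem_sdiff.2 ⟨mem_union_left _ ?_, fun t => ?_⟩)
    subset_union_left
  · exact sdiff_subset_sdiff Subset.rfl hcl hw
  · exact (mem_sdiff.1 hw).2 (hcl' t)

theorem G4_nn (hF : F.Ok G T) (hH : ¬ F.WinN G g) (hm : F.MC G M σ Q q0)
    (hx : F.At G M Q q0 i x a) (hy : F.At G M Q q0 i y a) (hxy : x < y) (hk : F.Nd M i k)
    (hk' : k = x ∨ k = y) : False := by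
  have ha : F.At G M Q q0 i k a := by
    rcases hk' with rfl | rfl
    · exact hx
    · exact hy
  obtain ⟨z, b, g1, g2, -⟩ := a_read (At := F.At G M Q q0) (i := i)
    (fun _ _ _ _ k1 k2 => dbl hF hH hm k1 k2)
    (fun x' y' a' k1 k2 k3 => f1 hF hH hm k1 k2 k3 (Or.inr ⟨k, hk, by
      by_contra hn
      exact k1.2 k (by omega) (by omega) a ha⟩))
    (fun _ _ _ _ _ _ _ _ k1 k2 k3 k4 k5 k6 k7 k8 => by2 hF hH hm k1 k2 k3 k4 k5 k6 k7 k8) hx hy hxy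
  obtain ⟨m, u, h, hE, hi, -⟩ := earF hF hH hm hx hy hxy
  exact jump hF hH hm g1 g2 hE (hi.trans ((erase_subset _ _).trans (G4_clu hx.1 hx.2.1)))
    (G4_node hF hm.cf.isM hm.cf.cls hE (Or.inr rfl) hk (Or.inr (by omega)))

theorem nn2 (hF : F.Ok G T) (hH : ¬ F.WinN G g) (hm : F.MC G M σ Q q0)
    (hx : F.At G M Q q0 i x a) (hy : F.At G M Q q0 i y a) (hn : M.w i x ∈ F.Bs) : y = x := by
  rcases lt_trichotomy y x with k1 | k1 | k1
  · exact (G4_nn hF hH hm hy hx k1 ⟨hx.2.2.1, hn⟩ (Or.inr rfl)).elim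
  · exact k1
  · exact (G4_nn hF hH hm hx hy k1 ⟨hx.2.2.1, hn⟩ (Or.inl rfl)).elim

end Kf

end Pool.Agent.Work.MP_8c679b_co
end

-- merged part: Pool.Agent.Work.MP_8c679b_co.Key.U2
section
/-!
The two states of a ring with units.  `Zs` is the set of the unit positions, `U` their union, `XU`
the set absorbed by the units and the circuit `Q`.

Hints.  `iso_arg`: by `mem_W0`, `mem_lo` a vertex of `D` outside the claimed set lies in a branch
`Br` of a label `b`.  At least two edges of `D` leave `Br` (`Ev.even_crs`, `Cn.sub_of_crs`); they do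
not lead to `Q`, `y0`, the gap (`at_edge`, `co_edge`), so they lead to rungs left over on the other
ring, by `nn2` to one rung `ρ`, and they are its two outer edges (`rung_on`).  Then no edge of `D`
leaves `Br ∪ ρ`, but `D` meets the gap.
`ocs_mid`: `mc_ocs`.  `state1`: the set lies between `y0` and `W0 \ G.vs Q`; `mc_reg`.
`state_bead`: if some node `N2` of the ring is `Lf` or `Aj`: `fl σ N2` closes the new member
(`Bd.ps`, `cls_tog2`, `Bd.swap`); by `bd_move`, `fl_lf`, `Bd.swap` the node is `Aj` and the signs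
are minimal, so `two_left`, `reg`, `fl_aj`, `bd_move`, `bd_ocs` give the claim.  Else an odd circuit
not inside `W0` meets the segment of the bead; `iso_arg`, `sw`, `ocs_disj` make it equal to the
bead, which contains `M.w i α`.
`state_node`: `N4 = M.w i k` is not in `Zs`.  If it is `Lf` or `Aj` take it (`qs_flip`, `fl_le`).
Else, if another node `N2` of the ring is `Lf` or `Aj`: not in `Zs`: take `N2`; in `Zs`: take `N4`
and change both signs (`cls_fl2`): if `N2` is `Aj` use `fl_aj`, `par0` twice, `fl_cp`, `rung_on`,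
`add_none`; else `N2 ⊆ XU`, `fl_lf`, `fl_cp`, `mc_sig`, `mc_reg`.  If there is no such node take
`N4`: an odd circuit through its rung contradicts `iso_arg`, `sw`, `ocs_box`.
-/

set_option autoImplicit false

namespace Pool.Agent.Work.MP_8c679b_co

open Finset

variable {V E : Type} [Fintype V] [DecidableEq V] [DecidableEq E] {G : SG V E}
  {T U Z X B N N' XU Br : Finset V} {F : Kf V E} {M M' : Mb V E} {i j j' : Bool}
  {k l x y m : ℕ} {σ σ' π : Finset V → ZMod 2} {u : ℕ → Finset V} {h : ℕ → E} {c d e f gx gy : E}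
  {a b a' v q0 : V} {Zs : Finset (Finset V)} {g s : ZMod 2} {Q D O OB : Finset E}
  {α β x1 x2 x3 y1 y2 y3 : ℕ} {p : V → ZMod 2} {φ : E → ZMod 3}

namespace Kf

omit [Fintype V] [DecidableEq E] in
theorem U2_lf (hn : ∀ j k, F.Sg i j → ¬ F.Lf M σ j k) (hl : F.Lf M σ j k) :
    F.ty = false ∧ j = !i :=
  ⟨Bool.eq_false_iff.2 fun e => hn j k (Or.inl e) hl,
    Bool.eq_not_iff.2 fun e => hn j k (Or.inr e.symm) hl⟩

theorem U2_edge (hF : F.Ok G T) (hH : ¬ F.WinN G g) (hm : F.MC G M σ Q q0)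
    (hg : F.Gp G M Q q0 i x y) (hn : ∀ j k, F.Sg i j → ¬ F.Lf M σ j k)
    (hD : D ∈ G.ocs (F.W0 M σ ∪ M.gap i x y)) (hQ : Disjoint (G.vs D) (G.vs Q))
    (hb : b ∈ G.vs Q) (h0 : b ≠ q0) (he : e ∈ G.crs D (G.lb (F.rest M) Q b)) :
    ∃ z, F.At G M Q q0 (!i) z b ∧ F.Nd M (!i) z ∧ e ∈ G.cut (M.w (!i) z) := by
  obtain ⟨e1, e2⟩ := SG.mem_crs.1 he
  have eA := SG.ins_sub_A ((SG.mem_ocs.1 hD).1 e1)
  have e3 : e ∈ G.cut (G.lb (F.rest M) Q b) := SG.mem_cut.2 ⟨eA, e2⟩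
  obtain ⟨-, e4 | ⟨j, z, hz, e4⟩⟩ := at_edge hF hH hm hb h0 e3
  · exact absurd (SG.s_mem_vs e4) (disjoint_left.1 hQ (SG.s_mem_vs e1))
  have e5 := co_edge hF hm.cf.isM hg.1 (G4_le hg).2 hb h0 e3
  have t2 : G.ie (M.w j z) e ∈ F.W0 M σ := (mem_union.1 ((SG.ocs_vs hD).1
    (SG.mem_vs.2 ⟨e, e1, SG.ie_at⟩))).resolve_right fun k => e5 (SG.Cut_tch eA SG.ie_at k)
  have t3 : F.Lf M σ j z := ⟨hz, fun k => disjoint_left.1 (C1_dW hz) t2
    (k.symm ▸ SG.ie_mem (SG.cut_sub_tch e4))⟩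
  obtain rfl := (U2_lf hn t3).2
  exact ⟨z, ⟨hb, h0, hz, e, e3, e4⟩, MB4_lf_nd t3, e4⟩

theorem iso_arg (hF : F.Ok G T) (hH : ¬ F.WinN G g) (hm : F.MC G M σ Q q0)
    (hg : F.Gp G M Q q0 i x y) (hn : ∀ j k, F.Sg i j → ¬ F.Lf M σ j k)
    (hD : D ∈ G.ocs (F.W0 M σ ∪ M.gap i x y)) (hQ : Disjoint (G.vs D) (G.vs Q))
    (hd : ¬ Disjoint (G.vs D) (M.gap i x y)) :
    G.vs D ⊆ F.y0 G M Q q0 ∪ M.gap i x y ∪ F.lo M σ i := by
  have hM := hm.cf.isM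
  have hy := (G4_le hg).2
  obtain ⟨d1, d2, -⟩ := SG.mem_ocs.1 hD
  intro v hv
  rcases mem_union.1 ((SG.ocs_vs hD).1 hv) with h1 | h1
  swap
  · exact mem_union_left _ (mem_union_right _ h1)
  rcases (mem_W0 hF hM).1 h1 with h1 | ⟨j, k, hk, h1⟩
  swap
  · obtain ⟨h2, rfl⟩ := U2_lf hn ⟨hk, fun e => (mem_sdiff.1 h1).2 (e.symm ▸ (mem_sdiff.1 h1).1)⟩
    exact mem_union_right _ ((mem_lo hF hM).2 ⟨h2, k, hk, h1⟩)
  refine mem_union_left _ (mem_union_left _ (mem_sdiff.2 ⟨h1, fun h2 => ?_⟩))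
  rcases SG.mem_clu.1 h2 with rfl | ⟨b, hb, h0, h2⟩
  · exact disjoint_left.1 hQ hv hm.cf.root
  have dL : ∀ j, ∀ k ≤ M.n j, Disjoint (M.w j k) (G.lb (F.rest M) Q b) := fun j k hk =>
    (rest_disj hk).mono_right (SG.lb_self hm.cf.odd hb).2
  have dg : ∀ z ≤ M.n (!i), Disjoint (M.w (!i) z) (M.gap i x y) := fun z hz =>
    disjoint_right.2 fun w h3 => by
      obtain ⟨k, -, k2, k3⟩ := mem_gap.1 h3
      exact disjoint_left.1 (hM.disj hF.wf (k2.le.trans hy) hz (by simp)) k3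
  have dL' : Disjoint (G.lb (F.rest M) Q b) (M.gap i x y) :=
    ((gap_disj hy).mono_right (SG.lb_self hm.cf.odd hb).2).symm
  have h3 : 1 < (G.crs D (G.lb (F.rest M) Q b)).card := by
    have h4 := d2.2.1.even_crs (G.lb (F.rest M) Q b)
    have h5 : (G.crs D (G.lb (F.rest M) Q b)).card ≠ 0 := fun e =>
      hd (dL'.mono_left (d2.2.2.sub_of_crs (card_eq_zero.1 e) hv h2))
    obtain ⟨r, h4⟩ := h4
    omega
  obtain ⟨e, he, f, hf, hef⟩ := one_lt_card.1 h3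
  obtain ⟨z, z1, z2, z3⟩ := U2_edge hF hH hm hg hn hD hQ hb h0 he
  have h4 : ∀ r ∈ G.crs D (G.lb (F.rest M) Q b), r ∈ G.cut (M.w (!i) z) := fun r hr => by
    obtain ⟨z', a1, -, a3⟩ := U2_edge hF hH hm hg hn hD hQ hb h0 hr
    exact nn2 hF hH hm z1 a1 z2.2 ▸ a3
  obtain ⟨c, d, hq⟩ := hM.q4 hF z2
  obtain ⟨x1, x2, x3⟩ := xs_sub (σ := σ) hF hM z2.1
  have h5 : ∀ r ∈ D, r ∉ G.cut (F.xs M σ (!i) z) := fun r r1 r2 =>
    (mem_union.1 ((SG.ocs_vs hD).1 (SG.mem_vs.2 ⟨r, r1, SG.ie_at⟩))).elim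
      (disjoint_right.1 (C1_dW z2.1) (SG.ie_mem (SG.cut_sub_tch r2)))
      (disjoint_left.1 (dg z z2.1) (x1 (SG.ie_mem (SG.cut_sub_tch r2))))
  have h6 : ∀ r ∈ D, r ∈ G.cut (M.w (!i) z) → r = c ∨ r = d := fun r r1 r2 => by
    rw [hq.1] at r2
    simp only [mem_insert, mem_singleton] at r2
    rcases r2 with rfl | rfl | r2
    exacts [absurd x2 (h5 _ r1), absurd x3 (h5 _ r1), r2]
  have h7 : ∀ r ∈ D, r ∈ G.cut (M.w (!i) z) → r ∈ G.crs D (G.lb (F.rest M) Q b) := fun r r1 r2 => by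
    have a1 := h6 r r1 r2
    have a2 := h6 e (SG.mem_crs.1 he).1 z3
    have a3 := h6 f (SG.mem_crs.1 hf).1 (h4 f hf)
    have a4 : r = e ∨ r = f := by grind
    rcases a4 with rfl | rfl
    exacts [he, hf]
  refine hd ((disjoint_union_left.2 ⟨dg z z2.1, dL'⟩).mono_left (d2.2.2.sub_of_crs
    (eq_empty_of_forall_notMem fun r hr => ?_) hv (mem_union_right _ h2)))
  obtain ⟨r1, r2⟩ := SG.mem_crs.1 hr
  have rA := SG.ins_sub_A (d1 r1)
  have r3 : r ∈ G.cut (M.w (!i) z ∪ G.lb (F.rest M) Q b) := SG.mem_cut.2 ⟨rA, r2⟩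
  have r4 : r ∈ G.cut (M.w (!i) z) := (mem_union.1 (SG.cut_union_sub r3)).elim id fun k =>
    h4 r (SG.mem_crs.2 ⟨r1, (SG.mem_cut.1 k).2⟩)
  exact SG.not_ins_of_cut r3 (SG.ie_link (dL _ z z2.1) r4
    (SG.mem_cut.2 ⟨rA, (SG.mem_crs.1 (h7 r r1 r4)).2⟩)).2

theorem ocs_mid {W : Finset V} (hF : F.Ok G T) (hH : ¬ F.WinN G g) (hm : F.MC G M σ Q q0)
    (hW : G.ocs W = insert Q (G.ocs (F.y0 G M Q q0))) (hX : X ⊆ W) (hQ : Disjoint X (G.vs Q))
    (hy : ∀ D ∈ G.ocs (F.y0 G M Q q0), G.vs D ⊆ X) : G.ocs X = G.ocs (F.y0 G M Q q0) := by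
  refine Subset.antisymm (fun D hD => ?_) fun D hD => (SG.ocs_vs hD).2.2 X (hy D hD)
  refine (mem_insert.1 (hW ▸ SG.ocs_mono hX hD)).resolve_left ?_
  rintro rfl
  obtain ⟨h1, ⟨v, h2⟩, -⟩ := SG.ocs_vs hD
  exact disjoint_left.1 hQ (h1 h2) h2

theorem state1 (hF : F.Ok G T) (hH : ¬ F.WinN G g) (hm : F.MC G M σ Q q0)
    (hU : ∀ v, v ∈ U ↔ ∃ N ∈ Zs, v ∈ N)
    (hZ : ∀ N ∈ Zs, ∃ j, ∃ k ≤ M.n j, F.Sg i j ∧ M.w j k = N ∧ (j ≠ i ∨ k ≤ x ∨ y ≤ k) ∧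
      F.xs M σ j k ⊆ XU ∧ (N ⊆ XU ∨ F.Aj M j k))
    (h1 : G.vs Q ⊆ XU) (h2 : XU ⊆ U ∪ G.clu (F.rest M) Q q0) :
    G.ocs ((F.W0 M σ ∪ U) \ XU) = G.ocs (F.y0 G M Q q0) := by
  have hM := hm.cf.isM
  refine ocs_mid hF hH hm ((mc_reg hF hH hm).trans (mc_ocs hF hH hm).1) (fun v hv => ?_)
    (sdiff_disjoint.mono_right h1) fun D hD v hv => ?_
  · refine (mem_union.1 (mem_sdiff.1 hv).1).elim id fun h3 => ?_
    obtain ⟨N, h4, h5⟩ := (hU v).1 h3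
    obtain ⟨j, k, hk, -, rfl, -, h6, -⟩ := hZ N h4
    exact (mem_W0 hF hM).2 (Or.inr ⟨j, k, hk, mem_sdiff.2 ⟨h5, fun e => (mem_sdiff.1 hv).2 (h6 e)⟩⟩)
  · obtain ⟨h3, h4⟩ := mem_sdiff.1 ((SG.ocs_vs hD).1 hv)
    refine mem_sdiff.2 ⟨mem_union_left _ ((W0_sub hF hM).1 h3), fun e =>
      (mem_union.1 (h2 e)).elim (fun h5 => ?_) h4⟩
    obtain ⟨N, h6, h7⟩ := (hU v).1 h5
    obtain ⟨j, k, hk, -, rfl, -⟩ := hZ N h6
    exact disjoint_left.1 (rest_disj hk) h7 h3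

theorem state_bead (hF : F.Ok G T) (hH : ¬ F.WinN G g) (hm : F.MC G M σ Q q0)
    (hg : F.Gp G M Q q0 i x y) (hb : F.Bd G M i x y (F.y0 G M Q q0) α β m u h)
    (hU : ∀ v, v ∈ U ↔ ∃ N ∈ Zs, v ∈ N)
    (hZ : ∀ N ∈ Zs, ∃ j, ∃ k ≤ M.n j, F.Sg i j ∧ M.w j k = N ∧ (j ≠ i ∨ k ≤ x ∨ y ≤ k) ∧
      F.xs M σ j k ⊆ XU ∧ (N ⊆ XU ∨ F.Aj M j k))
    (h1 : G.vs Q ⊆ XU) (h2 : XU ⊆ U ∪ G.clu (F.rest M) Q q0) :
    G.ocs ((F.W0 (M.rr i α β m u h) σ ∪ U) \ XU) = G.ocs (F.y0 G M Q q0) := by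
  have hM := hm.cf.isM
  have hM' := hb.ear.isM hF.wf hM
  obtain ⟨s1, s2, s3, s4, -⟩ := hb.swap (σ := σ) (Zs := ∅) hF hM
  have hUw : ∀ v ∈ U, ∃ j, ∃ k ≤ M.n j, v ∈ M.w j k ∧ F.xs M σ j k ⊆ XU := fun v hv => by
    obtain ⟨N, n1, n2⟩ := (hU v).1 hv
    obtain ⟨j, k, k1, -, rfl, -, k2, -⟩ := hZ N n1
    exact ⟨j, k, k1, n2, k2⟩
  have hX : (F.W0 (M.rr i α β m u h) σ ∪ U) \ XU ⊆ F.W0 (M.rr i α β m u h) σ := fun v hv => by
    obtain ⟨v1, v2⟩ := mem_sdiff.1 hv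
    refine (mem_union.1 v1).elim id fun v3 => ?_
    obtain ⟨j, k, k1, k2, k3⟩ := hUw v v3
    exact s1 ▸ mem_union_left _ (mem_sdiff.2 ⟨(mem_W0 hF hM).2 (Or.inr ⟨j, k, k1,
      mem_sdiff.2 ⟨k2, fun r => v2 (k3 r)⟩⟩), fun r =>
        disjoint_left.1 (rest_disj k1) k2 (hb.ear.sub r)⟩)
  have hQ : Disjoint ((F.W0 (M.rr i α β m u h) σ ∪ U) \ XU) (G.vs Q) :=
    sdiff_disjoint.mono_right h1
  have hy : ∀ D ∈ G.ocs (F.y0 G M Q q0), G.vs D ⊆ (F.W0 (M.rr i α β m u h) σ ∪ U) \ XU :=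
    fun D hD v hv => by
      obtain ⟨v1, v2⟩ := mem_sdiff.1 ((SG.ocs_vs hD).1 hv)
      refine mem_sdiff.2 ⟨mem_union_left _ (s1 ▸ mem_union_left _ (mem_sdiff.2
        ⟨(W0_sub hF hM).1 v1, disjoint_left.1 (bd_ocs hF hH hm hg hb hD) hv⟩)), fun r =>
          (mem_union.1 (h2 r)).elim (fun r => ?_) v2⟩
      obtain ⟨j, k, k1, k2, -⟩ := hUw v r
      exact disjoint_left.1 (rest_disj k1) k2 v1
  by_cases hl : ∃ j k, F.Sg i j ∧ F.Lf M σ j k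
  · obtain ⟨j, k, j1, j2⟩ := hl
    have j3 := MB4_lf_nd j2
    obtain ⟨l, l1, l2, l3, l4⟩ := hb.ps hM j3.1 (Or.inr (Or.inr (Or.inr j3.2)))
    have l6 : F.Lf (M.rr i α β m u h) σ j l := ⟨l1, by rw [MB6_xs l2 l3 l4, l2]; exact j2.2⟩
    have hc := cls_tog2 hm.cf.cls j1 hM' (MB4_lf_nd l6) s3 s4
    obtain ⟨b1, b2⟩ := bd_move hF hH hm hg hb hc
    have ha : F.Aj (M.rr i α β m u h) j l := by
      by_contra r
      have := (fl_lf hF hM' l6 r).2.2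
      omega
    obtain ⟨-, a1, a2⟩ := fl_aj (σ := σ) hM' ha
    have hr := reg hF hH hM' hc (two_left hF hM'
      ⟨hc, fun σ' c => (a2.trans s2).trans_le (bd_move hF hH hm hg hb c).1⟩)
    exact ocs_mid hF hH hm (a1 ▸ hr.trans b2) hX hQ hy
  refine Subset.antisymm (fun D hD => ?_) fun D hD => (SG.ocs_vs hD).2.2 _ (hy D hD)
  obtain ⟨d1, ⟨v, hv⟩, d2⟩ := SG.ocs_vs hD
  have d3 : G.vs D ⊆ (F.W0 M σ \ inn m u) ∪ M.gap i α β := s1 ▸ d1.trans hX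
  have d4 := G4_gap (M := M) (i := i) hb.lo.le hb.hi.le
  by_cases hd : Disjoint (G.vs D) (M.gap i α β)
  · have d5 := d2 (F.W0 M σ) fun w r => (mem_union.1 (d3 r)).elim (fun k => (mem_sdiff.1 k).1)
      fun k => absurd k (disjoint_left.1 hd r)
    rw [mc_reg hF hH hm, (mc_ocs hF hH hm).1] at d5
    exact (mem_insert.1 d5).resolve_left fun r => disjoint_left.1 hQ (d1 hv) (r ▸ hv)
  obtain ⟨D', e1, e2⟩ := hb.cyc
  have e3 := iso_arg hF hH hm hg (fun j k j1 j2 => hl ⟨j, k, j1, j2⟩)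
    (d2 _ (d3.trans (union_subset_union sdiff_subset d4))) (hQ.mono_left d1)
    fun r => hd (r.mono_right d4)
  obtain rfl : D' = D := by
    by_contra r
    exact hd ((SG.ocs_disj hF.hc (sw hF hH hm hg).1 (d2 _ e3) (SG.ocs_mono subset_union_left e1)
      r).symm.mono_right (e2 ▸ subset_union_right.trans subset_union_left))
  have hα := hb.ear.lt.le.trans hb.ear.le
  obtain ⟨w, w1⟩ := (hM.node hF.wf hα).2.1
  rcases mem_union.1 (d3 (e2 ▸ mem_union_right _ (mem_union_left _ w1))) with r | r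
  · exact absurd (MB4_vtx (σ := σ) (hb.r1 α le_rfl hb.ear.lt.le) ▸ w1)
      ((MB4_W0.1 (mem_sdiff.1 r).1).2 i α hα)
  · obtain ⟨k, k1, k2, k3⟩ := mem_gap.1 r
    exact absurd k3 (disjoint_left.1 (hM.disj hF.wf hα (k2.le.trans hb.ear.le)
      fun r => k1.ne' r.2) w1)

theorem U2_nd_fin (hF : F.Ok G T) (hH : ¬ F.WinN G g) (hm : F.MC G M σ Q q0)
    (hQ : Disjoint X (G.vs Q)) (hy : F.y0 G M Q q0 ⊆ X)
    (hD : ∀ D ∈ G.ocs X, D ∈ G.ocs (F.rest M)) : G.ocs X = G.ocs (F.y0 G M Q q0) := by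
  refine Subset.antisymm (fun D k1 => ?_) (SG.ocs_mono hy)
  have k2 := hD D k1
  rw [(mc_ocs hF hH hm).1, mem_insert] at k2
  refine k2.resolve_left fun k3 => ?_
  obtain ⟨k4, ⟨v, hv⟩, -⟩ := SG.ocs_vs k1
  exact disjoint_left.1 hQ (k4 hv) (k3 ▸ hv)

theorem U2_nd_dis (hk : k ≤ M.n i) : Disjoint (F.W0 M σ) (F.xs M σ i k) :=
  disjoint_left.2 fun _ hv => (MB4_W0.1 hv).2 i k hk

/-- an odd circuit through the rung of a four-cycle in a gap -/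
theorem U2_nd_none (hF : F.Ok G T) (hH : ¬ F.WinN G g) (hm : F.MC G M σ Q q0)
    (hg : F.Gp G M Q q0 i x y) (hx : x < k) (hy : k < y) (hk : F.Nd M i k)
    (hn : ∀ j k, F.Sg i j → ¬ F.Lf M σ j k) (hD : D ∈ G.ocs (F.W0 M σ'))
    (hs : F.W0 M σ' ⊆ F.W0 M σ ∪ M.w i k) (hQ : Disjoint (G.vs D) (G.vs Q)) :
    Disjoint (M.w i k) (G.vs D) := by
  have hM := hm.cf.isM
  have hyn := (G4_le hg).2
  have k1 : M.w i k ⊆ M.gap i x y := fun v hv => mem_gap.2 ⟨k, hx, hy, hv⟩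
  by_contra k2
  have k3 := iso_arg hF hH hm hg hn
    (SG.ocs_mono (hs.trans (union_subset_union_right k1)) hD) hQ
    fun k3 => k2 (k3.symm.mono_left k1)
  have k4 : F.y0 G M Q q0 ∪ M.gap i x y ∪ F.lo M σ i ⊆ F.Y := by
    refine union_subset (union_subset (sdiff_subset.trans sdiff_subset) fun v hv => ?_)
      fun v hv => ?_
    · obtain ⟨l, -, l2, l3⟩ := mem_gap.1 hv
      exact (hM.node hF.wf (by omega)).2.2.1 l3
    · obtain ⟨-, l, l1, l2⟩ := (mem_lo hF hM).1 hv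
      exact (hM.node hF.wf l1).2.2.1 (mem_sdiff.1 l2).1
  rcases (SG.ocs_box hF.hc hF.hT (k4.trans hF.hY) (sw hF hH hm hg).1 ((SG.ocs_vs hD).2.2 _ k3)
    (k1.trans (subset_union_right.trans subset_union_left)) (hF.bx _ hk.2).1).2.2 with k5 | k5
  · obtain ⟨k6, k7, -⟩ := xs_sub (σ := σ') hF hM hk.1
    exact disjoint_left.1 (U2_nd_dis hk.1) ((SG.ocs_vs hD).1 (k5 ▸ k6 (SG.Spl_ie k7)))
      (SG.Spl_ie k7)
  · exact k2 k5

theorem state_node (hF : F.Ok G T) (hH : ¬ F.WinN G g) (hm : F.MC G M σ Q q0)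
    (hg : F.Gp G M Q q0 i x y) (hx : x < k) (hy : k < y) (hk : F.Nd M i k)
    (h4 : (M.w i k).card = 4)
    (hU : ∀ v, v ∈ U ↔ ∃ N ∈ Zs, v ∈ N)
    (hZ : ∀ N ∈ Zs, ∃ j, ∃ k ≤ M.n j, F.Sg i j ∧ M.w j k = N ∧ (j ≠ i ∨ k ≤ x ∨ y ≤ k) ∧
      F.xs M σ j k ⊆ XU ∧ (N ⊆ XU ∨ F.Aj M j k))
    (h1 : G.vs Q ⊆ XU) (h2 : XU ⊆ U ∪ G.clu (F.rest M) Q q0) :
    ∃ j l, F.Sg i j ∧ F.Nd M j l ∧ M.w j l ∉ Zs ∧
      (∀ j', F.QS G M (fl σ (M.w j l)) (fl σ (M.w j l)) j' ∅) ∧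
      G.ocs ((F.W0 M (fl σ (M.w j l)) ∪ U) \ XU) = G.ocs (F.y0 G M Q q0) := by
  have hM := hm.cf.isM
  have hc := hm.cf.cls
  have hr : G.ocs (F.W0 M σ) = G.ocs (F.rest M) := mc_reg hF hH hm
  have hUW : ∀ v ∈ U, v ∉ XU → v ∈ F.W0 M σ := by
    intro v k1 k2
    obtain ⟨N, k3, k4⟩ := (hU v).1 k1
    obtain ⟨j, l, l1, -, rfl, -, l2, -⟩ := hZ N k3
    exact (mem_W0 hF hM).2 (Or.inr ⟨j, l, l1, mem_sdiff.2 ⟨k4, fun k5 => k2 (l2 k5)⟩⟩)
  have fin : ∀ σ', (∀ D ∈ G.ocs ((F.W0 M σ' ∪ U) \ XU), D ∈ G.ocs (F.rest M)) →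
      G.ocs ((F.W0 M σ' ∪ U) \ XU) = G.ocs (F.y0 G M Q q0) := by
    intro σ' k1
    refine U2_nd_fin hF hH hm (disjoint_sdiff_self_left.mono_right h1) (fun v hv => ?_) k1
    obtain ⟨k2, k3⟩ := mem_sdiff.1 hv
    refine mem_sdiff.2 ⟨mem_union_left _ ((W0_sub hF hM).1 k2), fun k4 => ?_⟩
    refine (mem_union.1 (h2 k4)).elim (fun k5 => ?_) k3
    obtain ⟨N, k6, k7⟩ := (hU v).1 k5
    obtain ⟨j, l, l1, -, rfl, -⟩ := hZ N k6
    exact disjoint_left.1 (rest_disj l1) k7 k2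
  have hnd : ∀ j l, F.Lf M σ j l ∨ F.Aj M j l → F.Nd M j l := fun j l k1 =>
    k1.elim MB4_lf_nd fun k2 => k2.1
  by_cases c1 : ∃ j l, F.Sg i j ∧ M.w j l ∉ Zs ∧ (F.Lf M σ j l ∨ F.Aj M j l)
  · obtain ⟨j, l, k1, k2, k3⟩ := c1
    refine ⟨j, l, k1, hnd j l k3, k2, qs_flip hF hH hM hc (hnd j l k3) ?_, fin _ fun D hD => ?_⟩
    · by_cases k4 : i = j ∧ k = l
      · obtain ⟨rfl, rfl⟩ := k4
        exact Or.inl h4
      · exact Or.inr ⟨i, k, k1.symm, hk, k4⟩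
    · refine hr ▸ SG.ocs_mono (fun v hv => ?_) hD
      obtain ⟨k4, k5⟩ := mem_sdiff.1 hv
      exact (mem_union.1 k4).elim (fun k6 => (fl_le hF hM k3).1 k6) fun k6 => hUW v k6 k5
  have hN : M.w i k ∉ Zs := fun k1 => by
    obtain ⟨j, l, l1, -, l2, l3, -⟩ := hZ _ k1
    obtain ⟨rfl, rfl⟩ := hM.inj l1 hk.1 l2
    simp only [ne_eq, not_true, false_or] at l3
    omega
  have hi : F.Sg i i := Or.inr rfl
  obtain ⟨w1, w2, w3⟩ := fl_cp hF hM hk.1 fun k1 => c1 ⟨i, k, hi, hN, Or.inl k1⟩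
  have hX : (F.W0 M (fl σ (M.w i k)) ∪ U) \ XU ⊆ F.W0 M (fl σ (M.w i k)) := fun v hv => by
    obtain ⟨k4, k5⟩ := mem_sdiff.1 hv
    exact (mem_union.1 k4).elim id fun k6 => w1 (hUW v k6 k5)
  have hoff : ∀ D ∈ G.ocs (F.W0 M (fl σ (M.w i k))), Disjoint (M.w i k) (G.vs D) →
      G.vs D ⊆ F.W0 M σ := fun D k1 k2 v hv =>
    (mem_union.1 (w2 ((SG.ocs_vs k1).1 hv))).resolve_right (disjoint_right.1 k2 hv)
  refine ⟨i, k, hi, hk, hN, qs_flip hF hH hM hc hk (Or.inl h4), fin _ fun D hD => ?_⟩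
  by_cases c2 : ∃ j l, F.Sg i j ∧ (F.Lf M σ j l ∨ F.Aj M j l)
  · obtain ⟨j, l, k1, k3⟩ := c2
    have k2 : M.w j l ∈ Zs := by_contra fun k2 => c1 ⟨j, l, k1, k2, k3⟩
    have k4 := hnd j l k3
    have k5 : ¬ (j = i ∧ l = k) := by
      rintro ⟨rfl, rfl⟩
      exact hN k2
    have k6 := cls_fl2 hM hc hk k4 k1 k5
    by_cases c3 : F.Aj M j l
    · have k7 := par0 hF hH hM k6
      rw [(fl_aj hM c3).2.1] at k7
      obtain ⟨v, hv⟩ : ∃ v, (M.w i k \ F.xs M (fl σ (M.w i k)) i k).Nonempty →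
          v ∈ M.w i k \ F.xs M (fl σ (M.w i k)) i k := by
        by_cases k8 : (M.w i k \ F.xs M (fl σ (M.w i k)) i k).Nonempty
        · exact ⟨_, fun _ => k8.choose_spec⟩
        · exact ⟨F.v0, fun k9 => absurd k9 k8⟩
      rw [← hr, ← SG.add_none (v := v) hF.hc k7.1 w1 ((par0 hF hH hM hc).2.trans k7.2.symm)
        fun D' k8 => ?_]
      · exact SG.ocs_mono hX hD
      by_cases k9 : Disjoint (M.w i k) (G.vs D')
      · exact Or.inl (hoff D' k8 k9)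
      · obtain ⟨l1, l2, -⟩ := rung_on hF hM hk.1 (U2_nd_dis hk.1) (SG.mem_ocs.1 k8).1
          (SG.mem_ocs.1 k8).2.1.2.1 k9
        exact Or.inr (l2 (hv (sdiff_nonempty.2 fun l3 =>
          l1.2 (Subset.antisymm (xs_sub hF hM hk.1).1 l3))))
    · have k7 : F.Lf M (fl σ (M.w i k)) j l :=
        ⟨k4.1, by rw [fl_xs hM hk.1 k4.1 k5]; exact (k3.resolve_right c3).2⟩
      obtain ⟨-, l2, l3⟩ := fl_lf hF hM k7 c3
      have k8 : G.ocs (F.W0 M (fl (fl σ (M.w i k)) (M.w j l))) = G.ocs (F.rest M) :=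
        mc_reg hF hH (mc_sig hm k6 (by omega))
      obtain ⟨j', l', m1, -, m2, -, -, m3⟩ := hZ _ k2
      obtain ⟨rfl, rfl⟩ := hM.inj m1 k4.1 m2
      rw [← k8, l2]
      exact SG.ocs_mono (fun v hv => mem_sdiff.2 ⟨hX hv, fun m4 =>
        (mem_sdiff.1 hv).2 (m3.resolve_right c3 m4)⟩) hD
  · have k1 := SG.ocs_mono hX hD
    exact hr ▸ (SG.ocs_vs hD).2.2 _ (hoff D k1 (U2_nd_none hF hH hm hg hx hy hk
      (fun j l k2 k3 => c2 ⟨j, l, k2, Or.inl k3⟩) k1 w2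
      ((disjoint_sdiff_self_left.mono_right h1).mono_left (SG.ocs_vs hD).1)))

end Kf

end Pool.Agent.Work.MP_8c679b_co
end
end
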